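import Pool.Agent.H467.PG.SpecD

/-!
# Distribution of a Selmer group over all twists: assembly

Project PG (helper467).
-/

set_option autoImplicit false
set_option linter.all false

open Finset Filter WithZero
open Pool.Agent.H467.PT
open Pool.Agent.H467.GK
open Pool.Agent.H467.CT (AS Bas IsTau Std Ev LV LF cc)
open scoped Classical

namespace Pool.Agent.H467.PG.Asm

/-- Existence of all data. -/
def S_GF : Prop := ∀ (k K : Type) [Field k] [Finite k] [CharP k 2] [Field K] [CharP K 2]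
  [Algebra k K], IsFF k K → Nonempty (GF k K)

theorem gf : S_GFR → S_GFS → S_GFU → S_GFP → S_GF := by
  intro h1 h2 h3 h4 k K _ _ _ _ _ _ hK
  obtain ⟨R⟩ := h1 k K hK
  obtain ⟨G⟩ := h2 k K hK
  obtain ⟨B, hne, hu, hr⟩ := h3 k K hK
  obtain ⟨B', hB'⟩ := h4 k K R
  refine ⟨⟨R, G, G.B₀ ∪ B ∪ B', ?_, ?_, ?_, ?_, ?_⟩⟩
  · exact fun x hx => by simp [hx]
  · obtain ⟨x, hx⟩ := hne
    exact ⟨x, by simp [hx]⟩
  · intro s hs
    exact hu s fun x hx => hs (by simp [hx])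
  · intro s hs
    exact hr s fun x hx => hs (by simp [hx])
  · intro j hj
    exact hB' _ (fun x hx => by simp [hx]) j hj

section cls

variable {K : Type} [Field K] [CharP K 2]

theorem mkq_add (a b : K) : mkq (a + b) = mkq a + mkq b := rfl

theorem mkq_self (a : K) : mkq a + mkq a = 0 := by
  rw [← mkq_add, CharTwo.add_self_eq_zero]
  rfl

theorem mkq_surj (χ : Qc K) : ∃ a : K, mkq a = χ := QuotientAddGroup.mk_surjective χ

theorem mkq_eq {a b : K} : mkq a = mkq b ↔ ∃ z : K, a = b + z ^ 2 + z := by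
  unfold mkq
  rw [QuotientAddGroup.eq]
  change AS (-a + b) ↔ _
  have h : -a = a := CharTwo.neg_eq a
  rw [h]
  constructor
  · rintro ⟨z, hz⟩
    refine ⟨z, ?_⟩
    have : a = (a + b) + b := by
      rw [add_assoc, CharTwo.add_self_eq_zero, add_zero]
    rw [this, hz]
    ring
  · rintro ⟨z, hz⟩
    refine ⟨z, ?_⟩
    rw [hz]
    have : b + z ^ 2 + z + b = (b + b) + (z ^ 2 + z) := by ring
    rw [this, CharTwo.add_self_eq_zero, zero_add]

theorem add_add_self (χ : Qc K) (a : K) : χ + mkq a + mkq a = χ := by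
  rw [add_assoc, mkq_self, add_zero]

theorem set_shift (a : K) (Q : Qc K → Prop) :
    {χ : Qc K | Q (χ + mkq a)} = (fun χ => χ + mkq a) '' {χ : Qc K | Q χ} := by
  ext χ
  constructor
  · intro h
    exact ⟨χ + mkq a, h, add_add_self χ a⟩
  · rintro ⟨χ', h, rfl⟩
    change Q (χ' + mkq a + mkq a)
    rw [add_add_self]
    exact h

theorem ncard_shift (a : K) (Q : Qc K → Prop) :
    {χ : Qc K | Q (χ + mkq a)}.ncard = {χ : Qc K | Q χ}.ncard := by
  rw [set_shift]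
  exact Set.ncard_image_of_injective _ (add_left_injective _)

theorem finite_shift (a : K) (Q : Qc K → Prop) (h : {χ : Qc K | Q χ}.Finite) :
    {χ : Qc K | Q (χ + mkq a)}.Finite := by
  rw [set_shift]
  exact h.image _

/-- Balanced at all places. -/
def BalA (a₀ : K) {I : Type} (b : I → K) (χ : Qc K) : Prop :=
  ∀ a : K, mkq a = χ → ∀ i, ∀ j : PV K, Bal j.1 (a₀ + a) (b i)

end cls

theorem total (hDST : S_DST) (hBEX : S_BEX) (hPOQ : S_POQ) (k K : Type) [Field k] [Finite k]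
    [CharP k 2] [Field K] [CharP K 2] [Algebra k K] (hK : IsFF k K) (F : GF k K) (a₀ : K)
    (I : Type) [Finite I] (b : I → K) (hb : ∀ i, b i ≠ 0) :
    (∃ C : ℝ, 0 < C ∧ ∀ m : ℕ, {χ : Qc K | DegLE F.R χ m}.Finite ∧
      ({χ : Qc K | DegLE F.R χ m}.ncard : ℝ) ≤ C * (Nat.card k : ℝ) ^ (2 * m)) ∧
    (∃ c' : ℝ, 0 < c' ∧ ∃ m₀ : ℕ, ∀ m, m₀ ≤ m → c' * (Nat.card k : ℝ) ^ (2 * m) ≤
      ({χ : Qc K | BalA a₀ b χ ∧ DegLE F.R χ m}.ncard : ℝ)) ∧
    ∀ r : ℕ, Tendsto (fun m : ℕ =>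
      ({χ : Qc K | (BalA a₀ b χ ∧ DegLE F.R χ m) ∧
        (SV (χ + mkq a₀)).ncard = 2 ^ (r + 1)}.ncard : ℝ) /
      ({χ : Qc K | BalA a₀ b χ ∧ DegLE F.R χ m}.ncard : ℝ)) atTop (nhds (alp r)) := by
  letI : Fintype I := Fintype.ofFinite I
  -- the supports
  have hsup : ∀ x : K, ∃ s : Finset (PV K), ∀ j : PV K, j ∉ s → j.1 x ≤ 1 ∧
      (x ≠ 0 → j.1 x = 1) := by
    intro x
    by_cases hx : x = 0
    · exact ⟨∅, fun j _ => ⟨by rw [hx, map_zero]; exact zero_le_one, fun h => absurd hx h⟩⟩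
    · obtain ⟨D, hD, -⟩ := F.R.dvd x hx
      refine ⟨D.support, fun j hj => ?_⟩
      have h1 : j.1 x = 1 := by
        rw [hD j, Finsupp.notMem_support_iff.1 hj]
        exact exp_zero
      exact ⟨h1.le, fun _ => h1⟩
  choose sp hsp using hsup
  let S : Finset (PV K) := F.B₁ ∪ sp a₀ ∪ Finset.univ.biUnion fun i => sp (b i)
  have hS1 : F.B₁ ⊆ S := fun x hx => by simp [S, hx]
  have hS2 : ∀ j : PV K, j ∉ S → j.1 a₀ ≤ 1 := fun j hj => (hsp a₀ j fun h => hj (by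
    simp [S, h])).1
  have hS3 : ∀ j : PV K, j ∉ S → ∀ i, j.1 (b i) = 1 := fun j hj i => (hsp (b i) j fun h => hj (by
    simp only [S, Finset.mem_union, Finset.mem_biUnion, Finset.mem_univ, true_and]
    exact Or.inr ⟨i, h⟩)).2 (hb i)
  let P : PV K → Qc K → Prop := fun j χ => ∀ i, ∀ a : K, mkq a = χ → Bal j.1 a (b i)
  have hP1 : ∀ j χ χ', Spl j (χ + χ') → P j χ → P j χ' := by
    intro j χ χ' h1 h2 i a' ha'
    obtain ⟨a, ha⟩ := mkq_surj χ
    refine (hBEX K j.1 j.2).2 a a' (b i) ?_ (h2 i a ha)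
    rw [(hPOQ K j).2.1]
    rw [mkq_add, ha, ha']
    exact h1
  have hP2 : ∃ c : PV K → K, ∀ j ∈ S, P j (mkq (c j)) := by
    have h1 : ∀ j : PV K, ∃ c : K, ∀ i, Bal j.1 c (b i) := fun j => (hBEX K j.1 j.2).1 I b
    choose c hc using h1
    refine ⟨c, fun j _ i a ha => ?_⟩
    refine (hBEX K j.1 j.2).2 (c j) a (b i) ?_ (hc j i)
    rw [mkq_eq] at ha
    obtain ⟨z, hz⟩ := ha
    refine ⟨z, ?_⟩
    have h2 : c j + a + z ^ 2 + z = 0 := by
      rw [hz]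
      have : c j + (c j + z ^ 2 + z) + z ^ 2 + z = (c j + c j) + (z ^ 2 + z ^ 2) + (z + z) := by ring
      rw [this, CharTwo.add_self_eq_zero (c j), CharTwo.add_self_eq_zero (z ^ 2),
        CharTwo.add_self_eq_zero z, add_zero, add_zero]
    rw [h2, map_zero]
    exact zero_lt_one
  have hbal : ∀ χ : Qc K, BalA a₀ b χ ↔ ∀ j ∈ S, P j (χ + mkq a₀) := by
    intro χ
    constructor
    · intro h j _ i a' ha'
      have h1 : mkq (a₀ + a') = χ := by
        rw [mkq_add, ha', add_comm, add_add_self]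
      have h2 := h _ h1 i j
      rwa [← add_assoc, CharTwo.add_self_eq_zero, zero_add] at h2
    · intro h a ha i j
      by_cases hj : j ∈ S
      · exact h j hj i (a₀ + a) (by rw [mkq_add, ha, add_comm])
      · exact Or.inl (hS3 j hj i)
  obtain ⟨⟨C, hC, h1⟩, ⟨c', hc', m₀, h2⟩, h3⟩ := hDST k K hK F a₀ S hS1 hS2 P hP1 hP2
  have e1 : ∀ m, {χ : Qc K | DegLE F.R χ m} =
      {χ : Qc K | (fun χ' => DegLE F.R (χ' + mkq a₀) m) (χ + mkq a₀)} := by
    intro m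
    ext χ
    simp only [Set.mem_setOf_eq, add_add_self]
  have e2 : ∀ m, {χ : Qc K | BalA a₀ b χ ∧ DegLE F.R χ m} =
      {χ : Qc K | (fun χ' => (∀ j ∈ S, P j χ') ∧ DegLE F.R (χ' + mkq a₀) m) (χ + mkq a₀)} := by
    intro m
    ext χ
    simp only [Set.mem_setOf_eq, add_add_self, hbal]
  have e3 : ∀ m r, {χ : Qc K | (BalA a₀ b χ ∧ DegLE F.R χ m) ∧
        (SV (χ + mkq a₀)).ncard = 2 ^ (r + 1)} =
      {χ : Qc K | (fun χ' => ((∀ j ∈ S, P j χ') ∧ DegLE F.R (χ' + mkq a₀) m) ∧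
        (SV χ').ncard = 2 ^ (r + 1)) (χ + mkq a₀)} := by
    intro m r
    ext χ
    simp only [Set.mem_setOf_eq, add_add_self, hbal]
  refine ⟨⟨C, hC, fun m => ?_⟩, ⟨c', hc', m₀, fun m hm => ?_⟩, fun r => ?_⟩
  · rw [e1 m, ncard_shift a₀ (fun χ' => DegLE F.R (χ' + mkq a₀) m)]
    exact ⟨finite_shift a₀ _ (h1 m).1, (h1 m).2⟩
  · rw [e2 m, ncard_shift a₀ (fun χ' => (∀ j ∈ S, P j χ') ∧ DegLE F.R (χ' + mkq a₀) m)]
    exact h2 m hm
  · refine (h3 r).congr fun m => ?_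
    rw [e2 m, e3 m r, ncard_shift a₀ (fun χ' => (∀ j ∈ S, P j χ') ∧ DegLE F.R (χ' + mkq a₀) m),
      ncard_shift a₀ (fun χ' => ((∀ j ∈ S, P j χ') ∧ DegLE F.R (χ' + mkq a₀) m) ∧
        (SV χ').ncard = 2 ^ (r + 1))]

/-! ### The norm of the conductor -/

section cond

variable {K : Type} [Field K] [CharP K 2]

/-- The smallest pole order. -/
noncomputable def pO (u : Vl K) (a : K) : ℕ :=
  sInf {n : ℕ | ∃ z : K, u (a + z ^ 2 + z) ≤ exp (n : ℤ)}

/-- The exponent of the conductor. -/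
noncomputable def cE (u : Vl K) (a : K) : ℕ := if pO u a = 0 then 0 else pO u a + 1

/-- The norm of the conductor. -/
noncomputable def cN (a : K) : ℕ :=
  ∏ᶠ v : PV K, Nat.card (IsLocalRing.ResidueField v.1.valuationSubring) ^ cE v.1 a

theorem pO_eq (v : PV K) (a : K) : pO v.1 a = poq v (mkq a) := by
  unfold pO poq Ple
  congr 1
  ext n
  constructor
  · rintro ⟨z, hz⟩
    exact ⟨a + z ^ 2 + z, mkq_eq.2 ⟨z, rfl⟩, hz⟩
  · rintro ⟨a', h, hz⟩
    obtain ⟨z, rfl⟩ := mkq_eq.1 h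
    exact ⟨z, hz⟩

variable {k : Type} [Field k] [Finite k] [Algebra k K]

theorem fin_res (R : GFR k K) (v : PV K) :
    Finite (IsLocalRing.ResidueField v.1.valuationSubring) := by
  have h : Nat.card (IsLocalRing.ResidueField v.1.valuationSubring) ≠ 0 := by
    rw [R.resc v]
    exact pow_ne_zero _ Nat.card_pos.ne'
  exact Nat.finite_of_card_ne_zero h

theorem cE_eq (hPOQ : S_POQ) (R : GFR k K) (v : PV K) (a : K) :
    cE v.1 a = 2 * ((poq v (mkq a) + 1) / 2) := by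
  haveI := fin_res R v
  unfold cE
  rw [pO_eq]
  obtain ⟨-, -, -, -, -, -, -, -, -, h⟩ := hPOQ K v
  by_cases h0 : poq v (mkq a) = 0
  · rw [if_pos h0, h0]
  · rw [if_neg h0]
    obtain ⟨m, hm⟩ := (h this).1 _ h0
    omega

theorem cN_eq (hPOQ : S_POQ) (R : GFR k K) (a : K) (D : PV K →₀ ℕ)
    (hD : ∀ j, (poq j (mkq a) + 1) / 2 = D j) :
    cN a = Nat.card k ^ (2 * D.sum fun j n => n * R.deg j) := by
  unfold cN
  have h1 : ∀ v : PV K, Nat.card (IsLocalRing.ResidueField v.1.valuationSubring) ^ cE v.1 a =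
      Nat.card k ^ (2 * (D v * R.deg v)) := by
    intro v
    rw [cE_eq hPOQ R, hD v, R.resc v, ← pow_mul]
    congr 1
    ring
  rw [finprod_congr h1, finprod_eq_prod_of_mulSupport_subset (s := D.support), Finset.prod_pow_eq_pow_sum,
    Finsupp.sum, Finset.mul_sum]
  intro v hv
  rw [Function.mem_mulSupport] at hv
  rw [Finset.mem_coe, Finsupp.mem_support_iff]
  intro h
  apply hv
  rw [h, zero_mul, mul_zero, pow_zero]

theorem hasD_ex (hHSD : S_HSD) (R : GFR k K) (χ : Qc K) :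
    ∃ D : PV K →₀ ℕ, ∀ j, (poq j χ + 1) / 2 = D j := by
  obtain ⟨D, hD⟩ := hHSD k K R ∅ χ
  refine ⟨D.mapDomain (fun j => j.1), fun j => ?_⟩
  have h := Finsupp.mapDomain_apply (f := fun j : Ob (∅ : Finset (PV K)) => j.1)
    Subtype.val_injective D ⟨j, Finset.notMem_empty j⟩
  change _ = (D.mapDomain (fun j => j.1)) j
  exact (hD ⟨j, Finset.notMem_empty j⟩).trans h.symm

theorem cN_le_iff (hPOQ : S_POQ) (hHSD : S_HSD) (R : GFR k K) (a : K) {X : ℕ} (hX : 1 ≤ X) :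
    cN a ≤ X ↔ DegLE R (mkq a) (Nat.log (Nat.card k ^ 2) X) := by
  have hq : 1 < Nat.card k := Finite.one_lt_card
  have hq2 : 1 < Nat.card k ^ 2 := by nlinarith
  have h1 : ∀ D : PV K →₀ ℕ, (∀ j, (poq j (mkq a) + 1) / 2 = D j) →
      (cN a ≤ X ↔ (D.sum fun j n => n * R.deg j) ≤ Nat.log (Nat.card k ^ 2) X) := by
    intro D hD
    rw [cN_eq hPOQ R a D hD, pow_mul]
    exact (Nat.le_log_iff_pow_le hq2 (by omega)).symm
  constructor
  · intro h
    obtain ⟨D, hD⟩ := hasD_ex hHSD R (mkq a)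
    exact ⟨D, hD, (h1 D hD).1 h⟩
  · rintro ⟨D, hD, h⟩
    exact (h1 D hD).2 h

end cond

/-- The main theorem, with the norm of the conductor. -/
theorem law (hGF : S_GF) (hDST : S_DST) (hBEX : S_BEX) (hPOQ : S_POQ) (hHSD : S_HSD)
    (k K : Type) [Field k] [Finite k]
    [CharP k 2] [Field K] [CharP K 2] [Algebra k K] (hK : IsFF k K) (a₀ : K)
    (I : Type) [Finite I] (b : I → K) (hb : ∀ i, b i ≠ 0) :
    (∃ C : ℝ, ∀ X : ℕ, {χ : Qc K | ∃ a, mkq a = χ ∧ cN a ≤ X}.Finite ∧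
      ({χ : Qc K | ∃ a, mkq a = χ ∧ cN a ≤ X}.ncard : ℝ) ≤ C * X) ∧
    (∃ c' : ℝ, 0 < c' ∧ ∀ᶠ X : ℕ in atTop, c' * (X : ℝ) ≤
      ({χ : Qc K | (∃ a, mkq a = χ ∧ cN a ≤ X) ∧ BalA a₀ b χ}.ncard : ℝ)) ∧
    ∀ r : ℕ, Tendsto (fun X : ℕ =>
      ({χ : Qc K | ((∃ a, mkq a = χ ∧ cN a ≤ X) ∧ BalA a₀ b χ) ∧
        (SV (χ + mkq a₀)).ncard = 2 ^ (r + 1)}.ncard : ℝ) /
      ({χ : Qc K | (∃ a, mkq a = χ ∧ cN a ≤ X) ∧ BalA a₀ b χ}.ncard : ℝ)) atTop (nhds (alp r)) := by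
  obtain ⟨F⟩ := hGF k K hK
  have hq : 1 < Nat.card k := Finite.one_lt_card
  have hq2 : 1 < Nat.card k ^ 2 := by nlinarith
  have hqR : (1 : ℝ) < (Nat.card k : ℝ) := by exact_mod_cast hq
  obtain ⟨⟨C, hC, h1⟩, ⟨c', hc', m₀, h2⟩, h3⟩ := total hDST hBEX hPOQ k K hK F a₀ I b hb
  have e0 : ∀ X : ℕ, 1 ≤ X → ∀ χ : Qc K, (∃ a, mkq a = χ ∧ cN a ≤ X) ↔
      DegLE F.R χ (Nat.log (Nat.card k ^ 2) X) := by
    intro X hX χ
    constructor
    · rintro ⟨a, rfl, h⟩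
      exact (cN_le_iff hPOQ hHSD F.R a hX).1 h
    · intro h
      obtain ⟨a, rfl⟩ := mkq_surj χ
      exact ⟨a, rfl, (cN_le_iff hPOQ hHSD F.R a hX).2 h⟩
  have hlog : Tendsto (fun X : ℕ => Nat.log (Nat.card k ^ 2) X) atTop atTop := by
    refine tendsto_atTop.2 fun m => ?_
    filter_upwards [eventually_ge_atTop ((Nat.card k ^ 2) ^ m)] with X hX
    exact (Nat.le_log_iff_pow_le hq2 (by
      have : 0 < (Nat.card k ^ 2) ^ m := by positivity
      omega)).2 hX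
  have hle : ∀ X : ℕ, 1 ≤ X → (Nat.card k : ℝ) ^ (2 * Nat.log (Nat.card k ^ 2) X) ≤ X := by
    intro X hX
    have h4 := Nat.pow_log_le_self (Nat.card k ^ 2) (x := X) (by omega)
    rw [← pow_mul] at h4
    exact_mod_cast h4
  have hge : ∀ X : ℕ, (X : ℝ) ≤
      (Nat.card k : ℝ) ^ 2 * (Nat.card k : ℝ) ^ (2 * Nat.log (Nat.card k ^ 2) X) := by
    intro X
    have h4 := Nat.lt_pow_succ_log_self hq2 X
    have h5 : (Nat.card k ^ 2) ^ (Nat.log (Nat.card k ^ 2) X).succ =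
        Nat.card k ^ 2 * Nat.card k ^ (2 * Nat.log (Nat.card k ^ 2) X) := by
      rw [← pow_mul, ← pow_add]
      congr 1
      simp only [Nat.succ_eq_add_one]
      ring
    rw [h5] at h4
    exact_mod_cast h4.le
  refine ⟨⟨C, fun X => ?_⟩, ⟨c' / (Nat.card k : ℝ) ^ 2, by positivity, ?_⟩, fun r => ?_⟩
  · rcases Nat.eq_zero_or_pos X with rfl | hX
    · -- no class
      have h5 : {χ : Qc K | ∃ a, mkq a = χ ∧ cN a ≤ 0} = ∅ := by
        ext χ
        constructor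
        · rintro ⟨a, rfl, h⟩
          exfalso
          obtain ⟨D, hD⟩ := hasD_ex hHSD F.R (mkq a)
          rw [cN_eq hPOQ F.R a D hD] at h
          have : 0 < Nat.card k ^ (2 * D.sum fun j n => n * F.R.deg j) := by positivity
          omega
        · intro h
          exact absurd h (Set.notMem_empty χ)
      rw [h5]
      simp
    · have h5 : {χ : Qc K | ∃ a, mkq a = χ ∧ cN a ≤ X} =
          {χ : Qc K | DegLE F.R χ (Nat.log (Nat.card k ^ 2) X)} := by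
        ext χ
        exact e0 X hX χ
      rw [h5]
      exact ⟨(h1 _).1, (h1 _).2.trans (mul_le_mul_of_nonneg_left (hle X hX) hC.le)⟩
  · filter_upwards [hlog.eventually (eventually_ge_atTop m₀), eventually_ge_atTop 1] with X hX hX1
    have h5 : {χ : Qc K | (∃ a, mkq a = χ ∧ cN a ≤ X) ∧ BalA a₀ b χ} =
        {χ : Qc K | BalA a₀ b χ ∧ DegLE F.R χ (Nat.log (Nat.card k ^ 2) X)} := by
      ext χ
      simp only [Set.mem_setOf_eq, e0 X hX1 χ]
      exact and_comm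
    rw [h5]
    refine le_trans ?_ (h2 _ hX)
    rw [div_mul_eq_mul_div, div_le_iff₀ (by positivity)]
    calc c' * (X : ℝ) ≤ c' * ((Nat.card k : ℝ) ^ 2 *
          (Nat.card k : ℝ) ^ (2 * Nat.log (Nat.card k ^ 2) X)) :=
          mul_le_mul_of_nonneg_left (hge X) hc'.le
      _ = _ := by ring
  · refine ((h3 r).comp hlog).congr' ?_
    filter_upwards [eventually_ge_atTop 1] with X hX1
    have h5 : {χ : Qc K | (∃ a, mkq a = χ ∧ cN a ≤ X) ∧ BalA a₀ b χ} =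
        {χ : Qc K | BalA a₀ b χ ∧ DegLE F.R χ (Nat.log (Nat.card k ^ 2) X)} := by
      ext χ
      simp only [Set.mem_setOf_eq, e0 X hX1 χ]
      exact and_comm
    have h6 : {χ : Qc K | ((∃ a, mkq a = χ ∧ cN a ≤ X) ∧ BalA a₀ b χ) ∧
          (SV (χ + mkq a₀)).ncard = 2 ^ (r + 1)} =
        {χ : Qc K | (BalA a₀ b χ ∧ DegLE F.R χ (Nat.log (Nat.card k ^ 2) X)) ∧
          (SV (χ + mkq a₀)).ncard = 2 ^ (r + 1)} := by
      ext χ
      simp only [Set.mem_setOf_eq, e0 X hX1 χ]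
      tauto
    rw [h5, h6]
    rfl

end Pool.Agent.H467.PG.Asm
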