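import Pool.Agent.H467.PG.SpecD

/-!
# Balanced local classes
-/

set_option autoImplicit false

open Finset Filter WithZero
open Pool.Agent.H467.PT
open Pool.Agent.H467.GK
open Pool.Agent.H467.CT (AS Bas IsTau Std Ev LV LF cc)
open scoped Classical

namespace Pool.Agent.H467.PG.Bex

theorem exists_lt (x : WithZero (Multiplicative ℤ)) : ∃ n : ℤ, x < exp n := by
  by_cases hx : x = 0
  · exact ⟨0, by rw [hx]; exact exp_pos⟩
  · refine ⟨log x + 1, ?_⟩
    rw [← exp_log hx, exp_lt_exp, log_exp]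
    omega

theorem bound {I : Type} [Finite I] (f : I → WithZero (Multiplicative ℤ)) :
    ∃ n : ℤ, 0 < n ∧ (∀ m : ℤ, n ≠ 2 * m) ∧ ∀ i, f i < exp n := by
  choose g hg using fun i => exists_lt (f i)
  obtain ⟨M, hM⟩ := (Set.finite_range g).bddAbove
  refine ⟨2 * |M| + 1, by positivity, fun m hm => by omega, fun i => ?_⟩
  refine (hg i).trans_le ?_
  rw [exp_le_exp]
  have h1 : g i ≤ M := hM ⟨i, rfl⟩
  have h2 := le_abs_self M
  have h3 := abs_nonneg M
  omega

theorem far {K : Type} [Field K] (u : Vl K) {c : K} {n : ℤ} (hn : 0 < n)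
    (hodd : ∀ m : ℤ, n ≠ 2 * m) (hc : u c = exp n) (z : K) : exp n ≤ u (c + z ^ 2 + z) := by
  have h1 : (1 : WithZero (Multiplicative ℤ)) < exp n := by
    rw [← exp_zero, exp_lt_exp]
    exact hn
  have hne : u c ≠ u (z ^ 2 + z) := by
    rw [hc]
    rcases le_or_gt (u z) 1 with hz | hz
    · have h2 : u (z ^ 2 + z) ≤ 1 := by
        refine (u.map_add _ _).trans (max_le ?_ hz)
        rw [map_pow]
        exact pow_le_one₀ zero_le hz
      exact (h2.trans_lt h1).ne'
    · have hz0 : u z ≠ 0 := (zero_lt_one.trans hz).ne'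
      have h2 : u (z ^ 2 + z) = (u z) ^ 2 := by
        have h3 : u z < u (z ^ 2) := by
          rw [map_pow, sq]
          have h4 : (u z) * 1 < u z * u z := by
            exact (mul_lt_mul_iff_right₀ (zero_lt_one.trans hz)).2 hz
          rwa [mul_one] at h4
        rw [u.map_add_eq_of_lt_left h3, map_pow]
      rw [h2]
      intro h
      apply hodd (log (u z))
      have h5 : exp n = exp (2 * log (u z)) := by
        rw [h, two_mul, exp_add, exp_log hz0, sq]
      exact exp_injective h5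
  rw [add_assoc, u.map_add_of_distinct_val hne, ← hc]
  exact le_max_left _ _

/-- Balanced local classes exist. -/
theorem bex : S_BEX := by
  intro K _ _ u hu
  constructor
  · intro I _ b
    obtain ⟨n, hn, hodd, hb⟩ := bound (fun i => (u (b i)) ^ 2)
    obtain ⟨c, hc⟩ := hu (exp n)
    have h1 : (1 : WithZero (Multiplicative ℤ)) < exp n := by
      rw [← exp_zero, exp_lt_exp]
      exact hn
    refine ⟨c, fun i => ?_⟩
    rcases lt_trichotomy (u (b i)) 1 with h | h | h
    · refine Or.inr (Or.inl ⟨h, ?_⟩)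
      rintro ⟨z, hz⟩
      exact absurd (h1.trans_le (far u hn hodd hc z)) (not_lt_of_gt hz)
    · exact Or.inl h
    · exact Or.inr (Or.inr ⟨h, fun z => (hb i).trans_le (far u hn hodd hc z)⟩)
  · intro a a' b ⟨z₀, hz₀⟩ hB
    have h2 : (2 : K) = 0 := CharTwo.two_eq_zero
    rcases hB with h | ⟨h, hS⟩ | ⟨h, hS⟩
    · exact Or.inl h
    · refine Or.inr (Or.inl ⟨h, ?_⟩)
      rintro ⟨z, hz⟩
      apply hS
      refine ⟨z + z₀, ?_⟩
      have e : a + (z + z₀) ^ 2 + (z + z₀) = (a + a' + z₀ ^ 2 + z₀) + (a' + z ^ 2 + z) := by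
        linear_combination (z * z₀ - a') * h2
      rw [e]
      exact u.map_add_lt hz₀ hz
    · refine Or.inr (Or.inr ⟨h, fun z => ?_⟩)
      have e : a' + z ^ 2 + z = (a + a' + z₀ ^ 2 + z₀) + (a + (z + z₀) ^ 2 + (z + z₀)) := by
        linear_combination (-(a + z * z₀ + z₀ ^ 2 + z₀)) * h2
      have h3 := hS (z + z₀)
      have h4 : 1 < (u b) ^ 2 := one_lt_pow₀ h two_ne_zero
      have h5 : u (a + a' + z₀ ^ 2 + z₀) < u (a + (z + z₀) ^ 2 + (z + z₀)) :=
        hz₀.trans (h4.trans h3)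
      rw [e, u.map_add_eq_of_lt_right h5]
      exact h3

end Pool.Agent.H467.PG.Bex
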