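import Pool.Agent.H467.PG.SpecA
import Pool.Agent.H467.PT.Gc

/-!
# Distribution of a Selmer group over all twists: bad sets are rare
-/

set_option autoImplicit false
set_option linter.all false

open Finset Filter
open Pool.Agent.H467.PT
open Pool.Agent.H467.PT.Gc
open scoped Classical

namespace Pool.Agent.H467.PG.Bad

/-- the inequality of Hall in the form with a power -/
theorem hal_of_halg (h : S_HALG) : S_HAL := by
  intro ι S q C c W n₀ hP
  obtain ⟨C', hC', hH⟩ := h ι S q C c W n₀ hP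
  refine ⟨C' * Real.exp (C / 2), by positivity, fun x Y N => ?_⟩
  have h1 := hH Set.univ x Y N
  have e1 : ∀ U : Finset ι, cntI S Set.univ x Y U = cnt S x Y U := by
    intro U
    unfold cntI cnt
    simp
  have e2 : ∀ l : ℕ, cI S Set.univ l = (S.eq l).card := by
    intro l
    unfold cI
    simp
  simp only [e1, e2] at h1
  refine h1.trans ?_
  have hq0 : (0 : ℝ) < q := by exact_mod_cast (by have := hP.q2; omega : 0 < q)
  have hx : (0 : ℝ) < (x : ℝ) + 1 := by positivity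
  set m := min Y N with hm
  have hm0 : (0 : ℝ) < ((m : ℕ) : ℝ) + 1 := by positivity
  have key : Real.exp (-(1 / 2) * ∑ l ∈ Ioc x m, ((S.eq l).card : ℝ) / (q : ℝ) ^ l) ≤
      Real.exp (C / 2) * (((x : ℝ) + 1) / ((m : ℝ) + 1)) ^ (c / 2) := by
    rcases le_or_gt x m with hxm | hxm
    · have h2 := hP.low x m hxm
      rw [Real.rpow_def_of_pos (by positivity), ← Real.exp_add]
      apply Real.exp_le_exp.2
      have h3 : Real.log (((x : ℝ) + 1) / ((m : ℝ) + 1)) = -Real.log (((m : ℝ) + 1) / ((x : ℝ) + 1)) := by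
        rw [← Real.log_inv, inv_div]
      rw [h3]
      nlinarith
    · have h2 : Ioc x m = ∅ := Finset.Ioc_eq_empty (by omega)
      rw [h2, Finset.sum_empty, mul_zero, Real.exp_zero]
      have h3 : 1 ≤ ((x : ℝ) + 1) / ((m : ℝ) + 1) := by
        rw [one_le_div hm0]
        have : (m : ℝ) < x := by exact_mod_cast hxm
        linarith
      have h4 : 1 ≤ (((x : ℝ) + 1) / ((m : ℝ) + 1)) ^ (c / 2) :=
        Real.one_le_rpow h3 (by have := hP.c0; linarith)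
      have h5 : 1 ≤ Real.exp (C / 2) := Real.one_le_exp (by have := hP.C1; linarith)
      nlinarith
  calc C' * (q : ℝ) ^ N * Real.exp (-(1 / 2) * ∑ l ∈ Ioc x m, ((S.eq l).card : ℝ) / (q : ℝ) ^ l)
      ≤ C' * (q : ℝ) ^ N * (Real.exp (C / 2) * (((x : ℝ) + 1) / ((m : ℝ) + 1)) ^ (c / 2)) :=
        mul_le_mul_of_nonneg_left key (by positivity)
    _ = C' * Real.exp (C / 2) * (q : ℝ) ^ N * (((x : ℝ) + 1) / ((m : ℝ) + 1)) ^ (c / 2) := by ring

section conds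

variable {ι : Type} (S : PSys ι) {q : ℕ} {C c : ℝ} {W n₀ : ℕ}

/-- the sum for `g2` -/
theorem bound2 (hP : PHyp S q C c W n₀) {C' : ℝ} (hC' : 0 < C')
    (hH : ∀ x Y N : ℕ, ∑ U ∈ S.UU N, (1 / 2 : ℝ) ^ (cnt S x Y U) ≤
      C' * (q : ℝ) ^ N * (((x : ℝ) + 1) / (((min Y N : ℕ) : ℝ) + 1)) ^ (c / 2))
    {K t : ℝ} (hK0 : 0 < K) (ht0 : 0 < t)
    (hK : ∀ d : ℕ, (2 * ((d : ℝ) + 1) / ((Yf d : ℝ) + 1)) ^ (c / 2) ≤ K * t ^ d)
    {L N : ℕ} (hN : 48 ≤ N) {r : ℝ} (hr1 : r < 1) (htr : t ≤ r) :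
    ∑ U ∈ S.UU N,
      ∑ j ∈ U.filter (fun j => L < S.deg j ∧ Yf (S.deg j) < S.dg U),
        (1 / 2 : ℝ) ^ (cnt S (S.deg j) (Yf (S.deg j)) U) ≤
      C * (C' * (q : ℝ) ^ N * K) * (r ^ L / (1 - r)) := by
  have hq0 : (0 : ℝ) < q := by exact_mod_cast (by have := hP.q2; omega : 0 < q)
  have hr0 : 0 ≤ r := ht0.le.trans htr
  refine le_trans ?_ (regroup_le S hP L N
    (fun d => C' * (q : ℝ) ^ N * (1 / (q : ℝ)) ^ d * (K * t ^ d))
    (by positivity) hr0 hr1 (fun d _ => by positivity) ?_)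
  · have h1 : ∀ U ∈ S.UU N,
        ∑ j ∈ U.filter (fun j => L < S.deg j ∧ Yf (S.deg j) < S.dg U),
          (1 / 2 : ℝ) ^ (cnt S (S.deg j) (Yf (S.deg j)) U) ≤
        ∑ j ∈ (S.le N).filter (fun j => L < S.deg j), (if Yf (S.deg j) < N then
          (if j ∈ U then (1 / 2 : ℝ) ^ (cnt S (S.deg j) (Yf (S.deg j)) U) else 0) else 0) := by
      intro U hU1
      have hdg := (mem_UU S).mp hU1
      have h2 : ∑ j ∈ U.filter (fun j => L < S.deg j ∧ Yf (S.deg j) < S.dg U),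
          (1 / 2 : ℝ) ^ (cnt S (S.deg j) (Yf (S.deg j)) U) =
          ∑ j ∈ U.filter (fun j => L < S.deg j ∧ Yf (S.deg j) < S.dg U),
          (if Yf (S.deg j) < N then
          (if j ∈ U then (1 / 2 : ℝ) ^ (cnt S (S.deg j) (Yf (S.deg j)) U) else 0) else 0) := by
        refine Finset.sum_congr rfl fun j hj => ?_
        obtain ⟨hj1, hj0, hj2⟩ := Finset.mem_filter.mp hj
        rw [hdg] at hj2
        rw [if_pos hj2, if_pos hj1]
      rw [h2]
      refine Finset.sum_le_sum_of_subset_of_nonneg ?_ fun j _ _ => ?_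
      · intro j hj
        obtain ⟨hj1, hj0, hj2⟩ := Finset.mem_filter.mp hj
        refine Finset.mem_filter.mpr ⟨?_, hj0⟩
        rw [S.mem_le, ← hdg]
        exact deg_le_dg S hj1
      · split_ifs <;> positivity
    refine (Finset.sum_le_sum h1).trans ?_
    rw [Finset.sum_comm]
    refine Finset.sum_le_sum fun j _ => ?_
    by_cases hj : Yf (S.deg j) < N
    · simp only [if_pos hj]
      exact inner2 S hP hC' hH hK hN j hj
    · simp only [if_neg hj, Finset.sum_const_zero]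
      positivity
  · intro d _
    have h2 : t ^ d ≤ r ^ d := pow_le_pow_left₀ ht0.le htr d
    have h3 : (q : ℝ) ^ d * (C' * (q : ℝ) ^ N * (1 / (q : ℝ)) ^ d * (K * t ^ d)) =
        C' * (q : ℝ) ^ N * K * t ^ d := by
      rw [one_div, inv_pow]
      field_simp
    rw [h3]
    exact mul_le_mul_of_nonneg_left h2 (by positivity)

/-- the sum for `g4` -/
theorem bound4 (hP : PHyp S q C c W n₀) {C' : ℝ} (hC' : 0 < C')
    (hc : ∀ N : ℕ, ((S.UU N).card : ℝ) ≤ C' * (q : ℝ) ^ N)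
    {L N : ℕ} {r : ℝ} (hr1 : r < 1) (hr2 : 1 / 2 ≤ r) :
    ∑ U ∈ S.UU N, ∑ p ∈ U.filter (fun p => L < S.deg p), (1 / (q : ℝ)) ^ (S.deg p) ≤
      C * (C' * (q : ℝ) ^ N) * (r ^ L / (1 - r)) := by
  have hq0 : (0 : ℝ) < q := by exact_mod_cast (by have := hP.q2; omega : 0 < q)
  have hq2 : (2 : ℝ) ≤ q := by exact_mod_cast hP.q2
  have hr0 : 0 ≤ r := by linarith
  refine le_trans ?_ (regroup_le S hP L N
    (fun d => (1 / (q : ℝ)) ^ d * (C' * (q : ℝ) ^ N * (1 / (q : ℝ)) ^ d))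
    (by positivity) hr0 hr1 (fun d _ => by positivity) ?_)
  · have h1 : ∀ U ∈ S.UU N,
        ∑ p ∈ U.filter (fun p => L < S.deg p), (1 / (q : ℝ)) ^ (S.deg p) ≤
        ∑ j ∈ (S.le N).filter (fun j => L < S.deg j),
          (1 / (q : ℝ)) ^ (S.deg j) * (if {j} ⊆ U then (1 : ℝ) else 0) := by
      intro U hU1
      have hdg := (mem_UU S).mp hU1
      have h2 : ∑ p ∈ U.filter (fun p => L < S.deg p), (1 / (q : ℝ)) ^ (S.deg p) =
          ∑ j ∈ U.filter (fun p => L < S.deg p),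
            (1 / (q : ℝ)) ^ (S.deg j) * (if {j} ⊆ U then (1 : ℝ) else 0) := by
        refine Finset.sum_congr rfl fun j hj => ?_
        rw [if_pos (Finset.singleton_subset_iff.mpr (Finset.mem_filter.mp hj).1), mul_one]
      rw [h2]
      refine Finset.sum_le_sum_of_subset_of_nonneg ?_ fun j _ _ => ?_
      · intro j hj
        obtain ⟨hj1, hj2⟩ := Finset.mem_filter.mp hj
        refine Finset.mem_filter.mpr ⟨?_, hj2⟩
        rw [S.mem_le, ← hdg]
        exact deg_le_dg S hj1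
      · split_ifs <;> positivity
    refine (Finset.sum_le_sum h1).trans ?_
    rw [Finset.sum_comm]
    refine Finset.sum_le_sum fun j _ => ?_
    rw [← Finset.mul_sum]
    apply mul_le_mul_of_nonneg_left _ (by positivity)
    have h3 := count_super S hP.q2 hC' hc {j} N
    rw [dg_singleton] at h3
    exact h3
  · intro d _
    have h3 : (q : ℝ) ^ d * ((1 / (q : ℝ)) ^ d * (C' * (q : ℝ) ^ N * (1 / (q : ℝ)) ^ d)) =
        C' * (q : ℝ) ^ N * (1 / (q : ℝ)) ^ d := by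
      rw [one_div, inv_pow]
      field_simp
    rw [h3]
    apply mul_le_mul_of_nonneg_left _ (by positivity)
    refine (pow_le_pow_left₀ (by positivity) ?_ d).trans (pow_le_pow_left₀ (by norm_num) hr2 d)
    exact one_div_le_one_div_of_le (by norm_num) hq2

/-- every set is good or violates one of the conditions -/
theorem pointwise {E : Type} [Fintype E] [Zero E]
    {Rel : ι → Finset ι → E → Prop} {L N : ℕ} {θ : ℝ} (hθ : 0 < θ)
    (hq : 2 ≤ q) {U : Finset ι} (hU1 : U ∈ S.UU N) :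
    (if ¬ GoodG S q Rel L θ U then (1 : ℝ) else 0) ≤
      (∑ j ∈ (S.le N).filter (fun j => L < S.deg j),
        ∑ V ∈ (S.le (Yf (S.deg j))).powerset, ∑ e : E,
          (if (RJ Rel j V e ∧ (V.Nonempty ∨ e ≠ 0)) ∧ {j} ∪ V ⊆ U then (1 : ℝ) else 0)) +
      θ⁻¹ * (∑ j ∈ U.filter (fun j => L < S.deg j ∧ Yf (S.deg j) < S.dg U),
          (1 / 2 : ℝ) ^ (cnt S (S.deg j) (Yf (S.deg j)) U)) +
      θ⁻¹ * ∑ p ∈ U.filter (fun p => L < S.deg p), (1 / (q : ℝ)) ^ (S.deg p) := by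
  have hdg := (mem_UU S).mp hU1
  have hq0 : (0 : ℝ) < q := by exact_mod_cast (by omega : 0 < q)
  have hθ' : 0 < θ⁻¹ := inv_pos.2 hθ
  have n1 : ∀ (j : ι) (V : Finset ι) (e : E),
      (0 : ℝ) ≤ (if (RJ Rel j V e ∧ (V.Nonempty ∨ e ≠ 0)) ∧ {j} ∪ V ⊆ U then (1 : ℝ) else 0) := by
    intro j V e
    split_ifs <;> norm_num
  have m1 : 0 ≤ ∑ j ∈ (S.le N).filter (fun j => L < S.deg j),
      ∑ V ∈ (S.le (Yf (S.deg j))).powerset, ∑ e : E,
        (if (RJ Rel j V e ∧ (V.Nonempty ∨ e ≠ 0)) ∧ {j} ∪ V ⊆ U then (1 : ℝ) else 0) :=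
    Finset.sum_nonneg fun j _ => Finset.sum_nonneg fun V _ => Finset.sum_nonneg fun e _ => n1 j V e
  have m3 : 0 ≤ ∑ j ∈ U.filter (fun j => L < S.deg j ∧ Yf (S.deg j) < S.dg U),
      (1 / 2 : ℝ) ^ (cnt S (S.deg j) (Yf (S.deg j)) U) := by positivity
  have m4 : 0 ≤ ∑ p ∈ U.filter (fun p => L < S.deg p), (1 / (q : ℝ)) ^ (S.deg p) := by positivity
  have m3' := mul_nonneg hθ'.le m3
  have m4' := mul_nonneg hθ'.le m4
  by_cases hgood : GoodG S q Rel L θ U
  · rw [if_neg (not_not.2 hgood)]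
    linarith
  rw [if_pos hgood]
  by_cases h2 : ∑ j ∈ U.filter (fun j => L < S.deg j ∧ Yf (S.deg j) < S.dg U),
      (1 / 2 : ℝ) ^ (cnt S (S.deg j) (Yf (S.deg j)) U) ≤ θ
  swap
  · rw [not_le] at h2
    have h3 := mul_lt_mul_of_pos_left h2 hθ'
    rw [inv_mul_cancel₀ hθ.ne'] at h3
    linarith
  by_cases h4 : ∑ p ∈ U.filter (fun p => L < S.deg p), (1 / (q : ℝ)) ^ (S.deg p) ≤ θ
  swap
  · rw [not_le] at h4
    have h3 := mul_lt_mul_of_pos_left h4 hθ'
    rw [inv_mul_cancel₀ hθ.ne'] at h3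
    linarith
  by_cases h1 : ∀ j ∈ U, L < S.deg j → ∀ V ⊆ U, j ∉ V → (∀ p ∈ V, S.deg p ≤ Yf (S.deg j)) →
    ∀ e, (V.Nonempty ∨ e ≠ 0) → ¬ Rel j V e
  swap
  · push Not at h1
    obtain ⟨j, hj, hLj, V, hVU, hjV, hV, e, he, hrel⟩ := h1
    have hjm : j ∈ (S.le N).filter (fun j => L < S.deg j) := by
      refine Finset.mem_filter.mpr ⟨?_, hLj⟩
      rw [S.mem_le, ← hdg]
      exact deg_le_dg S hj
    have hVm : V ∈ (S.le (Yf (S.deg j))).powerset := by
      rw [Finset.mem_powerset]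
      intro p hp
      rw [S.mem_le]
      exact hV p hp
    have k1 := Finset.single_le_sum (f := fun j => ∑ V ∈ (S.le (Yf (S.deg j))).powerset, ∑ e : E,
        (if (RJ Rel j V e ∧ (V.Nonempty ∨ e ≠ 0)) ∧ {j} ∪ V ⊆ U then (1 : ℝ) else 0))
      (fun j _ => Finset.sum_nonneg fun V _ => Finset.sum_nonneg fun e _ => n1 j V e) hjm
    have k2 := Finset.single_le_sum (f := fun V => ∑ e : E,
        (if (RJ Rel j V e ∧ (V.Nonempty ∨ e ≠ 0)) ∧ {j} ∪ V ⊆ U then (1 : ℝ) else 0))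
      (fun V _ => Finset.sum_nonneg fun e _ => n1 j V e) hVm
    have k3 := Finset.single_le_sum (f := fun e : E =>
        (if (RJ Rel j V e ∧ (V.Nonempty ∨ e ≠ 0)) ∧ {j} ∪ V ⊆ U then (1 : ℝ) else 0))
      (fun e _ => n1 j V e) (Finset.mem_univ e)
    have k4 : (if (RJ Rel j V e ∧ (V.Nonempty ∨ e ≠ 0)) ∧ {j} ∪ V ⊆ U then (1 : ℝ) else 0) = 1 := by
      refine if_pos ⟨⟨⟨hjV, hrel⟩, ?_⟩, ?_⟩
      · rcases he with he | he
        · exact Or.inl he
        · exact Or.inr he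
      · exact Finset.union_subset (Finset.singleton_subset_iff.mpr hj) hVU
    have k5 : (1 : ℝ) ≤ ∑ j ∈ (S.le N).filter (fun j => L < S.deg j),
      ∑ V ∈ (S.le (Yf (S.deg j))).powerset, ∑ e : E,
        (if (RJ Rel j V e ∧ (V.Nonempty ∨ e ≠ 0)) ∧ {j} ∪ V ⊆ U then (1 : ℝ) else 0) := by
      refine le_trans ?_ k1
      refine le_trans ?_ k2
      refine le_trans ?_ k3
      exact le_of_eq k4.symm
    linarith
  exact absurd ⟨h1, h2, h4⟩ hgood

/-- sets of small degree are good -/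
theorem good_small {E : Type} [Zero E] {Rel : ι → Finset ι → E → Prop} {L N : ℕ} {θ : ℝ}
    (hθ : 0 < θ) (hLN : N ≤ L) {U : Finset ι} (hU : U ∈ S.UU N) : GoodG S q Rel L θ U := by
  have hdg := (mem_UU S).mp hU
  have h : ∀ j ∈ U, ¬ L < S.deg j := by
    intro j hj hL
    have := deg_le_dg S hj
    omega
  refine ⟨fun j hj hL => absurd hL (h j hj), ?_, ?_⟩
  · rw [Finset.filter_eq_empty_iff.mpr fun j hj h2 => h j hj h2.1, Finset.sum_empty]
    exact hθ.le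
  · rw [Finset.filter_eq_empty_iff.mpr fun j hj => h j hj, Finset.sum_empty]
    exact hθ.le

end conds

/-- Bad sets are rare. -/
theorem bad : S_HALG → S_REL → S_BAD := by
  intro hHALG hREL ι S q C c W n₀ hP E _ _ Rel C₄ C₅ hR θ ε hθ hε
  obtain ⟨C', hC', hH⟩ := hal_of_halg hHALG ι S q C c W n₀ hP
  obtain ⟨C₆, hC₆, hrel⟩ := hREL ι S q C c W n₀ hP C₄ |C₅| E
  obtain ⟨K, t, hK0, ht0, ht1, hK⟩ := ratio_small hP.c0
  obtain ⟨w, w0, w1, w4⟩ := exists_root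
  have hq2 : (2 : ℝ) ≤ q := by exact_mod_cast hP.q2
  have hq0 : (0 : ℝ) < q := by linarith
  have hcard : ∀ N : ℕ, ((S.UU N).card : ℝ) ≤ C' * (q : ℝ) ^ N := by
    intro N
    have h1 := hH 0 0 N
    have h2 : ∀ U ∈ S.UU N, (1 / 2 : ℝ) ^ (cnt S 0 0 U) = 1 := by
      intro U _
      have h3 : cnt S 0 0 U = 0 := by
        unfold cnt
        rw [Finset.card_eq_zero, Finset.filter_eq_empty_iff]
        intro p _ h
        omega
      rw [h3, pow_zero]
    rw [Finset.sum_congr rfl h2, Finset.sum_const, nsmul_eq_mul, mul_one] at h1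
    refine h1.trans (le_of_eq ?_)
    have h4 : (((0 : ℕ) : ℝ) + 1) / (((min 0 N : ℕ) : ℝ) + 1) = 1 := by simp
    rw [h4, Real.one_rpow, mul_one]
  have hw2 : w ^ 2 < 1 := by nlinarith
  set r : ℝ := max (w ^ 2) (max t (1 / 2)) with hr
  have hr1 : r < 1 := max_lt hw2 (max_lt ht1 (by norm_num))
  have hwr : w ^ 2 ≤ r := le_max_left _ _
  have htr : t ≤ r := (le_max_left _ _).trans (le_max_right _ _)
  have hhr : 1 / 2 ≤ r := (le_max_right _ _).trans (le_max_right _ _)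
  have hr0 : 0 ≤ r := by linarith
  have h1r : 0 < 1 - r := by linarith
  have hC : 1 ≤ C := hP.C1
  have hθ' : 0 < θ⁻¹ := inv_pos.2 hθ
  set A₁ : ℝ := C * C' * (C₆ + θ⁻¹ * K + θ⁻¹) / (1 - r) with hA₁
  have hA₁0 : 0 < A₁ := by
    rw [hA₁]
    positivity
  have hlim1 : Filter.Tendsto (fun n : ℕ => (n : ℝ) ^ 1 * r ^ n) Filter.atTop (nhds 0) :=
    tendsto_pow_const_mul_const_pow_of_abs_lt_one 1 (by rwa [abs_of_nonneg hr0])
  have hε' : 0 < ε / A₁ := by positivity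
  obtain ⟨L₁, hL₁⟩ := Filter.eventually_atTop.1 ((hlim1.eventually_lt_const hε').and
    (Filter.eventually_ge_atTop (C₄ + 49)))
  refine ⟨L₁, fun L hL n => ?_⟩
  obtain ⟨hL2, hL3⟩ := hL₁ L hL
  have hQn : 0 < (q : ℝ) ^ n := by positivity
  rcases le_or_gt n L with hnL | hnL
  · have h0 : (S.UU n).filter (fun U => ¬ GoodG S q Rel L θ U) = ∅ :=
      Finset.filter_eq_empty_iff.mpr fun U hU h => h (good_small S hθ hnL hU)
    rw [h0, Finset.card_empty, Nat.cast_zero, mul_zero]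
    positivity
  have b1 := bound1 S hP hC' hcard hC₆ hR.r1 hR.r2 hrel (L := L) (N := n) (by omega) hr1 w0 w1 w4
    hwr
  have b2 := bound2 S hP hC' hH hK0 ht0 hK (L := L) (N := n) (by omega) hr1 htr
  have b4 := bound4 S hP hC' hcard (L := L) (N := n) hr1 hhr
  have hsum := Finset.sum_le_sum (s := S.UU n) fun U hU =>
    pointwise S (q := q) (Rel := Rel) (L := L) (N := n) hθ hP.q2 hU
  simp only [Finset.sum_add_distrib, ← Finset.mul_sum] at hsum
  have g1 : (((S.UU n).filter (fun U => ¬ GoodG S q Rel L θ U)).card : ℝ) =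
      ∑ U ∈ S.UU n, (if ¬ GoodG S q Rel L θ U then (1 : ℝ) else 0) := by
    rw [← Finset.sum_filter, Finset.sum_const, nsmul_eq_mul, mul_one]
  have e1 : C * (C' * (q : ℝ) ^ n * C₆) * (r ^ L / (1 - r)) +
      θ⁻¹ * (C * (C' * (q : ℝ) ^ n * K) * (r ^ L / (1 - r))) +
      θ⁻¹ * (C * (C' * (q : ℝ) ^ n) * (r ^ L / (1 - r))) = (A₁ * r ^ L) * (q : ℝ) ^ n := by
    rw [hA₁]
    ring
  have e2 := mul_le_mul_of_nonneg_left b2 hθ'.le
  have e4 := mul_le_mul_of_nonneg_left b4 hθ'.le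
  have e5 : (((S.UU n).filter (fun U => ¬ GoodG S q Rel L θ U)).card : ℝ) ≤
      (A₁ * r ^ L) * (q : ℝ) ^ n := by
    rw [g1]
    linarith
  have hLA : (L : ℝ) * (A₁ * r ^ L) ≤ ε := by
    rw [pow_one, lt_div_iff₀ hA₁0] at hL2
    nlinarith
  calc (L : ℝ) * (((S.UU n).filter (fun U => ¬ GoodG S q Rel L θ U)).card : ℝ)
      ≤ (L : ℝ) * ((A₁ * r ^ L) * (q : ℝ) ^ n) := mul_le_mul_of_nonneg_left e5 (Nat.cast_nonneg _)
    _ = ((L : ℝ) * (A₁ * r ^ L)) * (q : ℝ) ^ n := by ring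
    _ ≤ ε * (q : ℝ) ^ n := mul_le_mul_of_nonneg_right hLA hQn.le

end Pool.Agent.H467.PG.Bad
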