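import Pool.Agent.H467.PG.SpecB

/-!
# Bases of the groups of units modulo squares

Project PG (helper467).
-/

set_option autoImplicit false
set_option linter.all false

open Finset Filter WithZero
open Pool.Agent.TH115.GD
open Pool.Agent.H467.PT
open Pool.Agent.H467.GK
open Pool.Agent.H467.CT (AS Bas IsTau Std Ev LV LF cc)
open scoped Classical

namespace Pool.Agent.H467.PG.Bde

theorem not_ev_neg_one : ¬ Ev (exp (-1 : ℤ)) := by
  rintro ⟨n, hn⟩
  have h := WithZero.exp_injective hn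
  omega

theorem ev_shift {γ : WithZero (Multiplicative ℤ)} (h0 : γ ≠ 0) (h : ¬ Ev γ) :
    Ev (exp (-1 : ℤ) * γ) := by
  have h1 : γ = exp (log γ) := (exp_log h0).symm
  obtain ⟨m, hm⟩ : ∃ m : ℤ, m = log γ := ⟨_, rfl⟩
  rw [← hm] at h1
  rcases Int.even_or_odd m with ⟨r, hr⟩ | ⟨r, hr⟩
  · exact absurd ⟨r, by rw [h1, hr]; congr 1; ring⟩ h
  · refine ⟨r, ?_⟩
    rw [h1, hr, ← exp_add]
    congr 1
    ring

section

variable {K : Type} [Field K] {B : Finset (PV K)} {g : Ob B → K}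

theorem val_g (gor : ∀ P : Ob B, P.1.1 (g P) = exp (-1 : ℤ))
    (gun : ∀ P j : Ob B, j ≠ P → j.1.1 (g P) = 1) (V : Finset (Ob B)) (j : Ob B) :
    j.1.1 (∏ P ∈ V, g P) = if j ∈ V then exp (-1 : ℤ) else 1 := by
  rw [map_prod]
  have h1 : ∀ P ∈ V, j.1.1 (g P) = if j = P then exp (-1 : ℤ) else 1 := by
    intro P _
    by_cases h : j = P
    · rw [if_pos h, h]
      exact gor P
    · rw [if_neg h]
      exact gun P j h
  rw [Finset.prod_congr rfl h1, Finset.prod_ite_eq]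

end

theorem bde : S_BDE := by
  intro k K _ _ _ _ F B hB
  obtain ⟨u, hu⟩ := F.uni B hB
  have hcard : 1 ≤ B.card := Finset.card_pos.2 (F.ne.mono hB)
  have hg : ∀ P : Ob B, ∃ x : K, P.1.1 x = exp (-1 : ℤ) ∧
      ∀ i : PV K, i ∉ F.B₁ → i ≠ P.1 → i.1 x = 1 := fun P =>
    F.prin P.1 (fun h => P.2 (hB h))
  choose g hg1 hg2 using hg
  have gun : ∀ P j : Ob B, j ≠ P → j.1.1 (g P) = 1 := by
    intro P j hj
    refine hg2 P j.1 (fun h => j.2 (hB h)) ?_
    intro h
    exact hj (Subtype.ext h)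
  have gne : ∀ P, g P ≠ 0 := by
    intro P h
    have := hg1 P
    rw [h, map_zero] at this
    exact exp_ne_zero this.symm
  have hval := fun (V : Finset (Ob B)) (j : Ob B) => val_g hg1 gun V j
  have uval : ∀ (e : Fin (B.card - 1) → ZMod 2) (j : Ob B),
      j.1.1 (∏ i, u i ^ (e i).val) = 1 := by
    intro e j
    rw [map_prod]
    refine Finset.prod_eq_one fun i _ => ?_
    rw [map_pow, hu.unit i j.1 j.2, one_pow]
  have une : ∀ e : Fin (B.card - 1) → ZMod 2, (∏ i, u i ^ (e i).val) ≠ 0 := fun e =>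
    Finset.prod_ne_zero_iff.2 fun i _ => pow_ne_zero _ (hu.ne i)
  have pne : ∀ V : Finset (Ob B), (∏ P ∈ V, g P) ≠ 0 := fun V =>
    Finset.prod_ne_zero_iff.2 fun P _ => gne P
  refine ⟨{ sub := hB, n := B.card - 1, hn := by omega, u := u, g := g, une := hu.ne,
            uun := fun i j => hu.unit i j.1 j.2, gne := gne, gor := hg1, gun := gun,
            gen := ?_, ind := ?_ }⟩
  · intro U d hd0 hd
    obtain ⟨V, hV⟩ : ∃ V : Finset (Ob B), V = U.filter (fun P => ¬ Ev (P.1.1 d)) := ⟨_, rfl⟩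
    have hev : ∀ j : PV K, j ∉ B → Ev (j.1 ((∏ P ∈ V, g P) * d)) := by
      intro j hj
      have h1 := hval V ⟨j, hj⟩
      rw [map_mul]
      have h2 : j.1 (∏ P ∈ V, g P) = if (⟨j, hj⟩ : Ob B) ∈ V then exp (-1 : ℤ) else 1 := h1
      rw [h2]
      by_cases h : (⟨j, hj⟩ : Ob B) ∈ V
      · rw [if_pos h]
        rw [hV, Finset.mem_filter] at h
        exact ev_shift ((Valuation.ne_zero_iff _).2 hd0) h.2
      · rw [if_neg h, one_mul]
        by_cases hU : (⟨j, hj⟩ : Ob B) ∈ U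
        · by_contra hc
          exact h (by rw [hV, Finset.mem_filter]; exact ⟨hU, hc⟩)
        · exact hd ⟨j, hj⟩ hU
    obtain ⟨e, y, hy0, hy⟩ := hu.gen ((∏ P ∈ V, g P) * d) (mul_ne_zero (pne V) hd0) hev
    refine ⟨V, by rw [hV]; exact Finset.filter_subset _ _, e, y / ∏ P ∈ V, g P,
      div_ne_zero hy0 (pne V), ?_⟩
    have hG := pne V
    unfold pd
    rw [div_pow]
    field_simp
    rw [← hy]
    ring
  · intro V e hsq
    have hV : V = ∅ := by
      by_contra hne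
      obtain ⟨P, hP⟩ := Finset.nonempty_iff_ne_empty.2 hne
      have hpd : pd u g V e ≠ 0 := mul_ne_zero (pne V) (une e)
      have h1 : Ev (P.1.1 (pd u g V e)) := Pool.Agent.H467.CT.ev_isSq hpd hsq
      unfold pd at h1
      rw [map_mul, hval V P, if_pos hP, uval e P, mul_one] at h1
      exact not_ev_neg_one h1
    refine ⟨hV, hu.ind e ?_⟩
    rw [hV] at hsq
    unfold pd at hsq
    rwa [Finset.prod_empty, one_mul] at hsq

end Pool.Agent.H467.PG.Bde
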