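import Pool.Agent.H467.PG.SpecB

/-!
# Global classes with given local classes (helper230)

Counting in a finite group of elements with bounded poles.
-/

set_option autoImplicit false
set_option linter.all false

open Finset Filter WithZero
open Pool.Agent.H467.PT
open Pool.Agent.H467.GK
open Pool.Agent.H467.CT (AS Bas Ev)
open scoped Classical

namespace Pool.Agent.H467.PG.Cfx

open Pool.Agent.H467.PG

section group

/-- The order of a subgroup, its image and its intersection with the kernel. -/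
theorem card_map {G H : Type} [AddCommGroup G] [AddCommGroup H] (φ : G →+ H) (A : AddSubgroup G) :
    Nat.card A = Nat.card (A.map φ) * Nat.card ↥(A ⊓ φ.ker) := by
  have h1 := AddSubgroup.card_eq_card_quotient_mul_card_addSubgroup (φ.comp A.subtype).ker
  have h2 : Nat.card (A ⧸ (φ.comp A.subtype).ker) = Nat.card (φ.comp A.subtype).range :=
    Nat.card_congr (QuotientAddGroup.quotientKerEquivRange _).toEquiv
  have h3 : (φ.comp A.subtype).range = A.map φ := by
    rw [AddMonoidHom.range_comp, AddSubgroup.range_subtype]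
  have h4 : Nat.card (φ.comp A.subtype).ker = Nat.card ↥(A ⊓ φ.ker) := by
    refine Nat.card_congr ⟨fun x => ⟨x.1.1, x.1.2, ?_⟩, fun x => ⟨⟨x.1, x.2.1⟩, ?_⟩, ?_, ?_⟩
    · exact x.2
    · exact x.2.2
    · intro x; rfl
    · intro x; rfl
  rw [h1, h2, h3, h4]

/-- The order of a sum of subgroups. -/
theorem card_sup {G : Type} [AddCommGroup G] (A B : AddSubgroup G) :
    Nat.card ↥(A ⊔ B) * Nat.card ↥(A ⊓ B) = Nat.card A * Nat.card B := by
  have h1 := card_map (QuotientAddGroup.mk' B) A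
  have h2 := card_map (QuotientAddGroup.mk' B) (A ⊔ B)
  rw [QuotientAddGroup.ker_mk'] at h1 h2
  have h3 : (A ⊔ B).map (QuotientAddGroup.mk' B) = A.map (QuotientAddGroup.mk' B) := by
    rw [AddSubgroup.map_sup]
    have : B.map (QuotientAddGroup.mk' B) = ⊥ := by
      rw [eq_bot_iff]
      rintro _ ⟨x, hx, rfl⟩
      rw [AddSubgroup.mem_bot]
      exact (QuotientAddGroup.eq_zero_iff x).2 hx
    rw [this, sup_bot_eq]
  have h4 : (A ⊔ B) ⊓ B = B := inf_eq_right.2 le_sup_right
  rw [h3, h4] at h2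
  rw [h1, h2]
  ring

end group

section vals

theorem lt_one_iff {x : WithZero (Multiplicative ℤ)} : x < 1 ↔ x ≤ exp (-1 : ℤ) := by
  by_cases hx : x = 0
  · rw [hx]
    exact ⟨fun _ => zero_le', fun _ => zero_lt_one⟩
  · rw [← exp_log hx, ← exp_zero, exp_lt_exp, exp_le_exp]
    omega

variable {K : Type} [Field K] [CharP K 2]

theorem sq_add_le (u : Vl K) {z : K} {m : ℤ} (hm : 0 ≤ m) :
    u (z ^ 2 + z) ≤ exp (2 * m) ↔ u z ≤ exp m := by
  constructor
  · intro h
    by_contra hc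
    push Not at hc
    have h1 : (1 : WithZero (Multiplicative ℤ)) ≤ exp m := by
      rw [← exp_zero, exp_le_exp]; exact hm
    have h2 : 1 < u z := lt_of_le_of_lt h1 hc
    have h3 : u z < u (z ^ 2) := by
      rw [map_pow, sq]
      calc u z = u z * 1 := (mul_one _).symm
        _ < u z * u z := mul_lt_mul_of_pos_left h2 (lt_trans zero_lt_one h2)
    have h4 : u (z ^ 2 + z) = u (z ^ 2) := Valuation.map_add_eq_of_lt_left u h3
    have h5 : exp (2 * m) < u (z ^ 2) := by
      rw [map_pow, sq, two_mul, exp_add]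
      exact mul_lt_mul'' hc hc zero_le' zero_le'
    rw [h4] at h
    exact absurd h (not_le.2 h5)
  · intro h
    refine Valuation.map_add_le u ?_ (h.trans ?_)
    · rw [map_pow, sq, two_mul, exp_add]
      exact mul_le_mul' h h
    · rw [exp_le_exp]; omega

theorem Sp_of_lt {u : Vl K} {x : K} (h : u x < 1) : Sp u x := ⟨0, by simpa using h⟩

theorem Sp_add {u : Vl K} {x y : K} (hx : Sp u x) (hy : Sp u y) : Sp u (x + y) := by
  obtain ⟨z, hz⟩ := hx
  obtain ⟨w, hw⟩ := hy
  refine ⟨z + w, ?_⟩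
  have c2 : (2 : K) = 0 := CharTwo.two_eq_zero
  have e : x + y + (z + w) ^ 2 + (z + w) = (x + z ^ 2 + z) + (y + w ^ 2 + w) := by
    linear_combination (z * w) * c2
  rw [e]
  exact Valuation.map_add_lt u hz hw

/-- The homomorphism `z ↦ z ^ 2 + z`. -/
def wpH (K : Type) [Field K] [CharP K 2] : K →+ K where
  toFun z := z ^ 2 + z
  map_zero' := by ring
  map_add' z w := by
    have c2 : (2 : K) = 0 := CharTwo.two_eq_zero
    linear_combination (z * w) * c2

theorem wpH_apply (z : K) : wpH K z = z ^ 2 + z := rfl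

/-- The subgroup of the elements which are small at `s`. -/
def PP (s : Finset (PV K)) : AddSubgroup K where
  carrier := {x | ∀ j ∈ s, j.1 x < 1}
  add_mem' := fun {x y} hx hy j hj => Valuation.map_add_lt j.1 (hx j hj) (hy j hj)
  zero_mem' := fun j _ => by rw [map_zero]; exact zero_lt_one
  neg_mem' := fun {x} hx j hj => by rw [CharTwo.neg_eq x]; exact hx j hj

/-- The subgroup of the elements which split at `s`. -/
def SP (s : Finset (PV K)) : AddSubgroup K where
  carrier := {x | ∀ j ∈ s, Sp j.1 x}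
  add_mem' := fun {x y} hx hy j hj => Sp_add (hx j hj) (hy j hj)
  zero_mem' := fun j _ => Sp_of_lt (by rw [map_zero]; exact zero_lt_one)
  neg_mem' := fun {x} hx j hj => by rw [CharTwo.neg_eq x]; exact hx j hj

/-- The Riemann-Roch space as a subgroup. -/
def AL (D : PV K →₀ ℤ) : AddSubgroup K where
  carrier := LLs D
  add_mem' := fun {x y} hx hy j => Valuation.map_add_le j.1 (hx j) (hy j)
  zero_mem' := fun j => by rw [map_zero]; exact zero_le'
  neg_mem' := fun {x} hx => by rw [CharTwo.neg_eq x]; exact hx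

theorem mem_AL {D : PV K →₀ ℤ} {x : K} : x ∈ AL D ↔ ∀ j : PV K, j.1 x ≤ exp (D j) := Iff.rfl

theorem mem_PP {s : Finset (PV K)} {x : K} : x ∈ PP s ↔ ∀ j ∈ s, j.1 x < 1 := Iff.rfl

theorem mem_SP {s : Finset (PV K)} {x : K} : x ∈ SP s ↔ ∀ j ∈ s, Sp j.1 x := Iff.rfl

theorem card_AL (D : PV K →₀ ℤ) : Nat.card (AL D) = (LLs D).ncard := rfl

/-- The divisor with the value `a` at `s` and the additional value `M` at `w`. -/
noncomputable def Dv (s : Finset (PV K)) (w : PV K) (a M : ℤ) : PV K →₀ ℤ :=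
  ∑ j ∈ s, Finsupp.single j a + Finsupp.single w M

theorem Dv_in {s : Finset (PV K)} {w : PV K} (hw : w ∉ s) (a M : ℤ) {j : PV K} (hj : j ∈ s) :
    Dv s w a M j = a := by
  unfold Dv
  have hne : w ≠ j := fun e => hw (e ▸ hj)
  rw [Finsupp.add_apply, Finsupp.finset_sum_apply, Finsupp.single_eq_of_ne' hne, add_zero,
    Finset.sum_eq_single j]
  · exact Finsupp.single_eq_same
  · intro i _ hij
    exact Finsupp.single_eq_of_ne' hij
  · intro h; exact absurd hj h

theorem Dv_out {s : Finset (PV K)} {w : PV K} (a M : ℤ) {j : PV K} (hj : j ∉ s) :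
    Dv s w a M j = Finsupp.single w M j := by
  unfold Dv
  rw [Finsupp.add_apply, Finsupp.finset_sum_apply, Finset.sum_eq_zero, zero_add]
  intro i hi
  exact Finsupp.single_eq_of_ne' (fun e => hj (e ▸ hi))

theorem ddg_add (deg : PV K → ℕ) (D E : PV K →₀ ℤ) : ddg deg (D + E) = ddg deg D + ddg deg E := by
  unfold ddg
  exact Finsupp.sum_add_index' (fun a => by simp) (fun a b c => by ring)

theorem ddg_single (deg : PV K → ℕ) (w : PV K) (M : ℤ) :
    ddg deg (Finsupp.single w M) = M * deg w := by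
  unfold ddg
  exact Finsupp.sum_single_index (by simp)

theorem ddg_sum (deg : PV K → ℕ) (s : Finset (PV K)) (a : ℤ) :
    ddg deg (∑ j ∈ s, Finsupp.single j a) = a * ∑ j ∈ s, (deg j : ℤ) := by
  induction s using Finset.induction_on with
  | empty => simp [ddg]
  | insert i s hi ih =>
    rw [Finset.sum_insert hi, Finset.sum_insert hi, ddg_add, ih, ddg_single]
    ring

theorem ddg_Dv (deg : PV K → ℕ) (s : Finset (PV K)) (w : PV K) (a M : ℤ) :
    ddg deg (Dv s w a M) = a * ∑ j ∈ s, (deg j : ℤ) + M * deg w := by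
  unfold Dv
  rw [ddg_add, ddg_sum, ddg_single]

/-- The degree is negative if all values are nonpositive and negative somewhere. -/
theorem ddg_neg (deg : PV K → ℕ) (hpos : ∀ j, 0 < deg j) (D : PV K →₀ ℤ) (hD : ∀ j, D j ≤ 0)
    (j₀ : PV K) (hj₀ : D j₀ < 0) : ddg deg D < 0 := by
  unfold ddg Finsupp.sum
  have h1 : ∀ j ∈ D.support, D j * (deg j : ℤ) ≤ 0 := fun j _ =>
    mul_nonpos_of_nonpos_of_nonneg (hD j) (by positivity)
  have h2 : j₀ ∈ D.support := by
    rw [Finsupp.mem_support_iff]; omega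
  refine Finset.sum_neg' h1 ⟨j₀, h2, ?_⟩
  have : (0 : ℤ) < deg j₀ := by exact_mod_cast hpos j₀
  nlinarith

end vals

section main

variable {k K : Type} [Field k] [Finite k] [Field K] [CharP K 2] [Algebra k K]

theorem finite_AL (R : GFR k K) (D : PV K →₀ ℤ) : Finite (AL D) := (R.fin D).to_subtype

/-- There is a place outside `s`. -/
theorem exists_out (R : GFR k K) (s : Finset (PV K)) (hs : s.Nonempty) : ∃ w : PV K, w ∉ s := by
  by_contra hc
  push Not at hc
  obtain ⟨j₀, hj₀⟩ := hs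
  set m : ℤ := |R.N₀| with hm
  have hm0 : 0 ≤ m := abs_nonneg _
  set D' : PV K →₀ ℤ := ∑ j ∈ s, Finsupp.single j m with hD'
  set D : PV K →₀ ℤ := ∑ j ∈ s, Finsupp.single j (m + 1) with hD
  have ev : ∀ (a : ℤ) (j : PV K), (∑ i ∈ s, Finsupp.single i a) j = a := by
    intro a j
    rw [Finsupp.finset_sum_apply, Finset.sum_eq_single j]
    · exact Finsupp.single_eq_same
    · intro i _ hij
      exact Finsupp.single_eq_of_ne' hij
    · intro h; exact absurd (hc j) h
  have hdeg : (1 : ℤ) ≤ ∑ j ∈ s, (R.deg j : ℤ) := by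
    have h1 : (1 : ℤ) ≤ R.deg j₀ := by exact_mod_cast R.pos j₀
    have h2 : (R.deg j₀ : ℤ) ≤ ∑ j ∈ s, (R.deg j : ℤ) :=
      Finset.single_le_sum (f := fun j => (R.deg j : ℤ)) (fun j _ => by positivity) hj₀
    linarith
  have hN : R.N₀ ≤ ddg R.deg D' := by
    rw [hD', ddg_sum]
    have : R.N₀ ≤ m := le_abs_self _
    nlinarith
  have hle : D' ≤ D := by
    intro j
    rw [hD', hD, ev, ev]; omega
  choose f hf using fun j : PV K => j.2 (exp (m + 1))
  obtain ⟨x, hx, hx2⟩ := R.sa D D' hle hN f (fun j _ => by rw [hf, hD, ev])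
  have hxj : ∀ j : PV K, j.1 x = exp (m + 1) := by
    intro j
    have h1 := hx2 j (by rw [hD', hD, ev, ev]; omega)
    rw [hD', ev] at h1
    have h2 : j.1 (x + f j) < j.1 (f j) := by
      rw [hf]
      refine lt_of_le_of_lt h1 ?_
      rw [exp_lt_exp]; omega
    have e : x = f j + (x + f j) := by
      have c2 : (2 : K) = 0 := CharTwo.two_eq_zero
      linear_combination (-(f j)) * c2
    rw [e, Valuation.map_add_eq_of_lt_left j.1 h2, hf]
  have hx0 : x ≠ 0 := by
    rintro rfl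
    have := hxj j₀
    rw [map_zero] at this
    exact exp_ne_zero this.symm
  obtain ⟨E, hE, hE0⟩ := R.dvd x hx0
  have hEj : ∀ j, E j = m + 1 := by
    intro j
    have h1 := hE j
    rw [hxj] at h1
    have h2 := exp_le_exp.1 h1.le
    have h3 := exp_le_exp.1 h1.ge
    omega
  have hneg : ddg R.deg (-E) < 0 := by
    apply ddg_neg R.deg R.pos (-E) _ j₀
    · rw [Finsupp.neg_apply, hEj]; omega
    · intro j
      rw [Finsupp.neg_apply, hEj]; omega
  have h4 := ddg_add R.deg E (-E)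
  rw [add_neg_cancel, hE0] at h4
  have h5 : ddg R.deg (0 : PV K →₀ ℤ) = 0 := by simp [ddg]
  rw [h5] at h4
  omega

/-- Approximation at `s`. -/
theorem approx (R : GFR k K) (s : Finset (PV K)) (w : PV K) (hw : w ∉ s) (a M : ℤ) (ha : 0 ≤ a)
    (hN : R.N₀ ≤ ddg R.deg (Dv s w (-1) M)) (f : PV K → K)
    (hf : ∀ j ∈ s, j.1 (f j) ≤ exp a) :
    ∃ x ∈ AL (Dv s w a M), ∀ j ∈ s, j.1 (x + f j) < 1 := by
  have hiff : ∀ j, Dv s w (-1) M j < Dv s w a M j → j ∈ s := by
    intro j hj
    by_contra hc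
    rw [Dv_out _ _ hc, Dv_out _ _ hc] at hj
    exact lt_irrefl _ hj
  obtain ⟨x, hx, hx2⟩ := R.sa (Dv s w a M) (Dv s w (-1) M) (by
    intro j
    by_cases hj : j ∈ s
    · rw [Dv_in hw _ _ hj, Dv_in hw _ _ hj]; omega
    · rw [Dv_out _ _ hj, Dv_out _ _ hj]) hN f (by
    intro j hj
    have hjs := hiff j hj
    rw [Dv_in hw _ _ hjs]
    exact hf j hjs)
  refine ⟨x, hx, fun j hj => ?_⟩
  have h1 := hx2 j (by rw [Dv_in hw _ _ hj, Dv_in hw _ _ hj]; omega)
  rw [Dv_in hw _ _ hj] at h1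
  exact lt_one_iff.2 h1

/-- The number of the elements with bounded poles and the number of those that split. -/
theorem card_Z (R : GFR k K) (s : Finset (PV K)) (w : PV K) (hw : w ∉ s) (N M : ℤ) (hN0 : 0 ≤ N)
    (hN : R.N₀ ≤ ddg R.deg (Dv s w (-1) M)) :
    Nat.card (AL (Dv s w N M)) ≤ 2 ^ s.card * Nat.card ↥(AL (Dv s w (2 * N) M) ⊓ SP s) := by
  haveI := finite_AL R (Dv s w N M)
  haveI := finite_AL R (Dv s w (2 * N) M)
  haveI := finite_AL R (Dv s w (-1) M)
  set π : K →+ K ⧸ PP s := QuotientAddGroup.mk' (PP s) with hπ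
  have hπker : π.ker = PP s := QuotientAddGroup.ker_mk' _
  have hW : ∀ a : ℤ, -1 ≤ a → AL (Dv s w a M) ⊓ PP s = AL (Dv s w (-1) M) := by
    intro a ha
    ext x
    rw [AddSubgroup.mem_inf, mem_AL, mem_PP, mem_AL]
    constructor
    · rintro ⟨h1, h2⟩ j
      by_cases hj : j ∈ s
      · rw [Dv_in hw _ _ hj]; exact lt_one_iff.1 (h2 j hj)
      · have := h1 j
        rw [Dv_out _ _ hj] at this ⊢
        exact this
    · intro h
      refine ⟨fun j => ?_, fun j hj => ?_⟩
      · have h1 := h j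
        by_cases hj : j ∈ s
        · rw [Dv_in hw _ _ hj] at h1 ⊢
          exact h1.trans (exp_le_exp.2 ha)
        · rw [Dv_out _ _ hj] at h1 ⊢
          exact h1
      · have h1 := h j
        rw [Dv_in hw _ _ hj] at h1
        exact lt_one_iff.2 h1
  -- the image of `Z`
  have hA := card_map (π.comp (wpH K)) (AL (Dv s w N M))
  have hB := card_map π (AL (Dv s w (2 * N) M) ⊓ SP s)
  have hB2 : AL (Dv s w (2 * N) M) ⊓ SP s ⊓ π.ker = AL (Dv s w (-1) M) := by
    rw [hπker, inf_assoc]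
    have : SP s ⊓ PP s = PP s := by
      apply inf_eq_right.2
      intro x hx j hj
      exact Sp_of_lt (hx j hj)
    rw [this]
    exact hW _ (by omega)
  rw [hB2] at hB
  haveI : Finite ↥(AL (Dv s w (2 * N) M) ⊓ SP s) :=
    Finite.of_injective (AddSubgroup.inclusion (inf_le_left : _ ≤ AL (Dv s w (2 * N) M)))
      (AddSubgroup.inclusion_injective _)
  have hC : Nat.card ((AL (Dv s w N M)).map (π.comp (wpH K))) ≤
      Nat.card ((AL (Dv s w (2 * N) M) ⊓ SP s).map π) := by
    haveI : Finite ((AL (Dv s w (2 * N) M) ⊓ SP s).map π) := by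
      have : ((AL (Dv s w (2 * N) M) ⊓ SP s).map π : Set (K ⧸ PP s)).Finite := by
        rw [AddSubgroup.coe_map]
        exact (Set.toFinite _).image _
      exact this.to_subtype
    apply AddSubgroup.card_le_of_le
    rintro _ ⟨z, hz, rfl⟩
    obtain ⟨x, hx, hx2⟩ := approx R s w hw (2 * N) M (by omega) hN (fun _ => z ^ 2 + z)
      (fun j hj => by
        rw [sq_add_le j.1 hN0]
        have := hz j
        rwa [Dv_in hw _ _ hj] at this)
    refine ⟨x, ⟨hx, fun j hj => ⟨z, ?_⟩⟩, ?_⟩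
    · have := hx2 j hj
      rwa [← add_assoc] at this
    · have h1 : x + (z ^ 2 + z) ∈ PP s := hx2
      have h2 : π (x + (z ^ 2 + z)) = 0 := (QuotientAddGroup.eq_zero_iff _).2 h1
      have h3 : π x = π (z ^ 2 + z) := by
        have e : x = (x + (z ^ 2 + z)) + (z ^ 2 + z) := by
          have c2 : (2 : K) = 0 := CharTwo.two_eq_zero
          linear_combination (-(z ^ 2 + z)) * c2
        rw [e, map_add, h2, zero_add]
      rw [h3]; rfl
  -- the kernel
  have hD : Nat.card ↥(AL (Dv s w N M) ⊓ (π.comp (wpH K)).ker) ≤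
      Nat.card (AL (Dv s w (-1) M)) * 2 ^ s.card := by
    have hmem : ∀ z : K, z ∈ AL (Dv s w N M) ⊓ (π.comp (wpH K)).ker ↔
        z ∈ AL (Dv s w N M) ∧ ∀ j ∈ s, j.1 (z ^ 2 + z) < 1 := by
      intro z
      rw [AddSubgroup.mem_inf]
      refine and_congr_right fun _ => ?_
      rw [AddMonoidHom.mem_ker, AddMonoidHom.comp_apply, wpH_apply, ← mem_PP]
      exact QuotientAddGroup.eq_zero_iff _
    have hfin : ((AL (Dv s w N M) ⊓ (π.comp (wpH K)).ker : AddSubgroup K) : Set K).Finite :=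
      (R.fin (Dv s w N M)).subset (fun x hx => hx.1)
    have hcard : Nat.card ↥(AL (Dv s w N M) ⊓ (π.comp (wpH K)).ker) = hfin.toFinset.card := by
      rw [← Set.ncard_eq_toFinset_card _ hfin]
      rfl
    rw [hcard]
    have himg : (Finset.image (fun z : K => s.filter (fun j => j.1 z < 1)) hfin.toFinset).card ≤
        2 ^ s.card := by
      rw [← Finset.card_powerset]
      apply Finset.card_le_card
      intro E hE
      rw [Finset.mem_image] at hE
      obtain ⟨z, -, rfl⟩ := hE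
      rw [Finset.mem_powerset]
      exact Finset.filter_subset _ _
    refine (Finset.card_le_mul_card_image (f := fun z : K => s.filter (fun j => j.1 z < 1))
      hfin.toFinset (Nat.card (AL (Dv s w (-1) M))) ?_).trans (Nat.mul_le_mul_left _ himg)
    intro E hE
    rw [Finset.mem_image] at hE
    obtain ⟨z₀, hz₀, hE⟩ := hE
    rw [Set.Finite.mem_toFinset] at hz₀
    have hz₀' := (hmem z₀).1 hz₀
    have hone : ∀ (j : PV K) (z : K), j.1 (z ^ 2 + z) < 1 → ¬ j.1 z < 1 → j.1 (z + 1) < 1 := by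
      intro j z h1 h2
      by_contra h3
      have e : z ^ 2 + z = z * (z + 1) := by ring
      rw [e, map_mul] at h1
      exact absurd h1 (not_lt.2 (one_le_mul (not_lt.1 h2) (not_lt.1 h3)))
    have hcardW : Nat.card (AL (Dv s w (-1) M)) = (R.fin (Dv s w (-1) M)).toFinset.card := by
      rw [← Set.ncard_eq_toFinset_card _ (R.fin (Dv s w (-1) M))]
      rfl
    rw [hcardW]
    apply Finset.card_le_card_of_injOn (fun z => z + z₀)
    · intro z hz
      rw [Finset.mem_coe, Finset.mem_filter, Set.Finite.mem_toFinset] at hz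
      rw [Finset.mem_coe, Set.Finite.mem_toFinset]
      have hz' := (hmem z).1 hz.1
      have h1 : z + z₀ ∈ AL (Dv s w N M) ⊓ PP s := by
        refine ⟨(AL (Dv s w N M)).add_mem hz'.1 hz₀'.1, fun j hj => ?_⟩
        have hEE : s.filter (fun j => j.1 z < 1) = s.filter (fun j => j.1 z₀ < 1) := by
          rw [hz.2]; exact hE.symm
        by_cases hjz : j.1 z < 1
        · have hj1 : j ∈ s.filter (fun j => j.1 z < 1) := Finset.mem_filter.2 ⟨hj, hjz⟩
          rw [hEE, Finset.mem_filter] at hj1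
          exact Valuation.map_add_lt j.1 hjz hj1.2
        · have hjz₀ : ¬ j.1 z₀ < 1 := by
            intro hc
            have hj1 : j ∈ s.filter (fun j => j.1 z₀ < 1) := Finset.mem_filter.2 ⟨hj, hc⟩
            rw [← hEE, Finset.mem_filter] at hj1
            exact hjz hj1.2
          have e : z + z₀ = (z + 1) + (z₀ + 1) := by
            have c2 : (2 : K) = 0 := CharTwo.two_eq_zero
            linear_combination -c2
          rw [e]
          exact Valuation.map_add_lt j.1 (hone j z (hz'.2 j hj) hjz)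
            (hone j z₀ (hz₀'.2 j hj) hjz₀)
      rw [hW N (by omega)] at h1
      exact h1
    · intro z _ z' _ h
      exact add_right_cancel h
  calc Nat.card (AL (Dv s w N M))
      = Nat.card ((AL (Dv s w N M)).map (π.comp (wpH K))) *
        Nat.card ↥(AL (Dv s w N M) ⊓ (π.comp (wpH K)).ker) := hA
    _ ≤ Nat.card ((AL (Dv s w (2 * N) M) ⊓ SP s).map π) *
        (Nat.card (AL (Dv s w (-1) M)) * 2 ^ s.card) := Nat.mul_le_mul hC hD
    _ = 2 ^ s.card * Nat.card ↥(AL (Dv s w (2 * N) M) ⊓ SP s) := by rw [hB]; ring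

/-- The elements `z ^ 2 + z` with bounded poles. -/
theorem card_D1 (F : GF k K) (s : Finset (PV K)) (hs : F.B₁ ⊆ s) (w : PV K) (hw : w ∉ s) (N : ℤ)
    (hN0 : 0 ≤ N) :
    2 * Nat.card ↥(AL (Dv s w (2 * N) 0) ⊓ SP s) ≤ Nat.card (AL (Dv s w N 0)) := by
  haveI := finite_AL F.R (Dv s w N 0)
  have hout : ∀ (a : ℤ) (j : PV K), j ∉ s → exp (Dv s w a 0 j) = 1 := by
    intro a j hj
    rw [Dv_out _ _ hj]
    simp
  rw [card_map (wpH K) (AL (Dv s w N 0))]
  have h1 : 2 ≤ Nat.card ↥(AL (Dv s w N 0) ⊓ (wpH K).ker) := by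
    haveI : Finite ↥(AL (Dv s w N 0) ⊓ (wpH K).ker) :=
      Finite.of_injective (AddSubgroup.inclusion (inf_le_left : _ ≤ AL (Dv s w N 0)))
        (AddSubgroup.inclusion_injective _)
    haveI : Nontrivial ↥(AL (Dv s w N 0) ⊓ (wpH K).ker) := by
      refine ⟨⟨⟨1, ?_, ?_⟩, 0, ?_⟩⟩
      · intro j
        rw [map_one]
        by_cases hj : j ∈ s
        · rw [Dv_in hw _ _ hj, ← exp_zero, exp_le_exp]; exact hN0
        · rw [hout _ _ hj]
      · show (1 : K) ∈ (wpH K).ker
        rw [AddMonoidHom.mem_ker, wpH_apply]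
        have c2 : (2 : K) = 0 := CharTwo.two_eq_zero
        linear_combination c2
      · intro h
        have := congrArg Subtype.val h
        exact one_ne_zero this
    exact Finite.one_lt_card
  have h2 : Nat.card ↥(AL (Dv s w (2 * N) 0) ⊓ SP s) ≤
      Nat.card ((AL (Dv s w N 0)).map (wpH K)) := by
    haveI : Finite ((AL (Dv s w N 0)).map (wpH K)) := by
      have : ((AL (Dv s w N 0)).map (wpH K) : Set K).Finite := by
        rw [AddSubgroup.coe_map]
        exact (Set.toFinite _).image _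
      exact this.to_subtype
    apply AddSubgroup.card_le_of_le
    rintro x ⟨hx, hx2⟩
    have has : AS x := by
      apply F.unr s hs x
      · intro j hj
        refine ⟨0, ?_⟩
        have := hx j
        rw [hout _ _ hj] at this
        simpa using this
      · exact hx2
    obtain ⟨z, hz⟩ := has
    refine ⟨z, fun j => ?_, hz.symm⟩
    have hj1 := hx j
    rw [hz] at hj1
    by_cases hj : j ∈ s
    · rw [Dv_in hw _ _ hj] at hj1 ⊢
      exact (sq_add_le j.1 hN0).1 hj1
    · rw [hout _ _ hj] at hj1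
      rw [hout _ _ hj, ← exp_zero]
      apply (sq_add_le j.1 le_rfl).1
      rw [mul_zero, exp_zero]
      exact hj1
  calc 2 * Nat.card ↥(AL (Dv s w (2 * N) 0) ⊓ SP s)
      ≤ 2 * Nat.card ((AL (Dv s w N 0)).map (wpH K)) := Nat.mul_le_mul_left _ h2
    _ = Nat.card ((AL (Dv s w N 0)).map (wpH K)) * 2 := mul_comm _ _
    _ ≤ _ := Nat.mul_le_mul_left _ h1

/-- The symbols with the elements `u`. -/
noncomputable def PsiH (G : GFS K) (s : Finset (PV K)) {n : ℕ} (u : Fin n → K) :
    K →+ (Fin n → ZMod 2) where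
  toFun x := fun i => ∑ j ∈ s, G.sy j (x * dl G.t (u i))
  map_zero' := by
    funext i
    have h : ∀ j, G.sy j 0 = 0 := by
      intro j
      have := G.add j 0 0
      rw [add_zero] at this
      exact left_eq_add.1 this
    simp [h]
  map_add' x y := by
    funext i
    rw [Pi.add_apply, ← Finset.sum_add_distrib]
    refine Finset.sum_congr rfl fun j _ => ?_
    rw [add_mul, G.add]

theorem PsiH_apply (G : GFS K) (s : Finset (PV K)) {n : ℕ} (u : Fin n → K) (x : K) (i : Fin n) :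
    PsiH G s u x i = ∑ j ∈ s, G.sy j (x * dl G.t (u i)) := rfl

theorem sy_zero (G : GFS K) (j : PV K) : G.sy j 0 = 0 := by
  have := G.add j 0 0
  rw [add_zero] at this
  exact left_eq_add.1 this

/-- A subgroup of the group of vectors on which no nontrivial sum vanishes. -/
theorem eq_top_of {n : ℕ} (A : AddSubgroup (Fin n → ZMod 2))
    (h : ∀ e : Fin n → ZMod 2, e ≠ 0 → ∃ x ∈ A, ∑ i, e i * x i ≠ 0) : A = ⊤ := by
  by_contra hne
  set S : Submodule (ZMod 2) (Fin n → ZMod 2) := AddSubgroup.toZModSubmodule 2 A with hS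
  have hlt : S < ⊤ := by
    rw [lt_top_iff_ne_top]
    intro e
    apply hne
    have h2 : AddSubgroup.toZModSubmodule 2 A =
        AddSubgroup.toZModSubmodule 2 (⊤ : AddSubgroup (Fin n → ZMod 2)) := by
      rw [← hS, e]
      exact (OrderIso.map_top _).symm
    exact (AddSubgroup.toZModSubmodule 2).injective h2
  obtain ⟨f, hf0, hf⟩ := Submodule.exists_le_ker_of_lt_top S hlt
  set e : Fin n → ZMod 2 := fun i => f (fun j => if i = j then 1 else 0) with he
  have hfx : ∀ x, f x = ∑ i, e i * x i := by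
    intro x
    rw [LinearMap.pi_apply_eq_sum_univ f x]
    refine Finset.sum_congr rfl fun i _ => ?_
    rw [smul_eq_mul, mul_comm]
  have he0 : e ≠ 0 := by
    intro h0
    apply hf0
    ext x
    rw [LinearMap.comp_apply, hfx, h0]
    simp
  obtain ⟨x, hx, hx2⟩ := h e he0
  apply hx2
  rw [← hfx]
  have hxS : x ∈ S := (AddSubgroup.mem_toZModSubmodule 2).2 hx
  exact hf hxS

end main

open Pool.Agent.H467.GK in
theorem cfx : S_POQ → S_SYM → S_CFX := by
  intro hpoq hsym k K _ _ _ _ _ F s hs f hf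
  have hsne : s.Nonempty := F.ne.mono hs
  obtain ⟨w, hw⟩ := exists_out F.R s hsne
  obtain ⟨n, hcard⟩ : ∃ n, s.card = n + 1 := by
    have := hsne.card_pos
    exact ⟨s.card - 1, by omega⟩
  obtain ⟨u, hu⟩ : ∃ u : Fin n → K, UnbP s u := by
    have h := F.uni s hs
    rw [hcard, Nat.add_sub_cancel] at h
    exact h
  have hB : F.G.B₀ ⊆ s := F.hB.trans hs
  have hres : ∀ j : PV K, Finite (IsLocalRing.ResidueField j.1.valuationSubring) := by
    intro j
    apply Nat.finite_of_card_ne_zero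
    rw [F.R.resc]
    have : 0 < Nat.card k := Nat.card_pos
    positivity
  have hsp : ∀ (j : PV K) (x d : K), d ≠ 0 → Sp j.1 x → F.G.sy j (x * dl F.G.t d) = 0 := by
    intro j x d hd hx
    obtain ⟨h1, -, -, -, h5, -⟩ := hsym K F.G j (hres j)
    rw [← h1 x d hd]
    exact h5 _ d hd (((hpoq K j).2.1 x).1 hx)
  have hdl : ∀ (j : PV K) (d : K), d ≠ 0 → j ∉ s → j.1 d = 1 → j.1 (dl F.G.t d) ≤ 1 := by
    intro j d hd hj h1
    obtain ⟨-, -, -, -, -, -, -, h8⟩ := hsym K F.G j (hres j)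
    exact (h8 (fun h => hj (hB h)) d hd).2.1 ⟨0, by rw [h1]; simp⟩
  choose g hg using F.G.nd
  -- the number N
  set ds : ℤ := ∑ j ∈ s, (F.R.deg j : ℤ) with hds
  have hds1 : 1 ≤ ds := by
    obtain ⟨j₀, hj₀⟩ := hsne
    have h1 : (1 : ℤ) ≤ F.R.deg j₀ := by exact_mod_cast F.R.pos j₀
    have h2 : (F.R.deg j₀ : ℤ) ≤ ds :=
      Finset.single_le_sum (f := fun j => (F.R.deg j : ℤ)) (fun j _ => by positivity) hj₀
    linarith
  have hbd : ∀ h : PV K → K, ∃ m : ℤ, 0 ≤ m ∧ ∀ j ∈ s, j.1 (h j) ≤ exp m := by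
    intro h
    have h1 : ∀ j : PV K, ∃ m : ℤ, 0 ≤ m ∧ j.1 (h j) ≤ exp m := by
      intro j
      by_cases h0 : j.1 (h j) = 0
      · exact ⟨0, le_rfl, by rw [h0]; exact zero_le'⟩
      · refine ⟨max 0 (log (j.1 (h j))), le_max_left _ _, ?_⟩
        conv_lhs => rw [← exp_log h0]
        rw [exp_le_exp]
        exact le_max_right _ _
    choose m hm0 hm using h1
    refine ⟨∑ j ∈ s, m j, Finset.sum_nonneg fun j _ => hm0 j, fun j hj => ?_⟩
    refine (hm j).trans (exp_le_exp.2 ?_)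
    exact Finset.single_le_sum (f := m) (fun i _ => hm0 i) hj
  obtain ⟨m₁, hm₁0, hm₁⟩ := hbd f
  obtain ⟨m₂, hm₂0, hm₂⟩ := hbd g
  set N : ℤ := m₁ + m₂ + |F.R.N₀| with hNdef
  have habs := abs_nonneg F.R.N₀
  have hN0 : 0 ≤ N := by omega
  have hNf : ∀ j ∈ s, j.1 (f j) ≤ exp (2 * N) := fun j hj =>
    (hm₁ j hj).trans (exp_le_exp.2 (by omega))
  have hNg : ∀ j ∈ s, j.1 (g j) ≤ exp (2 * N) := fun j hj =>
    (hm₂ j hj).trans (exp_le_exp.2 (by omega))
  have hdw : (1 : ℤ) ≤ F.R.deg w := by exact_mod_cast F.R.pos w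
  set M : ℤ := ds + |F.R.N₀| with hMdef
  have hM0 : 0 ≤ M := by omega
  have hN0le : F.R.N₀ ≤ |F.R.N₀| := le_abs_self _
  have hNN : F.R.N₀ ≤ N * ds := by nlinarith
  have hMM : F.R.N₀ ≤ -1 * ds + M * F.R.deg w := by nlinarith
  have hdeg1 : F.R.N₀ ≤ ddg F.R.deg (Dv s w (-1) M) := by rw [ddg_Dv]; exact hMM
  -- the groups
  haveI := finite_AL F.R (Dv s w (2 * N) M)
  haveI := finite_AL F.R (Dv s w (2 * N) 0)
  haveI := finite_AL F.R (Dv s w N M)
  haveI := finite_AL F.R (Dv s w N 0)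
  obtain ⟨a1, ha1, hc1⟩ := F.R.riem (Dv s w (2 * N) M) (by rw [ddg_Dv, ← hds]; nlinarith)
  obtain ⟨a2, ha2, hc2⟩ := F.R.riem (Dv s w (2 * N) 0) (by rw [ddg_Dv, ← hds]; nlinarith)
  obtain ⟨a3, ha3, hc3⟩ := F.R.riem (Dv s w N M) (by rw [ddg_Dv, ← hds]; nlinarith)
  obtain ⟨a4, ha4, hc4⟩ := F.R.riem (Dv s w N 0) (by rw [ddg_Dv, ← hds]; nlinarith)
  rw [ddg_Dv, ← hds] at ha1 ha2 ha3 ha4
  have hexp : a1 + a4 = a2 + a3 := by
    have : (a1 : ℤ) + a4 = a2 + a3 := by
      rw [ha1, ha2, ha3, ha4]; ring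
    exact_mod_cast this
  have hcards : Nat.card (AL (Dv s w (2 * N) M)) * Nat.card (AL (Dv s w N 0)) =
      Nat.card (AL (Dv s w (2 * N) 0)) * Nat.card (AL (Dv s w N M)) := by
    rw [card_AL, card_AL, card_AL, card_AL, hc1, hc2, hc3, hc4, ← pow_add, ← pow_add, hexp]
  set V := AL (Dv s w (2 * N) M) with hV
  set L := AL (Dv s w (2 * N) 0) with hL
  set VS := V ⊓ SP s with hVS
  set T := V ⊓ (PsiH F.G s u).ker with hT
  have hLV : L ≤ V := by
    intro x hx j
    refine (hx j).trans (exp_le_exp.2 ?_)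
    by_cases hj : j ∈ s
    · rw [Dv_in hw _ _ hj, Dv_in hw _ _ hj]
    · rw [Dv_out _ _ hj, Dv_out _ _ hj]
      rw [Finsupp.single_zero, Finsupp.zero_apply, Finsupp.single_apply]
      split_ifs
      · exact hM0
      · exact le_rfl
  have hfinsub : ∀ A : AddSubgroup K, A ≤ V → Finite A := fun A hA =>
    Finite.of_injective (AddSubgroup.inclusion hA) (AddSubgroup.inclusion_injective _)
  have hLint : ∀ x ∈ L, ∀ j : PV K, j ∉ s → j.1 x ≤ 1 := by
    intro x hx j hj
    have := hx j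
    rw [Dv_out _ _ hj, Finsupp.single_zero, Finsupp.zero_apply, exp_zero] at this
    exact this
  -- the sum is contained in T
  have hLT : L ≤ T := by
    intro x hx
    refine ⟨hLV hx, ?_⟩
    show x ∈ (PsiH F.G s u).ker
    rw [AddMonoidHom.mem_ker]
    funext i
    rw [PsiH_apply]
    apply F.G.sum s hB
    intro j hj
    rw [map_mul]
    exact mul_le_one' (hLint x hx j hj) (hdl j (u i) (hu.ne i) hj (hu.unit i j hj))
  have hVT : VS ≤ T := by
    rintro x ⟨hx, hx2⟩
    refine ⟨hx, ?_⟩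
    show x ∈ (PsiH F.G s u).ker
    rw [AddMonoidHom.mem_ker]
    funext i
    rw [PsiH_apply]
    exact Finset.sum_eq_zero fun j hj => hsp j x (u i) (hu.ne i) (hx2 j hj)
  have hsup : L ⊔ VS ≤ T := sup_le hLT hVT
  -- the map to the symbols is surjective
  have htop : V.map (PsiH F.G s u) = ⊤ := by
    apply eq_top_of
    intro e he
    by_contra hc
    push Not at hc
    set d : K := ∏ i, u i ^ (e i).val with hd
    have hd0 : d ≠ 0 := Finset.prod_ne_zero_iff.2 fun i _ => pow_ne_zero _ (hu.ne i)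
    have hdunit : ∀ j : PV K, j ∉ s → j.1 d = 1 := by
      intro j hj
      rw [hd, map_prod]
      refine Finset.prod_eq_one fun i _ => ?_
      rw [map_pow, hu.unit i j hj, one_pow]
    have hsum : ∀ x ∈ V, ∑ j ∈ s, F.G.sy j (x * dl F.G.t d) = 0 := by
      intro x hx
      have h1 := hc _ ⟨x, hx, rfl⟩
      have h2 : ∀ j, F.G.sy j (x * dl F.G.t d) = ∑ i, e i * F.G.sy j (x * dl F.G.t (u i)) :=
        fun j => dl_prod F.G.bas hu.ne e (F.G.sy j) (F.G.add j) x
      simp only [h2]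
      rw [Finset.sum_comm]
      rw [← h1]
      refine Finset.sum_congr rfl fun i _ => ?_
      rw [PsiH_apply, Finset.mul_sum]
    have hdl0 : dl F.G.t d ≠ 0 := by
      intro h0
      apply he
      apply hu.ind
      rw [← hd]
      obtain ⟨p, hp⟩ := qq_spec F.G.bas d
      unfold dl at h0
      rcases div_eq_zero_iff.1 h0 with h1 | h1
      · rw [h1, mul_zero, add_zero] at hp
        exact ⟨p, by rw [hp]; ring⟩
      · exact absurd h1 hd0
    have hloc : ∀ j₀ ∈ s, j₀.1 (dl F.G.t d) < 1 := by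
      intro j₀ hj₀
      by_contra hcon
      push Not at hcon
      -- the local element
      set y : K := g j₀ / dl F.G.t d with hy
      have hyle : j₀.1 y ≤ exp (2 * N) := by
        rw [hy, map_div₀]
        have hpos : 0 < j₀.1 (dl F.G.t d) := lt_of_lt_of_le zero_lt_one hcon
        rw [div_le_iff₀ hpos]
        calc j₀.1 (g j₀) ≤ exp (2 * N) := hNg j₀ hj₀
          _ = exp (2 * N) * 1 := (mul_one _).symm
          _ ≤ exp (2 * N) * j₀.1 (dl F.G.t d) := mul_le_mul_right hcon _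
      obtain ⟨x, hx, hx2⟩ := approx F.R s w hw (2 * N) M (by omega) hdeg1
        (fun j => if j = j₀ then y else 0) (by
          intro j hj
          by_cases hjj : j = j₀
          · rw [if_pos hjj, hjj]; exact hyle
          · rw [if_neg hjj, map_zero]; exact zero_le')
      have h1 := hsum x hx
      have h2 : ∀ j ∈ s, F.G.sy j (x * dl F.G.t d) =
          F.G.sy j ((if j = j₀ then y else 0) * dl F.G.t d) := by
        intro j hj
        have h3 := hsp j (x + if j = j₀ then y else 0) d hd0 (Sp_of_lt (hx2 j hj))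
        rw [add_mul, F.G.add] at h3
        exact CharTwo.add_eq_zero.1 h3
      rw [Finset.sum_congr rfl h2, Finset.sum_eq_single j₀] at h1
      · rw [if_pos rfl, hy, div_mul_cancel₀ _ hdl0, hg] at h1
        exact one_ne_zero h1
      · intro j _ hj
        rw [if_neg hj, zero_mul, sy_zero]
      · intro h; exact absurd hj₀ h
    obtain ⟨E, hE, hE0⟩ := F.R.dvd (dl F.G.t d) hdl0
    have hEneg : ∀ j, E j ≤ 0 := by
      intro j
      have h1 : j.1 (dl F.G.t d) ≤ 1 := by
        by_cases hj : j ∈ s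
        · exact (hloc j hj).le
        · exact hdl j d hd0 hj (hdunit j hj)
      rw [hE, ← exp_zero, exp_le_exp] at h1
      exact h1
    obtain ⟨j₀, hj₀⟩ := hsne
    have hEj₀ : E j₀ < 0 := by
      have h1 := hloc j₀ hj₀
      rw [hE, ← exp_zero, exp_lt_exp] at h1
      exact h1
    have := ddg_neg F.R.deg F.R.pos E hEneg j₀ hEj₀
    omega
  -- counting
  have e1 : Nat.card V = 2 ^ n * Nat.card T := by
    rw [card_map (PsiH F.G s u) V, htop, AddSubgroup.card_top, Nat.card_fun]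
    simp [hT]
  have e2 : Nat.card (AL (Dv s w N M)) ≤ 2 ^ s.card * Nat.card VS :=
    card_Z F.R s w hw N M hN0 hdeg1
  have e3 : Nat.card ↥(L ⊔ VS) * Nat.card ↥(L ⊓ VS) = Nat.card L * Nat.card VS := card_sup L VS
  have e4 : 2 * Nat.card ↥(L ⊓ VS) ≤ Nat.card (AL (Dv s w N 0)) := by
    have h1 : L ⊓ VS = L ⊓ SP s := by
      rw [hVS, ← inf_assoc, inf_eq_left.2 hLV]
    rw [h1]
    exact card_D1 F s hs w hw N hN0
  haveI hfT : Finite T := hfinsub T inf_le_left
  have hfI : Finite ↥(L ⊓ VS) := hfinsub _ (inf_le_left.trans hLV)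
  have hIpos : 0 < Nat.card ↥(L ⊓ VS) := Nat.card_pos
  have e5 : Nat.card T ≤ Nat.card ↥(L ⊔ VS) := by
    have h1 : (2 ^ (n + 1) * Nat.card ↥(L ⊓ VS)) * Nat.card T ≤
        (2 ^ (n + 1) * Nat.card ↥(L ⊓ VS)) * Nat.card ↥(L ⊔ VS) := by
      calc (2 ^ (n + 1) * Nat.card ↥(L ⊓ VS)) * Nat.card T
          = (2 ^ n * Nat.card T) * (2 * Nat.card ↥(L ⊓ VS)) := by rw [pow_succ]; ring
        _ = Nat.card V * (2 * Nat.card ↥(L ⊓ VS)) := by rw [e1]
        _ ≤ Nat.card V * Nat.card (AL (Dv s w N 0)) := Nat.mul_le_mul_left _ e4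
        _ = Nat.card L * Nat.card (AL (Dv s w N M)) := hcards
        _ ≤ Nat.card L * (2 ^ s.card * Nat.card VS) := Nat.mul_le_mul_left _ e2
        _ = 2 ^ (n + 1) * (Nat.card L * Nat.card VS) := by rw [hcard]; ring
        _ = 2 ^ (n + 1) * (Nat.card ↥(L ⊔ VS) * Nat.card ↥(L ⊓ VS)) := by rw [e3]
        _ = _ := by ring
    exact Nat.le_of_mul_le_mul_left h1 (by positivity)
  have hTeq : L ⊔ VS = T := AddSubgroup.eq_of_le_of_card_ge hsup e5
  -- the element
  obtain ⟨x₀, hx₀, hx₀2⟩ := approx F.R s w hw (2 * N) M (by omega) hdeg1 f hNf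
  have hx₀T : x₀ ∈ T := by
    refine ⟨hx₀, ?_⟩
    show x₀ ∈ (PsiH F.G s u).ker
    rw [AddMonoidHom.mem_ker]
    funext i
    rw [PsiH_apply]
    have h1 : ∀ j ∈ s, F.G.sy j (x₀ * dl F.G.t (u i)) = F.G.sy j (f j * dl F.G.t (u i)) := by
      intro j hj
      have h3 := hsp j (x₀ + f j) (u i) (hu.ne i) (Sp_of_lt (hx₀2 j hj))
      rw [add_mul, F.G.add] at h3
      exact CharTwo.add_eq_zero.1 h3
    rw [Finset.sum_congr rfl h1]
    exact hf (u i) (hu.ne i) (fun j hj => ⟨0, by rw [hu.unit i j hj]; simp⟩)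
  rw [← hTeq, AddSubgroup.mem_sup] at hx₀T
  obtain ⟨x, hx, v, hv, hxv⟩ := hx₀T
  refine ⟨x, hLint x hx, fun j hj => ?_⟩
  have e : x + f j = (x₀ + f j) + v := by
    have c2 : (2 : K) = 0 := CharTwo.two_eq_zero
    rw [← hxv]
    linear_combination (-v) * c2
  rw [e]
  exact Sp_add (Sp_of_lt (hx₀2 j hj)) (hv.2 j hj)

end Pool.Agent.H467.PG.Cfx
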