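import Pool.Agent.H467.PG.SpecB
import Pool.Agent.H467.GK.Hen
import Pool.Agent.H467.GK.Dra
import Pool.Agent.H467.MR.Zeta

/-!
# The places at which a nontrivial class does not split have positive density (S_CHB)

Project PG (helper467), part by helper154.
-/

set_option autoImplicit false
set_option linter.all false

open Finset Filter WithZero
open Pool.Agent.H467.PT
open Pool.Agent.H467.GK
open Pool.Agent.H467.CT (AS)
open scoped Classical

namespace Pool.Agent.H467.PG.Chb

open Pool.Agent.H467.GK.Dra (toPl vl vl_apply vl_surj toPl_ord)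

/-! ### Sums over places and over degrees -/

section sums

theorem tsum_fib {ι : Type} (d : ι → ℕ) (le : ℕ → Finset ι) (hle : ∀ l j, j ∈ le l ↔ d j ≤ l)
    {u : ℝ} (hs : Summable (fun j : ι => u ^ d j)) :
    Summable (fun l : ℕ => (((le l).filter (fun j => d j = l)).card : ℝ) * u ^ l) ∧
      ∑' l : ℕ, (((le l).filter (fun j => d j = l)).card : ℝ) * u ^ l = ∑' j : ι, u ^ d j := by
  let e := Equiv.sigmaFiberEquiv d
  have hs2 : Summable (fun x : (Σ l : ℕ, {j // d j = l}) => u ^ d (e x)) :=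
    (e.summable_iff (f := fun j => u ^ d j)).2 hs
  have ht2 : ∑' x : (Σ l : ℕ, {j // d j = l}), u ^ d (e x) = ∑' j : ι, u ^ d j :=
    e.tsum_eq (fun j => u ^ d j)
  have hf : ∀ l : ℕ, ∑' j : {j // d j = l}, u ^ d (e ⟨l, j⟩) =
      (((le l).filter (fun j => d j = l)).card : ℝ) * u ^ l := by
    intro l
    let e' : {j // j ∈ (le l).filter (fun j => d j = l)} ≃ {j // d j = l} :=
      Equiv.subtypeEquivRight (fun j => by
        rw [Finset.mem_filter, hle]
        exact ⟨fun h => h.2, fun h => ⟨h.le, h⟩⟩)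
    rw [← e'.tsum_eq]
    have h1 : ∀ j : {j // j ∈ (le l).filter (fun j => d j = l)},
        u ^ d (e ⟨l, e' j⟩) = (fun _ : ι => u ^ l) j.1 := by
      intro j
      have h2 : d (e ⟨l, e' j⟩) = l := (e' j).2
      rw [h2]
    rw [tsum_congr h1, Finset.tsum_subtype ((le l).filter (fun j => d j = l))
      (fun _ : ι => u ^ l), Finset.sum_const, nsmul_eq_mul]
  constructor
  · exact hs2.sigma.congr hf
  · rw [← ht2, hs2.tsum_sigma]
    exact tsum_congr fun l => (hf l).symm

theorem tsum_equiv {ι κ : Type} (e : ι ≃ κ) (d : κ → ℕ) (d' : ι → ℕ) (h : ∀ j, d (e j) = d' j)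
    {u : ℝ} (hs : Summable (fun j : κ => u ^ d j)) :
    Summable (fun j : ι => u ^ d' j) ∧ ∑' j : ι, u ^ d' j = ∑' j : κ, u ^ d j := by
  have h1 : (fun j : ι => u ^ d' j) = (fun j : κ => u ^ d j) ∘ e := by
    funext j
    rw [Function.comp_apply, h]
  constructor
  · rw [h1]
    exact e.summable_iff.2 hs
  · rw [h1]
    exact e.tsum_eq (fun j => u ^ d j)

end sums

/-! ### Places as valuations and places -/

section corr

variable {k K : Type} [Field k] [Finite k] [Field K] [Algebra k K]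

/-- The two notions of places. -/
noncomputable def pe : PV K ≃ FF.Place k K where
  toFun j := toPl (k := k) j.1 j.2
  invFun P := ⟨vl P, vl_surj P⟩
  left_inv j := by
    apply Subtype.ext
    ext f
    by_cases hf : f = 0
    · simp [hf]
    · show vl (toPl (k := k) j.1 j.2) f = j.1 f
      rw [vl_apply _ hf, toPl_ord, neg_neg, WithZero.exp_log ((Valuation.ne_zero_iff j.1).2 hf)]
  right_inv P := by
    ext f
    by_cases hf : f = 0
    · rw [hf, P.ord_zero, FF.Place.ord_zero]
    · show - WithZero.log (vl P f) = P.ord f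
      rw [vl_apply P hf, WithZero.log_exp, neg_neg]

theorem O_eq (j : PV K) : (pe (k := k) j).O = j.1.valuationSubring := by
  ext f
  show (pe (k := k) j).Reg f ↔ j.1 f ≤ 1
  by_cases hf : f = 0
  · rw [hf, map_zero]
    exact ⟨fun _ => zero_le_one, fun _ => Or.inl rfl⟩
  · rw [FF.Place.reg_iff _ hf]
    have h : (pe (k := k) j).ord f = - WithZero.log (j.1 f) := rfl
    have h3 := (Valuation.ne_zero_iff j.1).2 hf
    rw [h]
    constructor
    · intro h1
      rw [← WithZero.exp_log h3, ← WithZero.exp_zero, WithZero.exp_le_exp]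
      omega
    · intro h1
      rw [← WithZero.exp_log h3, ← WithZero.exp_zero, WithZero.exp_le_exp] at h1
      omega

theorem deg_eq [FF.IsFF k K] (R : GFR k K) (j : PV K) : (pe (k := k) j).deg = R.deg j := by
  have h1 := Pool.Agent.H467.MR.Zeta.card_RF (pe (k := k) j)
  have h2 : Nat.card (pe (k := k) j).RF =
      Nat.card (IsLocalRing.ResidueField j.1.valuationSubring) :=
    congrArg (fun O : ValuationSubring K => Nat.card (IsLocalRing.ResidueField O)) (O_eq (k := k) j)
  rw [R.resc, h1] at h2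
  exact Nat.pow_right_injective (Pool.Agent.H467.MR.Zeta.two_le (k := k)) h2

/-- The number of places of degree `l`. -/
noncomputable def nn (R : GFR k K) (l : ℕ) : ℕ := ((R.le l).filter (fun j => R.deg j = l)).card

theorem card_sysB (R : GFR k K) (B : Finset (PV K)) (l : ℕ) (p : PV K → Prop) :
    (((sysB R B).eq l).filter (fun j => p j.1)).card =
      ((R.le l).filter (fun j => R.deg j = l ∧ j ∉ B ∧ p j)).card := by
  rw [← Finset.card_map (Function.Embedding.subtype (fun j : PV K => j ∉ B))]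
  congr 1
  ext j
  rw [Finset.mem_map, Finset.mem_filter]
  constructor
  · rintro ⟨i, hi, rfl⟩
    rw [Finset.mem_filter] at hi
    obtain ⟨hi, hp⟩ := hi
    have h1 : i ∈ ((sysB R B).le l).filter (fun p => (sysB R B).deg p = l) := hi
    rw [Finset.mem_filter, (sysB R B).mem_le] at h1
    exact ⟨(R.mem_le _ _).2 h1.1, h1.2, i.2, hp⟩
  · rintro ⟨h1, h2, h3, h4⟩
    refine ⟨⟨j, h3⟩, ?_, rfl⟩
    rw [Finset.mem_filter]
    refine ⟨?_, h4⟩
    show _ ∈ ((sysB R B).le l).filter (fun p => (sysB R B).deg p = l)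
    rw [Finset.mem_filter, (sysB R B).mem_le]
    exact ⟨(R.mem_le _ _).1 h1, h2⟩

theorem nn_eq (R : GFR k K) (l : ℕ) : nn R l = ((sysB R ∅).eq l).card := by
  have h := card_sysB R ∅ l (fun _ => True)
  rw [Finset.filter_true] at h
  rw [h, nn]
  congr 1
  ext j
  simp

theorem tsum_nn [FF.IsFF k K] (R : GFR k K) {u : ℝ} (hu : 0 < u)
    (hs : Summable (fun P : FF.Place k K => u ^ P.deg)) :
    Summable (fun l : ℕ => (nn R l : ℝ) * u ^ l) ∧
      ∑' l : ℕ, (nn R l : ℝ) * u ^ l = ∑' P : FF.Place k K, u ^ P.deg := by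
  obtain ⟨h1, h2⟩ := tsum_equiv (pe (k := k) (K := K)) (fun P => P.deg) R.deg (deg_eq R) hs
  obtain ⟨h3, h4⟩ := tsum_fib R.deg R.le R.mem_le h1
  exact ⟨h3, h4.trans h2⟩

/-- The number of places up to `N`. -/
theorem two_sided [CharP k 2] [CharP K 2] (hT : S_TAUB) (hP : S_PKG) (hK : IsFF k K)
    (R : GFR k K) : ∃ C : ℝ, ∀ N : ℕ, 1 ≤ N →
      |∑ l ∈ Icc 1 N, (nn R l : ℝ) / (Nat.card k : ℝ) ^ l - Real.log N| ≤ C := by
  haveI : FF.IsFF k K := by
    obtain ⟨t, ht, hfin⟩ := hK
    exact FF.IsFF.of_finite ht hfin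
  obtain ⟨C₁, c, W, n₀, h⟩ := hP k K hK R ∅
  obtain ⟨C₂, h₂⟩ := Pool.Agent.H467.MR.Zeta.places_sum (k := k) (F := K)
  obtain ⟨C', hC'⟩ := hT (Nat.card k) (max C₁ C₂) 1 (fun l => (nn R l : ℝ))
    (Pool.Agent.H467.MR.Zeta.two_le (k := k)) (fun l => Nat.cast_nonneg _) (by
      have : nn R 0 = 0 := by
        unfold nn
        rw [Finset.card_eq_zero, Finset.filter_eq_empty_iff]
        intro j _ h0
        have := R.pos j
        omega
      show ((nn R 0 : ℕ) : ℝ) = 0
      rw [this, Nat.cast_zero]) (fun l => by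
      show (l : ℝ) * (nn R l : ℝ) ≤ _
      rw [nn_eq]
      refine (h.up l).trans ?_
      exact mul_le_mul_of_nonneg_right (le_max_left _ _) (by positivity)) (by
      intro u hu hqu
      obtain ⟨h3, h4⟩ := h₂ u hu hqu
      obtain ⟨h5, h6⟩ := tsum_nn R hu h3
      refine ⟨h5, ?_⟩
      rw [h6, one_mul]
      exact h4.trans (le_max_right _ _))
  refine ⟨C', fun N hN => ?_⟩
  have := hC' N hN
  rwa [one_mul] at this

end corr

/-! ### The quadratic extension -/

section quad

open IntermediateField in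
/-- A finite extension of a function field is a function field. -/
theorem isFF_ext {k K L : Type} [Field k] [Field K] [Field L] [Algebra k K] [Algebra K L]
    [Algebra k L] [IsScalarTower k K L] [FiniteDimensional K L] (h : IsFF k K) : IsFF k L := by
  obtain ⟨t, ht, hfin⟩ := h
  refine ⟨algebraMap K L t, (transcendental_algebraMap_iff (algebraMap K L).injective).2 ht, ?_⟩
  have hc : ∀ c : k⟮t⟯, algebraMap K L (c : K) ∈ k⟮algebraMap K L t⟯ := by
    intro c
    have h1 : (k⟮t⟯).map (IsScalarTower.toAlgHom k K L) = k⟮algebraMap K L t⟯ := by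
      rw [IntermediateField.adjoin_map, Set.image_singleton]
      rfl
    rw [← h1]
    exact ⟨c, c.2, rfl⟩
  letI : Algebra k⟮t⟯ k⟮algebraMap K L t⟯ :=
    (((algebraMap K L).comp (algebraMap k⟮t⟯ K)).codRestrict k⟮algebraMap K L t⟯ hc).toAlgebra
  haveI : IsScalarTower k⟮t⟯ k⟮algebraMap K L t⟯ L := IsScalarTower.of_algebraMap_eq (fun x => by
    rw [IsScalarTower.algebraMap_apply k⟮t⟯ K L]
    rfl)
  haveI : FiniteDimensional k⟮t⟯ L := FiniteDimensional.trans k⟮t⟯ K L
  exact FiniteDimensional.right k⟮t⟯ k⟮algebraMap K L t⟯ L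

variable {K : Type} [Field K] [CharP K 2]

/-- The embedding in a completion given by a root. -/
noncomputable def emb (u : Vl K) (a : K) (r : Cm u)
    (hr : r * r = algebraMap K (Cm u) a + r) : QuadraticAlgebra K a 1 →+* Cm u where
  toFun z := algebraMap K (Cm u) z.re + algebraMap K (Cm u) z.im * r
  map_one' := by simp [QuadraticAlgebra.re_one, QuadraticAlgebra.im_one]
  map_mul' z w := by
    simp only [QuadraticAlgebra.re_mul, QuadraticAlgebra.im_mul, map_add, map_mul, map_one,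
      one_mul]
    linear_combination (-(algebraMap K (Cm u) z.im * algebraMap K (Cm u) w.im)) * hr
  map_zero' := by simp
  map_add' z w := by
    simp only [QuadraticAlgebra.re_add, QuadraticAlgebra.im_add, map_add]; ring

variable (a : K) [Fact (∀ r : K, r ^ 2 ≠ a + 1 * r)]

/-- The valuation given by a root. -/
noncomputable def ww (u : Vl K) (r : Cm u) (hr : r * r = algebraMap K (Cm u) a + r) :
    Vl (QuadraticAlgebra K a 1) := (vc u).comap (emb u a r hr)

theorem ww_alg (u : Vl K) (r : Cm u) (hr : r * r = algebraMap K (Cm u) a + r) (x : K) :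
    ww a u r hr (algebraMap K (QuadraticAlgebra K a 1) x) = u x := by
  show vc u (algebraMap K (Cm u) x + algebraMap K (Cm u) 0 * r) = u x
  rw [map_zero, zero_mul, add_zero, Hen.vc_alg]

theorem ww_surj (u : Vl K) (hu : Function.Surjective u) (r : Cm u)
    (hr : r * r = algebraMap K (Cm u) a + r) : Function.Surjective (ww a u r hr) := by
  intro y
  obtain ⟨x, hx⟩ := hu y
  exact ⟨algebraMap K _ x, by rw [ww_alg, hx]⟩

theorem isUnit_vs {F : Type} [Field F] (v : Vl F) (x : v.valuationSubring) :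
    IsUnit x ↔ v x.1 = 1 := by
  constructor
  · rintro ⟨y, hy⟩
    have h1 : x.1 * (y⁻¹ : (v.valuationSubring)ˣ).1.1 = 1 := by
      have : (y.1 : v.valuationSubring) * (y⁻¹ : (v.valuationSubring)ˣ).1 = 1 := y.mul_inv
      rw [hy] at this
      exact congrArg Subtype.val this
    have h2 : v x.1 ≤ 1 := x.2
    have h3 : v (y⁻¹ : (v.valuationSubring)ˣ).1.1 ≤ 1 := (y⁻¹ : (v.valuationSubring)ˣ).1.2
    have h4 : v x.1 * v (y⁻¹ : (v.valuationSubring)ˣ).1.1 = 1 := by rw [← map_mul, h1, map_one]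
    refine le_antisymm h2 ?_
    rw [← h4]
    exact mul_le_of_le_one_right' h3
  · intro h
    have h0 : x.1 ≠ 0 := by
      intro h0
      rw [h0, map_zero] at h
      exact zero_ne_one h
    have hi : v x.1⁻¹ ≤ 1 := by rw [map_inv₀, h, inv_one]
    exact IsUnit.of_mul_eq_one ⟨x.1⁻¹, hi⟩ (Subtype.ext (mul_inv_cancel₀ h0))

theorem residue_vs {F : Type} [Field F] (v : Vl F) (x : v.valuationSubring) :
    IsLocalRing.residue v.valuationSubring x = 0 ↔ v x.1 < 1 := by
  rw [IsLocalRing.residue_eq_zero_iff, IsLocalRing.mem_maximalIdeal, mem_nonunits_iff,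
    isUnit_vs]
  exact ⟨fun h => lt_of_le_of_ne x.2 h, fun h => h.ne⟩

/-- The residue fields. -/
theorem card_res (u : Vl K) (r : Cm u) (hr : r * r = algebraMap K (Cm u) a + r) :
    Nat.card (IsLocalRing.ResidueField (ww a u r hr).valuationSubring) =
      Nat.card (IsLocalRing.ResidueField u.valuationSubring) := by
  set w := ww a u r hr with hw
  let ι : u.valuationSubring →+* w.valuationSubring :=
    ((algebraMap K (QuadraticAlgebra K a 1)).comp u.valuationSubring.subtype).codRestrict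
      w.valuationSubring (fun x => by
        show w (algebraMap K (QuadraticAlgebra K a 1) x.1) ≤ 1
        rw [hw, ww_alg]
        exact x.2)
  have hι : ∀ x, w (ι x).1 = u x.1 := fun x => ww_alg a u r hr x.1
  haveI : IsLocalHom ι := ⟨fun x hx => by
    rw [isUnit_vs] at hx ⊢
    rwa [hι] at hx⟩
  symm
  refine Nat.card_eq_of_bijective (IsLocalRing.ResidueField.map ι) ⟨RingHom.injective _, ?_⟩
  intro y
  obtain ⟨z, rfl⟩ := IsLocalRing.residue_surjective y
  obtain ⟨f, hf⟩ := Hen.dense_vc u (emb u a r hr z.1) (one_ne_zero (α := K))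
  rw [map_one, map_one] at hf
  have hz : vc u (emb u a r hr z.1) ≤ 1 := z.2
  have hf1 : u f ≤ 1 := by
    rw [← Hen.vc_alg]
    have e : algebraMap K (Cm u) f = emb u a r hr z.1 -
        (emb u a r hr z.1 - algebraMap K (Cm u) f) := by ring
    rw [e]
    exact Valuation.map_sub_le _ hz hf.le
  refine ⟨IsLocalRing.residue _ ⟨f, hf1⟩, ?_⟩
  rw [IsLocalRing.ResidueField.map_residue, ← sub_eq_zero, ← map_sub, residue_vs]
  show vc u (emb u a r hr (algebraMap K (QuadraticAlgebra K a 1) f - z.1)) < 1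
  have e : emb u a r hr (algebraMap K (QuadraticAlgebra K a 1) f) = algebraMap K (Cm u) f := by
    show algebraMap K (Cm u) f + algebraMap K (Cm u) 0 * r = _
    rw [map_zero, zero_mul, add_zero]
  rw [map_sub, e, Valuation.map_sub_swap]
  exact hf

/-- Two places above a place which splits. -/
theorem two_places (hen : S_HEN) {k : Type} [Field k] [Finite k] [Algebra k K] (R : GFR k K)
    (R' : GFR k (QuadraticAlgebra K a 1)) (j : PV K) (hj : Spl j (mkq a)) :
    ∃ w₁ w₂ : PV (QuadraticAlgebra K a 1), w₁ ≠ w₂ ∧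
      (∀ x : K, w₁.1 (algebraMap K (QuadraticAlgebra K a 1) x) = j.1 x) ∧
      (∀ x : K, w₂.1 (algebraMap K (QuadraticAlgebra K a 1) x) = j.1 x) ∧
      R'.deg w₁ = R.deg j ∧ R'.deg w₂ = R.deg j := by
  obtain ⟨a', ha', hlt⟩ := hj
  haveI hc : CharP (Cm j.1) 2 :=
    charP_of_injective_algebraMap (algebraMap K (Cm j.1)).injective 2
  have c2 : (2 : Cm j.1) = 0 := CharTwo.two_eq_zero
  obtain ⟨z, hz⟩ : AS (-a' + a) := (QuotientAddGroup.eq (s := wp K)).1 ha'
  have h1 : vc j.1 (algebraMap K (Cm j.1) a') < 1 := by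
    rw [Hen.vc_alg]; exact hlt
  obtain ⟨s, hs⟩ := (hen K j.1 j.2).2.1 _ h1
  have hz' : -algebraMap K (Cm j.1) a' + algebraMap K (Cm j.1) a =
      algebraMap K (Cm j.1) z ^ 2 + algebraMap K (Cm j.1) z := by
    rw [← map_neg, ← map_add, hz, map_add, map_pow]
  have hr1 : (s + algebraMap K (Cm j.1) z) * (s + algebraMap K (Cm j.1) z) =
      algebraMap K (Cm j.1) a + (s + algebraMap K (Cm j.1) z) := by
    linear_combination -hz' - hs +
      (-s - algebraMap K (Cm j.1) z + s * algebraMap K (Cm j.1) z) * c2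
  have hr2 : (s + 1 + algebraMap K (Cm j.1) z) * (s + 1 + algebraMap K (Cm j.1) z) =
      algebraMap K (Cm j.1) a + (s + 1 + algebraMap K (Cm j.1) z) := by
    linear_combination -hz' - hs +
      (s * algebraMap K (Cm j.1) z) * c2
  have hq : Function.Injective (fun n : ℕ => Nat.card k ^ n) :=
    Nat.pow_right_injective (Pool.Agent.H467.MR.Zeta.two_le (k := k))
  refine ⟨⟨ww a j.1 _ hr1, ww_surj a j.1 j.2 _ hr1⟩, ⟨ww a j.1 _ hr2, ww_surj a j.1 j.2 _ hr2⟩,
    ?_, ww_alg a j.1 _ hr1, ww_alg a j.1 _ hr2, ?_, ?_⟩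
  · intro he
    have he' : ww a j.1 _ hr1 = ww a j.1 _ hr2 := congrArg Subtype.val he
    have h2 : vc j.1 s = vc j.1 (s + 1) := by
      have h3 := DFunLike.congr_fun he' (⟨z, 1⟩ : QuadraticAlgebra K a 1)
      have h4 : ww a j.1 _ hr1 (⟨z, 1⟩ : QuadraticAlgebra K a 1) = vc j.1 s := by
        show vc j.1 (algebraMap K (Cm j.1) z + algebraMap K (Cm j.1) 1 *
          (s + algebraMap K (Cm j.1) z)) = _
        congr 1
        rw [map_one]
        linear_combination (algebraMap K (Cm j.1) z) * c2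
      have h5 : ww a j.1 _ hr2 (⟨z, 1⟩ : QuadraticAlgebra K a 1) = vc j.1 (s + 1) := by
        show vc j.1 (algebraMap K (Cm j.1) z + algebraMap K (Cm j.1) 1 *
          (s + 1 + algebraMap K (Cm j.1) z)) = _
        congr 1
        rw [map_one]
        linear_combination (algebraMap K (Cm j.1) z) * c2
      rw [← h4, ← h5]
      exact h3
    have h6 : vc j.1 s * vc j.1 (s + 1) < 1 := by
      rw [← map_mul]
      have : s * (s + 1) = algebraMap K (Cm j.1) a' := by rw [hs]; ring
      rw [this]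
      exact h1
    rw [← h2] at h6
    have h7 : vc j.1 s < 1 := by
      by_contra hn
      exact absurd h6 (not_lt.2 (one_le_mul (not_lt.1 hn) (not_lt.1 hn)))
    have h8 : vc j.1 ((s + 1) - s) < 1 := Valuation.map_sub_lt _ (by rw [← h2]; exact h7) h7
    rw [add_sub_cancel_left, map_one] at h8
    exact lt_irrefl _ h8
  · exact hq ((R'.resc _).symm.trans ((card_res a j.1 _ hr1).trans (R.resc j)))
  · exact hq ((R'.resc _).symm.trans ((card_res a j.1 _ hr2).trans (R.resc j)))

end quad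

/-! ### Conclusion -/

/-- The split places of degree `l` give twice as many places of the quadratic extension. -/
theorem two_mul_le {k K : Type} [Field k] [Finite k] [Field K] [CharP K 2] [Algebra k K]
    (a : K) [Fact (∀ r : K, r ^ 2 ≠ a + 1 * r)] (hen : S_HEN) (R : GFR k K)
    (R' : GFR k (QuadraticAlgebra K a 1)) (l : ℕ) :
    2 * ((R.le l).filter (fun j => R.deg j = l ∧ Spl j (mkq a))).card ≤ nn R' l := by
  have h := fun j : PV K => two_places a hen R R' j
  choose w₁ w₂ hne h1 h2 h3 h4 using h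
  set s := (R.le l).filter (fun j => R.deg j = l ∧ Spl j (mkq a)) with hs
  have hsm : ∀ j ∈ s, R.deg j = l ∧ Spl j (mkq a) := fun j hj => (Finset.mem_filter.1 hj).2
  let f₁ : {j // j ∈ s} → PV (QuadraticAlgebra K a 1) := fun j => w₁ j.1 (hsm j.1 j.2).2
  let f₂ : {j // j ∈ s} → PV (QuadraticAlgebra K a 1) := fun j => w₂ j.1 (hsm j.1 j.2).2
  have key : ∀ (i j : {j // j ∈ s}) (v w : PV (QuadraticAlgebra K a 1)),
      (∀ x : K, v.1 (algebraMap K (QuadraticAlgebra K a 1) x) = i.1.1 x) →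
      (∀ x : K, w.1 (algebraMap K (QuadraticAlgebra K a 1) x) = j.1.1 x) → v = w → i = j := by
    intro i j v w hv hw hvw
    apply Subtype.ext
    apply Subtype.ext
    ext x
    rw [← hv, ← hw, hvw]
  have hi₁ : Function.Injective f₁ := fun i j hij =>
    key i j _ _ (h1 i.1 (hsm i.1 i.2).2) (h1 j.1 (hsm j.1 j.2).2) hij
  have hi₂ : Function.Injective f₂ := fun i j hij =>
    key i j _ _ (h2 i.1 (hsm i.1 i.2).2) (h2 j.1 (hsm j.1 j.2).2) hij
  have hdis : Disjoint (Finset.univ.image f₁) (Finset.univ.image f₂) := by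
    rw [Finset.disjoint_left]
    intro v hv hv'
    obtain ⟨i, -, hi⟩ := Finset.mem_image.1 hv
    obtain ⟨j, -, hj⟩ := Finset.mem_image.1 hv'
    have hij : i = j := key i j _ _ (h1 i.1 (hsm i.1 i.2).2) (h2 j.1 (hsm j.1 j.2).2)
      (hi.trans hj.symm)
    subst hij
    exact hne i.1 (hsm i.1 i.2).2 (hi.trans hj.symm)
  have hsub : Finset.univ.image f₁ ∪ Finset.univ.image f₂ ⊆
      (R'.le l).filter (fun j => R'.deg j = l) := by
    intro v hv
    rw [Finset.mem_union] at hv
    have hd : R'.deg v = l := by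
      rcases hv with hv | hv
      · obtain ⟨i, -, hi⟩ := Finset.mem_image.1 hv
        rw [← hi]
        exact (h3 i.1 (hsm i.1 i.2).2).trans (hsm i.1 i.2).1
      · obtain ⟨i, -, hi⟩ := Finset.mem_image.1 hv
        rw [← hi]
        exact (h4 i.1 (hsm i.1 i.2).2).trans (hsm i.1 i.2).1
    rw [Finset.mem_filter, R'.mem_le]
    exact ⟨hd.le, hd⟩
  calc 2 * s.card = (Finset.univ.image f₁).card + (Finset.univ.image f₂).card := by
        rw [Finset.card_image_of_injective _ hi₁, Finset.card_image_of_injective _ hi₂,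
          Finset.card_univ, Fintype.card_coe]
        ring
    _ = (Finset.univ.image f₁ ∪ Finset.univ.image f₂).card :=
        (Finset.card_union_of_disjoint hdis).symm
    _ ≤ _ := Finset.card_le_card hsub

theorem cover {k K : Type} [Field k] [Finite k] [Field K] [Algebra k K] (R : GFR k K)
    (B : Finset (PV K)) (l : ℕ) (p : PV K → Prop) :
    nn R l ≤ cI (sysB R B) {j : Ob B | ¬ p j.1} l +
      ((R.le l).filter (fun j => R.deg j = l ∧ p j)).card +
      (B.filter (fun Q => R.deg Q = l)).card := by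
  obtain ⟨p', hp'⟩ : ∃ p' : PV K → Prop, ∀ j, p' j ↔ ¬ p j := ⟨fun j => ¬ p j, fun _ => Iff.rfl⟩
  have h3 : {j : Ob B | ¬ p j.1} = {j : Ob B | p' j.1} := by
    ext j
    exact (hp' j.1).symm
  have h4 : cI (sysB R B) {j : Ob B | p' j.1} l = _ := card_sysB R B l p'
  rw [h3, h4]
  refine le_trans ?_ (Nat.add_le_add_right (Finset.card_union_le _ _) _)
  refine le_trans ?_ (Finset.card_union_le _ _)
  refine Finset.card_le_card fun j hj => ?_
  rw [Finset.mem_filter] at hj
  rw [Finset.mem_union, Finset.mem_union, Finset.mem_filter, Finset.mem_filter,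
    Finset.mem_filter]
  by_cases hB : j ∈ B
  · exact Or.inr ⟨hB, hj.2⟩
  · by_cases hs : p j
    · exact Or.inl (Or.inr ⟨hj.1, hj.2, hs⟩)
    · exact Or.inl (Or.inl ⟨hj.1, hj.2, hB, (hp' j).2 hs⟩)

theorem sum_B {ι : Type} (B : Finset ι) (d : ι → ℕ) (s : Finset ℕ) :
    ∑ l ∈ s, ((B.filter (fun Q => d Q = l)).card : ℝ) ≤ B.card := by
  have h : ∑ l ∈ s, (B.filter (fun Q => d Q = l)).card ≤ B.card := by
    rw [← Finset.card_biUnion]
    · apply card_le_card
      intro Q hQ
      rw [mem_biUnion] at hQ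
      obtain ⟨l, _, hl⟩ := hQ
      exact (mem_filter.1 hl).1
    · intro a _ b _ hab
      change Disjoint _ _
      rw [Finset.disjoint_left]
      intro Q h1 h2
      exact hab ((mem_filter.1 h1).2.symm.trans (mem_filter.1 h2).2)
  exact_mod_cast h

/-- All `N`. -/
theorem all_N {S : ℕ → ℝ} {C : ℝ} (h0 : S 0 = 0) (h : ∀ N : ℕ, 1 ≤ N → |S N - Real.log N| ≤ C)
    (N : ℕ) : |S N - Real.log ((N : ℝ) + 1)| ≤ |C| + 1 := by
  rcases Nat.eq_zero_or_pos N with rfl | hN
  · rw [h0, Nat.cast_zero, zero_add, Real.log_one, sub_zero, abs_zero]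
    positivity
  · have h1 := h N hN
    have hN' : (1 : ℝ) ≤ N := by exact_mod_cast hN
    have h2 : Real.log N ≤ Real.log ((N : ℝ) + 1) :=
      Real.log_le_log (by linarith) (by linarith)
    have h3 : Real.log ((N : ℝ) + 1) ≤ Real.log N + 1 := by
      have e : ((N : ℝ) + 1) = N * (1 + 1 / N) := by field_simp
      rw [e, Real.log_mul (by linarith) (by positivity)]
      have h4 := Real.log_le_sub_one_of_pos (show (0 : ℝ) < 1 + 1 / (N : ℝ) by positivity)
      have h5 : 1 / (N : ℝ) ≤ 1 := by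
        rw [div_le_one (by linarith)]; exact hN'
      linarith
    have h6 := le_abs_self C
    rw [abs_le] at h1 ⊢
    constructor <;> linarith [h1.1, h1.2]

theorem chb : S_GFR → S_TAUB → S_PKG → S_POQ → S_CHB := by
  intro hG hT hP _ k K _ _ _ _ _ _ hK R B α hα
  obtain ⟨a, rfl⟩ : ∃ a : K, mkq a = α := QuotientAddGroup.mk_surjective α
  have hna : ¬ AS a := fun h => hα ((QuotientAddGroup.eq_zero_iff a).2 h)
  have c2 : (2 : K) = 0 := CharTwo.two_eq_zero
  haveI : Fact (∀ r : K, r ^ 2 ≠ a + 1 * r) :=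
    ⟨fun r hr => hna ⟨r, by linear_combination hr - (r ^ 2 - a) * c2⟩⟩
  haveI : CharP (QuadraticAlgebra K a 1) 2 :=
    charP_of_injective_algebraMap (algebraMap K (QuadraticAlgebra K a 1)).injective 2
  have hL : IsFF k (QuadraticAlgebra K a 1) := isFF_ext (K := K) hK
  obtain ⟨R'⟩ := hG k (QuadraticAlgebra K a 1) hL
  obtain ⟨C₁, h₁⟩ := two_sided hT hP hK R
  obtain ⟨C₂, h₂⟩ := two_sided hT hP hL R'
  set q : ℝ := (Nat.card k : ℝ) with hq
  have hq1 : 1 ≤ q := by
    have := Pool.Agent.H467.MR.Zeta.two_le (k := k)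
    rw [hq]
    have h2 : (2 : ℝ) ≤ (Nat.card k : ℝ) := by exact_mod_cast this
    linarith
  have hIcc : ∀ N : ℕ, Icc 1 N = Ioc 0 N := fun N => rfl
  have H₁ := all_N (S := fun N => ∑ l ∈ Ioc 0 N, (nn R l : ℝ) / q ^ l) (C := C₁) (by simp)
    (fun N hN => h₁ N hN)
  have H₂ := all_N (S := fun N => ∑ l ∈ Ioc 0 N, (nn R' l : ℝ) / q ^ l) (C := C₂) (by simp)
    (fun N hN => h₂ N hN)
  refine ⟨1 / 2, 2 * (|C₁| + 1) + (|C₂| + 1) + B.card, by norm_num, fun x Y hxY => ?_⟩
  have hb := sum_B B R.deg (Ioc x Y)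
  have hterm : ∀ l ∈ Ioc x Y, (nn R l : ℝ) / q ^ l - 1 / 2 * ((nn R' l : ℝ) / q ^ l) -
      ((B.filter (fun Q => R.deg Q = l)).card : ℝ) ≤
      (cI (sysB R B) {j : Ob B | ¬ Spl j.1 (mkq a)} l : ℝ) / q ^ l := by
    intro l _
    have h3 := two_mul_le a Hen.hen R R' l
    have h5 := cover R B l (fun j => Spl j (mkq a))
    set c₁ := cI (sysB R B) {j : Ob B | ¬ Spl j.1 (mkq a)} l
    set c₂ := ((R.le l).filter (fun j => R.deg j = l ∧ Spl j (mkq a))).card
    set c₃ := (B.filter (fun Q => R.deg Q = l)).card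
    have hql : 1 ≤ q ^ l := one_le_pow₀ hq1
    have hql0 : 0 < q ^ l := by linarith
    have h3' : 2 * (c₂ : ℝ) ≤ (nn R' l : ℝ) := by exact_mod_cast h3
    have h5' : (nn R l : ℝ) ≤ c₁ + c₂ + c₃ := by exact_mod_cast h5
    have h6 : (c₃ : ℝ) / q ^ l ≤ c₃ := div_le_self (Nat.cast_nonneg _) hql
    have h7 : (nn R l : ℝ) / q ^ l - 1 / 2 * ((nn R' l : ℝ) / q ^ l) - (c₃ : ℝ) / q ^ l ≤
        (c₁ : ℝ) / q ^ l := by
      have e : (nn R l : ℝ) / q ^ l - 1 / 2 * ((nn R' l : ℝ) / q ^ l) - (c₃ : ℝ) / q ^ l =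
        ((nn R l : ℝ) - 1 / 2 * (nn R' l : ℝ) - c₃) / q ^ l := by ring
      rw [e]
      exact div_le_div_of_nonneg_right (by linarith) hql0.le
    linarith
  have hsum := Finset.sum_le_sum hterm
  rw [Finset.sum_sub_distrib, Finset.sum_sub_distrib, ← Finset.mul_sum] at hsum
  have e₁ := Finset.sum_Ioc_consecutive (fun l => (nn R l : ℝ) / q ^ l) (Nat.zero_le x) hxY
  have e₂ := Finset.sum_Ioc_consecutive (fun l => (nn R' l : ℝ) / q ^ l) (Nat.zero_le x) hxY
  have a₁ := abs_le.1 (H₁ x)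
  have a₂ := abs_le.1 (H₁ Y)
  have b₁ := abs_le.1 (H₂ x)
  have b₂ := abs_le.1 (H₂ Y)
  have hlog : Real.log (((Y : ℝ) + 1) / ((x : ℝ) + 1)) =
      Real.log ((Y : ℝ) + 1) - Real.log ((x : ℝ) + 1) :=
    Real.log_div (by positivity) (by positivity)
  rw [hlog]
  linarith [a₁.1, a₁.2, a₂.1, a₂.2, b₁.1, b₁.2, b₂.1, b₂.2]

end Pool.Agent.H467.PG.Chb
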