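import Pool.Agent.H467.PG.SpecC

/-!
# The distribution

Project PG (helper467), task CORE (helper236).
-/

set_option autoImplicit false

open Finset Filter WithZero
open Pool.Agent.H467.PT
open Pool.Agent.H467.GK
open Pool.Agent.H467.CT (AS Bas IsTau Std Ev LV LF cc)
open scoped Classical

namespace Pool.Agent.H467.PG.Core

theorem absr {β : Type} (T : ℕ → Finset β) (d : β → ℕ) (hT : ∀ i D, D ∈ T i ↔ d D = i)
    (a g : β → ℝ) (q : ℝ) (hq : 2 ≤ q) (C c' α : ℝ) (hC : 0 < C) (hc' : 0 < c')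
    (ha : ∀ D, a D ≤ C * q ^ (d D)) (hg0 : ∀ D, 0 ≤ g D) (hga : ∀ D, g D ≤ a D) (m₁ : ℕ)
    (hlow : ∀ m, m₁ ≤ m → c' * q ^ (2 * m) ≤ ∑ i ∈ range (m + 1), ∑ D ∈ T i, a D)
    (hnice : ∀ δ ε : ℝ, 0 < δ → 0 < ε → ∃ (N : β → Prop) (m₀ : ℕ),
      (∀ D, N D → |g D - α * a D| ≤ δ * a D) ∧
      ∀ m, m₀ ≤ m → (((T m).filter (fun D => ¬ N D)).card : ℝ) ≤ ε * q ^ m) :
    Tendsto (fun m : ℕ => (∑ i ∈ range (m + 1), ∑ D ∈ T i, g D) /
      (∑ i ∈ range (m + 1), ∑ D ∈ T i, a D)) atTop (nhds α) := by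
  have ha0 : ∀ D, 0 ≤ a D := fun D => (hg0 D).trans (hga D)
  have hq0 : (0 : ℝ) < q := by linarith
  have hq1 : (1 : ℝ) < q := by linarith
  set A : ℕ → ℝ := fun m => ∑ i ∈ range (m + 1), ∑ D ∈ T i, a D with hA
  set G : ℕ → ℝ := fun m => ∑ i ∈ range (m + 1), ∑ D ∈ T i, g D with hG
  -- the constant beta
  set b : ℝ := 1 + |α| with hb
  have hb1 : 1 ≤ b := by rw [hb]; linarith [abs_nonneg α]
  -- key bound for every δ
  have key : ∀ δ : ℝ, 0 < δ → ∃ m₂ : ℕ, ∀ m, m₂ ≤ m → |G m - α * A m| ≤ δ * A m := by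
    intro δ hδ
    -- split δ
    obtain ⟨N, m₀, hN, hcount⟩ := hnice (δ / 3) (δ * c' / (6 * b * C)) (by positivity)
      (by positivity)
    set ε : ℝ := δ * c' / (6 * b * C) with hε
    have hε0 : 0 < ε := by positivity
    -- the bad sum
    set bad : ℕ → ℝ := fun i => ∑ D ∈ (T i).filter (fun D => ¬ N D), a D with hbad
    have hbad0 : ∀ i, 0 ≤ bad i := fun i => Finset.sum_nonneg (fun D _ => ha0 D)
    have hbadle : ∀ i, m₀ ≤ i → bad i ≤ ε * C * (q ^ 2) ^ i := by
      intro i hi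
      calc bad i ≤ ∑ D ∈ (T i).filter (fun D => ¬ N D), C * q ^ i := by
            apply Finset.sum_le_sum
            intro D hD
            have h1 : d D = i := (hT i D).1 (Finset.mem_filter.1 hD).1
            rw [← h1]
            exact ha D
        _ = (((T i).filter (fun D => ¬ N D)).card : ℝ) * (C * q ^ i) := by
            rw [Finset.sum_const, nsmul_eq_mul]
        _ ≤ (ε * q ^ i) * (C * q ^ i) := by
            apply mul_le_mul_of_nonneg_right (hcount i hi)
            positivity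
        _ = ε * C * (q ^ 2) ^ i := by
            rw [← pow_mul]; ring
    set K : ℝ := ∑ i ∈ range m₀, bad i with hK
    have hK0 : 0 ≤ K := Finset.sum_nonneg (fun i _ => hbad0 i)
    have hgeo : ∀ m : ℕ, ∑ i ∈ range (m + 1), (q ^ 2) ^ i ≤ 2 * (q ^ 2) ^ m := by
      intro m
      induction m with
      | zero => simp
      | succ m ih =>
        rw [Finset.sum_range_succ]
        have h4 : (4 : ℝ) ≤ q ^ 2 := by nlinarith
        have h5 : (q ^ 2) ^ (m + 1) = (q ^ 2) ^ m * q ^ 2 := pow_succ _ _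
        have h6 : 0 < (q ^ 2) ^ m := by positivity
        nlinarith
    have hbadsum : ∀ m, ∑ i ∈ range (m + 1), bad i ≤ K + ε * C * (2 * (q ^ 2) ^ m) := by
      intro m
      have h1 : ∑ i ∈ range (m + 1), bad i ≤
          ∑ i ∈ range (m + 1), ((if i < m₀ then bad i else 0) + ε * C * (q ^ 2) ^ i) := by
        apply Finset.sum_le_sum
        intro i _
        split_ifs with h
        · have : 0 ≤ ε * C * (q ^ 2) ^ i := by positivity
          linarith
        · have := hbadle i (not_lt.1 h)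
          linarith
      have h2 : ∑ i ∈ range (m + 1), (if i < m₀ then bad i else 0) ≤ K := by
        rw [← Finset.sum_filter]
        apply Finset.sum_le_sum_of_subset_of_nonneg
        · intro i hi
          rw [Finset.mem_filter] at hi
          exact Finset.mem_range.2 hi.2
        · intro i _ _
          exact hbad0 i
      rw [Finset.sum_add_distrib, ← Finset.mul_sum] at h1
      have h3 : ε * C * ∑ i ∈ range (m + 1), (q ^ 2) ^ i ≤ ε * C * (2 * (q ^ 2) ^ m) :=
        mul_le_mul_of_nonneg_left (hgeo m) (by positivity)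
      linarith
    -- the difference
    have hdiff : ∀ m, |G m - α * A m| ≤ δ / 3 * A m + b * ∑ i ∈ range (m + 1), bad i := by
      intro m
      have e1 : G m - α * A m = ∑ i ∈ range (m + 1), ∑ D ∈ T i, (g D - α * a D) := by
        rw [hG, hA]
        simp only [Finset.mul_sum, Finset.sum_sub_distrib]
      rw [e1]
      have e2 : δ / 3 * A m + b * ∑ i ∈ range (m + 1), bad i =
          ∑ i ∈ range (m + 1), ∑ D ∈ T i, (δ / 3 * a D + b * (if ¬ N D then a D else 0)) := by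
        rw [hA, hbad]
        simp only [Finset.mul_sum, Finset.sum_add_distrib, Finset.sum_filter]
      rw [e2]
      refine (Finset.abs_sum_le_sum_abs _ _).trans (Finset.sum_le_sum fun i _ => ?_)
      refine (Finset.abs_sum_le_sum_abs _ _).trans (Finset.sum_le_sum fun D _ => ?_)
      by_cases h : N D
      · have := hN D h
        simp only [h, not_true_eq_false, if_false, mul_zero, add_zero]
        exact this
      · simp only [h, not_false_eq_true, if_true]
        have h7 : |g D - α * a D| ≤ b * a D := by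
          rw [abs_le]
          have h8 := hg0 D
          have h9 := hga D
          have h10 := ha0 D
          have h11 : α * a D ≤ |α| * a D := mul_le_mul_of_nonneg_right (le_abs_self α) h10
          have h12 : -(|α| * a D) ≤ α * a D := by
            have := mul_le_mul_of_nonneg_right (neg_abs_le α) h10
            linarith
          rw [hb]
          constructor <;> nlinarith
        have h13 : 0 ≤ δ / 3 * a D := mul_nonneg (by positivity) (ha0 D)
        linarith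
    -- A tends to infinity
    obtain ⟨m₃, hm₃⟩ : ∃ m₃ : ℕ, ∀ m, m₃ ≤ m → b * K ≤ δ / 3 * (c' * q ^ (2 * m)) := by
      have ht : Tendsto (fun m : ℕ => δ / 3 * c' * (q ^ 2) ^ m) atTop atTop :=
        (tendsto_pow_atTop_atTop_of_one_lt (by nlinarith)).const_mul_atTop (by positivity)
      obtain ⟨m₃, h⟩ := (ht.eventually_ge_atTop (b * K)).exists_forall_of_atTop
      refine ⟨m₃, fun m hm => (h m hm).trans (le_of_eq ?_)⟩
      rw [pow_mul]; ring
    refine ⟨max m₁ m₃, fun m hm => ?_⟩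
    have hl := hlow m ((le_max_left _ _).trans hm)
    have h3 := hm₃ m ((le_max_right _ _).trans hm)
    have h4 : δ / 3 * (c' * q ^ (2 * m)) ≤ δ / 3 * A m :=
      mul_le_mul_of_nonneg_left hl (by positivity)
    have h5 : b * (ε * C * (2 * (q ^ 2) ^ m)) = δ / 3 * (c' * q ^ (2 * m)) := by
      rw [hε, pow_mul]
      field_simp
      ring
    have h6 := hdiff m
    have h7 := mul_le_mul_of_nonneg_left (hbadsum m) (by linarith : 0 ≤ b)
    have h8 : b * (K + ε * C * (2 * (q ^ 2) ^ m)) = b * K + b * (ε * C * (2 * (q ^ 2) ^ m)) := by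
      ring
    rw [h8, h5] at h7
    linarith
  rw [Metric.tendsto_atTop]
  intro η hη
  obtain ⟨m₂, hm₂⟩ := key (η / 2) (by positivity)
  refine ⟨max m₁ m₂, fun m hm => ?_⟩
  have hl := hlow m ((le_max_left _ _).trans hm)
  have hpos : 0 < A m := lt_of_lt_of_le (by positivity) hl
  have h := hm₂ m ((le_max_right _ _).trans hm)
  rw [Real.dist_eq]
  change |G m / A m - α| < η
  have e : G m / A m - α = (G m - α * A m) / A m := by
    field_simp
  rw [e, abs_div, abs_of_pos hpos, div_lt_iff₀ hpos]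
  nlinarith

theorem ncard_split {α β : Type} (A : Set α) (f : β → Set α) (T : Finset β)
    (hA : ∀ x, x ∈ A ↔ ∃ D ∈ T, x ∈ f D) (hdisj : ∀ D D' x, x ∈ f D → x ∈ f D' → D = D')
    (hfin : ∀ D, (f D).Finite) : A.Finite ∧ A.ncard = ∑ D ∈ T, (f D).ncard := by
  have hA' : A = ↑(T.biUnion (fun D => (hfin D).toFinset)) := by
    ext x
    rw [hA x]
    simp
  rw [hA']
  refine ⟨Finset.finite_toSet _, ?_⟩
  rw [Set.ncard_coe_finset, Finset.card_biUnion]
  · apply Finset.sum_congr rfl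
    intro D _
    rw [Set.ncard_eq_toFinset_card _ (hfin D)]
  · intro D _ D' _ hne
    rw [Function.onFun, Finset.disjoint_left]
    intro x hx hx'
    rw [Set.Finite.mem_toFinset] at hx hx'
    exact hne (hdisj D D' x hx hx')

theorem core : S_OML → S_NIC → S_OMD → S_OMU → S_BDE → S_DIV → S_PKG → S_PNR → S_CORE := by
  intro hOML hNIC hOMD hOMU hBDE hDIV hPKG hPNR k K _ _ _ _ _ _ hFF F B hB c
  obtain ⟨C₁, c₁, W, n₀, hP⟩ := hPKG k K hFF F.R B
  obtain ⟨hfinD, -, -, -⟩ := hDIV (Ob B) (sysB F.R B) (Nat.card k) C₁ c₁ W n₀ hP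
  obtain ⟨C, hC, hU⟩ := hOMU k K F.R B c
  obtain ⟨c', hc', m₁, hlow⟩ := hOML k K hFF F B hB c
  obtain ⟨bd⟩ := hBDE k K F B hB
  have hq : (2 : ℝ) ≤ (Nat.card k : ℝ) := by
    have h : 1 < Nat.card k := Finite.one_lt_card
    exact_mod_cast h
  set S := sysB F.R B with hS
  set T : ℕ → Finset (Ob B →₀ ℕ) := fun i => (hfinD i).toFinset with hT
  have hTm : ∀ i D, D ∈ T i ↔ dgf S D = i := by
    intro i D
    rw [hT]
    simp
  have hdisjT : ∀ m : ℕ, (↑(range (m + 1)) : Set ℕ).PairwiseDisjoint T := by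
    intro m i _ j _ hij
    rw [Function.onFun, Finset.disjoint_left]
    intro D hD hD'
    rw [hTm] at hD hD'
    exact hij (hD.symm.trans hD')
  have hdisj : ∀ (P : Qc K → Prop) (D D' : Ob B →₀ ℕ) (x : Qc K), x ∈ {χ ∈ OmD B c D | P χ} →
      x ∈ {χ ∈ OmD B c D' | P χ} → D = D' := by
    intro P D D' x hx hx'
    have h1 : HasD x D := hx.1.2
    have h2 : HasD x D' := hx'.1.2
    ext j
    rw [← h1 j, ← h2 j]
  have hmem : ∀ (P : Qc K → Prop) (m : ℕ) (x : Qc K), x ∈ {χ ∈ Om F.R B c m | P χ} ↔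
      ∃ D ∈ (range (m + 1)).biUnion T, x ∈ {χ ∈ OmD B c D | P χ} := by
    intro P m x
    constructor
    · rintro ⟨⟨h1, D, h2, h3⟩, h4⟩
      refine ⟨D, ?_, ⟨h1, h2⟩, h4⟩
      rw [Finset.mem_biUnion]
      exact ⟨dgf S D, Finset.mem_range.2 (Nat.lt_succ_of_le h3), (hTm _ _).2 rfl⟩
    · rintro ⟨D, hD, ⟨h1, h2⟩, h4⟩
      rw [Finset.mem_biUnion] at hD
      obtain ⟨i, hi, hD⟩ := hD
      rw [hTm] at hD
      refine ⟨⟨h1, D, h2, ?_⟩, h4⟩
      rw [Finset.mem_range] at hi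
      change dgf S D ≤ m
      omega
  have hfin : ∀ (P : Qc K → Prop) (D : Ob B →₀ ℕ), {χ ∈ OmD B c D | P χ}.Finite := fun P D =>
    (hU D).1.subset (fun x hx => hx.1)
  have hsplit : ∀ (P : Qc K → Prop) (m : ℕ), {χ ∈ Om F.R B c m | P χ}.Finite ∧
      ({χ ∈ Om F.R B c m | P χ}.ncard : ℝ) =
        ∑ i ∈ range (m + 1), ∑ D ∈ T i, ({χ ∈ OmD B c D | P χ}.ncard : ℝ) := by
    intro P m
    obtain ⟨h1, h2⟩ := ncard_split _ (fun D => {χ ∈ OmD B c D | P χ}) _ (hmem P m) (hdisj P)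
      (hfin P)
    refine ⟨h1, ?_⟩
    rw [h2, Finset.sum_biUnion (hdisjT m)]
    push_cast
    rfl
  have hT1 : ∀ m, {χ ∈ Om F.R B c m | True} = Om F.R B c m := fun m => by
    ext x; simp
  have hT2 : ∀ D, {χ ∈ OmD B c D | True} = OmD B c D := fun D => by
    ext x; simp
  have hsplit1 : ∀ m : ℕ, (Om F.R B c m).Finite ∧ ((Om F.R B c m).ncard : ℝ) =
        ∑ i ∈ range (m + 1), ∑ D ∈ T i, ((OmD B c D).ncard : ℝ) := by
    intro m
    have h := hsplit (fun _ => True) m
    rw [hT1] at h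
    simp only [hT2] at h
    exact h
  refine ⟨fun m => (hsplit1 m).1, fun r => ?_⟩
  have e : (fun m : ℕ => ({χ ∈ Om F.R B c m | (SV χ).ncard = 2 ^ (r + 1)}.ncard : ℝ) /
        ((Om F.R B c m).ncard : ℝ)) = fun m : ℕ =>
      (∑ i ∈ range (m + 1), ∑ D ∈ T i,
        ({χ ∈ OmD B c D | (SV χ).ncard = 2 ^ (r + 1)}.ncard : ℝ)) /
      (∑ i ∈ range (m + 1), ∑ D ∈ T i, ((OmD B c D).ncard : ℝ)) := by
    funext m
    rw [(hsplit (fun χ => (SV χ).ncard = 2 ^ (r + 1)) m).2, (hsplit1 m).2]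
  rw [e]
  refine absr T (fun D => dgf S D) hTm (fun D => ((OmD B c D).ncard : ℝ))
    (fun D => ({χ ∈ OmD B c D | (SV χ).ncard = 2 ^ (r + 1)}.ncard : ℝ)) (Nat.card k : ℝ) hq C c'
    (alp r) hC hc' (fun D => (hU D).2) (fun D => Nat.cast_nonneg _) (fun D => ?_) m₁ ?_ ?_
  · have h : {χ ∈ OmD B c D | (SV χ).ncard = 2 ^ (r + 1)} ⊆ OmD B c D := fun x hx => hx.1
    exact_mod_cast Set.ncard_le_ncard h (hU D).1
  · intro m hm
    rw [← (hsplit1 m).2]
    exact hlow m hm
  · intro δ ε hδ hε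
    -- choice of C₀
    have t1 : ∀ᶠ n in atTop, |pcr n r - alp r| < δ / 3 := by
      have := (Metric.tendsto_atTop.1 (hPNR.1 r)) (δ / 3) (by positivity)
      obtain ⟨N, hN⟩ := this
      exact eventually_atTop.2 ⟨N, fun n hn => by simpa [Real.dist_eq] using hN n hn⟩
    have t2 : ∀ᶠ n : ℕ in atTop, 2 * (1 / 2 : ℝ) ^ n < δ / 3 := by
      have h : Tendsto (fun n : ℕ => 2 * (1 / 2 : ℝ) ^ n) atTop (nhds (2 * 0)) :=
        (tendsto_pow_atTop_nhds_zero_of_lt_one (by norm_num) (by norm_num)).const_mul 2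
      rw [mul_zero] at h
      exact h.eventually (gt_mem_nhds (by positivity))
    obtain ⟨C₀, ⟨h1, h2⟩, h3⟩ := ((t1.and t2).and (eventually_ge_atTop 1)).exists
    have hpw : (0 : ℝ) < (1 / 2) ^ (C₀ + 2) := by positivity
    obtain ⟨θ, hθ0, hθ1, hθ2⟩ : ∃ θ : ℝ, 0 < θ ∧ θ < (1 / 2) ^ (C₀ + 2) ∧ 6 * θ ≤ δ / 3 := by
      refine ⟨min ((1 / 2) ^ (C₀ + 2) / 2) (δ / 18), lt_min (by positivity) (by positivity), ?_, ?_⟩
      · exact lt_of_le_of_lt (min_le_left _ _) (by linarith)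
      · have := min_le_right ((1 / 2 : ℝ) ^ (C₀ + 2) / 2) (δ / 18)
        linarith
    obtain ⟨L, hL, M, m₀, hm₀⟩ := hNIC k K hFF F B bd c C₀ θ ε hθ0 hε
    refine ⟨fun D => NiceC bd c L M C₀ θ D, m₀, ?_, ?_⟩
    · intro D hD
      have h4 := hOMD k K F B bd c L M C₀ θ D hL h3 hθ0 hθ1 hD r
      have h5 : (0 : ℝ) ≤ ((OmD B c D).ncard : ℝ) := Nat.cast_nonneg _
      have h6 : |pcr C₀ r - alp r| * ((OmD B c D).ncard : ℝ) ≤
          δ / 3 * ((OmD B c D).ncard : ℝ) := mul_le_mul_of_nonneg_right h1.le h5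
      have h7 : (6 * θ + 2 * (1 / 2) ^ C₀) * ((OmD B c D).ncard : ℝ) ≤
          (δ / 3 + δ / 3) * ((OmD B c D).ncard : ℝ) :=
        mul_le_mul_of_nonneg_right (by linarith) h5
      have h8 : ({χ ∈ OmD B c D | (SV χ).ncard = 2 ^ (r + 1)}.ncard : ℝ) -
          alp r * ((OmD B c D).ncard : ℝ) =
          (({χ ∈ OmD B c D | (SV χ).ncard = 2 ^ (r + 1)}.ncard : ℝ) -
            pcr C₀ r * ((OmD B c D).ncard : ℝ)) +
          (pcr C₀ r - alp r) * ((OmD B c D).ncard : ℝ) := by ring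
      rw [h8]
      refine (abs_add_le _ _).trans ?_
      rw [abs_mul, abs_of_nonneg h5]
      linarith
    · intro m hm
      have h4 := hm₀ m hm
      have h5 : (T m).filter (fun D => ¬ NiceC bd c L M C₀ θ D) =
          ((hfinD m).subset (fun D (hD : D ∈ {D : Ob B →₀ ℕ | dgf S D = m ∧
            ¬ NiceC bd c L M C₀ θ D}) => hD.1)).toFinset := by
        ext D
        rw [Finset.mem_filter, hTm, Set.Finite.mem_toFinset]
        rfl
      rw [h5, ← Set.ncard_eq_toFinset_card _ _]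
      exact h4

end Pool.Agent.H467.PG.Core
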