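import Pool.Agent.H467.PG.SpecB

/-!
# Changing the local classes at two places
-/

set_option autoImplicit false
set_option linter.all false

open Finset Filter WithZero
open Pool.Agent.H467.PT
open Pool.Agent.H467.GK
open Pool.Agent.H467.CT (AS Bas Ev)
open scoped Classical

namespace Pool.Agent.H467.PG.Dir

section aux

variable {k K : Type} [Field k] [Field K] [CharP K 2] [Algebra k K] {F : GF k K}
  {B : Finset (PV K)}

/-- the product over the rows -/
theorem prod_ro (bd : BD F B) (U : Finset (Ob B)) (V : Finset (Ob B)) (hV : V ⊆ U)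
    (e' : Fin bd.n → ZMod 2) (e : Fin bd.n ⊕ U → ZMod 2) (h1 : ∀ i, e (Sum.inl i) = e' i)
    (h2 : ∀ P : U, e (Sum.inr P) = if P.1 ∈ V then 1 else 0) :
    ∏ i, ro bd U i ^ (e i).val = pd bd.u bd.g V e' := by
  rw [Fintype.prod_sum_type]
  unfold pd ro
  simp only [Sum.elim_inl, Sum.elim_inr, h1, h2]
  rw [mul_comm]
  congr 1
  have h3 : ∀ P : U, bd.g P.1 ^ (if P.1 ∈ V then (1 : ZMod 2) else 0).val =
      if P.1 ∈ V then bd.g P.1 else 1 := by
    intro P
    by_cases h : P.1 ∈ V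
    · rw [if_pos h, if_pos h, ZMod.val_one, pow_one]
    · rw [if_neg h, if_neg h, ZMod.val_zero, pow_zero]
  rw [Finset.prod_congr rfl fun P _ => h3 P]
  rw [Finset.prod_coe_sort U (fun P => if P ∈ V then bd.g P else 1), Finset.prod_ite_mem,
    Finset.inter_eq_right.2 hV]

theorem mkq_add (a b : K) : mkq (a + b) = mkq a + mkq b := rfl

theorem mkq_AS (a z : K) : mkq (a + z ^ 2 + z) = mkq a := by
  have h : (z ^ 2 + z) ∈ wp K := ⟨z, rfl⟩
  rw [add_assoc]
  exact QuotientAddGroup.mk_add_of_mem a h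

end aux

theorem dir : S_LDG → S_CFX → S_POQ → S_SYM → S_DIR := by
  intro hLDG hCFX hPOQ hSYM k K _ _ _ _ _ F B bd U v₀ hv₀ hRl c
  have hB0 : ∀ j : PV K, j ∉ B → j ∉ F.G.B₀ := fun j hj hj' => hj (bd.sub (F.hB hj'))
  have hv0B : v₀.1 ∉ F.G.B₀ := hB0 _ v₀.2
  have hfin : Finite (IsLocalRing.ResidueField v₀.1.1.valuationSubring) := by
    apply Nat.finite_of_card_ne_zero
    rw [F.R.resc]
    have : 0 < Nat.card k := Nat.card_pos
    positivity
  have hsym := (hSYM K F.G v₀.1 hfin).2.2.2.2.2.2.2 hv0B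
  have hne : ∀ i, ro bd U i ≠ 0 := by
    rintro (i | P)
    · exact bd.une i
    · exact bd.gne P.1
  have hpdne : ∀ (V : Finset (Ob B)) (e : Fin bd.n → ZMod 2), pd bd.u bd.g V e ≠ 0 := by
    intro V e
    unfold pd
    refine mul_ne_zero (Finset.prod_ne_zero_iff.2 fun P _ => bd.gne P)
      (Finset.prod_ne_zero_iff.2 fun i _ => pow_ne_zero _ (bd.une i))
  have hz2 : ∀ x : ZMod 2, x = 0 ∨ x = 1 := by decide
  -- the set `s`
  obtain ⟨s, hs⟩ : ∃ s : Finset (PV K), s = B ∪ U.image Subtype.val := ⟨_, rfl⟩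
  have hsB : ∀ j ∈ B, j ∈ s := fun j hj => by rw [hs]; exact Finset.mem_union_left _ hj
  have hsU : ∀ j ∈ U, j.1 ∈ s := fun j hj => by
    rw [hs]; exact Finset.mem_union_right _ (Finset.mem_image_of_mem _ hj)
  have hsn : ∀ j : Ob B, j ∉ U → j.1 ∉ s := by
    intro j hj hjs
    rw [hs, Finset.mem_union, Finset.mem_image] at hjs
    rcases hjs with h | ⟨j', h1, h2⟩
    · exact j.2 h
    · exact hj (Subtype.ext h2 ▸ h1)
  have hv0s : v₀.1 ∈ s := hsU _ hv₀
  have hB1s : F.B₁ ⊆ s := fun j hj => hsB j (bd.sub hj)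
  -- the condition of `S_LDG`
  have hcond : ∀ e : Fin bd.n ⊕ U → ZMod 2, e ≠ 0 →
      ¬ v₀.1.1 (dl F.G.t (∏ i, ro bd U i ^ (e i).val)) < 1 := by
    intro e he
    obtain ⟨V, hV⟩ : ∃ V : Finset (Ob B), V = U.filter (fun P => ∃ h : P ∈ U,
      e (Sum.inr ⟨P, h⟩) = 1) := ⟨_, rfl⟩
    have hVU : V ⊆ U := by rw [hV]; exact Finset.filter_subset _ _
    have hmem : ∀ P : U, P.1 ∈ V ↔ e (Sum.inr P) = 1 := by
      intro P
      rw [hV, Finset.mem_filter]
      exact ⟨fun h => h.2.choose_spec, fun h => ⟨P.2, P.2, h⟩⟩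
    have h2 : ∀ P : U, e (Sum.inr P) = if P.1 ∈ V then 1 else 0 := by
      intro P
      by_cases h : P.1 ∈ V
      · rw [if_pos h]; exact (hmem P).1 h
      · rw [if_neg h]
        rcases hz2 (e (Sum.inr P)) with h' | h'
        · exact h'
        · exact absurd ((hmem P).2 h') h
    rw [prod_ro bd U V hVU (fun i => e (Sum.inl i)) e (fun _ => rfl) h2]
    by_cases hvV : v₀ ∈ V
    · have hval : v₀.1.1 (pd bd.u bd.g V (fun i => e (Sum.inl i))) = exp (-1 : ℤ) := by
        unfold pd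
        rw [map_mul, map_prod, map_prod, ← Finset.mul_prod_erase V _ hvV, bd.gor v₀,
          Finset.prod_eq_one, Finset.prod_eq_one, mul_one, mul_one]
        · intro i _
          rw [map_pow, bd.uun i v₀, one_pow]
        · intro P hP
          exact bd.gun P v₀ (Finset.ne_of_mem_erase hP).symm
      have hnev : ¬ Ev (v₀.1.1 (pd bd.u bd.g V (fun i => e (Sum.inl i)))) := by
        rw [hval]
        rintro ⟨n, hn⟩
        have := WithZero.exp_injective hn
        omega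
      have h3 := (hsym _ (hpdne V _)).2.2.1 hnev
      rw [h3]
      rw [not_lt]
      rw [← WithZero.exp_zero]
      exact WithZero.exp_le_exp.2 (by norm_num)
    · refine hRl V hVU hvV _ ?_
      by_contra hcon
      push Not at hcon
      apply he
      funext i
      rcases i with i | P
      · exact congrFun hcon.2 i
      · rw [h2 P, if_neg, Pi.zero_apply]
        rw [hcon.1]
        exact Finset.notMem_empty _
  obtain ⟨f₀, hf₀, hf₀'⟩ := hLDG K F.G v₀.1 hv0B (Fin bd.n ⊕ U) (ro bd U) hne hcond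
    (fun i => ∑ j ∈ s.erase v₀.1, F.G.sy j (c j * dl F.G.t (ro bd U i)))
  obtain ⟨f, hf⟩ : ∃ f : PV K → K, f = fun j => if j = v₀.1 then f₀ else c j := ⟨_, rfl⟩
  have hfv : f v₀.1 = f₀ := by rw [hf]; simp
  have hfc : ∀ j, j ≠ v₀.1 → f j = c j := fun j hj => by rw [hf]; simp [hj]
  have hrow : ∀ i, ∑ j ∈ s, F.G.sy j (f j * dl F.G.t (ro bd U i)) = 0 := by
    intro i
    rw [← Finset.add_sum_erase s _ hv0s, hfv, hf₀' i]
    have h1 : ∑ j ∈ s.erase v₀.1, F.G.sy j (f j * dl F.G.t (ro bd U i)) =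
        ∑ j ∈ s.erase v₀.1, F.G.sy j (c j * dl F.G.t (ro bd U i)) :=
      Finset.sum_congr rfl fun j hj => by rw [hfc j (Finset.ne_of_mem_erase hj)]
    rw [h1]
    exact CharTwo.add_self_eq_zero _
  obtain ⟨x, hx1, hx2⟩ := hCFX k K F s hB1s f (by
    intro d hd hev
    obtain ⟨V, hVU, e, y, hy, hdy⟩ := bd.gen U d hd (fun j hj => hev j.1 (hsn j hj))
    have hdl : dl F.G.t d = dl F.G.t (∏ i, ro bd U i ^
        ((Sum.elim e (fun P : U => if P.1 ∈ V then (1 : ZMod 2) else 0) :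
          Fin bd.n ⊕ U → ZMod 2) i).val) := by
      rw [prod_ro bd U V hVU e _ (fun _ => rfl) (fun _ => rfl), hdy,
        dl_mul F.G.bas (hpdne V e) (pow_ne_zero 2 hy), dl_sq F.G.bas, add_zero]
    have h1 : ∀ j ∈ s, F.G.sy j (f j * dl F.G.t d) = ∑ i : Fin bd.n ⊕ U,
        (Sum.elim e (fun P : U => if P.1 ∈ V then (1 : ZMod 2) else 0) :
          Fin bd.n ⊕ U → ZMod 2) i * F.G.sy j (f j * dl F.G.t (ro bd U i)) := by
      intro j _
      rw [hdl]
      exact dl_prod F.G.bas hne _ (F.G.sy j) (F.G.add j) (f j)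
    rw [Finset.sum_congr rfl h1, Finset.sum_comm]
    refine Finset.sum_eq_zero fun i _ => ?_
    rw [← Finset.mul_sum, hrow i, mul_zero])
  refine ⟨mkq x, ?_, ?_, ?_, ?_⟩
  · intro j hj
    have hjv : j ≠ v₀.1 := fun h => v₀.2 (h ▸ hj)
    have h1 := hx2 j (hsB j hj)
    rw [hfc j hjv] at h1
    rw [← mkq_add]
    exact ((hPOQ K j).2.1 _).1 h1
  · intro j hj hne'
    have hjv : j.1 ≠ v₀.1 := fun h => hne' (Subtype.ext h)
    have h1 := hx2 j.1 (hsU j hj)
    rw [hfc j.1 hjv] at h1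
    rw [← mkq_add]
    exact ((hPOQ K j.1).2.1 _).1 h1
  · obtain ⟨z, hz⟩ := hx2 v₀.1 hv0s
    rw [hfv] at hz
    refine ⟨x + z ^ 2 + z, mkq_AS x z, ?_⟩
    have h1 : x + z ^ 2 + z = (x + f₀ + z ^ 2 + z) + f₀ := by
      have : f₀ + f₀ = 0 := CharTwo.add_self_eq_zero f₀
      linear_combination -this
    rw [h1]
    refine (Valuation.map_add _ _ _).trans (max_le ?_ hf₀)
    refine hz.le.trans ?_
    rw [← WithZero.exp_zero]
    exact WithZero.exp_le_exp.2 (by norm_num)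
  · intro j hj
    exact ⟨x, rfl, hx1 j.1 (hsn j hj)⟩

end Pool.Agent.H467.PG.Dir
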