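import Pool.Agent.H467.PG.SpecA
import Pool.Agent.H467.PT.Hal

/-!
# Project PG, DIV: effective divisors (helper294)
-/

set_option autoImplicit false
set_option linter.all false

open Finset Filter
open Pool.Agent.H467.PT
open scoped Classical

namespace Pool.Agent.H467.PG.Div

variable {ι : Type} (S : PSys ι)

lemma dgf_add (D D' : ι →₀ ℕ) : dgf S (D + D') = dgf S D + dgf S D' := by
  unfold dgf
  exact Finsupp.sum_add_index' (fun p => Nat.zero_mul _) (fun p a b => Nat.add_mul _ _ _)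

lemma dgf_single (p : ι) (n : ℕ) : dgf S (Finsupp.single p n) = n * S.deg p := by
  unfold dgf
  exact Finsupp.sum_single_index (Nat.zero_mul _)

lemma term_le (D : ι →₀ ℕ) (p : ι) : D p * S.deg p ≤ dgf S D := by
  by_cases hp : p ∈ D.support
  · exact Finset.single_le_sum (f := fun p => D p * S.deg p) (fun _ _ => Nat.zero_le _) hp
  · rw [Finsupp.notMem_support_iff] at hp
    rw [hp, Nat.zero_mul]
    exact Nat.zero_le _

lemma deg_le (D : ι →₀ ℕ) {p : ι} (hp : D p ≠ 0) : S.deg p ≤ dgf S D :=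
  (Nat.le_mul_of_pos_left _ (Nat.pos_of_ne_zero hp)).trans (term_le S D p)

lemma val_le (D : ι →₀ ℕ) (p : ι) : D p ≤ dgf S D :=
  (Nat.le_mul_of_pos_right _ (S.pos p)).trans (term_le S D p)

lemma fin (m : ℕ) : {D : ι →₀ ℕ | dgf S D = m}.Finite := by
  refine (Set.finite_Icc (0 : ι →₀ ℕ) (Finsupp.indicator (S.le m) fun _ _ => m)).subset ?_
  intro D hD
  have hD' : dgf S D = m := hD
  refine ⟨zero_le, fun p => ?_⟩
  by_cases hp : D p = 0
  · rw [hp]
    exact Nat.zero_le _
  · have h1 := deg_le S D hp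
    rw [hD', ← S.mem_le] at h1
    rw [Finsupp.indicator_of_mem h1]
    rw [← hD']
    exact val_le S D p

/-- the divisors of degree `m` -/
noncomputable def DF (m : ℕ) : Finset (ι →₀ ℕ) := (fin S m).toFinset

lemma mem_DF {m : ℕ} {D : ι →₀ ℕ} : D ∈ DF S m ↔ dgf S D = m := by
  unfold DF
  rw [Set.Finite.mem_toFinset]
  rfl

lemma ncard_DF (m : ℕ) : {D : ι →₀ ℕ | dgf S D = m}.ncard = (DF S m).card := by
  rw [← Set.ncard_coe_finset]
  congr 1
  ext D
  rw [Finset.mem_coe, mem_DF]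
  rfl

lemma ncard_eq (m : ℕ) (P : (ι →₀ ℕ) → Prop) [DecidablePred P] :
    {D : ι →₀ ℕ | dgf S D = m ∧ P D}.ncard = ((DF S m).filter P).card := by
  rw [← Set.ncard_coe_finset]
  congr 1
  ext D
  rw [Finset.mem_coe, Finset.mem_filter, mem_DF]
  rfl

/-! ### Halves -/

/-- the set of the primes with odd multiplicity -/
noncomputable def odd (D : ι →₀ ℕ) : Finset ι := D.support.filter (fun p => D p % 2 = 1)

/-- half of `D` -/
noncomputable def half (D : ι →₀ ℕ) : ι →₀ ℕ := D.mapRange (fun n => n / 2) (Nat.zero_div 2)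

lemma dgf_half (D : ι →₀ ℕ) : dgf S D = S.dg (odd D) + 2 * dgf S (half D) := by
  have h1 : dgf S (half D) = ∑ p ∈ D.support, (D p / 2) * S.deg p := by
    unfold dgf
    rw [Finsupp.sum_of_support_subset (half D) (Finsupp.support_mapRange)
      (fun p n => n * S.deg p) (fun p _ => Nat.zero_mul _)]
    rfl
  have h2 : S.dg (odd D) = ∑ p ∈ D.support, (D p % 2) * S.deg p := by
    unfold PSys.dg odd
    rw [Finset.sum_filter]
    refine Finset.sum_congr rfl fun p _ => ?_
    split_ifs with h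
    · rw [h, Nat.one_mul]
    · have : D p % 2 = 0 := by omega
      rw [this, Nat.zero_mul]
  rw [h1, h2, Finset.mul_sum, ← Finset.sum_add_distrib]
  unfold dgf Finsupp.sum
  refine Finset.sum_congr rfl fun p _ => ?_
  rw [← Nat.mul_assoc, ← Nat.add_mul, Nat.mod_add_div]

lemma half_inj {D D' : ι →₀ ℕ} (h1 : odd D = odd D') (h2 : half D = half D') : D = D' := by
  ext p
  have h3 : D p / 2 = D' p / 2 := DFunLike.congr_fun h2 p
  have h4 : p ∈ odd D ↔ p ∈ odd D' := by rw [h1]
  unfold odd at h4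
  rw [Finset.mem_filter, Finset.mem_filter, Finsupp.mem_support_iff, Finsupp.mem_support_iff] at h4
  omega

lemma rec_card (m : ℕ) : (DF S m).card ≤
    ∑ k ∈ range (m / 2 + 1), (S.UU (m - 2 * k)).card * (DF S k).card := by
  calc (DF S m).card ≤ ((range (m / 2 + 1)).biUnion fun k => S.UU (m - 2 * k) ×ˢ DF S k).card := by
        refine Finset.card_le_card_of_injOn (fun D => (odd D, half D)) ?_ ?_
        · intro D hD
          have hD' : dgf S D = m := (mem_DF S).1 (Finset.mem_coe.1 hD)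
          have h1 := dgf_half S D
          rw [Finset.mem_coe, Finset.mem_biUnion]
          refine ⟨dgf S (half D), Finset.mem_range.2 (by omega), ?_⟩
          rw [Finset.mem_product]
          exact ⟨(Hal.mem_UU S _ _).2 (by change S.dg (odd D) = _; omega), (mem_DF S).2 rfl⟩
        · intro D _ D' _ h
          have h' : (odd D, half D) = (odd D', half D') := h
          rw [Prod.mk.injEq] at h'
          exact half_inj h'.1 h'.2
    _ ≤ ∑ k ∈ range (m / 2 + 1), (S.UU (m - 2 * k) ×ˢ DF S k).card := Finset.card_biUnion_le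
    _ = _ := Finset.sum_congr rfl fun k _ => Finset.card_product _ _

/-! ### The recursion -/

lemma bdd (a : ℕ → ℝ) (ha : ∀ m, 0 ≤ a m) (q C : ℝ) (hq : 2 ≤ q) (hC : 0 < C)
    (hrec : ∀ m, a m ≤ C * ∑ k ∈ range (m / 2 + 1), a k / q ^ k) : ∃ K : ℝ, 0 < K ∧ ∀ m, a m ≤ K := by
  -- the sums
  have hsum : ∀ (K : ℝ) (n : ℕ), 0 ≤ K → (∀ k < n, a k ≤ K * (7 / 5) ^ k) →
      ∑ k ∈ range n, a k / q ^ k ≤ 10 / 3 * K := by
    intro K n hK h
    calc ∑ k ∈ range n, a k / q ^ k ≤ ∑ k ∈ range n, K * (7 / 10 : ℝ) ^ k := by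
          refine Finset.sum_le_sum fun k hk => ?_
          have h1 := h k (Finset.mem_range.1 hk)
          have h2 : (2 : ℝ) ^ k ≤ q ^ k := pow_le_pow_left₀ (by norm_num) hq k
          have h3 : (7 / 10 : ℝ) ^ k = (7 / 5) ^ k / 2 ^ k := by
            rw [← div_pow]; norm_num
          rw [h3]
          calc a k / q ^ k ≤ a k / 2 ^ k := div_le_div_of_nonneg_left (ha k) (by positivity) h2
            _ ≤ (K * (7 / 5) ^ k) / 2 ^ k := div_le_div_of_nonneg_right h1 (by positivity)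
            _ = _ := by ring
      _ = K * ∑ k ∈ range n, (7 / 10 : ℝ) ^ k := by rw [Finset.mul_sum]
      _ ≤ K * (10 / 3) := by
          refine mul_le_mul_of_nonneg_left ?_ hK
          rw [geom_sum_eq (by norm_num)]
          have : (0 : ℝ) ≤ (7 / 10) ^ n := by positivity
          rw [div_le_iff_of_neg (by norm_num)]
          linarith
      _ = _ := by ring
  obtain ⟨m0, hm0⟩ : ∃ m0 : ℕ, C * (10 / 3) < (7 / 5 : ℝ) ^ m0 :=
    pow_unbounded_of_one_lt _ (by norm_num)
  set K : ℝ := 1 + ∑ k ∈ range (m0 + 1), a k with hK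
  have hK0 : 0 < K := by
    have : 0 ≤ ∑ k ∈ range (m0 + 1), a k := Finset.sum_nonneg fun k _ => ha k
    linarith
  have hall : ∀ m, a m ≤ K * (7 / 5) ^ m := by
    intro m
    induction m using Nat.strong_induction_on with
    | _ m ih =>
      rcases Nat.lt_or_ge m (m0 + 1) with h | h
      · have h1 : a m ≤ ∑ k ∈ range (m0 + 1), a k :=
          Finset.single_le_sum (f := a) (fun k _ => ha k) (Finset.mem_range.2 h)
        have h2 : (1 : ℝ) ≤ (7 / 5) ^ m := one_le_pow₀ (by norm_num)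
        nlinarith
      · have h1 := hsum K (m / 2 + 1) hK0.le fun k hk => ih k (by omega)
        have h2 : (7 / 5 : ℝ) ^ m0 ≤ (7 / 5) ^ m := pow_le_pow_right₀ (by norm_num) (by omega)
        calc a m ≤ C * ∑ k ∈ range (m / 2 + 1), a k / q ^ k := hrec m
          _ ≤ C * (10 / 3 * K) := mul_le_mul_of_nonneg_left h1 hC.le
          _ = K * (C * (10 / 3)) := by ring
          _ ≤ K * (7 / 5) ^ m := mul_le_mul_of_nonneg_left (by linarith) hK0.le
  refine ⟨C * (10 / 3 * K), by positivity, fun m => (hrec m).trans ?_⟩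
  exact mul_le_mul_of_nonneg_left (hsum K _ hK0.le fun k _ => hall k) hC.le

/-- the number of the divisors -/
lemma part2 {q : ℕ} (hq : 2 ≤ q) {C : ℝ} (hC : 0 < C)
    (hU : ∀ n, ((S.UU n).card : ℝ) ≤ C * (q : ℝ) ^ n) :
    ∃ C' : ℝ, 0 < C' ∧ ∀ m : ℕ, ((DF S m).card : ℝ) ≤ C' * (q : ℝ) ^ m := by
  have hq' : (2 : ℝ) ≤ q := by exact_mod_cast hq
  have hq0 : (0 : ℝ) < q := by linarith
  obtain ⟨K, hK, h⟩ := bdd (fun m => ((DF S m).card : ℝ) / (q : ℝ) ^ m)
    (fun m => by positivity) q C hq' hC (by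
      intro m
      rw [div_le_iff₀ (by positivity)]
      calc ((DF S m).card : ℝ)
          ≤ ∑ k ∈ range (m / 2 + 1), ((S.UU (m - 2 * k)).card : ℝ) * ((DF S k).card : ℝ) := by
            exact_mod_cast rec_card S m
        _ ≤ ∑ k ∈ range (m / 2 + 1), (C * (q : ℝ) ^ (m - 2 * k)) * ((DF S k).card : ℝ) :=
            Finset.sum_le_sum fun k _ => mul_le_mul_of_nonneg_right (hU _) (by positivity)
        _ = _ := by
            rw [Finset.mul_sum, Finset.sum_mul]
            refine Finset.sum_congr rfl fun k hk => ?_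
            have h1 : (q : ℝ) ^ m = (q : ℝ) ^ (m - 2 * k) * ((q : ℝ) ^ k * (q : ℝ) ^ k) := by
              rw [← pow_add, ← pow_add]
              congr 1
              have := Finset.mem_range.1 hk
              omega
            rw [h1]
            field_simp)
  refine ⟨K, hK, fun m => ?_⟩
  have h1 := h m
  rwa [div_le_iff₀ (by positivity)] at h1

/-! ### Multiple primes -/

lemma two_card (m : ℕ) (p : ι) {q : ℕ} (hq : 2 ≤ q) {C' : ℝ} (hC' : 0 < C')
    (h : ∀ m : ℕ, ((DF S m).card : ℝ) ≤ C' * (q : ℝ) ^ m) :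
    (((DF S m).filter (fun D => 2 ≤ D p)).card : ℝ) ≤ C' * ((q : ℝ) ^ m / (q : ℝ) ^ (2 * S.deg p)) := by
  have hq' : (2 : ℝ) ≤ q := by exact_mod_cast hq
  have hq0 : (0 : ℝ) < q := by linarith
  by_cases hm : 2 * S.deg p ≤ m
  · have h1 : ((DF S m).filter (fun D => 2 ≤ D p)).card ≤ (DF S (m - 2 * S.deg p)).card := by
      refine Finset.card_le_card_of_injOn (fun D => D - Finsupp.single p 2) ?_ ?_
      · intro D hD
        rw [Finset.mem_coe, Finset.mem_filter, mem_DF] at hD
        rw [Finset.mem_coe, mem_DF]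
        have h2 : Finsupp.single p 2 ≤ D := Finsupp.single_le_iff.2 hD.2
        have h3 := dgf_add S (D - Finsupp.single p 2) (Finsupp.single p 2)
        rw [tsub_add_cancel_of_le h2, dgf_single, hD.1] at h3
        change dgf S (D - Finsupp.single p 2) = _
        omega
      · intro D hD D' hD' hE
        rw [Finset.mem_coe, Finset.mem_filter, mem_DF] at hD hD'
        have h2 : Finsupp.single p 2 ≤ D := Finsupp.single_le_iff.2 hD.2
        have h2' : Finsupp.single p 2 ≤ D' := Finsupp.single_le_iff.2 hD'.2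
        have hE' : D - Finsupp.single p 2 = D' - Finsupp.single p 2 := hE
        rw [← tsub_add_cancel_of_le h2, ← tsub_add_cancel_of_le h2', hE']
    have h2 : (q : ℝ) ^ m / (q : ℝ) ^ (2 * S.deg p) = (q : ℝ) ^ (m - 2 * S.deg p) := by
      rw [eq_comm, eq_div_iff (by positivity), ← pow_add]
      congr 1
      omega
    rw [h2]
    calc (((DF S m).filter (fun D => 2 ≤ D p)).card : ℝ) ≤ ((DF S (m - 2 * S.deg p)).card : ℝ) := by
          exact_mod_cast h1
      _ ≤ _ := h _
  · have h1 : (DF S m).filter (fun D => 2 ≤ D p) = ∅ := by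
      rw [Finset.filter_eq_empty_iff]
      intro D hD h2
      rw [mem_DF] at hD
      have h3 := term_le S D p
      rw [hD] at h3
      have h4 : 2 * S.deg p ≤ D p * S.deg p := Nat.mul_le_mul_right _ h2
      omega
    rw [h1, Finset.card_empty, Nat.cast_zero]
    positivity

lemma part3 {q : ℕ} (hq : 2 ≤ q) {C C' : ℝ} (hC' : 0 < C') (hC : 0 < C)
    (up : ∀ l : ℕ, (l : ℝ) * ((S.eq l).card : ℝ) ≤ C * (q : ℝ) ^ l)
    (h : ∀ m : ℕ, ((DF S m).card : ℝ) ≤ C' * (q : ℝ) ^ m) (L m : ℕ) :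
    (((DF S m).filter (fun D => ∃ p, L < S.deg p ∧ 2 ≤ D p)).card : ℝ) ≤
      C * C' * (1 / 2) ^ L * (q : ℝ) ^ m := by
  have hq' : (2 : ℝ) ≤ q := by exact_mod_cast hq
  have hq0 : (0 : ℝ) < q := by linarith
  have h1 : ((DF S m).filter (fun D => ∃ p, L < S.deg p ∧ 2 ≤ D p)) ⊆
      ((S.le m).filter (fun p => L < S.deg p)).biUnion
        (fun p => (DF S m).filter (fun D => 2 ≤ D p)) := by
    intro D hD
    rw [Finset.mem_filter] at hD
    obtain ⟨hD, p, hp, hp2⟩ := hD
    rw [Finset.mem_biUnion]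
    refine ⟨p, ?_, Finset.mem_filter.2 ⟨hD, hp2⟩⟩
    rw [Finset.mem_filter, S.mem_le]
    refine ⟨?_, hp⟩
    rw [← (mem_DF S).1 hD]
    exact deg_le S D (by omega)
  have h2 : (((DF S m).filter (fun D => ∃ p, L < S.deg p ∧ 2 ≤ D p)).card : ℝ) ≤
      ∑ p ∈ (S.le m).filter (fun p => L < S.deg p),
        (((DF S m).filter (fun D => 2 ≤ D p)).card : ℝ) := by
    have := (Finset.card_le_card h1).trans Finset.card_biUnion_le
    exact_mod_cast this
  refine h2.trans ((Finset.sum_le_sum fun p _ => two_card S m p hq hC' h).trans ?_)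
  rw [Finset.sum_filter]
  have h3 := Hal.sum_le_eq S m (fun l => if L < l then C' * ((q : ℝ) ^ m / (q : ℝ) ^ (2 * l)) else 0)
  rw [h3]
  have h4 : ∀ l ∈ Finset.Icc 1 m, ((S.eq l).card : ℝ) *
      (if L < l then C' * ((q : ℝ) ^ m / (q : ℝ) ^ (2 * l)) else 0) ≤
      C * C' * (q : ℝ) ^ m * (if L < l then (1 / 2 : ℝ) ^ l else 0) := by
    intro l hl
    split_ifs with hL
    · have hl1 : (1 : ℝ) ≤ l := by exact_mod_cast (Finset.mem_Icc.1 hl).1
      have h5 : ((S.eq l).card : ℝ) ≤ C * (q : ℝ) ^ l := by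
        refine le_trans ?_ (up l)
        have : (0 : ℝ) ≤ ((S.eq l).card : ℝ) := Nat.cast_nonneg _
        nlinarith
      have h6 : (1 : ℝ) / (q : ℝ) ^ l ≤ (1 / 2) ^ l := by
        rw [one_div_pow]
        exact one_div_le_one_div_of_le (by positivity) (pow_le_pow_left₀ (by norm_num) hq' l)
      calc ((S.eq l).card : ℝ) * (C' * ((q : ℝ) ^ m / (q : ℝ) ^ (2 * l)))
          ≤ (C * (q : ℝ) ^ l) * (C' * ((q : ℝ) ^ m / (q : ℝ) ^ (2 * l))) :=
            mul_le_mul_of_nonneg_right h5 (by positivity)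
        _ = C * C' * (q : ℝ) ^ m * (1 / (q : ℝ) ^ l) := by
            rw [two_mul, pow_add]
            field_simp
        _ ≤ _ := mul_le_mul_of_nonneg_left h6 (by positivity)
    · rw [mul_zero, mul_zero]
  refine (Finset.sum_le_sum h4).trans ?_
  rw [← Finset.mul_sum, ← Finset.sum_filter]
  have h5 : ∑ l ∈ (Finset.Icc 1 m).filter (fun l => L < l), (1 / 2 : ℝ) ^ l ≤ (1 / 2) ^ L := by
    have h6 : (Finset.Icc 1 m).filter (fun l => L < l) ⊆ (Finset.range m).image (fun i => L + 1 + i) := by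
      intro l hl
      rw [Finset.mem_filter, Finset.mem_Icc] at hl
      rw [Finset.mem_image]
      exact ⟨l - L - 1, Finset.mem_range.2 (by omega), by omega⟩
    calc ∑ l ∈ (Finset.Icc 1 m).filter (fun l => L < l), (1 / 2 : ℝ) ^ l
        ≤ ∑ l ∈ (Finset.range m).image (fun i => L + 1 + i), (1 / 2 : ℝ) ^ l :=
          Finset.sum_le_sum_of_subset_of_nonneg h6 fun _ _ _ => by positivity
      _ = ∑ i ∈ Finset.range m, (1 / 2 : ℝ) ^ (L + 1 + i) :=
          Finset.sum_image fun i _ j _ h => by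
            have h' : L + 1 + i = L + 1 + j := h
            omega
      _ = (1 / 2) ^ (L + 1) * ∑ i ∈ Finset.range m, (1 / 2 : ℝ) ^ i := by
          rw [Finset.mul_sum]
          exact Finset.sum_congr rfl fun i _ => pow_add _ _ _
      _ ≤ (1 / 2) ^ (L + 1) * 2 := mul_le_mul_of_nonneg_left (sum_geometric_two_le m) (by positivity)
      _ = _ := by rw [pow_succ]; ring
  calc C * C' * (q : ℝ) ^ m * ∑ l ∈ (Finset.Icc 1 m).filter (fun l => L < l), (1 / 2 : ℝ) ^ l
      ≤ C * C' * (q : ℝ) ^ m * (1 / 2) ^ L := mul_le_mul_of_nonneg_left h5 (by positivity)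
    _ = _ := by ring

/-! ### The part of small degree -/

/-- the part of degree at most `L` -/
noncomputable def sm (L : ℕ) (D : ι →₀ ℕ) : ι →₀ ℕ := D.filter (fun p => S.deg p ≤ L)

/-- the other part -/
noncomputable def lg (L : ℕ) (D : ι →₀ ℕ) : ι →₀ ℕ := D.filter (fun p => ¬ S.deg p ≤ L)

lemma sm_add_lg (L : ℕ) (D : ι →₀ ℕ) : sm S L D + lg S L D = D :=
  Finsupp.filter_pos_add_filter_neg D _

lemma dgf_sm (L : ℕ) (D : ι →₀ ℕ) :
    dgf S (sm S L D) = ∑ p ∈ D.support.filter (fun p => S.deg p ≤ L), D p * S.deg p := by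
  unfold dgf sm Finsupp.sum
  rw [Finsupp.support_filter]
  refine Finset.sum_congr rfl fun p hp => ?_
  change (D.filter (fun p => S.deg p ≤ L)) p * S.deg p = _
  rw [Finsupp.filter_apply_pos (fun p => S.deg p ≤ L) D (Finset.mem_filter.1 hp).2]

/-- the number of the divisors supported on a finite set -/
lemma sm_card (L n : ℕ) :
    ((DF S n).filter (fun D => D.support ⊆ S.le L)).card ≤ (n + 1) ^ (S.le L).card := by
  calc ((DF S n).filter (fun D => D.support ⊆ S.le L)).card
      ≤ (Finset.univ : Finset ({p // p ∈ S.le L} → Fin (n + 1))).card := by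
        refine Finset.card_le_card_of_injOn (fun D (p : {p // p ∈ S.le L}) => Fin.ofNat (n + 1) (D p.1)) ?_ ?_
        · intro D _
          exact Finset.mem_coe.2 (Finset.mem_univ _)
        · intro D hD D' hD' hE
          rw [Finset.mem_coe, Finset.mem_filter, mem_DF] at hD hD'
          ext p
          by_cases hp : p ∈ S.le L
          · have h1 := congrArg Fin.val (congrFun hE ⟨p, hp⟩)
            have h1' : D p % (n + 1) = D' p % (n + 1) := h1
            have h2 := val_le S D p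
            have h3 := val_le S D' p
            rw [hD.1] at h2
            rw [hD'.1] at h3
            rw [Nat.mod_eq_of_lt (by omega), Nat.mod_eq_of_lt (by omega)] at h1'
            exact h1'
          · have h1 : D p = 0 := by
              by_contra h
              exact hp (hD.2 (Finsupp.mem_support_iff.2 h))
            have h2 : D' p = 0 := by
              by_contra h
              exact hp (hD'.2 (Finsupp.mem_support_iff.2 h))
            rw [h1, h2]
    _ = _ := by
        rw [Finset.card_univ, Fintype.card_fun, Fintype.card_fin, Fintype.card_coe]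

lemma part4 {q : ℕ} (hq : 2 ≤ q) {C' : ℝ} (hC' : 0 < C')
    (h : ∀ m : ℕ, ((DF S m).card : ℝ) ≤ C' * (q : ℝ) ^ m) (L M m : ℕ) :
    ({D : ι →₀ ℕ | dgf S D = m ∧ M < dgf S (sm S L D)}.ncard : ℝ) ≤
      C' * (∑ n ∈ Finset.Ioc M m, ((n : ℝ) + 1) ^ (S.le L).card * (1 / 2) ^ n) * (q : ℝ) ^ m := by
  have hq' : (2 : ℝ) ≤ q := by exact_mod_cast hq
  have hq0 : (0 : ℝ) < q := by linarith
  have h1 : {D : ι →₀ ℕ | dgf S D = m ∧ M < dgf S (sm S L D)}.ncard ≤
      ((Finset.Ioc M m).biUnion fun n =>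
        ((DF S n).filter (fun D => D.support ⊆ S.le L)) ×ˢ DF S (m - n)).card := by
    rw [ncard_eq]
    refine Finset.card_le_card_of_injOn (fun D => (sm S L D, lg S L D)) ?_ ?_
    · intro D hD
      rw [Finset.mem_coe, Finset.mem_filter, mem_DF] at hD
      have h2 := dgf_add S (sm S L D) (lg S L D)
      rw [sm_add_lg, hD.1] at h2
      rw [Finset.mem_coe, Finset.mem_biUnion]
      refine ⟨dgf S (sm S L D), Finset.mem_Ioc.2 ⟨hD.2, by omega⟩, ?_⟩
      rw [Finset.mem_product, Finset.mem_filter, mem_DF, mem_DF]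
      refine ⟨⟨rfl, ?_⟩, ?_⟩
      · intro p hp
        rw [S.mem_le]
        change p ∈ (D.filter (fun p => S.deg p ≤ L)).support at hp
        rw [Finsupp.support_filter, Finset.mem_filter] at hp
        exact hp.2
      · change dgf S (lg S L D) = _
        omega
    · intro D _ D' _ hE
      have hE' : (sm S L D, lg S L D) = (sm S L D', lg S L D') := hE
      rw [Prod.mk.injEq] at hE'
      rw [← sm_add_lg S L D, ← sm_add_lg S L D', hE'.1, hE'.2]
  have h2 : ({D : ι →₀ ℕ | dgf S D = m ∧ M < dgf S (sm S L D)}.ncard : ℝ) ≤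
      ∑ n ∈ Finset.Ioc M m, (((DF S n).filter (fun D => D.support ⊆ S.le L)).card : ℝ) *
        ((DF S (m - n)).card : ℝ) := by
    have h3 := h1.trans Finset.card_biUnion_le
    simp only [Finset.card_product] at h3
    exact_mod_cast h3
  refine h2.trans ?_
  rw [Finset.mul_sum, Finset.sum_mul]
  refine Finset.sum_le_sum fun n hn => ?_
  have hn' := Finset.mem_Ioc.1 hn
  have h3 : (((DF S n).filter (fun D => D.support ⊆ S.le L)).card : ℝ) ≤
      ((n : ℝ) + 1) ^ (S.le L).card := by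
    exact_mod_cast sm_card S L n
  have h4 : (1 : ℝ) / (q : ℝ) ^ n ≤ (1 / 2) ^ n := by
    rw [one_div_pow]
    exact one_div_le_one_div_of_le (by positivity) (pow_le_pow_left₀ (by norm_num) hq' n)
  have h5 : (q : ℝ) ^ (m - n) = (q : ℝ) ^ m * (1 / (q : ℝ) ^ n) := by
    rw [mul_one_div, eq_div_iff (by positivity), ← pow_add]
    congr 1
    omega
  calc (((DF S n).filter (fun D => D.support ⊆ S.le L)).card : ℝ) * ((DF S (m - n)).card : ℝ)
      ≤ ((n : ℝ) + 1) ^ (S.le L).card * (C' * (q : ℝ) ^ (m - n)) :=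
        mul_le_mul h3 (h _) (by positivity) (by positivity)
    _ = ((n : ℝ) + 1) ^ (S.le L).card * C' * (q : ℝ) ^ m * (1 / (q : ℝ) ^ n) := by rw [h5]; ring
    _ ≤ ((n : ℝ) + 1) ^ (S.le L).card * C' * (q : ℝ) ^ m * (1 / 2) ^ n :=
        mul_le_mul_of_nonneg_left h4 (by positivity)
    _ = _ := by ring

lemma tail (k : ℕ) (ε : ℝ) (hε : 0 < ε) : ∃ M : ℕ, ∀ m : ℕ,
    ∑ n ∈ Finset.Ioc M m, ((n : ℝ) + 1) ^ k * (1 / 2) ^ n ≤ ε := by
  have hs : Summable (fun n : ℕ => ((n : ℝ) + 1) ^ k * (1 / 2) ^ n) := by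
    have h1 := summable_pow_mul_geometric_of_norm_lt_one (R := ℝ) k (r := 1 / 2) (by norm_num)
    have h2 := (summable_nat_add_iff 1).2 h1
    refine (h2.mul_left 2).congr fun n => ?_
    push_cast
    rw [pow_succ (1 / 2 : ℝ) n]
    ring
  have ht := tendsto_sum_nat_add (fun n : ℕ => ((n : ℝ) + 1) ^ k * (1 / 2) ^ n)
  obtain ⟨M, hM⟩ := Filter.eventually_atTop.1 (ht.eventually (gt_mem_nhds hε))
  refine ⟨M, fun m => ?_⟩
  refine le_trans ?_ (hM (M + 1) (Nat.le_succ M)).le
  have h1 : Finset.Ioc M m ⊆ (Finset.range m).image (fun i => i + (M + 1)) := by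
    intro n hn
    rw [Finset.mem_Ioc] at hn
    rw [Finset.mem_image]
    exact ⟨n - (M + 1), Finset.mem_range.2 (by omega), by omega⟩
  refine (Finset.sum_le_sum_of_subset_of_nonneg h1 fun _ _ _ => by positivity).trans ?_
  rw [Finset.sum_image fun i _ j _ h => by
    have h' : i + (M + 1) = j + (M + 1) := h
    omega]
  exact ((summable_nat_add_iff (M + 1)).2 hs).sum_le_tsum _ fun i _ => by positivity

theorem div : S_HALG → S_DIV := by
  intro hH ι S q C c W n₀ H
  obtain ⟨C₁, hC₁, h1⟩ := hH ι S q C c W n₀ H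
  have hq := H.q2
  have hC : 0 < C := lt_of_lt_of_le one_pos H.C1
  have hU : ∀ n, ((S.UU n).card : ℝ) ≤ C₁ * (q : ℝ) ^ n := by
    intro n
    have h2 := h1 ∅ 0 0 n
    have h3 : ∑ U ∈ S.UU n, (1 / 2 : ℝ) ^ (cntI S ∅ 0 0 U) = ((S.UU n).card : ℝ) := by
      rw [Finset.card_eq_sum_ones, Nat.cast_sum]
      refine Finset.sum_congr rfl fun U _ => ?_
      unfold cntI
      simp
    rw [h3, Nat.zero_min, Finset.Ioc_self, Finset.sum_empty, mul_zero, Real.exp_zero, mul_one] at h2
    exact h2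
  obtain ⟨C', hC', h2⟩ := part2 S hq hC₁ hU
  refine ⟨fin S, ⟨C', hC', fun m => by rw [ncard_DF]; exact h2 m⟩, ?_, ?_⟩
  · intro ε hε
    obtain ⟨L₁, hL₁⟩ : ∃ L₁ : ℕ, (1 / 2 : ℝ) ^ L₁ < ε / (C * C') :=
      exists_pow_lt_of_lt_one (by positivity) (by norm_num)
    refine ⟨L₁, fun L hL m => ?_⟩
    rw [ncard_eq]
    refine (part3 S hq hC' hC H.up h2 L m).trans ?_
    refine mul_le_mul_of_nonneg_right ?_ (by positivity)
    have h3 : (1 / 2 : ℝ) ^ L ≤ (1 / 2) ^ L₁ := pow_le_pow_of_le_one (by norm_num) (by norm_num) hL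
    have h4 : (1 / 2 : ℝ) ^ L ≤ ε / (C * C') := h3.trans hL₁.le
    rw [le_div_iff₀ (by positivity)] at h4
    linarith
  · intro L ε hε
    obtain ⟨M, hM⟩ := tail (S.le L).card (ε / C') (by positivity)
    refine ⟨M, fun m => ?_⟩
    simp only [← dgf_sm]
    refine (part4 S hq hC' h2 L M m).trans ?_
    refine mul_le_mul_of_nonneg_right ?_ (by positivity)
    have h4 := hM m
    rw [le_div_iff₀ hC'] at h4
    linarith

end Pool.Agent.H467.PG.Div
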