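import Pool.Agent.H467.PG.SpecD

/-!
# The distribution for all local classes together (helper376, for helper467)
-/

set_option autoImplicit false
set_option linter.all false

open Finset Filter WithZero
open Pool.Agent.H467.PT
open Pool.Agent.H467.GK
open Pool.Agent.H467.CT (AS Bas IsTau Std Ev LV LF cc)
open scoped Classical

namespace Pool.Agent.H467.PG.Dst

/-! ### Real sequences -/

theorem geo2 (q : ℝ) (hq : 2 ≤ q) (n : ℕ) :
    ∑ i ∈ range (n + 1), q ^ (2 * i) ≤ 2 * q ^ (2 * n) := by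
  induction n with
  | zero => simp
  | succ n ih =>
    rw [Finset.sum_range_succ]
    have h : 0 < q ^ (2 * n) := by positivity
    have e : q ^ (2 * (n + 1)) = q ^ (2 * n) * (q * q) := by
      rw [mul_add, pow_add]; ring
    have h2 : 4 ≤ q * q := by nlinarith
    rw [e]
    nlinarith

theorem abs_of_tendsto {f g : ℕ → ℝ} {α : ℝ} (hf : ∀ m, 0 ≤ f m) (hfg : ∀ m, f m ≤ g m)
    (h : Tendsto (fun m => f m / g m) atTop (nhds α)) {δ : ℝ} (hδ : 0 < δ) :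
    ∃ m₀ : ℕ, ∀ m, m₀ ≤ m → |f m - α * g m| ≤ δ * g m := by
  rw [Metric.tendsto_atTop] at h
  obtain ⟨m₀, hm₀⟩ := h δ hδ
  refine ⟨m₀, fun m hm => ?_⟩
  have h1 := hm₀ m hm
  rw [Real.dist_eq] at h1
  rcases eq_or_lt_of_le ((hf m).trans (hfg m)) with h2 | h2
  · have h3 : f m = 0 := le_antisymm (by rw [h2]; exact hfg m) (hf m)
    rw [h3, ← h2]
    simp
  · have h4 : f m - α * g m = (f m / g m - α) * g m := by
      field_simp
    rw [h4, abs_mul, abs_of_pos h2]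
    exact mul_le_mul_of_nonneg_right h1.le h2.le

theorem tendsto_of_abs {f g : ℕ → ℝ} {α : ℝ} (hg : ∃ m₀ : ℕ, ∀ m, m₀ ≤ m → 0 < g m)
    (h : ∀ δ : ℝ, 0 < δ → ∃ m₀ : ℕ, ∀ m, m₀ ≤ m → |f m - α * g m| ≤ δ * g m) :
    Tendsto (fun m => f m / g m) atTop (nhds α) := by
  rw [Metric.tendsto_atTop]
  intro ε hε
  obtain ⟨m₀, hm₀⟩ := hg
  obtain ⟨m₁, hm₁⟩ := h (ε / 2) (by positivity)
  refine ⟨max m₀ m₁, fun m hm => ?_⟩
  have h1 := hm₀ m ((le_max_left _ _).trans hm)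
  have h2 := hm₁ m ((le_max_right _ _).trans hm)
  rw [Real.dist_eq]
  have h4 : f m / g m - α = (f m - α * g m) / g m := by
    field_simp
  rw [h4, abs_div, abs_of_pos h1, div_lt_iff₀ h1]
  have : 0 < ε * g m := by positivity
  linarith

/-! ### Divisors -/

section div

variable {k K : Type} [Field k] [Field K] [Algebra k K]

/-- the degree of an effective divisor -/
noncomputable def dg (R : GFR k K) (D : PV K →₀ ℕ) : ℕ := D.sum fun j n => n * R.deg j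

/-- the part outside `B` -/
noncomputable def out (B : Finset (PV K)) (D : PV K →₀ ℕ) : Ob B →₀ ℕ :=
  D.subtypeDomain (fun j => j ∉ B)

theorem out_apply (B : Finset (PV K)) (D : PV K →₀ ℕ) (j : Ob B) : out B D j = D j.1 := rfl

theorem dg_split (R : GFR k K) (B : Finset (PV K)) (D : PV K →₀ ℕ) :
    dg R D = ∑ j ∈ B, D j * R.deg j + dgf (sysB R B) (out B D) := by
  unfold dg dgf out Finsupp.sum
  rw [← Finset.sum_filter_add_sum_filter_not D.support (fun j => j ∈ B)]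
  congr 1
  · have h1 : D.support.filter (fun j => j ∈ B) ⊆ B := by
      intro j hj
      exact (Finset.mem_filter.1 hj).2
    refine Finset.sum_subset h1 fun j hj hj' => ?_
    have h2 : D j = 0 := by
      by_contra h3
      exact hj' (Finset.mem_filter.2 ⟨Finsupp.mem_support_iff.2 h3, hj⟩)
    show D j * R.deg j = 0
    rw [h2, zero_mul]
  · rw [Finsupp.support_subtypeDomain]
    symm
    exact Finset.sum_subtype_eq_sum_filter (s := D.support) (p := fun j => j ∉ B)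
      (fun j => D j * R.deg j)

theorem out_empty_inj : Function.Injective (out (K := K) ∅) := by
  intro D D' h
  ext j
  exact DFunLike.congr_fun h (⟨j, Finset.notMem_empty j⟩ : Ob (∅ : Finset (PV K)))

theorem dg_empty (R : GFR k K) (D : PV K →₀ ℕ) : dg R D = dgf (sysB R ∅) (out ∅ D) := by
  rw [dg_split R ∅ D, Finset.sum_empty, zero_add]

theorem count_le (R : GFR k K) (Q : (Ob (∅ : Finset (PV K)) →₀ ℕ) → Prop) (i : ℕ) (x : ℝ)
    (hfin : {D : Ob (∅ : Finset (PV K)) →₀ ℕ | dgf (sysB R ∅) D = i}.Finite)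
    (h : ({D : Ob (∅ : Finset (PV K)) →₀ ℕ | dgf (sysB R ∅) D = i ∧ Q D}.ncard : ℝ) ≤ x) :
    {D : PV K →₀ ℕ | dg R D = i ∧ Q (out ∅ D)}.Finite ∧
      ({D : PV K →₀ ℕ | dg R D = i ∧ Q (out ∅ D)}.ncard : ℝ) ≤ x := by
  have hfin' : {D : Ob (∅ : Finset (PV K)) →₀ ℕ | dgf (sysB R ∅) D = i ∧ Q D}.Finite :=
    hfin.subset fun D hD => hD.1
  have hmap : ∀ D ∈ {D : PV K →₀ ℕ | dg R D = i ∧ Q (out ∅ D)},
      out ∅ D ∈ {D : Ob (∅ : Finset (PV K)) →₀ ℕ | dgf (sysB R ∅) D = i ∧ Q D} := by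
    rintro D ⟨h1, h2⟩
    exact ⟨by rw [← dg_empty, h1], h2⟩
  refine ⟨?_, ?_⟩
  · exact Set.Finite.of_injOn hmap (out_empty_inj.injOn) hfin'
  · refine le_trans ?_ h
    exact_mod_cast Set.ncard_le_ncard_of_injOn (out ∅) hmap out_empty_inj.injOn hfin'

end div

/-! ### Classes -/

section cls

variable {K : Type} [Field K] [CharP K 2]

theorem two_q (χ : Qc K) : χ + χ = 0 := by
  induction χ using QuotientAddGroup.induction_on with
  | H a =>
    rw [← QuotientAddGroup.mk_add, CharTwo.add_self_eq_zero]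
    rfl

theorem add_add_q (χ χ' : Qc K) : χ + χ' + χ' = χ := by
  rw [add_assoc, two_q, add_zero]

theorem mkq_out (χ : Qc K) : mkq χ.out = χ := QuotientAddGroup.out_eq' χ

/-- the divisor of a class -/
noncomputable def dvs (χ : Qc K) : PV K →₀ ℕ :=
  if h : (Function.support (fun j : PV K => (poq j χ + 1) / 2)).Finite then
    Finsupp.ofSupportFinite _ h else 0

variable {k : Type} [Field k] [Finite k] [Algebra k K]

theorem dvs_apply (hHSD : S_HSD) (R : GFR k K) (χ : Qc K) (j : PV K) :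
    dvs χ j = (poq j χ + 1) / 2 := by
  have h : (Function.support (fun j : PV K => (poq j χ + 1) / 2)).Finite := by
    obtain ⟨D, hD⟩ := hHSD k K R ∅ χ
    refine (D.support.finite_toSet.image Subtype.val).subset ?_
    intro j hj
    refine ⟨⟨j, Finset.notMem_empty j⟩, ?_, rfl⟩
    rw [Finset.mem_coe, Finsupp.mem_support_iff, ← hD]
    exact hj
  unfold dvs
  rw [dif_pos h]
  rfl

theorem degLE_iff (hHSD : S_HSD) (R : GFR k K) (χ : Qc K) (m : ℕ) :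
    DegLE R χ m ↔ dg R (dvs χ) ≤ m := by
  constructor
  · rintro ⟨D, hD, hD'⟩
    have : D = dvs χ := by
      ext j
      rw [← hD, dvs_apply hHSD R]
    rw [← this]
    exact hD'
  · intro h
    exact ⟨dvs χ, fun j => (dvs_apply hHSD R χ j).symm, h⟩

theorem cls_count (hUBG : S_UBG) (hPOQ : S_POQ) (hHSD : S_HSD) (R : GFR k K) :
    ∃ C : ℝ, 0 < C ∧ ∀ (Q : (PV K →₀ ℕ) → Prop) (x : ℝ), 0 ≤ x →
      (∀ i, {D : PV K →₀ ℕ | dg R D = i ∧ Q D}.Finite ∧
        ({D : PV K →₀ ℕ | dg R D = i ∧ Q D}.ncard : ℝ) ≤ x * (Nat.card k : ℝ) ^ i) →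
      ∀ m : ℕ, {ψ : Qc K | dg R (dvs ψ) ≤ m ∧ Q (dvs ψ)}.Finite ∧
        ({ψ : Qc K | dg R (dvs ψ) ≤ m ∧ Q (dvs ψ)}.ncard : ℝ) ≤
          C * x * (Nat.card k : ℝ) ^ (2 * m) := by
  obtain ⟨C, hC, hU⟩ := hUBG k K R
  have hq : (2 : ℝ) ≤ Nat.card k := by exact_mod_cast (Finite.one_lt_card : 1 < Nat.card k)
  refine ⟨2 * C, by positivity, ?_⟩
  intro Q x hx hQ m
  set AA : (PV K →₀ ℕ) → Finset (Qc K) := fun D => (hU D).1.toFinset with hAA
  set TT : ℕ → Finset (PV K →₀ ℕ) := fun i => (hQ i).1.toFinset with hTT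
  set UU : Finset (Qc K) := (range (m + 1)).biUnion fun i => (TT i).biUnion AA with hUU
  have hsub : {ψ : Qc K | dg R (dvs ψ) ≤ m ∧ Q (dvs ψ)} ⊆ (UU : Set (Qc K)) := by
    rintro ψ ⟨h1, h2⟩
    rw [Finset.mem_coe, hUU, Finset.mem_biUnion]
    refine ⟨dg R (dvs ψ), Finset.mem_range.2 (by omega), ?_⟩
    rw [Finset.mem_biUnion]
    refine ⟨dvs ψ, ?_, ?_⟩
    · rw [hTT, Set.Finite.mem_toFinset]
      exact ⟨rfl, h2⟩
    · rw [hAA, Set.Finite.mem_toFinset]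
      intro j
      have h3 := (hPOQ K j).2.2.2.1 ψ (2 * dvs ψ j)
      have h4 : poq j ψ ≤ 2 * dvs ψ j := by
        rw [dvs_apply hHSD R]
        omega
      have h5 := h3.2 h4
      push_cast at h5
      exact h5
  refine ⟨UU.finite_toSet.subset hsub, ?_⟩
  have h1 : ({ψ : Qc K | dg R (dvs ψ) ≤ m ∧ Q (dvs ψ)}.ncard : ℝ) ≤ (UU.card : ℝ) := by
    rw [← Set.ncard_coe_finset]
    exact_mod_cast Set.ncard_le_ncard hsub UU.finite_toSet
  refine h1.trans ?_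
  have h2 : UU.card ≤ ∑ i ∈ range (m + 1), ∑ D ∈ TT i, (AA D).card :=
    Finset.card_biUnion_le.trans (Finset.sum_le_sum fun i _ => Finset.card_biUnion_le)
  have h3 : (UU.card : ℝ) ≤ ∑ i ∈ range (m + 1), ∑ D ∈ TT i, ((AA D).card : ℝ) := by
    exact_mod_cast h2
  refine h3.trans ?_
  have h4 : ∀ i ∈ range (m + 1), ∑ D ∈ TT i, ((AA D).card : ℝ) ≤
      C * x * (Nat.card k : ℝ) ^ (2 * i) := by
    intro i _
    have h5 : ∀ D ∈ TT i, ((AA D).card : ℝ) ≤ C * (Nat.card k : ℝ) ^ i := by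
      intro D hD
      rw [hTT, Set.Finite.mem_toFinset] at hD
      have h6 := (hU D).2
      have h7 : (D.sum fun j n => n * R.deg j) = i := hD.1
      rw [h7, Set.ncard_eq_toFinset_card _ (hU D).1] at h6
      exact h6
    have h8 : ((TT i).card : ℝ) ≤ x * (Nat.card k : ℝ) ^ i := by
      have h9 := (hQ i).2
      rw [Set.ncard_eq_toFinset_card _ (hQ i).1] at h9
      exact h9
    calc ∑ D ∈ TT i, ((AA D).card : ℝ) ≤ ∑ D ∈ TT i, C * (Nat.card k : ℝ) ^ i :=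
          Finset.sum_le_sum h5
      _ = ((TT i).card : ℝ) * (C * (Nat.card k : ℝ) ^ i) := by
          rw [Finset.sum_const, nsmul_eq_mul]
      _ ≤ x * (Nat.card k : ℝ) ^ i * (C * (Nat.card k : ℝ) ^ i) := by gcongr
      _ = C * x * (Nat.card k : ℝ) ^ (2 * i) := by rw [two_mul, pow_add]; ring
  refine (Finset.sum_le_sum h4).trans ?_
  rw [← Finset.mul_sum]
  have h5 := geo2 (Nat.card k) hq m
  calc C * x * ∑ i ∈ range (m + 1), (Nat.card k : ℝ) ^ (2 * i)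
      ≤ C * x * (2 * (Nat.card k : ℝ) ^ (2 * m)) := by gcongr
    _ = _ := by ring

theorem poq_a0 (hPOQ : S_POQ) (j : PV K) {a₀ : K} (h : j.1 a₀ ≤ 1) (χ : Qc K) :
    poq j (χ + mkq a₀) = poq j χ := by
  have h0 : poq j (mkq a₀) = 0 := ((hPOQ K j).2.2.2.2.1 (mkq a₀)).2 ⟨a₀, rfl, h⟩
  have h1 := (hPOQ K j).2.2.2.2.2.2.2.1 χ (mkq a₀)
  have h2 := (hPOQ K j).2.2.2.2.2.2.2.1 (χ + mkq a₀) (mkq a₀)
  rw [add_add_q] at h2
  omega

/-- The classes with given local classes. -/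
theorem om_eq (hPOQ : S_POQ) (hHSD : S_HSD) (R : GFR k K) (S : Finset (PV K)) (a₀ : K)
    (ha : ∀ j : PV K, j ∉ S → j.1 a₀ ≤ 1) (c : PV K → K) (m : ℕ)
    (hm : ∑ j ∈ S, ((poq j (mkq (c j) + mkq a₀) + 1) / 2) * R.deg j ≤ m) :
    {χ : Qc K | (∀ j ∈ S, Spl j (χ + mkq (c j))) ∧ dg R (dvs (χ + mkq a₀)) ≤ m} =
      Om R S c (m - ∑ j ∈ S, ((poq j (mkq (c j) + mkq a₀) + 1) / 2) * R.deg j) := by
  ext χ
  have key : (∀ j ∈ S, Spl j (χ + mkq (c j))) → dg R (dvs (χ + mkq a₀)) =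
      ∑ j ∈ S, ((poq j (mkq (c j) + mkq a₀) + 1) / 2) * R.deg j +
        dgf (sysB R S) (out S (dvs (χ + mkq a₀))) := by
    intro h
    rw [dg_split R S]
    congr 1
    refine Finset.sum_congr rfl fun j hj => ?_
    rw [dvs_apply hHSD R]
    have h1 : Spl j ((χ + mkq a₀) + (mkq (c j) + mkq a₀)) := by
      have e : (χ + mkq a₀) + (mkq (c j) + mkq a₀) = χ + mkq (c j) := by
        have h2 := two_q (mkq a₀)
        calc (χ + mkq a₀) + (mkq (c j) + mkq a₀) = χ + mkq (c j) + (mkq a₀ + mkq a₀) := by abel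
          _ = _ := by rw [h2, add_zero]
      rw [e]
      exact h j hj
    rw [(hPOQ K j).2.2.2.2.2.2.2.2.1 _ _ h1]
  have hD : HasD χ (out S (dvs (χ + mkq a₀))) := by
    intro j
    rw [out_apply, dvs_apply hHSD R, poq_a0 hPOQ j.1 (ha j.1 j.2)]
  constructor
  · rintro ⟨h1, h2⟩
    refine ⟨h1, out S (dvs (χ + mkq a₀)), hD, ?_⟩
    rw [key h1] at h2
    omega
  · rintro ⟨h1, D, hD', h2⟩
    refine ⟨h1, ?_⟩
    have : D = out S (dvs (χ + mkq a₀)) := by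
      ext j
      rw [← hD' j, ← hD j]
    rw [key h1, ← this]
    omega

/-- The classes which are trivial at `S`. -/
def NS (hPOQ : S_POQ) (S : Finset (PV K)) : AddSubgroup (Qc K) where
  carrier := {χ | ∀ j ∈ S, Spl j χ}
  add_mem' := fun {χ χ'} h h' j hj => (hPOQ K j).2.2.2.2.2.1 χ χ' (h j hj) (h' j hj)
  zero_mem' := fun j _ => ⟨0, rfl, by rw [map_zero]; exact zero_lt_one⟩
  neg_mem' := fun {χ} h j hj => by
    have : -χ = χ := neg_eq_of_add_eq_zero_left (two_q χ)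
    rw [this]
    exact h j hj

theorem ns_eq (hPOQ : S_POQ) (S : Finset (PV K)) (χ χ' : Qc K) :
    (QuotientAddGroup.mk χ : Qc K ⧸ NS hPOQ S) = QuotientAddGroup.mk χ' ↔
      ∀ j ∈ S, Spl j (χ + χ') := by
  rw [QuotientAddGroup.eq]
  have : -χ = χ := neg_eq_of_add_eq_zero_left (two_q χ)
  rw [this]
  rfl

/-- Finitely many families of local classes with bounded poles. -/
theorem fin_cls (hPOQ : S_POQ) (hHSD : S_HSD) (R : GFR k K) (S : Finset (PV K)) (a₀ : K)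
    (w : PV K) (hw : w ∉ S) (M : ℕ) :
    {y : Qc K ⧸ NS hPOQ S | ∃ χ : Qc K, QuotientAddGroup.mk χ = y ∧
      ∑ j ∈ S, dvs (χ + mkq a₀) j * R.deg j ≤ M}.Finite := by
  obtain ⟨N, hN⟩ : ∃ N : ℤ, N = |R.N₀| + ∑ j ∈ S, (R.deg j : ℤ) := ⟨_, rfl⟩
  have hsup : ∀ v : ℤ, ∀ j : PV K, (if j = w then N else if j ∈ S then v else 0) ≠ 0 →
      j ∈ insert w S := by
    intro v j hj
    by_contra h
    rw [Finset.mem_insert, not_or] at h
    rw [if_neg h.1, if_neg h.2] at hj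
    exact hj rfl
  set DD : ℤ → PV K →₀ ℤ := fun v => Finsupp.onFinset (insert w S)
    (fun j => if j = w then N else if j ∈ S then v else 0) (hsup v) with hDD
  have hDDa : ∀ v j, DD v j = if j = w then N else if j ∈ S then v else 0 := fun v j => rfl
  have hle : DD (-1) ≤ DD (2 * M) := by
    intro j
    rw [hDDa, hDDa]
    split_ifs
    · exact le_rfl
    · omega
    · exact le_rfl
  have hN0 : R.N₀ ≤ ddg R.deg (DD (-1)) := by
    unfold ddg
    rw [hDD]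
    rw [Finsupp.onFinset_sum _ (fun j => zero_mul _), Finset.sum_insert hw, if_pos rfl]
    have h1 : ∑ j ∈ S, (if j = w then N else if j ∈ S then (-1 : ℤ) else 0) * (R.deg j : ℤ) =
        -∑ j ∈ S, (R.deg j : ℤ) := by
      rw [← Finset.sum_neg_distrib]
      refine Finset.sum_congr rfl fun j hj => ?_
      have hjw : j ≠ w := fun h => hw (h ▸ hj)
      rw [if_neg hjw, if_pos hj]
      ring
    rw [h1]
    have h2 : (1 : ℤ) ≤ R.deg w := by exact_mod_cast R.pos w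
    have h3 : 0 ≤ ∑ j ∈ S, (R.deg j : ℤ) := Finset.sum_nonneg fun j _ => Int.natCast_nonneg _
    have h4 : 0 ≤ N := by rw [hN]; positivity
    have h5 : N ≤ N * (R.deg w : ℤ) := by nlinarith
    have h6 := le_abs_self R.N₀
    linarith
  refine ((R.fin (DD (2 * M))).image (fun x : K =>
    (QuotientAddGroup.mk (mkq x + mkq a₀) : Qc K ⧸ NS hPOQ S))).subset ?_
  rintro y ⟨χ, rfl, hχ⟩
  have hpol : ∀ j ∈ S, ∃ f : K, mkq f = χ + mkq a₀ ∧ j.1 f ≤ exp (2 * M : ℤ) := by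
    intro j hj
    have h1 : dvs (χ + mkq a₀) j * R.deg j ≤ M :=
      (Finset.single_le_sum (f := fun j => dvs (χ + mkq a₀) j * R.deg j)
        (fun _ _ => Nat.zero_le _) hj).trans hχ
    have h2 : dvs (χ + mkq a₀) j ≤ M := (Nat.le_mul_of_pos_right _ (R.pos j)).trans h1
    rw [dvs_apply hHSD R] at h2
    have h3 : poq j (χ + mkq a₀) ≤ 2 * M := by omega
    have h4 := ((hPOQ K j).2.2.2.1 (χ + mkq a₀) (2 * M)).2 h3
    push_cast at h4
    exact h4
  set f : PV K → K := fun j => if h : j ∈ S then (hpol j h).choose else 0 with hf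
  have hf1 : ∀ j (h : j ∈ S), mkq (f j) = χ + mkq a₀ ∧ j.1 (f j) ≤ exp (2 * M : ℤ) := by
    intro j h
    have : f j = (hpol j h).choose := dif_pos h
    rw [this]
    exact (hpol j h).choose_spec
  have hlt : ∀ j, DD (-1) j < DD (2 * M) j → j ∈ S := by
    intro j hj
    rw [hDDa, hDDa] at hj
    by_contra h
    rw [if_neg h, if_neg h] at hj
    exact lt_irrefl _ hj
  obtain ⟨x, hx, hx'⟩ := R.sa (DD (2 * M)) (DD (-1)) hle hN0 f (by
    intro j hj
    have hjS := hlt j hj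
    have h1 := (hf1 j hjS).2
    have hjw : j ≠ w := fun h => hw (h ▸ hjS)
    rw [hDDa, if_neg hjw, if_pos hjS]
    exact h1)
  refine ⟨x, hx, ?_⟩
  symm
  change (QuotientAddGroup.mk χ : Qc K ⧸ NS hPOQ S) = QuotientAddGroup.mk (mkq x + mkq a₀)
  rw [ns_eq]
  intro j hj
  have hjw : j ≠ w := fun h => hw (h ▸ hj)
  have h1 := hx' j (by
    rw [hDDa, hDDa, if_neg hjw, if_neg hjw, if_pos hj, if_pos hj]
    omega)
  rw [hDDa, if_neg hjw, if_pos hj] at h1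
  refine ⟨x + f j, ?_, lt_of_le_of_lt h1 ?_⟩
  · have h2 : mkq (x + f j) = mkq x + mkq (f j) := rfl
    rw [h2, (hf1 j hj).1]
    abel
  · rw [← exp_zero]
    exact exp_lt_exp.2 (by norm_num)

theorem exists_out {R : GFR k K} {S : Finset (PV K)} {C c : ℝ} {W n₀ : ℕ}
    (h : PHyp (sysB R S) (Nat.card k) C c W n₀) : ∃ w : PV K, w ∉ S := by
  by_contra hw
  push Not at hw
  have h1 : ∀ l, (sysB R S).eq l = ∅ := by
    intro l
    rw [Finset.eq_empty_iff_forall_notMem]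
    intro j _
    exact j.2 (hw j.1)
  have h2 : ∀ Y : ℕ, c * Real.log ((Y : ℝ) + 1) ≤ C := by
    intro Y
    have h3 := h.low 0 Y (Nat.zero_le _)
    have h4 : ∑ l ∈ Finset.Ioc 0 Y, (((sysB R S).eq l).card : ℝ) / (Nat.card k : ℝ) ^ l = 0 :=
      Finset.sum_eq_zero fun l _ => by rw [h1 l]; simp
    rw [h4, Nat.cast_zero, zero_add, div_one] at h3
    linarith
  obtain ⟨Y, hY⟩ := exists_nat_gt (Real.exp (C / c))
  have h5 := h2 Y
  have h6 : C / c < Real.log ((Y : ℝ) + 1) := by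
    rw [Real.lt_log_iff_exp_lt (by positivity)]
    linarith
  rw [div_lt_iff₀ h.c0] at h6
  linarith

/-- the part of small degree is at least the part in `S` -/
theorem small_le (R : GFR k K) (S : Finset (PV K)) (L : ℕ) (hL : ∀ j ∈ S, R.deg j ≤ L)
    (D : PV K →₀ ℕ) : ∑ j ∈ S, D j * R.deg j ≤
      ∑ p ∈ (out ∅ D).support.filter (fun p => (sysB R ∅).deg p ≤ L),
        out ∅ D p * (sysB R ∅).deg p := by
  have h1 : ∑ p ∈ (out ∅ D).support.filter (fun p => (sysB R ∅).deg p ≤ L),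
      out ∅ D p * (sysB R ∅).deg p =
      ∑ j ∈ D.support.filter (fun j => R.deg j ≤ L), D j * R.deg j := by
    refine Finset.sum_nbij (fun p => p.1) ?_ (Subtype.val_injective.injOn) ?_ fun _ _ => rfl
    · intro p hp
      rw [Finset.mem_filter, Finsupp.mem_support_iff] at hp ⊢
      exact hp
    · intro j hj
      rw [Finset.mem_coe, Finset.mem_filter, Finsupp.mem_support_iff] at hj
      refine ⟨⟨j, Finset.notMem_empty j⟩, ?_, rfl⟩
      rw [Finset.mem_coe, Finset.mem_filter, Finsupp.mem_support_iff]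
      exact hj
  rw [h1, ← Finset.sum_filter_add_sum_filter_not S (fun j => D j ≠ 0)]
  have h2 : ∑ j ∈ S.filter (fun j => ¬ D j ≠ 0), D j * R.deg j = 0 := by
    refine Finset.sum_eq_zero fun j hj => ?_
    have h3 := (Finset.mem_filter.1 hj).2
    rw [not_not] at h3
    rw [h3, zero_mul]
  rw [h2, add_zero]
  refine Finset.sum_le_sum_of_subset ?_
  intro j hj
  rw [Finset.mem_filter] at hj ⊢
  exact ⟨Finsupp.mem_support_iff.2 hj.2, hL j hj.1⟩

theorem translate (R : GFR k K) (a₀ : K) (Q : (PV K →₀ ℕ) → Prop) (m : ℕ) {x : ℝ}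
    (h : {ψ : Qc K | dg R (dvs ψ) ≤ m ∧ Q (dvs ψ)}.Finite ∧
      ({ψ : Qc K | dg R (dvs ψ) ≤ m ∧ Q (dvs ψ)}.ncard : ℝ) ≤ x) :
    {χ : Qc K | dg R (dvs (χ + mkq a₀)) ≤ m ∧ Q (dvs (χ + mkq a₀))}.Finite ∧
      ({χ : Qc K | dg R (dvs (χ + mkq a₀)) ≤ m ∧ Q (dvs (χ + mkq a₀))}.ncard : ℝ) ≤ x := by
  have hinj : Function.Injective (fun χ : Qc K => χ + mkq a₀) := add_left_injective _
  have hmap : ∀ χ ∈ {χ : Qc K | dg R (dvs (χ + mkq a₀)) ≤ m ∧ Q (dvs (χ + mkq a₀))},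
      (fun χ : Qc K => χ + mkq a₀) χ ∈ {ψ : Qc K | dg R (dvs ψ) ≤ m ∧ Q (dvs ψ)} :=
    fun χ hχ => hχ
  refine ⟨Set.Finite.of_injOn hmap hinj.injOn h.1, le_trans ?_ h.2⟩
  exact_mod_cast Set.ncard_le_ncard_of_injOn _ hmap hinj.injOn h.1

/-- the sum over a finite set -/
theorem sum_G {ι : Type} (A : Finset ι) (p : ι → Prop) (α : ℝ) :
    ∑ χ ∈ A, ((if p χ then (1 : ℝ) else 0) - α) = ((A.filter p).card : ℝ) - α * A.card := by
  rw [Finset.sum_sub_distrib, Finset.sum_boole, Finset.sum_const, nsmul_eq_mul]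
  ring

end cls

theorem dst : S_CORE → S_OML → S_UBG → S_PKG → S_DIV → S_POQ → S_HSD → S_DST := by
  intro hCORE hOML hUBG hPKG hDIV hPOQ hHSD k K _ _ _ _ _ _ hFF F a₀ S hS ha P hP hc
  obtain ⟨c₀, hc₀⟩ := hc
  have hq : (2 : ℝ) ≤ Nat.card k := by exact_mod_cast (Finite.one_lt_card : 1 < Nat.card k)
  obtain ⟨q, hqdef⟩ : ∃ q : ℝ, (Nat.card k : ℝ) = q := ⟨_, rfl⟩
  rw [hqdef] at hq
  have hq0 : 0 < q := by linarith
  obtain ⟨C, hC, hcount⟩ := cls_count hUBG hPOQ hHSD F.R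
  obtain ⟨_, _, _, _, hPH⟩ := hPKG k K hFF F.R ∅
  obtain ⟨_, _, _, _, hPHS⟩ := hPKG k K hFF F.R S
  obtain ⟨w, hw⟩ := exists_out hPHS
  obtain ⟨hfin, ⟨C', hC', hup⟩, -, htail⟩ := hDIV _ (sysB F.R ∅) (Nat.card k) _ _ _ _ hPH
  rw [hqdef] at hup hcount htail ⊢
  -- the degree of the divisor of `χ + a₀`
  have hdeg : ∀ (χ : Qc K) (m : ℕ), DegLE F.R (χ + mkq a₀) m ↔
      dg F.R (dvs (χ + mkq a₀)) ≤ m := fun χ m => degLE_iff hHSD F.R _ m
  -- the upper bound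
  have hA : ∀ m : ℕ, {χ : Qc K | dg F.R (dvs (χ + mkq a₀)) ≤ m}.Finite ∧
      ({χ : Qc K | dg F.R (dvs (χ + mkq a₀)) ≤ m}.ncard : ℝ) ≤ C * C' * q ^ (2 * m) := by
    intro m
    have h1 := hcount (fun _ => True) C' hC'.le (fun i => by
      have h2 := count_le F.R (fun _ => True) i (C' * q ^ i) (hfin i) (by
        have h3 := hup i
        simpa using h3)
      exact h2) m
    have h4 := translate F.R a₀ (fun _ => True) m h1
    simpa using h4
  -- the tail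
  have hT : ∀ ε : ℝ, 0 < ε → ∃ M : ℕ, ∀ m : ℕ,
      ({χ : Qc K | dg F.R (dvs (χ + mkq a₀)) ≤ m ∧
        M < ∑ j ∈ S, dvs (χ + mkq a₀) j * F.R.deg j}.ncard : ℝ) ≤ C * ε * q ^ (2 * m) := by
    intro ε hε
    obtain ⟨M, hM⟩ := htail (S.sup F.R.deg) ε hε
    refine ⟨M, fun m => ?_⟩
    have hL : ∀ j ∈ S, F.R.deg j ≤ S.sup F.R.deg := fun j hj => Finset.le_sup (f := F.R.deg) hj
    have h1 := hcount (fun D => M < ∑ j ∈ S, D j * F.R.deg j) ε hε.le (fun i => by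
      have h2 := count_le F.R (fun D => M < ∑ p ∈ D.support.filter
        (fun p => (sysB F.R ∅).deg p ≤ S.sup F.R.deg), D p * (sysB F.R ∅).deg p) i (ε * q ^ i)
        (hfin i) (hM i)
      have h3 : {D : PV K →₀ ℕ | dg F.R D = i ∧ M < ∑ j ∈ S, D j * F.R.deg j} ⊆
          {D : PV K →₀ ℕ | dg F.R D = i ∧ M < ∑ p ∈ (out ∅ D).support.filter
            (fun p => (sysB F.R ∅).deg p ≤ S.sup F.R.deg),
              out ∅ D p * (sysB F.R ∅).deg p} := by
        rintro D ⟨h4, h5⟩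
        exact ⟨h4, lt_of_lt_of_le h5 (small_le F.R S _ hL D)⟩
      refine ⟨h2.1.subset h3, le_trans ?_ h2.2⟩
      exact_mod_cast Set.ncard_le_ncard h3 h2.1) m
    exact (translate F.R a₀ (fun D => M < ∑ j ∈ S, D j * F.R.deg j) m h1).2
  -- local classes
  have hPs : ∀ χ χ' : Qc K, (∀ j ∈ S, Spl j (χ + χ')) → (∀ j ∈ S, P j χ) → ∀ j ∈ S, P j χ' :=
    fun χ χ' h h' j hj => hP j χ χ' (h j hj) (h' j hj)
  have hEfin : ∀ m : ℕ, {χ : Qc K | (∀ j ∈ S, P j χ) ∧ DegLE F.R (χ + mkq a₀) m}.Finite := by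
    intro m
    refine (hA m).1.subset ?_
    rintro χ ⟨-, h2⟩
    exact (hdeg χ m).1 h2
  -- the lower bound
  have hB : ∃ c' : ℝ, 0 < c' ∧ ∃ m₀ : ℕ, ∀ m, m₀ ≤ m → c' * q ^ (2 * m) ≤
      ({χ : Qc K | (∀ j ∈ S, P j χ) ∧ DegLE F.R (χ + mkq a₀) m}.ncard : ℝ) := by
    obtain ⟨c', hc', m₀, hm₀⟩ := hOML k K hFF F S hS c₀
    rw [hqdef] at hm₀
    obtain ⟨e, he⟩ : ∃ e : ℕ,
      ∑ j ∈ S, ((poq j (mkq (c₀ j) + mkq a₀) + 1) / 2) * F.R.deg j = e := ⟨_, rfl⟩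
    refine ⟨c' / q ^ (2 * e), by positivity, m₀ + e, fun m hm => ?_⟩
    have h1 := om_eq hPOQ hHSD F.R S a₀ ha c₀ m (by rw [he]; omega)
    rw [he] at h1
    have h2 := hm₀ (m - e) (by omega)
    rw [← h1] at h2
    have h3 : {χ : Qc K | (∀ j ∈ S, Spl j (χ + mkq (c₀ j))) ∧
        dg F.R (dvs (χ + mkq a₀)) ≤ m} ⊆
        {χ : Qc K | (∀ j ∈ S, P j χ) ∧ DegLE F.R (χ + mkq a₀) m} := by
      rintro χ ⟨h4, h5⟩
      refine ⟨fun j hj => hP j (mkq (c₀ j)) χ ?_ (hc₀ j hj), (hdeg χ m).2 h5⟩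
      rw [add_comm]
      exact h4 j hj
    have h4 : (c' / q ^ (2 * e)) * q ^ (2 * m) = c' * q ^ (2 * (m - e)) := by
      have h5 : q ^ (2 * m) = q ^ (2 * e) * q ^ (2 * (m - e)) := by
        rw [← pow_add]
        congr 1
        omega
      rw [h5]
      field_simp
    rw [h4]
    refine h2.trans ?_
    exact_mod_cast Set.ncard_le_ncard h3 (hEfin m)
  refine ⟨⟨C * C', by positivity, fun m => ?_⟩, hB, ?_⟩
  · have h1 : {χ : Qc K | DegLE F.R (χ + mkq a₀) m} =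
        {χ : Qc K | dg F.R (dvs (χ + mkq a₀)) ≤ m} := by
      ext χ
      exact hdeg χ m
    rw [h1]
    exact hA m
  intro r
  -- finite sets
  obtain ⟨U, hU⟩ : ∃ U : ℕ → Finset (Qc K), ∀ m χ, χ ∈ U m ↔ dg F.R (dvs (χ + mkq a₀)) ≤ m :=
    ⟨fun m => (hA m).1.toFinset, fun m χ => Set.Finite.mem_toFinset _⟩
  have hUcard : ∀ m, ((U m).card : ℝ) ≤ C * C' * q ^ (2 * m) := by
    intro m
    have h1 := (hA m).2
    have h2 : {χ : Qc K | dg F.R (dvs (χ + mkq a₀)) ≤ m} = (U m : Set (Qc K)) := by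
      ext χ
      exact (hU m χ).symm
    rwa [h2, Set.ncard_coe_finset] at h1
  obtain ⟨good, hgood⟩ : ∃ good : Qc K → Prop, ∀ χ, good χ ↔ (SV χ).ncard = 2 ^ (r + 1) :=
    ⟨fun χ => (SV χ).ncard = 2 ^ (r + 1), fun χ => Iff.rfl⟩
  obtain ⟨PP, hPP⟩ : ∃ PP : Qc K → Prop, ∀ χ, PP χ ↔ ∀ j ∈ S, P j χ :=
    ⟨fun χ => ∀ j ∈ S, P j χ, fun χ => Iff.rfl⟩
  have hE : ∀ m, {χ : Qc K | (∀ j ∈ S, P j χ) ∧ DegLE F.R (χ + mkq a₀) m}.ncard =
      ((U m).filter PP).card := by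
    intro m
    rw [← Set.ncard_coe_finset]
    congr 1
    ext χ
    rw [Finset.mem_coe, Finset.mem_filter, hU, hPP, Set.mem_ofPred_eq, hdeg, and_comm]
  have hEg : ∀ m, {χ : Qc K | ((∀ j ∈ S, P j χ) ∧ DegLE F.R (χ + mkq a₀) m) ∧
      (SV χ).ncard = 2 ^ (r + 1)}.ncard = (((U m).filter PP).filter good).card := by
    intro m
    rw [← Set.ncard_coe_finset]
    congr 1
    ext χ
    rw [Finset.mem_coe, Finset.mem_filter, Finset.mem_filter, hU, hPP, hgood, Set.mem_ofPred_eq,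
      hdeg, and_comm (a := ∀ j ∈ S, P j χ)]
  obtain ⟨cB, hcB, mB, hmB⟩ := hB
  refine tendsto_of_abs ⟨mB, fun m hm => lt_of_lt_of_le (by positivity) (hmB m hm)⟩ ?_
  intro δ hδ
  obtain ⟨α, hα⟩ : ∃ α : ℝ, alp r = α := ⟨_, rfl⟩
  rw [hα]
  -- the families of local classes with bounded poles
  obtain ⟨M, hM⟩ := hT (δ * cB / (2 * (1 + |α|) * C)) (by positivity)
  obtain ⟨Z, hZdef⟩ : ∃ Z : Qc K → ℕ, ∀ χ, Z χ = ∑ j ∈ S, dvs (χ + mkq a₀) j * F.R.deg j :=
    ⟨_, fun χ => rfl⟩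
  have hYfin := fin_cls hPOQ hHSD F.R S a₀ w hw M
  obtain ⟨Y, hY⟩ : ∃ Y : Finset (Qc K ⧸ NS hPOQ S), ∀ y, y ∈ Y ↔
      ∃ χ : Qc K, QuotientAddGroup.mk χ = y ∧ Z χ ≤ M := by
    refine ⟨hYfin.toFinset, fun y => ?_⟩
    rw [Set.Finite.mem_toFinset]
    constructor
    · rintro ⟨χ, h1, h2⟩
      exact ⟨χ, h1, by rw [hZdef]; exact h2⟩
    · rintro ⟨χ, h1, h2⟩
      exact ⟨χ, h1, by rw [← hZdef]; exact h2⟩
  have hZinv : ∀ χ χ' : Qc K, (∀ j ∈ S, Spl j (χ + χ')) → Z χ = Z χ' := by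
    intro χ χ' h
    rw [hZdef, hZdef]
    refine Finset.sum_congr rfl fun j hj => ?_
    have h1 : Spl j ((χ + mkq a₀) + (χ' + mkq a₀)) := by
      have e : (χ + mkq a₀) + (χ' + mkq a₀) = χ + χ' := by
        have h2 := two_q (mkq a₀)
        calc (χ + mkq a₀) + (χ' + mkq a₀) = χ + χ' + (mkq a₀ + mkq a₀) := by abel
          _ = _ := by rw [h2, add_zero]
      rw [e]
      exact h j hj
    rw [dvs_apply hHSD F.R, dvs_apply hHSD F.R, (hPOQ K j).2.2.2.2.2.2.2.2.1 _ _ h1]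
  obtain ⟨G, hG⟩ : ∃ G : Qc K → ℝ, ∀ χ, G χ = (if good χ then (1 : ℝ) else 0) - α :=
    ⟨_, fun χ => rfl⟩
  -- one family
  have hone : ∀ y ∈ Y, ∀ δ' : ℝ, 0 < δ' → ∃ m₁ : ℕ, ∀ m, m₁ ≤ m →
      |∑ χ ∈ (((U m).filter PP).filter (fun χ => Z χ ≤ M)).filter
        (fun χ => (QuotientAddGroup.mk χ : Qc K ⧸ NS hPOQ S) = y), G χ| ≤
        δ' * q ^ (2 * m) := by
    intro y hy δ' hδ'
    by_cases hex : ∃ χ₁ : Qc K, PP χ₁ ∧ Z χ₁ ≤ M ∧
        (QuotientAddGroup.mk χ₁ : Qc K ⧸ NS hPOQ S) = y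
    · obtain ⟨χ₁, h1, h2, h3⟩ := hex
      have hZ1 : ∑ j ∈ S, ((poq j (mkq χ₁.out + mkq a₀) + 1) / 2) * F.R.deg j = Z χ₁ := by
        rw [hZdef, mkq_out]
        refine Finset.sum_congr rfl fun j _ => ?_
        rw [dvs_apply hHSD F.R]
      have hset : ∀ m, Z χ₁ ≤ m → (((((U m).filter PP).filter (fun χ => Z χ ≤ M)).filter
          (fun χ => (QuotientAddGroup.mk χ : Qc K ⧸ NS hPOQ S) = y) : Finset (Qc K)) :
            Set (Qc K)) = Om F.R S (fun _ => χ₁.out) (m - Z χ₁) := by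
        intro m hm
        have h4 := om_eq hPOQ hHSD F.R S a₀ ha (fun _ => χ₁.out) m (by
          show ∑ j ∈ S, ((poq j (mkq χ₁.out + mkq a₀) + 1) / 2) * F.R.deg j ≤ m
          rw [hZ1]; exact hm)
        have h4' : m - ∑ j ∈ S, ((poq j (mkq ((fun _ : PV K => χ₁.out) j) + mkq a₀) + 1) / 2) *
            F.R.deg j = m - Z χ₁ := by rw [← hZ1]
        rw [h4'] at h4
        rw [← h4]
        ext χ
        rw [Finset.mem_coe, Finset.mem_filter, Finset.mem_filter, Finset.mem_filter, hU,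
          Set.mem_ofPred_eq, ← h3, ns_eq]
        have e1 : mkq ((fun _ : PV K => χ₁.out) w) = χ₁ := mkq_out χ₁
        constructor
        · rintro ⟨⟨⟨h5, -⟩, -⟩, h6⟩
          refine ⟨fun j hj => ?_, h5⟩
          show Spl j (χ + mkq χ₁.out)
          rw [mkq_out]
          exact h6 j hj
        · rintro ⟨h5, h6⟩
          have h7 : ∀ j ∈ S, Spl j (χ + χ₁) := by
            intro j hj
            have h8 : Spl j (χ + mkq χ₁.out) := h5 j hj
            rwa [mkq_out] at h8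
          refine ⟨⟨⟨h6, ?_⟩, ?_⟩, h7⟩
          · rw [hPP] at h1 ⊢
            exact hPs χ₁ χ (fun j hj => by rw [add_comm]; exact h7 j hj) h1
          · rw [hZinv χ χ₁ h7]
            exact h2
      obtain ⟨hOmfin, hOmr⟩ := hCORE k K hFF F S hS (fun _ => χ₁.out)
      obtain ⟨m₁, hm₁⟩ := abs_of_tendsto (fun m => Nat.cast_nonneg _)
        (fun m => by exact_mod_cast Set.ncard_le_ncard (Set.sep_subset _ _) (hOmfin m))
        (hOmr r) (δ := δ' / (C * C')) (by positivity)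
      refine ⟨m₁ + Z χ₁, fun m hm => ?_⟩
      have h6 := hm₁ (m - Z χ₁) (by omega)
      have h7 := hset m (by omega)
      obtain ⟨A, hA'⟩ : ∃ A : Finset (Qc K), (((U m).filter PP).filter
          (fun χ => Z χ ≤ M)).filter
          (fun χ => (QuotientAddGroup.mk χ : Qc K ⧸ NS hPOQ S) = y) = A := ⟨_, rfl⟩
      rw [hA'] at h7 ⊢
      have h8 : {χ ∈ Om F.R S (fun _ => χ₁.out) (m - Z χ₁) | (SV χ).ncard = 2 ^ (r + 1)} =
          ((A.filter good : Finset (Qc K)) : Set (Qc K)) := by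
        rw [← h7]
        ext χ
        rw [Finset.mem_coe, Finset.mem_filter, hgood]
        rfl
      rw [h8, ← h7, Set.ncard_coe_finset, Set.ncard_coe_finset, hα] at h6
      rw [Finset.sum_congr rfl fun χ _ => hG χ, sum_G]
      refine h6.trans ?_
      have h9 : (A.card : ℝ) ≤ C * C' * q ^ (2 * m) := by
        refine le_trans ?_ (hUcard m)
        have : A ⊆ U m := by
          rw [← hA']
          exact (Finset.filter_subset _ _).trans
            ((Finset.filter_subset _ _).trans (Finset.filter_subset _ _))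
        exact_mod_cast Finset.card_le_card this
      calc δ' / (C * C') * (A.card : ℝ) ≤ δ' / (C * C') * (C * C' * q ^ (2 * m)) := by gcongr
        _ = _ := by field_simp
    · refine ⟨0, fun m _ => ?_⟩
      rw [Finset.sum_eq_zero, abs_zero]
      · positivity
      · intro χ hχ
        rw [Finset.mem_filter, Finset.mem_filter, Finset.mem_filter] at hχ
        exact absurd ⟨χ, hχ.1.1.2, hχ.1.2, hχ.2⟩ hex
  obtain ⟨δ₁, hδ₁⟩ : ∃ δ₁ : ℝ, δ * cB / (2 * ((Y.card : ℝ) + 1)) = δ₁ := ⟨_, rfl⟩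
  have hδ₁0 : 0 < δ₁ := by rw [← hδ₁]; positivity
  have hall : ∃ m₁ : ℕ, ∀ m, m₁ ≤ m → ∀ y ∈ Y,
      |∑ χ ∈ (((U m).filter PP).filter (fun χ => Z χ ≤ M)).filter
        (fun χ => (QuotientAddGroup.mk χ : Qc K ⧸ NS hPOQ S) = y), G χ| ≤
        δ₁ * q ^ (2 * m) := by
    choose! f hf using fun y hy => hone y hy δ₁ hδ₁0
    exact ⟨Y.sup f, fun m hm y hy => hf y hy m ((Finset.le_sup (f := f) hy).trans hm)⟩
  obtain ⟨m₁, hm₁⟩ := hall
  refine ⟨max m₁ mB, fun m hm => ?_⟩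
  have h1 := hm₁ m ((le_max_left _ _).trans hm)
  have h2 := hmB m ((le_max_right _ _).trans hm)
  rw [hE] at h2 ⊢
  rw [hEg, ← sum_G, Finset.sum_congr rfl fun χ _ => (hG χ).symm,
    ← Finset.sum_filter_add_sum_filter_not ((U m).filter PP) (fun χ => Z χ ≤ M)]
  have hmaps : ∀ χ ∈ ((U m).filter PP).filter (fun χ => Z χ ≤ M),
      (QuotientAddGroup.mk χ : Qc K ⧸ NS hPOQ S) ∈ Y := by
    intro χ hχ
    rw [hY]
    exact ⟨χ, rfl, (Finset.mem_filter.1 hχ).2⟩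
  have h3 : |∑ χ ∈ ((U m).filter PP).filter (fun χ => Z χ ≤ M), G χ| ≤
      δ * cB / 2 * q ^ (2 * m) := by
    rw [← Finset.sum_fiberwise_of_maps_to hmaps]
    refine (Finset.abs_sum_le_sum_abs _ _).trans ((Finset.sum_le_sum h1).trans ?_)
    rw [Finset.sum_const, nsmul_eq_mul, ← hδ₁]
    have h4 : (Y.card : ℝ) * (δ * cB / (2 * ((Y.card : ℝ) + 1))) ≤ δ * cB / 2 := by
      rw [← mul_div_assoc, div_le_div_iff₀ (by positivity) (by positivity)]
      have : 0 ≤ δ * cB := by positivity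
      nlinarith
    calc (Y.card : ℝ) * (δ * cB / (2 * ((Y.card : ℝ) + 1)) * q ^ (2 * m)) =
        (Y.card : ℝ) * (δ * cB / (2 * ((Y.card : ℝ) + 1))) * q ^ (2 * m) := by ring
      _ ≤ _ := by gcongr
  have h4 : |∑ χ ∈ ((U m).filter PP).filter (fun χ => ¬ Z χ ≤ M), G χ| ≤
      δ * cB / 2 * q ^ (2 * m) := by
    have h5 : ∀ χ, |G χ| ≤ 1 + |α| := by
      intro χ
      rw [hG]
      refine (abs_sub _ _).trans ?_
      have : |(if good χ then (1 : ℝ) else 0)| ≤ 1 := by split_ifs <;> norm_num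
      linarith
    have h6 : ((((U m).filter PP).filter (fun χ => ¬ Z χ ≤ M)).card : ℝ) ≤
        C * (δ * cB / (2 * (1 + |α|) * C)) * q ^ (2 * m) := by
      refine le_trans ?_ (hM m)
      rw [← Set.ncard_coe_finset]
      have h7 : {χ : Qc K | dg F.R (dvs (χ + mkq a₀)) ≤ m ∧
        M < ∑ j ∈ S, dvs (χ + mkq a₀) j * F.R.deg j}.Finite :=
        (hA m).1.subset fun χ hχ => hχ.1
      have h8 : ((((U m).filter PP).filter (fun χ => ¬ Z χ ≤ M) : Finset (Qc K)) :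
          Set (Qc K)) ⊆ {χ : Qc K | dg F.R (dvs (χ + mkq a₀)) ≤ m ∧
        M < ∑ j ∈ S, dvs (χ + mkq a₀) j * F.R.deg j} := by
        intro χ hχ
        rw [Finset.mem_coe, Finset.mem_filter, Finset.mem_filter, hU, hZdef, not_le] at hχ
        exact ⟨hχ.1.1, hχ.2⟩
      exact_mod_cast Set.ncard_le_ncard h8 h7
    refine (Finset.abs_sum_le_sum_abs _ _).trans ((Finset.sum_le_sum fun χ _ => h5 χ).trans ?_)
    rw [Finset.sum_const, nsmul_eq_mul]
    have h9 : 0 < 1 + |α| := by positivity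
    calc ((((U m).filter PP).filter (fun χ => ¬ Z χ ≤ M)).card : ℝ) * (1 + |α|)
        ≤ (C * (δ * cB / (2 * (1 + |α|) * C)) * q ^ (2 * m)) * (1 + |α|) := by gcongr
      _ = _ := by field_simp
  calc |∑ χ ∈ ((U m).filter PP).filter (fun χ => Z χ ≤ M), G χ +
      ∑ χ ∈ ((U m).filter PP).filter (fun χ => ¬ Z χ ≤ M), G χ|
      ≤ δ * cB / 2 * q ^ (2 * m) + δ * cB / 2 * q ^ (2 * m) :=
        (abs_add_le _ _).trans (add_le_add h3 h4)
    _ = δ * (cB * q ^ (2 * m)) := by ring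
    _ ≤ δ * (((U m).filter PP).card : ℝ) := by gcongr

end Pool.Agent.H467.PG.Dst
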