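import Pool.Agent.H467.PG.SpecB

/-!
# From the curve with the coefficients `a ^ 2`, `b ^ 2` to the curve with the coefficients `a`, `b`

Project PG (helper467). Part DWNA.
-/

set_option autoImplicit false
set_option linter.all false

open WeierstrassCurve WeierstrassCurve.Affine WithZero
open Pool.Agent.TH115.GD
open Pool.Agent.H467.CT
open Pool.Agent.H467.GK
open scoped Classical

namespace Pool.Agent.H467.PG.Dwna

section loc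

variable {K L Ω' : Type} [Field K] [CharP K 2] [Field L] [Field Ω'] [Algebra K L] [Algebra L Ω']
  [Algebra K Ω'] [IsScalarTower K L Ω'] [CharP Ω' 2] {a b : K}

theorem locTriv_Fr (hb : b ≠ 0) {f : (Sep K ≃ₐ[K] Sep K) → Pt (cc a b) (Sep K)}
    (h : LocTriv (cc a b) L Ω' f) :
    LocTriv (cc (a ^ 2) (b ^ 2)) L Ω' (fun σ => Fr a b (Sep K) (f σ)) := by
  obtain ⟨ι, P, hP⟩ := h
  refine ⟨ι, Fr a b Ω' P, fun τ σ h => ?_⟩
  have h1 := hP τ σ h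
  rw [Fr_act hb, h1, Fr_sub hb, ← Fr_act hb]

theorem isCoc_Fr (hb : b ≠ 0) {f : (Sep K ≃ₐ[K] Sep K) → Pt (cc a b) (Sep K)}
    (h : IsCoc (cc a b) f) : IsCoc (cc (a ^ 2) (b ^ 2)) (fun σ => Fr a b (Sep K) (f σ)) := by
  refine ⟨h.lc.comp _, fun σ τ => ?_⟩
  show Fr a b (Sep K) (f (σ * τ)) = _
  rw [h.mul, Fr_add hb, ← Fr_act hb]

end loc

section glob

variable {K : Type} [Field K] [CharP K 2] {a b : K}

theorem lTA_Fr (hb : b ≠ 0) {f : (Sep K ≃ₐ[K] Sep K) → Pt (cc a b) (Sep K)}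
    (h : LTA (cc a b) f) : LTA (cc (a ^ 2) (b ^ 2)) (fun σ => Fr a b (Sep K) (f σ)) :=
  fun u hu => locTriv_Fr hb (h u hu)

theorem tt_spec (hb : b ≠ 0) (Ω : Type) [Field Ω] [Algebra K Ω] [CharP Ω 2] :
    ∃ h, TT a b Ω = Point.some 0 (algebraMap K Ω b) h :=
  ⟨_, tt_eq (std_bc2 hb)⟩

/-- The hypothesis for the curve with the coefficients `a ^ 2` and `b ^ 2`. -/
def HH {K : Type} [Field K] [CharP K 2] (a b : K) : Prop :=
  ∀ (c : (Sep K ≃ₐ[K] Sep K) → Pt (cc (a ^ 2) (b ^ 2)) (Sep K))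
    (R : Pt (cc (a ^ 2) (b ^ 2)) (Sep K)),
    IsCoc (cc (a ^ 2) (b ^ 2)) c → LTA (cc (a ^ 2) (b ^ 2)) c →
    (∀ σ, c σ + c σ = act (cc (a ^ 2) (b ^ 2)) (rs K σ) R - R) →
    ∃ S0 : Pt (cc (a ^ 2) (b ^ 2)) (Sep K), (S0 + S0 = R ∨ S0 + S0 = R + TT a b (Sep K)) ∧
      ∀ σ, c σ = act (cc (a ^ 2) (b ^ 2)) (rs K σ) S0 - S0

theorem split (H : HH a b) {g : (Sep K ≃ₐ[K] Sep K) → Pt (cc (a ^ 2) (b ^ 2)) (Sep K)}
    (hg : IsCoc (cc (a ^ 2) (b ^ 2)) g) (hl : LTA (cc (a ^ 2) (b ^ 2)) g) (n : ℕ) :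
    ∀ R : Pt (cc (a ^ 2) (b ^ 2)) (Sep K),
      (∀ σ, 2 ^ n • g σ = act (cc (a ^ 2) (b ^ 2)) (rs K σ) R - R) →
      ∃ S : Pt (cc (a ^ 2) (b ^ 2)) (Sep K),
        ∀ σ, g σ = act (cc (a ^ 2) (b ^ 2)) (rs K σ) S - S := by
  induction n with
  | zero => exact fun R hR => ⟨R, fun σ => by rw [← hR, pow_zero, one_smul]⟩
  | succ n ih =>
    intro R hR
    obtain ⟨S0, -, hS0⟩ := H (fun σ => 2 ^ n • g σ) R (IsCoc.nsmulA hg _)
      (LTA.nsmul hl _) (fun σ => by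
        rw [← hR σ, pow_succ (2 : ℕ) n, mul_comm ((2 : ℕ) ^ n) 2, mul_smul, two_smul])
    exact ih S0 hS0

/-- A local cocycle which is killed by a power of two. -/
def Good {K : Type} [Field K] (a b : K) (f : (Sep K ≃ₐ[K] Sep K) → Pt (cc a b) (Sep K)) : Prop :=
  IsCoc (cc a b) f ∧ LTA (cc a b) f ∧
    ∃ (n : ℕ) (R : Pt (cc a b) (Sep K)), ∀ σ, 2 ^ n • f σ = act (cc a b) (rs K σ) R - R

theorem Fr_zero : Fr a b (Sep K) 0 = 0 := rfl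

theorem Fr_nsmul (hb : b ≠ 0) (P : Pt (cc a b) (Sep K)) (n : ℕ) :
    Fr a b (Sep K) (n • P) = n • Fr a b (Sep K) P := by
  induction n with
  | zero => rw [zero_smul, zero_smul, Fr_zero]
  | succ n ih => rw [succ_nsmul, succ_nsmul, Fr_add hb, ih]

theorem Fr_inj (hb : b ≠ 0) {P Q : Pt (cc a b) (Sep K)}
    (h : Fr a b (Sep K) P = Fr a b (Sep K) Q) : P = Q :=
  fr_inj (std_bc (a := a) (Ω := Sep K) hb) (std_bc2 hb) h

theorem Good.split (hb : b ≠ 0) (H : HH a b)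
    {f : (Sep K ≃ₐ[K] Sep K) → Pt (cc a b) (Sep K)} (h : Good a b f) :
    ∃ S : Pt (cc (a ^ 2) (b ^ 2)) (Sep K),
      ∀ σ : Sep K ≃ₐ[K] Sep K,
        Fr a b (Sep K) (f σ) = act (cc (a ^ 2) (b ^ 2)) (rs K σ) S - S := by
  obtain ⟨h1, h2, n, R, hR⟩ := h
  refine Dwna.split H (isCoc_Fr hb h1) (lTA_Fr hb h2) n (Fr a b (Sep K) R) fun σ => ?_
  rw [← Fr_nsmul hb, hR, Fr_sub hb, ← Fr_act hb]

theorem down (hb : b ≠ 0) {f : (Sep K ≃ₐ[K] Sep K) → Pt (cc a b) (Sep K)}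
    {S : Pt (cc (a ^ 2) (b ^ 2)) (Sep K)}
    (hS : ∀ σ : Sep K ≃ₐ[K] Sep K,
      Fr a b (Sep K) (f σ) = act (cc (a ^ 2) (b ^ 2)) (rs K σ) S - S)
    (hsq : IsSquare (XX a b S)) :
    ∃ R : Pt (cc a b) (Sep K), ∀ σ : Sep K ≃ₐ[K] Sep K, f σ = act (cc a b) (rs K σ) R - R := by
  obtain ⟨R, hR⟩ := ker_fr (std_bc (a := a) (Ω := Sep K) hb) (std_bc2 hb) S hsq
  change Fr a b (Sep K) R = S at hR
  refine ⟨R, fun σ => Fr_inj hb ?_⟩
  rw [hS, Fr_sub hb, ← Fr_act hb, hR]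

theorem XX_ne (hb : b ≠ 0) (S : Pt (cc (a ^ 2) (b ^ 2)) (Sep K)) : XX a b S ≠ 0 :=
  xx_ne (std_bc2 (a := a) (Ω := Sep K) hb) S

theorem XX_add (hb : b ≠ 0) (P Q : Pt (cc (a ^ 2) (b ^ 2)) (Sep K)) :
    IsSquare (XX a b (P + Q) * XX a b P * XX a b Q) :=
  xx_add (std_bc2 (a := a) (Ω := Sep K) hb) P Q

theorem XX_sub (hb : b ≠ 0) (P Q : Pt (cc (a ^ 2) (b ^ 2)) (Sep K)) :
    IsSquare (XX a b (P - Q) * XX a b P * XX a b Q) :=
  xx_sub (std_bc2 (a := a) (Ω := Sep K) hb) P Q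

theorem two_kill (hb : b ≠ 0) (H : HH a b)
    {f : (Sep K ≃ₐ[K] Sep K) → Pt (cc a b) (Sep K)} (h : Good a b f) :
    ∃ R : Pt (cc a b) (Sep K), ∀ σ, 2 • f σ = act (cc a b) (rs K σ) R - R := by
  obtain ⟨S, hS⟩ := h.split hb H
  refine down hb (f := fun σ => 2 • f σ) (S := S + S) (fun σ => ?_) ?_
  · rw [Fr_nsmul hb, hS, map_add, two_smul]
    abel
  · obtain ⟨r, hr⟩ := XX_add hb S S
    have h0 := XX_ne hb S
    refine ⟨r / XX a b S, ?_⟩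
    field_simp
    linear_combination hr

theorem same (hb : b ≠ 0) {f f' : (Sep K ≃ₐ[K] Sep K) → Pt (cc a b) (Sep K)}
    {S S' : Pt (cc (a ^ 2) (b ^ 2)) (Sep K)}
    (hS : ∀ σ : Sep K ≃ₐ[K] Sep K,
      Fr a b (Sep K) (f σ) = act (cc (a ^ 2) (b ^ 2)) (rs K σ) S - S)
    (hS' : ∀ σ : Sep K ≃ₐ[K] Sep K,
      Fr a b (Sep K) (f' σ) = act (cc (a ^ 2) (b ^ 2)) (rs K σ) S' - S')
    {w w' e : Sep K} (hw : XX a b S = w ^ 2 * e) (hw' : XX a b S' = w' ^ 2 * e) :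
    ∃ R : Pt (cc a b) (Sep K), ∀ σ : Sep K ≃ₐ[K] Sep K,
      f σ - f' σ = act (cc a b) (rs K σ) R - R := by
  refine down hb (f := fun σ => f σ - f' σ) (S := S - S') (fun σ => ?_) ?_
  · rw [Fr_sub hb, hS, hS', map_sub]
    abel
  · obtain ⟨r, hr⟩ := XX_sub hb S S'
    have h0 := XX_ne hb S
    have h0' := XX_ne hb S'
    rw [hw] at h0
    rw [hw'] at h0'
    rw [hw, hw'] at hr
    have hw0 : w ≠ 0 := by rintro rfl; exact h0 (by ring)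
    have hw0' : w' ≠ 0 := by rintro rfl; exact h0' (by ring)
    have he : e ≠ 0 := by rintro rfl; exact h0 (by ring)
    refine ⟨r / (w * w' * e), ?_⟩
    field_simp
    linear_combination hr

theorem exists_u (hb : b ≠ 0) {t : K} (ht : Bas t) (H : HH a b) {s : Finset K}
    (hs : ∀ d : K, d ≠ 0 → AllFA a b d → ∃ f ∈ s, ∃ y : K, y ≠ 0 ∧ d = f * y ^ 2)
    {f : (Sep K ≃ₐ[K] Sep K) → Pt (cc a b) (Sep K)} (h : Good a b f) :
    ∃ u ∈ s, ∃ (S : Pt (cc (a ^ 2) (b ^ 2)) (Sep K)) (w : Sep K),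
      (∀ σ : Sep K ≃ₐ[K] Sep K,
        Fr a b (Sep K) (f σ) = act (cc (a ^ 2) (b ^ 2)) (rs K σ) S - S) ∧
      XX a b S = w ^ 2 * algebraMap K (Sep K) u := by
  obtain ⟨S, hS⟩ := h.split hb H
  obtain ⟨d, w, hd0, hw, hd⟩ := exists_dd hb ht hS
  obtain ⟨u, hu, y, hy, e⟩ := hs d hd0 (fun v hv => F_loc hb hS hw hd (h.2.1 v hv))
  refine ⟨u, hu, S, w * algebraMap K (Sep K) y, hS, ?_⟩
  rw [hd, e, map_mul, map_pow]
  ring

theorem fin_sha (hb : b ≠ 0) {t : K} (ht : Bas t) (H : HH a b) {s : Finset K}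
    (hs : ∀ d : K, d ≠ 0 → AllFA a b d → ∃ f ∈ s, ∃ y : K, y ≠ 0 ∧ d = f * y ^ 2) :
    ∃ F : Finset ((Sep K ≃ₐ[K] Sep K) → Pt (cc a b) (Sep K)),
      ∀ f : (Sep K ≃ₐ[K] Sep K) → Pt (cc a b) (Sep K), Good a b f →
        ∃ g ∈ F, ∃ R : Pt (cc a b) (Sep K), ∀ σ, f σ - g σ = act (cc a b) (rs K σ) R - R := by
  let G : K → ((Sep K ≃ₐ[K] Sep K) → Pt (cc a b) (Sep K)) → Prop := fun u f =>
    ∃ (S : Pt (cc (a ^ 2) (b ^ 2)) (Sep K)) (w : Sep K),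
      (∀ σ : Sep K ≃ₐ[K] Sep K,
        Fr a b (Sep K) (f σ) = act (cc (a ^ 2) (b ^ 2)) (rs K σ) S - S) ∧
      XX a b S = w ^ 2 * algebraMap K (Sep K) u
  refine ⟨s.image (fun u => if h : ∃ f, G u f then h.choose else 0), fun f hf => ?_⟩
  obtain ⟨u, hu, hG⟩ := exists_u hb ht H hs hf
  have hG' : G u f := hG
  have hex : ∃ f, G u f := ⟨f, hG'⟩
  refine ⟨hex.choose, Finset.mem_image.2 ⟨u, hu, ?_⟩, ?_⟩
  · rw [dif_pos hex]
  · obtain ⟨S, w, h1, h2⟩ := hG'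
    obtain ⟨S', w', h1', h2'⟩ := hex.choose_spec
    exact same hb h1 h1' h2 h2'

theorem fin_pts (hfn : S_FN2A) (k : Type) [Field k] [Finite k] [CharP k 2] [Algebra k K]
    (hff : IsFF k K) (hb : b ≠ 0) (ha : ¬ AS a) (H : HH a b) : Finite (Pt (cc a b) K) := by
  have c2 : (2 : K) = 0 := CharTwo.two_eq_zero
  have ha' : ¬ AS (algebraMap K K a ^ 2) := by
    rintro ⟨z, hz⟩
    apply ha
    refine ⟨z + a, ?_⟩
    have hz' : a ^ 2 = z ^ 2 + z := hz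
    linear_combination hz' - (a ^ 2 + z * a) * c2
  have hfin : Finite (((cc (a ^ 2) (b ^ 2)).baseChange K).toAffine.Point) := by
    refine hfn k K hff _ (algebraMap K K a ^ 2) (algebraMap K K b) (std_bc2 hb) ha' (TT a b K)
      (tt_spec hb K) ?_
    intro P
    obtain ⟨S0, h1, h2⟩ := H (fun _ => 0) (act (cc (a ^ 2) (b ^ 2)) (incl K K (Sep K)) P)
      ⟨IsLocallyConstant.const _, fun σ τ => by rw [map_zero, add_zero]⟩ (lta_zero _)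
      (fun σ => by rw [rs_act_incl, sub_self, add_zero])
    obtain ⟨Q, hQ⟩ := fixed_point (K := K) (F := K) (cc (a ^ 2) (b ^ 2)) S0
      (fun τ => (sub_eq_zero.1 (h2 τ).symm))
    refine ⟨Q, ?_⟩
    rcases h1 with h1 | h1
    · left
      apply act_inj (cc (a ^ 2) (b ^ 2)) (incl K K (Sep K))
      rw [map_add, hQ, h1]
    · right
      apply act_inj (cc (a ^ 2) (b ^ 2)) (incl K K (Sep K))
      rw [map_add, hQ, h1, map_add, TT_act hb]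
  refine Finite.of_injective (Fr a b K) ?_
  intro P Q h
  exact fr_inj (std_bc (a := a) (Ω := K) hb) (std_bc2 hb) h

end glob

theorem dwna : S_FN2A → S_DWNA := by
  intro hfn k K _ _ _ _ _ _ hff a b t hb ht ha H0 ⟨s, hs⟩
  have H : HH a b := fun c R h1 h2 h3 => H0 (TT a b (Sep K)) (tt_spec hb (Sep K)) c R h1 h2 h3
  refine ⟨fin_pts hfn k hff hb ha H, fun f h1 h2 h3 => two_kill hb H ⟨h1, h2, h3⟩, ?_⟩
  obtain ⟨F, hF⟩ := fin_sha hb ht H hs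
  exact ⟨F, fun f h1 h2 h3 => hF f ⟨h1, h2, h3⟩⟩

end Pool.Agent.H467.PG.Dwna
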