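import Pool.Agent.H467.PG.SpecA

/-! Project PG (helper467), part FAV: divisors with few large primes in a set of positive density. -/

set_option autoImplicit false
set_option linter.all false

open Finset Filter
open Pool.Agent.H467.PT
open scoped Classical

namespace Pool.Agent.H467.PG.Fav

variable {ι : Type}

lemma dgf_le (S : PSys ι) {D : ι →₀ ℕ} {p : ι} (hp : p ∈ D.support) :
    D p * S.deg p ≤ dgf S D := by
  unfold dgf Finsupp.sum
  exact Finset.single_le_sum (f := fun p => D p * S.deg p) (fun _ _ => Nat.zero_le _) hp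

lemma fin_dgf (S : PSys ι) (m : ℕ) : {D : ι →₀ ℕ | dgf S D = m}.Finite := by
  apply Set.Finite.subset (Finset.finite_toSet (Finset.finsupp (S.le m) (fun _ => Finset.range (m + 1))))
  intro D hD
  have hD' : dgf S D = m := hD
  rw [Finset.mem_coe, Finset.mem_finsupp_iff]
  constructor
  · intro p hp
    rw [S.mem_le]
    have h1 := dgf_le S hp
    have h2 : 1 ≤ D p := Nat.one_le_iff_ne_zero.mpr (Finsupp.mem_support_iff.mp hp)
    calc S.deg p = 1 * S.deg p := (one_mul _).symm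
      _ ≤ D p * S.deg p := Nat.mul_le_mul_right _ h2
      _ ≤ m := by rw [← hD']; exact h1
  · intro p _
    rw [Finset.mem_range]
    by_cases h0 : D p = 0
    · omega
    · have h1 := dgf_le S (Finsupp.mem_support_iff.mpr h0)
      have h2 : 1 ≤ S.deg p := S.pos p
      have h3 : D p ≤ D p * S.deg p := Nat.le_mul_of_pos_right _ h2
      omega

lemma exists_Y {c' C'' A : ℝ} (hc : 0 < c') (hA : 0 < A) (L : ℕ) {η : ℝ} (hη : 0 < η) :
    ∃ Y : ℕ, L ≤ Y ∧
      A * Real.exp (-(1 / 2) * (c' * Real.log (((Y : ℝ) + 1) / ((L : ℝ) + 1)) - C'')) ≤ η := by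
  have h1 : Tendsto (fun Y : ℕ => Real.log (((Y : ℝ) + 1) / ((L : ℝ) + 1))) atTop atTop := by
    apply Real.tendsto_log_atTop.comp
    apply Tendsto.atTop_div_const (by positivity)
    exact tendsto_atTop_add_const_right _ _ tendsto_natCast_atTop_atTop
  have h2 : Tendsto (fun Y : ℕ => A * Real.exp (-(1 / 2) * (c' *
      Real.log (((Y : ℝ) + 1) / ((L : ℝ) + 1)) - C''))) atTop (nhds (A * 0)) := by
    apply Tendsto.const_mul
    apply Real.tendsto_exp_atBot.comp
    have h3 : Tendsto (fun Y : ℕ => c' * Real.log (((Y : ℝ) + 1) / ((L : ℝ) + 1)) - C'')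
        atTop atTop := by
      simp only [sub_eq_add_neg]
      exact tendsto_atTop_add_const_right _ _ (h1.const_mul_atTop hc)
    exact h3.const_mul_atTop_of_neg (by norm_num)
  rw [mul_zero] at h2
  have h4 := (h2.eventually (ge_mem_nhds hη)).and (eventually_ge_atTop L)
  obtain ⟨Y, hY1, hY2⟩ := h4.exists
  exact ⟨Y, hY2, hY1⟩

theorem fav : S_HALG → S_TRF → S_FAV := by
  intro hH hT ι S q C c W n₀ hP I hI
  obtain ⟨c', C'', hc', hden⟩ := hI
  obtain ⟨C₁, hC₁, hH⟩ := hH ι S q C c W n₀ hP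
  obtain ⟨C₂, hC₂, hT⟩ := hT ι S q C c W n₀ hP
  have hq : (0 : ℝ) < q := by
    have := hP.q2
    exact_mod_cast (by omega : 0 < q)
  -- the case `1 ≤ L`
  have main : ∀ (L C₀ : ℕ) (ε : ℝ), 1 ≤ L → 0 < ε → ∃ m₀ : ℕ, ∀ m, m₀ ≤ m →
      ({D : ι →₀ ℕ | dgf S D = m ∧ (∀ p, L < S.deg p → D p ≤ 1) ∧
        (D.support.filter (fun p => L < S.deg p ∧ p ∈ I)).card < C₀}.ncard : ℝ) ≤
          ε * (q : ℝ) ^ m := by
    intro L C₀ ε hL hε
    have hL' : (0 : ℝ) < L := by exact_mod_cast hL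
    set η : ℝ := ε / (2 * C₂ * L) with hη
    have hη0 : 0 < η := by positivity
    obtain ⟨Y, hLY, hY⟩ := exists_Y (C'' := C'') hc' (A := 2 ^ C₀ * C₁) (by positivity) L hη0
    obtain ⟨Q, hQ⟩ : ∃ Q : Finset ι → Prop, ∀ U, Q U ↔
      (U.filter (fun p => L < S.deg p ∧ p ∈ I)).card < C₀ := ⟨_, fun _ => Iff.rfl⟩
    obtain ⟨m₀, hm₀⟩ := hT L hL Q η
      hη0.le (by
        refine ⟨Y, fun n hn => ?_⟩
        have h1 := hH I L Y n
        rw [min_eq_left hn] at h1
        have h2 := hden L Y hLY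
        have h3 : (((S.UU n).filter (fun U => Q U)).card : ℝ) ≤
            2 ^ C₀ * ∑ U ∈ S.UU n, (1 / 2 : ℝ) ^ (cntI S I L Y U) := by
          rw [Finset.card_eq_sum_ones, Nat.cast_sum, Finset.mul_sum, Finset.sum_filter]
          apply Finset.sum_le_sum
          intro U _
          split_ifs with h
          · have h4 : cntI S I L Y U ≤ C₀ := by
              refine le_trans ?_ ((hQ U).mp h).le
              apply Finset.card_le_card
              intro p hp
              rw [Finset.mem_filter] at hp ⊢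
              exact ⟨hp.1, hp.2.2.1, hp.2.1⟩
            have h5 : (1 / 2 : ℝ) ^ C₀ ≤ (1 / 2 : ℝ) ^ (cntI S I L Y U) :=
              pow_le_pow_of_le_one (by norm_num) (by norm_num) h4
            have h6 : (2 : ℝ) ^ C₀ * (1 / 2 : ℝ) ^ C₀ = 1 := by
              rw [← mul_pow]; norm_num
            have h7 : (0 : ℝ) < 2 ^ C₀ := by positivity
            push_cast
            nlinarith
          · positivity
        have h8 : Real.exp (-(1 / 2) * ∑ l ∈ Ioc L Y, (cI S I l : ℝ) / (q : ℝ) ^ l) ≤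
            Real.exp (-(1 / 2) * (c' * Real.log (((Y : ℝ) + 1) / ((L : ℝ) + 1)) - C'')) := by
          apply Real.exp_le_exp.mpr
          linarith
        calc (((S.UU n).filter (fun U => Q U)).card : ℝ)
            ≤ 2 ^ C₀ * ∑ U ∈ S.UU n, (1 / 2 : ℝ) ^ (cntI S I L Y U) := h3
          _ ≤ 2 ^ C₀ * (C₁ * (q : ℝ) ^ n *
              Real.exp (-(1 / 2) * ∑ l ∈ Ioc L Y, (cI S I l : ℝ) / (q : ℝ) ^ l)) := by
            apply mul_le_mul_of_nonneg_left h1 (by positivity)
          _ ≤ 2 ^ C₀ * (C₁ * (q : ℝ) ^ n *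
              Real.exp (-(1 / 2) * (c' * Real.log (((Y : ℝ) + 1) / ((L : ℝ) + 1)) - C''))) := by
            apply mul_le_mul_of_nonneg_left _ (by positivity)
            apply mul_le_mul_of_nonneg_left h8 (by positivity)
          _ = (2 ^ C₀ * C₁ *
              Real.exp (-(1 / 2) * (c' * Real.log (((Y : ℝ) + 1) / ((L : ℝ) + 1)) - C''))) *
                (q : ℝ) ^ n := by ring
          _ ≤ η * (q : ℝ) ^ n := mul_le_mul_of_nonneg_right hY (by positivity)) (ε / 2) (by positivity)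
    simp only [hQ] at hm₀
    refine ⟨m₀, fun m hm => (hm₀ m hm).trans (le_of_eq ?_)⟩
    have : C₂ * L * η + ε / 2 = ε := by
      rw [hη]
      field_simp
      ring
    rw [this]
  intro L C₀ ε hε
  rcases Nat.eq_zero_or_pos L with rfl | hL
  · obtain ⟨m₀, hm₀⟩ := main 1 C₀ ε le_rfl hε
    refine ⟨m₀, fun m hm => le_trans ?_ (hm₀ m hm)⟩
    have hsub : {D : ι →₀ ℕ | dgf S D = m ∧ (∀ p, 0 < S.deg p → D p ≤ 1) ∧
        (D.support.filter (fun p => 0 < S.deg p ∧ p ∈ I)).card < C₀} ⊆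
        {D : ι →₀ ℕ | dgf S D = m ∧ (∀ p, 1 < S.deg p → D p ≤ 1) ∧
        (D.support.filter (fun p => 1 < S.deg p ∧ p ∈ I)).card < C₀} := by
      rintro D ⟨h1, h2, h3⟩
      refine ⟨h1, fun p hp => h2 p (by omega), lt_of_le_of_lt ?_ h3⟩
      apply Finset.card_le_card
      intro p hp
      rw [Finset.mem_filter] at hp ⊢
      exact ⟨hp.1, by omega, hp.2.2⟩
    have hfin : {D : ι →₀ ℕ | dgf S D = m ∧ (∀ p, 1 < S.deg p → D p ≤ 1) ∧
        (D.support.filter (fun p => 1 < S.deg p ∧ p ∈ I)).card < C₀}.Finite :=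
      (fin_dgf S m).subset fun D hD => hD.1
    exact_mod_cast Set.ncard_le_ncard hsub hfin
  · exact main L C₀ ε hL hε

end Pool.Agent.H467.PG.Fav

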