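import Pool.Agent.H467.PG.SpecB
import Pool.Agent.H467.GK.Hen

/-!
# Project PG (helper467): finitely many classes `d`
-/

set_option autoImplicit false
set_option linter.all false

open Finset Filter WithZero
open Pool.Agent.H467.GK
open Pool.Agent.H467.CT (AS Ev LF)
open scoped Classical

namespace Pool.Agent.H467.PG.Ffi

theorem supp {k K : Type} [Field k] [Field K] [Algebra k K] (R : GFR k K) (a : K) :
    ∃ s : Finset (PV K), ∀ j : PV K, j ∉ s → j.1 a ≤ 1 ∧ (a ≠ 0 → j.1 a = 1) := by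
  by_cases ha : a = 0
  · refine ⟨∅, fun j _ => ⟨?_, fun h => absurd ha h⟩⟩
    rw [ha, map_zero]
    exact zero_le'
  · obtain ⟨D, hD, _⟩ := R.dvd a ha
    refine ⟨D.support, fun j hj => ?_⟩
    have h1 : j.1 a = 1 := by
      rw [hD j, Finsupp.notMem_support_iff.1 hj]
      exact exp_zero
    exact ⟨h1.le, fun _ => h1⟩

theorem ffi : S_FFI := by
  intro k K _ _ _ _ _ F a b hb
  obtain ⟨sa, hsa⟩ := supp F.R a
  obtain ⟨sb, hsb⟩ := supp F.R b
  obtain ⟨u, hu⟩ := F.uni (F.B₁ ∪ (sa ∪ sb)) Finset.subset_union_left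
  refine ⟨(Finset.univ : Finset (Fin ((F.B₁ ∪ (sa ∪ sb)).card - 1) → ZMod 2)).image
    (fun e => ∏ i, u i ^ (e i).val), ?_⟩
  intro d hd hA
  obtain ⟨e, y, hy, hdy⟩ := hu.gen d hd (by
    intro j hj
    rw [Finset.mem_union, Finset.mem_union, not_or, not_or] at hj
    have ha1 := (hsa j hj.2.1).1
    have hb1 := (hsb j hj.2.2).2 hb
    have hL := hA j.1 j.2
    have hinj := (algebraMap K (Cm j.1)).injective
    have hb0 : algebraMap K (Cm j.1) b ≠ 0 := (map_ne_zero_iff _ hinj).2 hb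
    have hd0 : algebraMap K (Cm j.1) d ≠ 0 := (map_ne_zero_iff _ hinj).2 hd
    have hva := Hen.vc_alg j.1 a
    have hvb := Hen.vc_alg j.1 b
    have hvd := Hen.vc_alg j.1 d
    have h1 := Pool.Agent.H467.CT.F1 (w := vc j.1) (a := algebraMap K (Cm j.1) a)
      (b := algebraMap K (Cm j.1) b) (d := algebraMap K (Cm j.1) d)
      (by rw [hva]; exact ha1) (by rw [hvb]; exact hb1.le)
      (by
        rw [hvb, hb1]
        exact ⟨0, by rw [mul_zero, exp_zero]⟩)
      hb0 hd0
      (by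
        intro h
        rw [hvb, hb1] at h
        exact absurd h (lt_irrefl _)) hL
    rwa [hvd] at h1)
  exact ⟨_, Finset.mem_image.2 ⟨e, Finset.mem_univ _, rfl⟩, y, hy, hdy⟩

end Pool.Agent.H467.PG.Ffi
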