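import Pool.Agent.H467.PG.SpecB

/-!
# PG FIB: the distribution in a fibre (helper81; parts by helper967 (FibC), helper643 (FibK),
helper767 (FibN))
-/

set_option autoImplicit false
set_option linter.all false

section
/-
# The distribution in a fibre: statements of the parts
-/


open Finset Filter WithZero
open Pool.Agent.H467.PT
open Pool.Agent.H467.GK
open Pool.Agent.H467.CT (AS Bas Ev)
open scoped Classical

namespace Pool.Agent.H467.PG

/-- Lower bound for the number of the elements of `AJ`. -/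
def S_FIBC : Prop := ∀ (k K : Type) [Field k] [Finite k] [Field K] [CharP K 2] [Algebra k K]
  (F : GF k K) (B : Finset (PV K)) (bd : BD F B) (U : Finset (Ob B)) (L : ℕ),
  (AJ F.R B U L).Finite ∧
  (Nat.card k : ℝ) ^ ((sysB F.R B).dg (U.filter (fun p => L < F.R.deg p.1))) ≤
    ((AJ F.R B U L).ncard : ℝ) * 2 ^ (B.card + (U.filter (fun p => F.R.deg p.1 ≤ L)).card)

/-- The column `v₀` is dependent of the others. -/
def S_FIBK : Prop := ∀ (k K : Type) [Field k] [Finite k] [Field K] [CharP K 2] [Algebra k K]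
  (F : GF k K) (B : Finset (PV K)) (bd : BD F B) (U : Finset (Ob B)) (χ : Qc K) (v₀ : Ob B),
  v₀ ∈ U → (∀ j : Ob B, j ∉ U → poq j.1 χ = 0) → poq v₀.1 χ ≠ 0 →
  ∀ e : Fin bd.n ⊕ U → ZMod 2, (∀ j ∈ B, ∑ i, e i * tt F.G j (ro bd U i) χ = 0) →
    (∀ j ∈ U, j ≠ v₀ → ∑ i, e i * tt F.G j.1 (ro bd U i) χ = 0) → e ∈ LK bd U χ

/-- Few classes are unramified at `p`. -/
def S_FIBN : Prop := ∀ (k K : Type) [Field k] [Finite k] [Field K] [CharP K 2] [Algebra k K]
  (F : GF k K) (B : Finset (PV K)) (bd : BD F B) (U : Finset (Ob B)) (L : ℕ) (χ₁ : Qc K)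
  (p p₀ : Ob B), p ∈ U → L < F.R.deg p.1 → p₀ ∈ U → L < F.R.deg p₀.1 → p₀ ≠ p →
  (∀ V ⊆ U, p₀ ∉ V → ∀ e, (V.Nonempty ∨ e ≠ 0) → ¬ Rl bd p₀ V e) →
  Nat.card k ^ F.R.deg p.1 * {χ | χ + χ₁ ∈ AJ F.R B U L ∧ poq p.1 χ = 0}.ncard ≤
    (AJ F.R B U L).ncard

end Pool.Agent.H467.PG

end

section
/-
# The distribution in a fibre: elementary lemmas
-/


open Finset Filter WithZero
open Pool.Agent.H467.PT
open Pool.Agent.H467.GK
open Pool.Agent.H467.CT (AS Bas Ev)
open scoped Classical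

namespace Pool.Agent.H467.PG.Fib

section basic

variable {K : Type} [Field K] [CharP K 2]

theorem qself (χ : Qc K) : χ + χ = 0 := by
  obtain ⟨a, rfl⟩ := QuotientAddGroup.mk_surjective χ
  rw [← QuotientAddGroup.mk_add, CharTwo.add_self_eq_zero]
  rfl

theorem qneg (χ : Qc K) : -χ = χ := neg_eq_of_add_eq_zero_left (qself χ)

theorem qcan (χ a : Qc K) : χ + a + χ = a := by
  rw [add_comm χ a, add_assoc, qself, add_zero]

theorem spl_zero (j : PV K) : Spl j (0 : Qc K) := ⟨0, rfl, by rw [map_zero]; exact zero_lt_one⟩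

theorem ple_zero (j : PV K) (γ : WithZero (Multiplicative ℤ)) : Ple j γ (0 : Qc K) :=
  ⟨0, rfl, by rw [map_zero]; exact zero_le'⟩

theorem ple_one (hPOQ : S_POQ) (j : PV K) (χ : Qc K) :
    Ple j (exp (1 : ℤ)) χ ↔ poq j χ ≤ 1 := by
  have h := (hPOQ K j).2.2.2.1 χ 1
  rwa [Nat.cast_one] at h

theorem ple_zro (hPOQ : S_POQ) (j : PV K) (χ : Qc K) : Ple j 1 χ ↔ poq j χ = 0 :=
  ((hPOQ K j).2.2.2.2.1 χ).symm

theorem spl_add (hPOQ : S_POQ) (j : PV K) {χ χ' : Qc K} (h : Spl j χ) (h' : Spl j χ') :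
    Spl j (χ + χ') := (hPOQ K j).2.2.2.2.2.1 χ χ' h h'

theorem poq_spl (hPOQ : S_POQ) (j : PV K) {χ : Qc K} (h : Spl j χ) : poq j χ = 0 :=
  (hPOQ K j).2.2.2.2.2.2.1 χ h

theorem poq_add (hPOQ : S_POQ) (j : PV K) (χ χ' : Qc K) :
    poq j (χ + χ') ≤ max (poq j χ) (poq j χ') := (hPOQ K j).2.2.2.2.2.2.2.1 χ χ'

theorem poq_eq (hPOQ : S_POQ) (j : PV K) {χ χ' : Qc K} (h : Spl j (χ + χ')) :
    poq j χ = poq j χ' := (hPOQ K j).2.2.2.2.2.2.2.2.1 χ χ' h

theorem poq_tr (hPOQ : S_POQ) (j : PV K) {χ a : Qc K} (h : Spl j a) :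
    poq j (χ + a) = poq j χ := by
  apply poq_eq hPOQ
  rwa [qcan]

theorem tt_tr (hPOQ : S_POQ) (hSYM : S_SYM) (G : GFS K) (j : PV K)
    (hf : Finite (IsLocalRing.ResidueField j.1.valuationSubring)) {d : K} (hd : d ≠ 0)
    {χ a : Qc K} (h : Spl j a) : tt G j d (χ + a) = tt G j d χ := by
  unfold tt
  rw [poq_tr hPOQ j h]
  split_ifs with h1 h2
  · rfl
  · rfl
  · rw [(hSYM K G j hf).2.1 χ a d hd, (hSYM K G j hf).2.2.2.2.1 a d hd h, add_zero]

end basic

section grp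

variable {k K : Type} [Field k] [Field K] [CharP K 2] [Algebra k K]

theorem finres [Finite k] (R : GFR k K) (j : PV K) :
    Finite (IsLocalRing.ResidueField j.1.valuationSubring) := by
  apply Nat.finite_of_card_ne_zero
  rw [R.resc]
  exact pow_ne_zero _ Nat.card_pos.ne'

/-- `AJ` is a group. -/
def AJs (hPOQ : S_POQ) (R : GFR k K) (B : Finset (PV K)) (U : Finset (Ob B)) (L : ℕ) :
    AddSubgroup (Qc K) where
  carrier := AJ R B U L
  zero_mem' := ⟨fun j _ => spl_zero j, fun j _ _ => spl_zero j.1, fun j _ _ => ple_zero j.1 _,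
    fun j _ => ple_zero j.1 _⟩
  add_mem' := by
    rintro a b ⟨h1, h2, h3, h4⟩ ⟨h1', h2', h3', h4'⟩
    refine ⟨fun j hj => spl_add hPOQ j (h1 j hj) (h1' j hj),
      fun j hj hl => spl_add hPOQ j.1 (h2 j hj hl) (h2' j hj hl), fun j hj hl => ?_,
      fun j hj => ?_⟩
    · have e1 := (ple_one hPOQ j.1 a).1 (h3 j hj hl)
      have e2 := (ple_one hPOQ j.1 b).1 (h3' j hj hl)
      rw [ple_one hPOQ]
      exact (poq_add hPOQ j.1 a b).trans (max_le e1 e2)
    · have e1 := (ple_zro hPOQ j.1 a).1 (h4 j hj)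
      have e2 := (ple_zro hPOQ j.1 b).1 (h4' j hj)
      rw [ple_zro hPOQ]
      have := poq_add hPOQ j.1 a b
      rw [e1, e2] at this
      simpa using this
  neg_mem' := by
    intro x hx
    rw [qneg]
    exact hx

theorem mem_AJs (hPOQ : S_POQ) (R : GFR k K) (B : Finset (PV K)) (U : Finset (Ob B)) (L : ℕ)
    (a : Qc K) : a ∈ AJs hPOQ R B U L ↔ a ∈ AJ R B U L := Iff.rfl

variable {F : GF k K} {B : Finset (PV K)}

theorem ro_ne (bd : BD F B) (U : Finset (Ob B)) (i : Fin bd.n ⊕ U) : ro bd U i ≠ 0 := by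
  rcases i with i | i
  · exact bd.une i
  · exact bd.gne i.1

theorem nB0 (bd : BD F B) (j : Ob B) : j.1 ∉ F.G.B₀ := fun h => j.2 (bd.sub (F.hB h))

/-- Products of rows. -/
theorem prod_ro (bd : BD F B) (U : Finset (Ob B)) (e : Fin bd.n ⊕ U → ZMod 2) :
    ∏ i, ro bd U i ^ (e i).val =
      pd bd.u bd.g ((Finset.univ.filter (fun P : U => e (Sum.inr P) ≠ 0)).map
        (Function.Embedding.subtype _)) (fun i => e (Sum.inl i)) := by
  rw [Fintype.prod_sum_type, mul_comm, pd, Finset.prod_map, Finset.prod_filter]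
  refine congrArg₂ _ (Finset.prod_congr rfl fun P _ => ?_) rfl
  have h2 : ∀ x : ZMod 2, x = 0 ∨ x = 1 := by decide
  rcases h2 (e (Sum.inr P)) with h | h
  · rw [h, if_neg (by simp)]
    simp
  · rw [h, if_pos (by simp)]
    have : (1 : ZMod 2).val = 1 := rfl
    rw [this, pow_one]
    rfl

/-- The value of a product of rows. -/
theorem val_pd (bd : BD F B) (V : Finset (Ob B)) (e : Fin bd.n → ZMod 2) (p : Ob B) :
    p.1.1 (pd bd.u bd.g V e) = if p ∈ V then exp (-1 : ℤ) else 1 := by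
  rw [pd, map_mul, map_prod, map_prod]
  have h1 : ∏ i, p.1.1 (bd.u i ^ (e i).val) = 1 := by
    apply Finset.prod_eq_one
    intro i _
    rw [map_pow, bd.uun i p, one_pow]
  rw [h1, mul_one]
  split_ifs with h
  · rw [← Finset.mul_prod_erase V _ h, bd.gor]
    have h2 : ∏ x ∈ V.erase p, p.1.1 (bd.g x) = 1 := by
      apply Finset.prod_eq_one
      intro P hP
      exact bd.gun P p (Finset.ne_of_mem_erase hP).symm
    rw [h2, mul_one]
  · apply Finset.prod_eq_one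
    intro P hP
    exact bd.gun P p (fun e => h (e ▸ hP))

end grp

section count

theorem sum_sub {α β : Type} [Fintype α] [DecidableEq β] (U : Finset β) (v₀ : β) {M : Type} [AddCommMonoid M]
    (f : α ⊕ {p // p ∈ U.erase v₀} → M) (c : M) (g : β → M) (h1 : ∀ a, f (Sum.inl a) = c)
    (h2 : ∀ p, f (Sum.inr p) = g p.1) (h3 : g v₀ = 0) :
    ∑ l, f l = Fintype.card α • c + ∑ p ∈ U, g p := by
  rw [Fintype.sum_sum_type, Finset.sum_congr rfl fun a _ => h1 a,
    Finset.sum_congr rfl fun a _ => h2 a, Finset.sum_const, Finset.card_univ,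
    Finset.sum_coe_sort (U.erase v₀) g, Finset.sum_erase _ h3]

theorem card_inr {α β : Type} [Fintype α] [DecidableEq β] (U : Finset β) (v₀ : β)
    (Q : β → Prop) [DecidablePred Q] (hv : ¬ Q v₀) :
    (univ.filter (fun l : α ⊕ {p // p ∈ U.erase v₀} =>
      Sum.elim (fun _ => False) (fun p => Q p.1) l)).card = (U.filter Q).card := by
  rw [Finset.card_filter, Finset.card_filter, sum_sub U v₀ _ 0 (fun p => if Q p then 1 else 0)]
  · simp
  · intro a
    exact if_neg (fun h => h)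
  · intro p
    exact if_congr Iff.rfl rfl rfl
  · exact if_neg hv

theorem card_inl {α β : Type} [Fintype α] [DecidableEq β] (U : Finset β) (v₀ : β)
    (Q : β → Prop) [DecidablePred Q] (hv : ¬ Q v₀) :
    (univ.filter (fun l : α ⊕ {p // p ∈ U.erase v₀} =>
      Sum.elim (fun _ => True) (fun p => Q p.1) l)).card = Fintype.card α + (U.filter Q).card := by
  rw [Finset.card_filter, Finset.card_filter, sum_sub U v₀ _ 1 (fun p => if Q p then 1 else 0)]
  · simp
  · intro a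
    exact if_pos trivial
  · intro p
    exact if_congr Iff.rfl rfl rfl
  · exact if_neg hv

theorem sum_inr {α β : Type} [Fintype α] [DecidableEq β] (U : Finset β) (v₀ : β)
    (Q : β → Prop) [DecidablePred Q]
    (f : α ⊕ {p // p ∈ U.erase v₀} → ℝ) (g : β → ℝ) (h : ∀ p, Q p.1 → f (Sum.inr p) = g p.1) :
    ∑ l ∈ univ.filter (fun l : α ⊕ {p // p ∈ U.erase v₀} =>
      Sum.elim (fun _ => False) (fun p => Q p.1) l), f l =
        ∑ p ∈ U.filter (fun p => Q p ∧ p ≠ v₀), g p := by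
  rw [Finset.sum_filter, Finset.sum_filter, sum_sub U v₀ _ 0
    (fun p => if Q p ∧ p ≠ v₀ then g p else 0)]
  · simp
  · intro a
    exact if_neg (fun h => h)
  · intro p
    have hp : p.1 ≠ v₀ := Finset.ne_of_mem_erase p.2
    by_cases hQ : Q p.1
    · exact (if_pos hQ).trans ((h p hQ).trans (if_pos ⟨hQ, hp⟩).symm)
    · exact (if_neg hQ).trans (if_neg (fun h => hQ h.1)).symm
  · exact if_neg (fun h => h.2 rfl)

theorem card_conv {ι : Type} (U : Finset ι) (P P' : ι → Prop) (i1 : DecidablePred P)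
    (i2 : DecidablePred P') (h : ∀ p, P p ↔ P' p) :
    (@Finset.filter ι P i1 U).card = (@Finset.filter ι P' i2 U).card := by
  obtain rfl : P = P' := funext fun p => propext (h p)
  obtain rfl : i1 = i2 := Subsingleton.elim _ _
  rfl

theorem sum_conv {ι : Type} (U : Finset ι) (P P' : ι → Prop) (i1 : DecidablePred P)
    (i2 : DecidablePred P') (h : ∀ p, P p ↔ P' p) (f g : ι → ℝ) (h2 : ∀ p, f p = g p) :
    ∑ j ∈ @Finset.filter ι P i1 U, f j = ∑ j ∈ @Finset.filter ι P' i2 U, g j := by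
  obtain rfl : P = P' := funext fun p => propext (h p)
  obtain rfl : i1 = i2 := Subsingleton.elim _ _
  exact Finset.sum_congr rfl fun j _ => h2 j

theorem card_inr2 {α β : Type} [Fintype α] [DecidableEq β] (U : Finset β) (v₀ : β)
    (P : α ⊕ {p // p ∈ U.erase v₀} → Prop) (iP : DecidablePred P)
    (Q : β → Prop) (iQ : DecidablePred Q) (hl : ∀ a, ¬ P (Sum.inl a))
    (hr : ∀ p, P (Sum.inr p) ↔ Q p.1) (hv : ¬ Q v₀) :
    (@Finset.filter _ P iP univ).card = (@Finset.filter _ Q iQ U).card := by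
  refine (card_conv univ _ _ iP _ (fun l => ?_)).trans (card_inr U v₀ Q hv)
  rcases l with a | p
  · exact ⟨fun h => hl a h, fun h => absurd h id⟩
  · exact hr p

theorem sum_inr2 {α β : Type} [Fintype α] [DecidableEq β] (U : Finset β) (v₀ : β)
    (P : α ⊕ {p // p ∈ U.erase v₀} → Prop) (iP : DecidablePred P)
    (Q Q' : β → Prop) (iQ : DecidablePred Q') (hl : ∀ a, ¬ P (Sum.inl a))
    (hr : ∀ p, P (Sum.inr p) ↔ Q p.1) (hQ : ∀ p, Q p ∧ p ≠ v₀ ↔ Q' p)
    (f : α ⊕ {p // p ∈ U.erase v₀} → ℝ) (g : β → ℝ) (h : ∀ p, Q p.1 → f (Sum.inr p) = g p.1) :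
    ∑ l ∈ @Finset.filter _ P iP univ, f l = ∑ p ∈ @Finset.filter _ Q' iQ U, g p := by
  refine (sum_conv univ _ _ iP _ (fun l => ?_) _ _ (fun _ => rfl)).trans
    ((sum_inr U v₀ Q f g h).trans (sum_conv U _ _ _ _ hQ _ _ (fun _ => rfl)))
  rcases l with a | p
  · exact ⟨fun h => hl a h, fun h => absurd h id⟩
  · exact hr p

theorem card_rows {β : Type} (n : ℕ) (U : Finset β) (Q : β → Prop) [DecidablePred Q] :
    (univ.filter (fun i : Fin n ⊕ U => Sum.elim (fun _ => True) (fun P => Q P.1) i)).card =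
      n + (U.filter Q).card := by
  rw [Finset.card_filter, Fintype.sum_sum_type, Finset.card_filter]
  have h1 : ∀ a : Fin n, (if Sum.elim (fun _ => True) (fun P : U => Q P.1) (Sum.inl a) then 1
      else 0) = 1 := fun a => if_pos trivial
  have h2 : ∀ p : U, (if Sum.elim (fun _ : Fin n => True) (fun P : U => Q P.1) (Sum.inr p) then 1
      else 0) = (fun p : β => if Q p then 1 else 0) p.1 := fun p => if_congr Iff.rfl rfl rfl
  rw [Finset.sum_congr rfl fun a _ => h1 a, Finset.sum_congr rfl fun a _ => h2 a,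
    Finset.sum_coe_sort U (fun p => if Q p then 1 else 0)]
  simp

end count

end Pool.Agent.H467.PG.Fib

end

section
/-
# The distribution in a fibre: prescribed columns and the coset
-/


open Finset Filter WithZero
open Pool.Agent.H467.PT
open Pool.Agent.H467.GK
open Pool.Agent.H467.CT (AS Bas Ev)
open scoped Classical

namespace Pool.Agent.H467.PG.Fib

section grp

variable {k K : Type} [Field k] [Field K] [CharP K 2] [Algebra k K] {F : GF k K}
  {B : Finset (PV K)}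

theorem not_Ev : ¬ Ev (exp (-1 : ℤ)) := by
  rintro ⟨n, hn⟩
  have : (-1 : ℤ) = 2 * n := exp_injective hn
  omega

/-- The product of the rows in a set is not a square modulo the square of the maximal ideal. -/
theorem rows_free [Finite k] (hSYM : S_SYM) (bd : BD F B) (U : Finset (Ob B)) (L : ℕ) (θ : ℝ)
    (hgood : GoodG (sysB F.R B) (Nat.card k) (Rl bd) L θ U) (p : Ob B) (hp : p ∈ U)
    (hpL : L < F.R.deg p.1) (e : Fin bd.n ⊕ U → ZMod 2) (he0 : e ≠ 0)
    (he : ∀ P : U, e (Sum.inr P) ≠ 0 → F.R.deg P.1.1 ≤ Yf (F.R.deg p.1)) :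
    ¬ p.1.1 (dl F.G.t (∏ i, ro bd U i ^ (e i).val)) < 1 := by
  rw [prod_ro]
  set V : Finset (Ob B) := (Finset.univ.filter (fun P : U => e (Sum.inr P) ≠ 0)).map
    (Function.Embedding.subtype _) with hV
  set e' : Fin bd.n → ZMod 2 := fun i => e (Sum.inl i) with he'
  have hmem : ∀ P : Ob B, P ∈ V ↔ ∃ h : P ∈ U, e (Sum.inr ⟨P, h⟩) ≠ 0 := by
    intro P
    rw [hV, Finset.mem_map]
    constructor
    · rintro ⟨Q, hQ, rfl⟩
      exact ⟨Q.2, (Finset.mem_filter.1 hQ).2⟩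
    · rintro ⟨h, h2⟩
      exact ⟨⟨P, h⟩, Finset.mem_filter.2 ⟨Finset.mem_univ _, h2⟩, rfl⟩
  have hVU : V ⊆ U := fun P hP => ((hmem P).1 hP).1
  have hne : V.Nonempty ∨ e' ≠ 0 := by
    by_contra hcon
    push Not at hcon
    apply he0
    funext i
    rcases i with i | i
    · exact congrFun hcon.2 i
    · by_contra h
      have : i.1 ∈ V := (hmem i.1).2 ⟨i.2, h⟩
      rw [hcon.1] at this
      simp at this
  have hpd : pd bd.u bd.g V e' ≠ 0 := by
    unfold pd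
    exact mul_ne_zero (Finset.prod_ne_zero_iff.2 fun P _ => bd.gne P)
      (Finset.prod_ne_zero_iff.2 fun i _ => pow_ne_zero _ (bd.une i))
  by_cases hpV : p ∈ V
  · intro hlt
    have h8 := ((hSYM K F.G p.1 (finres F.R p.1)).2.2.2.2.2.2.2 (nB0 bd p) _ hpd).2.2.1
    have hval := val_pd bd V e' p
    rw [if_pos hpV] at hval
    have := h8 (by rw [hval]; exact not_Ev)
    rw [this] at hlt
    have h1 : (1 : WithZero (Multiplicative ℤ)) < exp (1 : ℤ) := by
      rw [← exp_zero, exp_lt_exp]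
      norm_num
    exact absurd hlt (not_lt.2 h1.le)
  · exact hgood.g1 p hp hpL V hVU hpV (fun P hP => by
      obtain ⟨h, h2⟩ := (hmem P).1 hP
      exact he ⟨P, h⟩ h2) e' hne

/-- Elements of `AJ` with prescribed symbols at `p`. -/
theorem surj [Finite k] (hDIR : S_DIR) (hLDG : S_LDG) (hPOQ : S_POQ) (hSYM : S_SYM)
    (bd : BD F B) (U : Finset (Ob B)) (L : ℕ) (θ : ℝ)
    (hgood : GoodG (sysB F.R B) (Nat.card k) (Rl bd) L θ U) (v₀ : Ob B) (hv0 : v₀ ∈ U)
    (hv0L : L < F.R.deg v₀.1)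
    (hfree : ∀ V ⊆ U, v₀ ∉ V → ∀ e, (V.Nonempty ∨ e ≠ 0) → ¬ Rl bd v₀ V e)
    (p : Ob B) (hp : p ∈ U) (hpL : L < F.R.deg p.1) (hpv : p ≠ v₀)
    (y : Fin bd.n ⊕ U → ZMod 2) :
    ∃ δ ∈ AJ F.R B U L, (∀ l ∈ U, l ≠ p → l ≠ v₀ → Spl l.1 δ) ∧
      ∀ i, Sum.elim (fun _ => True) (fun P : U => F.R.deg P.1.1 ≤ Yf (F.R.deg p.1)) i →
        pr F.G p.1 (ro bd U i) δ = y i := by
  let Q : Fin bd.n ⊕ U → Prop :=
    Sum.elim (fun _ => True) (fun P : U => F.R.deg P.1.1 ≤ Yf (F.R.deg p.1))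
  obtain ⟨f, hf1, hf2⟩ := hLDG K F.G p.1 (nB0 bd p) {i : Fin bd.n ⊕ U // Q i}
    (fun i => ro bd U i.1) (fun i => ro_ne bd U i.1) (by
      intro e he
      let e2 : Fin bd.n ⊕ U → ZMod 2 := fun i => if h : Q i then e ⟨i, h⟩ else 0
      have h1 : ∏ i : {i : Fin bd.n ⊕ U // Q i}, ro bd U i.1 ^ (e i).val =
          ∏ i, ro bd U i ^ (e2 i).val := by
        have h2 : ∀ i : {i : Fin bd.n ⊕ U // Q i}, ro bd U i.1 ^ (e i).val =
            (fun i => ro bd U i ^ (e2 i).val) i.1 := by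
          intro i
          have : e2 i.1 = e i := dif_pos i.2
          simp only [this]
        rw [Finset.prod_congr rfl fun i _ => h2 i]
        rw [← Finset.prod_subtype (Finset.univ.filter Q) (by simp) (fun i => ro bd U i ^ (e2 i).val)]
        apply Finset.prod_subset (Finset.filter_subset _ _)
        intro i _ hi
        have h3 : ¬ Q i := fun h => hi (Finset.mem_filter.2 ⟨Finset.mem_univ _, h⟩)
        have : e2 i = 0 := dif_neg h3
        rw [this]
        simp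
      rw [h1]
      apply rows_free hSYM bd U L θ hgood p hp hpL e2
      · intro h0
        apply he
        funext i
        have := congrFun h0 i.1
        have h4 : e2 i.1 = e i := dif_pos i.2
        rw [h4] at this
        exact this
      · intro P hP
        by_contra hcon
        apply hP
        exact dif_neg hcon)
    (fun i => y i.1)
  obtain ⟨δ, h1, h2, h3, h4⟩ := hDIR k K F B bd U v₀ hv0 hfree
    (fun j => if j = p.1 then f else 0)
  have hmk : mkq (0 : K) = 0 := rfl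
  have hother : ∀ l ∈ U, l ≠ p → l ≠ v₀ → Spl l.1 δ := by
    intro l hl hlp hlv
    have := h2 l hl hlv
    rw [if_neg (fun h => hlp (Subtype.ext h)), hmk, add_zero] at this
    exact this
  have hatp : Spl p.1 (δ + mkq f) := by
    have := h2 p hp hpv
    rwa [if_pos rfl] at this
  refine ⟨δ, ⟨?_, ?_, ?_, h4⟩, hother, ?_⟩
  · intro j hj
    have hjp : ¬ j = p.1 := by
      rintro rfl
      exact p.2 hj
    have := h1 j hj
    rw [if_neg hjp, hmk, add_zero] at this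
    exact this
  · intro j hj hjL
    exact hother j hj (by rintro rfl; exact absurd hjL (not_le.2 hpL))
      (by rintro rfl; exact absurd hjL (not_le.2 hv0L))
  · intro j hj hjL
    by_cases hjv : j = v₀
    · rw [hjv]
      exact h3
    · by_cases hjp : j = p
      · rw [hjp, ple_one hPOQ, poq_eq hPOQ p.1 hatp, ← ple_one hPOQ]
        exact ⟨f, rfl, hf1⟩
      · rw [ple_one hPOQ, poq_spl hPOQ j.1 (hother j hj hjp hjv)]
        exact zero_le_one
  · intro i hi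
    have hS := hSYM K F.G p.1 (finres F.R p.1)
    have e1 : δ = (δ + mkq f) + mkq f := by
      rw [add_assoc, qself, add_zero]
    rw [e1, hS.2.1 _ _ _ (ro_ne bd U i), hS.2.2.2.2.1 _ _ (ro_ne bd U i) hatp, zero_add,
      hS.1 _ _ (ro_ne bd U i)]
    exact hf2 ⟨i, hi⟩

/-- Columns of elements of the coset. -/
theorem coset_poq (hPOQ : S_POQ) {U : Finset (Ob B)} {L : ℕ} {χ₁ : Qc K}
    (hlg : ∀ j ∈ U, L < F.R.deg j.1 → poq j.1 χ₁ ≤ 1) (hout : ∀ j : Ob B, j ∉ U → poq j.1 χ₁ = 0)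
    {a : Qc K} (ha : a ∈ AJ F.R B U L) :
    (∀ j : Ob B, j ∉ U → poq j.1 (χ₁ + a) = 0) ∧
    (∀ j ∈ U, F.R.deg j.1 ≤ L → poq j.1 (χ₁ + a) = poq j.1 χ₁) := by
  obtain ⟨h1, h2, h3, h4⟩ := ha
  refine ⟨fun j hj => ?_, fun j hj hl => poq_tr hPOQ j.1 (h2 j hj hl)⟩
  have e1 := (ple_zro hPOQ j.1 a).1 (h4 j hj)
  have := poq_add hPOQ j.1 χ₁ a
  rw [e1, hout j hj] at this
  simpa using this

end grp

end Pool.Agent.H467.PG.Fib

end

section
/-
# The distribution in a fibre: application of the theorem on random matrices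
-/


open Finset Filter WithZero
open Pool.Agent.H467.PT
open Pool.Agent.H467.GK
open Pool.Agent.H467.CT (AS Bas Ev)
open scoped Classical

namespace Pool.Agent.H467.PG.Fib

theorem four_le_pow (k : ℕ) (hk : 5 ≤ k) : 4 * k + 3 ≤ 2 ^ k := by
  induction k, hk using Nat.le_induction with
  | base => norm_num
  | succ n hn ih => rw [pow_succ]; omega

theorem le_Yf (d : ℕ) (hd : 24 < d) : d ≤ Yf d := by
  unfold Yf
  have h1 : 5 ≤ d / 4 := by omega
  have h2 := four_le_pow (d / 4) h1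
  omega

theorem split_card {ι : Type} (U : Finset ι) (d : ι → ℕ) (L M : ℕ) (h : L ≤ M) :
    (U.filter (fun q => d q ≤ M)).card =
      (U.filter (fun q => d q ≤ L)).card + (U.filter (fun q => L < d q ∧ d q ≤ M)).card := by
  rw [← Finset.card_union_of_disjoint]
  · refine congrArg Finset.card ?_
    ext q
    simp only [Finset.mem_filter, Finset.mem_union]
    constructor
    · rintro ⟨h1, h2⟩
      rcases le_or_gt (d q) L with h3 | h3
      · exact Or.inl ⟨h1, h3⟩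
      · exact Or.inr ⟨h1, h3, h2⟩
    · rintro (⟨h1, h2⟩ | ⟨h1, h2, h3⟩)
      · exact ⟨h1, by omega⟩
      · exact ⟨h1, h3⟩
  · rw [Finset.disjoint_left]
    intro q h1 h2
    exact absurd (Finset.mem_filter.1 h1).2 (not_le.2 (Finset.mem_filter.1 h2).2.1)

theorem pow_aux (n b s m w : ℕ) (hb : n + 1 = b) :
    (1 / 2 : ℝ) ^ (n + (s + m)) * 2 ^ (b + s + w) = (1 / 2) ^ m * 2 ^ (1 + w) := by
  have p1 : n + (s + m) = (n + s) + m := by ring
  have p2 : b + s + w = (n + s) + (1 + w) := by omega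
  rw [p1, p2, pow_add _ (n + s) m, pow_add _ (n + s) (1 + w)]
  have p3 : (1 / 2 : ℝ) ^ (n + s) * 2 ^ (n + s) = 1 := by
    rw [← mul_pow]
    norm_num
  calc (1 / 2 : ℝ) ^ (n + s) * (1 / 2) ^ m * (2 ^ (n + s) * 2 ^ (1 + w)) =
      ((1 / 2 : ℝ) ^ (n + s) * 2 ^ (n + s)) * ((1 / 2) ^ m * 2 ^ (1 + w)) := by ring
    _ = (1 / 2) ^ m * 2 ^ (1 + w) := by rw [p3, one_mul]

section grp

variable {k K : Type} [Field k] [Field K] [CharP K 2] [Algebra k K] {F : GF k K}
  {B : Finset (PV K)}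

/-- The left kernel of the matrix of `a`, without the column `v₀`. -/
def KA (bd : BD F B) (U : Finset (Ob B)) (L : ℕ) (v₀ : Ob B) (χ₁ a : Qc K) :
    Set (Fin bd.n ⊕ U → ZMod 2) :=
  {e | (∀ j ∈ B, ∑ i, e i * tt F.G j (ro bd U i) χ₁ = 0) ∧
    (∀ j ∈ U, F.R.deg j.1 ≤ L → ∑ i, e i * tt F.G j.1 (ro bd U i) χ₁ = 0) ∧
    ∀ j ∈ U, L < F.R.deg j.1 → j ≠ v₀ →
      ∑ i, e i * pr F.G j.1 (ro bd U i) (χ₁ + a) = 0}

set_option maxHeartbeats 4000000 in
theorem ling_app [Finite k] (hLING : S_LING) (hJIN : S_JIN) (hDIR : S_DIR) (hLDG : S_LDG)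
    (hPOQ : S_POQ) (hSYM : S_SYM) (bd : BD F B) (U : Finset (Ob B)) (L C₀ : ℕ) (θ : ℝ)
    (χ₁ : Qc K) (hL : 24 ≤ L) (hAfin : (AJ F.R B U L).Finite)
    (hgood : GoodG (sysB F.R B) (Nat.card k) (Rl bd) L θ U)
    (hdet : ∀ α : Qc K, α ≠ 0 → (∀ j ∈ B, poq j α ≤ poq j χ₁) →
      (∀ j ∈ U, F.R.deg j.1 ≤ L → poq j.1 α ≤ poq j.1 χ₁) →
      (∀ j : Ob B, ¬ (j ∈ U ∧ F.R.deg j.1 ≤ L) → poq j.1 α = 0) →
      ∃ p ∈ U, L < F.R.deg p.1 ∧ ¬ Spl p.1 α)
    (v₀ : Ob B) (Z : Finset (Ob B)) (rk : Ob B → ℕ) (hv0U : v₀ ∈ U) (hv0L : L < F.R.deg v₀.1)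
    (hv0Z : v₀ ∉ Z) (hZU : Z ⊆ U.filter (fun p => L < F.R.deg p.1)) (hZc : Z.card = C₀)
    (hZY : ∀ z ∈ Z, (sysB F.R B).dg U ≤ Yf (F.R.deg z.1))
    (hrkinj : ∀ i ∈ U.filter (fun p => L < F.R.deg p.1), ∀ j ∈ U.filter (fun p => L < F.R.deg p.1),
      rk i = rk j → i = j)
    (hrkZ : ∀ p ∈ U, L < F.R.deg p.1 → p ∉ Z → p ≠ v₀ → ∀ z ∈ Z, rk p < rk z)
    (hrkv0 : ∀ p ∈ U, L < F.R.deg p.1 → p ≠ v₀ → rk p < rk v₀)
    (hsum : ∑ j ∈ U.filter (fun p => L < F.R.deg p.1 ∧ p ∉ Z ∧ p ≠ v₀),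
      (1 / 2 : ℝ) ^ ((U.filter (fun p => L < F.R.deg p.1 ∧
        F.R.deg p.1 ≤ Yf (F.R.deg j.1))).card) *
        2 ^ (1 + (U.filter (fun p => L < F.R.deg p.1 ∧ rk p < rk j)).card) ≤
          θ + (1 / 2) ^ C₀)
    (hfree : ∀ V ⊆ U, v₀ ∉ V → ∀ e, (V.Nonempty ∨ e ≠ 0) → ¬ Rl bd v₀ V e) (r : ℕ) :
    |({a ∈ AJ F.R B U L | (KA bd U L v₀ χ₁ a).ncard = 2 ^ r}.ncard : ℝ) -
      pcr C₀ r * ((AJ F.R B U L).ncard : ℝ)| ≤
        (θ + (1 / 2) ^ C₀) * ((AJ F.R B U L).ncard : ℝ) := by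
  have hS := fun j => hSYM K F.G j (finres F.R j)
  let A := AJs hPOQ F.R B U L
  haveI hfinA : Finite A := hAfin.to_subtype
  letI : Fintype A := Fintype.ofFinite A
  let κ := {j // j ∈ B} ⊕ {p // p ∈ U.erase v₀}
  let ρ := Fin bd.n ⊕ {p // p ∈ U}
  let X : A → κ → ρ → ZMod 2 := fun a j i =>
    Sum.elim (fun b => tt F.G b.1 (ro bd U i) χ₁) (fun p => if F.R.deg p.1.1 ≤ L then
      tt F.G p.1.1 (ro bd U i) χ₁ else pr F.G p.1.1 (ro bd U i) (χ₁ + a.1)) j
  let Y : A → κ → ρ → ZMod 2 := fun a j i =>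
    Sum.elim (fun _ => 0) (fun p => if F.R.deg p.1.1 ≤ L then 0 else
      pr F.G p.1.1 (ro bd U i) a.1) j
  let J : Finset κ := univ.filter (fun l : κ =>
    Sum.elim (fun _ => True) (fun p => F.R.deg p.1.1 ≤ L) l)
  let Z' : Finset κ := univ.filter (fun l : κ => Sum.elim (fun _ => False) (fun p => p.1 ∈ Z) l)
  let rk' : κ → ℕ := Sum.elim (fun _ => 0) (fun p => rk p.1)
  let R : κ → Finset ρ := fun j => univ.filter (fun i : ρ => Sum.elim (fun _ => True)
    (fun P => F.R.deg P.1.1 ≤ Yf (Sum.elim (fun _ => 0) (fun p => F.R.deg p.1.1) j)) i)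
  have hJl : ∀ b, Sum.inl b ∈ J := fun b => Finset.mem_filter.2 ⟨Finset.mem_univ _, trivial⟩
  have hJr : ∀ p, Sum.inr p ∈ J ↔ F.R.deg p.1.1 ≤ L := fun p =>
    ⟨fun h => (Finset.mem_filter.1 h).2, fun h => Finset.mem_filter.2 ⟨Finset.mem_univ _, h⟩⟩
  have hZl : ∀ b, Sum.inl b ∉ Z' := fun b h => (Finset.mem_filter.1 h).2
  have hZr : ∀ p, Sum.inr p ∈ Z' ↔ p.1 ∈ Z := fun p =>
    ⟨fun h => (Finset.mem_filter.1 h).2, fun h => Finset.mem_filter.2 ⟨Finset.mem_univ _, h⟩⟩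
  have hpU : ∀ p : {p // p ∈ U.erase v₀}, p.1 ∈ U := fun p => Finset.mem_of_mem_erase p.2
  have hpv : ∀ p : {p // p ∈ U.erase v₀}, p.1 ≠ v₀ := fun p => Finset.ne_of_mem_erase p.2
  have hJc : J.card = B.card + (U.filter (fun p => F.R.deg p.1 ≤ L)).card := by
    have := card_inl (α := {j // j ∈ B}) U v₀ (fun p => F.R.deg p.1 ≤ L) (not_le.2 hv0L)
    rw [Fintype.card_coe] at this
    exact this
  have hcard : Fintype.card κ = Fintype.card ρ := by
    rw [Fintype.card_sum, Fintype.card_sum, Fintype.card_coe, Fintype.card_coe, Fintype.card_coe,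
      Fintype.card_fin, Finset.card_erase_of_mem hv0U]
    have h1 := bd.hn
    have h2 : 0 < U.card := Finset.card_pos.2 ⟨v₀, hv0U⟩
    omega
  have hX : ∀ a a' j i, X (a + a') j i = X a j i + Y a' j i := by
    intro a a' j i
    rcases j with b | p
    · change tt F.G b.1 (ro bd U i) χ₁ = tt F.G b.1 (ro bd U i) χ₁ + 0
      rw [add_zero]
    · change (if F.R.deg p.1.1 ≤ L then tt F.G p.1.1 (ro bd U i) χ₁ else
        pr F.G p.1.1 (ro bd U i) (χ₁ + (a.1 + a'.1))) = (if F.R.deg p.1.1 ≤ L then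
        tt F.G p.1.1 (ro bd U i) χ₁ else pr F.G p.1.1 (ro bd U i) (χ₁ + a.1)) +
        if F.R.deg p.1.1 ≤ L then 0 else pr F.G p.1.1 (ro bd U i) a'.1
      split_ifs with h
      · rw [add_zero]
      · rw [← add_assoc]
        exact (hS p.1.1).2.1 _ _ _ (ro_ne bd U i)
  have hY : ∀ a a' j i, Y (a + a') j i = Y a j i + Y a' j i := by
    intro a a' j i
    rcases j with b | p
    · change (0 : ZMod 2) = 0 + 0
      rw [add_zero]
    · change (if F.R.deg p.1.1 ≤ L then 0 else pr F.G p.1.1 (ro bd U i) (a.1 + a'.1)) =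
        (if F.R.deg p.1.1 ≤ L then 0 else pr F.G p.1.1 (ro bd U i) a.1) +
        if F.R.deg p.1.1 ≤ L then 0 else pr F.G p.1.1 (ro bd U i) a'.1
      split_ifs with h
      · rw [add_zero]
      · exact (hS p.1.1).2.1 _ _ _ (ro_ne bd U i)
  have hdisj : Disjoint J Z' := by
    rw [Finset.disjoint_left]
    rintro (b | p) h1 h2
    · exact hZl b h2
    · have h3 := (Finset.mem_filter.1 (hZU ((hZr p).1 h2))).2
      exact absurd ((hJr p).1 h1) (not_le.2 h3)
  have hZc' : Z'.card = C₀ := by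
    rw [← hZc]
    refine (card_inr (α := {j // j ∈ B}) U v₀ (fun p => p ∈ Z) hv0Z).trans
      (congrArg Finset.card ?_)
    ext p
    rw [Finset.mem_filter]
    exact ⟨fun h => h.2, fun h => ⟨(Finset.mem_filter.1 (hZU h)).1, h⟩⟩
  have hinj : ∀ i j, i ∉ J → j ∉ J → rk' i = rk' j → i = j := by
    rintro (b | p) (b' | p') h1 h2 h3
    · exact absurd (hJl b) h1
    · exact absurd (hJl b) h1
    · exact absurd (hJl b') h2
    · rw [hJr, not_le] at h1 h2
      have := hrkinj p.1 (Finset.mem_filter.2 ⟨hpU p, h1⟩) p'.1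
        (Finset.mem_filter.2 ⟨hpU p', h2⟩) h3
      exact congrArg Sum.inr (Subtype.ext this)
  have hlast : ∀ j, j ∉ J → j ∉ Z' → ∀ z ∈ Z', rk' j < rk' z := by
    rintro (b | p) h1 h2 (b' | p') h3
    · exact absurd (hJl b) h1
    · exact absurd (hJl b) h1
    · exact absurd h3 (hZl b')
    · rw [hJr, not_le] at h1
      rw [hZr] at h2 h3
      exact hrkZ p.1 (hpU p) h1 h2 (hpv p) p'.1 h3
  have hYJ : ∀ a, ∀ j ∈ J, ∀ i, Y a j i = 0 := by
    rintro a (b | p) h i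
    · rfl
    · exact if_pos ((hJr p).1 h)
  have hJin : ∀ ε : κ → ZMod 2, (∀ j, j ∉ J → ε j = 0) →
      (∀ i, ∑ j, ε j * X 0 j i = 0) → ε = 0 := by
    intro ε hε hs
    let ε1 : PV K → ZMod 2 := fun j => if h : j ∈ B then ε (Sum.inl ⟨j, h⟩) else 0
    let ε2 : Ob B → ZMod 2 := fun p => if h : p ∈ U.erase v₀ then ε (Sum.inr ⟨p, h⟩) else 0
    have e1 : ∀ b : {j // j ∈ B}, ε1 b.1 = ε (Sum.inl b) := fun b => dif_pos b.2
    have e2 : ∀ p : {p // p ∈ U.erase v₀}, ε2 p.1 = ε (Sum.inr p) := fun p => dif_pos p.2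
    obtain ⟨g1, g2⟩ := hJIN k K F B bd U (U.filter (fun p => F.R.deg p.1 ≤ L)) χ₁
      (Finset.filter_subset _ _) (by
        intro α hα h1 h2 h3
        obtain ⟨p, hp, hpL, hps⟩ := hdet α hα h1
          (fun j hj hjL => h2 j (Finset.mem_filter.2 ⟨hj, hjL⟩))
          (fun j hj => h3 j (fun h => hj (Finset.mem_filter.1 h)))
        exact ⟨p, hp, fun h => absurd (Finset.mem_filter.1 h).2 (not_le.2 hpL), hps⟩) ε1 ε2 (by
        intro i
        rw [← hs i, Fintype.sum_sum_type]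
        refine congrArg₂ _ ?_ ?_
        · rw [← Finset.sum_coe_sort B]
          refine Finset.sum_congr rfl fun b _ => ?_
          rw [e1]
          rfl
        · have h1 : ∀ p : {p // p ∈ U.erase v₀}, ε (Sum.inr p) * X 0 (Sum.inr p) i =
              (fun p : Ob B => ε2 p * tt F.G p.1 (ro bd U i) χ₁) p.1 := by
            intro p
            simp only [e2]
            by_cases hp : F.R.deg p.1.1 ≤ L
            · have : X 0 (Sum.inr p) i = tt F.G p.1.1 (ro bd U i) χ₁ := if_pos hp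
              rw [this]
            · rw [hε (Sum.inr p) (fun h => hp ((hJr p).1 h)), zero_mul, zero_mul]
          rw [Finset.sum_congr rfl fun p _ => h1 p, Finset.sum_coe_sort (U.erase v₀)
            (fun p : Ob B => ε2 p * tt F.G p.1 (ro bd U i) χ₁)]
          apply Finset.sum_subset
          · intro p hp
            obtain ⟨h2, h3⟩ := Finset.mem_filter.1 hp
            exact Finset.mem_erase.2 ⟨by rintro rfl; exact absurd h3 (not_le.2 hv0L), h2⟩
          · intro p hp hp2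
            have h3 : ¬ F.R.deg p.1 ≤ L := fun h =>
              hp2 (Finset.mem_filter.2 ⟨Finset.mem_of_mem_erase hp, h⟩)
            have h4 : ε2 p = 0 := by
              have := e2 ⟨p, hp⟩
              rw [this]
              exact hε _ (fun h => h3 ((hJr ⟨p, hp⟩).1 h))
            rw [h4, zero_mul])
    funext j
    rcases j with b | p
    · rw [← e1]
      exact g1 b.1 b.2
    · by_cases hp : F.R.deg p.1.1 ≤ L
      · rw [← e2]
        exact g2 p.1 (Finset.mem_filter.2 ⟨hpU p, hp⟩)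
      · exact hε _ (fun h => hp ((hJr p).1 h))
  have hsurj : ∀ j, j ∉ J → ∀ y : ρ → ZMod 2, ∃ a, (∀ l, l ≠ j → ∀ i, Y a l i = 0) ∧
      ∀ i ∈ R j, Y a j i = y i := by
    rintro (b | p) hj y
    · exact absurd (hJl b) hj
    · rw [hJr, not_le] at hj
      obtain ⟨δ, hδ, h1, h2⟩ := surj hDIR hLDG hPOQ hSYM bd U L θ hgood v₀ hv0U hv0L hfree p.1
        (hpU p) hj (hpv p) y
      refine ⟨⟨δ, hδ⟩, ?_, ?_⟩
      · rintro (b | q) hne i
        · rfl
        · by_cases hq : F.R.deg q.1.1 ≤ L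
          · exact if_pos hq
          · have h3 : q.1 ≠ p.1 := fun h => hne (congrArg Sum.inr (Subtype.ext h))
            exact (if_neg hq).trans ((hS q.1.1).2.2.2.2.1 _ _ (ro_ne bd U i)
              (h1 q.1 (hpU q) h3 (hpv q)))
      · intro i hi
        exact (if_neg (not_le.2 hj)).trans (h2 i (Finset.mem_filter.1 hi).2)
  have hRZ : ∀ z ∈ Z', R z = Finset.univ := by
    rintro (b | p) hz
    · exact absurd hz (hZl b)
    · rw [hZr] at hz
      ext i
      refine ⟨fun _ => Finset.mem_univ _, fun _ => Finset.mem_filter.2 ⟨Finset.mem_univ _, ?_⟩⟩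
      rcases i with i | P
      · trivial
      · change (sysB F.R B).deg P.1 ≤ Yf (F.R.deg p.1.1)
        exact (Finset.single_le_sum (f := (sysB F.R B).deg) (fun i _ => Nat.zero_le _)
          P.2).trans (hZY p.1 hz)
  have hling := hLING A κ ρ hcard X Y hX hY J Z' rk' R C₀ (θ + (1 / 2) ^ C₀) hdisj hZc' hinj hlast
    hYJ hJin hsurj hRZ (by
      refine le_trans (le_of_eq ?_) hsum
      refine sum_inr2 U v₀ _ _ (fun p => L < F.R.deg p.1 ∧ p ∉ Z) _ _ ?_ ?_ ?_ _ _ ?_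
      · exact fun b h => h.1 (hJl b)
      · intro p
        rw [hJr, hZr, not_le]
      · intro p
        exact and_assoc
      · rintro p ⟨hpL, hpZ⟩
        have c1 : (R (Sum.inr p)).card = bd.n + (U.filter (fun P =>
            F.R.deg P.1 ≤ Yf (F.R.deg p.1.1))).card :=
          card_rows bd.n U (fun P => F.R.deg P.1 ≤ Yf (F.R.deg p.1.1))
        have c4 : (U.filter (fun P => F.R.deg P.1 ≤ Yf (F.R.deg p.1.1))).card =
            (U.filter (fun p => F.R.deg p.1 ≤ L)).card + (U.filter (fun q => L < F.R.deg q.1 ∧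
              F.R.deg q.1 ≤ Yf (F.R.deg p.1.1))).card :=
          split_card U (fun q => F.R.deg q.1) L _ (by
            have h5 := le_Yf (F.R.deg p.1.1) (by omega)
            omega)
        rw [hJc, c1, c4]
        rw [card_inr2 U v₀ _ _ (fun q => L < F.R.deg q.1 ∧ rk q < rk p.1) _
          (fun b h => h.1 (hJl b)) (fun q => by rw [hJr, not_le]; exact Iff.rfl)
          (fun h => absurd h.2 (not_lt.2 (hrkv0 p.1 (hpU p) hpL (hpv p)).le))]
        exact pow_aux bd.n B.card _ _ _ bd.hn) r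
  have hcA : (Fintype.card A : ℝ) = ((AJ F.R B U L).ncard : ℝ) := by
    rw [← Nat.card_eq_fintype_card]
    rfl
  have hker : ∀ a : A, {e : ρ → ZMod 2 | ∀ j, ∑ i, e i * X a j i = 0} = KA bd U L v₀ χ₁ a.1 := by
    intro a
    ext e
    constructor
    · intro h
      refine ⟨fun j hj => h (Sum.inl ⟨j, hj⟩), fun j hj hjL => ?_, fun j hj hjL hjv => ?_⟩
      · have hjv : j ≠ v₀ := by
          rintro rfl
          exact absurd hjL (not_le.2 hv0L)
        have h1 := h (Sum.inr ⟨j, Finset.mem_erase.2 ⟨hjv, hj⟩⟩)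
        rw [← h1]
        refine Finset.sum_congr rfl fun i _ => congrArg _ ?_
        exact (if_pos hjL).symm
      · have h1 := h (Sum.inr ⟨j, Finset.mem_erase.2 ⟨hjv, hj⟩⟩)
        rw [← h1]
        refine Finset.sum_congr rfl fun i _ => congrArg _ ?_
        exact (if_neg (not_le.2 hjL)).symm
    · rintro ⟨h1, h2, h3⟩ (b | p)
      · exact h1 b.1 b.2
      · by_cases hp : F.R.deg p.1.1 ≤ L
        · rw [← h2 p.1 (hpU p) hp]
          refine Finset.sum_congr rfl fun i _ => congrArg _ ?_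
          exact if_pos hp
        · rw [← h3 p.1 (hpU p) (not_le.1 hp) (hpv p)]
          refine Finset.sum_congr rfl fun i _ => congrArg _ ?_
          exact if_neg hp
  have hN : {a : A | {e : ρ → ZMod 2 | ∀ j, ∑ i, e i * X a j i = 0}.ncard = 2 ^ r}.ncard =
      {a ∈ AJ F.R B U L | (KA bd U L v₀ χ₁ a).ncard = 2 ^ r}.ncard := by
    rw [← Set.ncard_image_of_injective _ (Subtype.val_injective (p := fun x => x ∈ A))]
    refine congrArg Set.ncard ?_
    ext χ
    constructor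
    · rintro ⟨a, ha, rfl⟩
      refine ⟨a.2, ?_⟩
      rw [← hker a]
      exact ha
    · rintro ⟨h1, h2⟩
      refine ⟨⟨χ, h1⟩, ?_, rfl⟩
      change Set.ncard {e : ρ → ZMod 2 | ∀ j, ∑ i, e i * X ⟨χ, h1⟩ j i = 0} = 2 ^ r
      rw [hker ⟨χ, h1⟩]
      exact h2
  rw [hN, hcA] at hling
  exact hling

end grp

end Pool.Agent.H467.PG.Fib

end

section
/-
# The distribution in a fibre: assembly
-/


open Finset Filter WithZero
open Pool.Agent.H467.PT
open Pool.Agent.H467.GK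
open Pool.Agent.H467.CT (AS Bas Ev)
open scoped Classical

namespace Pool.Agent.H467.PG.Fib

theorem pcr_nonneg (n r : ℕ) : 0 ≤ pcr n r := by
  unfold pcr
  positivity

theorem pcr_le_one (n r : ℕ) : pcr n r ≤ 1 := by
  unfold pcr
  rw [div_le_one (by positivity)]
  have h1 : ({T : Fin n → Fin n → ZMod 2 |
      {e : Fin n → ZMod 2 | ∀ j, ∑ i, e i * T j i = 0}.ncard = 2 ^ r}.ncard) ≤ 2 ^ (n ^ 2) := by
    refine (Set.ncard_le_ncard (Set.subset_univ _) Set.finite_univ).trans ?_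
    rw [Set.ncard_univ, Nat.card_eq_fintype_card, Fintype.card_pi]
    simp only [Fintype.card_pi, Finset.prod_const, Finset.card_univ, Fintype.card_fin, ZMod.card]
    rw [← pow_mul, sq]
  exact_mod_cast h1

section grp

variable {k K : Type} [Field k] [Field K] [CharP K 2] [Algebra k K] {F : GF k K}
  {B : Finset (PV K)}

/-- The left kernels. -/
theorem KA_eq [Finite k] (hPOQ : S_POQ) (hSYM : S_SYM) (hK : S_FIBK) (bd : BD F B)
    (U : Finset (Ob B)) (L : ℕ) (v₀ : Ob B) (χ₁ χ : Qc K) (hv0U : v₀ ∈ U)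
    (hv0L : L < F.R.deg v₀.1) (hout : ∀ j : Ob B, j ∉ U → poq j.1 χ = 0)
    (hχ : χ ∈ Phi F.R B U L χ₁) : KA bd U L v₀ χ₁ (χ + χ₁) = LK bd U χ := by
  obtain ⟨⟨h1, h2, h3, h4⟩, h5⟩ := hχ
  have hback : χ₁ + (χ + χ₁) = χ := by rw [← add_assoc, qcan]
  have eB : ∀ j ∈ B, ∀ i, tt F.G j (ro bd U i) χ = tt F.G j (ro bd U i) χ₁ := by
    intro j hj i
    have := tt_tr hPOQ hSYM F.G j (finres F.R j) (ro_ne bd U i) (χ := χ₁) (h1 j hj)
    rwa [hback] at this
  have eS : ∀ j ∈ U, F.R.deg j.1 ≤ L → ∀ i, tt F.G j.1 (ro bd U i) χ =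
      tt F.G j.1 (ro bd U i) χ₁ := by
    intro j hj hjL i
    have := tt_tr hPOQ hSYM F.G j.1 (finres F.R j.1) (ro_ne bd U i) (χ := χ₁) (h2 j hj hjL)
    rwa [hback] at this
  have eL : ∀ j ∈ U, L < F.R.deg j.1 → ∀ i, tt F.G j.1 (ro bd U i) χ =
      pr F.G j.1 (ro bd U i) (χ₁ + (χ + χ₁)) := by
    intro j hj hjL i
    rw [hback]
    unfold tt
    rw [if_neg (h5 j hj hjL)]
  ext e
  constructor
  · rintro ⟨k1, k2, k3⟩
    apply hK k K F B bd U χ v₀ hv0U hout (h5 v₀ hv0U hv0L) e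
    · intro j hj
      rw [← k1 j hj]
      exact Finset.sum_congr rfl fun i _ => by rw [eB j hj i]
    · intro j hj hjv
      rcases le_or_gt (F.R.deg j.1) L with h | h
      · rw [← k2 j hj h]
        exact Finset.sum_congr rfl fun i _ => by rw [eS j hj h i]
      · rw [← k3 j hj h hjv]
        exact Finset.sum_congr rfl fun i _ => by rw [eL j hj h i]
  · rintro ⟨k1, k2⟩
    refine ⟨fun j hj => ?_, fun j hj h => ?_, fun j hj h hjv => ?_⟩
    · rw [← k1 j hj]
      exact Finset.sum_congr rfl fun i _ => by rw [eB j hj i]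
    · rw [← k2 j hj]
      exact Finset.sum_congr rfl fun i _ => by rw [eS j hj h i]
    · rw [← k2 j hj]
      exact Finset.sum_congr rfl fun i _ => by rw [eL j hj h i]

end grp

theorem fib0 (hLING : S_LING) (hORDG : S_ORDG) (hSVM : S_SVM) (hJIN : S_JIN) (hDIR : S_DIR)
    (hLDG : S_LDG) (hPOQ : S_POQ) (hSYM : S_SYM) (hC : S_FIBC) (hK : S_FIBK) (hN : S_FIBN) :
    S_FIB := by
  intro k K _ _ _ _ _ F B bd U L C₀ θ χ₁ hL hC0 hθ0 hθ1 hgood hmany hsm hlg hout hdet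
  obtain ⟨v₀, Z, rk, hv0U, hv0L, hv0Z, hZU, hZc, hv0Y, hZY, hrkinj, hrkZ, hrkv0, hsum⟩ :=
    hORDG (Ob B) (sysB F.R B) (Nat.card k) (Fin bd.n → ZMod 2) (Rl bd) L C₀ θ U hL hC0 hθ0 hθ1
      hgood hmany
  obtain ⟨hAfin, hClow⟩ := hC k K F B bd U L
  have hfree : ∀ p₀ ∈ U, L < F.R.deg p₀.1 → (sysB F.R B).dg U ≤ Yf (F.R.deg p₀.1) →
      ∀ V ⊆ U, p₀ ∉ V → ∀ e, (V.Nonempty ∨ e ≠ 0) → ¬ Rl bd p₀ V e := by
    intro p₀ hp hLp hY V hV hpV e he
    refine hgood.g1 p₀ hp hLp V hV hpV (fun P hP => ?_) e he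
    exact (Finset.single_le_sum (f := (sysB F.R B).deg) (fun i _ => Nat.zero_le _)
      (hV hP)).trans hY
  -- the coset
  set A : Set (Qc K) := AJ F.R B U L with hA
  set Φ : Set (Qc K) := Phi F.R B U L χ₁ with hΦ
  let Cs : Set (Qc K) := {χ | χ + χ₁ ∈ A}
  have hback : ∀ χ : Qc K, χ₁ + (χ + χ₁) = χ := fun χ => by rw [← add_assoc, qcan]
  have hCsim : Cs = (fun a => χ₁ + a) '' A := by
    ext χ
    constructor
    · intro h
      exact ⟨χ + χ₁, h, hback χ⟩
    · rintro ⟨a, ha, rfl⟩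
      change χ₁ + a + χ₁ ∈ A
      rw [qcan]
      exact ha
  have hCsfin : Cs.Finite := by
    rw [hCsim]
    exact hAfin.image _
  have hCsA : Cs.ncard = A.ncard := by
    rw [hCsim]
    exact Set.ncard_image_of_injective _ (add_right_injective χ₁)
  have hΦCs : Φ ⊆ Cs := fun χ h => h.1
  have hΦfin : Φ.Finite := hCsfin.subset hΦCs
  -- unramified elements
  have hq : (0 : ℝ) < (Nat.card k : ℝ) := by
    exact_mod_cast Nat.card_pos
  have hNp : ∀ p ∈ U.filter (fun p => L < F.R.deg p.1),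
      (({χ | χ + χ₁ ∈ AJ F.R B U L ∧ poq p.1 χ = 0} : Set (Qc K)).ncard : ℝ) ≤
        (1 / (Nat.card k : ℝ)) ^ ((sysB F.R B).deg p) * (A.ncard : ℝ) := by
    intro p hp
    obtain ⟨hpU, hpL⟩ := Finset.mem_filter.1 hp
    obtain ⟨p₀, hp0U, hp0L, hne, hfr⟩ : ∃ p₀ : Ob B, p₀ ∈ U ∧ L < F.R.deg p₀.1 ∧ p₀ ≠ p ∧
        ∀ V ⊆ U, p₀ ∉ V → ∀ e, (V.Nonempty ∨ e ≠ 0) → ¬ Rl bd p₀ V e := by
      by_cases hpv : v₀ = p
      · obtain ⟨z, hz⟩ : Z.Nonempty := by
          rw [← Finset.card_pos, hZc]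
          exact hC0
        obtain ⟨hzU, hzL⟩ := Finset.mem_filter.1 (hZU hz)
        refine ⟨z, hzU, hzL, ?_, hfree z hzU hzL (hZY z hz)⟩
        rintro rfl
        exact hv0Z (hpv ▸ hz)
      · exact ⟨v₀, hv0U, hv0L, hpv, hfree v₀ hv0U hv0L hv0Y⟩
    have h1 := hN k K F B bd U L χ₁ p p₀ hpU hpL hp0U hp0L hne hfr
    have h2 : ((Nat.card k : ℝ)) ^ F.R.deg p.1 *
        (({χ | χ + χ₁ ∈ AJ F.R B U L ∧ poq p.1 χ = 0} : Set (Qc K)).ncard : ℝ) ≤
          (A.ncard : ℝ) := by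
      exact_mod_cast h1
    change _ ≤ (1 / (Nat.card k : ℝ)) ^ (F.R.deg p.1) * (A.ncard : ℝ)
    rw [one_div, inv_pow, ← div_eq_inv_mul, le_div_iff₀ (by positivity)]
    linarith
  have hbad : ((Cs \ Φ).ncard : ℝ) ≤ θ * (A.ncard : ℝ) := by
    have h1 : Cs \ Φ ⊆ ⋃ p ∈ U.filter (fun p => L < F.R.deg p.1),
        ({χ | χ + χ₁ ∈ AJ F.R B U L ∧ poq p.1 χ = 0} : Set (Qc K)) := by
      rintro χ ⟨h1, h2⟩
      have h3 : ∃ j ∈ U, L < F.R.deg j.1 ∧ poq j.1 χ = 0 := by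
        by_contra hcon
        push Not at hcon
        exact h2 ⟨h1, fun j hj hjL => hcon j hj hjL⟩
      obtain ⟨j, hj, hjL, hj0⟩ := h3
      simp only [Set.mem_iUnion]
      exact ⟨j, Finset.mem_filter.2 ⟨hj, hjL⟩, h1, hj0⟩
    have hfinU : (⋃ p ∈ U.filter (fun p => L < F.R.deg p.1),
        ({χ | χ + χ₁ ∈ AJ F.R B U L ∧ poq p.1 χ = 0} : Set (Qc K))).Finite := by
      refine hCsfin.subset ?_
      intro χ hχ
      simp only [Set.mem_iUnion] at hχ
      obtain ⟨p, _, hp, _⟩ := hχ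
      exact hp
    have h2 : (Cs \ Φ).ncard ≤ ∑ p ∈ U.filter (fun p => L < F.R.deg p.1),
        ({χ | χ + χ₁ ∈ AJ F.R B U L ∧ poq p.1 χ = 0} : Set (Qc K)).ncard :=
      (Set.ncard_le_ncard h1 hfinU).trans (Finset.set_ncard_biUnion_le _ _)
    calc ((Cs \ Φ).ncard : ℝ) ≤ ((∑ p ∈ U.filter (fun p => L < F.R.deg p.1),
        ({χ | χ + χ₁ ∈ AJ F.R B U L ∧ poq p.1 χ = 0} : Set (Qc K)).ncard : ℕ) : ℝ) := by
          exact_mod_cast h2
      _ = ∑ p ∈ U.filter (fun p => L < F.R.deg p.1),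
        (({χ | χ + χ₁ ∈ AJ F.R B U L ∧ poq p.1 χ = 0} : Set (Qc K)).ncard : ℝ) := by
          push_cast
          rfl
      _ ≤ ∑ p ∈ U.filter (fun p => L < F.R.deg p.1),
        (1 / (Nat.card k : ℝ)) ^ ((sysB F.R B).deg p) * (A.ncard : ℝ) :=
          Finset.sum_le_sum hNp
      _ = (∑ p ∈ U.filter (fun p => L < F.R.deg p.1),
        (1 / (Nat.card k : ℝ)) ^ ((sysB F.R B).deg p)) * (A.ncard : ℝ) := by
          rw [Finset.sum_mul]
      _ ≤ θ * (A.ncard : ℝ) := by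
          have := hgood.g4
          gcongr
          exact this
  have hsplit : (Φ.ncard : ℝ) + ((Cs \ Φ).ncard : ℝ) = (A.ncard : ℝ) := by
    have := Set.ncard_diff_add_ncard_of_subset hΦCs hCsfin
    rw [hCsA] at this
    have h2 : Φ.ncard + (Cs \ Φ).ncard = A.ncard := by omega
    exact_mod_cast h2
  have hθ8 : θ ≤ 1 / 8 := by
    refine hθ1.le.trans ?_
    calc (1 / 2 : ℝ) ^ (C₀ + 2) ≤ (1 / 2) ^ 3 :=
          pow_le_pow_of_le_one (by norm_num) (by norm_num) (by omega)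
      _ = 1 / 8 := by norm_num
  have hA0 : (0 : ℝ) ≤ (A.ncard : ℝ) := by positivity
  have hΦ0 : (0 : ℝ) ≤ (Φ.ncard : ℝ) := by positivity
  have hD0 : (0 : ℝ) ≤ ((Cs \ Φ).ncard : ℝ) := by positivity
  have hA2 : (A.ncard : ℝ) ≤ 2 * (Φ.ncard : ℝ) := by nlinarith
  refine ⟨hΦfin, ?_, ?_⟩
  · refine hClow.trans ?_
    rw [pow_succ (2 : ℝ)]
    have h2 : (0 : ℝ) < 2 ^ (B.card + (U.filter (fun p => F.R.deg p.1 ≤ L)).card) := by
      positivity
    nlinarith
  · intro r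
    have hsum2 : ∑ j ∈ U.filter (fun p => L < F.R.deg p.1 ∧ p ∉ Z ∧ p ≠ v₀),
      (1 / 2 : ℝ) ^ ((U.filter (fun p => L < F.R.deg p.1 ∧
        F.R.deg p.1 ≤ Yf (F.R.deg j.1))).card) *
        2 ^ (1 + (U.filter (fun p => L < F.R.deg p.1 ∧ rk p < rk j)).card) ≤
          θ + (1 / 2) ^ C₀ := by
      refine le_trans (le_of_eq ?_) hsum
      refine sum_conv U _ _ _ _ (fun p => Iff.rfl) _ _ fun j => ?_
      exact congrArg₂ (fun (x y : ℕ) => (1 / 2 : ℝ) ^ x * 2 ^ (1 + y))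
        (card_conv U _ _ _ _ fun p => Iff.rfl) (card_conv U _ _ _ _ fun p => Iff.rfl)
    have hling := ling_app hLING hJIN hDIR hLDG hPOQ hSYM bd U L C₀ θ χ₁ hL hAfin hgood hdet v₀ Z
      rk hv0U hv0L hv0Z hZU hZc hZY hrkinj hrkZ hrkv0 hsum2 (hfree v₀ hv0U hv0L hv0Y) r
    set S : Set (Qc K) := {χ ∈ Φ | (SV χ).ncard = 2 ^ (r + 1)} with hS
    let T : Set (Qc K) := {χ ∈ Cs | (KA bd U L v₀ χ₁ (χ + χ₁)).ncard = 2 ^ r}
    have hTc : T.ncard = {a ∈ A | (KA bd U L v₀ χ₁ a).ncard = 2 ^ r}.ncard := by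
      have : T = (fun a => χ₁ + a) '' {a ∈ A | (KA bd U L v₀ χ₁ a).ncard = 2 ^ r} := by
        ext χ
        constructor
        · rintro ⟨h1, h2⟩
          exact ⟨χ + χ₁, ⟨h1, h2⟩, hback χ⟩
        · rintro ⟨a, ⟨ha, ha2⟩, rfl⟩
          refine ⟨?_, ?_⟩
          · change χ₁ + a + χ₁ ∈ A
            rw [qcan]
            exact ha
          · change (KA bd U L v₀ χ₁ (χ₁ + a + χ₁)).ncard = 2 ^ r
            rw [qcan]
            exact ha2
      rw [this]
      exact Set.ncard_image_of_injective _ (add_right_injective χ₁)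
    have houtχ : ∀ χ ∈ Cs, ∀ j : Ob B, j ∉ U → poq j.1 χ = 0 := by
      intro χ hχ j hj
      have := (coset_poq hPOQ hlg hout hχ).1 j hj
      rwa [hback] at this
    have hST : S = T ∩ Φ := by
      ext χ
      constructor
      · rintro ⟨h1, h2⟩
        refine ⟨⟨hΦCs h1, ?_⟩, h1⟩
        rw [KA_eq hPOQ hSYM hK bd U L v₀ χ₁ χ hv0U hv0L (houtχ χ (hΦCs h1)) h1]
        have h3 := (hSVM k K F B bd U χ (houtχ χ (hΦCs h1))).2
        rw [h3, pow_succ] at h2
        omega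
      · rintro ⟨⟨h1, h2⟩, h3⟩
        refine ⟨h3, ?_⟩
        rw [KA_eq hPOQ hSYM hK bd U L v₀ χ₁ χ hv0U hv0L (houtχ χ h1) h3] at h2
        rw [(hSVM k K F B bd U χ (houtχ χ h1)).2, h2, pow_succ]
        ring
    have hTfin : T.Finite := hCsfin.subset fun χ h => h.1
    have hle1 : (S.ncard : ℝ) ≤ (T.ncard : ℝ) := by
      rw [hST]
      exact_mod_cast Set.ncard_le_ncard Set.inter_subset_left hTfin
    have hle2 : (T.ncard : ℝ) ≤ (S.ncard : ℝ) + ((Cs \ Φ).ncard : ℝ) := by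
      have h1 : T ⊆ S ∪ (Cs \ Φ) := by
        intro χ hχ
        by_cases h : χ ∈ Φ
        · left
          rw [hST]
          exact ⟨hχ, h⟩
        · exact Or.inr ⟨hχ.1, h⟩
      have h2 : T.ncard ≤ S.ncard + (Cs \ Φ).ncard :=
        (Set.ncard_le_ncard h1 ((hΦfin.subset fun χ h => h.1).union
          (hCsfin.subset Set.diff_subset))).trans (Set.ncard_union_le _ _)
      exact_mod_cast h2
    rw [← hA, ← hTc, abs_le] at hling
    obtain ⟨l1, l2⟩ := hling
    have hp0 := pcr_nonneg C₀ r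
    have hp1 := pcr_le_one C₀ r
    have hh : (0 : ℝ) ≤ (1 / 2 : ℝ) ^ C₀ := by positivity
    have hpd0 : 0 ≤ pcr C₀ r * ((Cs \ Φ).ncard : ℝ) := mul_nonneg hp0 hD0
    have hpd1 : pcr C₀ r * ((Cs \ Φ).ncard : ℝ) ≤ ((Cs \ Φ).ncard : ℝ) :=
      mul_le_of_le_one_left hD0 hp1
    have hpA : pcr C₀ r * (A.ncard : ℝ) = pcr C₀ r * (Φ.ncard : ℝ) +
        pcr C₀ r * ((Cs \ Φ).ncard : ℝ) := by
      rw [← hsplit, mul_add]
    have hup : (θ + (1 / 2) ^ C₀) * (A.ncard : ℝ) + θ * (A.ncard : ℝ) ≤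
        (6 * θ + 2 * (1 / 2) ^ C₀) * (Φ.ncard : ℝ) := by
      have e1 : (2 * θ + (1 / 2) ^ C₀) * (A.ncard : ℝ) ≤
          (2 * θ + (1 / 2) ^ C₀) * (2 * (Φ.ncard : ℝ)) :=
        mul_le_mul_of_nonneg_left hA2 (by positivity)
      nlinarith [mul_nonneg hθ0 hΦ0]
    rw [abs_le]
    constructor
    · linarith
    · linarith

end Pool.Agent.H467.PG.Fib

end

section
/-
# The distribution in a fibre: the number of the elements of `AJ`
-/


open Finset Filter WithZero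
open Pool.Agent.H467.PT
open Pool.Agent.H467.GK
open Pool.Agent.H467.CT (AS Bas Ev)
open scoped Classical

namespace Pool.Agent.H467.PG.FibC

theorem dl_fin {K : Type} [Field K] [CharP K 2] {t : K} (ht : Bas t) {ι : Type} (V : Finset ι)
    (g : ι → K) (hg : ∀ P, g P ≠ 0) : dl t (∏ P ∈ V, g P) = ∑ P ∈ V, dl t (g P) := by
  induction V using Finset.induction_on with
  | empty => simpa using dl_one ht
  | insert a s ha ih =>
    rw [Finset.prod_insert ha, Finset.sum_insert ha, dl_mul ht (hg a) (Finset.prod_ne_zero_iff.2 fun i _ => hg i), ih]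

theorem mkq_add {K : Type} [Field K] [CharP K 2] (x y : K) : mkq (x + y) = mkq x + mkq y := rfl

theorem mkq_self {K : Type} [Field K] [CharP K 2] (χ : Qc K) : χ + χ = 0 := by
  induction χ using QuotientAddGroup.induction_on with
  | H a =>
    show mkq a + mkq a = 0
    rw [← mkq_add, CharTwo.add_self_eq_zero]
    rfl

section

variable {k K : Type} [Field k] [Field K] [CharP K 2] [Algebra k K] {F : GF k K}
  {B : Finset (PV K)}

theorem psi0 (bd : BD F B) (U : Finset (Ob B)) (Ψ : K → ZMod 2) (hΨ : ∀ x y, Ψ (x + y) = Ψ x + Ψ y)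
    (hrow : ∀ i, Ψ (dl F.G.t (ro bd U i)) = 0) (d : K) (hd : d ≠ 0)
    (hEv : ∀ j : Ob B, j ∉ U → Ev (j.1.1 d)) : Ψ (dl F.G.t d) = 0 := by
  obtain ⟨V, hV, e, y, hy, h⟩ := bd.gen U d hd hEv
  have h0 : Ψ 0 = 0 := by
    have := hΨ 0 0
    rw [add_zero] at this
    exact left_eq_add.1 this
  have hne1 : (∏ P ∈ V, bd.g P) ≠ 0 := Finset.prod_ne_zero_iff.2 fun i _ => bd.gne i
  have hne2 : (∏ i, bd.u i ^ (e i).val) ≠ 0 := Finset.prod_ne_zero_iff.2 fun i _ => pow_ne_zero _ (bd.une i)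
  have hsum : ∀ (W : Finset (Ob B)), W ⊆ U → Ψ (∑ P ∈ W, dl F.G.t (bd.g P)) = 0 := by
    intro W
    induction W using Finset.induction_on with
    | empty => intro _; simpa using h0
    | insert a s ha ih =>
      intro hs
      rw [Finset.sum_insert ha, hΨ, ih (fun x hx => hs (Finset.mem_insert_of_mem hx)), add_zero]
      exact hrow (Sum.inr ⟨a, hs (Finset.mem_insert_self _ _)⟩)
  have e1 : dl F.G.t d = (∑ P ∈ V, dl F.G.t (bd.g P)) + dl F.G.t (∏ i, bd.u i ^ (e i).val) := by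
    rw [h]
    unfold pd
    rw [dl_mul F.G.bas (mul_ne_zero hne1 hne2) (pow_ne_zero 2 hy), dl_sq F.G.bas, add_zero,
      dl_mul F.G.bas hne1 hne2, dl_fin F.G.bas V bd.g bd.gne]
  rw [e1, hΨ, hsum V hV, zero_add]
  have e2 := dl_prod F.G.bas (u := bd.u) bd.une e Ψ hΨ 1
  rw [one_mul] at e2
  rw [e2]
  refine Finset.sum_eq_zero fun i _ => ?_
  rw [one_mul]
  have := hrow (Sum.inl i)
  have e3 : ro bd U (Sum.inl i) = bd.u i := rfl
  rw [e3] at this
  rw [this, mul_zero]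

/-- the extension of a family -/
noncomputable def ext {Ul : Finset (Ob B)} (f : Ul → K) (v : Ob B) : K := if hv : v ∈ Ul then f ⟨v, hv⟩ else 0

/-- the extension to all places -/
noncomputable def ex2 (h : Ob B → K) (j : PV K) : K := if hj : j ∉ B then h ⟨j, hj⟩ else 0

theorem ex2_ob (h : Ob B → K) (v : Ob B) : ex2 h v.1 = h v := by
  unfold ex2
  rw [dif_pos v.2]

theorem ex2_B (h : Ob B → K) (j : PV K) (hj : j ∈ B) : ex2 h j = 0 := by
  unfold ex2
  rw [dif_neg (by simpa using hj)]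

/-- the places of `B` and `U` -/
noncomputable def SS (U : Finset (Ob B)) : Finset (PV K) := B ∪ U.map ⟨Subtype.val, Subtype.val_injective⟩

theorem not_SS {U : Finset (Ob B)} (j : Ob B) (hj : j ∉ U) : j.1 ∉ SS U := by
  unfold SS
  rw [Finset.mem_union, Finset.mem_map]
  rintro (h | ⟨v, hv, h⟩)
  · exact j.2 h
  · have h1 : v = j := Subtype.ext h
    rw [h1] at hv
    exact hj hv

theorem sum_SS (U : Finset (Ob B)) (h : Ob B → K) (z : K) :
    ∑ j ∈ SS U, F.G.sy j (ex2 h j * z) = ∑ v ∈ U, F.G.sy v.1 (h v * z) := by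
  have h0 : ∀ j, F.G.sy j 0 = 0 := fun j => by
    have := F.G.add j 0 0
    rw [add_zero] at this
    exact left_eq_add.1 this
  have hd : Disjoint B (U.map ⟨Subtype.val, Subtype.val_injective⟩) := by
    rw [Finset.disjoint_left]
    intro j hj h1
    rw [Finset.mem_map] at h1
    obtain ⟨v, -, h2⟩ := h1
    rw [← h2] at hj
    exact v.2 hj
  unfold SS
  rw [Finset.sum_union hd, Finset.sum_map]
  have h1 : ∑ j ∈ B, F.G.sy j (ex2 h j * z) = 0 := by
    refine Finset.sum_eq_zero fun j hj => ?_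
    rw [ex2_B h j hj, zero_mul, h0]
  rw [h1, zero_add]
  refine Finset.sum_congr rfl fun v _ => ?_
  show F.G.sy v.1 (ex2 h v.1 * z) = _
  rw [ex2_ob]

theorem mem_SS {U : Finset (Ob B)} (v : Ob B) (hv : v ∈ U) : v.1 ∈ SS U :=
  Finset.mem_union_right _ (Finset.mem_map.2 ⟨v, hv, rfl⟩)

theorem B_SS {U : Finset (Ob B)} (j : PV K) (hj : j ∈ B) : j ∈ SS U := Finset.mem_union_left _ hj

theorem fin_AJ [Finite k] (hP : S_POQ) (hU : S_UBG) (R : GFR k K) (U : Finset (Ob B)) (L : ℕ) :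
    (AJ R B U L).Finite := by
  obtain ⟨C, -, h⟩ := hU k K R
  obtain ⟨h1, -⟩ := h (Finsupp.indicator (U.map ⟨Subtype.val, Subtype.val_injective⟩) (fun _ _ => 1))
  refine h1.subset fun χ hχ j => ?_
  obtain ⟨-, -, -, p4, p5, -, p7, -⟩ := hP K j
  obtain ⟨a1, a2, a3, a4⟩ := hχ
  set D : PV K →₀ ℕ := Finsupp.indicator (U.map ⟨Subtype.val, Subtype.val_injective⟩) (fun _ _ => 1) with hD
  have key : poq j χ ≤ 2 * D j := by
    by_cases hj : j ∈ B
    · rw [p7 χ (a1 j hj)]; exact Nat.zero_le _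
    · by_cases hv : (⟨j, hj⟩ : Ob B) ∈ U
      · rcases le_or_gt (R.deg j) L with hd | hd
        · rw [p7 χ (a2 ⟨j, hj⟩ hv hd)]; exact Nat.zero_le _
        · have h2 : Ple j (exp ((1 : ℕ) : ℤ)) χ := a3 ⟨j, hj⟩ hv hd
          have h3 := (p4 χ 1).1 h2
          have h4 : D j = 1 := by
            have hm : j ∈ U.map ⟨Subtype.val, Subtype.val_injective⟩ := Finset.mem_map.2 ⟨⟨j, hj⟩, hv, rfl⟩
            rw [hD, Finsupp.indicator_apply]
            exact dif_pos hm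
          omega
      · have h2 : Ple j 1 χ := a4 ⟨j, hj⟩ hv
        rw [(p5 χ).2 h2]; exact Nat.zero_le _
  have h2 := (p4 χ (2 * D j)).2 key
  have e : ((2 * D j : ℕ) : ℤ) = 2 * (D j : ℤ) := by push_cast; ring
  rw [e] at h2
  exact h2

end

theorem fibc (hP : S_POQ) (_hS : S_SYM) (hL : S_LLC) (hC : S_CFX) (hU : S_UBG) : S_FIBC := by
  intro k K _ _ _ _ _ F B bd U L
  have hfin : (AJ F.R B U L).Finite := fin_AJ hP hU F.R U L
  refine ⟨hfin, ?_⟩
  set Ul : Finset (Ob B) := U.filter (fun p => L < F.R.deg p.1) with hUl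
  have hUlU : ∀ v ∈ Ul, v ∈ U := fun v hv => (Finset.mem_filter.1 hv).1
  choose T hT using fun j : PV K => hL k K F.R j
  set S : Finset (Ul → K) := Fintype.piFinset (fun v : Ul => T v.1.1) with hS
  have hcard1 : S.card = 2 ^ Ul.card * Nat.card k ^ ((sysB F.R B).dg Ul) := by
    rw [hS, Fintype.card_piFinset]
    have e1 : ∏ v : Ul, (T v.1.1).card = ∏ v ∈ Ul, (2 * Nat.card k ^ F.R.deg v.1) := by
      rw [← Finset.prod_coe_sort Ul (fun v => 2 * Nat.card k ^ F.R.deg v.1)]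
      exact Finset.prod_congr rfl fun v _ => (hT v.1.1).1
    rw [e1, Finset.prod_mul_distrib, Finset.prod_const, Finset.prod_pow_eq_pow_sum]
    rfl
  have hq : 0 < Nat.card k := Nat.card_pos
  have hS0 : (0 : ℝ) < S.card := by
    rw [hcard1]
    push_cast
    positivity
  let y : (Ul → K) → (Fin bd.n ⊕ U → ZMod 2) := fun f i =>
    ∑ v ∈ U, F.G.sy v.1 (ext f v * dl F.G.t (ro bd U i))
  have hcard2 : Fintype.card (Fin bd.n ⊕ U → ZMod 2) = 2 ^ (bd.n + U.card) := by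
    simp
  obtain ⟨y0, -, hy0⟩ := Finset.exists_le_card_fiber_of_nsmul_le_card_of_maps_to (s := S)
    (t := (Finset.univ : Finset (Fin bd.n ⊕ U → ZMod 2))) (f := y)
    (b := (S.card : ℝ) / 2 ^ (bd.n + U.card)) (fun _ _ => Finset.mem_univ _) Finset.univ_nonempty (by
      rw [nsmul_eq_mul, Finset.card_univ, hcard2]
      push_cast
      rw [mul_div_cancel₀]
      positivity)
  set Φ : Finset (Ul → K) := S.filter (fun f => y f = y0) with hΦ
  have hΦ0 : 0 < Φ.card := by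
    have h1 : (0 : ℝ) < Φ.card := lt_of_lt_of_le (by positivity) hy0
    exact_mod_cast h1
  obtain ⟨f0, hf0⟩ := Finset.card_pos.1 hΦ0
  have hmemS : ∀ f ∈ Φ, ∀ v : Ul, f v ∈ T v.1.1 := fun f hf v =>
    Fintype.mem_piFinset.1 (Finset.mem_filter.1 hf).1 v
  have hex : ∀ f ∈ Φ, ∃ x : K, (∀ j : PV K, j ∉ SS U → j.1 x ≤ 1) ∧
      ∀ j ∈ SS U, Sp j.1 (x + ex2 (fun v => ext f v + ext f0 v) j) := by
    intro f hf
    refine hC k K F (SS U) (bd.sub.trans Finset.subset_union_left) (ex2 (fun v => ext f v + ext f0 v)) ?_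
    intro d hd hEv
    rw [sum_SS]
    refine psi0 bd U (fun z => ∑ v ∈ U, F.G.sy v.1 ((ext f v + ext f0 v) * z)) ?_ ?_ d hd
      (fun j hj => hEv j.1 (not_SS j hj))
    · intro a b
      simp only [mul_add, F.G.add, Finset.sum_add_distrib]
    · intro i
      have h1 : ∑ v ∈ U, F.G.sy v.1 ((ext f v + ext f0 v) * dl F.G.t (ro bd U i)) = y f i + y f0 i := by
        simp only [y, add_mul, F.G.add, Finset.sum_add_distrib]
      show ∑ v ∈ U, F.G.sy v.1 ((ext f v + ext f0 v) * dl F.G.t (ro bd U i)) = 0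
      rw [h1, (Finset.mem_filter.1 hf).2, (Finset.mem_filter.1 hf0).2]
      exact CharTwo.add_self_eq_zero _
  choose! x hx1 hx2 using hex
  have hmaps : ∀ f ∈ (Φ : Set (Ul → K)), mkq (x f) ∈ AJ F.R B U L := by
    intro f hf
    have hf' : f ∈ Φ := hf
    refine ⟨fun j hj => ?_, fun j hj hd => ?_, fun j hj hd => ?_, fun j hj => ?_⟩
    · have h1 := hx2 f hf' j (B_SS j hj)
      rw [ex2_B _ j hj, add_zero] at h1
      exact ((hP K j).2.1 _).1 h1
    · have h1 := hx2 f hf' j.1 (mem_SS j hj)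
      have hnot : j ∉ Ul := fun h => absurd (Finset.mem_filter.1 h).2 (not_lt.2 hd)
      have h2 : ex2 (fun v => ext f v + ext f0 v) j.1 = (0 : K) := by
        rw [ex2_ob]
        simp only [ext, dif_neg hnot, add_zero]
      rw [h2, add_zero] at h1
      exact ((hP K j.1).2.1 _).1 h1
    · obtain ⟨z, hz⟩ := hx2 f hf' j.1 (mem_SS j hj)
      have hjl : j ∈ Ul := Finset.mem_filter.2 ⟨hj, hd⟩
      rw [ex2_ob] at hz
      simp only [ext, dif_pos hjl] at hz
      have g1 : j.1.1 (f ⟨j, hjl⟩) ≤ exp (1 : ℤ) := (hT j.1).2.1 _ (hmemS f hf' ⟨j, hjl⟩)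
      have g2 : j.1.1 (f0 ⟨j, hjl⟩) ≤ exp (1 : ℤ) := (hT j.1).2.1 _ (hmemS f0 hf0 ⟨j, hjl⟩)
      refine ⟨x f + z ^ 2 + z, ?_, ?_⟩
      · have h3 : mkq (z ^ 2 + z) = (0 : Qc K) := by
          unfold mkq
          rw [QuotientAddGroup.eq_zero_iff]
          exact ⟨z, rfl⟩
        rw [add_assoc, mkq_add, h3, add_zero]
      · have e1 : x f + z ^ 2 + z = (x f + (f ⟨j, hjl⟩ + f0 ⟨j, hjl⟩) + z ^ 2 + z) +
            (f ⟨j, hjl⟩ + f0 ⟨j, hjl⟩) := by
          have c2 : (2 : K) = 0 := CharTwo.two_eq_zero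
          linear_combination (-(f ⟨j, hjl⟩ + f0 ⟨j, hjl⟩)) * c2
        rw [e1]
        refine (Valuation.map_add _ _ _).trans (max_le ?_ ?_)
        · exact hz.le.trans (by rw [← exp_zero]; exact exp_le_exp.2 (by norm_num))
        · exact (Valuation.map_add _ _ _).trans (max_le g1 g2)
    · exact ⟨x f, rfl, hx1 f hf' j.1 (not_SS j hj)⟩
  have hinj : Set.InjOn (fun f => mkq (x f)) (Φ : Set (Ul → K)) := by
    intro f hf f' hf' he
    have hf1 : f ∈ Φ := hf
    have hf2 : f' ∈ Φ := hf'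
    have he' : mkq (x f) = mkq (x f') := he
    funext v
    obtain ⟨-, q2, -, -, -, q6, -⟩ := hP K v.1.1
    have s1 := (q2 _).1 (hx2 f hf1 v.1.1 (mem_SS v.1 (hUlU v.1 v.2)))
    have s2 := (q2 _).1 (hx2 f' hf2 v.1.1 (mem_SS v.1 (hUlU v.1 v.2)))
    have s3 := q6 _ _ s1 s2
    rw [ex2_ob, ex2_ob] at s3
    simp only [ext, dif_pos v.2] at s3
    rw [← mkq_add] at s3
    have e1 : x f + (f v + f0 v) + (x f' + (f' v + f0 v)) = (f v + f' v) + (x f + x f') := by
      have c2 : (2 : K) = 0 := CharTwo.two_eq_zero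
      linear_combination (f0 v) * c2
    have s4 : Spl v.1.1 (mkq (f v + f' v)) := by
      have s5 : Spl v.1.1 (mkq (x f + (f v + f0 v) + (x f' + (f' v + f0 v)))) := s3
      rw [e1, mkq_add, mkq_add (x f) (x f'), he', mkq_self, add_zero] at s5
      exact s5
    exact (hT v.1.1).2.2.1 _ (hmemS f hf1 v) _ (hmemS f' hf2 v) ((q2 _).2 s4)
  have hcard : Φ.card ≤ (AJ F.R B U L).ncard := by
    rw [← Set.ncard_coe_finset Φ]
    exact Set.ncard_le_ncard_of_injOn _ hmaps hinj hfin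
  have hUc : Ul.card + (U.filter (fun p => F.R.deg p.1 ≤ L)).card = U.card := by
    rw [hUl, ← Finset.card_filter_add_card_filter_not (s := U) (fun p => L < F.R.deg p.1)]
    simp only [not_lt]
  have hcr : (Φ.card : ℝ) ≤ ((AJ F.R B U L).ncard : ℝ) := by exact_mod_cast hcard
  set c : ℕ := (U.filter (fun p => F.R.deg p.1 ≤ L)).card with hc
  set Q : ℝ := (Nat.card k : ℝ) ^ ((sysB F.R B).dg Ul) with hQ
  have hQ0 : 0 < Q := by positivity
  have hy1 : 2 ^ Ul.card * Q ≤ (Φ.card : ℝ) * 2 ^ (bd.n + U.card) := by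
    rw [div_le_iff₀ (by positivity)] at hy0
    rw [hcard1] at hy0
    push_cast at hy0
    exact hy0
  have hy2 : 2 ^ Ul.card * Q ≤ 2 ^ Ul.card * ((Φ.card : ℝ) * 2 ^ (bd.n + c)) := by
    refine hy1.trans (le_of_eq ?_)
    rw [← hUc]
    ring
  have hy3 : Q ≤ (Φ.card : ℝ) * 2 ^ (bd.n + c) := le_of_mul_le_mul_left hy2 (by positivity)
  refine hy3.trans ?_
  refine mul_le_mul hcr ?_ (by positivity) (by positivity)
  exact pow_le_pow_right₀ (by norm_num) (by have := bd.hn; omega)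

end Pool.Agent.H467.PG.FibC

end

section
/-
# The dependent column (`S_FIBK`, helper643 for helper81)
-/


open Finset Filter WithZero
open Pool.Agent.H467.PT
open Pool.Agent.H467.GK
open Pool.Agent.H467.PG
open Pool.Agent.H467.CT (AS Bas Ev)
open scoped Classical

namespace Pool.Agent.H467.PG.FibK

section

variable {k K : Type} [Field k] [Finite k] [Field K] [CharP K 2] [Algebra k K] {F : GF k K}
  {B : Finset (PV K)}

theorem fin_res (R : GFR k K) (j : PV K) :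
    Finite (IsLocalRing.ResidueField j.1.valuationSubring) := by
  apply Nat.finite_of_card_ne_zero
  rw [R.resc]
  exact pow_ne_zero _ Nat.card_pos.ne'

theorem ro_ne (bd : BD F B) (U : Finset (Ob B)) (i : Fin bd.n ⊕ U) : ro bd U i ≠ 0 := by
  rcases i with i | P
  · exact bd.une i
  · exact bd.gne P.1

theorem ro_one (bd : BD F B) (U : Finset (Ob B)) (i : Fin bd.n ⊕ U) (j : Ob B) (hj : j ∉ U) :
    j.1.1 (ro bd U i) = 1 := by
  rcases i with i | P
  · exact bd.uun i j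
  · refine bd.gun P.1 j ?_
    intro h
    exact hj (h ▸ P.2)

theorem sy_zero (G : GFS K) (j : PV K) : G.sy j 0 = 0 := by
  have h := G.add j 0 0
  rw [add_zero] at h
  exact left_eq_add.1 h

/-- the places of `B` and `U` -/
noncomputable def s0 (B : Finset (PV K)) (U : Finset (Ob B)) : Finset (PV K) :=
  B ∪ U.image Subtype.val

theorem sum_pr (hsym : S_SYM) (bd : BD F B) (U : Finset (Ob B)) (χ : Qc K)
    (hχ : ∀ j : Ob B, j ∉ U → poq j.1 χ = 0) (i : Fin bd.n ⊕ U) :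
    ∑ j ∈ s0 B U, pr F.G j (ro bd U i) χ = 0 := by
  have hval : ∀ j : PV K, j ∉ s0 B U → pr F.G j (ro bd U i) χ = 0 := by
    intro j hj
    have hjB : j ∉ B := fun h => hj (Finset.mem_union_left _ h)
    have hjU : (⟨j, hjB⟩ : Ob B) ∉ U := fun h =>
      hj (Finset.mem_union_right _ (Finset.mem_image.2 ⟨_, h, rfl⟩))
    have h1 := ro_one bd U i ⟨j, hjB⟩ hjU
    have h2 := hχ ⟨j, hjB⟩ hjU
    refine (hsym K F.G j (fin_res F.R j)).2.2.2.2.2.1 χ _ (ro_ne bd U i) h2 ?_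
    rw [show j.1 (ro bd U i) = 1 from h1]
    exact ⟨0, by simp⟩
  by_cases hf : χ.out * dl F.G.t (ro bd U i) = 0
  · refine Finset.sum_eq_zero fun j _ => ?_
    show F.G.sy j (χ.out * dl F.G.t (ro bd U i)) = 0
    rw [hf, sy_zero]
  · obtain ⟨D, hD, -⟩ := F.R.dvd _ hf
    have h1 := F.G.sum (s0 B U ∪ D.support) (fun j hj =>
      Finset.mem_union_left _ (Finset.mem_union_left _ (bd.sub (F.hB hj))))
      (χ.out * dl F.G.t (ro bd U i)) (by
        intro j hj
        have h2 : D j = 0 := by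
          by_contra hc
          exact hj (Finset.mem_union_right _ (Finsupp.mem_support_iff.2 hc))
        rw [hD, h2, exp_zero])
    rw [← h1]
    refine Finset.sum_subset Finset.subset_union_left ?_
    intro j _ hj
    exact hval j hj

/-- the coefficient -/
noncomputable def ep (χ : Qc K) (j : PV K) : ZMod 2 := if poq j χ = 0 ∧ Spl j χ then 0 else 1

theorem pr_eq (hsym : S_SYM) (F : GF k K) (χ : Qc K) (j : PV K) (d : K) (hd : d ≠ 0) :
    pr F.G j d χ = ep χ j * tt F.G j d χ := by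
  obtain ⟨-, -, -, -, h5, h6, h7, -⟩ := hsym K F.G j (fin_res F.R j)
  unfold ep tt
  by_cases h0 : poq j χ = 0
  · by_cases hs : Spl j χ
    · rw [if_pos ⟨h0, hs⟩, zero_mul, h5 χ d hd hs]
    · rw [if_neg (fun h => hs h.2), one_mul, if_pos h0]
      by_cases he : Ev (j.1 d)
      · rw [if_pos he, h6 χ d hd h0 he]
      · rw [if_neg he, h7 χ d hd h0 hs he]
  · rw [if_neg (fun h => h0 h.1), one_mul, if_neg h0]

end

theorem fibk : S_POQ → S_SYM → S_FIBK := by
  intro _ hsym k K _ _ _ _ _ F B bd U χ v₀ hv₀ hχ hpv e heB heU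
  refine ⟨heB, ?_⟩
  intro j hj
  by_cases hjv : j = v₀
  · subst hjv
    have h1 : ∑ i, e i * ∑ l ∈ s0 B U, pr F.G l (ro bd U i) χ = 0 := by
      refine Finset.sum_eq_zero fun i _ => ?_
      rw [sum_pr hsym bd U χ hχ i, mul_zero]
    have h2 : ∑ l ∈ s0 B U, ep χ l * ∑ i, e i * tt F.G l (ro bd U i) χ = 0 := by
      rw [← h1]
      simp_rw [Finset.mul_sum]
      rw [Finset.sum_comm]
      refine Finset.sum_congr rfl fun i _ => Finset.sum_congr rfl fun l _ => ?_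
      rw [pr_eq hsym F χ l _ (ro_ne bd U i)]
      ring
    have h3 : j.1 ∈ s0 B U := Finset.mem_union_right _ (Finset.mem_image.2 ⟨j, hj, rfl⟩)
    rw [Finset.sum_eq_single_of_mem j.1 h3] at h2
    · rw [show ep χ j.1 = 1 from if_neg (fun h => hpv h.1), one_mul] at h2
      exact h2
    · intro l hl hlj
      rcases Finset.mem_union.1 hl with h | h
      · rw [heB l h, mul_zero]
      · obtain ⟨m, hm, rfl⟩ := Finset.mem_image.1 h
        rw [heU m hm (fun h => hlj (congrArg Subtype.val h)), mul_zero]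
  · exact heU j hj hjv

end Pool.Agent.H467.PG.FibK

end

section
/-
# Few classes are unramified at a given place
-/


open Finset Filter WithZero
open Pool.Agent.H467.PT
open Pool.Agent.H467.GK
open Pool.Agent.H467.CT (AS Bas Ev)
open scoped Classical

namespace Pool.Agent.H467.PG.FibN

theorem qadd {K : Type} [Field K] [CharP K 2] (x : Qc K) : x + x = 0 := by
  induction x using QuotientAddGroup.induction_on with
  | H a =>
    rw [← QuotientAddGroup.mk_add, CharTwo.add_self_eq_zero]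
    rfl

theorem mkadd {K : Type} [Field K] [CharP K 2] (a b : K) : mkq (a + b) = mkq a + mkq b := rfl

theorem mkzero {K : Type} [Field K] [CharP K 2] : mkq (0 : K) = 0 := rfl

theorem fibn : S_POQ → S_DIR → S_LLC → S_UBG → S_FIBN := by
  intro hPOQ hDIR hLLC hUBG k K _ _ _ _ _ F B bd U L χ₁ p p₀ hp hLp hp₀ hLp₀ hne hRl
  -- elementary facts
  have hUn : ∀ (j : PV K) (x : K), Un j.1 x ↔ Ple j 1 (mkq x) := fun j => (hPOQ K j).1
  have hPle : ∀ (j : PV K) (χ : Qc K) (n : ℕ), Ple j (exp (n : ℤ)) χ ↔ poq j χ ≤ n :=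
    fun j => (hPOQ K j).2.2.2.1
  have hP0 : ∀ (j : PV K) (χ : Qc K), poq j χ = 0 ↔ Ple j 1 χ := fun j => (hPOQ K j).2.2.2.2.1
  have hSadd : ∀ (j : PV K) (χ χ' : Qc K), Spl j χ → Spl j χ' → Spl j (χ + χ') :=
    fun j => (hPOQ K j).2.2.2.2.2.1
  have hS0 : ∀ (j : PV K) (χ : Qc K), Spl j χ → poq j χ = 0 := fun j =>
    (hPOQ K j).2.2.2.2.2.2.1
  have hmax : ∀ (j : PV K) (χ χ' : Qc K), poq j (χ + χ') ≤ max (poq j χ) (poq j χ') := fun j =>
    (hPOQ K j).2.2.2.2.2.2.2.1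
  have hSeq : ∀ (j : PV K) (χ χ' : Qc K), Spl j (χ + χ') → poq j χ = poq j χ' := fun j =>
    (hPOQ K j).2.2.2.2.2.2.2.2.1
  have hPle1 : ∀ (j : PV K) (χ : Qc K), Ple j (exp (1 : ℤ)) χ ↔ poq j χ ≤ 1 := by
    intro j χ
    have := hPle j χ 1
    simpa using this
  -- description of AJ
  have hAJ : ∀ δ : Qc K, δ ∈ AJ F.R B U L ↔ (∀ j ∈ B, Spl j δ) ∧
      (∀ j ∈ U, F.R.deg j.1 ≤ L → Spl j.1 δ) ∧ (∀ j ∈ U, L < F.R.deg j.1 → poq j.1 δ ≤ 1) ∧
      ∀ j : Ob B, j ∉ U → poq j.1 δ = 0 := by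
    intro δ
    constructor
    · rintro ⟨h1, h2, h3, h4⟩
      exact ⟨h1, h2, fun j hj hL => (hPle1 _ _).1 (h3 j hj hL), fun j hj => (hP0 _ _).2 (h4 j hj)⟩
    · rintro ⟨h1, h2, h3, h4⟩
      exact ⟨h1, h2, fun j hj hL => (hPle1 _ _).2 (h3 j hj hL), fun j hj => (hP0 _ _).1 (h4 j hj)⟩
  have hadd : ∀ δ δ' : Qc K, δ ∈ AJ F.R B U L → δ' ∈ AJ F.R B U L → δ + δ' ∈ AJ F.R B U L := by
    intro δ δ' h h'
    rw [hAJ] at h h' ⊢
    obtain ⟨h1, h2, h3, h4⟩ := h
    obtain ⟨h1', h2', h3', h4'⟩ := h'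
    refine ⟨fun j hj => hSadd _ _ _ (h1 j hj) (h1' j hj),
      fun j hj hL => hSadd _ _ _ (h2 j hj hL) (h2' j hj hL), fun j hj hL => ?_, fun j hj => ?_⟩
    · exact (hmax _ _ _).trans (max_le (h3 j hj hL) (h3' j hj hL))
    · have h5 := hmax j.1 δ δ'
      rw [h4 j hj, h4' j hj] at h5
      simpa using h5
  -- finiteness
  have hfin : (AJ F.R B U L).Finite := by
    obtain ⟨C, _, hC⟩ := hUBG k K F.R
    let D : PV K →₀ ℕ := ∑ j ∈ U, Finsupp.single j.1 1
    refine (hC D).1.subset ?_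
    intro δ hδ
    rw [hAJ] at hδ
    obtain ⟨h1, h2, h3, h4⟩ := hδ
    intro j
    have key : poq j δ ≤ 2 * D j := by
      by_cases hjB : j ∈ B
      · rw [hS0 j δ (h1 j hjB)]
        exact Nat.zero_le _
      · by_cases hjU : (⟨j, hjB⟩ : Ob B) ∈ U
        · have hD : 1 ≤ D j := by
            have e1 : D j = ∑ i ∈ U, (Finsupp.single i.1 1 : PV K →₀ ℕ) j := by
              simp only [D, Finsupp.finset_sum_apply]
            rw [e1]
            calc 1 = (Finsupp.single j 1 : PV K →₀ ℕ) j := by simp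
              _ ≤ _ := Finset.single_le_sum
                (f := fun i : Ob B => (Finsupp.single i.1 1 : PV K →₀ ℕ) j)
                (fun i _ => Nat.zero_le _) hjU
          have h5 : poq j δ ≤ 1 := by
            rcases le_or_gt (F.R.deg j) L with h | h
            · rw [hS0 j δ (h2 ⟨j, hjB⟩ hjU h)]
              exact Nat.zero_le _
            · exact h3 ⟨j, hjB⟩ hjU h
          omega
        · have := h4 ⟨j, hjB⟩ hjU
          change poq j δ = 0 at this
          omega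
    have h6 := (hPle j δ (2 * D j)).2 key
    have e2 : ((2 * D j : ℕ) : ℤ) = 2 * (D j : ℤ) := by push_cast; ring
    rw [e2] at h6
    exact h6
  -- local classes
  obtain ⟨T, _, hT1, _, _, T₁, hT₁T, hT₁c, hT₁⟩ := hLLC k K F.R p.1
  have hδ : ∀ c : K, ∃ δ : Qc K, c ∈ T₁ → δ ∈ AJ F.R B U L ∧ Spl p.1 (δ + mkq c) := by
    intro c
    by_cases hc : c ∈ T₁
    · obtain ⟨δ, d1, d2, d3, d4⟩ := hDIR k K F B bd U p₀ hp₀ hRl (fun j => if j = p.1 then c else 0)
      have d5 : ∀ j ∈ B, Spl j δ := by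
        intro j hj
        have h1 := d1 j hj
        have h2 : j ≠ p.1 := fun h => p.2 (h ▸ hj)
        simp only [h2, if_false, mkzero, add_zero] at h1
        exact h1
      have d6 : ∀ j ∈ U, j ≠ p₀ → j ≠ p → Spl j.1 δ := by
        intro j hj hj0 hjp
        have h1 := d2 j hj hj0
        have h2 : j.1 ≠ p.1 := fun h => hjp (Subtype.ext h)
        simp only [h2, if_false, mkzero, add_zero] at h1
        exact h1
      have d7 : Spl p.1 (δ + mkq c) := by
        have h1 := d2 p hp (Ne.symm hne)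
        simpa only [if_true] using h1
      refine ⟨δ, fun _ => ⟨?_, d7⟩⟩
      rw [hAJ]
      refine ⟨d5, fun j hj hL => ?_, fun j hj hL => ?_, fun j hj => (hP0 _ _).2 (d4 j hj)⟩
      · apply d6 j hj
        · rintro rfl
          omega
        · rintro rfl
          omega
      · by_cases h0 : j = p₀
        · subst h0
          exact (hPle1 _ _).1 d3
        · by_cases h1 : j = p
          · subst h1
            rw [hSeq j.1 δ (mkq c) d7, ← hPle1]
            exact ⟨c, rfl, hT1 c (hT₁T hc)⟩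
          · rw [hS0 _ _ (d6 j hj h0 h1)]
            exact Nat.zero_le _
    · exact ⟨0, fun h => absurd h hc⟩
  choose δ hδ using hδ
  -- the injection
  have hcard : ((T₁ : Set K) ×ˢ {χ : Qc K | χ + χ₁ ∈ AJ F.R B U L ∧ poq p.1 χ = 0}).ncard =
      Nat.card k ^ F.R.deg p.1 * {χ : Qc K | χ + χ₁ ∈ AJ F.R B U L ∧ poq p.1 χ = 0}.ncard := by
    rw [Set.ncard_prod, Set.ncard_coe_finset, hT₁c]
  rw [← hcard]
  apply Set.ncard_le_ncard_of_injOn (fun x : K × Qc K => x.2 + χ₁ + δ x.1) _ _ hfin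
  · rintro ⟨c, χ⟩ ⟨hc, hχ⟩
    exact hadd _ _ hχ.1 (hδ c hc).1
  · rintro ⟨c, χ⟩ ⟨hc, hχ⟩ ⟨c', χ'⟩ ⟨hc', hχ'⟩ heq
    have hc1 : c ∈ T₁ := hc
    have hc2 : c' ∈ T₁ := hc'
    have hz : poq p.1 χ = 0 := hχ.2
    have hz' : poq p.1 χ' = 0 := hχ'.2
    have he : χ + χ₁ + δ c = χ' + χ₁ + δ c' := heq
    have e1 : δ c + δ c' = χ + χ' := by
      have h1 : χ + χ₁ + δ c + (χ₁ + δ c' + χ) = χ' + χ₁ + δ c' + (χ₁ + δ c' + χ) := by rw [he]
      have h2 : χ + χ₁ + δ c + (χ₁ + δ c' + χ) = (χ + χ) + (χ₁ + χ₁) + (δ c + δ c') := by abel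
      have h3 : χ' + χ₁ + δ c' + (χ₁ + δ c' + χ) = (χ₁ + χ₁) + (δ c' + δ c') + (χ + χ') := by abel
      rw [h2, h3, qadd χ, qadd χ₁, qadd (δ c')] at h1
      simpa using h1
    have e2 : poq p.1 (δ c + δ c') = 0 := by
      rw [e1]
      have := hmax p.1 χ χ'
      rw [hz, hz'] at this
      simpa using this
    have e3 : Spl p.1 ((δ c + δ c') + mkq (c + c')) := by
      have h1 := hSadd _ _ _ (hδ c hc1).2 (hδ c' hc2).2
      have h2 : δ c + mkq c + (δ c' + mkq c') = (δ c + δ c') + mkq (c + c') := by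
        rw [mkadd]; abel
      rwa [h2] at h1
    have e4 : poq p.1 (mkq (c + c')) = 0 := by
      rw [← hSeq _ _ _ e3, e2]
    have e5 : c = c' := hT₁ c hc1 c' hc2 ((hUn _ _).2 ((hP0 _ _).1 e4))
    subst e5
    have e6 : χ = χ' := by
      have := add_right_cancel he
      exact add_right_cancel this
    rw [e6]

end Pool.Agent.H467.PG.FibN

end

section
/-
# The distribution in a fibre
-/


namespace Pool.Agent.H467.PG.Fib

theorem fib : S_LING → S_ORDG → S_SVM → S_JIN → S_DIR → S_LDG → S_LLC → S_CFX → S_UBG → S_POQ →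
    S_SYM → S_FIB :=
  fun hLING hORDG hSVM hJIN hDIR hLDG hLLC hCFX hUBG hPOQ hSYM =>
    fib0 hLING hORDG hSVM hJIN hDIR hLDG hPOQ hSYM (FibC.fibc hPOQ hSYM hLLC hCFX hUBG)
      (FibK.fibk hPOQ hSYM) (FibN.fibn hPOQ hDIR hLLC hUBG)

end Pool.Agent.H467.PG.Fib

end
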