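import Pool.Agent.H467.PG.Fin0
import Pool.Agent.H467.PG.Chb
import Pool.Agent.H467.PG.Fib

/-!
# Distribution of a Selmer group over all twists: the last step

Project PG (helper467).
-/

set_option autoImplicit false
set_option linter.all false

namespace Pool.Agent.H467.PG.Fin

theorem hCHB : S_CHB := Chb.chb Gfr.gfr Taub.taub hPKG hPOQ

theorem hFIB : S_FIB := Fib.fib Ling.ling Ordg.ordg hSVM hJIN hDIR Ldg.ldg hLLC hCFX hUBG hPOQ hSYM

theorem dst : S_DST := hDST hCHB hFIB

end Pool.Agent.H467.PG.Fin
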