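import Pool.Agent.H467.PG.SpecB
import Pool.Agent.H467.CT.Crv2
import Pool.Agent.H467.GK.Infb
import Pool.Agent.H467.GK.Fink
import Pool.Agent.H467.GK.Dra
import Pool.Agent.H467.GK.Drb
import Pool.Agent.H467.GK.Drc

/-!
# Project PG: finitely many points over a general global function field of characteristic two
-/

set_option autoImplicit false
set_option linter.all false

open Polynomial IsDedekindDomain WithZero WeierstrassCurve WeierstrassCurve.Affine
open Pool.Agent.H467.GK
open scoped Classical

namespace Pool.Agent.H467.PG.Fn2a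

open Pool.Agent.H467.CT

/-- descent -/
theorem descent {G : Type} (f : G → G) (hinj : Function.Injective f)
    (hsurj : Function.Surjective f) (ht : G → ℕ) (C : ℕ) (hkey : ∀ P, 4 * ht P ≤ ht (f P) + C)
    (hfin : {P | ht P ≤ C}.Finite) : Finite G := by
  set B0 : Set G := {P | ht P ≤ C} with hB0
  have hsub : f ⁻¹' B0 ⊆ B0 := by
    intro P hP
    have h3 := hkey P
    have h4 : ht (f P) ≤ C := hP
    show ht P ≤ C
    omega
  have heq : f ⁻¹' B0 = B0 := by
    refine Set.eq_of_subset_of_ncard_le hsub ?_ hfin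
    rw [Set.ncard_preimage_of_injective_subset_range hinj]
    intro P _
    obtain ⟨Q, hQ⟩ := hsurj P
    exact ⟨Q, hQ⟩
  have hall : ∀ n : ℕ, ∀ P : G, ht P = n → P ∈ B0 := by
    intro n
    induction n using Nat.strong_induction_on with
    | _ n ih =>
      intro P hP
      by_cases hc : ht P ≤ C
      · exact hc
      · obtain ⟨Q, hQ⟩ := hsurj P
        have h3 := hkey Q
        rw [hQ] at h3
        have h4 : Q ∈ B0 := ih (ht Q) (by omega) Q rfl
        rw [← heq] at h4
        have h5 : f Q ∈ B0 := h4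
        rwa [hQ] at h5
  have huniv : B0 = Set.univ := Set.eq_univ_of_forall fun P => hall _ P rfl
  rw [huniv] at hfin
  exact Set.finite_univ_iff.1 hfin

theorem core {O K : Type} [CommRing O] [IsDedekindDomain O] [Field K] [CharP K 2] [Algebra O K]
    [IsFractionRing O K] [Finite (ClassGroup O)] (w : Vl K)
    (hge : ∀ x : O, x ≠ 0 → 1 ≤ w (algebraMap O K x))
    (hfn : ∀ N : ℤ, {x : O | w (algebraMap O K x) ≤ exp N}.Finite)
    (W : Affine K) (A b : K) (h : Std W A (b ^ 2)) (hA : ¬ AS A)
    (T : W.Point) (hTe : ∃ h, T = Point.some 0 b h)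
    (hdiv : ∀ P : W.Point, ∃ Q, Q + Q = P ∨ Q + Q = P + T) : Finite W.Point := by
  obtain ⟨hT, eT⟩ := hTe
  have h2 : (2 : K) = 0 := CharTwo.two_eq_zero
  have hx0two : ∀ (y : K) (hn : W.Nonsingular 0 y),
      (Point.some 0 y hn : W.Point) + Point.some 0 y hn = 0 := by
    intro y hn
    have h3 := h.opp (x := 0) (y := y) (by rw [add_zero]; exact hn) hn
    have h4 : (Point.some 0 (y + 0) (by rw [add_zero]; exact hn) : W.Point) =
        Point.some 0 y hn := by
      congr 1
      rw [add_zero]
    rw [h4] at h3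
    exact h3
  have hTT : T + T = 0 := by rw [eT]; exact hx0two b hT
  have hTne : T ≠ 0 := by rw [eT]; exact Point.some_ne_zero hT
  have hx0 : ∀ (y : K) (hn : W.Nonsingular 0 y), (Point.some 0 y hn : W.Point) = T := by
    intro y hn
    have e := h.eq_of hn
    have e1 : y ^ 2 = b ^ 2 := by linear_combination e
    obtain rfl := sq_inj2 e1
    exact eT.symm
  have htwo : ∀ P : W.Point, P + P = 0 → P = 0 ∨ P = T := by
    intro P hP
    rcases two_cases h hP with e | ⟨y, hy, h', e⟩
    · exact Or.inl e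
    · right
      rw [e]
      exact hx0 y h'
  have hTn : ∀ Q : W.Point, Q + Q ≠ T := by
    intro Q hQ
    rcases Q with _ | ⟨x, y, hn⟩
    · apply hTne
      rw [← hQ, ← Point.zero_def, add_zero]
    · by_cases hx : x = 0
      · subst hx
        rw [hx0two y hn] at hQ
        exact hTne hQ.symm
      · have hl : (x ^ 2 + y) / x * x = x ^ 2 + y := div_mul_cancel₀ _ hx
        set l := (x ^ 2 + y) / x with hldef
        obtain ⟨n1, e1⟩ := h.tang hn hx hl rfl rfl
        rw [e1, eT, Point.some.injEq] at hQ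
        apply hA
        exact ⟨l, by linear_combination hQ.1 - (l ^ 2 + l) * h2⟩
  obtain ⟨C, hC⟩ := Fink.key (O := O) w hge (b ^ 2) h.b0
  have hfinH : Finite {P : W.Point // ∃ Q, Q + Q = P} := by
    refine descent (fun P : {P : W.Point // ∃ Q, Q + Q = P} => ⟨P.1 + P.1, P.1, rfl⟩) ?_ ?_
      (fun P => Fink.ht O w P.1) C ?_ ?_
    · rintro ⟨P, Q, hQ⟩ ⟨P', Q', hQ'⟩ hPP
      have e1 : P + P = P' + P' := congrArg Subtype.val hPP
      have e2 : (P - P') + (P - P') = 0 := by
        rw [sub_add_sub_comm, e1, sub_self]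
      rcases htwo _ e2 with e3 | e3
      · exact Subtype.ext (sub_eq_zero.1 e3)
      · exfalso
        apply hTn (Q - Q')
        rw [sub_add_sub_comm, hQ, hQ']
        exact e3
    · rintro ⟨P, Q, hQ⟩
      obtain ⟨R, hR⟩ := hdiv Q
      refine ⟨⟨R + R, R, rfl⟩, Subtype.ext ?_⟩
      show (R + R) + (R + R) = P
      rcases hR with hR | hR
      · rw [hR, hQ]
      · rw [hR, add_add_add_comm, hTT, add_zero, hQ]
    · rintro ⟨P, Q, hQ⟩
      show 4 * Fink.ht O w P ≤ Fink.ht O w (P + P) + C
      rcases P with _ | ⟨x, y, hn⟩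
      · show 4 * 0 ≤ _
        omega
      · have hx : x ≠ 0 := by
          rintro rfl
          rw [hx0 y hn] at hQ
          exact hTn Q hQ
        have hl : (x ^ 2 + y) / x * x = x ^ 2 + y := div_mul_cancel₀ _ hx
        set l := (x ^ 2 + y) / x with hldef
        obtain ⟨n1, e1⟩ := h.tang hn hx hl rfl rfl
        rw [e1]
        show 4 * Fink.hh O w x ≤ Fink.hh O w _ + C
        apply hC x _ hx
        have e := h.eq_of hn
        linear_combination (l * x + x ^ 2 + y + x) * hl + e +
          (x ^ 2 * y + A * x ^ 2 + x ^ 3) * h2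
    · have h3 := Fink.fin_ht (O := O) w hge hfn h C
      exact h3.preimage Subtype.val_injective.injOn
  refine Finite.of_surjective
    (fun p : {P : W.Point // ∃ Q, Q + Q = P} × Bool => if p.2 then p.1.1 else p.1.1 + T) ?_
  intro P
  obtain ⟨Q, hQ⟩ := hdiv P
  rcases hQ with hQ | hQ
  · exact ⟨(⟨P, Q, hQ⟩, true), rfl⟩
  · refine ⟨(⟨P + T, Q, hQ⟩, false), ?_⟩
    show P + T + T = P
    rw [add_assoc, hTT, add_zero]

theorem fn2a : S_FN2A := by
  intro k K _ _ _ _ _ _ hK W A b h hA T hT hdiv
  obtain ⟨φ, hφ, hpres⟩ := Drc.dri Dra.dra Drb.drb k K hK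
  letI i1 : Algebra (RatFunc k) K := φ.toAlgebra
  obtain ⟨hfd, hsep, w, hinf⟩ := hpres
  haveI := hfd
  haveI := hsep
  letI i2 : Algebra k[X] K := (φ.comp (algebraMap k[X] (RatFunc k))).toAlgebra
  haveI i3 : IsScalarTower k[X] (RatFunc k) K := IsScalarTower.of_algebraMap_eq fun _ => rfl
  haveI : IsDedekindDomain (integralClosure k[X] K) :=
    integralClosure.isDedekindDomain k[X] (RatFunc k) K
  haveI : IsFractionRing (integralClosure k[X] K) K :=
    IsIntegralClosure.isFractionRing_of_finite_extension k[X] (RatFunc k) K _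
  have hF := Infb.infb k (RatFunc k) K (integralClosure k[X] K) w hinf
  haveI : Fintype k := Fintype.ofFinite k
  haveI : Finite (ClassGroup (integralClosure k[X] K)) := by
    haveI := ClassGroup.fintypeOfAdmissibleOfFinite (S := integralClosure k[X] K) (RatFunc k) K
      (Polynomial.cardPowDegreeIsAdmissible :
        AbsoluteValue.IsAdmissible (Polynomial.cardPowDegree : AbsoluteValue k[X] ℤ))
    exact Finite.of_fintype _
  exact core (O := integralClosure k[X] K) w hF.ge_one hF.fin W A b h hA T hT hdiv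

end Pool.Agent.H467.PG.Fn2a
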