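import Pool.Agent.H467.PG.SpecB

/-!
# Project PG, part GFP: the places outside a finite set are principal modulo this set (helper390)

If `w` is a place and `M` is large, then every divisor of degree in `[M, M + deg w)` is linearly
equivalent to an effective divisor, which is supported on the places of degree at most `M + deg w`.
So these places generate the divisors modulo the principal divisors.
-/

set_option autoImplicit false
set_option linter.all false

open Finset WithZero
open Pool.Agent.TH115.GD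
open Pool.Agent.H467.GK
open scoped Classical

namespace Pool.Agent.H467.PG.Gfp

variable {K : Type} [Field K]

theorem ddg_add (deg : PV K → ℕ) (D E : PV K →₀ ℤ) : ddg deg (D + E) = ddg deg D + ddg deg E := by
  unfold ddg
  rw [Finsupp.sum_add_index']
  · intro j
    exact zero_mul _
  · intro j a b
    exact add_mul _ _ _

theorem ddg_single (deg : PV K → ℕ) (j : PV K) (n : ℤ) :
    ddg deg (Finsupp.single j n) = n * deg j := by
  unfold ddg
  rw [Finsupp.sum_single_index]
  exact zero_mul _

/-- The places of the support of an effective divisor have at most its degree. -/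
theorem deg_le {deg : PV K → ℕ} {E : PV K →₀ ℤ} (hE : ∀ j, 0 ≤ E j) {i : PV K} (hi : E i ≠ 0) :
    (deg i : ℤ) ≤ ddg deg E := by
  have h1 : E i * (deg i : ℤ) ≤ ddg deg E := by
    unfold ddg Finsupp.sum
    exact Finset.single_le_sum (f := fun j => E j * (deg j : ℤ))
      (fun j _ => mul_nonneg (hE j) (Int.natCast_nonneg _)) (Finsupp.mem_support_iff.2 hi)
  have h2 : 1 ≤ E i := by
    have := hE i
    omega
  have h3 : (0 : ℤ) ≤ (deg i : ℤ) := Int.natCast_nonneg _
  nlinarith

theorem gfp : S_GFP := by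
  intro k K _ _ _ _ _ R
  by_cases hw : Nonempty (PV K)
  swap
  · exact ⟨∅, fun s _ j _ => (hw ⟨j⟩).elim⟩
  obtain ⟨w⟩ := hw
  -- the lower bound for the degrees
  obtain ⟨M, hM1, hM2⟩ : ∃ M : ℤ, R.N₀ ≤ M ∧ R.gam + 1 ≤ M :=
    ⟨max R.N₀ (R.gam + 1), le_max_left _ _, le_max_right _ _⟩
  have hdw : (0 : ℤ) < R.deg w := by exact_mod_cast R.pos w
  refine ⟨R.le ((M + R.deg w).toNat) ∪ {w}, ?_⟩
  intro s hs j hj
  have hws : w ∈ s := hs (Finset.mem_union_right _ (Finset.mem_singleton_self w))
  have hwj : w ≠ j := fun h => hj (h ▸ hws)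
  -- the divisor
  let r : ℤ := (-(R.deg j : ℤ) - M) % (R.deg w : ℤ)
  let n : ℤ := -((-(R.deg j : ℤ) - M) / (R.deg w : ℤ))
  have hr0 : 0 ≤ r := Int.emod_nonneg _ hdw.ne'
  have hr1 : r < R.deg w := Int.emod_lt_of_pos _ hdw
  have hrn : r = -(R.deg j : ℤ) - M + n * R.deg w := by
    have h := Int.emod_add_mul_ediv (-(R.deg j : ℤ) - M) (R.deg w : ℤ)
    have h2 : n * (R.deg w : ℤ) = -((R.deg w : ℤ) * ((-(R.deg j : ℤ) - M) / (R.deg w : ℤ))) := by
      show -((-(R.deg j : ℤ) - M) / (R.deg w : ℤ)) * (R.deg w : ℤ) = _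
      ring
    rw [h2]
    show (-(R.deg j : ℤ) - M) % (R.deg w : ℤ) = _
    linarith
  set D : PV K →₀ ℤ := Finsupp.single j (-1) + Finsupp.single w n with hD
  have hdD : ddg R.deg D = M + r := by
    rw [hD, ddg_add, ddg_single, ddg_single, hrn]
    ring
  obtain ⟨m, hm, hcard⟩ := R.riem D (by rw [hdD]; linarith)
  have hm1 : 1 ≤ m := by
    have : (1 : ℤ) ≤ m := by rw [hm, hdD]; linarith
    exact_mod_cast this
  have hk : 1 < Nat.card k := Finite.one_lt_card
  have hone : 1 < (LLs D).ncard := by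
    rw [hcard]
    exact Nat.one_lt_pow (by omega) hk
  obtain ⟨x, hx, hx0⟩ := Set.exists_ne_of_one_lt_ncard hone 0
  obtain ⟨Dx, hDx, hdeg⟩ := R.dvd x hx0
  have hE : ∀ i, 0 ≤ (D - Dx) i := by
    intro i
    have h1 := hx i
    rw [hDx i, WithZero.exp_le_exp] at h1
    rw [Finsupp.sub_apply]
    linarith
  have hdE : ddg R.deg (D - Dx) = M + r := by
    have h1 := ddg_add R.deg (D - Dx) Dx
    rw [sub_add_cancel, hdeg, hdD] at h1
    linarith
  have hout : ∀ i, i ∉ s → Dx i = D i := by
    intro i hi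
    by_contra hne
    have h1 : (D - Dx) i ≠ 0 := by
      rw [Finsupp.sub_apply]
      intro h
      exact hne (by linarith)
    have h2 := deg_le (deg := R.deg) hE h1
    rw [hdE] at h2
    apply hi
    apply hs
    apply Finset.mem_union_left
    rw [R.mem_le]
    have h3 : (R.deg i : ℤ) ≤ M + R.deg w := by linarith
    omega
  refine ⟨x, ?_, ?_⟩
  · rw [hDx j, hout j hj, hD, Finsupp.add_apply, Finsupp.single_eq_same,
      Finsupp.single_eq_of_ne hwj.symm, add_zero]
  · intro i hi hij
    have hwi : w ≠ i := fun h => hi (h ▸ hws)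
    rw [hDx i, hout i hi, hD, Finsupp.add_apply, Finsupp.single_eq_of_ne hij,
      Finsupp.single_eq_of_ne hwi.symm, add_zero]
    exact WithZero.exp_zero

end Pool.Agent.H467.PG.Gfp
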