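import Pool.Agent.H467.PG.SpecB
import Pool.Agent.H467.MR.Zeta

/-!
# Degrees of places and Riemann's theorem for the places as valuations (helper155)
-/

set_option autoImplicit false
set_option linter.all false
set_option linter.overlappingInstances false

open Module Pool.Agent.H525R3.FFp WithZero
open FF (Place)
open Pool.Agent.H467.GK (Vl)
open scoped Classical

namespace Pool.Agent.H467.PG.Gfr

/-! ### The single step of the strong approximation -/

section step

variable {k K : Type} [Field k] [Field K] [Algebra k K] [PerfectField k] [FF.IsFF k K]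

theorem step_surj (D : Place k K →₀ ℤ) (P : Place k K)
    (h : ell (D + Finsupp.single P 1) = ell D + P.deg) (g : K) (hg : g = 0 ∨ -(D P + 1) ≤ P.ord g) :
    ∃ f ∈ LL (D + Finsupp.single P 1), f + g = 0 ∨ -D P ≤ P.ord (f + g) := by
  classical
  obtain ⟨t, ht0, ht⟩ := P.surj
  let D' := D + Finsupp.single P 1
  have hreg : ∀ f : LL D', P.Reg (f.1 * t ^ (D P + 1)) := by
    rintro ⟨f, hf⟩
    by_cases hf0 : f = 0
    · left; simp [hf0]
    · right
      have h1 := (hf.resolve_left hf0) P
      rw [P.ord_mul hf0 (zpow_ne_zero _ ht0), P.ord_zpow, ht]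
      simp only [D', Finsupp.add_apply, Finsupp.single_eq_same] at h1
      omega
  let φ : LL D' →ₗ[k] P.RF :=
    { toFun := fun f => P.red (f.1 * t ^ (D P + 1))
      map_add' := by
        intro f g
        rw [← P.red_add (hreg f) (hreg g), ← add_mul]; rfl
      map_smul' := by
        intro c f
        rw [RingHom.id_apply, Algebra.smul_def c (P.red _), Place.algebraMap_RF,
          ← P.red_mul (P.reg_const c) (hreg f), ← mul_assoc, ← Algebra.smul_def]; rfl }
  have hker : LinearMap.ker φ = (LL D).comap (LL D').subtype := by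
    ext f
    rw [LinearMap.mem_ker, Submodule.mem_comap]
    change P.red (f.1 * t ^ (D P + 1)) = 0 ↔ f.1 ∈ LL D
    rw [P.red_eq_zero_iff (hreg f)]
    by_cases hf0 : f.1 = 0
    · simp [hf0]
    · rw [P.ord_mul hf0 (zpow_ne_zero _ ht0), P.ord_zpow, ht]
      have h1 : f.1 * t ^ (D P + 1) ≠ 0 := mul_ne_zero hf0 (zpow_ne_zero _ ht0)
      simp only [h1, false_or]
      rw [mem_LL]
      simp only [hf0, false_or]
      constructor
      · intro h2 Q
        by_cases hQ : Q = P
        · subst hQ; omega
        · have := (f.2.resolve_left hf0) Q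
          simp only [D', Finsupp.add_apply, Finsupp.single_eq_of_ne hQ] at this
          omega
      · intro h2
        have := h2 P; omega
  have hle : LL D ≤ LL D' := by
    apply LL_mono
    intro Q
    simp only [D', Finsupp.add_apply]
    have : (0 : ℤ) ≤ Finsupp.single P 1 Q := by
      by_cases hQ : Q = P
      · subst hQ; simp
      · rw [Finsupp.single_eq_of_ne hQ]
    omega
  let e : LinearMap.ker φ ≃ₗ[k] LL D :=
    (LinearEquiv.ofEq _ _ hker).trans (Submodule.comapSubtypeEquivOfLe hle)
  have h4 := LinearMap.finrank_range_add_finrank_ker φ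
  rw [e.finrank_eq] at h4
  have h5 : finrank k (LinearMap.range φ) = finrank k P.RF := by
    have h6 : (finrank k (LL D') : ℤ) = finrank k (LL D) + P.deg := h
    have h7 : (finrank k P.RF : ℤ) = P.deg := rfl
    omega
  have : FiniteDimensional k P.RF := FiniteDimensional.of_finrank_pos (deg_pos P)
  have htop : LinearMap.range φ = ⊤ := Submodule.eq_top_of_finrank_eq h5
  have hregg : P.Reg (g * t ^ (D P + 1)) := by
    rcases eq_or_ne g 0 with hg0 | hg0
    · left; rw [hg0, zero_mul]
    · right
      rw [P.ord_mul hg0 (zpow_ne_zero _ ht0), P.ord_zpow, ht]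
      have := hg.resolve_left hg0
      omega
  have h8 : -P.red (g * t ^ (D P + 1)) ∈ LinearMap.range φ := by rw [htop]; trivial
  obtain ⟨f, hf⟩ := h8
  refine ⟨f.1, f.2, ?_⟩
  have h9 : P.red ((f.1 + g) * t ^ (D P + 1)) = 0 := by
    rw [add_mul, P.red_add (hreg f) hregg]
    have : P.red (f.1 * t ^ (D P + 1)) = -P.red (g * t ^ (D P + 1)) := hf
    rw [this, neg_add_cancel]
  have h10 : P.Reg ((f.1 + g) * t ^ (D P + 1)) := by
    rw [add_mul]; exact P.reg_add (hreg f) hregg
  rcases eq_or_ne (f.1 + g) 0 with h0 | h0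
  · exact Or.inl h0
  · right
    rw [P.red_eq_zero_iff h10] at h9
    have h11 := h9.resolve_left (mul_ne_zero h0 (zpow_ne_zero _ ht0))
    rw [P.ord_mul h0 (zpow_ne_zero _ ht0), P.ord_zpow, ht] at h11
    omega

end step

/-! ### Valuations and places -/

section equiv

variable {k K : Type} [Field k] [Finite k] [Field K] [Algebra k K]

theorem val_const (u : Vl K) (c : k) (hc : c ≠ 0) : u (algebraMap k K c) = 1 := by
  letI : Fintype k := Fintype.ofFinite k
  have h1 : c ^ (Fintype.card k - 1) = 1 := FiniteField.pow_card_sub_one_eq_one c hc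
  have h2 : u (algebraMap k K c) ^ (Fintype.card k - 1) = 1 := by
    rw [← map_pow, ← map_pow, h1, map_one, map_one]
  have h3 : u (algebraMap k K c) ≠ 0 := (Valuation.ne_zero_iff u).2 (by
    rw [Ne, map_eq_zero]; exact hc)
  have h4 := congrArg WithZero.log h2
  rw [WithZero.log_pow, WithZero.log_one, smul_eq_zero] at h4
  have h5 : 1 < Fintype.card k := Fintype.one_lt_card
  have h6 : WithZero.log (u (algebraMap k K c)) = 0 := h4.resolve_left (by omega)
  rw [← WithZero.exp_log h3, h6, WithZero.exp_zero]

variable (k) in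
/-- The place of a surjective valuation. -/
noncomputable def toP (j : PV K) : Place k K :=
  FF.Place.ofVal j.1 (j.2 _) (val_const j.1)

theorem ord_toP (j : PV K) (x : K) : (toP k j).ord x = -WithZero.log (j.1 x) := rfl

theorem val_eq (j : PV K) {x : K} (hx : x ≠ 0) : j.1 x = exp (-(toP k j).ord x) := by
  rw [ord_toP, neg_neg, WithZero.exp_log ((Valuation.ne_zero_iff j.1).2 hx)]

theorem val_le (j : PV K) (x : K) (n : ℤ) :
    j.1 x ≤ exp n ↔ (x = 0 ∨ -n ≤ (toP k j).ord x) := by
  rcases eq_or_ne x 0 with h | h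
  · simp [h]
  · rw [val_eq (k := k) j h, WithZero.exp_le_exp]
    constructor
    · intro h1; right; omega
    · intro h1; have := h1.resolve_left h; omega

theorem toP_injective : Function.Injective (toP k : PV K → Place k K) := by
  intro j j' h
  apply Subtype.ext
  ext x
  rcases eq_or_ne x 0 with hx | hx
  · rw [hx, map_zero, map_zero]
  · rw [val_eq (k := k) j hx, val_eq (k := k) j' hx, h]

theorem toP_surjective : Function.Surjective (toP k : PV K → Place k K) := by
  intro P
  let u : Vl K :=
    { toFun := fun x => if x = 0 then 0 else exp (-P.ord x)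
      map_zero' := if_pos rfl
      map_one' := by
        rw [if_neg one_ne_zero, P.ord_one, neg_zero, WithZero.exp_zero]
      map_mul' := by
        intro x y
        rcases eq_or_ne x 0 with hx | hx
        · rw [hx, zero_mul, if_pos rfl, zero_mul]
        rcases eq_or_ne y 0 with hy | hy
        · rw [hy, mul_zero, if_pos rfl, mul_zero]
        rw [if_neg (mul_ne_zero hx hy), if_neg hx, if_neg hy, P.ord_mul hx hy, ← WithZero.exp_add]
        congr 1
        ring
      map_add_le_max' := by
        intro x y
        rcases eq_or_ne x 0 with hx | hx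
        · rw [hx, zero_add]; exact le_max_right _ _
        rcases eq_or_ne y 0 with hy | hy
        · rw [hy, add_zero]; exact le_max_left _ _
        rcases eq_or_ne (x + y) 0 with hxy | hxy
        · rw [if_pos hxy]; exact zero_le'
        rw [if_neg hxy, if_neg hx, if_neg hy, le_max_iff, WithZero.exp_le_exp, WithZero.exp_le_exp]
        have := P.ord_add hx hy hxy
        rcases min_le_iff.1 this with h | h
        · left; omega
        · right; omega }
  have hu : ∀ x : K, x ≠ 0 → u x = exp (-P.ord x) := fun x hx => if_neg hx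
  have hs : Function.Surjective u := by
    intro γ
    rcases eq_or_ne γ 0 with h | h
    · exact ⟨0, by rw [map_zero, h]⟩
    · obtain ⟨t, ht0, ht⟩ := P.surj
      refine ⟨t ^ (-WithZero.log γ), ?_⟩
      rw [hu _ (zpow_ne_zero _ ht0), P.ord_zpow, ht, mul_one, neg_neg, WithZero.exp_log h]
  refine ⟨⟨u, hs⟩, ?_⟩
  ext x
  rw [ord_toP]
  rcases eq_or_ne x 0 with hx | hx
  · rw [hx, map_zero, WithZero.log_zero, P.ord_zero, neg_zero]
  · show -WithZero.log (u x) = P.ord x
    rw [hu x hx, WithZero.log_exp, neg_neg]

theorem toP_O (j : PV K) : (toP k j).O = j.1.valuationSubring := by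
  ext x
  rw [Place.mem_O, Valuation.mem_valuationSubring_iff]
  have h := val_le (k := k) j x 0
  rw [WithZero.exp_zero, neg_zero] at h
  exact h.symm

end equiv

/-! ### Transport of the divisors -/

section transport

variable {k K : Type} [Field k] [Finite k] [Field K] [Algebra k K] [FF.IsFF k K]

variable (k) in
/-- The divisor of places. -/
noncomputable def TD (D : PV K →₀ ℤ) : Place k K →₀ ℤ := D.mapDomain (toP k)

theorem TD_apply (D : PV K →₀ ℤ) (j : PV K) : TD k D (toP k j) = D j :=
  Finsupp.mapDomain_apply toP_injective _ _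

variable (k) in
/-- The degree. -/
noncomputable def dg (j : PV K) : ℕ := (toP k j).deg

theorem ddeg_TD (D : PV K →₀ ℤ) : ddeg (TD k D) = ddg (dg k) D := by
  unfold ddeg TD ddg dg
  rw [Finsupp.sum_mapDomain_index_inj toP_injective]

theorem LLs_eq (D : PV K →₀ ℤ) : LLs D = (LL (TD k D) : Set K) := by
  ext x
  rw [SetLike.mem_coe, mem_LL]
  unfold LLs
  constructor
  · intro h
    rcases eq_or_ne x 0 with hx | hx
    · exact Or.inl hx
    · right
      intro P
      obtain ⟨j, rfl⟩ := toP_surjective P
      rw [TD_apply]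
      exact ((val_le (k := k) j x (D j)).1 (h j)).resolve_left hx
  · intro h j
    rw [val_le (k := k)]
    rcases h with h | h
    · exact Or.inl h
    · right
      have := h (toP k j)
      rwa [TD_apply] at this

theorem TD_mono {D E : PV K →₀ ℤ} (h : D ≤ E) : TD k D ≤ TD k E := by
  intro P
  obtain ⟨j, rfl⟩ := toP_surjective P
  rw [TD_apply, TD_apply]
  exact h j

theorem ncard_LLs (D : PV K →₀ ℤ) : (LLs D).ncard = Nat.card k ^ finrank k (LL (TD k D)) := by
  rw [LLs_eq (k := k), ← Pool.Agent.H467.MR.Zeta.card_LL]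
  rfl

theorem dg_pos (j : PV K) : 0 < dg k j := deg_pos _

theorem ddg_mono {D E : PV K →₀ ℤ} (h : D ≤ E) : ddg (dg k) D ≤ ddg (dg k) E := by
  rw [← ddeg_TD, ← ddeg_TD]
  exact ddeg_mono (TD_mono h)

theorem TD_add (D E : PV K →₀ ℤ) : TD k (D + E) = TD k D + TD k E := Finsupp.mapDomain_add

theorem TD_single (j : PV K) (n : ℤ) : TD k (Finsupp.single j n) = Finsupp.single (toP k j) n :=
  Finsupp.mapDomain_single

/-- The single step. -/
theorem sa_step {γ N : ℤ} (hR : ∀ D : Place k K →₀ ℤ, N ≤ ddeg D → ell D = ddeg D - γ)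
    (D : PV K →₀ ℤ) (j : PV K) (hD : N ≤ ddg (dg k) (D - Finsupp.single j 1)) (g : K)
    (hg : j.1 g ≤ exp (D j)) :
    ∃ x ∈ LLs D, j.1 (x + g) ≤ exp (D j - 1) := by
  set A : PV K →₀ ℤ := D - Finsupp.single j 1 with hA
  have hDA : D = A + Finsupp.single j 1 := (sub_add_cancel _ _).symm
  have hAj : A j = D j - 1 := by
    rw [hA, Finsupp.sub_apply, Finsupp.single_eq_same]
  have hT : TD k D = TD k A + Finsupp.single (toP k j) 1 := by
    rw [hDA, TD_add, TD_single]
  have h1 : ell (TD k A + Finsupp.single (toP k j) 1) = ell (TD k A) + (toP k j).deg := by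
    rw [hR (TD k A) (by rw [ddeg_TD]; exact hD), hR (TD k A + Finsupp.single (toP k j) 1) ?_,
      ddeg_add, ddeg_single]
    · ring
    · rw [ddeg_add, ddeg_single, ddeg_TD]
      have : (0 : ℤ) ≤ 1 * ((toP k j).deg : ℤ) := by positivity
      omega
  have h2 : g = 0 ∨ -(TD k A (toP k j) + 1) ≤ (toP k j).ord g := by
    rw [TD_apply, hAj, sub_add_cancel]
    exact (val_le (k := k) j g (D j)).1 hg
  obtain ⟨f, hf, hf2⟩ := step_surj (TD k A) (toP k j) h1 g h2
  refine ⟨f, ?_, ?_⟩
  · rw [LLs_eq (k := k), hT]
    exact hf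
  · rw [val_le (k := k)]
    rw [TD_apply, hAj] at hf2
    exact hf2

/-- Strong approximation. -/
theorem sa {γ N : ℤ} (hR : ∀ D : Place k K →₀ ℤ, N ≤ ddeg D → ell D = ddeg D - γ)
    (D' : PV K →₀ ℤ) (hN : N ≤ ddg (dg k) D') :
    ∀ (n : ℕ) (D : PV K →₀ ℤ), D' ≤ D → ddg (dg k) D - ddg (dg k) D' ≤ n →
    ∀ f : PV K → K, (∀ j, D' j < D j → j.1 (f j) ≤ exp (D j)) →
      ∃ x ∈ LLs D, ∀ j, D' j < D j → j.1 (x + f j) ≤ exp (D' j) := by
  intro n
  induction n with
  | zero =>
    intro D hD hn f hf
    refine ⟨0, ?_, ?_⟩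
    · intro j
      rw [map_zero]
      exact zero_le'
    · intro j hj
      exfalso
      have h1 : D' + Finsupp.single j 1 ≤ D := by
        intro i
        rw [Finsupp.add_apply]
        by_cases hi : i = j
        · rw [hi, Finsupp.single_eq_same]; omega
        · rw [Finsupp.single_eq_of_ne hi, add_zero]; exact hD i
      have h2 := ddg_mono (k := k) h1
      rw [← ddeg_TD (k := k) (D' + Finsupp.single j 1), TD_add, TD_single, ddeg_add, ddeg_single,
        ddeg_TD] at h2
      have h3 : (0 : ℤ) < (toP k j).deg := by exact_mod_cast deg_pos (toP k j)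
      push_cast at hn
      omega
  | succ n ih =>
    intro D hD hn f hf
    by_cases hex : ∃ j, D' j < D j
    · obtain ⟨j, hj⟩ := hex
      set A : PV K →₀ ℤ := D - Finsupp.single j 1 with hA
      have hAj : A j = D j - 1 := by
        rw [hA, Finsupp.sub_apply, Finsupp.single_eq_same]
      have hAi : ∀ i, i ≠ j → A i = D i := fun i hi => by
        rw [hA, Finsupp.sub_apply, Finsupp.single_eq_of_ne hi, sub_zero]
      have hDA' : D' ≤ A := by
        intro i
        by_cases hi : i = j
        · rw [hi, hAj]; omega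
        · rw [hAi i hi]; exact hD i
      have hdA : ddg (dg k) D = ddg (dg k) A + (toP k j).deg := by
        have hDA : D = A + Finsupp.single j 1 := (sub_add_cancel _ _).symm
        rw [← ddeg_TD, ← ddeg_TD, hDA, TD_add, TD_single, ddeg_add, ddeg_single, one_mul]
      have h3 : (0 : ℤ) < (toP k j).deg := by exact_mod_cast deg_pos (toP k j)
      have hNA : N ≤ ddg (dg k) A := hN.trans (ddg_mono hDA')
      obtain ⟨x₁, hx₁, hx₁'⟩ := sa_step hR D j hNA (f j) (hf j hj)
      have hf' : ∀ i, D' i < A i → i.1 (x₁ + f i) ≤ exp (A i) := by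
        intro i hi
        by_cases hij : i = j
        · rw [hij, hAj]; exact hx₁'
        · rw [hAi i hij] at hi ⊢
          exact (i.1.map_add _ _).trans (max_le (hx₁ i) (hf i hi))
      obtain ⟨y, hy, hy'⟩ := ih A hDA' (by push_cast at hn; omega) (fun i => x₁ + f i) hf'
      refine ⟨x₁ + y, ?_, ?_⟩
      · intro i
        refine (i.1.map_add _ _).trans (max_le (hx₁ i) ((hy i).trans ?_))
        rw [WithZero.exp_le_exp]
        by_cases hij : i = j
        · rw [hij, hAj]; omega
        · rw [hAi i hij]
      · intro i hi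
        have e1 : x₁ + y + f i = y + (x₁ + f i) := by ring
        rw [e1]
        by_cases hi' : D' i < A i
        · exact hy' i hi'
        · have hij : i = j := by
            by_contra hij
            rw [hAi i hij] at hi'
            exact hi' hi
          have hAD : A i = D' i := le_antisymm (not_lt.1 hi') (hDA' i)
          refine (i.1.map_add _ _).trans (max_le ?_ ?_)
          · have := hy i
            rwa [hAD] at this
          · have h5 := hx₁'
            rw [← hAj, ← hij, hAD] at h5
            exact h5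
    · push Not at hex
      refine ⟨0, ?_, ?_⟩
      · intro j
        rw [map_zero]
        exact zero_le'
      · intro j hj
        exact absurd hj (not_lt.2 (hex j))

end transport

/-- Existence of the degrees and Riemann's theorem. -/
theorem gfr : S_GFR := by
  rintro k K _ _ _ _ _ ⟨t, ht, hfin⟩
  haveI : FF.IsFF k K := FF.IsFF.of_finite ht hfin
  obtain ⟨γ, N, -, hR⟩ := riemann k K
  have hfinle : ∀ l : ℕ, {j : PV K | dg k j ≤ l}.Finite := fun l =>
    (Pool.Agent.H467.MR.Zeta.finite_deg (k := k) (F := K) l).preimage toP_injective.injOn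
  refine ⟨
    { deg := dg k
      pos := dg_pos
      le := fun l => (hfinle l).toFinset
      mem_le := fun l j => by
        rw [Set.Finite.mem_toFinset]; rfl
      resc := fun j => ?_
      dvd := fun x hx => ?_
      gam := γ
      N₀ := N
      fin := fun D => ?_
      riem := fun D hD => ?_
      step := fun D E hDE => ?_
      sa := fun D D' hDD hN f hf => ?_ }⟩
  · have h1 := Pool.Agent.H467.MR.Zeta.card_RF (toP k j)
    have h2 : Nat.card (IsLocalRing.ResidueField (toP k j).O) = Nat.card k ^ dg k j := h1
    rw [toP_O] at h2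
    exact h2
  · refine ⟨(-divisor k x).comapDomain (toP k) toP_injective.injOn, fun j => ?_, ?_⟩
    · rw [Finsupp.comapDomain_apply, Finsupp.neg_apply, divisor_apply, val_eq (k := k) j hx]
    · rw [← ddeg_TD]
      have h1 : TD k ((-divisor k x).comapDomain (toP k) toP_injective.injOn) = -divisor k x := by
        ext P
        obtain ⟨j, rfl⟩ := toP_surjective P
        rw [TD_apply, Finsupp.comapDomain_apply]
      rw [h1, ddeg_neg, ddeg_divisor, neg_zero]
  · rw [LLs_eq (k := k)]
    have h1 : Finite (LL (TD k D)) := Module.finite_of_finite k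
    exact Set.finite_coe_iff.1 h1
  · refine ⟨finrank k (LL (TD k D)), ?_, ncard_LLs D⟩
    rw [← ddeg_TD] at hD ⊢
    exact hR _ hD
  · have h1 := ell_le (TD_mono (k := k) hDE)
    have h2 := ddg_mono (k := k) hDE
    refine ⟨(ddg (dg k) E - ddg (dg k) D).toNat, Int.toNat_of_nonneg (by omega), ?_⟩
    rw [ncard_LLs (k := k), ncard_LLs (k := k), ← pow_add]
    refine Nat.pow_le_pow_right Nat.card_pos ?_
    rw [ddeg_TD, ddeg_TD] at h1
    unfold ell at h1
    omega
  · have h2 := ddg_mono (k := k) hDD
    exact sa hR D' hN (ddg (dg k) D - ddg (dg k) D').toNat D hDD (by omega) f hf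

end Pool.Agent.H467.PG.Gfr
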