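import Pool.Agent.H467.PG.SpecB
import Pool.Agent.H467.GK.Infb
import Pool.Agent.H467.GK.Cls
import Pool.Agent.H467.GK.Bas
import Pool.Agent.H467.GK.Hen
import Pool.Agent.H467.GK.Resk
import Pool.Agent.H467.GK.Asm
import Pool.Agent.H467.GK.Dra
import Pool.Agent.H467.GK.Drb
import Pool.Agent.H467.GK.Drc
import Pool.Agent.H467.CT.Res

/-!
# Residue symbols at all places of a global function field of characteristic two (S_GFS)

Project PG (helper467), part GFS.
-/

set_option autoImplicit false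
set_option linter.all false

open Finset Filter WithZero WeierstrassCurve WeierstrassCurve.Affine
open Polynomial IsDedekindDomain
open Pool.Agent.TH115.GD
open Pool.Agent.H467.GK
open Pool.Agent.H467.CT (AS Bas IsTau Std Ev LV LF cc)
open scoped Classical

namespace Pool.Agent.H467.PG.Gfs

/-! ### The local analysis -/

section loc

variable {K : Type} [Field K] [CharP K 2] {u : Vl K}

theorem par1 {π x y : K} (hπ : u π = exp (-1 : ℤ)) :
    u (π * y ^ 2) ≤ u (x ^ 2 + π * y ^ 2) ∧ u (x ^ 2) ≤ u (x ^ 2 + π * y ^ 2) := by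
  have h2 : (2 : K) = 0 := CharTwo.two_eq_zero
  by_cases hy : y = 0
  · subst hy
    have e : x ^ 2 + π * (0 : K) ^ 2 = x ^ 2 := by ring
    rw [e]
    refine ⟨?_, le_refl _⟩
    have e2 : π * (0 : K) ^ 2 = 0 := by ring
    rw [e2, map_zero]
    exact zero_le'
  by_cases hx : x = 0
  · subst hx
    have e : (0 : K) ^ 2 + π * y ^ 2 = π * y ^ 2 := by ring
    rw [e]
    refine ⟨le_refl _, ?_⟩
    have e2 : (0 : K) ^ 2 = 0 := by ring
    rw [e2, map_zero]
    exact zero_le'
  have hne : u (x ^ 2) ≠ u (π * y ^ 2) := by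
    intro h
    have hx1 := exp_log ((Valuation.ne_zero_iff u).2 hx)
    have hy1 := exp_log ((Valuation.ne_zero_iff u).2 hy)
    rw [map_mul, map_pow, map_pow, hπ, ← hx1, ← hy1, pow_two, pow_two, ← exp_add, ← exp_add,
      ← exp_add, exp_inj] at h
    omega
  rw [Valuation.map_add_of_distinct_val u hne]
  exact ⟨le_max_right _ _, le_max_left _ _⟩

/-- The symbol at a place in terms of a uniformiser. -/
theorem loc {t : K} (ht : Bas t) (hu : Function.Surjective u) (S : K → ZMod 2)
    (Sadd : ∀ x y, S (x + y) = S x + S y) (Ssq : ∀ h, S (h ^ 2) = 0)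
    (Sqt : ∀ h, S (h ^ 2 * t) = S h) (Ssm : ∃ n : ℤ, ∀ f, u f ≤ exp n → S f = 0)
    (Snz : ∃ f, S f ≠ 0) :
    ∃ π q : K, u π = exp (-1 : ℤ) ∧ q ≠ 0 ∧ (∃ p, π = p ^ 2 + t * q ^ 2) ∧
      (∀ h, u h ≤ 1 → S (h * q ^ 2) = 0) ∧ (∃ c, u c ≤ 1 ∧ S (c / π * q ^ 2) = 1) ∧
      (∀ c, S (c ^ 2 / π * q ^ 2) = S (c / π * q ^ 2)) ∧
      (∀ d : K, ∃ x y : K, d = x ^ 2 + π * y ^ 2 ∧ dl t d = q ^ 2 * (y ^ 2 / d)) := by
  have c2 : (2 : K) = 0 := CharTwo.two_eq_zero
  obtain ⟨π, hπ⟩ := hu (exp (-1 : ℤ))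
  have hπ0 : π ≠ 0 := by
    rintro rfl
    rw [map_zero] at hπ
    exact exp_ne_zero hπ.symm
  obtain ⟨p, hp⟩ := qq_spec ht π
  set q := qq t π with hq
  have hq0 : q ≠ 0 := by
    intro h0
    rw [h0] at hp
    have e : π = p ^ 2 := by rw [hp]; ring
    have hp0 : p ≠ 0 := by
      rintro rfl
      exact hπ0 (by rw [e]; ring)
    have h1 := exp_log ((Valuation.ne_zero_iff u).2 hp0)
    rw [e, map_pow, ← h1, pow_two, ← exp_add, exp_inj] at hπ
    omega
  have S0 : S 0 = 0 := by
    have := Ssq 0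
    rwa [zero_pow two_ne_zero] at this
  -- the function `F`
  have hF1 : ∀ h, S (h ^ 2 * q ^ 2) = 0 := fun h => by
    rw [← mul_pow]; exact Ssq _
  have hF2 : ∀ h, S (π * h ^ 2 * q ^ 2) = S (h * q ^ 2) := by
    intro h
    have e : π * h ^ 2 * q ^ 2 = (p * h * q) ^ 2 + (h * q ^ 2) ^ 2 * t := by
      conv_lhs => rw [hp]
      ring
    rw [e, Sadd, Ssq, Sqt, zero_add]
  have hFadd : ∀ x y, S ((x + y) * q ^ 2) = S (x * q ^ 2) + S (y * q ^ 2) := fun x y => by
    rw [add_mul, Sadd]
  have hdec : ∀ d : K, ∃ x y : K, d = x ^ 2 + π * y ^ 2 ∧ dl t d = q ^ 2 * (y ^ 2 / d) := by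
    intro d
    obtain ⟨P, hP⟩ := qq_spec ht d
    refine ⟨P + p * (qq t d / q), qq t d / q, ?_, ?_⟩
    · have e : π * (qq t d / q) ^ 2 = p ^ 2 * (qq t d / q) ^ 2 + t * qq t d ^ 2 := by
        have e1 : π * (qq t d / q) ^ 2 = (p ^ 2 + t * q ^ 2) * (qq t d / q) ^ 2 := by
          rw [← hp]
        rw [e1]
        field_simp
      rw [e]
      conv_lhs => rw [hP]
      linear_combination (-(P * (p * (qq t d / q))) - (p * (qq t d / q)) ^ 2) * c2
    · unfold dl
      by_cases hd : d = 0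
      · rw [hd]; simp
      · field_simp
  have hne : u π ≠ 0 := by rw [hπ]; exact exp_ne_zero
  -- vanishing on small elements
  obtain ⟨n0, hn0⟩ : ∃ n : ℤ, ∀ h, u h ≤ exp n → S (h * q ^ 2) = 0 := by
    obtain ⟨n, hn⟩ := Ssm
    refine ⟨n - 2 * log (u q), fun h hh => hn _ ?_⟩
    have h1 := exp_log ((Valuation.ne_zero_iff u).2 hq0)
    rw [map_mul, map_pow, ← h1]
    calc u h * exp (log (u q)) ^ 2 ≤ exp (n - 2 * log (u q)) * exp (log (u q)) ^ 2 :=
          mul_le_mul_left hh _
      _ = exp n := by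
          rw [pow_two, ← exp_add, ← exp_add]
          congr 1
          ring
  have up1 : ∀ n : ℤ, n ≤ -1 → (∀ h, u h ≤ exp n → S (h * q ^ 2) = 0) →
      ∀ h, u h ≤ exp (n + 1) → S (h * q ^ 2) = 0 := by
    intro n hn hA h hh
    rw [← hF2 h]
    apply hA
    rw [map_mul, map_pow, hπ]
    calc exp (-1 : ℤ) * u h ^ 2 ≤ exp (-1 : ℤ) * exp (n + 1) ^ 2 :=
          mul_le_mul_right (pow_le_pow_left' hh 2) _
      _ = exp (-1 + ((n + 1) + (n + 1))) := by rw [pow_two, ← exp_add, ← exp_add]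
      _ ≤ exp n := by rw [exp_le_exp]; omega
  have hA0 : ∀ h, u h ≤ exp (0 : ℤ) → S (h * q ^ 2) = 0 := by
    have key : ∀ m : ℕ, ∀ n : ℤ, -(m : ℤ) ≤ n → n ≤ 0 →
        (∀ h, u h ≤ exp n → S (h * q ^ 2) = 0) → ∀ h, u h ≤ exp (0 : ℤ) → S (h * q ^ 2) = 0 := by
      intro m
      induction m with
      | zero =>
        intro n h1 h2 h3
        have : n = 0 := by
          have : -((0 : ℕ) : ℤ) = 0 := by norm_num
          omega
        rwa [this] at h3
      | succ m ih =>
        intro n h1 h2 h3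
        by_cases h4 : n ≤ -1
        · exact ih (n + 1) (by push_cast at h1; omega) (by omega) (up1 n h4 h3)
        · have : n = 0 := by omega
          rwa [this] at h3
    by_cases hn : n0 ≤ 0
    · exact key n0.natAbs n0 (by omega) hn hn0
    · intro h hh
      exact hn0 h (hh.trans (by rw [exp_le_exp]; omega))
  -- not vanishing on the elements with simple poles
  have up2 : ∀ n : ℤ, 1 ≤ n → (∀ h, u h ≤ exp n → S (h * q ^ 2) = 0) →
      ∀ h, u h ≤ exp (n + 1) → S (h * q ^ 2) = 0 := by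
    intro n hn hA h hh
    obtain ⟨x, y, hxy, -⟩ := hdec h
    have h1 : u (π * y ^ 2) ≤ exp (n + 1) := by
      refine le_trans ?_ hh
      rw [hxy]
      exact (par1 hπ).1
    have h2 : S (h * q ^ 2) = S (y * q ^ 2) := by
      conv_lhs => rw [hxy]
      rw [hFadd, hF1, hF2, zero_add]
    rw [h2]
    by_cases hy : y = 0
    · rw [hy, zero_mul]; exact S0
    apply hA
    have hy1 := exp_log ((Valuation.ne_zero_iff u).2 hy)
    rw [map_mul, map_pow, hπ, ← hy1, pow_two, ← exp_add, ← exp_add, exp_le_exp] at h1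
    rw [← hy1, exp_le_exp]
    omega
  obtain ⟨h0, hh0, hF0⟩ : ∃ h, u h ≤ exp (1 : ℤ) ∧ S (h * q ^ 2) = 1 := by
    by_contra hcon
    have hA1 : ∀ h, u h ≤ exp (1 : ℤ) → S (h * q ^ 2) = 0 := by
      intro h hh
      rcases Eqk.z2' (S (h * q ^ 2)) with h1 | h1
      · exact h1
      · exact absurd ⟨h, hh, h1⟩ hcon
    have key : ∀ m : ℕ, ∀ h, u h ≤ exp ((m : ℤ) + 1) → S (h * q ^ 2) = 0 := by
      intro m
      induction m with
      | zero => simpa using hA1
      | succ m ih =>
        have := up2 ((m : ℤ) + 1) (by omega) ih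
        intro h hh
        apply this h
        refine hh.trans (le_of_eq ?_)
        congr 1
    obtain ⟨f, hf⟩ := Snz
    apply hf
    have e : f = f / q ^ 2 * q ^ 2 := by field_simp
    rw [e]
    obtain ⟨m, hm⟩ := Eqk.ex_exp (u (f / q ^ 2))
    exact key m _ (hm.trans (by rw [exp_le_exp]; omega))
  refine ⟨π, q, hπ, hq0, ⟨p, hp⟩, ?_, ?_, ?_, hdec⟩
  · intro h hh
    exact hA0 h (by rw [exp_zero]; exact hh)
  · refine ⟨π * h0, ?_, ?_⟩
    · rw [map_mul, hπ]
      calc exp (-1 : ℤ) * u h0 ≤ exp (-1 : ℤ) * exp (1 : ℤ) := mul_le_mul_right hh0 _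
        _ = 1 := by rw [← exp_add]; rfl
    · have e : π * h0 / π = h0 := by field_simp
      rw [e]; exact hF0
  · intro c
    have e : c ^ 2 / π * q ^ 2 = π * (c / π) ^ 2 * q ^ 2 := by field_simp
    rw [e, hF2]

end loc

/-! ### Residue fields -/

section res

variable {K : Type} [Field K] (u : Vl K)

theorem mem_vs (x : K) : x ∈ u.valuationSubring ↔ u x ≤ 1 := Iff.rfl

theorem mem_max (x : u.valuationSubring) :
    x ∈ IsLocalRing.maximalIdeal u.valuationSubring ↔ u (x : K) < 1 := by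
  rw [IsLocalRing.mem_maximalIdeal, mem_nonunits_iff]
  have hx : u (x : K) ≤ 1 := x.2
  constructor
  · intro h
    by_contra h1
    have h2 : u (x : K) = 1 := le_antisymm hx (not_lt.1 h1)
    apply h
    have hx0 : (x : K) ≠ 0 := by
      intro h0
      rw [h0, map_zero] at h2
      exact zero_ne_one h2
    have h3 : u ((x : K)⁻¹) ≤ 1 := by rw [map_inv₀, h2, inv_one]
    refine IsUnit.of_mul_eq_one ⟨(x : K)⁻¹, h3⟩ ?_
    apply Subtype.ext
    exact mul_inv_cancel₀ hx0
  · rintro h ⟨y, hy⟩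
    have h1 : (y⁻¹ : (u.valuationSubring)ˣ).1 * x = 1 := by
      rw [← hy]
      exact y.inv_mul
    have h2 : u (((y⁻¹ : (u.valuationSubring)ˣ).1 * x : u.valuationSubring) : K) =
        u ((1 : u.valuationSubring) : K) :=
      congrArg (fun z : u.valuationSubring => u (z : K)) h1
    have h3 : u (((y⁻¹ : (u.valuationSubring)ˣ).1 * x : u.valuationSubring) : K) =
        u ((y⁻¹ : (u.valuationSubring)ˣ).1 : K) * u (x : K) := by
      rw [← map_mul]
      rfl
    rw [h3] at h2
    have h4 : u ((1 : u.valuationSubring) : K) = 1 := by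
      have : ((1 : u.valuationSubring) : K) = 1 := rfl
      rw [this, map_one]
    rw [h4] at h2
    have h5 : u ((y⁻¹ : (u.valuationSubring)ˣ).1 : K) ≤ 1 := (y⁻¹ : (u.valuationSubring)ˣ).1.2
    have h6 : u ((y⁻¹ : (u.valuationSubring)ˣ).1 : K) * u (x : K) < 1 :=
      lt_of_le_of_lt (mul_le_mul_left h5 _) (by rw [one_mul]; exact h)
    rw [h2] at h6
    exact lt_irrefl _ h6

theorem res_eq (x y : u.valuationSubring) :
    IsLocalRing.residue u.valuationSubring x = IsLocalRing.residue u.valuationSubring y ↔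
      u ((x : K) - y) < 1 := by
  have h : IsLocalRing.residue u.valuationSubring x = IsLocalRing.residue u.valuationSubring y ↔
      x - y ∈ IsLocalRing.maximalIdeal u.valuationSubring := Ideal.Quotient.eq
  rw [h, mem_max]
  rfl

theorem fin_res {R : Set K} (hR : R.Finite) (h : ∀ x, u x ≤ 1 → ∃ r ∈ R, u (x - r) < 1) :
    Finite (IsLocalRing.ResidueField u.valuationSubring) := by
  have hfin : Finite {r : K // r ∈ R ∧ u r ≤ 1} := by
    have h1 : {r : K | r ∈ R ∧ u r ≤ 1}.Finite := hR.subset fun r hr => hr.1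
    exact h1.to_subtype
  refine Finite.of_surjective (fun r : {r : K // r ∈ R ∧ u r ≤ 1} =>
    IsLocalRing.residue u.valuationSubring ⟨r.1, r.2.2⟩) ?_
  intro y
  obtain ⟨x, rfl⟩ := IsLocalRing.residue_surjective y
  have hx : u (x : K) ≤ 1 := x.2
  obtain ⟨r, hr, hxr⟩ := h x hx
  have hr1 : u r ≤ 1 := by
    have e : r = (x : K) - ((x : K) - r) := by ring
    rw [e]
    exact Valuation.map_sub_le u hx hxr.le
  refine ⟨⟨r, hr, hr1⟩, ?_⟩
  show IsLocalRing.residue u.valuationSubring ⟨r, hr1⟩ = IsLocalRing.residue u.valuationSubring x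
  rw [res_eq, Valuation.map_sub_swap]
  exact hxr

variable [CharP K 2]

theorem as_of (hκ : Finite (IsLocalRing.ResidueField u.valuationSubring)) {f g : K}
    (hf : u f ≤ 1) (hg : u g ≤ 1) (h1 : ¬ Sp u f) (h2 : ¬ Sp u g) :
    ∃ z : K, u (f + g + z ^ 2 + z) < 1 := by
  have c2 : (2 : K) = 0 := CharTwo.two_eq_zero
  set κ := IsLocalRing.ResidueField u.valuationSubring with hκd
  set rs := IsLocalRing.residue u.valuationSubring with hrs
  haveI : CharP κ 2 := by
    apply CharTwo.of_one_ne_zero_of_two_eq_zero one_ne_zero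
    have h3 : (2 : u.valuationSubring) = 0 := Subtype.ext c2
    have h4 := congrArg rs h3
    rw [map_ofNat, map_zero] at h4
    exact h4
  have key : ∀ (a : K) (ha : u a ≤ 1), ¬ Sp u a → rs ⟨a, ha⟩ ∉ (CT.Eqd.asm κ).range := by
    intro a ha hsp hmem
    rw [CT.Eqd.mem_range] at hmem
    obtain ⟨z, hz⟩ := hmem
    obtain ⟨z, rfl⟩ := IsLocalRing.residue_surjective z
    apply hsp
    refine ⟨z, ?_⟩
    have h3 : rs ⟨a, ha⟩ = rs (z ^ 2 + z) := by
      rw [hz, map_add, map_pow]
    rw [res_eq] at h3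
    have e : a + (z : K) ^ 2 + z = a - ((z : K) ^ 2 + z) := by
      linear_combination ((z : K) ^ 2 + z) * c2
    rw [e]
    exact h3
  have hidx := CT.Eqd.index_as κ
  have h3 := (AddSubgroup.add_mem_iff_of_index_two hidx (a := rs ⟨f, hf⟩)
    (b := rs ⟨g, hg⟩)).2 (by
      constructor
      · intro h; exact absurd h (key f hf h1)
      · intro h; exact absurd h (key g hg h2))
  rw [CT.Eqd.mem_range] at h3
  obtain ⟨z, hz⟩ := h3
  obtain ⟨z, rfl⟩ := IsLocalRing.residue_surjective z
  refine ⟨z, ?_⟩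
  have h4 : rs (⟨f, hf⟩ + ⟨g, hg⟩) = rs (z ^ 2 + z) := by
    rw [map_add, hz, map_add, map_pow]
  rw [res_eq] at h4
  have e : f + g + (z : K) ^ 2 + z = f + g - ((z : K) ^ 2 + z) := by
    linear_combination ((z : K) ^ 2 + z) * c2
  rw [e]
  exact h4

theorem lt_one_le {x : WithZero (Multiplicative ℤ)} (h : x < 1) : x ≤ exp (-1 : ℤ) := by
  by_cases hx : x = 0
  · rw [hx]; exact zero_le'
  · rw [← exp_log hx, ← exp_zero, exp_lt_exp] at h
    rw [← exp_log hx, exp_le_exp]
    omega

/-- The last property of the symbols. -/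
theorem odd_loc (hκ : Finite (IsLocalRing.ResidueField u.valuationSubring)) {t : K}
    (S : K → ZMod 2) (Sadd : ∀ x y, S (x + y) = S x + S y) {π q : K}
    (hπ : u π = exp (-1 : ℤ)) (hS0 : ∀ h, u h ≤ 1 → S (h * q ^ 2) = 0)
    (hc : ∃ c, u c ≤ 1 ∧ S (c / π * q ^ 2) = 1)
    (hsq : ∀ c, S (c ^ 2 / π * q ^ 2) = S (c / π * q ^ 2))
    (hdec : ∀ d : K, ∃ x y : K, d = x ^ 2 + π * y ^ 2 ∧ dl t d = q ^ 2 * (y ^ 2 / d))
    {f d : K} (hd : d ≠ 0) (hf : u f ≤ 1) (hsp : ¬ Sp u f) (hev : ¬ Ev (u d)) :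
    S (f * dl t d) = 1 := by
  have c2 : (2 : K) = 0 := CharTwo.two_eq_zero
  have hπ0 : π ≠ 0 := by
    rintro rfl
    rw [map_zero] at hπ
    exact exp_ne_zero hπ.symm
  have hφadd : ∀ x y, S ((x + y) / π * q ^ 2) = S (x / π * q ^ 2) + S (y / π * q ^ 2) :=
    fun x y => by rw [add_div, add_mul, Sadd]
  have hφ0 : ∀ x, u x < 1 → S (x / π * q ^ 2) = 0 := by
    intro x hx
    apply hS0
    rw [map_div₀, hπ, div_le_iff₀ (zero_lt_iff.2 exp_ne_zero), one_mul]
    exact lt_one_le hx
  have hφsp : ∀ x z : K, u (x + z ^ 2 + z) < 1 → S (x / π * q ^ 2) = 0 := by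
    intro x z h
    have h1 := hφ0 _ h
    rw [hφadd, hφadd, hsq] at h1
    have h2 : S (z / π * q ^ 2) + S (z / π * q ^ 2) = 0 := CharTwo.add_self_eq_zero _
    rw [add_assoc, h2, add_zero] at h1
    exact h1
  obtain ⟨c, hc1, hc2⟩ := hc
  have hcs : ¬ Sp u c := by
    rintro ⟨z, hz⟩
    rw [hφsp c z hz] at hc2
    exact zero_ne_one hc2
  have hφf : S (f / π * q ^ 2) = 1 := by
    obtain ⟨z, hz⟩ := as_of u hκ hf hc1 hsp hcs
    have h1 := hφsp (f + c) z hz
    rw [hφadd, hc2] at h1
    rcases Eqk.z2' (S (f / π * q ^ 2)) with h2 | h2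
    · rw [h2, zero_add] at h1
      exact absurd h1 one_ne_zero
    · exact h2
  obtain ⟨x, y, hxy, hdl⟩ := hdec d
  have hud : u d ≠ 0 := (Valuation.ne_zero_iff u).2 hd
  have hlt : u (x ^ 2) < u d := by
    have h1 : u (x ^ 2) ≤ u d := by
      conv_rhs => rw [hxy]
      exact (par1 hπ).2
    refine lt_of_le_of_ne h1 fun h2 => ?_
    apply hev
    have hx0 : x ≠ 0 := by
      rintro rfl
      rw [zero_pow two_ne_zero, map_zero] at h2
      exact hud h2.symm
    refine ⟨log (u x), ?_⟩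
    rw [← h2, map_pow, two_mul, exp_add, exp_log ((Valuation.ne_zero_iff u).2 hx0), pow_two]
  have e : f * dl t d = f / π * q ^ 2 + (f / π * (x ^ 2 / d)) * q ^ 2 := by
    rw [hdl]
    have e1 : π * y ^ 2 = d + x ^ 2 := by
      linear_combination (-1 : K) * hxy - x ^ 2 * c2
    have e2 : y ^ 2 = (d + x ^ 2) / π := by
      rw [← e1]
      field_simp
    rw [e2]
    field_simp
  rw [e, Sadd, hφf, hS0, add_zero]
  have h3 : u (x ^ 2 / d) < 1 := by
    rw [map_div₀, div_lt_iff₀ (zero_lt_iff.2 hud), one_mul]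
    exact hlt
  rw [map_mul, map_div₀, hπ]
  have h4 : u f / exp (-1 : ℤ) ≤ exp (1 : ℤ) := by
    rw [div_le_iff₀ (zero_lt_iff.2 exp_ne_zero), ← exp_add]
    exact hf
  calc u f / exp (-1 : ℤ) * u (x ^ 2 / d) ≤ exp (1 : ℤ) * exp (-1 : ℤ) :=
        mul_le_mul' h4 (lt_one_le h3)
    _ = 1 := by rw [← exp_add]; rfl

end res

/-! ### The symbols -/

section asm

variable {k K₀ K O : Type} [Field k] [Finite k] [CharP k 2] [Field K₀]
  [Algebra k[X] K₀] [IsFractionRing k[X] K₀] [Field K] [CharP K 2] [Algebra K₀ K]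
  [FiniteDimensional K₀ K]
  [Algebra.IsSeparable K₀ K] [Algebra k[X] K] [IsScalarTower k[X] K₀ K] [CommRing O]
  [IsDedekindDomain O] [Algebra O K] [IsFractionRing O K] [Algebra k[X] O]
  [IsScalarTower k[X] O K] [IsIntegralClosure O k[X] K]

theorem plc_surj {w : Vl K} (hw : Function.Surjective w) (o : Option (HeightOneSpectrum O)) :
    Function.Surjective (plc w o) := by
  rcases o with _ | v
  · exact hw
  · exact v.valuation_surjective K

/-- The residue fields are finite. -/
theorem fin_plc {w : Vl K} (hw : Function.Surjective w) (hf : Facts k K₀ O w)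
    (o : Option (HeightOneSpectrum O)) :
    Finite (IsLocalRing.ResidueField (plc w o).valuationSubring) := by
  obtain ⟨N, hN⟩ := hf.near
  rcases o with _ | v
  · show Finite (IsLocalRing.ResidueField w.valuationSubring)
    obtain ⟨a, ha⟩ := hw (exp (N + 1))
    have ha0 : a ≠ 0 := by
      rintro rfl
      rw [map_zero] at ha
      exact exp_ne_zero ha.symm
    refine fin_res w (R := (fun g : O => algebraMap O K g / a) ''
      {x : O | w (algebraMap O K x) ≤ exp (N + 1)}) ((hf.fin (N + 1)).image _) ?_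
    intro x hx
    obtain ⟨g, hg⟩ := hN (a * x)
    have hax : w (a * x) ≤ exp (N + 1) := by
      rw [map_mul, ha]
      exact mul_le_of_le_one_right' hx
    have hg' : w (a * x - algebraMap O K g) ≤ exp (N + 1) :=
      hg.trans (by rw [exp_le_exp]; omega)
    refine ⟨_, ⟨g, ?_, rfl⟩, ?_⟩
    · show w (algebraMap O K g) ≤ exp (N + 1)
      have e : algebraMap O K g = a * x - (a * x - algebraMap O K g) := by ring
      rw [e]
      exact Valuation.map_sub_le w hax hg'
    · have e : x - algebraMap O K g / a = (a * x - algebraMap O K g) / a := by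
        field_simp
      show w (x - algebraMap O K g / a) < 1
      rw [e, map_div₀, ha, div_lt_iff₀ (zero_lt_iff.2 exp_ne_zero), one_mul]
      refine lt_of_le_of_lt hg ?_
      rw [exp_lt_exp]
      omega
  · show Finite (IsLocalRing.ResidueField (v.valuation K).valuationSubring)
    obtain ⟨P, hP, hP0⟩ := Submodule.exists_mem_ne_zero_of_ne_bot v.ne_bot
    have hPv : v.valuation K (algebraMap O K P) < 1 := by
      rw [HeightOneSpectrum.valuation_of_algebraMap, v.intValuation_lt_one_iff_mem]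
      exact hP
    have hPK : algebraMap O K P ≠ 0 := by
      rw [Ne, IsFractionRing.to_map_eq_zero_iff]; exact hP0
    have hwP := exp_log ((Valuation.ne_zero_iff w).2 hPK)
    refine fin_res (v.valuation K) (R := (fun g : O => algebraMap O K g) ''
      {x : O | w (algebraMap O K x) ≤ exp (N + log (w (algebraMap O K P)))})
      ((hf.fin _).image _) ?_
    intro x hx
    -- approximation by an element of `O`
    obtain ⟨g, hg1, hg2⟩ := Eqk.approx (R := O) (K := K)
      (fun v' => if v' = v then x else 0)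
      ((Set.finite_singleton v).subset fun v' hv' => by
        by_contra h
        apply hv'
        exact if_neg h) {v} 1
    have hgv := hg2 v (Finset.mem_singleton_self v)
    rw [if_pos rfl] at hgv
    have hgint : ∀ v' : HeightOneSpectrum O, v'.valuation K g ≤ 1 := by
      intro v'
      have h1 := hg1 v'
      by_cases hv' : v' = v
      · subst hv'
        rw [if_pos rfl] at h1
        have e : g = (g - x) + x := by ring
        rw [e]
        exact Valuation.map_add_le _ h1 hx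
      · rw [if_neg hv', sub_zero] at h1
        exact h1
    obtain ⟨G, hG⟩ := HeightOneSpectrum.mem_integers_of_valuation_le_one (R := O) K g hgint
    obtain ⟨h, hh⟩ := hN (algebraMap O K G / algebraMap O K P)
    refine ⟨_, ⟨G - h * P, ?_, rfl⟩, ?_⟩
    · show w (algebraMap O K (G - h * P)) ≤ _
      have e : algebraMap O K (G - h * P) =
          (algebraMap O K G / algebraMap O K P - algebraMap O K h) * algebraMap O K P := by
        rw [map_sub, map_mul]
        field_simp
      rw [e, map_mul, exp_add, hwP]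
      exact mul_le_mul_left hh _
    · show v.valuation K (x - algebraMap O K (G - h * P)) < 1
      have e : x - algebraMap O K (G - h * P) =
          -(g - x) + algebraMap O K h * algebraMap O K P := by
        rw [map_sub, map_mul, hG]
        ring
      rw [e]
      apply Valuation.map_add_lt
      · rw [Valuation.map_neg]
        refine lt_of_le_of_lt hgv ?_
        rw [← exp_zero, exp_lt_exp]
        norm_num
      · rw [map_mul]
        exact lt_of_le_of_lt (mul_le_mul_left (v.valuation_le_one h) _)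
          (by rw [one_mul]; exact hPv)

/-- The residues do not vanish identically. -/
theorem res_nz {w : Vl K} (hf : Facts k K₀ O w) (ρ : ResK k O w)
    (o : Option (HeightOneSpectrum O)) : ∃ f, ρ.r o f ≠ 0 := by
  rcases o with _ | v
  · -- a finite place
    obtain ⟨v⟩ : Nonempty (HeightOneSpectrum O) := by
      have ht0 : algebraMap k[X] O X ≠ 0 := by
        intro h0
        have h1 := hf.t_gt
        rw [IsScalarTower.algebraMap_apply k[X] O K, h0, map_zero, map_zero] at h1
        exact absurd h1 (not_lt.2 zero_le')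
      have htu : ¬ IsUnit (algebraMap k[X] O X) := by
        intro hun
        obtain ⟨y, hy⟩ := hun.exists_right_inv
        have hy0 : y ≠ 0 := by
          rintro rfl
          rw [mul_zero] at hy
          exact zero_ne_one hy
        have h1 := hf.ge_one y hy0
        have h2 := hf.t_gt
        have h3 : w (algebraMap k[X] K X) * w (algebraMap O K y) = 1 := by
          rw [IsScalarTower.algebraMap_apply k[X] O K, ← map_mul, ← map_mul, hy, map_one, map_one]
        have h4 : 1 < w (algebraMap k[X] K X) * w (algebraMap O K y) :=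
          lt_of_lt_of_le h2 (le_mul_of_one_le_right' h1)
        rw [h3] at h4
        exact lt_irrefl _ h4
      obtain ⟨M, hM, hMt⟩ := exists_max_ideal_of_mem_nonunits htu
      refine ⟨⟨M, hM.isPrime, ?_⟩⟩
      rintro rfl
      exact ht0 hMt
    obtain ⟨f, hfr⟩ := ρ.nd v
    obtain ⟨g, hg1, -⟩ := Eqk.approx (R := O) (K := K)
      (fun v' => if v' = v then f else 0)
      ((Set.finite_singleton v).subset fun v' hv' => by
        by_contra h
        apply hv'
        exact if_neg h) {v} 1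
    refine ⟨g, ?_⟩
    have hsum := ρ.sum g {v} (by
      intro v' hv'
      have h1 := hg1 v'
      rw [if_neg (fun h => hv' (by rw [h]; exact Finset.mem_singleton_self v)), sub_zero] at h1
      exact h1)
    rw [hsum, Finset.sum_singleton]
    have h2 := ρ.int v (g - f) (by
      have h1 := hg1 v
      rw [if_pos rfl] at h1
      exact h1)
    have e : g = (g - f) + f := by ring
    rw [e, ρ.add, h2, zero_add]
    exact hfr
  · exact ρ.nd v

/-- The symbols for a presentation of `K`. -/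
theorem internal (O : Type) [CommRing O]
    [IsDedekindDomain O] [Algebra O K] [IsFractionRing O K] [Algebra k[X] O]
    [IsScalarTower k[X] O K] [IsIntegralClosure O k[X] K] {w : Vl K} (hinf : Inf k K₀ w) :
    Nonempty (GFS K) := by
  have hf := Infb.infb k K₀ K O w hinf
  obtain ⟨ht, s₁, hs₁⟩ := Bas.bas k K₀ K O
  obtain ⟨ρ⟩ := Resk.resk k K₀ K O w hinf hf (CT.Res.res k K₀)
  obtain ⟨τ, hτ⟩ := CT.Eqd.tau k
  have hen := Hen.hen
  have hτ0 : τ 0 = 0 := (hτ.zero 0).2 ⟨0, by ring⟩
  -- places and options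
  let P : Option (HeightOneSpectrum O) → PV K := fun o =>
    (⟨plc w o, plc_surj hinf.surj o⟩ : {u : Vl K // Function.Surjective u})
  have hP1 : ∀ o, (P o).1 = plc w o := fun o => rfl
  have hPinj : Function.Injective P := by
    intro o o' h
    have h1 : plc w o = plc w o' := congrArg Subtype.val h
    rcases o with _ | v <;> rcases o' with _ | v'
    · rfl
    · exact absurd h1 (w_ne (K₀ := K₀) hf v')
    · exact absurd h1.symm (w_ne (K₀ := K₀) hf v)
    · exact congrArg some (val_inj (K := K) h1)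
  have hPsurj : ∀ j : PV K, ∃ o, P o = j := by
    intro j
    rcases Cls.cls k K₀ K O w hinf j.1 j.2 with h | ⟨v, h⟩
    · exact ⟨none, Subtype.ext h.symm⟩
    · exact ⟨some v, Subtype.ext h.symm⟩
  choose op hop using hPsurj
  have hopP : ∀ o, op (P o) = o := fun o => hPinj (hop (P o))
  have hval : ∀ j : PV K, j.1 = plc w (op j) := fun j => by rw [← hP1, hop]
  -- the symbols
  let sy : PV K → K → ZMod 2 := fun j f => τ (ρ.r (op j) f)
  have sadd : ∀ j x y, sy j (x + y) = sy j x + sy j y := fun j x y => by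
    show τ (ρ.r (op j) (x + y)) = _
    rw [ρ.add, hτ.add]
  have hsmo : ∀ o : Option (HeightOneSpectrum O), ∃ n : ℤ, ∀ f, plc w o f ≤ exp n →
      ρ.r o f = 0 := by
    intro o
    rcases o with _ | v
    · obtain ⟨c, hc0, hc⟩ := ρ.intw
      refine ⟨log (w c), fun f hfw => hc f ?_⟩
      rw [exp_log ((Valuation.ne_zero_iff w).2 hc0)] at hfw
      exact hfw
    · exact ⟨0, fun f hfw => ρ.int v f hfw⟩
  have hsm : ∀ j : PV K, ∃ n : ℤ, ∀ f, j.1 f ≤ exp n → sy j f = 0 := by
    intro j
    obtain ⟨n, hn⟩ := hsmo (op j)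
    refine ⟨n, fun f hfj => ?_⟩
    show τ (ρ.r (op j) f) = 0
    rw [hn f (by rw [← hval]; exact hfj), hτ0]
  have ssq : ∀ j h, sy j (h ^ 2) = 0 := fun j h => by
    show τ (ρ.r (op j) (h ^ 2)) = 0
    rw [ρ.sq, hτ0]
  have hτsq : ∀ x, τ (x ^ 2) = τ x := by
    intro x
    have h1 : τ (x ^ 2 + x) = 0 := (hτ.zero _).2 ⟨x, rfl⟩
    rw [hτ.add] at h1
    exact CharTwo.add_eq_zero.1 h1
  have ssqt : ∀ j h, sy j (h ^ 2 * algebraMap k[X] K X) = sy j h := fun j h => by
    show τ (ρ.r (op j) (h ^ 2 * algebraMap k[X] K X)) = τ (ρ.r (op j) h)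
    rw [ρ.sqt, hτsq]
  obtain ⟨c0, hc0⟩ : ∃ c0 : k, τ c0 ≠ 0 := by
    by_contra hcon
    push Not at hcon
    have h1 : (CT.Eqd.asm k).range = ⊤ := by
      rw [eq_top_iff]
      intro x _
      rw [CT.Eqd.mem_range]
      exact (hτ.zero x).1 (hcon x)
    have h2 := CT.Eqd.index_as k
    rw [h1, AddSubgroup.index_top] at h2
    norm_num at h2
  have snz : ∀ j, ∃ f, sy j f ≠ 0 := by
    intro j
    obtain ⟨f, hfr⟩ := res_nz hf ρ (op j)
    refine ⟨algebraMap k[X] K (C (c0 / ρ.r (op j) f)) * f, ?_⟩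
    show τ (ρ.r (op j) (algebraMap k[X] K (C (c0 / ρ.r (op j) f)) * f)) ≠ 0
    rw [ρ.smul, div_mul_cancel₀ _ hfr]
    exact hc0
  have hloc : ∀ j : PV K, _ := fun j =>
    loc ht j.2 (sy j) (sadd j) (ssq j) (ssqt j) (hsm j) (snz j)
  have hκ : ∀ j : PV K, Finite (IsLocalRing.ResidueField j.1.valuationSubring) := by
    intro j
    rw [hval]
    exact fin_plc hinf.surj hf (op j)
  let B₀ : Finset (PV K) := insert (P none) (s₁.image fun v => P (some v))
  have hB₀ : ∀ j : PV K, j ∉ B₀ → ∃ v : HeightOneSpectrum O, v ∉ s₁ ∧ op j = some v := by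
    intro j hj
    rcases ho : op j with _ | v
    · exfalso
      apply hj
      have h1 := hop j
      rw [ho] at h1
      rw [← h1]
      exact Finset.mem_insert_self _ _
    · refine ⟨v, fun hv => hj ?_, rfl⟩
      have h1 := hop j
      rw [ho] at h1
      rw [← h1]
      exact Finset.mem_insert_of_mem (Finset.mem_image_of_mem _ hv)
  have hder : ∀ j : PV K, j ∉ B₀ → ∀ p q : K,
      j.1 (p ^ 2 + algebraMap k[X] K X * q ^ 2) ≤ 1 → j.1 q ≤ 1 := by
    intro j hj p q h
    obtain ⟨v, hv, ho⟩ := hB₀ j hj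
    rw [hval, ho] at h ⊢
    exact hs₁ v hv p q h
  refine ⟨{
    t := algebraMap k[X] K X
    bas := ht
    B₀ := B₀
    sy := sy
    add := sadd
    small := hsm
    int := ?_
    sum := ?_
    nrm := ?_
    nd := ?_
    nd1 := ?_
    der := hder
    tint := ?_
    dlb := ?_
    odd := ?_ }⟩
  · intro j hj f hfj
    obtain ⟨v, hv, ho⟩ := hB₀ j hj
    show τ (ρ.r (op j) f) = 0
    rw [hval, ho] at hfj
    rw [ho, ρ.int v f hfj, hτ0]
  · intro s hs f hfs
    set s' : Finset (HeightOneSpectrum O) := s.preimage (fun v => P (some v))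
      (fun a _ b _ h => Option.some_injective _ (hPinj h)) with hs'
    have hmem : ∀ v, v ∈ s' ↔ P (some v) ∈ s := fun v => Finset.mem_preimage
    have hseq : s = insert (P none) (s'.image fun v => P (some v)) := by
      ext j
      rw [Finset.mem_insert, Finset.mem_image]
      constructor
      · intro hj
        rcases ho : op j with _ | v
        · left
          rw [← hop j, ho]
        · right
          refine ⟨v, ?_, ?_⟩
          · rw [hmem, ← ho, hop]
            exact hj
          · rw [← ho, hop]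
      · rintro (h | ⟨v, hv, h⟩)
        · rw [h]
          exact hs (Finset.mem_insert_self _ _)
        · rw [← h]
          exact (hmem v).1 hv
    rw [hseq, Finset.sum_insert, Finset.sum_image]
    · have h1 : sy (P none) f = τ (ρ.r none f) := by
        show τ (ρ.r (op (P none)) f) = _
        rw [hopP]
      have h2 : ∀ v ∈ s', sy (P (some v)) f = τ (ρ.r (some v) f) := fun v _ => by
        show τ (ρ.r (op (P (some v))) f) = _
        rw [hopP]
      rw [h1, Finset.sum_congr rfl h2, ρ.sum f s' (by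
        intro v hv
        have h3 := hfs (P (some v)) (fun h => hv ((hmem v).2 h))
        exact h3), Eqk.tau_sum hτ]
      exact CharTwo.add_self_eq_zero _
    · intro a _ b _ h
      exact Option.some_injective _ (hPinj h)
    · rw [Finset.mem_image]
      rintro ⟨v, -, h⟩
      exact Option.some_ne_none v (hPinj h)
  · intro j f d hd h
    obtain ⟨p, hp⟩ := qq_spec ht d
    obtain ⟨h1, -, h3⟩ := hen K j.1 j.2
    obtain ⟨n, hn⟩ := hsmo (op j)
    obtain ⟨c, hc⟩ := j.2 (exp n)
    have hc0 : c ≠ 0 := by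
      rintro rfl
      rw [map_zero] at hc
      exact exp_ne_zero hc.symm
    have h4 := Pool.Agent.H467.CT.norm_abs (ρ.r (op j)) (ρ.add _) (ρ.sq _)
      (algebraMap k[X] K X)
      (ρ.sqt _) (vc j.1) (algebraMap K (Cm j.1)) h3 c hc0
      (fun x hx => hn x (by rw [← hval, ← hc]; rwa [h1, h1] at hx)) (d := d) (u := p)
      (v := qq (algebraMap k[X] K X) d) hp hd (a := f) h
    show τ (ρ.r (op j) (f * dl (algebraMap k[X] K X) d)) = 0
    unfold dl
    rw [← mul_div_assoc, hτ.zero]
    exact h4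
  · intro j
    obtain ⟨π, q, hπ, hq, hpp, hS0, ⟨c, hc1, hc2⟩, hsq, hdec⟩ := hloc j
    exact ⟨_, hc2⟩
  · intro j hj
    obtain ⟨π, q, hπ, hq, ⟨p, hp⟩, hS0, ⟨c, hc1, hc2⟩, hsq, hdec⟩ := hloc j
    refine ⟨_, ?_, hc2⟩
    have hq1 : j.1 q ≤ 1 := by
      apply hder j hj p q
      rw [← hp, hπ, ← exp_zero, exp_le_exp]
      norm_num
    rw [map_mul, map_div₀, map_pow, hπ]
    have h4 : j.1 c / exp (-1 : ℤ) ≤ exp (1 : ℤ) := by
      rw [div_le_iff₀ (zero_lt_iff.2 exp_ne_zero), ← exp_add]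
      exact hc1
    calc j.1 c / exp (-1 : ℤ) * j.1 q ^ 2 ≤ exp (1 : ℤ) * 1 :=
          mul_le_mul' h4 (pow_le_one' hq1 2)
      _ = exp (1 : ℤ) := mul_one _
  · intro j hj
    obtain ⟨v, hv, ho⟩ := hB₀ j hj
    rw [hval, ho]
    show v.valuation K (algebraMap k[X] K X) ≤ 1
    rw [IsScalarTower.algebraMap_apply k[X] O K]
    exact v.valuation_le_one _
  · intro j
    obtain ⟨π, q, hπ, hq, ⟨p, hp⟩, hS0, ⟨c, hc1, hc2⟩, hsq, hdec⟩ := hloc j
    refine ⟨2 * log (j.1 q) + 1, fun d => ?_⟩
    obtain ⟨x, y, hxy, hdl⟩ := hdec d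
    have hqe := exp_log ((Valuation.ne_zero_iff j.1).2 hq)
    by_cases hd : d = 0
    · rw [hdl, hd, div_zero, mul_zero, map_zero]
      exact zero_le'
    have hjd : j.1 d ≠ 0 := (Valuation.ne_zero_iff j.1).2 hd
    have h1 : j.1 (π * y ^ 2) ≤ j.1 d := by
      conv_rhs => rw [hxy]
      exact (par1 hπ).1
    have h2 : j.1 (y ^ 2 / d) ≤ exp (1 : ℤ) := by
      rw [map_div₀, div_le_iff₀ (zero_lt_iff.2 hjd)]
      rw [map_mul, hπ] at h1
      calc j.1 (y ^ 2) = exp (1 : ℤ) * (exp (-1 : ℤ) * j.1 (y ^ 2)) := by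
            rw [← mul_assoc, ← exp_add]
            exact (one_mul _).symm
        _ ≤ exp (1 : ℤ) * j.1 d := mul_le_mul_right h1 _
    rw [hdl, map_mul, map_pow, exp_add, two_mul, exp_add, hqe, ← pow_two]
    exact mul_le_mul_right h2 _
  · intro j f d hd hfj hsp hev
    obtain ⟨π, q, hπ, hq, hpp, hS0, hc, hsq, hdec⟩ := hloc j
    exact odd_loc j.1 (hκ j) (sy j) (sadd j) hπ hS0 hc hsq hdec hd hfj hsp hev

end asm

/-- Existence of the residue symbols. -/
theorem gfs : S_GFS := by
  intro k K _ _ _ _ _ _ hK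
  obtain ⟨φ, hφ, hpres⟩ := Pool.Agent.H467.GK.Drc.dri Pool.Agent.H467.GK.Dra.dra
    Pool.Agent.H467.GK.Drb.drb k K hK
  letI i1 : Algebra (RatFunc k) K := φ.toAlgebra
  obtain ⟨hfd, hsep, w, hinf⟩ := hpres
  haveI := hfd
  haveI := hsep
  letI i2 : Algebra k[X] K := (φ.comp (algebraMap k[X] (RatFunc k))).toAlgebra
  haveI i3 : IsScalarTower k[X] (RatFunc k) K := IsScalarTower.of_algebraMap_eq fun _ => rfl
  haveI : IsDedekindDomain (integralClosure k[X] K) :=
    integralClosure.isDedekindDomain k[X] (RatFunc k) K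
  haveI : IsFractionRing (integralClosure k[X] K) K :=
    IsIntegralClosure.isFractionRing_of_finite_extension k[X] (RatFunc k) K _
  exact internal (k := k) (K₀ := RatFunc k) (K := K) (integralClosure k[X] K) hinf

end Pool.Agent.H467.PG.Gfs
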