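import Pool.Agent.H467.PG.SpecB
import Pool.Agent.H467.GK.Asm
import Pool.Agent.H467.GK.Dra
import Pool.Agent.H467.GK.Drb
import Pool.Agent.H467.GK.Drc

/-!
# Units and unramified extensions of a global function field of characteristic two

Project PG (helper467): the statement `S_GFU`.
-/

set_option autoImplicit false
set_option linter.all false

open Polynomial IsDedekindDomain WithZero
open Pool.Agent.TH115.GD
open Pool.Agent.H467.CT (AS Bas vinf Res IsTau Good Std Ev)
open Pool.Agent.H467.GK
open scoped Classical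

namespace Pool.Agent.H467.PG.Gfu

section asm

/-- The place as a valuation. -/
def pvv {K : Type} [Field K] (j : PV K) : Vl K := j.1

theorem pvv_inj {K : Type} [Field K] : Function.Injective (pvv (K := K)) := fun a b h => by
  exact Subtype.ext h

/-- A surjective valuation as a place. -/
def mkp {K : Type} [Field K] (u : Vl K) (hu : Function.Surjective u) : PV K := ⟨u, hu⟩

theorem mem_im {K : Type} [Field K] (s : Finset (PV K)) (u : Vl K) (hu : Function.Surjective u) :
    u ∈ s.image pvv ↔ mkp u hu ∈ s := by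
  rw [Finset.mem_image]
  constructor
  · rintro ⟨j, hj, e⟩
    have h1 : mkp u hu = j := Subtype.ext e.symm
    rw [h1]
    exact hj
  · intro h
    exact ⟨_, h, rfl⟩

variable {k K₀ K : Type} [Field k] [Finite k] [CharP k 2] [Field K₀]
  [Algebra k[X] K₀] [IsFractionRing k[X] K₀] [Field K] [CharP K 2] [Algebra K₀ K]
  [FiniteDimensional K₀ K]
  [Algebra.IsSeparable K₀ K] [Algebra k[X] K] [IsScalarTower k[X] K₀ K]

/-- The statement for a presentation of `K`. -/
theorem internal (O : Type) [CommRing O]
    [IsDedekindDomain O] [Algebra O K] [IsFractionRing O K] [Algebra k[X] O]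
    [IsScalarTower k[X] O K] [IsIntegralClosure O k[X] K] {w : Vl K} (hinf : Inf k K₀ w) :
    ∃ B₁ : Finset (PV K), B₁.Nonempty ∧
    (∀ s, B₁ ⊆ s → ∃ u : Fin (s.card - 1) → K, UnbP s u) ∧
    (∀ s, B₁ ⊆ s → ∀ α : K, (∀ j : PV K, j ∉ s → Un j.1 α) → (∀ j ∈ s, Sp j.1 α) → AS α) := by
  have hf := Infb.infb k K₀ K O w hinf
  obtain ⟨s₁, hs₁⟩ := Uni.uni k K₀ K O w hinf hf
  obtain ⟨s₂, hs₂⟩ := Unr.unr k K₀ K O w hinf hf Pool.Agent.H467.MR.Zeta.zeta
  refine ⟨insert (mkp w hinf.surj) ((s₁ ∪ s₂).image
    (fun v : HeightOneSpectrum O => mkp (v.valuation K) (v.valuation_surjective K))),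
    ⟨_, Finset.mem_insert_self _ _⟩, ?_, ?_⟩
  · intro s hs
    obtain ⟨S, hSdef⟩ : ∃ S : Finset (Vl K), S = s.image pvv := ⟨_, rfl⟩
    have hmemS : ∀ (u : Vl K) (hu : Function.Surjective u), u ∈ S ↔ mkp u hu ∈ s := by
      intro u hu
      rw [hSdef]
      exact mem_im s u hu
    have hSs : ∀ u ∈ S, Function.Surjective u := by
      intro u hu
      rw [hSdef] at hu
      obtain ⟨j, -, e⟩ := Finset.mem_image.1 hu
      rw [← e]
      exact j.2
    have hw : w ∈ S := (hmemS w hinf.surj).2 (hs (Finset.mem_insert_self _ _))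
    have hsub : s₁ ∪ s₂ ⊆ fS O S := by
      intro v hv
      rw [mem_fS, hmemS _ (v.valuation_surjective K)]
      exact hs (Finset.mem_insert_of_mem (Finset.mem_image_of_mem _ hv))
    have hcard := card_S (k := k) (K₀ := K₀) (O := O) Cls.cls hinf hf hSs hw
    have hSc : S.card = s.card := by
      rw [hSdef]
      exact Finset.card_image_of_injective _ pvv_inj
    have hn : s.card - 1 = Fintype.card (fS O S) := by
      rw [Fintype.card_coe, ← hSc, hcard, Nat.add_sub_cancel]
    obtain ⟨u, hu⟩ := hs₁ (fS O S) (fun v hv => hsub (Finset.mem_union_left _ hv))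
    let e : Fin (s.card - 1) ≃ (fS O S) := (finCongr hn).trans (Fintype.equivFin _).symm
    -- a place outside `s` is a finite place outside of `fS O S`
    have hout : ∀ j : PV K, j ∉ s → ∃ v : HeightOneSpectrum O, v ∉ fS O S ∧
        j.1 = v.valuation K := by
      intro j hj
      rcases Cls.cls k K₀ K O w hinf j.1 j.2 with h | ⟨v, h⟩
      · exfalso
        apply hj
        have h1 := (hmemS j.1 j.2).1 (by rw [h]; exact hw)
        exact h1
      · refine ⟨v, fun hv => hj ?_, h⟩
        rw [mem_fS, ← h] at hv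
        exact (hmemS j.1 j.2).1 hv
    have hin : ∀ v : HeightOneSpectrum O, v ∉ fS O S →
        mkp (v.valuation K) (v.valuation_surjective K) ∉ s := by
      intro v hv hv'
      exact hv (mem_fS.2 ((hmemS _ (v.valuation_surjective K)).2 hv'))
    refine ⟨fun i => u (e i), ⟨fun i => hu.ne _, ?_, ?_, ?_⟩⟩
    · intro i j hj
      obtain ⟨v, hv, h⟩ := hout j hj
      rw [h]
      exact hu.unit _ v hv
    · intro d hd hev
      obtain ⟨c, y, hy, h⟩ := hu.gen d hd (fun v hv => hev _ (hin v hv))
      refine ⟨fun i => c (e i), y, hy, ?_⟩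
      rw [h]
      congr 1
      exact (Equiv.prod_comp e (fun i => u i ^ (c i).val)).symm
    · intro c hc
      have h1 := hu.ind (fun i => c (e.symm i)) (by
        have h2 := Equiv.prod_comp e (fun i => u i ^ (c (e.symm i)).val)
        rw [← h2]
        simp only [Equiv.symm_apply_apply]
        exact hc)
      funext i
      have h3 := congrFun h1 (e i)
      simpa using h3
  · intro s hs α hun hsp
    obtain ⟨S, hSdef⟩ : ∃ S : Finset (Vl K), S = s.image pvv := ⟨_, rfl⟩
    have hmemS : ∀ (u : Vl K) (hu : Function.Surjective u), u ∈ S ↔ mkp u hu ∈ s := by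
      intro u hu
      rw [hSdef]
      exact mem_im s u hu
    have hsub : s₁ ∪ s₂ ⊆ fS O S := by
      intro v hv
      rw [mem_fS, hmemS _ (v.valuation_surjective K)]
      exact hs (Finset.mem_insert_of_mem (Finset.mem_image_of_mem _ hv))
    refine hs₂ (fS O S) (fun v hv => hsub (Finset.mem_union_right _ hv)) α ?_ ?_ ?_
    · intro v hv
      exact hun (mkp (v.valuation K) (v.valuation_surjective K))
        (fun h => hv (mem_fS.2 ((hmemS _ (v.valuation_surjective K)).2 h)))
    · intro v hv
      exact hsp (mkp (v.valuation K) (v.valuation_surjective K))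
        ((hmemS _ (v.valuation_surjective K)).1 (mem_fS.1 hv))
    · exact hsp (mkp w hinf.surj) (hs (Finset.mem_insert_self _ _))

end asm

/-- Units and unramified extensions. -/
theorem gfu : S_GFU := by
  intro k K _ _ _ _ _ _ hK
  obtain ⟨φ, hφ, hpres⟩ := Pool.Agent.H467.GK.Drc.dri Pool.Agent.H467.GK.Dra.dra
    Pool.Agent.H467.GK.Drb.drb k K hK
  letI i1 : Algebra (RatFunc k) K := φ.toAlgebra
  obtain ⟨hfd, hsep, w, hinf⟩ := hpres
  haveI := hfd
  haveI := hsep
  letI i2 : Algebra k[X] K := (φ.comp (algebraMap k[X] (RatFunc k))).toAlgebra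
  haveI i3 : IsScalarTower k[X] (RatFunc k) K := IsScalarTower.of_algebraMap_eq fun _ => rfl
  haveI : IsDedekindDomain (integralClosure k[X] K) :=
    integralClosure.isDedekindDomain k[X] (RatFunc k) K
  haveI : IsFractionRing (integralClosure k[X] K) K :=
    IsIntegralClosure.isFractionRing_of_finite_extension k[X] (RatFunc k) K _
  exact internal (k := k) (K₀ := RatFunc k) (K := K) (integralClosure k[X] K) hinf

end Pool.Agent.H467.PG.Gfu
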