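import Pool.Agent.H467.PG.SpecA
import Pool.Agent.H467.PT.Hal

/-!
# Hall's inequality for finite sets of primes, with a subset of the primes
-/

set_option autoImplicit false
set_option linter.all false

open Finset
open Pool.Agent.H467.PT
open scoped Classical

namespace Pool.Agent.H467.PG.Halg

variable {ι : Type} (S : PSys ι) (I : Set ι)

/-- the weight of a prime -/
noncomputable def w (x Y : ℕ) (p : ι) : ℝ :=
  if p ∈ I ∧ x < S.deg p ∧ S.deg p ≤ Y then 1 / 2 else 1

lemma w_nonneg (x Y : ℕ) (p : ι) : 0 ≤ w S I x Y p := by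
  unfold w; split_ifs <;> norm_num

lemma w_le_one (x Y : ℕ) (p : ι) : w S I x Y p ≤ 1 := by
  unfold w; split_ifs <;> norm_num

/-- the weight of a set of primes -/
noncomputable def f (x Y : ℕ) (U : Finset ι) : ℝ := ∏ p ∈ U, w S I x Y p

lemma f_nonneg (x Y : ℕ) (U : Finset ι) : 0 ≤ f S I x Y U :=
  Finset.prod_nonneg (fun _ _ => w_nonneg _ _ _ _ _)

lemma f_eq (x Y : ℕ) (U : Finset ι) : f S I x Y U = (1 / 2 : ℝ) ^ (cntI S I x Y U) := by
  unfold f w cntI
  rw [Finset.prod_ite]
  simp

/-- the sum over the sets of degree N -/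
noncomputable def F (x Y N : ℕ) : ℝ := ∑ U ∈ S.UU N, f S I x Y U

lemma F_nonneg (x Y N : ℕ) : 0 ≤ F S I x Y N := Finset.sum_nonneg (fun _ _ => f_nonneg _ _ _ _ _)

lemma step_A (x Y N : ℕ) :
    (N : ℝ) * F S I x Y N ≤ ∑ p ∈ S.le N, (S.deg p : ℝ) * F S I x Y (N - S.deg p) := by
  have h1 : (N : ℝ) * F S I x Y N = ∑ U ∈ S.UU N, ∑ p ∈ U, (S.deg p : ℝ) * f S I x Y U := by
    unfold F
    rw [Finset.mul_sum]
    refine Finset.sum_congr rfl (fun U hU => ?_)
    rw [← Finset.sum_mul]
    rw [Hal.mem_UU] at hU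
    rw [← hU]
    unfold PSys.dg
    push_cast
    rfl
  have h2 : ∑ U ∈ S.UU N, ∑ p ∈ U, (S.deg p : ℝ) * f S I x Y U =
      ∑ p ∈ S.le N, ∑ U ∈ (S.UU N).filter (fun U => p ∈ U), (S.deg p : ℝ) * f S I x Y U := by
    refine Finset.sum_comm' (fun U p => ?_)
    rw [Finset.mem_filter, Hal.mem_UU, S.mem_le]
    constructor
    · rintro ⟨h, hp⟩
      refine ⟨⟨h, hp⟩, ?_⟩
      rw [← h]
      exact Finset.single_le_sum (f := S.deg) (fun _ _ => Nat.zero_le _) hp
    · rintro ⟨⟨h, hp⟩, _⟩
      exact ⟨h, hp⟩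
  rw [h1, h2]
  refine Finset.sum_le_sum (fun p hp => ?_)
  rw [← Finset.mul_sum]
  refine mul_le_mul_of_nonneg_left ?_ (Nat.cast_nonneg _)
  unfold F
  calc ∑ U ∈ (S.UU N).filter (fun U => p ∈ U), f S I x Y U
      ≤ ∑ U ∈ (S.UU N).filter (fun U => p ∈ U), f S I x Y (U.erase p) := by
        refine Finset.sum_le_sum (fun U hU => ?_)
        have hpU := (Finset.mem_filter.1 hU).2
        unfold f
        rw [← Finset.mul_prod_erase U (fun p => w S I x Y p) hpU]
        have h0 : 0 ≤ ∏ p ∈ U.erase p, w S I x Y p :=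
          Finset.prod_nonneg (fun _ _ => w_nonneg _ _ _ _ _)
        have h1 := w_le_one S I x Y p
        nlinarith
    _ = ∑ U ∈ ((S.UU N).filter (fun U => p ∈ U)).image (fun U => U.erase p), f S I x Y U := by
        rw [Finset.sum_image]
        intro U hU V hV hUV
        have hpU := (Finset.mem_filter.1 (Finset.mem_coe.1 hU)).2
        have hpV := (Finset.mem_filter.1 (Finset.mem_coe.1 hV)).2
        have hUV' : U.erase p = V.erase p := hUV
        rw [← Finset.insert_erase hpU, ← Finset.insert_erase hpV, hUV']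
    _ ≤ ∑ U ∈ S.UU (N - S.deg p), f S I x Y U := by
        refine Finset.sum_le_sum_of_subset_of_nonneg ?_ (fun _ _ _ => f_nonneg _ _ _ _ _)
        intro V hV
        rw [Finset.mem_image] at hV
        obtain ⟨U, hU, rfl⟩ := hV
        rw [Finset.mem_filter, Hal.mem_UU] at hU
        rw [Hal.mem_UU, ← hU.1]
        unfold PSys.dg
        rw [← Finset.add_sum_erase U S.deg hU.2]
        omega

lemma step_B {q : ℕ} {C : ℝ} (hq : 2 ≤ q)
    (up : ∀ l : ℕ, (l : ℝ) * ((S.eq l).card : ℝ) ≤ C * (q : ℝ) ^ l) (x Y N : ℕ) :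
    ∑ p ∈ S.le N, (S.deg p : ℝ) * F S I x Y (N - S.deg p) ≤
      C * (q : ℝ) ^ N * ∑ n ∈ Finset.range (N + 1), F S I x Y n / (q : ℝ) ^ n := by
  have hq0 : (0 : ℝ) < q := by positivity
  have hC : 0 ≤ C := by
    have := up 0
    simpa using this
  rw [Hal.sum_le_eq S N (fun l => (l : ℝ) * F S I x Y (N - l))]
  calc ∑ l ∈ Finset.Icc 1 N, ((S.eq l).card : ℝ) * ((l : ℝ) * F S I x Y (N - l))
      ≤ ∑ l ∈ Finset.range (N + 1), ((S.eq l).card : ℝ) * ((l : ℝ) * F S I x Y (N - l)) := by
        refine Finset.sum_le_sum_of_subset_of_nonneg ?_ (fun l _ _ => ?_)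
        · intro l hl
          rw [Finset.mem_Icc] at hl
          rw [Finset.mem_range]
          omega
        · have := F_nonneg S I x Y (N - l)
          positivity
    _ ≤ ∑ l ∈ Finset.range (N + 1), C * (q : ℝ) ^ N * (F S I x Y (N - l) / (q : ℝ) ^ (N - l)) := by
        refine Finset.sum_le_sum (fun l hl => ?_)
        rw [Finset.mem_range] at hl
        have h0 := F_nonneg S I x Y (N - l)
        have h1 := up l
        have h2 : (q : ℝ) ^ N = (q : ℝ) ^ l * (q : ℝ) ^ (N - l) := by
          rw [← pow_add]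
          congr 1
          omega
        have h3 : C * (q : ℝ) ^ N * (F S I x Y (N - l) / (q : ℝ) ^ (N - l)) =
            C * (q : ℝ) ^ l * F S I x Y (N - l) := by
          rw [h2]
          have : (q : ℝ) ^ (N - l) ≠ 0 := by positivity
          field_simp
        rw [h3]
        calc ((S.eq l).card : ℝ) * ((l : ℝ) * F S I x Y (N - l))
            = ((l : ℝ) * ((S.eq l).card : ℝ)) * F S I x Y (N - l) := by ring
          _ ≤ _ := mul_le_mul_of_nonneg_right h1 h0
    _ = C * (q : ℝ) ^ N * ∑ n ∈ Finset.range (N + 1), F S I x Y n / (q : ℝ) ^ n := by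
        rw [← Finset.mul_sum]
        congr 1
        have := Finset.sum_range_reflect (fun n => F S I x Y n / (q : ℝ) ^ n) (N + 1)
        simpa using this

lemma step_C {q : ℕ} (hq : 2 ≤ q) (x Y N : ℕ) :
    ∑ n ∈ Finset.range (N + 1), F S I x Y n / (q : ℝ) ^ n ≤
      ∏ p ∈ S.le N, (1 + w S I x Y p / (q : ℝ) ^ (S.deg p)) := by
  have hq0 : (0 : ℝ) < q := by positivity
  have h1 : ∏ p ∈ S.le N, (1 + w S I x Y p / (q : ℝ) ^ (S.deg p)) =
      ∑ U ∈ (S.le N).powerset, f S I x Y U / (q : ℝ) ^ (S.dg U) := by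
    rw [Finset.prod_one_add]
    refine Finset.sum_congr rfl (fun U _ => ?_)
    unfold f PSys.dg
    rw [Finset.prod_div_distrib, Finset.prod_pow_eq_pow_sum]
  rw [h1]
  have h2 : ∑ n ∈ Finset.range (N + 1), F S I x Y n / (q : ℝ) ^ n =
      ∑ n ∈ Finset.range (N + 1), ∑ U ∈ ((S.le N).powerset.filter
        (fun U => S.dg U ∈ Finset.range (N + 1))).filter (fun U => S.dg U = n),
        f S I x Y U / (q : ℝ) ^ (S.dg U) := by
    refine Finset.sum_congr rfl (fun n hn => ?_)
    unfold F
    rw [Finset.sum_div]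
    have h3 : ((S.le N).powerset.filter
        (fun U => S.dg U ∈ Finset.range (N + 1))).filter (fun U => S.dg U = n) = S.UU n := by
      ext U
      rw [Hal.mem_UU, Finset.mem_filter, Finset.mem_filter, Finset.mem_powerset]
      constructor
      · exact fun h => h.2
      · intro h
        refine ⟨⟨?_, by rw [h]; exact hn⟩, h⟩
        intro p hp
        rw [S.mem_le]
        have h4 : S.deg p ≤ S.dg U :=
          Finset.single_le_sum (f := S.deg) (fun _ _ => Nat.zero_le _) hp
        rw [Finset.mem_range] at hn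
        omega
    rw [h3]
    refine Finset.sum_congr rfl (fun U hU => ?_)
    rw [Hal.mem_UU] at hU
    rw [hU]
  rw [h2, Finset.sum_fiberwise_of_maps_to (s := (S.le N).powerset.filter
    (fun U => S.dg U ∈ Finset.range (N + 1))) (t := Finset.range (N + 1)) (g := S.dg)
    (fun U hU => (Finset.mem_filter.1 hU).2)]
  refine Finset.sum_le_sum_of_subset_of_nonneg (Finset.filter_subset _ _) (fun U _ _ => ?_)
  have := f_nonneg S I x Y U
  positivity

/-- the fibres of the degree -/
lemma fib (N l : ℕ) (hl : l ∈ Finset.Icc 1 N) :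
    (S.le N).filter (fun p => S.deg p = l) = S.eq l := by
  rw [Finset.mem_Icc] at hl
  unfold PSys.eq
  ext p
  simp only [Finset.mem_filter, S.mem_le]
  omega

/-- the sum of the weights over the primes of degree `l` -/
lemma sum_eq {q : ℕ} (x Y l : ℕ) :
    ∑ p ∈ S.eq l, w S I x Y p / (q : ℝ) ^ (S.deg p) =
      ((S.eq l).card : ℝ) / (q : ℝ) ^ l -
        1 / 2 * (if x < l ∧ l ≤ Y then (cI S I l : ℝ) / (q : ℝ) ^ l else 0) := by
  have h1 : ∑ p ∈ S.eq l, w S I x Y p / (q : ℝ) ^ (S.deg p) =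
      ∑ p ∈ S.eq l, (1 / (q : ℝ) ^ l -
        (if p ∈ I then (if x < l ∧ l ≤ Y then 1 / 2 * (1 / (q : ℝ) ^ l) else 0) else 0)) := by
    refine Finset.sum_congr rfl (fun p hp => ?_)
    unfold PSys.eq at hp
    have hd := (Finset.mem_filter.1 hp).2
    unfold w
    rw [hd]
    by_cases h1 : p ∈ I
    · by_cases h2 : x < l ∧ l ≤ Y
      · rw [if_pos ⟨h1, h2⟩, if_pos h1, if_pos h2]
        ring
      · rw [if_neg (fun h => h2 h.2), if_pos h1, if_neg h2]
        ring
    · rw [if_neg (fun h => h1 h.1), if_neg h1]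
      ring
  rw [h1, Finset.sum_sub_distrib, ← Finset.sum_filter]
  rw [Finset.sum_const, Finset.sum_const, nsmul_eq_mul, nsmul_eq_mul]
  unfold cI
  by_cases h2 : x < l ∧ l ≤ Y
  · rw [if_pos h2, if_pos h2]
    ring
  · rw [if_neg h2, if_neg h2]
    ring

lemma step_D {q : ℕ} (hq : 2 ≤ q) (x Y N : ℕ) :
    ∏ p ∈ S.le N, (1 + w S I x Y p / (q : ℝ) ^ (S.deg p)) ≤
      Real.exp (∑ l ∈ Finset.Icc 1 N, ((S.eq l).card : ℝ) / (q : ℝ) ^ l -
        1 / 2 * ∑ l ∈ Finset.Ioc x (min Y N), (cI S I l : ℝ) / (q : ℝ) ^ l) := by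
  have hq0 : (0 : ℝ) < q := by positivity
  calc ∏ p ∈ S.le N, (1 + w S I x Y p / (q : ℝ) ^ (S.deg p))
      ≤ ∏ p ∈ S.le N, Real.exp (w S I x Y p / (q : ℝ) ^ (S.deg p)) := by
        refine Finset.prod_le_prod (fun p _ => ?_) (fun p _ => ?_)
        · have := w_nonneg S I x Y p
          positivity
        · rw [add_comm]
          exact Real.add_one_le_exp _
    _ = Real.exp (∑ p ∈ S.le N, w S I x Y p / (q : ℝ) ^ (S.deg p)) := by
        rw [Real.exp_sum]
    _ = _ := by
        congr 1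
        have h0 : ∑ p ∈ S.le N, w S I x Y p / (q : ℝ) ^ (S.deg p) =
            ∑ l ∈ Finset.Icc 1 N, ∑ p ∈ S.eq l, w S I x Y p / (q : ℝ) ^ (S.deg p) := by
          rw [← Finset.sum_fiberwise_of_maps_to (s := S.le N) (t := Finset.Icc 1 N) (g := S.deg)
            (f := fun p => w S I x Y p / (q : ℝ) ^ (S.deg p))]
          · refine Finset.sum_congr rfl (fun l hl => ?_)
            rw [fib S N l hl]
          · intro p hp
            rw [S.mem_le] at hp
            rw [Finset.mem_Icc]
            exact ⟨S.pos p, hp⟩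
        rw [h0]
        have h1 : Finset.Ioc x (min Y N) = (Finset.Icc 1 N).filter (fun l => x < l ∧ l ≤ Y) := by
          ext l
          simp only [Finset.mem_Ioc, Finset.mem_filter, Finset.mem_Icc]
          omega
        rw [h1, Finset.sum_filter, Finset.mul_sum, ← Finset.sum_sub_distrib]
        refine Finset.sum_congr rfl (fun l _ => ?_)
        exact sum_eq S I x Y l

/-- Hall's inequality for a subset of the primes. -/
theorem halg : S_HALG := by
  intro ι S q C c W n₀ H
  have hq := H.q2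
  have hC := H.C1
  have hc := H.c0
  have hq0 : (0 : ℝ) < q := by positivity
  refine ⟨1 + C * Real.exp C, by positivity, ?_⟩
  intro I x Y N
  have hF : ∑ U ∈ S.UU N, (1 / 2 : ℝ) ^ (cntI S I x Y U) = F S I x Y N := by
    unfold F
    exact Finset.sum_congr rfl (fun U _ => (f_eq S I x Y U).symm)
  rw [hF]
  rcases Nat.eq_zero_or_pos N with rfl | hN
  · have h0 : S.UU 0 = {∅} := by
      ext U
      rw [Hal.mem_UU, Finset.mem_singleton]
      constructor
      · intro h
        rw [Finset.eq_empty_iff_forall_notMem]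
        intro p hp
        have h4 : S.deg p ≤ S.dg U :=
          Finset.single_le_sum (f := S.deg) (fun _ _ => Nat.zero_le _) hp
        have := S.pos p
        omega
      · rintro rfl
        simp [PSys.dg]
    have h1 : F S I x Y 0 = 1 := by
      unfold F
      rw [h0, Finset.sum_singleton]
      simp [f]
    have h2 : Finset.Ioc x (min Y 0) = ∅ := by
      rw [Nat.min_zero, Finset.Ioc_eq_empty_iff]
      omega
    rw [h1, h2, Finset.sum_empty, mul_zero, Real.exp_zero, pow_zero, mul_one, mul_one]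
    have : 0 ≤ C * Real.exp C := by positivity
    linarith
  · have hN' : (0 : ℝ) < N := by exact_mod_cast hN
    have h1 := step_A S I x Y N
    have h2 := step_B S I hq H.up x Y N
    have h3 := step_C S I hq x Y N
    have h4 := step_D S I hq x Y N
    have h5 := H.mert N hN
    set T : ℝ := ∑ l ∈ Finset.Ioc x (min Y N), (cI S I l : ℝ) / (q : ℝ) ^ l with hT
    have h6 : Real.exp (∑ l ∈ Finset.Icc 1 N, ((S.eq l).card : ℝ) / (q : ℝ) ^ l - 1 / 2 * T) ≤
        N * Real.exp C * Real.exp (-(1 / 2) * T) := by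
      have e1 : (N : ℝ) * Real.exp C * Real.exp (-(1 / 2) * T) =
          Real.exp (Real.log N + C + -(1 / 2) * T) := by
        rw [Real.exp_add, Real.exp_add, Real.exp_log hN']
      rw [e1]
      apply Real.exp_le_exp.2
      linarith
    have h10 : (N : ℝ) * F S I x Y N ≤ C * (q : ℝ) ^ N * (N * Real.exp C *
          Real.exp (-(1 / 2) * T)) := by
      refine h1.trans (h2.trans ?_)
      exact mul_le_mul_of_nonneg_left (h3.trans (h4.trans h6)) (by positivity)
    have h11 : (N : ℝ) * F S I x Y N ≤ N * (C * Real.exp C * (q : ℝ) ^ N *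
          Real.exp (-(1 / 2) * T)) := by
      refine h10.trans (le_of_eq (by ring))
    have h12 := le_of_mul_le_mul_left h11 hN'
    refine h12.trans ?_
    have h13 : 0 ≤ (q : ℝ) ^ N * Real.exp (-(1 / 2) * T) := by
      positivity
    calc C * Real.exp C * (q : ℝ) ^ N * Real.exp (-(1 / 2) * T)
        = C * Real.exp C * ((q : ℝ) ^ N * Real.exp (-(1 / 2) * T)) := by ring
      _ ≤ (1 + C * Real.exp C) * ((q : ℝ) ^ N * Real.exp (-(1 / 2) * T)) := by
          refine mul_le_mul_of_nonneg_right ?_ h13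
          linarith
      _ = _ := by ring

end Pool.Agent.H467.PG.Halg
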