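import Pool.Agent.H467.PG.SpecB

/-!
# Every class has a divisor
-/

set_option autoImplicit false
set_option linter.all false

open Finset Filter WithZero
open Pool.Agent.TH115.GD
open Pool.Agent.H467.PT
open Pool.Agent.H467.GK
open scoped Classical

namespace Pool.Agent.H467.PG.Hsd

open Pool.Agent.H467.PG

theorem hsd (hP : S_POQ) : S_HSD := by
  intro k K _ _ _ _ _ R B χ
  obtain ⟨a, ha⟩ : ∃ a : K, mkq a = χ := QuotientAddGroup.mk_surjective χ
  have hf : (Function.support (fun j : Ob B => (poq j.1 χ + 1) / 2)).Finite := by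
    by_cases ha0 : a = 0
    · refine Set.Finite.subset Set.finite_empty ?_
      intro j hj
      exfalso
      apply hj
      have h1 : poq j.1 χ = 0 := ((hP K j.1).2.2.2.2.1 χ).2 ⟨a, ha, by
        rw [ha0, map_zero]; exact zero_le_one⟩
      show (poq j.1 χ + 1) / 2 = 0
      rw [h1]
    · obtain ⟨D, hD, -⟩ := R.dvd a ha0
      have h2 : ((Subtype.val : Ob B → PV K) ⁻¹' (D.support : Set (PV K))).Finite :=
        Set.Finite.preimage Subtype.val_injective.injOn D.support.finite_toSet
      refine Set.Finite.subset h2 ?_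
      intro j hj
      by_contra hn
      apply hj
      have h3 : D j.1 = 0 := by
        by_contra h4
        exact hn (Finset.mem_coe.2 (Finsupp.mem_support_iff.2 h4))
      have h1 : poq j.1 χ = 0 := ((hP K j.1).2.2.2.2.1 χ).2 ⟨a, ha, by
        rw [hD, h3, exp_zero]⟩
      show (poq j.1 χ + 1) / 2 = 0
      rw [h1]
  exact ⟨Finsupp.ofSupportFinite _ hf, fun j => rfl⟩

end Pool.Agent.H467.PG.Hsd
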