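import Pool.Agent.H467.PG.SpecB

/-!
# The constant columns are linearly independent

Project PG (helper467).
-/

set_option autoImplicit false
set_option linter.all false

open Finset Filter WithZero
open Pool.Agent.H467.PT
open Pool.Agent.H467.GK
open Pool.Agent.H467.CT (AS Bas Ev)
open scoped Classical

namespace Pool.Agent.H467.PG.Jin

section basic

variable {K : Type} [Field K] [CharP K 2]

theorem mkq_add (a b : K) : mkq (a + b) = mkq a + mkq b := rfl

theorem qc_self (χ : Qc K) : χ + χ = 0 := by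
  obtain ⟨a, rfl⟩ := QuotientAddGroup.mk_surjective χ
  have h : (QuotientAddGroup.mk a : Qc K) + QuotientAddGroup.mk a =
      QuotientAddGroup.mk (a + a) := rfl
  rw [h, CharTwo.add_self_eq_zero]
  rfl

theorem mkq_out (χ : Qc K) : mkq (Quotient.out χ) = χ := Quotient.out_eq χ

theorem mkq_surj (χ : Qc K) : ∃ a : K, mkq a = χ := ⟨_, mkq_out χ⟩

theorem mkq_zero : mkq (0 : K) = 0 := rfl

theorem spl_zero (j : PV K) : Spl j (0 : Qc K) := ⟨0, rfl, by simp⟩

end basic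

section rows

variable {k K : Type} [Field k] [Field K] [CharP K 2] [Algebra k K] {F : GF k K}
  {B : Finset (PV K)}

/-- The set of the places in `B` and in `U`. -/
noncomputable def pls (B : Finset (PV K)) (U : Finset (Ob B)) : Finset (PV K) :=
  B ∪ U.map (Function.Embedding.subtype _)

theorem mem_pls {U : Finset (Ob B)} {j : PV K} :
    j ∈ pls B U ↔ j ∈ B ∨ ∃ h : j ∉ B, (⟨j, h⟩ : Ob B) ∈ U := by
  unfold pls
  rw [Finset.mem_union, Finset.mem_map]
  constructor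
  · rintro (h | ⟨p, hp, rfl⟩)
    · exact Or.inl h
    · exact Or.inr ⟨p.2, hp⟩
  · rintro (h | ⟨h, hp⟩)
    · exact Or.inl h
    · exact Or.inr ⟨⟨j, h⟩, hp, rfl⟩

theorem sum_pls {M : Type} [AddCommMonoid M] (U : Finset (Ob B)) (f : PV K → M) :
    ∑ j ∈ pls B U, f j = ∑ j ∈ B, f j + ∑ j ∈ U, f j.1 := by
  unfold pls
  rw [Finset.sum_union, Finset.sum_map]
  · rfl
  · rw [Finset.disjoint_left]
    intro j hj hj2
    obtain ⟨p, hp, rfl⟩ := Finset.mem_map.1 hj2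
    exact p.2 hj

theorem ro_ne (bd : BD F B) (U : Finset (Ob B)) (i : Fin bd.n ⊕ U) : ro bd U i ≠ 0 := by
  rcases i with i | P
  · exact bd.une i
  · exact bd.gne P.1

theorem ro_ev (bd : BD F B) (U : Finset (Ob B)) (i : Fin bd.n ⊕ U) (j : PV K)
    (hj : j ∉ pls B U) : Ev (j.1 (ro bd U i)) := by
  have h1 : j ∉ B := fun h => hj (mem_pls.2 (Or.inl h))
  have h2 : (⟨j, h1⟩ : Ob B) ∉ U := fun h => hj (mem_pls.2 (Or.inr ⟨h1, h⟩))
  have h3 : j.1 (ro bd U i) = 1 := by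
    rcases i with i | P
    · exact bd.uun i ⟨j, h1⟩
    · refine bd.gun P.1 ⟨j, h1⟩ fun e => h2 ?_
      rw [e]
      exact P.2
  rw [h3]
  exact ⟨0, by simp⟩

theorem gen_ro (bd : BD F B) (U : Finset (Ob B)) {d : K} (hd : d ≠ 0)
    (he : ∀ j : PV K, j ∉ pls B U → Ev (j.1 d)) :
    ∃ (c : Fin bd.n ⊕ U → ZMod 2) (y : K), y ≠ 0 ∧
      d = (∏ i, ro bd U i ^ (c i).val) * y ^ 2 := by
  obtain ⟨V, hV, e, y, hy, h⟩ := bd.gen U d hd fun j hj => he j.1 fun hj2 => by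
    rcases mem_pls.1 hj2 with h | ⟨h, h2⟩
    · exact j.2 h
    · exact hj h2
  refine ⟨Sum.elim e (fun P => if P.1 ∈ V then 1 else 0), y, hy, ?_⟩
  rw [h, Fintype.prod_sum_type]
  congr 1
  unfold pd
  rw [mul_comm]
  congr 1
  have h2 : ∀ P : U, ro bd U (Sum.inr P) ^ ((Sum.elim e (fun P : U => if P.1 ∈ V then 1 else 0)
      (Sum.inr P) : ZMod 2)).val = if P.1 ∈ V then bd.g P.1 else 1 := by
    intro P
    show bd.g P.1 ^ ((if P.1 ∈ V then 1 else 0 : ZMod 2)).val = _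
    split_ifs with h
    · have : (1 : ZMod 2).val = 1 := rfl
      rw [this, pow_one]
    · have : (0 : ZMod 2).val = 0 := rfl
      rw [this, pow_zero]
  rw [Finset.prod_congr rfl fun P _ => h2 P]
  rw [Finset.prod_coe_sort U (fun P => if P ∈ V then bd.g P else 1), ← Finset.prod_filter]
  congr 1
  ext P
  rw [Finset.mem_filter]
  exact ⟨fun h => ⟨hV h, h⟩, fun h => h.2⟩

theorem sum_ro (bd : BD F B) (U : Finset (Ob B)) {d : K} (hd : d ≠ 0)
    (he : ∀ j : PV K, j ∉ pls B U → Ev (j.1 d)) :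
    ∃ c : Fin bd.n ⊕ U → ZMod 2, ∀ f : K → ZMod 2, (∀ x y, f (x + y) = f x + f y) → ∀ a : K,
      f (a * dl F.G.t d) = ∑ i, c i * f (a * dl F.G.t (ro bd U i)) := by
  obtain ⟨c, y, hy, h⟩ := gen_ro bd U hd he
  refine ⟨c, fun f hf a => ?_⟩
  have h2 : dl F.G.t d = dl F.G.t (∏ i, ro bd U i ^ (c i).val) := by
    rw [h, dl_mul F.G.bas (Finset.prod_ne_zero_iff.2 fun i _ => pow_ne_zero _ (ro_ne bd U i))
      (pow_ne_zero 2 hy), dl_sq F.G.bas, add_zero]
  rw [h2]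
  exact dl_prod F.G.bas (ro_ne bd U) c f hf a

theorem resf [Finite k] (R : GFR k K) (j : PV K) :
    Finite (IsLocalRing.ResidueField j.1.valuationSubring) := by
  apply Nat.finite_of_card_ne_zero
  rw [R.resc j]
  exact pow_ne_zero _ (Nat.card_pos).ne'

theorem omg (hP : S_POQ) (hS : S_SYM) (G : GFS K)
    (hres : ∀ j : PV K, Finite (IsLocalRing.ResidueField j.1.valuationSubring)) (χ : Qc K) :
    ∃ ω : PV K → K, (∀ j, poq j (mkq (ω j)) = poq j χ) ∧ (∀ j, ¬ Spl j (mkq (ω j))) ∧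
      (∀ j, poq j χ ≠ 0 → mkq (ω j) = χ) ∧
      ∀ j d, d ≠ 0 → G.sy j (ω j * dl G.t d) = tt G j d χ := by
  have h : ∀ j : PV K, ∃ w : K, poq j (mkq w) = poq j χ ∧ ¬ Spl j (mkq w) ∧
      (poq j χ ≠ 0 → mkq w = χ) ∧ ∀ d, d ≠ 0 → G.sy j (w * dl G.t d) = tt G j d χ := by
    intro j
    obtain ⟨p1, p2, p3, p4, p5, p6, p7, p8, p9, p10⟩ := hP K j
    obtain ⟨q1, q2, q3⟩ := p10 (hres j)
    obtain ⟨s1, s2, s3, s4, s5, s6, s7, s8⟩ := hS K G j (hres j)
    by_cases h0 : poq j χ = 0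
    · obtain ⟨x, hx, hx2⟩ := q3
      have e1 : poq j (mkq x) = 0 := (p5 _).2 ⟨x, rfl, hx⟩
      have e2 : ¬ Spl j (mkq x) := fun h => hx2 ((p2 x).2 h)
      refine ⟨x, by rw [e1, h0], e2, fun h => absurd h0 h, fun d hd => ?_⟩
      unfold tt
      rw [if_pos h0, ← s1 x d hd]
      split_ifs with h
      · exact s6 _ d hd e1 h
      · exact s7 _ d hd e1 e2 h
    · refine ⟨Quotient.out χ, by rw [mkq_out], ?_, fun _ => mkq_out χ, fun d hd => ?_⟩
      · rw [mkq_out]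
        exact fun h => h0 (p7 _ h)
      · unfold tt
        rw [if_neg h0]
        rfl
  choose ω h1 h2 h3 h4 using h
  exact ⟨ω, h1, h2, h3, h4⟩

/-- Global classes with prescribed local classes. -/
theorem lift [Finite k] (hC : S_CFX) (hP : S_POQ) (hS : S_SYM) (bd : BD F B)
    (U : Finset (Ob B)) (χ : Qc K) (ε : PV K → ZMod 2)
    (hε : ∀ i, ∑ j ∈ pls B U, ε j * tt F.G j (ro bd U i) χ = 0) :
    ∃ α : Qc K, (∀ j, j ∉ pls B U → poq j α = 0) ∧ (∀ j ∈ pls B U, poq j α ≤ poq j χ) ∧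
      (∀ j ∈ pls B U, ε j = 0 → Spl j α) ∧ (∀ j ∈ pls B U, ε j ≠ 0 → ¬ Spl j α) ∧
      ∀ j ∈ pls B U, poq j χ ≠ 0 → Spl j α ∨ Spl j (α + χ) := by
  obtain ⟨ω, w1, w2, w3, w4⟩ := omg hP hS F.G (resf F.R) χ
  have hB : F.B₁ ⊆ pls B U := fun j hj => mem_pls.2 (Or.inl (bd.sub hj))
  have hz : ∀ j : PV K, F.G.sy j 0 = 0 := by
    intro j
    have := F.G.add j 0 0
    rw [add_zero] at this
    exact left_eq_add.1 this
  have hf : ∀ (j : PV K) (d : K), d ≠ 0 →
      F.G.sy j ((if ε j = 0 then 0 else ω j) * dl F.G.t d) = ε j * tt F.G j d χ := by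
    intro j d hd
    split_ifs with h
    · rw [h, zero_mul, zero_mul, hz]
    · have h1 : ε j = 1 := by
        revert h
        generalize ε j = x
        revert x; decide
      rw [h1, one_mul, w4 j d hd]
  obtain ⟨x, hx1, hx2⟩ := hC k K F (pls B U) hB (fun j => if ε j = 0 then 0 else ω j) (by
    intro d hd he
    obtain ⟨c, hc⟩ := sum_ro bd U hd he
    have h1 : ∀ j ∈ pls B U, F.G.sy j ((if ε j = 0 then 0 else ω j) * dl F.G.t d) =
        ∑ i, c i * (ε j * tt F.G j (ro bd U i) χ) := by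
      intro j _
      rw [hc (F.G.sy j) (F.G.add j)]
      refine Finset.sum_congr rfl fun i _ => ?_
      rw [hf j _ (ro_ne bd U i)]
    rw [Finset.sum_congr rfl h1, Finset.sum_comm]
    refine Finset.sum_eq_zero fun i _ => ?_
    rw [← Finset.mul_sum, hε i, mul_zero])
  refine ⟨mkq x, fun j hj => ?_, fun j hj => ?_, fun j hj he => ?_, fun j hj he hs => ?_,
    fun j hj h0 => ?_⟩
  · exact ((hP K j).2.2.2.2.1 _).2 ⟨x, rfl, hx1 j hj⟩
  · obtain ⟨p1, p2, p3, p4, p5, p6, p7, p8, p9, p10⟩ := hP K j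
    have h1 : Spl j (mkq x + mkq (if ε j = 0 then 0 else ω j)) := (p2 _).1 (hx2 j hj)
    rw [p9 _ _ h1]
    split_ifs with h
    · rw [mkq_zero, p7 _ (spl_zero j)]
      exact Nat.zero_le _
    · exact (w1 j).le
  · obtain ⟨p1, p2, p3, p4, p5, p6, p7, p8, p9, p10⟩ := hP K j
    have h1 : Sp j.1 (x + (if ε j = 0 then 0 else ω j)) := hx2 j hj
    rw [if_pos he, add_zero] at h1
    exact (p2 _).1 h1
  · obtain ⟨p1, p2, p3, p4, p5, p6, p7, p8, p9, p10⟩ := hP K j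
    have h1 : Sp j.1 (x + (if ε j = 0 then 0 else ω j)) := hx2 j hj
    rw [if_neg he] at h1
    have h2 : Spl j (mkq x + mkq (ω j)) := (p2 _).1 h1
    have h3 := p6 _ _ hs h2
    rw [← add_assoc, qc_self, zero_add] at h3
    exact w2 j h3
  · obtain ⟨p1, p2, p3, p4, p5, p6, p7, p8, p9, p10⟩ := hP K j
    have h1 : Sp j.1 (x + (if ε j = 0 then 0 else ω j)) := hx2 j hj
    by_cases he : ε j = 0
    · rw [if_pos he, add_zero] at h1
      exact Or.inl ((p2 _).1 h1)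
    · rw [if_neg he] at h1
      have h2 : Spl j (mkq x + mkq (ω j)) := (p2 _).1 h1
      rw [w3 j h0] at h2
      exact Or.inr h2

end rows

theorem jin : S_CFX → S_POQ → S_SYM → S_JIN := by
  intro hC hP hS k K _ _ _ _ _ F B bd U U₁ χ hU hα ε ε' hε
  -- the extension of the coefficients
  obtain ⟨η, hη1, hη2, hη3⟩ : ∃ η : PV K → ZMod 2, (∀ j ∈ B, η j = ε j) ∧
      (∀ j ∈ U₁, η j.1 = ε' j) ∧ ∀ j : Ob B, j ∉ U₁ → η j.1 = 0 := by
    refine ⟨fun j => if h : j ∈ B then ε j else if (⟨j, h⟩ : Ob B) ∈ U₁ then ε' ⟨j, h⟩ else 0,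
      fun j hj => ?_, fun j hj => ?_, fun j hj => ?_⟩
    · show (if h : j ∈ B then ε j else _) = _
      rw [dif_pos hj]
    · show (if h : j.1 ∈ B then _ else _) = _
      rw [dif_neg j.2]
      exact if_pos hj
    · show (if h : j.1 ∈ B then _ else _) = _
      rw [dif_neg j.2]
      exact if_neg hj
  obtain ⟨α, a1, a2, a3, a4, a5⟩ := lift hC hP hS bd U χ η (by
    intro i
    rw [sum_pls, ← hε i]
    congr 1
    · exact Finset.sum_congr rfl fun j hj => by rw [hη1 j hj]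
    · rw [← Finset.sum_subset hU]
      · exact Finset.sum_congr rfl fun j hj => by rw [hη2 j hj]
      · intro j _ hj
        rw [hη3 j hj, zero_mul])
  have mB : ∀ j ∈ B, j ∈ pls B U := fun j hj => mem_pls.2 (Or.inl hj)
  have mU : ∀ j ∈ U, j.1 ∈ pls B U := fun j hj => mem_pls.2 (Or.inr ⟨j.2, hj⟩)
  by_contra hne
  have hα0 : α ≠ 0 := by
    intro h0
    apply hne
    refine ⟨fun j hj => ?_, fun j hj => ?_⟩
    · by_contra h
      refine a4 j (mB j hj) (by rw [hη1 j hj]; exact h) ?_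
      rw [h0]
      exact spl_zero j
    · by_contra h
      refine a4 j.1 (mU j (hU hj)) (by rw [hη2 j hj]; exact h) ?_
      rw [h0]
      exact spl_zero j.1
  obtain ⟨p, hp, hp1, hp2⟩ := hα α hα0 (fun j hj => a2 j (mB j hj))
    (fun j hj => a2 j.1 (mU j (hU hj))) (fun j hj => by
      by_cases hjU : j ∈ U
      · exact (hP K j.1).2.2.2.2.2.2.1 _ (a3 j.1 (mU j hjU) (hη3 j hj))
      · refine a1 j.1 fun h => ?_
        rcases mem_pls.1 h with h | ⟨h, h2⟩
        · exact j.2 h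
        · exact hjU h2)
  exact hp2 (a3 p.1 (mU p hp) (hη3 p hp1))

end Pool.Agent.H467.PG.Jin
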