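import Pool.Agent.H467.PG.SpecB

/-!
# Prescribed symbols (task LDG; helper253)
-/

set_option autoImplicit false
set_option linter.all false

open Finset Filter WithZero
open Pool.Agent.H467.PT
open Pool.Agent.H467.GK
open Pool.Agent.H467.CT (AS Bas IsTau Std Ev LV LF cc)
open scoped Classical

namespace Pool.Agent.H467.PG.Ldg

open Pool.Agent.H467.PG

theorem sy_zero {K : Type} [Field K] [CharP K 2] (G : GFS K) (j : PV K) : G.sy j 0 = 0 := by
  have h := G.add j 0 0
  rw [add_zero] at h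
  exact left_eq_add.1 h

theorem zmod2_cases (c : ZMod 2) : c = 0 ∨ c = 1 := by
  revert c
  decide

/-- the possible symbols -/
def img {K : Type} [Field K] [CharP K 2] (G : GFS K) (j : PV K) {ρ : Type} (d : ρ → K) :
    Submodule (ZMod 2) (ρ → ZMod 2) where
  carrier := {y | ∃ f : K, j.1 f ≤ exp (1 : ℤ) ∧ ∀ i, G.sy j (f * dl G.t (d i)) = y i}
  zero_mem' := by
    refine ⟨0, ?_, fun i => ?_⟩
    · rw [map_zero]
      exact zero_le
    · rw [zero_mul, sy_zero]
      rfl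
  add_mem' := by
    rintro a b ⟨f, hf, hfa⟩ ⟨g, hg, hgb⟩
    refine ⟨f + g, ?_, fun i => ?_⟩
    · exact (j.1.map_add f g).trans (max_le hf hg)
    · rw [add_mul, G.add, hfa, hgb]
      rfl
  smul_mem' := by
    rintro c a ⟨f, hf, hfa⟩
    rcases zmod2_cases c with h | h
    · rw [h, zero_smul]
      refine ⟨0, ?_, fun i => ?_⟩
      · rw [map_zero]
        exact zero_le
      · rw [zero_mul, sy_zero]
        rfl
    · rw [h, one_smul]
      exact ⟨f, hf, hfa⟩

theorem ldg : S_LDG := by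
  intro K _ _ G j hj ρ _ d hd he y
  by_contra hcon
  have hlt : img G j d < ⊤ := by
    rw [lt_top_iff_ne_top]
    intro h
    apply hcon
    have h1 : y ∈ img G j d := by
      rw [h]
      exact Submodule.mem_top
    exact h1
  obtain ⟨φ, hφ0, hφ⟩ := Submodule.exists_le_ker_of_lt_top _ hlt
  obtain ⟨e, hedef⟩ : ∃ e : ρ → ZMod 2, ∀ i, e i = φ (fun k => if i = k then 1 else 0) :=
    ⟨_, fun _ => rfl⟩
  have hφe : ∀ v : ρ → ZMod 2, φ v = ∑ i, e i * v i := by
    intro v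
    rw [LinearMap.pi_apply_eq_sum_univ φ v]
    apply Finset.sum_congr rfl
    intro i _
    rw [hedef, smul_eq_mul, mul_comm]
  have hene : e ≠ 0 := by
    intro h
    apply hφ0
    apply LinearMap.ext
    intro v
    rw [hφe, h]
    simp
  have h1 := he e hene
  obtain ⟨x, hx⟩ : ∃ x, x = dl G.t (∏ i, d i ^ (e i).val) := ⟨_, rfl⟩
  have h2 : ∀ f : K, j.1 f ≤ exp (1 : ℤ) → G.sy j (f * x) = 0 := by
    intro f hf
    rw [hx, dl_prod G.bas hd e (G.sy j) (G.add j) f, ← hφe (fun i => G.sy j (f * dl G.t (d i)))]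
    have h3 : (fun i => G.sy j (f * dl G.t (d i))) ∈ img G j d := ⟨f, hf, fun _ => rfl⟩
    exact hφ h3
  rw [← hx] at h1
  obtain ⟨g, hg, hg1⟩ := G.nd1 j hj
  have hx1 : 1 ≤ j.1 x := not_lt.1 h1
  have hx0 : x ≠ 0 := by
    intro h
    rw [h, map_zero] at hx1
    exact absurd hx1 (not_le.2 zero_lt_one)
  have h3 := h2 (g * x⁻¹) (by
    rw [map_mul, map_inv₀]
    calc j.1 g * (j.1 x)⁻¹ ≤ exp (1 : ℤ) * 1 :=
          mul_le_mul' hg (inv_le_one_of_one_le₀ hx1)
      _ = exp (1 : ℤ) := mul_one _)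
  rw [mul_assoc, inv_mul_cancel₀ hx0, mul_one, hg1] at h3
  exact one_ne_zero h3

end Pool.Agent.H467.PG.Ldg
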