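import Pool.Agent.H467.PG.SpecA
import Pool.Agent.H467.PT.Lin

/-!
# Coranks of random matrices with independent columns (helper696)
-/

set_option autoImplicit false
set_option linter.all false

open Finset
open scoped Classical

namespace Pool.Agent.H467.PG.Ling

open Pool.Agent.H467.PT.Lin (G F mem_G mem_F F_card G_card G_pos X_shift dc two_self)

section
variable {A κ ρ : Type} [AddCommGroup A] [Fintype A] [Fintype κ] [Fintype ρ]

/-- the span of the columns in `J` and of the previous ones -/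
noncomputable def T (X : A → κ → ρ → ZMod 2) (J : Finset κ) (rk : κ → ℕ) (a : A) (j : κ) :
    Finset (ρ → ZMod 2) :=
  Finset.univ.image fun c : {l // l ∈ J ∨ (l ∉ J ∧ rk l < rk j)} → ZMod 2 =>
    fun i => ∑ l, c l * X a l.1 i

variable {X Y : A → κ → ρ → ZMod 2}

theorem T_card (J : Finset κ) (rk : κ → ℕ) (a : A) (j : κ) :
    (T X J rk a j).card ≤
      2 ^ (J.card + (Finset.univ.filter (fun l => l ∉ J ∧ rk l < rk j)).card) := by
  unfold T
  refine Finset.card_image_le.trans ?_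
  rw [Finset.card_univ, Fintype.card_fun, ZMod.card, Fintype.card_subtype]
  refine Nat.pow_le_pow_right (by norm_num) ?_
  rw [Finset.filter_or]
  refine (Finset.card_union_le _ _).trans ?_
  refine Nat.add_le_add_right (le_of_eq ?_) _
  congr 1
  ext l
  rw [Finset.mem_filter]
  exact and_iff_right (Finset.mem_univ _)

/-- the set of the matrices whose column `j` is in the span of those in `J` and the previous ones -/
noncomputable def Bad (X : A → κ → ρ → ZMod 2) (J : Finset κ) (rk : κ → ℕ) (j : κ) : Finset A :=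
  Finset.univ.filter fun a => X a j ∈ T X J rk a j

theorem mem_Bad {J : Finset κ} {rk : κ → ℕ} {j : κ} {a : A} :
    a ∈ Bad X J rk j ↔ X a j ∈ T X J rk a j := by
  unfold Bad
  rw [Finset.mem_filter]
  exact and_iff_right (Finset.mem_univ _)

variable (hX : ∀ a a' j i, X (a + a') j i = X a j i + Y a' j i)
  (hY : ∀ a a' j i, Y (a + a') j i = Y a j i + Y a' j i)

include hX in
theorem T_shift {J : Finset κ} {rk : κ → ℕ} {j : κ} (hj : j ∉ J) {a g : A} (hg : g ∈ G Y j) :
    T X J rk (a + g) j = T X J rk a j := by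
  unfold T
  congr 1
  ext c i
  refine Finset.sum_congr rfl fun k _ => ?_
  have hk : k.1 ≠ j := fun h => by
    rcases k.2 with h2 | h2
    · rw [h] at h2
      exact hj h2
    · rw [h] at h2
      exact lt_irrefl _ h2.2
  rw [X_shift hX hg hk]

include hX hY in
theorem count1 {J : Finset κ} {rk : κ → ℕ} {j : κ} (hj : j ∉ J) {R : Finset ρ}
    (hs : ∀ (y : ρ → ZMod 2), ∃ a, (∀ l, l ≠ j → ∀ i, Y a l i = 0) ∧ ∀ i ∈ R, Y a j i = y i)
    (a : A) : ((G Y j).filter fun g => a + g ∈ Bad X J rk j).card * 2 ^ R.card ≤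
      2 ^ (J.card + (Finset.univ.filter (fun l => l ∉ J ∧ rk l < rk j)).card) * (G Y j).card := by
  have h1 : ((G Y j).filter fun g => a + g ∈ Bad X J rk j) ⊆
      (T X J rk a j).biUnion fun t => F Y j R (fun i => t i - X a j i) := by
    intro g hg
    obtain ⟨hg1, hg2⟩ := Finset.mem_filter.1 hg
    rw [mem_Bad, T_shift hX hj hg1] at hg2
    refine Finset.mem_biUnion.2 ⟨_, hg2, mem_F.2 ⟨hg1, fun i _ => ?_⟩⟩
    rw [hX]
    ring
  have h2 : ((G Y j).filter fun g => a + g ∈ Bad X J rk j).card ≤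
      2 ^ (J.card + (Finset.univ.filter (fun l => l ∉ J ∧ rk l < rk j)).card) *
        (F Y j R 0).card := by
    calc ((G Y j).filter fun g => a + g ∈ Bad X J rk j).card
        ≤ ((T X J rk a j).biUnion fun t => F Y j R (fun i => t i - X a j i)).card :=
          Finset.card_le_card h1
      _ ≤ ∑ t ∈ T X J rk a j, (F Y j R (fun i => t i - X a j i)).card := Finset.card_biUnion_le
      _ = (T X J rk a j).card * (F Y j R 0).card := by
          rw [Finset.sum_congr rfl fun t _ => F_card hY hs _, Finset.sum_const, smul_eq_mul]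
      _ ≤ _ := Nat.mul_le_mul_right _ (T_card J rk a j)
  rw [G_card hY hs]
  calc _ ≤ 2 ^ (J.card + (Finset.univ.filter (fun l => l ∉ J ∧ rk l < rk j)).card) *
        (F Y j R 0).card * 2 ^ R.card := Nat.mul_le_mul_right _ h2
    _ = _ := by ring

include hX hY in
theorem bad_card {J : Finset κ} {rk : κ → ℕ} {j : κ} (hj : j ∉ J) {R : Finset ρ}
    (hs : ∀ (y : ρ → ZMod 2), ∃ a, (∀ l, l ≠ j → ∀ i, Y a l i = 0) ∧ ∀ i ∈ R, Y a j i = y i) :
    ((Bad X J rk j).card : ℝ) ≤ (Fintype.card A : ℝ) * ((1 / 2 : ℝ) ^ R.card *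
      2 ^ (J.card + (Finset.univ.filter (fun l => l ∉ J ∧ rk l < rk j)).card)) := by
  set K : ℕ := J.card + (Finset.univ.filter (fun l => l ∉ J ∧ rk l < rk j)).card with hK
  have h1 : ∑ a : A, ((G Y j).filter fun g => a + g ∈ Bad X J rk j).card * 2 ^ R.card ≤
      ∑ a : A, 2 ^ K * (G Y j).card :=
    Finset.sum_le_sum fun a _ => count1 hX hY hj hs a
  rw [← Finset.sum_mul, dc, Finset.sum_const, Finset.card_univ, smul_eq_mul] at h1
  have h2 : (G Y j).card * ((Bad X J rk j).card * 2 ^ R.card) ≤ (G Y j).card *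
      (Fintype.card A * 2 ^ K) := by
    calc _ = (G Y j).card * (Bad X J rk j).card * 2 ^ R.card := by ring
      _ ≤ _ := h1
      _ = _ := by ring
  have h3 := Nat.le_of_mul_le_mul_left h2 (G_pos hY)
  have h4 : ((Bad X J rk j).card : ℝ) * 2 ^ R.card ≤ (Fintype.card A : ℝ) * 2 ^ K := by
    exact_mod_cast h3
  rw [one_div, inv_pow]
  have h5 : (0 : ℝ) < 2 ^ R.card := by positivity
  rw [← mul_assoc, mul_comm (Fintype.card A : ℝ), mul_assoc, ← div_eq_inv_mul, le_div_iff₀ h5]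
  exact h4

/-- independent columns -/
theorem indep {J Z : Finset κ} {rk : κ → ℕ} (hrk : ∀ i j, i ∉ J → j ∉ J → rk i = rk j → i = j)
    {a : A} (hJ : ∀ ε : κ → ZMod 2, (∀ j, j ∉ J → ε j = 0) →
      (∀ i, ∑ j, ε j * X a j i = 0) → ε = 0)
    (h : ∀ j, j ∉ J → j ∉ Z → X a j ∉ T X J rk a j) (c : κ → ZMod 2) (hcZ : ∀ j ∈ Z, c j = 0)
    (hc : ∀ i, ∑ j, c j * X a j i = 0) : c = 0 := by
  by_cases hall : ∀ j, j ∉ J → c j = 0
  · exact hJ c hall hc
  exfalso
  push Not at hall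
  obtain ⟨l₀, hl₀, hcl₀⟩ := hall
  obtain ⟨j, hj, hmax⟩ := Finset.exists_max_image (Finset.univ.filter fun l => l ∉ J ∧ c l ≠ 0) rk
    ⟨l₀, Finset.mem_filter.2 ⟨Finset.mem_univ _, hl₀, hcl₀⟩⟩
  obtain ⟨hjJ, hcj⟩ := (Finset.mem_filter.1 hj).2
  have hcj1 : c j = 1 := by
    have : ∀ x : ZMod 2, x ≠ 0 → x = 1 := by decide
    exact this _ hcj
  have hjZ : j ∉ Z := fun h2 => hcj (hcZ j h2)
  apply h j hjJ hjZ
  refine Finset.mem_image.2 ⟨fun l => c l.1, Finset.mem_univ _, funext fun i => ?_⟩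
  have h1 := hc i
  rw [← Finset.add_sum_erase Finset.univ (fun l => c l * X a l i) (Finset.mem_univ j)] at h1
  have h2 : ∑ l ∈ Finset.univ.erase j, c l * X a l i =
      ∑ l ∈ Finset.univ.filter (fun l => l ∈ J ∨ (l ∉ J ∧ rk l < rk j)), c l * X a l i := by
    symm
    refine Finset.sum_subset ?_ ?_
    · intro l hl
      refine Finset.mem_erase.2 ⟨fun h3 => ?_, Finset.mem_univ _⟩
      rcases (Finset.mem_filter.1 hl).2 with h4 | h4
      · rw [h3] at h4
        exact hjJ h4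
      · rw [h3] at h4
        exact lt_irrefl _ h4.2
    · intro l hl hl2
      have h3 : c l = 0 := by
        by_contra h4
        by_cases hlJ : l ∈ J
        · exact hl2 (Finset.mem_filter.2 ⟨Finset.mem_univ _, Or.inl hlJ⟩)
        · have h5 := hmax l (Finset.mem_filter.2 ⟨Finset.mem_univ _, hlJ, h4⟩)
          have h6 : rk l ≠ rk j := fun h7 =>
            (Finset.mem_erase.1 hl).1 (hrk l j hlJ hjJ h7)
          exact hl2 (Finset.mem_filter.2
            ⟨Finset.mem_univ _, Or.inr ⟨hlJ, lt_of_le_of_ne h5 h6⟩⟩)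
      rw [h3, zero_mul]
  have h3 : ∑ l : {l // l ∈ J ∨ (l ∉ J ∧ rk l < rk j)}, c l.1 * X a l.1 i =
      ∑ l ∈ Finset.univ.filter (fun l => l ∈ J ∨ (l ∉ J ∧ rk l < rk j)), c l * X a l i :=
    (Finset.sum_subtype (Finset.univ.filter (fun l => l ∈ J ∨ (l ∉ J ∧ rk l < rk j)))
      (fun l => by simp) (fun l => c l * X a l i)).symm
  rw [h3, ← h2]
  rw [hcj1, one_mul] at h1
  have h4 : X a j i + X a j i = 0 := two_self _
  have h6 : X a j i + ∑ l ∈ Finset.univ.erase j, c l * X a l i = X a j i + X a j i := by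
    rw [h1, h4]
  exact add_left_cancel h6

/-! ### the last columns -/

/-- the elements which change only the columns in `Z` -/
noncomputable def GZ (Y : A → κ → ρ → ZMod 2) (Z : Finset κ) : Finset A :=
  Finset.univ.filter fun g => ∀ l, l ∉ Z → ∀ i, Y g l i = 0

theorem mem_GZ {Z : Finset κ} {g : A} : g ∈ GZ Y Z ↔ ∀ l, l ∉ Z → ∀ i, Y g l i = 0 := by
  unfold GZ
  rw [Finset.mem_filter]
  exact and_iff_right (Finset.mem_univ _)

include hY in
theorem GZ_add {Z : Finset κ} {g g' : A} (hg : g ∈ GZ Y Z) (hg' : g' ∈ GZ Y Z) :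
    g + g' ∈ GZ Y Z :=
  mem_GZ.2 fun l hl i => by rw [hY, mem_GZ.1 hg l hl i, mem_GZ.1 hg' l hl i, add_zero]

include hY in
theorem Y_zero (l : κ) (i : ρ) : Y 0 l i = 0 := by
  have h := hY 0 0 l i
  rw [add_zero] at h
  have h2 : Y 0 l i + 0 = Y 0 l i + Y 0 l i := by rw [add_zero]; exact h
  exact (add_left_cancel h2).symm

include hY in
theorem GZ_pos (Z : Finset κ) : 0 < (GZ Y Z).card :=
  Finset.card_pos.2 ⟨0, mem_GZ.2 fun l _ i => Y_zero hY l i⟩

include hY in
theorem Y_sum {ι : Type} (s : Finset ι) (f : ι → A) (l : κ) (i : ρ) :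
    Y (∑ z ∈ s, f z) l i = ∑ z ∈ s, Y (f z) l i := by
  induction s using Finset.induction_on with
  | empty => rw [Finset.sum_empty, Finset.sum_empty, Y_zero hY]
  | insert z s hz ih => rw [Finset.sum_insert hz, Finset.sum_insert hz, hY, ih]

section equi
variable {M : Type} [AddCommGroup M] [Fintype M] (ψ : A → M)

/-- the fibres -/
noncomputable def FZ (Y : A → κ → ρ → ZMod 2) (Z : Finset κ) (m : M) : Finset A :=
  (GZ Y Z).filter fun g => ψ g = m

theorem mem_FZ {Z : Finset κ} {m : M} {g : A} : g ∈ FZ ψ Y Z m ↔ g ∈ GZ Y Z ∧ ψ g = m := by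
  unfold FZ
  rw [Finset.mem_filter]

variable {ψ}
variable (hψ : ∀ g g', ψ (g + g') = ψ g + ψ g')

include hY hψ in
theorem FZ_shift {Z : Finset κ} (m m' : M) {a : A} (ha : a ∈ FZ ψ Y Z m') :
    (FZ ψ Y Z m).card ≤ (FZ ψ Y Z (m + m')).card := by
  refine Finset.card_le_card_of_injOn (fun g => g + a) (fun g hg => ?_)
    (fun g _ g' _ h => add_right_cancel h)
  have hg' := (mem_FZ ψ).1 (Finset.mem_coe.1 hg)
  have ha' := (mem_FZ ψ).1 ha
  exact Finset.mem_coe.2 ((mem_FZ ψ).2 ⟨GZ_add hY hg'.1 ha'.1, by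
    rw [hψ, hg'.2, ha'.2]⟩)

include hY hψ in
theorem FZ_card {Z : Finset κ} (hs : ∀ m : M, ∃ g ∈ GZ Y Z, ψ g = m) (m : M) :
    (FZ ψ Y Z m).card = (FZ ψ Y Z 0).card := by
  refine le_antisymm ?_ ?_
  · obtain ⟨a, h1, h2⟩ := hs (-m)
    have h := FZ_shift hY hψ m (-m) ((mem_FZ ψ).2 ⟨h1, h2⟩)
    rwa [add_neg_cancel] at h
  · obtain ⟨a, h1, h2⟩ := hs m
    have h := FZ_shift hY hψ 0 m ((mem_FZ ψ).2 ⟨h1, h2⟩)
    rwa [zero_add] at h

include hY hψ in
theorem equi {Z : Finset κ} (hs : ∀ m : M, ∃ g ∈ GZ Y Z, ψ g = m) (m₀ : M) (S : Finset M) :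
    ((GZ Y Z).filter fun g => m₀ + ψ g ∈ S).card * Fintype.card M =
      S.card * (GZ Y Z).card := by
  have h1 : (GZ Y Z).card = Fintype.card M * (FZ ψ Y Z 0).card := by
    have h2 : (GZ Y Z).card = ∑ b ∈ (Finset.univ : Finset M), (FZ ψ Y Z b).card :=
      Finset.card_eq_sum_card_fiberwise fun _ _ => Finset.mem_coe.2 (Finset.mem_univ _)
    rw [h2, Finset.sum_congr rfl fun b _ => FZ_card hY hψ hs b, Finset.sum_const, smul_eq_mul,
      Finset.card_univ]
  have h2 : ((GZ Y Z).filter fun g => m₀ + ψ g ∈ S).card = S.card * (FZ ψ Y Z 0).card := by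
    have h3 : ((GZ Y Z).filter fun g => m₀ + ψ g ∈ S).card = ∑ b ∈ S,
        (((GZ Y Z).filter fun g => m₀ + ψ g ∈ S).filter fun g => m₀ + ψ g = b).card :=
      Finset.card_eq_sum_card_fiberwise fun g hg =>
        Finset.mem_coe.2 (Finset.mem_filter.1 (Finset.mem_coe.1 hg)).2
    have h4 : ∀ b ∈ S, (((GZ Y Z).filter fun g => m₀ + ψ g ∈ S).filter
        fun g => m₀ + ψ g = b).card = (FZ ψ Y Z 0).card := by
      intro b hb
      rw [← FZ_card hY hψ hs (b - m₀)]
      congr 1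
      ext g
      rw [Finset.mem_filter, Finset.mem_filter, mem_FZ]
      constructor
      · rintro ⟨⟨h5, -⟩, h6⟩
        exact ⟨h5, by rw [← h6]; abel⟩
      · rintro ⟨h5, h6⟩
        have h7 : m₀ + ψ g = b := by rw [h6]; abel
        exact ⟨⟨h5, by rw [h7]; exact hb⟩, h7⟩
    rw [h3, Finset.sum_congr rfl h4, Finset.sum_const, smul_eq_mul]
  rw [h1, h2]
  ring

end equi

/-- the linear algebra: a basis of the left kernel of the columns outside `Z` -/
theorem ex_basis {X₀ : κ → ρ → ZMod 2} (hcard : Fintype.card κ = Fintype.card ρ) {Z : Finset κ}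
    {C₀ : ℕ} (hZ : Z.card = C₀)
    (hli : ∀ c : κ → ZMod 2, (∀ j ∈ Z, c j = 0) → (∀ i, ∑ j, c j * X₀ j i = 0) → c = 0) :
    ∃ f : Fin C₀ → ρ → ZMod 2,
      (∀ c c' : Fin C₀ → ZMod 2, (∀ i, ∑ k, c k * f k i = ∑ k, c' k * f k i) → c = c') ∧
      (∀ k, ∀ l, l ∉ Z → ∑ i, f k i * X₀ l i = 0) ∧
      (∀ e : ρ → ZMod 2, (∀ l, l ∉ Z → ∑ i, e i * X₀ l i = 0) →
        ∃ c : Fin C₀ → ZMod 2, ∀ i, e i = ∑ k, c k * f k i) ∧
      (∀ m : Fin C₀ → ZMod 2, ∃ y : ρ → ZMod 2, ∀ k, ∑ i, f k i * y i = m k) := by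
  let Mx : Matrix {l // l ∉ Z} ρ (ZMod 2) := Matrix.of fun l i => X₀ l.1 i
  have hrow : LinearIndependent (ZMod 2) Mx.row := by
    rw [Fintype.linearIndependent_iff]
    intro g hg
    have hc := hli (fun j => if h : j ∉ Z then g ⟨j, h⟩ else 0)
      (fun j hj => dif_neg (fun h => h hj)) ?_
    · intro l
      have := congrFun hc l.1
      simp only [Pi.zero_apply] at this
      rwa [dif_pos l.2] at this
    · intro i
      have h1 : ∑ j, (if h : j ∉ Z then g ⟨j, h⟩ else 0) * X₀ j i =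
          ∑ j ∈ Finset.univ.filter (fun j => j ∉ Z),
            (if h : j ∉ Z then g ⟨j, h⟩ else 0) * X₀ j i := by
        symm
        refine Finset.sum_subset (Finset.filter_subset _ _) ?_
        intro j _ hj
        have hj' : ¬ j ∉ Z := fun h => hj (Finset.mem_filter.2 ⟨Finset.mem_univ _, h⟩)
        rw [dif_neg hj', zero_mul]
      have h2 : ∑ j ∈ Finset.univ.filter (fun j => j ∉ Z),
            (if h : j ∉ Z then g ⟨j, h⟩ else 0) * X₀ j i =
          ∑ l : {l // l ∉ Z}, (if h : l.1 ∉ Z then g ⟨l.1, h⟩ else 0) * X₀ l.1 i :=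
        Finset.sum_subtype (Finset.univ.filter (fun j => j ∉ Z)) (p := fun j => j ∉ Z)
        (fun l => by simp) (fun j => (if h : j ∉ Z then g ⟨j, h⟩ else 0) * X₀ j i)
      rw [h1, h2]
      have h3 := congrFun hg i
      rw [Finset.sum_apply, Pi.zero_apply] at h3
      rw [← h3]
      refine Finset.sum_congr rfl fun l _ => ?_
      rw [dif_pos l.2]
      rfl
  have hrk := hrow.rank_matrix
  have hcZ : Fintype.card {l // l ∉ Z} + C₀ = Fintype.card κ := by
    have h1 := Fintype.card_subtype_compl (fun l => l ∈ Z)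
    have h2 : Fintype.card {l // l ∈ Z} = C₀ := by rw [Fintype.card_coe, hZ]
    rw [h2] at h1
    have h3 : C₀ ≤ Fintype.card κ := by rw [← hZ]; exact Finset.card_le_univ Z
    omega
  have hker : Module.finrank (ZMod 2) (LinearMap.ker Mx.mulVecLin) = C₀ := by
    have h1 := LinearMap.finrank_range_add_finrank_ker Mx.mulVecLin
    rw [Module.finrank_fintype_fun_eq_card] at h1
    have h2 : Module.finrank (ZMod 2) (LinearMap.range Mx.mulVecLin) =
        Fintype.card {l // l ∉ Z} := hrk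
    omega
  let b := Module.finBasisOfFinrankEq (ZMod 2) (LinearMap.ker Mx.mulVecLin) hker
  let f : Fin C₀ → ρ → ZMod 2 := fun k => (b k : ρ → ZMod 2)
  have hflin : LinearIndependent (ZMod 2) f :=
    b.linearIndependent.map' (LinearMap.ker Mx.mulVecLin).subtype (Submodule.ker_subtype _)
  have hmem : ∀ e : ρ → ZMod 2, e ∈ LinearMap.ker Mx.mulVecLin ↔
      ∀ l, l ∉ Z → ∑ i, e i * X₀ l i = 0 := by
    intro e
    rw [LinearMap.mem_ker, Matrix.mulVecLin_apply, funext_iff]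
    constructor
    · intro h l hl
      refine Eq.trans ?_ (h ⟨l, hl⟩)
      exact Finset.sum_congr rfl fun i _ => mul_comm _ _
    · intro h l
      refine Eq.trans ?_ (h l.1 l.2)
      exact Finset.sum_congr rfl fun i _ => mul_comm _ _
  refine ⟨f, ?_, ?_, ?_, ?_⟩
  · intro c c' h
    have h1 : ∑ k, (c k - c' k) • f k = 0 := by
      funext i
      rw [Finset.sum_apply, Pi.zero_apply]
      simp only [Pi.smul_apply, smul_eq_mul, sub_mul]
      rw [Finset.sum_sub_distrib, h i, sub_self]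
    funext k
    have := Fintype.linearIndependent_iff.1 hflin _ h1 k
    exact sub_eq_zero.1 this
  · intro k
    exact (hmem (f k)).1 (b k).2
  · intro e he
    have h1 := (hmem e).2 he
    refine ⟨fun k => b.repr ⟨e, h1⟩ k, fun i => ?_⟩
    have h2 := b.sum_repr ⟨e, h1⟩
    have h3 := congrFun (congrArg (Submodule.subtype _) h2) i
    rw [map_sum, Finset.sum_apply] at h3
    exact h3.symm
  · intro m
    let N : Matrix (Fin C₀) ρ (ZMod 2) := Matrix.of f
    have hN : LinearIndependent (ZMod 2) N.row := hflin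
    have hr := hN.rank_matrix
    rw [Fintype.card_fin] at hr
    have htop : LinearMap.range N.mulVecLin = ⊤ := by
      apply Submodule.eq_top_of_finrank_eq
      rw [Module.finrank_fintype_fun_eq_card, Fintype.card_fin]
      exact hr
    have hm : m ∈ LinearMap.range N.mulVecLin := by rw [htop]; exact Submodule.mem_top
    obtain ⟨y, hy⟩ := hm
    exact ⟨y, fun k => congrFun hy k⟩

include hX hY in
theorem coset (hcard : Fintype.card κ = Fintype.card ρ) {Z : Finset κ} {C₀ : ℕ}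
    (hZ : Z.card = C₀) {a : A}
    (hli : ∀ c : κ → ZMod 2, (∀ j ∈ Z, c j = 0) → (∀ i, ∑ j, c j * X a j i = 0) → c = 0)
    (hs : ∀ z ∈ Z, ∀ y : ρ → ZMod 2, ∃ g, (∀ l, l ≠ z → ∀ i, Y g l i = 0) ∧ ∀ i, Y g z i = y i)
    (r : ℕ) :
    (((GZ Y Z).filter fun g =>
      {e : ρ → ZMod 2 | ∀ j, ∑ i, e i * X (a + g) j i = 0}.ncard = 2 ^ r).card : ℝ) =
      pcr C₀ r * ((GZ Y Z).card : ℝ) := by
  obtain ⟨f, hf1, hf2, hf3, hf4⟩ := ex_basis hcard hZ hli
  let ζ : Fin C₀ ≃ Z := (Z.equivFinOfCardEq hZ).symm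
  let ψ : A → Fin C₀ → Fin C₀ → ZMod 2 := fun g j k => ∑ i, f k i * Y g (ζ j).1 i
  let m₀ : Fin C₀ → Fin C₀ → ZMod 2 := fun j k => ∑ i, f k i * X a (ζ j).1 i
  have hψ : ∀ g g', ψ (g + g') = ψ g + ψ g' := by
    intro g g'
    funext j k
    show ∑ i, f k i * Y (g + g') (ζ j).1 i =
      ∑ i, f k i * Y g (ζ j).1 i + ∑ i, f k i * Y g' (ζ j).1 i
    rw [← Finset.sum_add_distrib]
    exact Finset.sum_congr rfl fun i _ => by rw [hY, mul_add]
  have hsurj : ∀ m : Fin C₀ → Fin C₀ → ZMod 2, ∃ g ∈ GZ Y Z, ψ g = m := by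
    intro m
    choose y hy using fun j => hf4 (m j)
    choose g hg1 hg2 using fun j : Fin C₀ => hs (ζ j).1 (ζ j).2 (y j)
    refine ⟨∑ j, g j, mem_GZ.2 fun l hl i => ?_, ?_⟩
    · rw [Y_sum hY]
      refine Finset.sum_eq_zero fun j _ => hg1 j l (fun h => hl ?_) i
      rw [h]
      exact (ζ j).2
    · funext j k
      show ∑ i, f k i * Y (∑ j, g j) (ζ j).1 i = m j k
      rw [← hy j k]
      refine Finset.sum_congr rfl fun i _ => ?_
      rw [Y_sum hY, Finset.sum_eq_single j]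
      · rw [hg2]
      · intro j' _ hj'
        refine hg1 j' _ (fun h => hj' ?_) i
        exact (ζ.injective (Subtype.ext h)).symm
      · intro h
        exact absurd (Finset.mem_univ _) h
  let S : Finset (Fin C₀ → Fin C₀ → ZMod 2) := Finset.univ.filter fun T =>
    {e : Fin C₀ → ZMod 2 | ∀ j, ∑ i, e i * T j i = 0}.ncard = 2 ^ r
  have heq := equi hY hψ hsurj m₀ S
  have hker : ∀ g ∈ GZ Y Z, {e : ρ → ZMod 2 | ∀ j, ∑ i, e i * X (a + g) j i = 0}.ncard =
      {c : Fin C₀ → ZMod 2 | ∀ j, ∑ k, c k * (m₀ + ψ g) j k = 0}.ncard := by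
    intro g hg
    have hT : ∀ j k, (m₀ + ψ g) j k = ∑ i, f k i * X (a + g) (ζ j).1 i := by
      intro j k
      show ∑ i, f k i * X a (ζ j).1 i + ∑ i, f k i * Y g (ζ j).1 i = _
      rw [← Finset.sum_add_distrib]
      exact Finset.sum_congr rfl fun i _ => by rw [hX, mul_add]
    have hXl : ∀ l, l ∉ Z → ∀ i, X (a + g) l i = X a l i := by
      intro l hl i
      rw [hX, mem_GZ.1 hg l hl i, add_zero]
    have hexch : ∀ (c : Fin C₀ → ZMod 2) (v : ρ → ZMod 2),
        ∑ i, (∑ k, c k * f k i) * v i = ∑ k, c k * ∑ i, f k i * v i := by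
      intro c v
      simp only [Finset.sum_mul, Finset.mul_sum]
      rw [Finset.sum_comm]
      exact Finset.sum_congr rfl fun k _ => Finset.sum_congr rfl fun i _ => by ring
    have himg : {e : ρ → ZMod 2 | ∀ j, ∑ i, e i * X (a + g) j i = 0} =
        (fun c : Fin C₀ → ZMod 2 => fun i => ∑ k, c k * f k i) ''
          {c : Fin C₀ → ZMod 2 | ∀ j, ∑ k, c k * (m₀ + ψ g) j k = 0} := by
      ext e
      constructor
      · intro he
        obtain ⟨c, hc⟩ := hf3 e (fun l hl => by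
          have h1 := he l
          simp only [hXl l hl] at h1
          exact h1)
        refine ⟨c, fun j => ?_, funext fun i => (hc i).symm⟩
        simp only [hT]
        rw [← hexch]
        have h1 := he (ζ j).1
        simp only [hc] at h1
        exact h1
      · rintro ⟨c, hc, rfl⟩
        intro l
        show ∑ i, (∑ k, c k * f k i) * X (a + g) l i = 0
        rw [hexch]
        by_cases hl : l ∈ Z
        · have h1 := hc (ζ.symm ⟨l, hl⟩)
          simp only [hT, Equiv.apply_symm_apply] at h1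
          exact h1
        · refine Finset.sum_eq_zero fun k _ => ?_
          simp only [hXl l hl, hf2 k l hl, mul_zero]
    rw [himg]
    exact Set.ncard_image_of_injective _ (fun c c' h => hf1 c c' (fun i => congrFun h i))
  replace heq : ((GZ Y Z).filter fun g =>
      {e : ρ → ZMod 2 | ∀ j, ∑ i, e i * X (a + g) j i = 0}.ncard = 2 ^ r).card *
        Fintype.card (Fin C₀ → Fin C₀ → ZMod 2) = S.card * (GZ Y Z).card := by
    rw [← heq]
    refine congrArg
      (fun s : Finset A => s.card * Fintype.card (Fin C₀ → Fin C₀ → ZMod 2)) ?_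
    ext g
    simp only [Finset.mem_filter]
    refine and_congr_right fun hg => ?_
    rw [hker g hg, Finset.mem_filter]
    exact (and_iff_right (Finset.mem_univ _)).symm
  have hcM : Fintype.card (Fin C₀ → Fin C₀ → ZMod 2) = 2 ^ (C₀ ^ 2) := by
    rw [Fintype.card_fun, Fintype.card_fun, ZMod.card, Fintype.card_fin, ← pow_mul, sq]
  have hp : pcr C₀ r = (S.card : ℝ) / 2 ^ (C₀ ^ 2) := by
    unfold pcr
    congr 2
    rw [← Set.ncard_coe_finset]
    congr 1
    ext T
    simp [S]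
  rw [hcM] at heq
  have h2 : (((GZ Y Z).filter fun g =>
      {e : ρ → ZMod 2 | ∀ j, ∑ i, e i * X (a + g) j i = 0}.ncard = 2 ^ r).card : ℝ) *
      2 ^ (C₀ ^ 2) = (S.card : ℝ) * ((GZ Y Z).card : ℝ) := by exact_mod_cast heq
  rw [hp, div_mul_eq_mul_div, eq_div_iff (by positivity)]
  exact h2

end

theorem pcr_nonneg (n r : ℕ) : 0 ≤ pcr n r := by
  unfold pcr
  positivity

theorem pcr_le_one (n r : ℕ) : pcr n r ≤ 1 := by
  unfold pcr
  rw [div_le_one (by positivity)]
  have hcM : Fintype.card (Fin n → Fin n → ZMod 2) = 2 ^ (n ^ 2) := by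
    rw [Fintype.card_fun, Fintype.card_fun, ZMod.card, Fintype.card_fin, ← pow_mul, sq]
  have h1 : {T : Fin n → Fin n → ZMod 2 |
      {e : Fin n → ZMod 2 | ∀ j, ∑ i, e i * T j i = 0}.ncard = 2 ^ r}.ncard ≤ 2 ^ (n ^ 2) := by
    rw [← hcM, ← Nat.card_eq_fintype_card, ← Set.ncard_univ]
    exact Set.ncard_le_ncard (Set.subset_univ _)
  exact_mod_cast h1

theorem ling : S_LING := by
  intro A κ ρ _ _ _ _ hcard X Y hX hY J Z rk R C₀ σ hJZ hZ hrk hlast hYJ hJind hs hRZ hsum r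
  let B : Finset A := (Finset.univ.filter (fun j => j ∉ J ∧ j ∉ Z)).biUnion fun j => Bad X J rk j
  have hB : (B.card : ℝ) ≤ σ * (Fintype.card A : ℝ) := by
    have h1 : (B.card : ℝ) ≤ ∑ j ∈ Finset.univ.filter (fun j => j ∉ J ∧ j ∉ Z),
        ((Bad X J rk j).card : ℝ) := by
      exact_mod_cast Finset.card_biUnion_le
    refine h1.trans ?_
    have h2 : ∑ j ∈ Finset.univ.filter (fun j => j ∉ J ∧ j ∉ Z), ((Bad X J rk j).card : ℝ) ≤
        ∑ j ∈ Finset.univ.filter (fun j => j ∉ J ∧ j ∉ Z), (Fintype.card A : ℝ) *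
          ((1 / 2 : ℝ) ^ (R j).card *
            2 ^ (J.card + (Finset.univ.filter (fun l => l ∉ J ∧ rk l < rk j)).card)) := by
      refine Finset.sum_le_sum fun j hj => ?_
      exact bad_card hX hY (Finset.mem_filter.1 hj).2.1 (hs j (Finset.mem_filter.1 hj).2.1)
    refine h2.trans ?_
    rw [← Finset.mul_sum, mul_comm]
    exact mul_le_mul_of_nonneg_right hsum (Nat.cast_nonneg _)
  let P : Finset A := Finset.univ.filter fun a =>
    {e : ρ → ZMod 2 | ∀ j, ∑ i, e i * X a j i = 0}.ncard = 2 ^ r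
  have hP : {a : A | {e : ρ → ZMod 2 | ∀ j, ∑ i, e i * X a j i = 0}.ncard = 2 ^ r}.ncard =
      P.card := by
    rw [← Set.ncard_coe_finset]
    congr 1
    ext a
    simp [P]
  rw [hP]
  -- the good cosets
  have hgood : ∀ a, a ∉ B → (((GZ Y Z).filter fun g => a + g ∈ P).card : ℝ) =
      pcr C₀ r * ((GZ Y Z).card : ℝ) := by
    intro a ha
    have hli : ∀ c : κ → ZMod 2, (∀ j ∈ Z, c j = 0) → (∀ i, ∑ j, c j * X a j i = 0) →
        c = 0 := by
      intro c hc1 hc2
      refine indep (Z := Z) hrk (fun ε h1 h2 => hJind ε h1 fun i => ?_) (fun j hj1 hj2 h => ?_) c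
        hc1 hc2
      · rw [← h2 i]
        refine Finset.sum_congr rfl fun j _ => ?_
        by_cases hj : j ∈ J
        · have h3 := hX 0 a j i
          rw [zero_add, hYJ a j hj i, add_zero] at h3
          rw [h3]
        · rw [h1 j hj, zero_mul, zero_mul]
      · exact ha (Finset.mem_biUnion.2 ⟨j, Finset.mem_filter.2 ⟨Finset.mem_univ _, hj1, hj2⟩,
          mem_Bad.2 h⟩)
    have hs' : ∀ z ∈ Z, ∀ y : ρ → ZMod 2, ∃ g, (∀ l, l ≠ z → ∀ i, Y g l i = 0) ∧
        ∀ i, Y g z i = y i := by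
      intro z hz y
      have hzJ : z ∉ J := fun h => (Finset.disjoint_left.1 hJZ h) hz
      obtain ⟨g, h1, h2⟩ := hs z hzJ y
      refine ⟨g, h1, fun i => h2 i ?_⟩
      rw [hRZ z hz]
      exact Finset.mem_univ _
    rw [← coset hX hY hcard hZ hli hs' r]
    congr 2
    refine Finset.filter_congr fun g _ => ?_
    rw [Finset.mem_filter]
    exact and_iff_right (Finset.mem_univ _)
  have hdc : ∑ a : A, (((GZ Y Z).filter fun g => a + g ∈ P).card : ℝ) =
      ((GZ Y Z).card : ℝ) * (P.card : ℝ) := by exact_mod_cast dc (GZ Y Z) P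
  have hGpos : (0 : ℝ) < ((GZ Y Z).card : ℝ) := by exact_mod_cast GZ_pos hY Z
  have hp0 := pcr_nonneg C₀ r
  have hp1 := pcr_le_one C₀ r
  -- compare
  have hdiff : |∑ a : A, ((((GZ Y Z).filter fun g => a + g ∈ P).card : ℝ) -
      pcr C₀ r * ((GZ Y Z).card : ℝ))| ≤ (B.card : ℝ) * ((GZ Y Z).card : ℝ) := by
    have h1 : ∑ a : A, ((((GZ Y Z).filter fun g => a + g ∈ P).card : ℝ) -
        pcr C₀ r * ((GZ Y Z).card : ℝ)) = ∑ a ∈ B,
          ((((GZ Y Z).filter fun g => a + g ∈ P).card : ℝ) -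
            pcr C₀ r * ((GZ Y Z).card : ℝ)) := by
      symm
      refine Finset.sum_subset (Finset.subset_univ _) fun a _ ha => ?_
      rw [hgood a ha, sub_self]
    rw [h1]
    refine (Finset.abs_sum_le_sum_abs _ _).trans ?_
    rw [← nsmul_eq_mul]
    refine Finset.sum_le_card_nsmul _ _ _ fun a _ => ?_
    have h2 : (((GZ Y Z).filter fun g => a + g ∈ P).card : ℝ) ≤ ((GZ Y Z).card : ℝ) := by
      exact_mod_cast Finset.card_filter_le _ _
    have h3 : (0 : ℝ) ≤ (((GZ Y Z).filter fun g => a + g ∈ P).card : ℝ) := Nat.cast_nonneg _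
    rw [abs_le]
    constructor <;> nlinarith
  rw [Finset.sum_sub_distrib, hdc, Finset.sum_const, Finset.card_univ, nsmul_eq_mul] at hdiff
  have h4 : ((GZ Y Z).card : ℝ) * |(P.card : ℝ) - pcr C₀ r * (Fintype.card A : ℝ)| ≤
      ((GZ Y Z).card : ℝ) * (σ * (Fintype.card A : ℝ)) := by
    calc ((GZ Y Z).card : ℝ) * |(P.card : ℝ) - pcr C₀ r * (Fintype.card A : ℝ)|
        = |((GZ Y Z).card : ℝ) * (P.card : ℝ) -
          (Fintype.card A : ℝ) * (pcr C₀ r * ((GZ Y Z).card : ℝ))| := by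
          rw [← abs_of_pos hGpos, ← abs_mul, abs_of_pos hGpos]
          congr 1
          ring
      _ ≤ (B.card : ℝ) * ((GZ Y Z).card : ℝ) := hdiff
      _ ≤ σ * (Fintype.card A : ℝ) * ((GZ Y Z).card : ℝ) :=
          mul_le_mul_of_nonneg_right hB hGpos.le
      _ = _ := by ring
  exact le_of_mul_le_mul_left h4 hGpos

end Pool.Agent.H467.PG.Ling
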