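import Pool.Agent.H467.PG.SpecB

/-!
# The local classes with at most simple poles (project PG of helper467), by helper824
-/

set_option autoImplicit false
set_option linter.all false

open WithZero
open Pool.Agent.H467.GK
open Pool.Agent.H467.CT (AS)

namespace Pool.Agent.H467.PG.Llc

variable {K : Type} [Field K] [CharP K 2]

theorem val_as (u : Vl K) (z : K) (h : 1 < u (z ^ 2 + z)) :
    ∃ n : ℤ, u (z ^ 2 + z) = exp (n + n) := by
  have h1 : 1 < u z := by
    by_contra hle
    push Not at hle
    have h2 : u (z ^ 2 + z) ≤ 1 := by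
      refine (u.map_add _ _).trans (max_le ?_ hle)
      rw [map_pow]
      exact pow_le_one₀ zero_le' hle
    exact absurd h (not_lt.mpr h2)
  have hz : u z ≠ 0 := by
    intro h0
    rw [h0] at h1
    exact absurd h1 (not_lt.mpr zero_le')
  have h3 : u z < u (z ^ 2) := by
    rw [map_pow, sq]
    calc u z = u z * 1 := (mul_one _).symm
      _ < u z * u z := by
        exact mul_lt_mul_of_pos_left h1 (zero_lt_iff.mpr hz)
  refine ⟨log (u z), ?_⟩
  rw [Valuation.map_add_eq_of_lt_left u h3, map_pow, exp_add, exp_log hz, sq]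

theorem un_single (u : Vl K) (x : K) (hx : u x = exp (1 : ℤ)) : ¬ Un u x := by
  rintro ⟨z, hz⟩
  have h1 : u (z ^ 2 + z) = exp (1 : ℤ) := by
    have h2 : z ^ 2 + z = x + (x + z ^ 2 + z) := by
      have := CharTwo.add_self_eq_zero x
      linear_combination (-1 : K) * this
    rw [h2]
    rw [Valuation.map_add_eq_of_lt_left u, hx]
    rw [hx]
    refine lt_of_le_of_lt hz ?_
    rw [← exp_zero, exp_lt_exp]
    norm_num
  obtain ⟨n, hn⟩ := val_as u z (by
    rw [h1, ← exp_zero, exp_lt_exp]
    norm_num)
  rw [h1] at hn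
  have := exp_injective hn
  omega

theorem llc (hP : S_POQ) : S_LLC := by
  classical
  intro k K _ _ _ _ _ R j
  obtain ⟨-, hSp, -, -, h0, -, -, -, -, hfin⟩ := hP K j
  set u : Vl K := j.1 with hu
  set κ := IsLocalRing.ResidueField u.valuationSubring with hκ
  have hq : 0 < Nat.card k := Nat.card_pos
  have hcard : Nat.card κ = Nat.card k ^ R.deg j := R.resc j
  have hfinκ : Finite κ := by
    apply Nat.finite_of_card_ne_zero
    rw [hcard]
    positivity
  obtain ⟨-, hidx, θ, hθ1, hθ2⟩ := hfin hfinκ
  have : Fintype κ := Fintype.ofFinite κ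
  have hcard' : Fintype.card κ = Nat.card k ^ R.deg j := by
    rw [← Nat.card_eq_fintype_card]
    exact hcard
  -- a uniformizer
  obtain ⟨π, hπ⟩ := j.2 (exp (-1 : ℤ))
  have hπ0 : π ≠ 0 := by
    intro h
    rw [h, map_zero] at hπ
    exact absurd hπ.symm exp_ne_zero
  have hπ' : u π = exp (-1 : ℤ) := hπ
  have hπi : u π⁻¹ = exp (1 : ℤ) := by
    rw [map_inv₀, hπ', ← exp_neg]
    norm_num
  -- lifts
  have hsurj : Function.Surjective (IsLocalRing.residue u.valuationSubring) :=
    IsLocalRing.residue_surjective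
  choose s hs using hsurj
  have hs1 : ∀ c : κ, u (s c : K) ≤ 1 := fun c => (Valuation.mem_valuationSubring_iff _ _).1 (s c).2
  let f : κ → K := fun c => (s c : K) * π⁻¹
  have hf1 : ∀ c, u (f c) ≤ exp (1 : ℤ) := by
    intro c
    show u ((s c : K) * π⁻¹) ≤ _
    rw [map_mul, hπi]
    calc u (s c : K) * exp (1 : ℤ) ≤ 1 * exp (1 : ℤ) := mul_le_mul_left (hs1 c) _
      _ = exp (1 : ℤ) := one_mul _
  -- integral elements have residues
  have hres : ∀ a : u.valuationSubring, IsLocalRing.residue u.valuationSubring a ≠ 0 →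
      u (a : K) = 1 := by
    intro a ha
    have h1 : u (a : K) ≤ 1 := (Valuation.mem_valuationSubring_iff _ _).1 a.2
    refine le_antisymm h1 ?_
    by_contra hlt
    push Not at hlt
    apply ha
    rw [IsLocalRing.residue_eq_zero_iff, Valuation.mem_maximalIdeal_iff]
    exact hlt
  have hone : (1 : WithZero (Multiplicative ℤ)) < exp (1 : ℤ) := by
    rw [← exp_zero, exp_lt_exp]
    norm_num
  -- the separation
  have hsep : ∀ (c c' : κ) (e : K), u e ≤ 1 → Un u (f c + f c' + e) → c = c' := by
    intro c c' e he hun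
    by_contra hne
    have h1 : IsLocalRing.residue u.valuationSubring (s c - s c') ≠ 0 := by
      rw [map_sub, hs, hs]
      exact sub_ne_zero.mpr hne
    have h2 := hres _ h1
    have h3 : u (f c + f c') = exp (1 : ℤ) := by
      have e1 : f c + f c' = (((s c - s c' : u.valuationSubring) : K)) * π⁻¹ := by
        show (s c : K) * π⁻¹ + (s c' : K) * π⁻¹ = ((s c : K) - (s c' : K)) * π⁻¹
        rw [CharTwo.sub_eq_add]
        ring
      rw [e1, map_mul, h2, one_mul, hπi]
    have h4 : u (f c + f c' + e) = exp (1 : ℤ) := by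
      rw [Valuation.map_add_eq_of_lt_left u, h3]
      rw [h3]
      exact lt_of_le_of_lt he hone
    exact un_single u _ h4 hun
  have hSpUn : ∀ x : K, Sp u x → Un u x := fun x ⟨z, hz⟩ => ⟨z, hz.le⟩
  -- the elements
  let g : κ × Bool → K := fun p => f p.1 + (if p.2 then θ else 0)
  have hge : ∀ b : Bool, u (if b then θ else 0) ≤ 1 := by
    intro b
    cases b
    · simp
    · simpa using hθ1
  have hg1 : ∀ p, u (g p) ≤ exp (1 : ℤ) := by
    intro p
    exact (u.map_add _ _).trans (max_le (hf1 _) ((hge _).trans hone.le))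
  have hginj : ∀ p p', Sp u (g p + g p') → p = p' := by
    rintro ⟨c, b⟩ ⟨c', b'⟩ h
    have e1 : g (c, b) + g (c', b') = f c + f c' + ((if b then θ else 0) + (if b' then θ else 0)) := by
      show (f c + (if b then θ else 0)) + (f c' + (if b' then θ else 0)) = _
      ring
    rw [e1] at h
    have hcc : c = c' := hsep c c' _ ((u.map_add _ _).trans (max_le (hge _) (hge _))) (hSpUn _ h)
    subst hcc
    have e2 : f c + f c = 0 := CharTwo.add_self_eq_zero _
    rw [e2, zero_add] at h
    have hbb : b = b' := by
      cases b <;> cases b'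
      · rfl
      · exfalso
        simp at h
        exact hθ2 h
      · exfalso
        simp at h
        exact hθ2 h
      · rfl
    rw [hbb]
  have hSp0 : Sp u (0 : K) := ⟨0, by simp⟩
  have hginj' : Function.Injective g := by
    intro p p' h
    apply hginj
    rw [h, CharTwo.add_self_eq_zero]
    exact hSp0
  have hfinj : Function.Injective f := by
    intro c c' h
    apply hsep c c' 0 (by simp)
    rw [h, add_zero, CharTwo.add_self_eq_zero]
    exact hSpUn _ hSp0
  refine ⟨Finset.univ.image g, ?_, ?_, ?_, ?_, Finset.univ.image f, ?_, ?_, ?_⟩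
  · rw [Finset.card_image_of_injective _ hginj', Finset.card_univ, Fintype.card_prod,
      Fintype.card_bool, hcard']
    ring
  · intro x hx
    rw [Finset.mem_image] at hx
    obtain ⟨p, -, rfl⟩ := hx
    exact hg1 p
  · intro x hx x' hx' h
    rw [Finset.mem_image] at hx hx'
    obtain ⟨p, -, rfl⟩ := hx
    obtain ⟨p', -, rfl⟩ := hx'
    rw [hginj p p' h]
  · intro x hx
    -- the residue of `x π`
    have h1 : u (x * π) ≤ 1 := by
      rw [map_mul, hπ']
      calc u x * exp (-1 : ℤ) ≤ exp (1 : ℤ) * exp (-1 : ℤ) := mul_le_mul_left hx _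
        _ = 1 := by rw [← exp_add]; norm_num
    let y : u.valuationSubring := ⟨x * π, (Valuation.mem_valuationSubring_iff _ _).2 h1⟩
    let c : κ := IsLocalRing.residue u.valuationSubring y
    have h2 : u (x * π + (s c : K)) < 1 := by
      have h3 : IsLocalRing.residue u.valuationSubring (y - s c) = 0 := by
        rw [map_sub, hs, sub_self]
      rw [IsLocalRing.residue_eq_zero_iff, Valuation.mem_maximalIdeal_iff] at h3
      have h4 : ((y - s c : u.valuationSubring) : K) = x * π + (s c : K) := by
        show x * π - (s c : K) = _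
        rw [CharTwo.sub_eq_add]
      rw [h4] at h3
      exact h3
    have h5 : u (x + f c) ≤ 1 := by
      have e1 : x + f c = (x * π + (s c : K)) * π⁻¹ := by
        show x + (s c : K) * π⁻¹ = _
        field_simp
      rw [e1, map_mul, hπi]
      by_cases hz : u (x * π + (s c : K)) = 0
      · rw [hz, zero_mul]
        exact zero_le'
      · rw [← exp_log hz, ← exp_add, ← exp_zero, exp_le_exp]
        rw [← exp_log hz, ← exp_zero, exp_lt_exp] at h2
        omega
    -- trivial or equal to `θ`
    have hPle : poq j (mkq (x + f c)) = 0 := (h0 _).2 ⟨x + f c, rfl, h5⟩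
    have hPθ : poq j (mkq θ) = 0 := (h0 _).2 ⟨θ, rfl, hθ1⟩
    by_cases hsp : Sp u (x + f c)
    · refine ⟨g (c, false), Finset.mem_image_of_mem _ (Finset.mem_univ _), ?_⟩
      have e1 : g (c, false) = f c := by
        show f c + (if false = true then θ else 0) = f c
        simp
      rw [e1]
      exact hsp
    · refine ⟨g (c, true), Finset.mem_image_of_mem _ (Finset.mem_univ _), ?_⟩
      have e1 : g (c, true) = f c + θ := by
        show f c + (if true = true then θ else 0) = f c + θ
        simp
      rw [e1, ← add_assoc]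
      have h6 := hidx (mkq (x + f c)) (mkq θ) hPle hPθ (fun h => hsp ((hSp _).2 h))
        (fun h => hθ2 ((hSp _).2 h))
      exact (hSp _).2 h6
  · intro x hx
    rw [Finset.mem_image] at hx
    obtain ⟨c, -, rfl⟩ := hx
    rw [Finset.mem_image]
    refine ⟨(c, false), Finset.mem_univ _, ?_⟩
    show f c + (if false = true then θ else 0) = f c
    simp
  · rw [Finset.card_image_of_injective _ hfinj, Finset.card_univ, hcard']
  · intro x hx x' hx' h
    rw [Finset.mem_image] at hx hx'
    obtain ⟨c, -, rfl⟩ := hx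
    obtain ⟨c', -, rfl⟩ := hx'
    rw [hsep c c' 0 (by simp) (by rw [add_zero]; exact h)]

end Pool.Agent.H467.PG.Llc
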