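import Pool.Agent.H467.PG.SpecB
import Pool.Agent.H467.GK.Hen

/-!
# Distribution of a Selmer group over all twists: local images, classes `d`

Project PG (helper467). This file: LOCF (helper921).
-/

set_option autoImplicit false
set_option linter.all false

open Finset Filter WithZero WeierstrassCurve WeierstrassCurve.Affine
open Pool.Agent.TH115.GD
open Pool.Agent.H467.PT
open Pool.Agent.H467.GK
open Pool.Agent.H467.CT (AS Bas IsTau Std Ev LV LF cc)
open scoped Classical

namespace Pool.Agent.H467.PG.Locf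

section loc

variable {L : Type} [Field L] [CharP L 2]

/-- Changing the coefficient `A` by an element `z ^ 2 + z`. -/
theorem LF_congr {A A' β d : L} (hA : AS (A + A')) (h : LF A β d) : LF A' β d := by
  rcases h with h | h | ⟨X, h0, h1, h2⟩
  · exact Or.inl h
  · exact Or.inr (Or.inl h)
  · refine Or.inr (Or.inr ⟨X, h0, h1, ?_⟩)
    have h3 := Pool.Agent.H467.CT.AS_add h2 hA
    have c2 : (2 : L) = 0 := CharTwo.two_eq_zero
    have e : X + β / X + A + (A + A') = X + β / X + A' := by linear_combination A * c2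
    rwa [e] at h3

/-- The condition on `d` at a place where `a` has a large pole, and `b` is a square. -/
theorem FS2 {w : Valuation L (WithZero (Multiplicative ℤ))} (hens : ∀ x : L, w x < 1 → AS x)
    {a b d : L} (hb0 : b ≠ 0) (hd0 : d ≠ 0)
    (hbig : ∀ z : L, max 1 (w b) ^ 2 < w (a + z ^ 2 + z)) (h : LF a (b ^ 2) d) :
    ∃ s, AS (a + d * s ^ 2) := by
  have hm : max 1 (w (b ^ 2)) ≤ max 1 (w b) ^ 2 := by
    rw [map_pow]
    exact max_le (one_le_pow₀ (le_max_left _ _)) (pow_le_pow_left₀ zero_le' (le_max_right _ _) 2)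
  rcases Pool.Agent.H467.CT.FS (w := w) hens (pow_ne_zero 2 hb0) hd0
    (fun z => lt_of_le_of_lt hm (hbig z)) h with h1 | ⟨s, hs⟩
  · exact h1
  · refine ⟨b * s, ?_⟩
    have e : a + d * (b * s) ^ 2 = a + d * b ^ 2 * s ^ 2 := by ring
    rw [e]; exact hs

end loc

theorem locf : S_LOCF := by
  intro K _ _ u hu a b hb0 hbal d hd0 hF
  have hen := Pool.Agent.H467.GK.Hen.hen
  obtain ⟨hv, hens, -⟩ := hen K u hu
  haveI hc : CharP (Cm u) 2 :=
    charP_of_injective_algebraMap (algebraMap K (Cm u)).injective 2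
  have c2 : (2 : K) = 0 := CharTwo.two_eq_zero
  have hb0' : algebraMap K (Cm u) b ≠ 0 := (_root_.map_ne_zero _).2 hb0
  have hd0' : algebraMap K (Cm u) d ≠ 0 := (_root_.map_ne_zero _).2 hd0
  rw [map_pow (algebraMap K (Cm u)) b] at hF
  constructor
  · rintro ⟨z₀, hz₀⟩
    have hb1 : u b ≤ 1 := by
      rcases hbal with h | ⟨h, -⟩ | ⟨h, h'⟩
      · exact h.le
      · exact h.le
      · exfalso
        have h1 : 1 < u b ^ 2 := one_lt_pow₀ h two_ne_zero
        exact absurd (h'  z₀) (not_lt.2 (hz₀.trans h1.le))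
    have hAS : AS (algebraMap K (Cm u) (a ^ 2) + algebraMap K (Cm u) (a + z₀ ^ 2 + z₀)) := by
      refine ⟨algebraMap K (Cm u) (a + z₀), ?_⟩
      rw [← map_add, ← map_pow, ← map_add]
      have e : a ^ 2 + (a + z₀ ^ 2 + z₀) = (a + z₀) ^ 2 + (a + z₀) := by
        linear_combination (-(a * z₀)) * c2
      rw [e]
    have hF' := LF_congr hAS hF
    have h1 := Pool.Agent.H467.CT.F1 (w := vc u) (by rw [hv]; exact hz₀)
      (by rw [map_pow, hv]; exact pow_le_one' hb1 2)
      (Pool.Agent.H467.CT.ev_sq (w := vc u) hb0') (pow_ne_zero 2 hb0') hd0' ?_ hF'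
    · rwa [hv] at h1
    · intro hlt z
      by_contra hn
      rw [not_le] at hn
      rw [map_pow, hv] at hlt
      have hb2 : u b < 1 := by
        by_contra h
        rw [not_lt] at h
        exact absurd hlt (not_lt.2 (one_le_pow₀ h))
      have hns : ¬ Sp u a := by
        rcases hbal with h | ⟨-, h⟩ | ⟨h, -⟩
        · rw [h] at hb2
          exact absurd hb2 (lt_irrefl _)
        · exact h
        · exact absurd hb2 (not_lt.2 h.le)
      apply hns
      have h2 := hens _ hn
      have h3 : AS (algebraMap K (Cm u) (a + z₀ ^ 2 + z₀)) := by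
        apply Pool.Agent.H467.CT.AS_of_add (Pool.Agent.H467.CT.AS_sq z)
        have e : z ^ 2 + z + algebraMap K (Cm u) (a + z₀ ^ 2 + z₀) =
            algebraMap K (Cm u) (a + z₀ ^ 2 + z₀) + z ^ 2 + z := by ring
        rw [e]
        exact h2
      obtain ⟨z₁, hz₁⟩ := apx_AS hen hu h3
      refine ⟨z₀ + z₁, ?_⟩
      have e : a + (z₀ + z₁) ^ 2 + (z₀ + z₁) = a + z₀ ^ 2 + z₀ + z₁ ^ 2 + z₁ := by
        linear_combination (z₀ * z₁) * c2
      rw [e]
      exact hz₁
  · intro hun
    have hAS : AS (algebraMap K (Cm u) (a ^ 2) + algebraMap K (Cm u) a) := by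
      refine ⟨algebraMap K (Cm u) a, ?_⟩
      rw [map_pow]
    have hF' := LF_congr hAS hF
    have hbig1 : ∀ z : Cm u, 1 < vc u (algebraMap K (Cm u) a + z ^ 2 + z) := by
      intro z
      by_contra h
      rw [not_lt] at h
      obtain ⟨z₀, hz₀⟩ := apx_le hen hu le_rfl h
      exact hun ⟨z₀, hz₀⟩
    refine FS2 (w := vc u) hens hb0' hd0' (fun z => ?_) hF'
    rw [hv]
    rcases hbal with h | ⟨h, -⟩ | ⟨h, h'⟩
    · rw [h, max_self, one_pow]
      exact hbig1 z
    · rw [max_eq_left h.le, one_pow]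
      exact hbig1 z
    · rw [max_eq_right h.le]
      by_contra hn
      rw [not_lt] at hn
      obtain ⟨z₀, hz₀⟩ := apx_le hen hu (one_le_pow₀ h.le) hn
      exact absurd (h' z₀) (not_lt.2 hz₀)

end Pool.Agent.H467.PG.Locf
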