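import Pool.Agent.H467.PG.SpecB
import Pool.Agent.H467.GK.Hen

/-!
# Distribution of a Selmer group over all twists: local images, classes `α`

Project PG (helper467), part Locv.
-/

set_option autoImplicit false
set_option linter.all false

open Finset WithZero
open Pool.Agent.H467.GK
open Pool.Agent.H467.CT
open scoped Classical

namespace Pool.Agent.H467.PG.Locv

/-! ### Finite fields of characteristic two -/

section fin

variable {κ : Type} [Field κ] [Finite κ] [CharP κ 2]

/-- The map `z ^ 2 + z`. -/
def ph (κ : Type) [Field κ] [CharP κ 2] : κ →+ κ where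
  toFun z := z ^ 2 + z
  map_zero' := by ring
  map_add' x y := by
    have c2 : (2 : κ) = 0 := CharTwo.two_eq_zero
    linear_combination (x * y) * c2

theorem mem_range (x : κ) : x ∈ (ph κ).range ↔ AS x := by
  constructor
  · rintro ⟨z, hz⟩
    exact ⟨z, hz.symm⟩
  · rintro ⟨z, hz⟩
    exact ⟨z, hz.symm⟩

theorem index_two : (ph κ).range.index = 2 := by
  have hker : ((ph κ).ker : Set κ) = {0, 1} := by
    ext z
    constructor
    · intro hz
      have h1 : z ^ 2 + z = 0 := hz
      have h2 : z * (z + 1) = 0 := by linear_combination h1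
      rcases mul_eq_zero.1 h2 with h | h
      · exact Or.inl h
      · right
        have c2 : (2 : κ) = 0 := CharTwo.two_eq_zero
        show z = 1
        linear_combination h - c2
    · intro hz
      have c2 : (2 : κ) = 0 := CharTwo.two_eq_zero
      rcases hz with h | h
      · subst h
        show (0 : κ) ^ 2 + 0 = 0
        ring
      · have h : z = 1 := h
        subst h
        show (1 : κ) ^ 2 + 1 = 0
        linear_combination c2
  have hc : Nat.card (ph κ).ker = 2 := by
    have h1 : Nat.card (ph κ).ker = ((ph κ).ker : Set κ).ncard := rfl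
    rw [h1, hker, Set.ncard_pair (zero_ne_one)]
  have h1 := (ph κ).ker.card_mul_index
  rw [AddSubgroup.index_ker, hc] at h1
  have h2 := (ph κ).range.card_mul_index
  have h3 : 0 < Nat.card (ph κ).range := Nat.card_pos
  have h4 : Nat.card (ph κ).range * (ph κ).range.index = Nat.card (ph κ).range * 2 := by
    rw [h2, ← h1, mul_comm]
  exact Nat.eq_of_mul_eq_mul_left h3 h4

/-- The sum of two elements which are not of the form `z ^ 2 + z` is of this form. -/
theorem fin_add {x y : κ} (hx : ¬ AS x) (hy : ¬ AS y) : AS (x + y) := by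
  rw [← mem_range] at hx hy ⊢
  rw [AddSubgroup.add_mem_iff_of_index_two index_two]
  exact iff_of_false hx hy

/-- Counting. -/
theorem fin_ex {b n : κ} (hb : b ≠ 0) (hn : ¬ AS n) : ∃ x : κ, ¬ AS x ∧ ¬ AS (b / x) := by
  by_contra hcon
  push Not at hcon
  have : Fintype κ := Fintype.ofFinite κ
  set H : Finset κ := univ.filter fun x => AS x with hH
  set N : Finset κ := univ.filter fun x => ¬ AS x with hN
  have c2 : (2 : κ) = 0 := CharTwo.two_eq_zero
  have h1 : H.card ≤ N.card := by
    refine Finset.card_le_card_of_injOn (fun x => x + n) ?_ ?_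
    · intro x hx
      rw [hH, mem_coe, mem_filter] at hx
      rw [hN, mem_coe, mem_filter]
      exact ⟨mem_univ _, fun h => hn (AS_of_add hx.2 h)⟩
    · intro x _ y _ h
      exact add_right_cancel h
  have h2 : N.card ≤ (H.erase 0).card := by
    refine Finset.card_le_card_of_injOn (fun x => b / x) ?_ ?_
    · intro x hx
      rw [hN, mem_coe, mem_filter] at hx
      have hx0 : x ≠ 0 := by
        rintro rfl
        exact hx.2 AS_zero
      rw [mem_coe, mem_erase, hH, mem_filter]
      exact ⟨div_ne_zero hb hx0, mem_univ _, hcon x hx.2⟩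
    · intro x hx y hy h
      rw [hN, mem_coe, mem_filter] at hx hy
      have hx0 : x ≠ 0 := by
        rintro rfl
        exact hx.2 AS_zero
      have hy0 : y ≠ 0 := by
        rintro rfl
        exact hy.2 AS_zero
      have h3 : b / x = b / y := h
      rw [div_eq_div_iff hx0 hy0] at h3
      exact (mul_left_cancel₀ hb h3).symm
  have h0 : (0 : κ) ∈ H := by
    rw [hH, mem_filter]
    exact ⟨mem_univ _, AS_zero⟩
  have h3 := Finset.card_erase_lt_of_mem h0
  omega

end fin

/-! ### The residue field -/

section res

variable {K : Type} [Field K] [CharP K 2] {u : Vl K}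

/-- the residue class of an integral element -/
noncomputable def rs' (u : Vl K) (x : K) (hx : u x ≤ 1) :
    IsLocalRing.ResidueField u.valuationSubring :=
  IsLocalRing.residue u.valuationSubring ⟨x, hx⟩

theorem rs_zero (x : K) (hx : u x ≤ 1) : rs' u x hx = 0 ↔ u x < 1 := by
  unfold rs'
  rw [IsLocalRing.residue_eq_zero_iff, IsLocalRing.mem_maximalIdeal, mem_nonunits_iff,
    (Valuation.valuationSubring.integers u).isUnit_iff_valuation_eq_one]
  show ¬ u x = 1 ↔ u x < 1
  exact ⟨fun h => lt_of_le_of_ne hx h, fun h => h.ne⟩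

theorem charR : CharP (IsLocalRing.ResidueField u.valuationSubring) 2 := by
  have h2 : (2 : IsLocalRing.ResidueField u.valuationSubring) = 0 := by
    have h1 : (2 : u.valuationSubring) = 0 := by
      apply Subtype.ext
      have : (2 : K) = 0 := CharTwo.two_eq_zero
      exact this
    have h3 := congrArg (IsLocalRing.residue u.valuationSubring) h1
    rwa [map_ofNat, map_zero] at h3
  exact CharTwo.of_one_ne_zero_of_two_eq_zero one_ne_zero h2

theorem rs_AS {x : K} (hx : u x ≤ 1) : AS (rs' u x hx) ↔ Sp u x := by
  constructor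
  · rintro ⟨z, hz⟩
    obtain ⟨⟨y, hy⟩, rfl⟩ := IsLocalRing.residue_surjective z
    have hy' : u y ≤ 1 := hy
    have h1 : u (x + y ^ 2 + y) ≤ 1 := by
      refine Valuation.map_add_le _ (Valuation.map_add_le _ hx ?_) hy'
      rw [map_pow]
      exact pow_le_one' hy' 2
    refine ⟨y, (rs_zero _ h1).1 ?_⟩
    have h2 : rs' u (x + y ^ 2 + y) h1 = rs' u x hx + (rs' u y hy') ^ 2 + rs' u y hy' := by
      unfold rs'
      rw [← map_pow, ← map_add, ← map_add]
      rfl
    have hc : CharP (IsLocalRing.ResidueField u.valuationSubring) 2 := charR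
    have c2 : (2 : IsLocalRing.ResidueField u.valuationSubring) = 0 := CharTwo.two_eq_zero
    have h3 : rs' u x hx = (rs' u y hy') ^ 2 + rs' u y hy' := hz
    rw [h2, h3]
    linear_combination ((rs' u y hy') ^ 2 + rs' u y hy') * c2
  · rintro ⟨y, hy⟩
    have hy' : u y ≤ 1 := by
      by_contra h
      rw [not_le] at h
      have h1 : 1 < u (y ^ 2 + y) := by
        have h2 : u (y ^ 2 + y) = u (y ^ 2) := by
          apply Valuation.map_add_eq_of_lt_left
          rw [map_pow, sq]
          exact lt_mul_of_one_lt_left (zero_lt_one.trans h) h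
        rw [h2, map_pow]
        exact one_lt_pow₀ h two_ne_zero
      have h3 : u (x + y ^ 2 + y) = u (y ^ 2 + y) := by
        rw [add_assoc]
        exact Valuation.map_add_eq_of_lt_right _ (lt_of_le_of_lt hx h1)
      rw [h3] at hy
      exact absurd (hy.trans h1) (lt_irrefl _)
    have h1 : u (x + y ^ 2 + y) ≤ 1 := hy.le
    have h2 : rs' u (x + y ^ 2 + y) h1 = rs' u x hx + (rs' u y hy') ^ 2 + rs' u y hy' := by
      unfold rs'
      rw [← map_pow, ← map_add, ← map_add]
      rfl
    have hc : CharP (IsLocalRing.ResidueField u.valuationSubring) 2 := charR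
    have c2 : (2 : IsLocalRing.ResidueField u.valuationSubring) = 0 := CharTwo.two_eq_zero
    rw [(rs_zero _ h1).2 hy] at h2
    refine ⟨rs' u y hy', ?_⟩
    linear_combination (-1 : IsLocalRing.ResidueField u.valuationSubring) * h2 -
      ((rs' u y hy') ^ 2 + rs' u y hy') * c2

theorem Sp_congr {x y : K} (z : K) (h : y = x + z ^ 2 + z) : Sp u x ↔ Sp u y := by
  have c2 : (2 : K) = 0 := CharTwo.two_eq_zero
  subst h
  constructor
  · rintro ⟨v, hv⟩
    refine ⟨v + z, ?_⟩
    have e : x + z ^ 2 + z + (v + z) ^ 2 + (v + z) = x + v ^ 2 + v := by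
      linear_combination (z ^ 2 + z + v * z) * c2
    rw [e]; exact hv
  · rintro ⟨v, hv⟩
    refine ⟨v + z, ?_⟩
    have e : x + (v + z) ^ 2 + (v + z) = x + z ^ 2 + z + v ^ 2 + v := by
      linear_combination (v * z) * c2
    rw [e]; exact hv

/-- Two unramified classes which do not split have a split sum. -/
theorem Sp_add_of_not [Finite (IsLocalRing.ResidueField u.valuationSubring)] {x y : K}
    (hx : Un u x) (hy : Un u y) (hx' : ¬ Sp u x) (hy' : ¬ Sp u y) : Sp u (x + y) := by
  have hc : CharP (IsLocalRing.ResidueField u.valuationSubring) 2 := charR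
  obtain ⟨z, hz⟩ := hx
  obtain ⟨v, hv⟩ := hy
  rw [Sp_congr z rfl, ← rs_AS hz] at hx'
  rw [Sp_congr v rfl, ← rs_AS hv] at hy'
  have h1 := fin_add hx' hy'
  have h2 : u ((x + z ^ 2 + z) + (y + v ^ 2 + v)) ≤ 1 := Valuation.map_add_le _ hz hv
  have h3 : rs' u ((x + z ^ 2 + z) + (y + v ^ 2 + v)) h2 =
      rs' u (x + z ^ 2 + z) hz + rs' u (y + v ^ 2 + v) hv := by
    unfold rs'
    rw [← map_add]
    rfl
  rw [← h3, rs_AS h2] at h1
  have c2 : (2 : K) = 0 := CharTwo.two_eq_zero
  rw [Sp_congr (z + v) (y := (x + z ^ 2 + z) + (y + v ^ 2 + v))]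
  · exact h1
  · linear_combination (-(z * v)) * c2

/-- An element `x` such that `x` and `b / x` do not split. -/
theorem ex_ns [Finite (IsLocalRing.ResidueField u.valuationSubring)] {b n : K} (hb : u b = 1)
    (hn : Un u n) (hn' : ¬ Sp u n) : ∃ x : K, u x = 1 ∧ ¬ Sp u x ∧ ¬ Sp u (b / x) := by
  have hc : CharP (IsLocalRing.ResidueField u.valuationSubring) 2 := charR
  obtain ⟨z, hz⟩ := hn
  rw [Sp_congr z rfl, ← rs_AS hz] at hn'
  have hb0 : rs' u b hb.le ≠ 0 := by
    rw [Ne, rs_zero, hb]
    exact lt_irrefl _
  obtain ⟨x, hx, hx'⟩ := fin_ex hb0 hn'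
  obtain ⟨⟨y, hy⟩, rfl⟩ := IsLocalRing.residue_surjective x
  have hy' : u y ≤ 1 := hy
  have e : IsLocalRing.residue u.valuationSubring ⟨y, hy⟩ = rs' u y hy' := rfl
  rw [e] at hx hx'
  have hy1 : u y = 1 := by
    refine le_antisymm hy' (not_lt.1 fun h => hx ?_)
    rw [(rs_zero y hy').2 h]
    exact AS_zero
  have hby : u (b / y) ≤ 1 := by
    rw [map_div₀, hb, hy1, div_one]
  refine ⟨y, hy1, ?_, ?_⟩
  · rwa [← rs_AS hy']
  · rw [← rs_AS hby]
    have h1 : rs' u y hy' ≠ 0 := by
      rw [Ne, rs_zero, hy1]
      exact lt_irrefl _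
    have hy0 : y ≠ 0 := by
      rintro rfl
      rw [map_zero] at hy1
      exact zero_ne_one hy1
    have h2 : rs' u (b / y) hby = rs' u b hb.le / rs' u y hy' := by
      rw [eq_div_iff h1]
      unfold rs'
      rw [← map_mul]
      congr 1
      apply Subtype.ext
      show b / y * y = b
      exact div_mul_cancel₀ b hy0
    rwa [h2]

end res

/-! ### The local conditions (copied from part V2 of project PT) -/

section loc

variable {L : Type} [Field L] [CharP L 2]

/-- The local condition only depends on `a` modulo `z ^ 2 + z`. -/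
theorem LV_congr {a a₁ b α : L} (ha : AS (a + a₁)) (h : LV (a ^ 2) (b ^ 2) α) :
    LV a₁ (b ^ 2) α := by
  have c2 : (2 : L) = 0 := CharTwo.two_eq_zero
  have h0 : AS (a ^ 2 + a₁) := by
    have := AS_add (AS_sq a) ha
    have e : a ^ 2 + a + (a + a₁) = a ^ 2 + a₁ := by linear_combination a * c2
    rwa [e] at this
  rcases h with h | ⟨x, h1, h2, h3⟩
  · exact Or.inl h
  · refine Or.inr ⟨x, ?_, fun hx => ?_, h3⟩
    · have := AS_add h1 h0
      have e : α + x + a ^ 2 + (a ^ 2 + a₁) = α + x + a₁ := by linear_combination a ^ 2 * c2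
      rwa [e] at this
    · have := AS_add (h2 hx) h0
      have e : x + a ^ 2 + b ^ 2 / x ^ 2 + (a ^ 2 + a₁) = x + a₁ + b ^ 2 / x ^ 2 := by
        linear_combination a ^ 2 * c2
      rwa [e] at this

variable {w : Valuation L (WithZero (Multiplicative ℤ))} (hens : ∀ x : L, w x < 1 → AS x)

include hens

/-- The condition on `α` at a place where `a` has a large pole. -/
theorem LS2 {a b α : L} (hbig : ∀ z : L, max 1 (w b) ^ 2 < w (a + z ^ 2 + z))
    (h : LV a (b ^ 2) α) : AS α ∨ AS (α + a) := by
  have c2 : (2 : L) = 0 := CharTwo.two_eq_zero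
  rcases h with h | ⟨x, h1, h2, h3⟩
  · left; exact h
  · by_cases hx0 : x = 0
    · right
      subst hx0
      simpa using h1
    · have h2' : AS (x + b / x + a) := by
        have := AS_add (h2 hx0) (AS_sq (b / x))
        have e : x + a + b ^ 2 / x ^ 2 + ((b / x) ^ 2 + b / x) = x + b / x + a := by
          rw [← div_pow]
          linear_combination (b / x) ^ 2 * c2
        rwa [e] at this
      by_cases hx : w x < 1
      · right
        have h4 := hens _ hx
        apply AS_of_add h4
        have : x + (α + a) = α + x + a := by ring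
        rw [this]; exact h1
      · by_cases hbx : w (b / x) < 1
        · left
          have h4 := hens _ hbx
          have h9 : AS (x + a) := by
            apply AS_of_add h4
            have : b / x + (x + a) = x + b / x + a := by ring
            rw [this]; exact h2'
          apply AS_of_add h9
          have : x + a + α = α + x + a := by ring
          rw [this]; exact h1
        · exfalso
          rw [not_lt] at hx hbx
          obtain ⟨u, hu⟩ := h2'
          have hp : 0 < w x := zero_lt_iff.2 ((Valuation.ne_zero_iff w).2 hx0)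
          have hw : w (a + u ^ 2 + u) ≤ w b := by
            have e : a + u ^ 2 + u = x + b / x := by
              linear_combination a * c2 - hu
            rw [e]
            rw [map_div₀, one_le_div₀ hp] at hbx
            refine (Valuation.map_add w _ _).trans (max_le hbx ?_)
            rw [map_div₀]
            exact div_le_of_le_mul₀ zero_le' zero_le' (by
              calc w b = w b * 1 := (mul_one _).symm
                _ ≤ w b * w x := mul_le_mul_right hx (w b))
          have h5 : w b ≤ max 1 (w b) ^ 2 := by
            have h6 : w b ≤ max 1 (w b) := le_max_right _ _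
            have h7 : (1 : WithZero (Multiplicative ℤ)) ≤ max 1 (w b) := le_max_left _ _
            refine h6.trans ?_
            rw [sq]
            exact le_mul_of_one_le_left' h7
          exact absurd (lt_of_le_of_lt h5 (hbig u)) (not_lt.2 hw)

end loc

/-- LOCV. -/
theorem locv : S_LOCV := by
  intro K _ _ u hu hfin a b hb hbal α
  have hen := Hen.hen
  obtain ⟨e1, e2, e3⟩ := hen K u hu
  have hcL : CharP (Cm u) 2 := charP_of_injective_algebraMap (algebraMap K (Cm u)).injective 2
  have c2 : (2 : Cm u) = 0 := CharTwo.two_eq_zero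
  have c2K : (2 : K) = 0 := CharTwo.two_eq_zero
  -- split classes
  have hSp : ∀ c : K, Sp u c ↔ AS (algebraMap K (Cm u) c) := by
    intro c
    constructor
    · rintro ⟨z, hz⟩
      rw [← e1] at hz
      obtain ⟨v, hv⟩ := e2 _ hz
      refine ⟨v + algebraMap K (Cm u) z, ?_⟩
      rw [map_add, map_add, map_pow] at hv
      linear_combination hv - (algebraMap K (Cm u) z ^ 2 + algebraMap K (Cm u) z +
        v * algebraMap K (Cm u) z) * c2
    · exact fun h => apx_AS hen hu h
  -- the two sufficient conditions
  have hL : ∀ x : K, x ≠ 0 → Sp u (α + x + a) → Sp u (x + a + b / x) →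
      LV (algebraMap K (Cm u) (a ^ 2)) (algebraMap K (Cm u) (b ^ 2)) (algebraMap K (Cm u) α) := by
    intro x hx h1 h2
    rw [hSp] at h1 h2
    have h3 : AS (algebraMap K (Cm u) a ^ 2 + algebraMap K (Cm u) a) := AS_sq _
    refine Or.inr ⟨algebraMap K (Cm u) x, ?_, fun _ => ?_, fun h => ?_⟩
    · have := AS_add h1 h3
      rw [map_add, map_add] at this
      rw [map_pow]
      have e : algebraMap K (Cm u) α + algebraMap K (Cm u) x + algebraMap K (Cm u) a +
          (algebraMap K (Cm u) a ^ 2 + algebraMap K (Cm u) a) =
          algebraMap K (Cm u) α + algebraMap K (Cm u) x + algebraMap K (Cm u) a ^ 2 := by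
        linear_combination algebraMap K (Cm u) a * c2
      rwa [e] at this
    · have := AS_add (AS_add h2 h3) (AS_sq (algebraMap K (Cm u) b / algebraMap K (Cm u) x))
      rw [map_add, map_add, map_div₀] at this
      rw [map_pow, map_pow]
      have e : algebraMap K (Cm u) x + algebraMap K (Cm u) a +
          algebraMap K (Cm u) b / algebraMap K (Cm u) x +
          (algebraMap K (Cm u) a ^ 2 + algebraMap K (Cm u) a) +
          ((algebraMap K (Cm u) b / algebraMap K (Cm u) x) ^ 2 +
            algebraMap K (Cm u) b / algebraMap K (Cm u) x) =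
          algebraMap K (Cm u) x + algebraMap K (Cm u) a ^ 2 +
            algebraMap K (Cm u) b ^ 2 / algebraMap K (Cm u) x ^ 2 := by
        rw [← div_pow]
        linear_combination (algebraMap K (Cm u) a +
          algebraMap K (Cm u) b / algebraMap K (Cm u) x) * c2
      rwa [e] at this
    · exact absurd ((map_eq_zero _).1 h) hx
  have hL0 : Sp u (α + a) →
      LV (algebraMap K (Cm u) (a ^ 2)) (algebraMap K (Cm u) (b ^ 2)) (algebraMap K (Cm u) α) := by
    intro h1
    rw [hSp] at h1
    refine Or.inr ⟨0, ?_, fun h => absurd rfl h, fun _ => ?_⟩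
    · have := AS_add h1 (AS_sq (algebraMap K (Cm u) a))
      rw [map_add] at this
      rw [map_pow, add_zero]
      have e : algebraMap K (Cm u) α + algebraMap K (Cm u) a +
          (algebraMap K (Cm u) a ^ 2 + algebraMap K (Cm u) a) =
          algebraMap K (Cm u) α + algebraMap K (Cm u) a ^ 2 := by
        linear_combination algebraMap K (Cm u) a * c2
      rwa [e] at this
    · rw [map_pow]
      exact ⟨algebraMap K (Cm u) b, sq _⟩
  have hLl : Sp u α →
      LV (algebraMap K (Cm u) (a ^ 2)) (algebraMap K (Cm u) (b ^ 2)) (algebraMap K (Cm u) α) :=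
    fun h => Or.inl ((hSp α).1 h)
  constructor
  · intro h
    rw [map_pow, map_pow] at h
    by_cases ha : Un u a
    · left
      refine ⟨ha, ?_⟩
      obtain ⟨z₀, hz₀⟩ := ha
      have hb1 : u b ≤ 1 := by
        rcases hbal with h1 | ⟨h1, -⟩ | ⟨h1, h2⟩
        · exact h1.le
        · exact h1.le
        · exfalso
          have h3 := (h2 z₀).trans_le hz₀
          exact absurd h3 (not_lt.2 (one_le_pow₀ h1.le))
      have h1 : LV (algebraMap K (Cm u) (a + z₀ ^ 2 + z₀)) (algebraMap K (Cm u) b ^ 2)
          (algebraMap K (Cm u) α) := by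
        refine LV_congr ?_ h
        refine ⟨algebraMap K (Cm u) z₀, ?_⟩
        rw [map_add, map_add, map_pow]
        linear_combination algebraMap K (Cm u) a * c2
      obtain ⟨z, hz⟩ := L1 (w := vc u) (by rw [e1]; exact hz₀)
        (by rw [map_pow, e1]; exact pow_le_one' hb1 2) h1
      exact apx_le hen hu le_rfl hz
    · right
      refine ⟨ha, ?_⟩
      have h1 : LV (algebraMap K (Cm u) a) (algebraMap K (Cm u) b ^ 2)
          (algebraMap K (Cm u) α) := by
        refine LV_congr ?_ h
        rw [CharTwo.add_self_eq_zero]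
        exact AS_zero
      have hbig : ∀ z : Cm u, max 1 (vc u (algebraMap K (Cm u) b)) ^ 2 <
          vc u (algebraMap K (Cm u) a + z ^ 2 + z) := by
        intro z
        rw [e1]
        have h2 : u b ≤ 1 → max 1 (u b) ^ 2 < vc u (algebraMap K (Cm u) a + z ^ 2 + z) := by
          intro h3
          rw [max_eq_left h3, one_pow]
          by_contra h4
          exact ha (apx_le hen hu le_rfl (not_lt.1 h4))
        rcases hbal with h3 | ⟨h3, -⟩ | ⟨h3, h4⟩
        · exact h2 h3.le
        · exact h2 h3.le
        · rw [max_eq_right h3.le]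
          by_contra h5
          obtain ⟨z₀, hz₀⟩ := apx_le hen hu (one_le_pow₀ h3.le) (not_lt.1 h5)
          exact absurd (h4 z₀) (not_lt.2 hz₀)
      rcases LS2 (w := vc u) (fun x hx => e2 x hx) hbig h1 with h2 | h2
      · exact Or.inl ((hSp α).2 h2)
      · right
        rw [hSp, map_add]
        exact h2
  · rintro (⟨h1, h2⟩ | ⟨-, h1 | h1⟩)
    · by_cases hα : Sp u α
      · exact hLl hα
      · by_cases hαa : Sp u (α + a)
        · exact hL0 hαa
        · -- `a` splits
          have hun : Un u (α + a) := by
            obtain ⟨z, hz⟩ := h1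
            obtain ⟨v, hv⟩ := h2
            refine ⟨z + v, ?_⟩
            have e : α + a + (z + v) ^ 2 + (z + v) = (a + z ^ 2 + z) + (α + v ^ 2 + v) := by
              linear_combination (z * v) * c2K
            rw [e]
            exact Valuation.map_add_le _ hz hv
          have ha : Sp u a := by
            have h3 := Sp_add_of_not h2 hun hα hαa
            have e : α + (α + a) = a := by linear_combination α * c2K
            rwa [e] at h3
          have hb1 : u b = 1 := by
            rcases hbal with h3 | ⟨-, h3⟩ | ⟨h3, h4⟩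
            · exact h3
            · exact absurd ha h3
            · exfalso
              obtain ⟨z, hz⟩ := h1
              exact absurd ((h4 z).trans_le hz) (not_lt.2 (one_le_pow₀ h3.le))
          obtain ⟨x, hx1, hx2, hx3⟩ := ex_ns hb1 h2 hα
          have hx0 : x ≠ 0 := by
            rintro rfl
            rw [map_zero] at hx1
            exact zero_ne_one hx1
          have hux : Un u x := ⟨0, by
            have e : x + 0 ^ 2 + 0 = x := by ring
            rw [e]; exact hx1.le⟩
          have hubx : Un u (b / x) := ⟨0, by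
            have e : b / x + 0 ^ 2 + 0 = b / x := by ring
            rw [e, map_div₀, hb1, hx1, div_one]⟩
          have hadd : ∀ c d : K, Sp u c → Sp u d → Sp u (c + d) := by
            intro c d hc hd
            rw [hSp] at hc hd ⊢
            rw [map_add]
            exact AS_add hc hd
          refine hL x hx0 (hadd _ _ (Sp_add_of_not h2 hux hα hx2) ha) ?_
          have e : x + a + b / x = (x + b / x) + a := by ring
          rw [e]
          exact hadd _ _ (Sp_add_of_not hux hubx hx2 hx3) ha
    · exact hLl h1
    · exact hL0 h1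

end Pool.Agent.H467.PG.Locv
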