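import Pool.Agent.H467.PG.SpecA

/-!
# Most divisors are nice
-/

set_option autoImplicit false
set_option linter.all false

open Finset Filter
open Pool.Agent.H467.PT
open scoped Classical

namespace Pool.Agent.H467.PG.Nnc

/-- a filter -/
noncomputable def ct {ι : Type} (T : Finset (ι →₀ ℕ)) (P : (ι →₀ ℕ) → Prop) :
    Finset (ι →₀ ℕ) := T.filter P

theorem mem_ct {ι : Type} {T : Finset (ι →₀ ℕ)} {P : (ι →₀ ℕ) → Prop} {D : ι →₀ ℕ} :
    D ∈ ct T P ↔ D ∈ T ∧ P D := by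
  unfold ct
  rw [mem_filter]

/-- few large primes in `I` -/
def few {ι : Type} (S : PSys ι) (L k : ℕ) (I : Set ι) (D : ι →₀ ℕ) : Prop :=
  (∀ p, L < S.deg p → D p ≤ 1) ∧ (D.support.filter (fun p => L < S.deg p ∧ p ∈ I)).card < k

/-- the number of the divisors of degree `m` with a property -/
theorem ncard_eq {ι : Type} {S : PSys ι} {m : ℕ} (hf : {D : ι →₀ ℕ | dgf S D = m}.Finite)
    (P : (ι →₀ ℕ) → Prop) :
    {D : ι →₀ ℕ | dgf S D = m ∧ P D}.ncard = (ct hf.toFinset P).card := by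
  rw [← Set.ncard_coe_finset]
  congr 1
  ext D
  simp [mem_ct]

/-- the set of all primes has positive lower density -/
theorem den_univ {ι : Type} {S : PSys ι} {q : ℕ} {C c : ℝ} {W n₀ : ℕ} (hP : PHyp S q C c W n₀) :
    DenI S q Set.univ := by
  refine ⟨c, C, hP.c0, fun x Y hxY => ?_⟩
  have h : ∀ l, cI S Set.univ l = (S.eq l).card := by
    intro l
    unfold cI
    refine congrArg Finset.card ?_
    ext p
    simp only [mem_filter, Set.mem_univ, and_true]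
  simp only [h]
  exact hP.low x Y hxY

theorem nnc : S_BAD → S_DIV → S_TRF → S_FAV → S_NNC := by
  intro hBAD hDIV hTRF hFAV ι S q C c W n₀ hP E _ _ Rel C₄ C₅ hR C₀ L₀ θ ε hθ hε
  have hq : (0 : ℝ) < q := by
    have := hP.q2
    exact_mod_cast (by omega : 0 < q)
  obtain ⟨hfin, -, hdiv3, hdiv4⟩ := hDIV ι S q C c W n₀ hP
  obtain ⟨C', hC', htrf⟩ := hTRF ι S q C c W n₀ hP
  set ε₁ : ℝ := ε / (6 * (C' + 1)) with hε₁
  have hε₁0 : 0 < ε₁ := by positivity
  obtain ⟨L₁, hbad⟩ := hBAD ι S q C c W n₀ hP E Rel C₄ C₅ hR θ ε₁ hθ hε₁0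
  obtain ⟨L₂, hdiv⟩ := hdiv3 (ε / 6) (by positivity)
  set L : ℕ := max (max L₀ 1) (max L₁ L₂) with hL
  have hL0 : L₀ ≤ L := (le_max_left _ _).trans (le_max_left _ _)
  have hL1 : 1 ≤ L := (le_max_right _ _).trans (le_max_left _ _)
  have hL2 : L₁ ≤ L := (le_max_left _ _).trans (le_max_right _ _)
  have hL3 : L₂ ≤ L := (le_max_right _ _).trans (le_max_right _ _)
  have hLp : (0 : ℝ) < L := by exact_mod_cast hL1
  obtain ⟨m₁, ht⟩ := htrf L hL1 (fun U => ¬ GoodG S q Rel L θ U) (ε₁ / L) (by positivity)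
    ⟨0, fun n _ => by
      have h1 := hbad L hL2 n
      have e : ε₁ / L * (q : ℝ) ^ n = (ε₁ * (q : ℝ) ^ n) / L := by ring
      rw [e, le_div_iff₀ hLp, mul_comm]
      refine le_trans (le_of_eq ?_) h1
      refine congrArg (fun A : Finset (Finset ι) => (L : ℝ) * (A.card : ℝ)) ?_
      ext U
      simp only [mem_filter]⟩ ε₁ hε₁0
  obtain ⟨M, hM⟩ := hdiv4 L (ε / 6) (by positivity)
  refine ⟨L, hL0, M, fun F hF hden => ?_⟩
  obtain ⟨m₂, hmany⟩ : ∃ m₀ : ℕ, ∀ m, m₀ ≤ m →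
      ({D : ι →₀ ℕ | dgf S D = m ∧ few S L C₀ Set.univ D}.ncard : ℝ) ≤ ε / 6 * (q : ℝ) ^ m :=
    hFAV ι S q C c W n₀ hP Set.univ (den_univ hP) L C₀ (ε / 6) (by positivity)
  set F' : Finset (Set ι) := hF.toFinset with hF'
  set ε₂ : ℝ := ε / (6 * (F'.card + 1)) with hε₂
  have hε₂0 : 0 < ε₂ := by positivity
  have hhit : ∀ I : Set ι, ∃ m₀ : ℕ, I ∈ F → ∀ m, m₀ ≤ m →
      ({D : ι →₀ ℕ | dgf S D = m ∧ few S L 1 I D}.ncard : ℝ) ≤ ε₂ * (q : ℝ) ^ m := by
    intro I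
    by_cases hI : I ∈ F
    · obtain ⟨m₀, h⟩ := hFAV ι S q C c W n₀ hP I (hden I hI) L 1 ε₂ hε₂0
      exact ⟨m₀, fun _ => h⟩
    · exact ⟨0, fun h => absurd h hI⟩
  choose mI hmI using hhit
  refine ⟨max (max m₁ m₂) (F'.sup mI), fun m hm => ?_⟩
  have hm1 : m₁ ≤ m := ((le_max_left _ _).trans (le_max_left _ _)).trans hm
  have hm2 : m₂ ≤ m := ((le_max_right _ _).trans (le_max_left _ _)).trans hm
  have hm3 : ∀ I ∈ F, mI I ≤ m := by
    intro I hI
    have h1 : I ∈ F' := by rw [hF']; exact (Set.Finite.mem_toFinset hF).2 hI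
    exact ((Finset.le_sup (f := mI) h1).trans (le_max_right _ _)).trans hm
  have hqm : (0 : ℝ) < (q : ℝ) ^ m := by positivity
  have a1 := hdiv L hL3 m
  have a2 : ({D : ι →₀ ℕ | dgf S D = m ∧ ((∀ p, L < S.deg p → D p ≤ 1) ∧
      ¬ GoodG S q Rel L θ D.support)}.ncard : ℝ) ≤ _ := ht m hm1
  have a3 := hM m
  have a4 := hmany m hm2
  rw [ncard_eq (hfin m)] at a1 a2 a3 a4 ⊢
  have a5 : ∀ I ∈ F', ((ct (hfin m).toFinset (few S L 1 I)).card : ℝ) ≤
        ε₂ * (q : ℝ) ^ m := by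
    intro I hI
    have hI' : I ∈ F := by rw [hF'] at hI; exact (Set.Finite.mem_toFinset hF).1 hI
    have := hmI I hI' m (hm3 I hI')
    rw [ncard_eq (hfin m)] at this
    exact this
  generalize (hfin m).toFinset = T at a1 a2 a3 a4 a5 ⊢
  have e2 : (C' * L * (ε₁ / L) + ε₁) = ε / 6 := by
    rw [hε₁]
    field_simp
  rw [e2] at a2
  set B1 := ct T (fun D => ∃ p, L < S.deg p ∧ 2 ≤ D p) with hB1
  set B2 := ct T (fun D => (∀ p, L < S.deg p → D p ≤ 1) ∧
      ¬ GoodG S q Rel L θ D.support) with hB2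
  set B3 := ct T (fun D => M < ∑ p ∈ D.support.filter (fun p => S.deg p ≤ L),
      D p * S.deg p) with hB3
  set B4 := ct T (few S L C₀ Set.univ) with hB4
  set B5 := F'.biUnion (fun I => ct T (few S L 1 I)) with hB5
  have hsub : ct T (fun D => ¬ NiceG S q Rel L M C₀ θ F D) ⊆
      (((B1 ∪ B2) ∪ B3) ∪ B4) ∪ B5 := by
    intro D hD
    rw [mem_ct] at hD
    obtain ⟨hDT, hDn⟩ := hD
    by_contra hcon
    simp only [mem_union, not_or] at hcon
    obtain ⟨⟨⟨⟨h1, h2⟩, h3⟩, h4⟩, h5⟩ := hcon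
    rw [hB1, mem_ct] at h1
    rw [hB2, mem_ct] at h2
    rw [hB3, mem_ct] at h3
    rw [hB4, mem_ct] at h4
    have hs : ∀ p, L < S.deg p → D p ≤ 1 := by
      intro p hp
      by_contra h6
      exact h1 ⟨hDT, p, hp, by omega⟩
    apply hDn
    refine ⟨hs, ?_, ?_, ?_, ?_⟩
    · by_contra h6
      exact h3 ⟨hDT, by omega⟩
    · by_contra h6
      exact h2 ⟨hDT, hs, h6⟩
    · by_contra h6
      refine h4 ⟨hDT, hs, lt_of_le_of_lt (Finset.card_le_card ?_) (not_le.1 h6)⟩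
      intro p hp
      simp only [mem_filter] at hp ⊢
      exact ⟨hp.1, hp.2.1⟩
    · intro I hI
      have hI' : I ∈ F' := by rw [hF']; exact (Set.Finite.mem_toFinset hF).2 hI
      by_contra h6
      apply h5
      rw [hB5, mem_biUnion]
      refine ⟨I, hI', mem_ct.2 ⟨hDT, hs, ?_⟩⟩
      rw [Nat.lt_one_iff, Finset.card_eq_zero, Finset.filter_eq_empty_iff]
      intro p hp h7
      exact h6 ⟨p, hp, h7.1, h7.2⟩
  have hcard := (Finset.card_le_card hsub).trans (Finset.card_union_le _ _)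
  have hc1 := Finset.card_union_le ((B1 ∪ B2) ∪ B3) B4
  have hc2 := Finset.card_union_le (B1 ∪ B2) B3
  have hc3 := Finset.card_union_le B1 B2
  have hc4 : (B5.card : ℝ) ≤ ε / 6 * (q : ℝ) ^ m := by
    have h1 : (B5.card : ℝ) ≤ ∑ I ∈ F', ((ct T (few S L 1 I)).card : ℝ) := by
      exact_mod_cast Finset.card_biUnion_le
    refine h1.trans ((Finset.sum_le_sum a5).trans ?_)
    rw [Finset.sum_const, nsmul_eq_mul, ← mul_assoc]
    refine mul_le_mul_of_nonneg_right ?_ hqm.le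
    rw [hε₂, mul_div_assoc', div_le_div_iff₀ (by positivity) (by norm_num)]
    nlinarith
  have hR' : ((ct T (fun D => ¬ NiceG S q Rel L M C₀ θ F D)).card : ℝ) ≤
      B1.card + B2.card + B3.card + B4.card + B5.card := by
    exact_mod_cast (by omega)
  have hεq : 0 < ε * (q : ℝ) ^ m := by positivity
  linarith

end Pool.Agent.H467.PG.Nnc
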