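import Pool.Agent.H467.PG.SpecC

/-!
# Distribution of a Selmer group over all twists: the distribution for a nice divisor

Project PG (helper467), part OMD (helper263).
-/

set_option autoImplicit false
set_option linter.all false

open Finset Filter WithZero
open Pool.Agent.H467.PT
open Pool.Agent.H467.GK
open Pool.Agent.H467.CT (AS Bas IsTau Std Ev LV LF cc)
open scoped Classical

namespace Pool.Agent.H467.PG.Omd

open Pool.Agent.H467.PG

theorem part {α β : Type} (s : Finset α) (f : α → β) (P : α → Prop) (t E : ℝ)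
    (h : ∀ x ∈ s, |((s.filter fun y => f y = f x ∧ P y).card : ℝ) -
      t * ((s.filter fun y => f y = f x).card : ℝ)| ≤ E * ((s.filter fun y => f y = f x).card : ℝ)) :
    |((s.filter P).card : ℝ) - t * (s.card : ℝ)| ≤ E * (s.card : ℝ) := by
  have h1 : s.card = ∑ b ∈ s.image f, (s.filter fun y => f y = b).card :=
    Finset.card_eq_sum_card_image f s
  have h2 : (s.filter P).card = ∑ b ∈ s.image f, (s.filter fun y => f y = b ∧ P y).card := by
    rw [Finset.card_eq_sum_card_fiberwise (f := f) (s := s.filter P) (t := s.image f)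
      (fun x hx => Finset.mem_image_of_mem f (Finset.mem_filter.1 hx).1)]
    refine Finset.sum_congr rfl fun b _ => ?_
    congr 1
    ext y
    simp only [Finset.mem_filter]
    tauto
  rw [h1, h2]
  push_cast
  rw [Finset.mul_sum, ← Finset.sum_sub_distrib, Finset.mul_sum]
  refine (Finset.abs_sum_le_sum_abs _ _).trans (Finset.sum_le_sum fun b hb => ?_)
  obtain ⟨x, hx, rfl⟩ := Finset.mem_image.1 hb
  exact h x hx

section

variable {k K : Type} [Field k] [Finite k] [CharP k 2] [Field K] [CharP K 2] [Algebra k K]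

theorem two (χ : Qc K) : χ + χ = 0 := by
  induction χ using QuotientAddGroup.induction_on with
  | H a =>
    rw [← QuotientAddGroup.mk_add, CharTwo.add_self_eq_zero]
    rfl

theorem spl_zero (j : PV K) : Spl j (0 : Qc K) := ⟨0, rfl, by rw [map_zero]; exact zero_lt_one⟩

theorem fin_res (R : GFR k K) (j : PV K) :
    Finite (IsLocalRing.ResidueField j.1.valuationSubring) := by
  apply Nat.finite_of_card_ne_zero
  rw [R.resc]
  exact pow_ne_zero _ Nat.card_pos.ne'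

/-- the properties of the poles -/
structure PP (K : Type) [Field K] [CharP K 2] (j : PV K) : Prop where
  p3 : ∀ (χ : Qc K) (n : ℕ), Ple j (exp (n : ℤ)) χ ↔ poq j χ ≤ n
  p5 : ∀ χ : Qc K, poq j χ = 0 ↔ Ple j 1 χ
  p6 : ∀ χ χ' : Qc K, Spl j χ → Spl j χ' → Spl j (χ + χ')
  p8 : ∀ χ χ' : Qc K, poq j (χ + χ') ≤ max (poq j χ) (poq j χ')
  p9 : ∀ χ χ' : Qc K, Spl j (χ + χ') → poq j χ = poq j χ'
  p10 : ∀ χ : Qc K, poq j χ ≠ 0 → ∃ m : ℕ, poq j χ = 2 * m + 1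

theorem pp (R : GFR k K) (h : S_POQ) (j : PV K) : PP K j := by
  obtain ⟨-, -, -, a4, a5, a6, -, a8, a9, a10⟩ := h K j
  exact ⟨a4, a5, a6, a8, a9, (a10 (fin_res R j)).1⟩

variable {F : GF k K} {B : Finset (PV K)} {bd : BD F B} {c : PV K → K} {L M C₀ : ℕ} {θ : ℝ}
  {D : Ob B →₀ ℕ}

theorem q1 {χ : Qc K} (hχ : χ ∈ OmD B c D) {j : Ob B} (hj : j ∈ D.support) : poq j.1 χ ≠ 0 := by
  intro h0
  have h1 := hχ.2 j
  rw [h0] at h1
  exact Finsupp.mem_support_iff.1 hj h1.symm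

theorem q2 (P : ∀ j, PP K j) (N : NiceC bd c L M C₀ θ D) {χ : Qc K} (hχ : χ ∈ OmD B c D) {j : Ob B}
    (hj : L < F.R.deg j.1) : poq j.1 χ ≤ 1 := by
  have h1 := hχ.2 j
  have h2 := N.sqf j hj
  rw [← h1] at h2
  by_contra hc
  obtain ⟨m, hm⟩ := (P j.1).p10 χ (by omega)
  omega

theorem q3 {χ : Qc K} (hχ : χ ∈ OmD B c D) {j : Ob B} (hj : j ∉ D.support) : poq j.1 χ = 0 := by
  have h1 := hχ.2 j
  rw [Finsupp.notMem_support_iff.1 hj] at h1
  omega

theorem q4 (N : NiceC bd c L M C₀ θ D) {χ : Qc K} (hχ : χ ∈ OmD B c D) {j : Ob B}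
    (hj : F.R.deg j.1 ≤ L) : poq j.1 χ ≤ 2 * M := by
  by_cases hjU : j ∈ D.support
  · have h1 := hχ.2 j
    have h2 : D j * F.R.deg j.1 ≤ M :=
      (Finset.single_le_sum (f := fun p : Ob B => D p * F.R.deg p.1) (fun _ _ => Nat.zero_le _)
        (Finset.mem_filter.2 ⟨hjU, hj⟩)).trans N.sml
    have h3 : D j ≤ M := (Nat.le_mul_of_pos_right _ (F.R.pos j.1)).trans h2
    rw [← h1] at h3
    omega
  · rw [q3 hχ hjU]
    exact Nat.zero_le _

theorem phi1 (P : ∀ j, PP K j) (N : NiceC bd c L M C₀ θ D) {χ₁ : Qc K} (h₁ : χ₁ ∈ OmD B c D)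
    {χ : Qc K} (h : χ ∈ Phi F.R B D.support L χ₁) :
    χ ∈ OmD B c D ∧ ∀ j ∈ D.support, F.R.deg j.1 ≤ L → Spl j.1 (χ + χ₁) := by
  have e1 : (χ + χ₁) + χ₁ = χ := by rw [add_assoc, two, add_zero]
  obtain ⟨⟨a1, a2, a3, a4⟩, a5⟩ := h
  refine ⟨⟨fun j hj => ?_, fun j => ?_⟩, a2⟩
  · have h2 := (P j).p6 _ _ (a1 j hj) (h₁.1 j hj)
    rw [← add_assoc, e1] at h2
    exact h2
  · have b3 : poq j.1 χ ≤ max (poq j.1 (χ + χ₁)) (poq j.1 χ₁) := by
      have h3 := (P j.1).p8 (χ + χ₁) χ₁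
      rw [e1] at h3
      exact h3
    by_cases hjU : j ∈ D.support
    · rcases le_or_gt (F.R.deg j.1) L with hj | hj
      · rw [(P j.1).p9 χ χ₁ (a2 j hjU hj)]
        exact h₁.2 j
      · have b1 : poq j.1 (χ + χ₁) ≤ 1 := ((P j.1).p3 _ 1).1 (a3 j hjU hj)
        have b2 := q2 P N h₁ hj
        have b4 := b3.trans (max_le b1 b2)
        have b5 : poq j.1 χ ≠ 0 := a5 j hjU hj
        have b6 : D j ≠ 0 := Finsupp.mem_support_iff.1 hjU
        have b7 := N.sqf j hj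
        have b8 : poq j.1 χ = 1 := by omega
        have b9 : D j = 1 := by omega
        rw [b8, b9]
    · have b1 : poq j.1 (χ + χ₁) = 0 := ((P j.1).p5 _).2 (a4 j hjU)
      rw [b1, q3 h₁ hjU, max_self] at b3
      rw [Nat.le_zero.1 b3, Finsupp.notMem_support_iff.1 hjU]
      rfl

theorem phi2 (P : ∀ j, PP K j) (N : NiceC bd c L M C₀ θ D) {χ₁ : Qc K} (h₁ : χ₁ ∈ OmD B c D)
    {χ : Qc K} (h2 : χ ∈ OmD B c D) (a2 : ∀ j ∈ D.support, F.R.deg j.1 ≤ L → Spl j.1 (χ + χ₁)) :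
    χ ∈ Phi F.R B D.support L χ₁ := by
  refine ⟨⟨fun j hj => ?_, a2, fun j hjU hj => ?_, fun j hjU => ?_⟩, fun j hjU _ => q1 h2 hjU⟩
  · have h3 := (P j).p6 _ _ (h2.1 j hj) (h₁.1 j hj)
    have e2 : χ + mkq (c j) + (χ₁ + mkq (c j)) = χ + χ₁ := by
      have : χ + mkq (c j) + (χ₁ + mkq (c j)) = χ + χ₁ + (mkq (c j) + mkq (c j)) := by abel
      rw [this, two, add_zero]
    rw [e2] at h3
    exact h3
  · exact ((P j.1).p3 _ 1).2 (((P j.1).p8 χ χ₁).trans (max_le (q2 P N h2 hj) (q2 P N h₁ hj)))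
  · refine ((P j.1).p5 _).1 ?_
    have b3 := (P j.1).p8 χ χ₁
    rw [q3 h2 hjU, q3 h₁ hjU, max_self] at b3
    exact Nat.le_zero.1 b3

theorem phi3 (P : ∀ j, PP K j) (N : NiceC bd c L M C₀ θ D) {χ₁ : Qc K} (h₁ : χ₁ ∈ OmD B c D)
    {χ : Qc K} (h2 : χ ∈ OmD B c D) :
    Phi F.R B D.support L χ = Phi F.R B D.support L χ₁ ↔ χ ∈ Phi F.R B D.support L χ₁ := by
  constructor
  · intro he
    rw [← he]
    exact phi2 P N h2 h2 fun j _ _ => by rw [two]; exact spl_zero _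
  · intro h3
    have h4 := (phi1 P N h₁ h3).2
    apply Set.Subset.antisymm
    · intro χ' h5
      obtain ⟨h6, h7⟩ := phi1 P N h2 h5
      refine phi2 P N h₁ h6 fun j hj hj' => ?_
      have h8 := (P j.1).p6 _ _ (h7 j hj hj') (h4 j hj hj')
      have e : χ' + χ + (χ + χ₁) = χ' + χ₁ := by
        have : χ' + χ + (χ + χ₁) = χ' + χ₁ + (χ + χ) := by abel
        rw [this, two, add_zero]
      rw [e] at h8
      exact h8
    · intro χ' h5
      obtain ⟨h6, h7⟩ := phi1 P N h₁ h5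
      refine phi2 P N h2 h6 fun j hj hj' => ?_
      have h8 := (P j.1).p6 _ _ (h7 j hj hj') (h4 j hj hj')
      have e : χ' + χ₁ + (χ + χ₁) = χ' + χ := by
        have : χ' + χ₁ + (χ + χ₁) = χ' + χ + (χ₁ + χ₁) := by abel
        rw [this, two, add_zero]
      rw [e] at h8
      exact h8

theorem hyp (P : ∀ j, PP K j) (N : NiceC bd c L M C₀ θ D) {χ₁ : Qc K} (h₁ : χ₁ ∈ OmD B c D)
    (α : Qc K) (hα : α ≠ 0) (a1 : ∀ j ∈ B, poq j α ≤ poq j χ₁)
    (a2 : ∀ j ∈ D.support, F.R.deg j.1 ≤ L → poq j.1 α ≤ poq j.1 χ₁)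
    (a3 : ∀ j : Ob B, ¬ (j ∈ D.support ∧ F.R.deg j.1 ≤ L) → poq j.1 α = 0) :
    ∃ p ∈ D.support, L < F.R.deg p.1 ∧ ¬ Spl p.1 α := by
  refine N.hit α hα (fun j hj => ?_) (fun j hj => ?_) (fun j hj => ?_)
  · rw [← (P j).p9 χ₁ _ (h₁.1 j hj)]
    exact a1 j hj
  · exact a3 j fun h => absurd h.2 (not_le.2 hj)
  · by_cases hjU : j ∈ D.support
    · exact (a2 j hjU hj).trans (q4 N h₁ hj)
    · rw [a3 j fun h => hjU h.1]
      exact Nat.zero_le _

end

theorem ncd {α : Type} (T : Set α) (s : Finset α) (h : ∀ x, x ∈ s ↔ x ∈ T) :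
    (T.ncard : ℝ) = (s.card : ℝ) := by
  have : T = (s : Set α) := by
    ext x
    exact (h x).symm
  rw [this, Set.ncard_coe_finset]

theorem partS {α β : Type} (T : Set α) (hT : T.Finite) (f : α → β) (P : α → Prop) (t E : ℝ)
    (h : ∀ x ∈ T, |({y ∈ T | f y = f x ∧ P y}.ncard : ℝ) - t * ({y ∈ T | f y = f x}.ncard : ℝ)| ≤
      E * ({y ∈ T | f y = f x}.ncard : ℝ)) :
    |({y ∈ T | P y}.ncard : ℝ) - t * (T.ncard : ℝ)| ≤ E * (T.ncard : ℝ) := by
  have hsm : ∀ χ, χ ∈ hT.toFinset ↔ χ ∈ T := fun χ => Set.Finite.mem_toFinset hT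
  rw [ncd T hT.toFinset hsm, ncd {y ∈ T | P y} (hT.toFinset.filter P) (fun χ => by
      rw [Finset.mem_filter, hsm]; exact Iff.rfl)]
  refine part _ f P t E fun x hx => ?_
  rw [← ncd {y ∈ T | f y = f x ∧ P y} (hT.toFinset.filter fun y => f y = f x ∧ P y) (fun χ => by
      rw [Finset.mem_filter, hsm]; exact Iff.rfl),
    ← ncd {y ∈ T | f y = f x} (hT.toFinset.filter fun y => f y = f x) (fun χ => by
      rw [Finset.mem_filter, hsm]; exact Iff.rfl)]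
  exact h x ((hsm x).1 hx)

theorem omd : S_FIB → S_OMU → S_POQ → S_OMD := by
  intro hFIB hOMU hPOQ k K _ _ _ _ _ _ F B bd c L M C₀ θ D hL hC hθ hθ' N r
  obtain ⟨Cu, -, hCu⟩ := hOMU k K F.R B c
  have P : ∀ j, PP K j := pp F.R hPOQ
  refine partS (OmD B c D) (hCu D).1 (fun χ => Phi F.R B D.support L χ)
    (fun χ => (SV χ).ncard = 2 ^ (r + 1)) _ _ fun χ₁ h₁ => ?_
  have fib := (hFIB k K F B bd D.support L C₀ θ χ₁ hL hC hθ.le hθ' N.good N.many
      (fun j hj _ => q1 h₁ hj) (fun j _ hj => q2 P N h₁ hj) (fun j hj => q3 h₁ hj)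
      (hyp P N h₁)).2.2 r
  have n3 : {χ ∈ OmD B c D | Phi F.R B D.support L χ = Phi F.R B D.support L χ₁} =
      Phi F.R B D.support L χ₁ := by
    ext χ
    constructor
    · rintro ⟨h2, h3⟩
      exact (phi3 P N h₁ h2).1 h3
    · intro h3
      have h2 := (phi1 P N h₁ h3).1
      exact ⟨h2, (phi3 P N h₁ h2).2 h3⟩
  have n4 : {χ ∈ OmD B c D | Phi F.R B D.support L χ = Phi F.R B D.support L χ₁ ∧
      (SV χ).ncard = 2 ^ (r + 1)} =
      {χ ∈ Phi F.R B D.support L χ₁ | (SV χ).ncard = 2 ^ (r + 1)} := by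
    ext χ
    constructor
    · rintro ⟨h2, h3, h4⟩
      exact ⟨(phi3 P N h₁ h2).1 h3, h4⟩
    · rintro ⟨h3, h4⟩
      have h2 := (phi1 P N h₁ h3).1
      exact ⟨h2, (phi3 P N h₁ h2).2 h3, h4⟩
  beta_reduce
  rw [n3, n4]
  exact fib

end Pool.Agent.H467.PG.Omd
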