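import Pool.Agent.H467.PG.SpecC

/-!
# Lower bound for the number of classes
-/

set_option autoImplicit false
set_option linter.all false

open Finset Filter WithZero
open Pool.Agent.H467.PT
open Pool.Agent.H467.GK
open Pool.Agent.H467.CT (AS Bas IsTau Std Ev LV LF cc)
open scoped Classical

namespace Pool.Agent.H467.PG.Oml

/-- the divisor of a finite set of primes -/
noncomputable def DU {ι : Type} (U : Finset ι) : ι →₀ ℕ :=
  Finsupp.onFinset U (fun p => if p ∈ U then 1 else 0) fun p hp => by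
    by_contra h
    exact hp (if_neg h)

lemma DU_apply {ι : Type} (U : Finset ι) (p : ι) : DU U p = if p ∈ U then 1 else 0 := rfl

lemma DU_le {ι : Type} (U : Finset ι) (p : ι) : DU U p ≤ 1 := by
  rw [DU_apply]
  split_ifs <;> omega

lemma DU_support {ι : Type} (U : Finset ι) : (DU U).support = U := by
  ext p
  rw [Finsupp.mem_support_iff, DU_apply]
  constructor
  · intro h
    by_contra h2
    exact h (if_neg h2)
  · intro h
    rw [if_pos h]
    exact one_ne_zero

lemma DU_inj {ι : Type} : Function.Injective (DU : Finset ι → ι →₀ ℕ) := by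
  intro U V h
  rw [← DU_support U, h, DU_support]

lemma dgf_DU {ι : Type} (S : PSys ι) (U : Finset ι) : dgf S (DU U) = S.dg U := by
  unfold dgf PSys.dg
  rw [Finsupp.sum, DU_support]
  refine Finset.sum_congr rfl fun p hp => ?_
  rw [DU_apply, if_pos hp, one_mul]

lemma hasD_uniq {K : Type} [Field K] [CharP K 2] {B : Finset (PV K)} {χ : Qc K}
    {D D' : Ob B →₀ ℕ} (h : HasD χ D) (h' : HasD χ D') : D = D' := by
  ext j
  rw [← h j, ← h' j]

theorem oml : S_NIC → S_OMN → S_OMU → S_PKG → S_BDE → S_DIV → S_OML := by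
  intro hNIC hOMN hOMU hPKG hBDE hDIV k K _ _ _ _ _ _ hFF F B hB c
  obtain ⟨bd⟩ := hBDE k K F B hB
  obtain ⟨C, c0, W, n₀, hP⟩ := hPKG k K hFF F.R B
  obtain ⟨L, hL, M, m₀, hnice⟩ := hNIC k K hFF F B bd c 1 (1 / 16) (c0 / 2) (by norm_num)
    (half_pos hP.c0)
  obtain ⟨C', hC', hom⟩ := hOMU k K F.R B c
  have hfinD := (hDIV (Ob B) (sysB F.R B) (Nat.card k) C c0 W n₀ hP).1
  have hq : (2 : ℝ) ≤ (Nat.card k : ℝ) := by exact_mod_cast hP.q2
  have hq0 : (0 : ℝ) < (Nat.card k : ℝ) := by linarith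
  set q : ℝ := (Nat.card k : ℝ) with hqdef
  set A : ℝ := q ^ M * 2 ^ (B.card + M + 1) with hA
  have hA0 : 0 < A := by positivity
  refine ⟨c0 / 2 / (A * q ^ (2 * W)), by have := hP.c0; positivity, max n₀ (m₀ + W), ?_⟩
  intro m hm
  obtain ⟨n', hn1, hn2, hn3⟩ := hP.many m ((le_max_left _ _).trans hm)
  have hn4 : m₀ ≤ n' := by
    have := (le_max_right n₀ (m₀ + W)).trans hm
    omega
  -- finiteness
  have hfinOm : (Om F.R B c m).Finite := by
    have h1 : (⋃ i ∈ Finset.range (m + 1), {D : Ob B →₀ ℕ | dgf (sysB F.R B) D = i}).Finite :=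
      Set.Finite.biUnion (Finset.range (m + 1)).finite_toSet fun i _ => hfinD i
    refine (h1.biUnion fun D _ => (hom D).1).subset ?_
    rintro χ ⟨h2, D, h3, h4⟩
    refine Set.mem_biUnion (x := D) ?_ ⟨h2, h3⟩
    simp only [Set.mem_iUnion, Set.mem_ofPred_eq]
    exact ⟨_, Finset.mem_range.2 (Nat.lt_succ_of_le h4), rfl⟩
  -- the nice sets
  set G : Finset (Finset (Ob B)) := ((sysB F.R B).UU n').filter
    (fun U => NiceC bd c L M 1 (1 / 16) (DU U)) with hG
  have hUU : ∀ U ∈ (sysB F.R B).UU n', (sysB F.R B).dg U = n' := by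
    intro U hU
    exact (Finset.mem_filter.1 hU).2
  have hbad : ((((sysB F.R B).UU n').filter
      (fun U => ¬ NiceC bd c L M 1 (1 / 16) (DU U))).card : ℝ) ≤ c0 / 2 * q ^ n' := by
    refine le_trans ?_ (hnice n' hn4)
    have h1 : ((((sysB F.R B).UU n').filter
        (fun U => ¬ NiceC bd c L M 1 (1 / 16) (DU U))).image DU).card =
        (((sysB F.R B).UU n').filter (fun U => ¬ NiceC bd c L M 1 (1 / 16) (DU U))).card :=
      Finset.card_image_of_injective _ DU_inj
    rw [← h1]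
    have h2 : {D : Ob B →₀ ℕ | dgf (sysB F.R B) D = n' ∧
        ¬ NiceC bd c L M 1 (1 / 16) D}.Finite := (hfinD n').subset fun D hD => hD.1
    have h3 : ((((((sysB F.R B).UU n').filter
        (fun U => ¬ NiceC bd c L M 1 (1 / 16) (DU U))).image DU :
          Finset (Ob B →₀ ℕ)) : Set (Ob B →₀ ℕ))) ⊆ {D : Ob B →₀ ℕ | dgf (sysB F.R B) D = n' ∧
        ¬ NiceC bd c L M 1 (1 / 16) D} := by
      intro D hD
      rw [Finset.mem_coe, Finset.mem_image] at hD
      obtain ⟨U, hU, rfl⟩ := hD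
      have hU' := Finset.mem_filter.1 hU
      exact ⟨by rw [dgf_DU]; exact hUU U hU'.1, hU'.2⟩
    have h4 := Set.ncard_le_ncard h3 h2
    rw [Set.ncard_coe_finset] at h4
    exact_mod_cast h4
  have hGc : c0 / 2 * q ^ n' ≤ (G.card : ℝ) := by
    have h1 := Finset.card_filter_add_card_filter_not (s := (sysB F.R B).UU n')
      (fun U => NiceC bd c L M 1 (1 / 16) (DU U))
    have h2 : ((G.card : ℕ) : ℝ) + ((((sysB F.R B).UU n').filter
      (fun U => ¬ NiceC bd c L M 1 (1 / 16) (DU U))).card : ℝ) =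
      (((sysB F.R B).UU n').card : ℝ) := by exact_mod_cast h1
    linarith
  -- each nice set gives many classes
  have heach : ∀ U ∈ G, q ^ n' / A ≤ ((OmD B c (DU U)).ncard : ℝ) := by
    intro U hU
    rw [hG, Finset.mem_filter] at hU
    have h1 := hOMN k K F B bd c L M 1 (1 / 16) (DU U) hL le_rfl (by norm_num) (by norm_num)
      hU.2 (DU_le U)
    rw [dgf_DU, hUU U hU.1] at h1
    rw [div_le_iff₀ hA0]
    exact h1
  -- the union
  have hunion : (∑ U ∈ G, (OmD B c (DU U)).ncard) ≤ (Om F.R B c m).ncard := by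
    have h1 : ∀ U, (OmD B c (DU U)).ncard = ((hom (DU U)).1.toFinset).card := fun U =>
      Set.ncard_eq_toFinset_card _ _
    rw [Finset.sum_congr rfl fun U _ => h1 U, ← Finset.card_biUnion, Set.ncard_eq_toFinset_card _
      hfinOm]
    · apply Finset.card_le_card
      intro χ hχ
      rw [Finset.mem_biUnion] at hχ
      obtain ⟨U, hU, hχ⟩ := hχ
      rw [Set.Finite.mem_toFinset] at hχ ⊢
      rw [hG, Finset.mem_filter] at hU
      exact ⟨hχ.1, DU U, hχ.2, by rw [dgf_DU, hUU U hU.1]; exact hn1⟩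
    · intro U _ V _ hne
      rw [Function.onFun, Finset.disjoint_left]
      intro χ h2 h3
      rw [Set.Finite.mem_toFinset] at h2 h3
      exact hne (DU_inj (hasD_uniq h2.2 h3.2))
  have hfinal : (G.card : ℝ) * (q ^ n' / A) ≤ ((Om F.R B c m).ncard : ℝ) := by
    have h1 : (G.card : ℝ) * (q ^ n' / A) ≤ ∑ U ∈ G, ((OmD B c (DU U)).ncard : ℝ) := by
      rw [← nsmul_eq_mul, ← Finset.sum_const]
      exact Finset.sum_le_sum heach
    refine h1.trans ?_
    exact_mod_cast hunion
  refine le_trans ?_ hfinal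
  have h5 : q ^ (2 * m) ≤ q ^ (2 * W) * q ^ (2 * n') := by
    rw [← pow_add]
    exact pow_le_pow_right₀ (by linarith) (by omega)
  calc c0 / 2 / (A * q ^ (2 * W)) * q ^ (2 * m)
      ≤ c0 / 2 / (A * q ^ (2 * W)) * (q ^ (2 * W) * q ^ (2 * n')) := by
        apply mul_le_mul_of_nonneg_left h5
        have := hP.c0
        positivity
    _ = (c0 / 2 * q ^ n') * (q ^ n' / A) := by
        field_simp
        ring
    _ ≤ (G.card : ℝ) * (q ^ n' / A) := by
        apply mul_le_mul_of_nonneg_right hGc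
        positivity

end Pool.Agent.H467.PG.Oml
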