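import Pool.Agent.H467.PG.SpecC

/-!
# Many classes with a given nice squarefree divisor
-/

set_option autoImplicit false
set_option linter.all false

open Finset Filter WithZero
open Pool.Agent.H467.PT
open Pool.Agent.H467.GK
open Pool.Agent.H467.CT (AS Bas IsTau Std Ev LV LF cc)
open scoped Classical

namespace Pool.Agent.H467.PG.Omn

theorem qc_self {K : Type} [Field K] [CharP K 2] (χ : Qc K) : χ + χ = 0 := by
  obtain ⟨a, rfl⟩ := QuotientAddGroup.mk_surjective χ
  rw [← QuotientAddGroup.mk_add, CharTwo.add_self_eq_zero]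
  rfl

theorem qc_cancel {K : Type} [Field K] [CharP K 2] (χ χ₁ η : Qc K) :
    (χ + χ₁) + (χ₁ + η) = χ + η := by
  have h : (χ + χ₁) + (χ₁ + η) = χ + η + (χ₁ + χ₁) := by abel
  rw [h, qc_self, add_zero]

theorem qc_cancel' {K : Type} [Field K] [CharP K 2] (χ χ₁ : Qc K) :
    (χ + χ₁) + χ₁ = χ := by
  rw [add_assoc, qc_self, add_zero]

/-- a simple pole cannot be removed -/
theorem not_Un {K : Type} [Field K] [CharP K 2] (j : PV K) (f : K)
    (hf : j.1 f = exp (1 : ℤ)) : ¬ Un j.1 f := by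
  rintro ⟨z, hz⟩
  have h1 : (1 : WithZero (Multiplicative ℤ)) < exp (1 : ℤ) := by
    rw [← exp_zero]
    exact exp_lt_exp.2 (by norm_num)
  by_cases hz1 : j.1 z ≤ 1
  · have h2 : j.1 (z ^ 2) ≤ 1 := by
      rw [map_pow]
      exact pow_le_one₀ (zero_le' ) hz1
    have h3 : f = (f + z ^ 2 + z) + (z ^ 2 + z) := by
      have h4 : (z ^ 2 + z) + (z ^ 2 + z) = 0 := CharTwo.add_self_eq_zero _
      have h5 : (f + z ^ 2 + z) + (z ^ 2 + z) = f + ((z ^ 2 + z) + (z ^ 2 + z)) := by ring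
      rw [h5, h4, add_zero]
    have h4 : j.1 f ≤ 1 := by
      rw [h3]
      exact j.1.map_add_le hz (j.1.map_add_le h2 hz1)
    rw [hf] at h4
    exact absurd h4 (not_le.2 h1)
  · push Not at hz1
    have hz0 : j.1 z ≠ 0 := fun h => by
      rw [h] at hz1
      exact absurd hz1 (not_lt.2 zero_le')
    obtain ⟨m, hm⟩ : ∃ m : ℤ, j.1 z = exp m := ⟨log (j.1 z), (exp_log hz0).symm⟩
    have hm1 : 1 ≤ m := by
      rw [hm, ← exp_zero, exp_lt_exp] at hz1
      omega
    have h2 : j.1 (z ^ 2) = exp (2 * m) := by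
      rw [map_pow, hm, ← exp_nsmul]
      norm_num
    have h3 : j.1 (z ^ 2 + z) = exp (2 * m) := by
      rw [Valuation.map_add_eq_of_lt_left, h2]
      rw [h2, hm, exp_lt_exp]
      omega
    have h4 : j.1 (f + (z ^ 2 + z)) = exp (2 * m) := by
      rw [Valuation.map_add_eq_of_lt_right, h3]
      rw [h3, hf, exp_lt_exp]
      omega
    rw [← add_assoc] at h4
    rw [h4, ← exp_zero, exp_le_exp] at hz
    omega

theorem omn : S_FIB → S_ORDG → S_DIR → S_OMU → S_POQ → S_OMN := by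
  intro hFIB hORD hDIR hOMU hPOQ k K _ _ _ _ _ _ F B bd c L M C₀ θ D hL hC₀ hθ hθ2 hN hD1
  classical
  have hU1 : ∀ p ∈ D.support, D p = 1 := by
    intro p hp
    have h1 := hD1 p
    have h2 := Finsupp.mem_support_iff.1 hp
    omega
  obtain ⟨v₀, Z, rk, hv0, hv1, -, -, -, hv2, -⟩ := hORD (Ob B) (sysB F.R B) (Nat.card k)
    (Fin bd.n → ZMod 2) (Rl bd) L C₀ θ D.support hL hC₀ hθ.le hθ2 hN.good hN.many
  have hdegle : ∀ p ∈ D.support, (sysB F.R B).deg p ≤ (sysB F.R B).dg D.support := by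
    intro p hp
    exact Finset.single_le_sum (f := fun p => (sysB F.R B).deg p) (fun _ _ => Nat.zero_le _) hp
  have hex : ∀ j : PV K, ∃ f : K, j.1 f = exp (1 : ℤ) := fun j => j.2 _
  choose f hf using hex
  obtain ⟨χ₁, hx1, hx2, hx3, hx4⟩ := hDIR k K F B bd D.support v₀ hv0 (by
    intro V hV hvV e he
    exact hN.good.g1 v₀ hv0 hv1 V hV hvV (fun p hp => (hdegle p (hV hp)).trans hv2) e he)
    (fun j => if j ∈ B then c j else f j)
  have hx1' : ∀ j ∈ B, Spl j (χ₁ + mkq (c j)) := by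
    intro j hj
    have h1 := hx1 j hj
    rw [if_pos hj] at h1
    exact h1
  have hx2' : ∀ j ∈ D.support, j ≠ v₀ → Spl j.1 (χ₁ + mkq (f j.1)) := by
    intro j hj hjv
    have h1 := hx2 j hj hjv
    rw [if_neg j.2] at h1
    exact h1
  have hq1 : ∀ j : PV K, poq j (mkq (f j)) = 1 := by
    intro j
    obtain ⟨p1, p2, p3, p4, p5, p6, p7, p8, p9, -⟩ := hPOQ K j
    have h1 : poq j (mkq (f j)) ≤ 1 := by
      rw [← p4]
      exact ⟨f j, rfl, (hf j).le⟩
    have h2 : poq j (mkq (f j)) ≠ 0 := by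
      intro h0
      rw [p5, ← p1] at h0
      exact not_Un j (f j) (hf j) h0
    omega
  have hr1 : ∀ j ∈ D.support, j ≠ v₀ → poq j.1 χ₁ = 1 := by
    intro j hj hjv
    obtain ⟨p1, p2, p3, p4, p5, p6, p7, p8, p9, -⟩ := hPOQ K j.1
    rw [p9 _ _ (hx2' j hj hjv), hq1]
  have hr2 : ∀ j ∈ D.support, poq j.1 χ₁ ≤ 1 := by
    intro j hj
    by_cases hjv : j = v₀
    · obtain ⟨p1, p2, p3, p4, p5, p6, p7, p8, p9, -⟩ := hPOQ K j.1
      rw [← p4, hjv]
      exact hx3
    · exact (hr1 j hj hjv).le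
  have hr3 : ∀ j : Ob B, j ∉ D.support → poq j.1 χ₁ = 0 := by
    intro j hj
    obtain ⟨p1, p2, p3, p4, p5, p6, p7, p8, p9, -⟩ := hPOQ K j.1
    rw [p5]
    exact hx4 j hj
  have hsv : ∀ j ∈ D.support, F.R.deg j.1 ≤ L → poq j.1 χ₁ = 1 := by
    intro j hj hjL
    apply hr1 j hj
    rintro rfl
    exact absurd hjL (not_le.2 hv1)
  have hM : ∀ j ∈ D.support, F.R.deg j.1 ≤ L → 1 ≤ M := by
    intro j hj hjL
    have h1 : D j * F.R.deg j.1 ≤ ∑ p ∈ D.support.filter (fun p => F.R.deg p.1 ≤ L),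
        D p * F.R.deg p.1 :=
      Finset.single_le_sum (f := fun p : Ob B => D p * F.R.deg p.1) (fun _ _ => Nat.zero_le _)
        (Finset.mem_filter.2 ⟨hj, hjL⟩)
    have h2 := hN.sml
    rw [hU1 j hj, one_mul] at h1
    have h3 := F.R.pos j.1
    omega
  obtain ⟨hP1, hP2, -⟩ := hFIB k K F B bd D.support L C₀ θ χ₁ hL hC₀ hθ.le hθ2 hN.good hN.many
    (fun j hj hjL => by rw [hsv j hj hjL]; exact one_ne_zero)
    (fun j hj _ => hr2 j hj) hr3 (by
      intro α hα h1 h2 h3
      refine hN.hit α hα ?_ ?_ ?_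
      · intro j hj
        obtain ⟨p1, p2, p3, p4, p5, p6, p7, p8, p9, -⟩ := hPOQ K j
        rw [← p9 _ _ (hx1' j hj)]
        exact h1 j hj
      · intro j hj
        exact h3 j fun h => absurd h.2 (not_le.2 hj)
      · intro j hj
        by_cases hjU : j ∈ D.support
        · have h4 := h2 j hjU hj
          rw [hsv j hjU hj] at h4
          have h5 := hM j hjU hj
          omega
        · rw [h3 j fun h => hjU h.1]
          exact Nat.zero_le _)
  have hsub : Phi F.R B D.support L χ₁ ⊆ OmD B c D := by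
    rintro χ ⟨⟨ha1, ha2, ha3, ha4⟩, hb⟩
    refine ⟨fun j hj => ?_, fun j => ?_⟩
    · obtain ⟨p1, p2, p3, p4, p5, p6, p7, p8, p9, -⟩ := hPOQ K j
      have h1 := p6 _ _ (ha1 j hj) (hx1' j hj)
      rw [qc_cancel] at h1
      exact h1
    · obtain ⟨p1, p2, p3, p4, p5, p6, p7, p8, p9, -⟩ := hPOQ K j.1
      have h8 := p8 (χ + χ₁) χ₁
      rw [qc_cancel'] at h8
      by_cases hjU : j ∈ D.support
      · rw [hU1 j hjU]
        by_cases hjL : F.R.deg j.1 ≤ L
        · rw [p9 _ _ (ha2 j hjU hjL), hsv j hjU hjL]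
        · push Not at hjL
          have h1 : poq j.1 (χ + χ₁) ≤ 1 := by
            rw [← p4]
            exact ha3 j hjU hjL
          have h2 : poq j.1 χ ≤ 1 := h8.trans (max_le h1 (hr2 j hjU))
          have h3 := hb j hjU hjL
          have h4 : poq j.1 χ = 1 := by omega
          rw [h4]
      · have h1 : poq j.1 (χ + χ₁) = 0 := by
          rw [p5]
          exact ha4 j hjU
        rw [h1, hr3 j hjU, max_self] at h8
        rw [Finsupp.notMem_support_iff.1 hjU]
        omega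
  obtain ⟨C, -, hO⟩ := hOMU k K F.R B c
  have hcard : (Phi F.R B D.support L χ₁).ncard ≤ (OmD B c D).ncard :=
    Set.ncard_le_ncard hsub (hO D).1
  have hdgf : dgf (sysB F.R B) D = (sysB F.R B).dg D.support := by
    unfold dgf PSys.dg Finsupp.sum
    refine Finset.sum_congr rfl fun p hp => ?_
    change D p * (sysB F.R B).deg p = (sysB F.R B).deg p
    rw [hU1 p hp, one_mul]
  have hsplit : (sysB F.R B).dg D.support =
      (sysB F.R B).dg (D.support.filter (fun p => L < F.R.deg p.1)) +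
      (sysB F.R B).dg (D.support.filter (fun p => F.R.deg p.1 ≤ L)) := by
    unfold PSys.dg
    rw [← Finset.sum_filter_add_sum_filter_not D.support (fun p => L < F.R.deg p.1)]
    congr 1
    refine Finset.sum_congr ?_ fun _ _ => rfl
    apply Finset.filter_congr
    intro p _
    exact not_lt
  have hs1 : (sysB F.R B).dg (D.support.filter (fun p => F.R.deg p.1 ≤ L)) ≤ M := by
    refine le_trans ?_ hN.sml
    unfold PSys.dg
    refine Finset.sum_le_sum fun p hp => ?_
    rw [hU1 p (Finset.mem_filter.1 hp).1, one_mul]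
    exact le_rfl
  have hs2 : (D.support.filter (fun p => F.R.deg p.1 ≤ L)).card ≤ M := by
    refine le_trans ?_ hs1
    unfold PSys.dg
    rw [Finset.card_eq_sum_ones]
    exact Finset.sum_le_sum fun p _ => F.R.pos p.1
  have hq : (1 : ℝ) ≤ (Nat.card k : ℝ) := by
    have : 0 < Nat.card k := Nat.card_pos
    exact_mod_cast this
  rw [hdgf, hsplit, pow_add]
  have e1 : (Nat.card k : ℝ) ^ ((sysB F.R B).dg (D.support.filter (fun p => F.R.deg p.1 ≤ L))) ≤
      (Nat.card k : ℝ) ^ M := pow_le_pow_right₀ hq hs1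
  have e2 : (2 : ℝ) ^ (B.card + (D.support.filter (fun p => F.R.deg p.1 ≤ L)).card + 1) ≤
      2 ^ (B.card + M + 1) := pow_le_pow_right₀ (by norm_num) (by omega)
  have e3 : ((Phi F.R B D.support L χ₁).ncard : ℝ) ≤ ((OmD B c D).ncard : ℝ) := by
    exact_mod_cast hcard
  calc (Nat.card k : ℝ) ^ ((sysB F.R B).dg (D.support.filter (fun p => L < F.R.deg p.1))) *
      (Nat.card k : ℝ) ^ ((sysB F.R B).dg (D.support.filter (fun p => F.R.deg p.1 ≤ L)))
      ≤ (((Phi F.R B D.support L χ₁).ncard : ℝ) *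
        2 ^ (B.card + (D.support.filter (fun p => F.R.deg p.1 ≤ L)).card + 1)) *
        (Nat.card k : ℝ) ^ M := mul_le_mul hP2 e1 (by positivity) (by positivity)
    _ ≤ (((OmD B c D).ncard : ℝ) * 2 ^ (B.card + M + 1)) * (Nat.card k : ℝ) ^ M := by
        gcongr
    _ = _ := by ring

end Pool.Agent.H467.PG.Omn
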