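import Pool.Agent.H467.PG.SpecC

/-!
# The number of the classes with given divisor (task OMU, helper297)
-/

set_option autoImplicit false

open Finset Filter WithZero
open Pool.Agent.H467.PT
open Pool.Agent.H467.GK
open Pool.Agent.H467.PG
open scoped Classical

namespace Pool.Agent.H467.PG.Omu

/-- a divisor on all places -/
noncomputable def ext {K : Type} [Field K] {B : Finset (PV K)} (D : Ob B →₀ ℕ) (p : PV K → ℕ) :
    PV K →₀ ℕ :=
  D.mapDomain (fun j : Ob B => (j.1 : PV K)) + ∑ j ∈ B, Finsupp.single j (p j)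

theorem ext_out {K : Type} [Field K] {B : Finset (PV K)} (D : Ob B →₀ ℕ) (p : PV K → ℕ)
    (j : Ob B) : D j ≤ ext D p j.1 := by
  unfold ext
  rw [Finsupp.add_apply]
  have h := Finsupp.mapDomain_apply (f := fun j : Ob B => (j.1 : PV K)) Subtype.val_injective D j
  have h' : (D.mapDomain (fun j : Ob B => (j.1 : PV K))) j.1 = D j := h
  rw [h']
  exact Nat.le_add_right _ _

theorem ext_in {K : Type} [Field K] {B : Finset (PV K)} (D : Ob B →₀ ℕ) (p : PV K → ℕ)
    (j : PV K) (hj : j ∈ B) : p j ≤ ext D p j := by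
  unfold ext
  rw [Finsupp.add_apply, Finsupp.finsetSum_apply]
  refine le_trans ?_ (Nat.le_add_left _ _)
  have h := Finset.single_le_sum (f := fun i => (Finsupp.single i (p i) : PV K →₀ ℕ) j) (s := B)
    (fun i _ => Nat.zero_le _) hj
  simpa using h

theorem ext_deg {k K : Type} [Field k] [Field K] [Algebra k K] (R : GFR k K)
    {B : Finset (PV K)} (D : Ob B →₀ ℕ) (p : PV K → ℕ) :
    (ext D p).sum (fun j n => n * R.deg j) = dgf (sysB R B) D + ∑ j ∈ B, p j * R.deg j := by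
  unfold ext
  rw [Finsupp.sum_add_index' (fun _ => zero_mul _) (fun _ _ _ => add_mul _ _ _)]
  congr 1
  · rw [Finsupp.sum_mapDomain_index (fun _ => zero_mul _) (fun _ _ _ => add_mul _ _ _)]
    rfl
  · rw [← Finsupp.sum_finsetSum_index (fun _ => zero_mul _) (fun _ _ _ => add_mul _ _ _)]
    refine Finset.sum_congr rfl fun j _ => ?_
    rw [Finsupp.sum_single_index (zero_mul _)]

theorem omu : S_UBG → S_POQ → S_OMU := by
  intro hU hP k K _ _ _ _ _ _ R B c
  obtain ⟨C₀, hC₀, h⟩ := hU k K R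
  have hq : (0 : ℝ) < (Nat.card k : ℝ) := by exact_mod_cast Nat.card_pos
  set p : PV K → ℕ := fun j => poq j (mkq (c j)) with hp
  refine ⟨C₀ * (Nat.card k : ℝ) ^ (∑ j ∈ B, p j * R.deg j), by positivity, fun D => ?_⟩
  obtain ⟨h1, h2⟩ := h (ext D p)
  have hsub : OmD B c D ⊆ {χ : Qc K | ∀ j, Ple j (exp (2 * (ext D p j : ℤ))) χ} := by
    rintro χ ⟨hχ1, hχ2⟩ j
    obtain ⟨_, _, _, hple, _, _, _, _, hspl, _⟩ := hP K j
    have e : exp (2 * (ext D p j : ℤ)) = exp (((2 * ext D p j : ℕ) : ℤ)) := by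
      push_cast
      rfl
    rw [e, hple]
    by_cases hj : j ∈ B
    · have h3 : poq j χ = p j := hspl χ (mkq (c j)) (hχ1 j hj)
      have h4 := ext_in D p j hj
      omega
    · have h3 : (poq j χ + 1) / 2 = D ⟨j, hj⟩ := hχ2 ⟨j, hj⟩
      have h4 : D ⟨j, hj⟩ ≤ ext D p j := ext_out D p ⟨j, hj⟩
      omega
  refine ⟨h1.subset hsub, ?_⟩
  have h3 : ((OmD B c D).ncard : ℝ) ≤
      ({χ : Qc K | ∀ j, Ple j (exp (2 * (ext D p j : ℤ))) χ}.ncard : ℝ) := by
    exact_mod_cast Set.ncard_le_ncard hsub h1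
  refine (h3.trans h2).trans (le_of_eq ?_)
  rw [ext_deg, pow_add]
  ring

end Pool.Agent.H467.PG.Omu
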