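import Pool.Agent.H467.PG.SpecB

/-!
# Distribution of a Selmer group over all twists: the conclusion for one twist

Project PG (helper467), part ONE (helper894).
-/

set_option autoImplicit false
set_option linter.all false

open Finset Filter WithZero WeierstrassCurve WeierstrassCurve.Affine
open Pool.Agent.TH115.GD
open Pool.Agent.H467.PT
open Pool.Agent.H467.GK
open Pool.Agent.H467.CT (AS Bas IsTau Std Ev LV LF cc)
open scoped Classical

namespace Pool.Agent.H467.PG.One

theorem mkq_add {K : Type} [Field K] [CharP K 2] (x y : K) : mkq (x + y) = mkq x + mkq y := rfl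

theorem mkq_zero {K : Type} [Field K] [CharP K 2] : mkq (0 : K) = 0 := rfl

theorem mkq_eq_zero {K : Type} [Field K] [CharP K 2] {x : K} : mkq x = 0 ↔ AS x :=
  QuotientAddGroup.eq_zero_iff x

theorem mkq_self {K : Type} [Field K] [CharP K 2] (x : K) : mkq x + mkq x = 0 := by
  rw [← mkq_add, CharTwo.add_self_eq_zero, mkq_zero]

theorem spl_zero {K : Type} [Field K] [CharP K 2] (j : PV K) : Spl j (0 : Qc K) :=
  ⟨0, mkq_zero, by rw [map_zero]; exact zero_lt_one⟩

theorem one : S_LOCV → S_LOCF → S_FUL → S_FFI → S_SQMA → S_DWNA → S_POQ → S_SYM → S_ONE := by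
  intro hLOCV hLOCF hFUL hFFI hSQMA hDWNA hPOQ hSYM k K _ _ _ _ _ _ hff F a b hb hbal
  have hres : ∀ j : PV K, Finite (IsLocalRing.ResidueField j.1.valuationSubring) := by
    intro j
    apply Nat.finite_of_card_ne_zero
    rw [F.R.resc j]
    exact pow_ne_zero _ (Nat.card_ne_zero.2 ⟨⟨0⟩, inferInstance⟩)
  have hV : ∀ α : K, AllVA (a ^ 2) (b ^ 2) α ↔ mkq α ∈ SV (mkq a) := by
    intro α
    have key : ∀ j : PV K, LV (algebraMap K (Cm j.1) (a ^ 2)) (algebraMap K (Cm j.1) (b ^ 2))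
        (algebraMap K (Cm j.1) α) ↔ ((poq j (mkq a) = 0 → poq j (mkq α) = 0) ∧
          (poq j (mkq a) ≠ 0 → Spl j (mkq α) ∨ Spl j (mkq α + mkq a))) := by
      intro j
      obtain ⟨p1, p2, -, -, p5, -⟩ := hPOQ K j
      rw [hLOCV K j.1 j.2 (hres j) a b hb (hbal j) α, p1 a, p1 α, p2 α, p2 (α + a), mkq_add,
        ← p5, ← p5]
      tauto
    constructor
    · intro h j
      exact (key j).1 (h j.1 j.2)
    · intro h u hu
      exact (key ⟨u, hu⟩).2 (h ⟨u, hu⟩)
  refine ⟨hV, fun hAS hcard => ?_⟩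
  have hne : (0 : Qc K) ≠ mkq a := fun h => hAS (mkq_eq_zero.1 h.symm)
  have h0 : (0 : Qc K) ∈ SV (mkq a) := by
    intro j
    obtain ⟨-, -, -, -, -, -, p7, -⟩ := hPOQ K j
    exact ⟨fun _ => p7 0 (spl_zero j), fun _ => Or.inl (spl_zero j)⟩
  have h1 : mkq a ∈ SV (mkq a) := by
    intro j
    refine ⟨fun h => h, fun _ => Or.inr ?_⟩
    rw [mkq_self]
    exact spl_zero j
  have hSV : SV (mkq a) = {0, mkq a} := by
    have hfin : (SV (mkq a)).Finite := Set.finite_of_ncard_ne_zero (by rw [hcard]; norm_num)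
    symm
    apply Set.eq_of_subset_of_ncard_le _ _ hfin
    · intro x hx
      rcases hx with rfl | rfl
      · exact h0
      · exact h1
    · rw [hcard, Set.ncard_pair hne]
  have hV' : ∀ α : K, AllVA (a ^ 2) (b ^ 2) α → AS α ∨ AS (α + a ^ 2) := by
    intro α hα
    have h2 := (hV α).1 hα
    rw [hSV] at h2
    rcases h2 with h2 | h2
    · exact Or.inl (mkq_eq_zero.1 h2)
    · right
      have h3 : AS (α + a) := by
        rw [← mkq_eq_zero, mkq_add, h2]
        exact mkq_self a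
      have h4 := Pool.Agent.H467.CT.AS_add h3 (Pool.Agent.H467.CT.AS_sq a)
      have h5 : α + a + (a ^ 2 + a) = α + a ^ 2 := by
        linear_combination CharTwo.add_self_eq_zero a
      rwa [h5] at h4
  have hF' : ∀ d : K, d ≠ 0 → AllFA (a ^ 2) (b ^ 2) d → IsSquare d := by
    intro d hd hdF
    apply hFUL k K F a hcard d hd
    intro j
    obtain ⟨h2, h3⟩ := hLOCF K j.1 j.2 a b hb (hbal j) d hd (hdF j.1 j.2)
    exact ⟨h2, fun hU => F.G.nrm j a d hd (h3 hU)⟩
  exact hDWNA k K hff a b F.G.t hb F.G.bas hAS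
    (hSQMA K (a ^ 2) b F.G.t hb F.G.bas hV' hF') (hFFI k K F a b hb)

end Pool.Agent.H467.PG.One
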