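import Pool.Agent.H467.PG.SpecA

/-!
# PG ORDG: the ordering of the large primes (helper295)
-/

set_option autoImplicit false
set_option linter.all false

open Finset
open Pool.Agent.H467.PT
open scoped Classical

namespace Pool.Agent.H467.PG.Ordg

theorem four_le_pow (k : ℕ) (hk : 5 ≤ k) : 4 * k + 3 ≤ 2 ^ k := by
  induction k, hk using Nat.le_induction with
  | base => norm_num
  | succ n hn ih => rw [pow_succ]; omega

theorem le_Yf (d : ℕ) (hd : 24 < d) : d ≤ Yf d := by
  unfold Yf
  have h1 : 5 ≤ d / 4 := by omega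
  have h2 := four_le_pow (d / 4) h1
  omega

theorem sum_pow_lt (s : Finset ℕ) (n : ℕ) (hs : ∀ k ∈ s, k < n) :
    ∑ k ∈ s, (2 : ℝ) ^ k ≤ 2 ^ n := by
  have h1 : ∑ k ∈ s, (2 : ℝ) ^ k ≤ ∑ k ∈ range n, (2 : ℝ) ^ k := by
    apply Finset.sum_le_sum_of_subset_of_nonneg
    · intro k hk
      exact Finset.mem_range.2 (hs k hk)
    · intro k _ _
      positivity
  refine h1.trans ?_
  rw [geom_sum_eq (by norm_num)]
  norm_num

/-- A finite set can be numbered so that the degree is monotone. -/
theorem exists_rank {ι : Type} (T : Finset ι) (deg : ι → ℕ) :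
    ∃ rk : ι → ℕ, (∀ x ∈ T, ∀ y ∈ T, rk x = rk y → x = y) ∧
      (∀ x ∈ T, ∀ y ∈ T, deg x < deg y → rk x < rk y) ∧
      (∀ x ∈ T, rk x < T.card) ∧
      (∀ x ∈ T, (T.filter (fun y => rk y < rk x)).card = rk x) := by
  let idx : ι → ℕ := fun x => if h : x ∈ T then (T.equivFin ⟨x, h⟩ : ℕ) else 0
  have idxlt : ∀ x ∈ T, idx x < T.card := by
    intro x hx
    show (if h : x ∈ T then (T.equivFin ⟨x, h⟩ : ℕ) else 0) < T.card
    rw [dif_pos hx]
    exact (T.equivFin ⟨x, hx⟩).2
  have idxinj : ∀ x ∈ T, ∀ y ∈ T, idx x = idx y → x = y := by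
    intro x hx y hy hxy
    have e1 : idx x = (T.equivFin ⟨x, hx⟩ : ℕ) := dif_pos hx
    have e2 : idx y = (T.equivFin ⟨y, hy⟩ : ℕ) := dif_pos hy
    rw [e1, e2] at hxy
    exact congrArg Subtype.val (T.equivFin.injective (Fin.ext hxy))
  let key : ι → ℕ := fun x => T.card * deg x + idx x
  have keydef : ∀ x, key x = T.card * deg x + idx x := fun x => rfl
  have keydeg : ∀ x ∈ T, ∀ y ∈ T, deg x < deg y → key x < key y := by
    intro x hx y hy h
    have h1 : T.card * (deg x + 1) ≤ T.card * deg y := Nat.mul_le_mul_left _ h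
    have h2 := idxlt x hx
    rw [keydef, keydef]
    have h3 : T.card * (deg x + 1) = T.card * deg x + T.card := by ring
    omega
  have keyinj : ∀ x ∈ T, ∀ y ∈ T, key x = key y → x = y := by
    intro x hx y hy h
    rw [keydef, keydef] at h
    apply idxinj x hx y hy
    have h1 : (T.card * deg x + idx x) % T.card = idx x := by
      rw [Nat.mul_add_mod, Nat.mod_eq_of_lt (idxlt x hx)]
    have h2 : (T.card * deg y + idx y) % T.card = idx y := by
      rw [Nat.mul_add_mod, Nat.mod_eq_of_lt (idxlt y hy)]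
    rw [← h1, ← h2, h]
  let rk : ι → ℕ := fun x => (T.filter (fun y => key y < key x)).card
  have rkdef : ∀ x, rk x = (T.filter (fun y => key y < key x)).card := fun x => rfl
  have rkmono : ∀ x ∈ T, ∀ y ∈ T, key x < key y → rk x < rk y := by
    intro x hx y hy h
    rw [rkdef, rkdef]
    apply Finset.card_lt_card
    rw [Finset.ssubset_iff_of_subset]
    · exact ⟨x, Finset.mem_filter.2 ⟨hx, h⟩, fun hh => lt_irrefl _ (Finset.mem_filter.1 hh).2⟩
    · intro z hz
      rw [Finset.mem_filter] at hz ⊢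
      exact ⟨hz.1, hz.2.trans h⟩
  have rkiff : ∀ x ∈ T, ∀ y ∈ T, (rk x < rk y ↔ key x < key y) := by
    intro x hx y hy
    refine ⟨fun h => ?_, rkmono x hx y hy⟩
    rcases lt_trichotomy (key x) (key y) with h1 | h1 | h1
    · exact h1
    · rw [keyinj x hx y hy h1] at h
      exact absurd h (lt_irrefl _)
    · have := rkmono y hy x hx h1
      omega
  refine ⟨rk, ?_, ?_, ?_, ?_⟩
  · intro x hx y hy h
    rcases lt_trichotomy (key x) (key y) with h1 | h1 | h1
    · have := rkmono x hx y hy h1
      omega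
    · exact keyinj x hx y hy h1
    · have := rkmono y hy x hx h1
      omega
  · intro x hx y hy h
    exact rkmono x hx y hy (keydeg x hx y hy h)
  · intro x hx
    rw [rkdef]
    apply Finset.card_lt_card
    rw [Finset.ssubset_iff_of_subset (Finset.filter_subset _ _)]
    exact ⟨x, hx, fun hh => lt_irrefl _ (Finset.mem_filter.1 hh).2⟩
  · intro x hx
    rw [rkdef x]
    congr 1
    refine Finset.filter_congr fun y hy => ?_
    exact rkiff y hy x hx

end Pool.Agent.H467.PG.Ordg

namespace Pool.Agent.H467.PG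

open Pool.Agent.H467.PG.Ordg in
theorem Ordg.ordg : S_ORDG := by
  intro ι S q E _ Rel L C₀ θ U hL hC₀ hθ0 hθ hU hN
  set T := U.filter (fun p => L < S.deg p) with hT
  set N := T.card with hNdef
  have memT : ∀ p, p ∈ T ↔ p ∈ U ∧ L < S.deg p := by
    intro p
    rw [hT, Finset.mem_filter]
  obtain ⟨rk, rkinj, rkdeg, rklt, rkcard⟩ := exists_rank T S.deg
  rw [← hNdef] at rklt
  -- the numbering is onto
  have himg : T.image rk = Finset.range N := by
    apply Finset.eq_of_subset_of_card_le
    · intro k hk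
      rw [Finset.mem_image] at hk
      obtain ⟨x, hx, rfl⟩ := hk
      exact Finset.mem_range.2 (rklt x hx)
    · rw [Finset.card_range, Finset.card_image_of_injOn (fun x hx y hy h => rkinj x hx y hy h)]
  have hsurj : ∀ k, k < N → ∃ x ∈ T, rk x = k := by
    intro k hk
    have : k ∈ T.image rk := by rw [himg]; exact Finset.mem_range.2 hk
    exact Finset.mem_image.1 this
  obtain ⟨v₀, hv₀, hrv₀⟩ := hsurj (N - 1) (by omega)
  let Z : Finset ι := T.filter (fun x => N - 1 - C₀ ≤ rk x ∧ rk x < N - 1)
  have hZ : Z = T.filter (fun x => N - 1 - C₀ ≤ rk x ∧ rk x < N - 1) := rfl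
  have memZ : ∀ x, x ∈ Z ↔ x ∈ T ∧ N - 1 - C₀ ≤ rk x ∧ rk x < N - 1 := by
    intro x
    rw [hZ, Finset.mem_filter]
  have hZT : Z ⊆ T := Finset.filter_subset _ _
  have hZcard : Z.card = C₀ := by
    have h1 : Z.image rk = Finset.Ico (N - 1 - C₀) (N - 1) := by
      ext k
      rw [Finset.mem_image, Finset.mem_Ico]
      constructor
      · rintro ⟨x, hx, rfl⟩
        exact ((memZ x).1 hx).2
      · rintro ⟨h1, h2⟩
        obtain ⟨x, hx, hxk⟩ := hsurj k (by omega)
        exact ⟨x, (memZ x).2 ⟨hx, by omega, by omega⟩, hxk⟩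
    have h2 : (Z.image rk).card = Z.card :=
      Finset.card_image_of_injOn (fun x hx y hy h => rkinj x (hZT hx) y (hZT hy) h)
    rw [← h2, h1, Nat.card_Ico]
    omega
  -- the elements outside of `Z` and `v₀` come before
  have hout : ∀ p ∈ T, p ∉ Z → p ≠ v₀ → rk p < N - 1 - C₀ := by
    intro p hp hpZ hpv
    by_contra hcon
    have h1 := rklt p hp
    have h2 : rk p ≠ N - 1 := by
      intro h
      exact hpv (rkinj p hp v₀ hv₀ (by omega))
    exact hpZ ((memZ p).2 ⟨hp, by omega, by omega⟩)
  -- the large elements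
  have hbig : ∀ j ∈ T, N - 1 - C₀ ≤ rk j → S.dg U ≤ Yf (S.deg j) := by
    intro j hj hrj
    by_contra hlt
    rw [not_le] at hlt
    have hjU := (memT j).1 hj
    have hmem : j ∈ U.filter (fun j => L < S.deg j ∧ Yf (S.deg j) < S.dg U) :=
      Finset.mem_filter.2 ⟨hjU.1, hjU.2, hlt⟩
    have h1 := Finset.single_le_sum (f := fun j => (1 / 2 : ℝ) ^
      (cnt S (S.deg j) (Yf (S.deg j)) U)) (fun j _ => by positivity) hmem
    have h2 : (1 / 2 : ℝ) ^ (cnt S (S.deg j) (Yf (S.deg j)) U) < (1 / 2 : ℝ) ^ (C₀ + 2) :=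
      lt_of_le_of_lt (h1.trans hU.g2) hθ
    have h3 : C₀ + 2 < cnt S (S.deg j) (Yf (S.deg j)) U := by
      by_contra hc
      rw [not_lt] at hc
      have := pow_le_pow_of_le_one (by norm_num : (0 : ℝ) ≤ 1 / 2) (by norm_num) hc
      linarith
    have h4 : cnt S (S.deg j) (Yf (S.deg j)) U ≤ (Finset.Ioo (rk j) N).card := by
      unfold cnt
      apply Finset.card_le_card_of_injOn rk
      · intro x hx
        rw [Finset.mem_coe, Finset.mem_filter] at hx
        have hxT : x ∈ T := (memT x).2 ⟨hx.1, by omega⟩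
        rw [Finset.mem_coe, Finset.mem_Ioo]
        exact ⟨rkdeg j hj x hxT hx.2.1, rklt x hxT⟩
      · intro x hx y hy h
        rw [Finset.mem_coe, Finset.mem_filter] at hx hy
        exact rkinj x ((memT x).2 ⟨hx.1, by omega⟩) y ((memT y).2 ⟨hy.1, by omega⟩) h
    rw [Nat.card_Ioo] at h4
    omega
  have hcardrk : ∀ j ∈ T, (U.filter (fun p => L < S.deg p ∧ rk p < rk j)).card = rk j := by
    intro j hj
    have h1 := rkcard j hj
    rwa [hT, Finset.filter_filter] at h1
  refine ⟨v₀, Z, rk, ((memT v₀).1 hv₀).1, ((memT v₀).1 hv₀).2, ?_, hZT, hZcard, ?_, ?_,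
    rkinj, ?_, ?_, ?_⟩
  · intro h
    have := ((memZ v₀).1 h).2.2
    omega
  · exact hbig v₀ hv₀ (by omega)
  · intro z hz
    exact hbig z (hZT hz) ((memZ z).1 hz).2.1
  · intro p hp hpL hpZ hpv z hz
    have h1 := hout p ((memT p).2 ⟨hp, hpL⟩) hpZ hpv
    have h2 := ((memZ z).1 hz).2.1
    omega
  · intro p hp hpL hpv
    have hpT := (memT p).2 ⟨hp, hpL⟩
    have h1 := rklt p hpT
    have h2 : rk p ≠ N - 1 := by
      intro h
      exact hpv (rkinj p hpT v₀ hv₀ (by omega))
    omega
  · -- the estimate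
    let D : ι → ℕ := fun j => (U.filter (fun p => L < S.deg p ∧ S.deg p ≤ Yf (S.deg j))).card
    have Ddef : ∀ j, D j = (U.filter (fun p => L < S.deg p ∧ S.deg p ≤ Yf (S.deg j))).card :=
      fun j => rfl
    set W := U.filter (fun p => L < S.deg p ∧ p ∉ Z ∧ p ≠ v₀) with hW
    have memW : ∀ p ∈ W, p ∈ T ∧ rk p < N - 1 - C₀ := by
      intro p hp
      rw [hW, Finset.mem_filter] at hp
      have hpT := (memT p).2 ⟨hp.1, hp.2.1⟩
      exact ⟨hpT, hout p hpT hp.2.2.1 hp.2.2.2⟩
    have hterm : ∀ j ∈ W, (1 / 2 : ℝ) ^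
        ((U.filter (fun p => L < S.deg p ∧ S.deg p ≤ Yf (S.deg j))).card) *
        2 ^ (1 + (U.filter (fun p => L < S.deg p ∧ rk p < rk j)).card) =
        2 ^ (1 + rk j) / 2 ^ D j := by
      intro j hj
      rw [hcardrk j (memW j hj).1, ← Ddef, one_div, inv_pow]
      field_simp
    rw [Finset.sum_congr rfl hterm,
      ← Finset.sum_filter_add_sum_filter_not W (fun j => Yf (S.deg j) < S.dg U)]
    refine add_le_add ?_ ?_
    · refine le_trans (Finset.sum_le_sum ?_) (le_trans
        (Finset.sum_le_sum_of_subset_of_nonneg (s := W.filter (fun j => Yf (S.deg j) < S.dg U))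
          (t := U.filter (fun j => L < S.deg j ∧ Yf (S.deg j) < S.dg U))
          (f := fun j => (1 / 2 : ℝ) ^ (cnt S (S.deg j) (Yf (S.deg j)) U)) ?_
          (fun j _ _ => by positivity)) hU.g2)
      · intro p hp
        rw [Finset.mem_filter] at hp
        obtain ⟨hpT, -⟩ := memW p hp.1
        obtain ⟨hpU, hpL⟩ := (memT p).1 hpT
        have hYp := le_Yf (S.deg p) (by omega)
        have hD : rk p + 1 + cnt S (S.deg p) (Yf (S.deg p)) U ≤ D p := by
          rw [← rkcard p hpT, Ddef]
          unfold cnt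
          have d1 : Disjoint (T.filter (fun x => rk x < rk p)) {p} := by
            rw [Finset.disjoint_singleton_right]
            intro hh
            exact lt_irrefl _ (Finset.mem_filter.1 hh).2
          have degle : ∀ x ∈ T, rk x < rk p → S.deg x ≤ S.deg p := by
            intro x hx h
            by_contra hc
            rw [not_le] at hc
            have := rkdeg p hpT x hx hc
            omega
          have d2 : Disjoint ((T.filter (fun x => rk x < rk p)) ∪ {p})
              (U.filter (fun x => S.deg p < S.deg x ∧ S.deg x ≤ Yf (S.deg p))) := by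
            rw [Finset.disjoint_left]
            intro x hx hx'
            rw [Finset.mem_union, Finset.mem_filter, Finset.mem_singleton] at hx
            rw [Finset.mem_filter] at hx'
            rcases hx with hx | hx
            · have := degle x hx.1 hx.2
              omega
            · rw [hx] at hx'
              omega
          rw [← Finset.card_singleton p, ← Finset.card_union_of_disjoint d1,
            ← Finset.card_union_of_disjoint d2]
          apply Finset.card_le_card
          intro x hx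
          rw [Finset.mem_union, Finset.mem_union, Finset.mem_singleton] at hx
          rw [Finset.mem_filter]
          rcases hx with (hx | hx) | hx
          · rw [Finset.mem_filter] at hx
            have := (memT x).1 hx.1
            exact ⟨this.1, this.2, (degle x hx.1 hx.2).trans hYp⟩
          · rw [hx]; exact ⟨hpU, hpL, hYp⟩
          · rw [Finset.mem_filter] at hx
            exact ⟨hx.1, by omega, hx.2.2⟩
        have h2 : (2 : ℝ) ^ (rk p + 1 + cnt S (S.deg p) (Yf (S.deg p)) U) ≤ 2 ^ D p :=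
          pow_le_pow_right₀ (by norm_num) hD
        rw [div_le_iff₀ (by positivity), one_div, inv_pow, ← div_eq_inv_mul,
          le_div_iff₀ (by positivity)]
        calc (2 : ℝ) ^ (1 + rk p) * 2 ^ cnt S (S.deg p) (Yf (S.deg p)) U =
            2 ^ (rk p + 1 + cnt S (S.deg p) (Yf (S.deg p)) U) := by
              rw [← pow_add]; congr 1; ring
          _ ≤ _ := h2
      · intro p hp
        rw [Finset.mem_filter] at hp
        obtain ⟨hpT, -⟩ := memW p hp.1
        obtain ⟨hpU, hpL⟩ := (memT p).1 hpT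
        exact Finset.mem_filter.2 ⟨hpU, hpL, hp.2⟩
    · set V := W.filter (fun j => ¬ Yf (S.deg j) < S.dg U) with hV
      have hterm2 : ∀ p ∈ V, (2 : ℝ) ^ (1 + rk p) / 2 ^ D p = 2 / 2 ^ N * 2 ^ rk p := by
        intro p hp
        rw [hV, Finset.mem_filter] at hp
        have hp2 := hp.2
        rw [not_lt] at hp2
        have hD : D p = N := by
          rw [Ddef, hNdef, hT]
          congr 1
          refine Finset.filter_congr fun x hx => ?_
          refine ⟨fun h => h.1, fun h => ⟨h, le_trans ?_ hp2⟩⟩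
          unfold PSys.dg
          exact Finset.single_le_sum (f := S.deg) (fun i _ => Nat.zero_le _) hx
        rw [hD, pow_add, pow_one]
        ring
      rw [Finset.sum_congr rfl hterm2, ← Finset.mul_sum]
      have him : ∑ p ∈ V, (2 : ℝ) ^ rk p = ∑ k ∈ V.image rk, (2 : ℝ) ^ k := by
        rw [Finset.sum_image]
        intro x hx y hy hxy
        have hx' := (memW x (Finset.mem_filter.1 (Finset.mem_coe.1 hx)).1).1
        have hy' := (memW y (Finset.mem_filter.1 (Finset.mem_coe.1 hy)).1).1
        exact rkinj x hx' y hy' hxy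
      rw [him]
      have hle := sum_pow_lt (V.image rk) (N - 1 - C₀) (by
        intro k hk
        rw [Finset.mem_image] at hk
        obtain ⟨p, hp, rfl⟩ := hk
        exact (memW p (Finset.mem_filter.1 hp).1).2)
      have hUc : (2 : ℝ) ^ N = 2 ^ (N - 1 - C₀) * 2 * 2 ^ C₀ := by
        rw [← pow_succ, ← pow_add]
        congr 1
        omega
      have hpos : (0 : ℝ) < 2 ^ N := by positivity
      calc 2 / 2 ^ N * ∑ k ∈ V.image rk, (2 : ℝ) ^ k ≤ 2 / 2 ^ N * 2 ^ (N - 1 - C₀) := by
            gcongr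
        _ = (1 / 2) ^ C₀ := by
            rw [hUc, one_div, inv_pow]
            field_simp

end Pool.Agent.H467.PG
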