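import Pool.Agent.H467.PG.SpecB
import Pool.Agent.H467.MR.Zeta
import Pool.Agent.H467.GK.Dra

/-!
# Numbers of places (project PG, part PKG)

`S_PKG`: the numbers of the places of a global function field satisfy the hypotheses `PHyp` of the combinatorial part.
-/

set_option autoImplicit false
set_option linter.all false

open Finset
open scoped Classical

namespace Pool.Agent.H467.PG.Pkg

section many

variable {ι : Type*} (deg : ι → ℕ)

/-- the degree of an effective divisor -/
noncomputable def edg (E : ι →₀ ℕ) : ℕ := E.sum fun P n => n * deg P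

/-- half of a divisor -/
noncomputable def hf (E : ι →₀ ℕ) : ι →₀ ℕ := E.mapRange (fun n => n / 2) rfl

/-- the places with odd multiplicity -/
noncomputable def od (E : ι →₀ ℕ) : Finset ι := E.support.filter (fun P => E P % 2 = 1)

theorem mem_od (E : ι →₀ ℕ) (P : ι) : P ∈ od E ↔ E P % 2 = 1 := by
  unfold od
  rw [mem_filter, Finsupp.mem_support_iff]
  constructor
  · exact fun h => h.2
  · intro h
    exact ⟨by omega, h⟩

theorem hf_apply (E : ι →₀ ℕ) (P : ι) : hf E P = E P / 2 := by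
  unfold hf
  rw [Finsupp.mapRange_apply]

theorem hf_od_inj {E E' : ι →₀ ℕ} (h1 : hf E = hf E') (h2 : od E = od E') : E = E' := by
  ext P
  have h3 : E P / 2 = E' P / 2 := by rw [← hf_apply, ← hf_apply, h1]
  have h4 : E P % 2 = 1 ↔ E' P % 2 = 1 := by rw [← mem_od, ← mem_od, h2]
  omega

theorem edg_eq (E : ι →₀ ℕ) : edg deg E = 2 * edg deg (hf E) + ∑ P ∈ od E, deg P := by
  have h1 : edg deg (hf E) = ∑ P ∈ E.support, (E P / 2) * deg P := by
    unfold edg Finsupp.sum
    have hs : (hf E).support ⊆ E.support := Finsupp.support_mapRange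
    rw [Finset.sum_subset hs]
    · exact Finset.sum_congr rfl fun P _ => by rw [hf_apply]
    · intro P _ hP
      rw [Finsupp.notMem_support_iff.1 hP]
      exact Nat.zero_mul _
  have h2 : ∑ P ∈ od E, deg P = ∑ P ∈ E.support, (E P % 2) * deg P := by
    unfold od
    rw [Finset.sum_filter]
    refine Finset.sum_congr rfl fun P _ => ?_
    rcases Nat.mod_two_eq_zero_or_one (E P) with h | h
    · rw [h, if_neg (by decide), Nat.zero_mul]
    · rw [h, if_pos rfl, Nat.one_mul]
  rw [h1, h2, Finset.mul_sum, ← Finset.sum_add_distrib]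
  unfold edg Finsupp.sum
  refine Finset.sum_congr rfl fun P _ => ?_
  have h3 := Nat.div_add_mod (E P) 2
  calc E P * deg P = (2 * (E P / 2) + E P % 2) * deg P := by rw [h3]
    _ = _ := by ring

/-- the divisor of a set -/
noncomputable def dv (U : Finset ι) : ι →₀ ℕ := ∑ P ∈ U, Finsupp.single P 1

theorem dv_apply (U : Finset ι) (P : ι) : dv U P = if P ∈ U then 1 else 0 := by
  unfold dv
  rw [Finsupp.finsetSum_apply]
  simp only [Finsupp.single_apply]
  rw [Finset.sum_ite_eq' U P (fun _ => 1)]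

theorem dv_inj : Function.Injective (dv : Finset ι → (ι →₀ ℕ)) := by
  intro U V h
  ext P
  have h1 := DFunLike.congr_fun h P
  rw [dv_apply, dv_apply] at h1
  by_cases hU : P ∈ U <;> by_cases hV : P ∈ V
  · exact ⟨fun _ => hV, fun _ => hU⟩
  · rw [if_pos hU, if_neg hV] at h1
    exact absurd h1 one_ne_zero
  · rw [if_neg hU, if_pos hV] at h1
    exact absurd h1.symm one_ne_zero
  · exact ⟨fun h => absurd h hU, fun h => absurd h hV⟩

theorem edg_dv (U : Finset ι) : edg deg (dv U) = ∑ P ∈ U, deg P := by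
  have hs : (dv U).support ⊆ U := by
    intro P hP
    rw [Finsupp.mem_support_iff, dv_apply] at hP
    by_contra h
    exact hP (if_neg h)
  unfold edg Finsupp.sum
  rw [Finset.sum_subset hs]
  · refine Finset.sum_congr rfl fun P hP => ?_
    rw [dv_apply, if_pos hP]
    exact Nat.one_mul _
  · intro P _ hP
    rw [Finsupp.notMem_support_iff.1 hP]
    exact Nat.zero_mul _

/-- Many sets of places of almost every degree. -/
theorem many_abs (q : ℕ) (hq : 2 ≤ q) (A : ℕ → Finset (ι →₀ ℕ))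
    (hA : ∀ n E, E ∈ A n ↔ edg deg E = n) (C c : ℝ) (hC : 0 < C) (hc : 0 < c)
    (up : ∀ n, ((A n).card : ℝ) ≤ C * (q : ℝ) ^ n) (e m₀ : ℕ)
    (lo : ∀ m, m₀ ≤ m → c * (q : ℝ) ^ (m * e) ≤ ((A (m * e)).card : ℝ)) :
    ∃ (δ : ℝ) (k₀ : ℕ), 0 < δ ∧ ∀ m, m₀ ≤ m → ∃ (n' : ℕ), n' ≤ m * e ∧ m * e ≤ n' + 2 * k₀ ∧
      ∃ 𝒰 : Finset (Finset ι), (∀ U ∈ 𝒰, ∑ P ∈ U, deg P = n') ∧
        δ * (q : ℝ) ^ n' ≤ (𝒰.card : ℝ) := by
  have hq0 : (0 : ℝ) < q := by exact_mod_cast (by omega : 0 < q)
  have hq1 : (1 : ℝ) / q ≤ 1 / 2 := by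
    apply one_div_le_one_div_of_le (by norm_num)
    exact_mod_cast hq
  obtain ⟨k₀, hk₀⟩ : ∃ k₀ : ℕ, (1 / 2 : ℝ) ^ k₀ < c / 4 / C ^ 2 :=
    exists_pow_lt_of_lt_one (by positivity) (by norm_num)
  have hk₀' : C ^ 2 * (1 / 2 : ℝ) ^ k₀ < c / 4 := by
    rw [lt_div_iff₀ (by positivity)] at hk₀
    linarith
  refine ⟨c / 8 / C, k₀, by positivity, ?_⟩
  intro m hm
  have hlo := lo m hm
  -- the squarefree divisors of degree `n`
  let SQ : ℕ → Finset (Finset ι) := fun n => ((A n).filter (fun E => dv (od E) = E)).image od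
  have hSQ : ∀ n U, U ∈ SQ n ↔ ∑ P ∈ U, deg P = n := by
    intro n U
    simp only [SQ, mem_image, mem_filter]
    constructor
    · rintro ⟨E, ⟨h1, h2⟩, rfl⟩
      rw [← edg_dv, h2]
      exact (hA n E).1 h1
    · intro h
      have h1 : od (dv U) = U := by
        ext P
        rw [mem_od, dv_apply]
        by_cases hP : P ∈ U
        · rw [if_pos hP]; exact ⟨fun _ => hP, fun _ => rfl⟩
        · rw [if_neg hP]; exact ⟨fun h => absurd h (by decide), fun h => absurd h hP⟩
      refine ⟨dv U, ⟨(hA n _).2 (by rw [edg_dv, h]), by rw [h1]⟩, h1⟩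
  have hSQc : ∀ n, ((SQ n).card : ℝ) ≤ C * (q : ℝ) ^ n := by
    intro n
    refine le_trans ?_ (up n)
    have h1 : (SQ n).card ≤ (A n).card :=
      Finset.card_le_card_of_injOn dv (fun U hU => by
        have h2 := (hSQ n U).1 hU
        exact (hA n _).2 (by rw [edg_dv, h2])) (fun U _ V _ h => dv_inj h)
    exact_mod_cast h1
  by_contra hcon
  push Not at hcon
  have hsmall : ∀ j ≤ k₀, 2 * j ≤ m * e →
      ((SQ (m * e - 2 * j)).card : ℝ) < c / 8 / C * (q : ℝ) ^ (m * e - 2 * j) := by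
    intro j hj hj2
    exact hcon (m * e - 2 * j) (Nat.sub_le _ _) (by omega) (SQ (m * e - 2 * j))
      (fun U hU => (hSQ _ U).1 hU)
  clear lo
  generalize m * e = n at hcon hsmall hlo ⊢
  -- the fibres
  have hmaps : ∀ E ∈ A n, edg deg (hf E) ∈ range (n + 1) := by
    intro E hE
    have h1 := edg_eq deg E
    rw [(hA n E).1 hE] at h1
    exact mem_range.2 (by omega)
  have hsum := Finset.card_eq_sum_card_fiberwise hmaps
  have hterm : ∀ j ∈ range (n + 1),
      (((A n).filter (fun E => edg deg (hf E) = j)).card : ℝ) ≤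
        (q : ℝ) ^ n * (c / 8 * (1 / 2) ^ j + if k₀ < j then C ^ 2 * (1 / 2) ^ j else 0) := by
    intro j _
    by_cases hj2 : 2 * j ≤ n
    · have h1 : ((A n).filter (fun E => edg deg (hf E) = j)).card ≤
          ((A j) ×ˢ (SQ (n - 2 * j))).card := by
        refine Finset.card_le_card_of_injOn (fun E => (hf E, od E)) ?_ ?_
        · intro E hE
          have hE' := Finset.mem_filter.1 (Finset.mem_coe.1 hE)
          have h2 := edg_eq deg E
          rw [(hA n E).1 hE'.1, hE'.2] at h2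
          have h3 : ∑ P ∈ od E, deg P = n - 2 * j := by omega
          exact Finset.mem_coe.2 (Finset.mem_product.2 ⟨(hA j _).2 hE'.2, (hSQ _ _).2 h3⟩)
        · intro E _ E' _ h
          exact hf_od_inj (Prod.ext_iff.1 h).1 (Prod.ext_iff.1 h).2
      rw [Finset.card_product] at h1
      have h3 : (((A n).filter (fun E => edg deg (hf E) = j)).card : ℝ) ≤
          (C * (q : ℝ) ^ j) * ((SQ (n - 2 * j)).card : ℝ) := by
        calc (((A n).filter (fun E => edg deg (hf E) = j)).card : ℝ)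
            ≤ (((A j).card * (SQ (n - 2 * j)).card : ℕ) : ℝ) := by exact_mod_cast h1
          _ = ((A j).card : ℝ) * ((SQ (n - 2 * j)).card : ℝ) := by push_cast; ring
          _ ≤ _ := mul_le_mul_of_nonneg_right (up j) (by positivity)
      have h4 : (q : ℝ) ^ j * (q : ℝ) ^ (n - 2 * j) ≤ (q : ℝ) ^ n * (1 / 2) ^ j := by
        have h5 : (q : ℝ) ^ n = (q : ℝ) ^ j * (q : ℝ) ^ (n - 2 * j) * (q : ℝ) ^ j := by
          rw [← pow_add, ← pow_add]
          exact congrArg (fun i : ℕ => (q : ℝ) ^ i) (by omega)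
        rw [h5, mul_assoc]
        refine le_mul_of_one_le_right (by positivity) ?_
        rw [← mul_pow]
        apply one_le_pow₀
        have : (2 : ℝ) ≤ q := by exact_mod_cast hq
        linarith
      by_cases hj : j ≤ k₀
      · rw [if_neg (by omega), add_zero]
        have h6 := (hsmall j hj hj2).le
        calc (((A n).filter (fun E => edg deg (hf E) = j)).card : ℝ)
            ≤ (C * (q : ℝ) ^ j) * (c / 8 / C * (q : ℝ) ^ (n - 2 * j)) :=
              h3.trans (mul_le_mul_of_nonneg_left h6 (by positivity))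
          _ = c / 8 * ((q : ℝ) ^ j * (q : ℝ) ^ (n - 2 * j)) := by field_simp
          _ ≤ c / 8 * ((q : ℝ) ^ n * (1 / 2) ^ j) := mul_le_mul_of_nonneg_left h4 (by positivity)
          _ = _ := by ring
      · rw [if_pos (by omega)]
        calc (((A n).filter (fun E => edg deg (hf E) = j)).card : ℝ)
            ≤ (C * (q : ℝ) ^ j) * (C * (q : ℝ) ^ (n - 2 * j)) :=
              h3.trans (mul_le_mul_of_nonneg_left (hSQc _) (by positivity))
          _ = C ^ 2 * ((q : ℝ) ^ j * (q : ℝ) ^ (n - 2 * j)) := by ring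
          _ ≤ C ^ 2 * ((q : ℝ) ^ n * (1 / 2) ^ j) := mul_le_mul_of_nonneg_left h4 (by positivity)
          _ ≤ (q : ℝ) ^ n * (c / 8 * (1 / 2) ^ j + C ^ 2 * (1 / 2) ^ j) := by
            have : 0 ≤ (q : ℝ) ^ n * (c / 8 * (1 / 2) ^ j) := by positivity
            linarith
    · have h1 : ((A n).filter (fun E => edg deg (hf E) = j)) = ∅ := by
        rw [Finset.filter_eq_empty_iff]
        intro E hE h2
        have h3 := edg_eq deg E
        rw [(hA n E).1 hE, h2] at h3
        omega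
      rw [h1, Finset.card_empty, Nat.cast_zero]
      have : (0 : ℝ) ≤ if k₀ < j then C ^ 2 * (1 / 2) ^ j else 0 := by
        split_ifs
        · positivity
        · exact le_rfl
      positivity
  have h1 : ((A n).card : ℝ) ≤ (q : ℝ) ^ n * (∑ j ∈ range (n + 1),
      (c / 8 * (1 / 2) ^ j + if k₀ < j then C ^ 2 * (1 / 2) ^ j else 0)) := by
    rw [hsum, Nat.cast_sum, Finset.mul_sum]
    exact Finset.sum_le_sum hterm
  have h2 : ∑ j ∈ range (n + 1), c / 8 * (1 / 2 : ℝ) ^ j ≤ c / 4 := by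
    rw [← Finset.mul_sum]
    have h3 : ∑ j ∈ range (n + 1), (1 / 2 : ℝ) ^ j ≤ 2 := by
      rw [Finset.range_eq_Ico]
      have := geom_sum_Ico_le_of_lt_one (x := (1 / 2 : ℝ)) (m := 0) (n := n + 1) (by norm_num)
        (by norm_num)
      norm_num at this ⊢
      exact this
    calc c / 8 * ∑ j ∈ range (n + 1), (1 / 2 : ℝ) ^ j ≤ c / 8 * 2 :=
          mul_le_mul_of_nonneg_left h3 (by positivity)
      _ = c / 4 := by ring
  have h4 : ∑ j ∈ range (n + 1), (if k₀ < j then C ^ 2 * (1 / 2 : ℝ) ^ j else 0) ≤ c / 4 := by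
    rw [← Finset.sum_filter, ← Finset.mul_sum]
    have h5 : (range (n + 1)).filter (fun j => k₀ < j) = Ico (k₀ + 1) (n + 1) := by
      ext j
      rw [mem_filter, mem_range, mem_Ico]
      omega
    have h6 : ∑ j ∈ (range (n + 1)).filter (fun j => k₀ < j), (1 / 2 : ℝ) ^ j ≤ (1 / 2) ^ k₀ := by
      rw [h5]
      refine (geom_sum_Ico_le_of_lt_one (by norm_num) (by norm_num)).trans ?_
      rw [pow_succ]
      norm_num
    exact (mul_le_mul_of_nonneg_left h6 (by positivity)).trans hk₀'.le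
  rw [Finset.sum_add_distrib] at h1
  have h7 : (q : ℝ) ^ n * (∑ j ∈ range (n + 1), c / 8 * (1 / 2 : ℝ) ^ j +
      ∑ j ∈ range (n + 1), (if k₀ < j then C ^ 2 * (1 / 2 : ℝ) ^ j else 0)) ≤
        (q : ℝ) ^ n * (c / 4 + c / 4) :=
    mul_le_mul_of_nonneg_left (add_le_add h2 h4) (by positivity)
  have h8 : 0 < (q : ℝ) ^ n := by positivity
  have h9 : 0 < c * (q : ℝ) ^ n := by positivity
  have h10 := (hlo.trans h1).trans h7
  linarith

/-- Removing finitely many places. -/
theorem many_B (q : ℕ) (hq : 2 ≤ q) (B : Finset ι) (δ : ℝ) (hδ : 0 < δ) (n : ℕ)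
    (𝒰 : Finset (Finset ι)) (h𝒰 : ∀ U ∈ 𝒰, ∑ P ∈ U, deg P = n)
    (hc : δ * (q : ℝ) ^ n ≤ (𝒰.card : ℝ)) :
    ∃ n' ≤ n, n ≤ n' + ∑ P ∈ B, deg P ∧ ∃ 𝒱 : Finset (Finset ι),
      (∀ V ∈ 𝒱, Disjoint V B ∧ ∑ P ∈ V, deg P = n') ∧
        δ / 2 ^ B.card * (q : ℝ) ^ n' ≤ (𝒱.card : ℝ) := by
  have hq0 : (0 : ℝ) < q := by exact_mod_cast (by omega : 0 < q)
  have hb : (B.powerset.card : ℕ) • (δ * (q : ℝ) ^ n / 2 ^ B.card) ≤ (𝒰.card : ℝ) := by
    rw [Finset.card_powerset, nsmul_eq_mul]
    push_cast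
    rw [mul_div_cancel₀ _ (by positivity)]
    exact hc
  obtain ⟨V, hV, hVc⟩ := Finset.exists_le_card_fiber_of_nsmul_le_card_of_maps_to
    (f := fun U : Finset ι => U ∩ B) (fun U _ => Finset.mem_powerset.2 Finset.inter_subset_right)
    ⟨∅, Finset.empty_mem_powerset B⟩ hb
  have hVB := Finset.mem_powerset.1 hV
  have hpos : 0 < δ * (q : ℝ) ^ n / 2 ^ B.card := by positivity
  have hne : ((𝒰.filter (fun U => U ∩ B = V)).card : ℝ) ≠ 0 := (hpos.trans_le hVc).ne'
  have hsplit : ∀ U ∈ 𝒰.filter (fun U => U ∩ B = V), ∑ P ∈ U \ B, deg P + ∑ P ∈ V, deg P = n := by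
    intro U hU
    obtain ⟨h1, h2⟩ := Finset.mem_filter.1 hU
    rw [← h2, ← h𝒰 U h1, add_comm]
    exact Finset.sum_inter_add_sum_sdiff U B deg
  have hle : ∑ P ∈ V, deg P ≤ n := by
    have h1 : (𝒰.filter (fun U => U ∩ B = V)).Nonempty := by
      rw [← Finset.card_ne_zero]
      exact_mod_cast hne
    obtain ⟨U, hU⟩ := h1
    have := hsplit U hU
    omega
  have hle2 : ∑ P ∈ V, deg P ≤ ∑ P ∈ B, deg P := Finset.sum_le_sum_of_subset hVB
  refine ⟨n - ∑ P ∈ V, deg P, Nat.sub_le _ _, by omega,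
    (𝒰.filter (fun U => U ∩ B = V)).image (fun U => U \ B), ?_, ?_⟩
  · intro W hW
    obtain ⟨U, hU, rfl⟩ := Finset.mem_image.1 hW
    have h1 := hsplit U hU
    exact ⟨Finset.sdiff_disjoint, by omega⟩
  · rw [Finset.card_image_of_injOn]
    · refine le_trans ?_ hVc
      rw [div_mul_eq_mul_div]
      refine div_le_div_of_nonneg_right ?_ (by positivity)
      refine mul_le_mul_of_nonneg_left ?_ hδ.le
      refine pow_le_pow_right₀ ?_ (Nat.sub_le _ _)
      exact_mod_cast (by omega : 1 ≤ q)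
    · intro U hU U' hU' h
      have h1 := (Finset.mem_filter.1 (Finset.mem_coe.1 hU)).2
      have h2 := (Finset.mem_filter.1 (Finset.mem_coe.1 hU')).2
      have h3 : U \ B = U' \ B := h
      rw [← Finset.sdiff_union_inter U B, ← Finset.sdiff_union_inter U' B, h3, h1, h2]

end many


/-! ### Places -/

section plc

open WithZero Pool.Agent.H467.GK Pool.Agent.H467.MR.Zeta Pool.Agent.H525R3.FFp FF

theorem isFF' {k K : Type} [Field k] [Field K] [Algebra k K]
    (h : Pool.Agent.H467.GK.IsFF k K) : FF.IsFF k K := by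
  obtain ⟨t, ht, hfin⟩ := h
  exact FF.IsFF.of_finite ht hfin

variable {k K : Type} [Field k] [Finite k] [Field K] [Algebra k K]

/-- Places and surjective valuations. -/
noncomputable def ep (k : Type) {K : Type} [Field k] [Finite k] [Field K] [Algebra k K] :
    PV K ≃ Place k K where
  toFun j := Dra.toPl j.1 j.2
  invFun P := ⟨Dra.vl P, Dra.vl_surj P⟩
  left_inv j := by
    apply Subtype.ext
    apply Valuation.ext
    intro f
    show Dra.vl (Dra.toPl (k := k) j.1 j.2) f = j.1 f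
    by_cases hf : f = 0
    · rw [hf, map_zero, map_zero]
    · rw [Dra.vl_apply _ hf, Dra.toPl_ord, neg_neg,
        WithZero.exp_log ((Valuation.ne_zero_iff j.1).2 hf)]
  right_inv P := by
    apply Place.ext
    funext f
    show (Dra.toPl (k := k) (Dra.vl P) (Dra.vl_surj P)).ord f = P.ord f
    rw [Dra.toPl_ord]
    by_cases hf : f = 0
    · rw [hf, map_zero, WithZero.log_zero, P.ord_zero, neg_zero]
    · rw [Dra.vl_apply _ hf, WithZero.log_exp, neg_neg]

theorem ep_ord (j : PV K) (f : K) : (ep k j).ord f = - WithZero.log (j.1 f) := rfl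

theorem ep_O (j : PV K) : (ep k j).O = j.1.valuationSubring := by
  ext f
  rw [Valuation.mem_valuationSubring_iff]
  show (ep k j).Reg f ↔ _
  unfold Place.Reg
  rw [ep_ord]
  by_cases hf : f = 0
  · rw [hf, map_zero]
    exact ⟨fun _ => zero_le_one, fun _ => Or.inl rfl⟩
  · have h1 := (Valuation.ne_zero_iff j.1).2 hf
    have h2 : j.1 f ≤ 1 ↔ WithZero.log (j.1 f) ≤ 0 := by
      have h3 : WithZero.exp (WithZero.log (j.1 f)) ≤ WithZero.exp (0 : ℤ) ↔
        WithZero.log (j.1 f) ≤ 0 := WithZero.exp_le_exp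
      rw [WithZero.exp_log h1, WithZero.exp_zero] at h3
      exact h3
    rw [h2]
    constructor
    · rintro (h | h)
      · exact absurd h hf
      · omega
    · intro h
      exact Or.inr (by omega)

theorem deg_ep [FF.IsFF k K] (R : GFR k K) (j : PV K) : R.deg j = (ep k j).deg := by
  have h1 := R.resc j
  have h2 : Nat.card (IsLocalRing.ResidueField (ep k j).O) = Nat.card k ^ (ep k j).deg :=
    card_RF (ep k j)
  rw [ep_O] at h2
  exact Nat.pow_right_injective (two_le (k := k)) (h1.symm.trans h2)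

theorem reg_pow2 (w : Place k K) {f : K} (h : w.Reg f) (n : ℕ) : w.Reg (f ^ n) := by
  induction n with
  | zero => rw [pow_zero]; exact w.reg_one
  | succ n ih => rw [pow_succ]; exact w.reg_mul ih h

/-- The upper bound for the number of places of degree `l`. -/
theorem up_pl [FF.IsFF k K] : ∃ C : ℝ, 0 ≤ C ∧ ∀ (l : ℕ) (S : Finset (Place k K)),
    (∀ P ∈ S, P.deg = l) → (l : ℝ) * (S.card : ℝ) ≤ C * (Nat.card k : ℝ) ^ l := by
  obtain ⟨x, hx⟩ := exists_D_ne k K
  have htr := (sep_of_D_ne hx).1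
  have hx0 : x ≠ 0 := by
    intro h
    apply htr
    rw [h]
    exact isAlgebraic_zero
  obtain ⟨In, hIn⟩ : ∃ In : Finset (Place k K), ∀ P, P ∈ In ↔ P.ord x ≠ 0 :=
    ⟨(finite_support (k := k) x).toFinset, fun P => by
      rw [Set.Finite.mem_toFinset, Set.mem_setOf_eq]⟩
  obtain ⟨H, hH⟩ : ∃ H : ℕ, (H : ℤ) = ddeg (polar (k := k) x) :=
    ⟨(ddeg (polar (k := k) x)).toNat, Int.toNat_of_nonneg (ddeg_nonneg (polar_nonneg x))⟩
  refine ⟨H + In.card, by positivity, ?_⟩
  intro l S hS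
  have hq := two_le (k := k)
  rcases Nat.eq_zero_or_pos l with hl | hl
  · rw [hl, Nat.cast_zero, zero_mul]
    positivity
  have hlq : l ≤ Nat.card k ^ l := (Nat.lt_pow_self hq).le
  have hq2 : 2 ≤ Nat.card k ^ l := hq.trans (Nat.le_self_pow hl.ne' _)
  -- the function
  obtain ⟨f, hf⟩ : ∃ f : K, f = x ^ (Nat.card k ^ l) - x := ⟨_, rfl⟩
  have hf0 : f ≠ 0 := by
    intro h
    apply htr
    refine ⟨Polynomial.X ^ (Nat.card k ^ l) - Polynomial.X, ?_, ?_⟩
    · apply FiniteField.X_pow_card_sub_X_ne_zero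
      exact Nat.one_lt_pow hl.ne' (by omega)
    · rw [map_sub, map_pow, Polynomial.aeval_X, ← hf, h]
  have hfadd : f = x ^ (Nat.card k ^ l) + -x := by rw [hf, sub_eq_add_neg]
  obtain ⟨D, hD⟩ : ∃ D : Place k K →₀ ℤ,
      D = divisor k f + (Nat.card k ^ l) • polar (k := k) x := ⟨_, rfl⟩
  have hDw : ∀ w, D w = w.ord f + (Nat.card k ^ l : ℕ) * max (- w.ord x) 0 := by
    intro w
    rw [hD, Finsupp.add_apply, Finsupp.smul_apply, divisor_apply, polar_apply, nsmul_eq_mul]
  have hreg : ∀ w : Place k K, w.Reg x → w.Reg f := by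
    intro w hw
    rw [hfadd]
    exact w.reg_add (reg_pow2 w hw _) (w.reg_neg hw)
  have hD0 : ∀ w, 0 ≤ D w := by
    intro w
    rw [hDw]
    by_cases hw : 0 ≤ w.ord x
    · have h1 : 0 ≤ w.ord f := (w.reg_iff hf0).1 (hreg w (Or.inr hw))
      have h2 : 0 ≤ ((Nat.card k ^ l : ℕ) : ℤ) * max (- w.ord x) 0 :=
        mul_nonneg (Int.natCast_nonneg _) (le_max_right _ _)
      omega
    · push Not at hw
      have h1 := w.ord_add (pow_ne_zero (Nat.card k ^ l) hx0) (neg_ne_zero.2 hx0)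
        (by rw [← hfadd]; exact hf0)
      rw [← hfadd, w.ord_pow, w.ord_neg] at h1
      rw [max_eq_left (by omega)]
      have h3 : ((Nat.card k ^ l : ℕ) : ℤ) * w.ord x ≤ w.ord x := by
        have h4 : (1 : ℤ) ≤ ((Nat.card k ^ l : ℕ) : ℤ) := by exact_mod_cast (by omega : 1 ≤ Nat.card k ^ l)
        nlinarith
      rw [min_eq_left h3] at h1
      have h5 : ((Nat.card k ^ l : ℕ) : ℤ) * (- w.ord x) = - (((Nat.card k ^ l : ℕ) : ℤ) * w.ord x) := by
        ring
      rw [h5]
      omega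
  have hD1 : ∀ w ∈ S.filter (fun w => w.Reg x), 1 ≤ D w := by
    intro w hw
    obtain ⟨h1, h2⟩ := Finset.mem_filter.1 hw
    have h3 : w.red f = 0 := by
      rw [hf, w.red_sub (reg_pow2 w h2 _) h2, w.red_pow h2, ← hS w h1, pow_card_red, sub_self]
    rw [w.red_eq_zero_iff (hreg w h2)] at h3
    have h4 : 0 < w.ord f := h3.resolve_left hf0
    rw [hDw]
    have h5 : 0 ≤ ((Nat.card k ^ l : ℕ) : ℤ) * max (- w.ord x) 0 :=
      mul_nonneg (Int.natCast_nonneg _) (le_max_right _ _)
    omega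
  have h1 : ((S.filter (fun w => w.Reg x)).card : ℤ) * l ≤ (Nat.card k ^ l : ℕ) * (H : ℤ) := by
    have h2 : ∑ w ∈ S.filter (fun w => w.Reg x), (l : ℤ) ≤
        ∑ w ∈ S.filter (fun w => w.Reg x), D w * w.deg := by
      apply Finset.sum_le_sum
      intro w hw
      have h3 := hD1 w hw
      have h4 := hS w (Finset.mem_filter.1 hw).1
      rw [h4]
      have h5 : (0 : ℤ) ≤ l := Int.natCast_nonneg _
      nlinarith
    have h3 : ∑ w ∈ S.filter (fun w => w.Reg x), D w * w.deg ≤ ddeg D := by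
      unfold ddeg Finsupp.sum
      apply Finset.sum_le_sum_of_subset_of_nonneg
      · intro w hw
        rw [Finsupp.mem_support_iff]
        have := hD1 w hw
        omega
      · intro w _ _
        exact mul_nonneg (hD0 w) (by positivity)
    have h4 : ddeg D = (Nat.card k ^ l : ℕ) * (H : ℤ) := by
      rw [hD, ddeg_add, ddeg_divisor, zero_add, ddeg_nsmul, hH]
    rw [Finset.sum_const, nsmul_eq_mul] at h2
    exact (h2.trans h3).trans h4.le
  have h2 : (S.filter (fun w => ¬ w.Reg x)).card ≤ In.card := by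
    apply Finset.card_le_card
    intro w hw
    rw [hIn]
    intro h
    exact (Finset.mem_filter.1 hw).2 (Or.inr h.ge)
  have h3 : S.card = (S.filter (fun w => w.Reg x)).card + (S.filter (fun w => ¬ w.Reg x)).card :=
    (Finset.card_filter_add_card_filter_not _).symm
  have h4 : l * S.card ≤ (H + In.card) * Nat.card k ^ l := by
    have h5 : (S.filter (fun w => w.Reg x)).card * l ≤ Nat.card k ^ l * H := by exact_mod_cast h1
    have h6 : l * (S.filter (fun w => ¬ w.Reg x)).card ≤ Nat.card k ^ l * In.card :=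
      Nat.mul_le_mul hlq h2
    rw [h3]
    nlinarith
  exact_mod_cast h4

/-- the number of places of degree `l` -/
noncomputable def Np (k K : Type) [Field k] [Field K] [Algebra k K] (l : ℕ) : ℕ :=
  {P : Place k K | P.deg = l}.ncard

theorem fin_deg [FF.IsFF k K] (l : ℕ) : {P : Place k K | P.deg = l}.Finite :=
  (finite_deg (k := k) (F := K) l).subset (fun P (hP : P.deg = l) => hP.le)

theorem card_le_Np [FF.IsFF k K] (l : ℕ) (S : Finset (Place k K)) (hS : ∀ P ∈ S, P.deg = l) :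
    S.card ≤ Np k K l := by
  unfold Np
  rw [← Set.ncard_coe_finset]
  exact Set.ncard_le_ncard (fun P hP => hS P (Finset.mem_coe.1 hP)) (fin_deg l)

theorem exists_Np [FF.IsFF k K] (l : ℕ) : ∃ S : Finset (Place k K), (∀ P, P ∈ S ↔ P.deg = l) ∧
    S.card = Np k K l := by
  refine ⟨(fin_deg (k := k) (K := K) l).toFinset, fun P => ?_, ?_⟩
  · rw [Set.Finite.mem_toFinset, Set.mem_setOf_eq]
  · unfold Np
    rw [Set.ncard_eq_toFinset_card _ (fin_deg l)]

theorem Np_zero [FF.IsFF k K] : Np k K 0 = 0 := by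
  obtain ⟨S, h1, h2⟩ := exists_Np (k := k) (K := K) 0
  rw [← h2, Finset.card_eq_zero, Finset.eq_empty_iff_forall_notMem]
  intro P hP
  have := deg_pos P
  have := (h1 P).1 hP
  omega

/-- The sum over the places, by degrees. -/
theorem sum_Np [FF.IsFF k K] (u : ℝ) (hs : Summable (fun P : Place k K => u ^ P.deg)) :
    Summable (fun l : ℕ => (Np k K l : ℝ) * u ^ l) ∧
      ∑' l : ℕ, (Np k K l : ℝ) * u ^ l = ∑' P : Place k K, u ^ P.deg := by
  let e := Equiv.sigmaFiberEquiv (fun P : Place k K => P.deg)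
  have h1 : Summable (fun x : Σ l : ℕ, {P : Place k K // P.deg = l} => u ^ (e x).deg) :=
    (e.summable_iff (f := fun P : Place k K => u ^ P.deg)).2 hs
  have h2 : ∀ l : ℕ, ∑' P : {P : Place k K // P.deg = l}, u ^ (e ⟨l, P⟩).deg =
      (Np k K l : ℝ) * u ^ l := by
    intro l
    have h3 : ∀ P : {P : Place k K // P.deg = l}, u ^ (e ⟨l, P⟩).deg = u ^ l := by
      intro P
      have h4 : (e ⟨l, P⟩).deg = l := P.2
      rw [h4]
    rw [tsum_congr h3, tsum_const, nsmul_eq_mul]
    rfl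
  constructor
  · exact h1.sigma.congr h2
  · rw [← e.tsum_eq (fun P : Place k K => u ^ P.deg), h1.tsum_sigma]
    exact tsum_congr fun l => (h2 l).symm

/-! ### The primes outside `B` -/

theorem eq_le [FF.IsFF k K] (R : GFR k K) (B : Finset (PV K)) (l : ℕ) :
    ((sysB R B).eq l).card ≤ Np k K l := by
  have h1 : (((sysB R B).eq l).image (fun p : Ob B => ep k p.1)).card =
      ((sysB R B).eq l).card :=
    Finset.card_image_of_injective _ (fun p p' h => Subtype.ext ((ep k).injective h))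
  rw [← h1]
  apply card_le_Np
  intro P hP
  obtain ⟨p, hp, rfl⟩ := Finset.mem_image.1 hP
  have h2 : (sysB R B).deg p = l := (Finset.mem_filter.1 hp).2
  rw [← deg_ep R p.1]
  exact h2

theorem le_eq [FF.IsFF k K] (R : GFR k K) (B : Finset (PV K)) (l : ℕ) :
    Np k K l ≤ ((sysB R B).eq l).card + (B.filter (fun j => R.deg j = l)).card := by
  obtain ⟨S, h1, h2⟩ := exists_Np (k := k) (K := K) l
  rw [← h2]
  have h3 : S ⊆ ((sysB R B).eq l).image (fun p : Ob B => ep k p.1) ∪
      (B.filter (fun j => R.deg j = l)).image (ep k) := by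
    intro P hP
    have hd : R.deg ((ep k).symm P) = l := by
      rw [deg_ep R, Equiv.apply_symm_apply]
      exact (h1 P).1 hP
    rw [Finset.mem_union]
    by_cases hB : (ep k).symm P ∈ B
    · right
      refine Finset.mem_image.2 ⟨(ep k).symm P, Finset.mem_filter.2 ⟨hB, hd⟩, ?_⟩
      exact Equiv.apply_symm_apply _ _
    · left
      refine Finset.mem_image.2 ⟨⟨(ep k).symm P, hB⟩, ?_, Equiv.apply_symm_apply _ _⟩
      refine Finset.mem_filter.2 ⟨((sysB R B).mem_le l _).2 ?_, hd⟩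
      exact hd.le
  refine (Finset.card_le_card h3).trans ((Finset.card_union_le _ _).trans ?_)
  exact Nat.add_le_add Finset.card_image_le Finset.card_image_le

/-- The sets of primes outside `B`. -/
theorem many_pl [FF.IsFF k K] (R : GFR k K) (B : Finset (PV K)) :
    ∃ (δ : ℝ) (W n₀ : ℕ), 0 < δ ∧ ∀ n, n₀ ≤ n → ∃ n' ≤ n, n ≤ n' + W ∧
      δ * (Nat.card k : ℝ) ^ n' ≤ (((sysB R B).UU n').card : ℝ) := by
  obtain ⟨C, hC, hup⟩ := upper (k := k) (F := K)
  obtain ⟨c, e, m₀, hc, he, hlo⟩ := lower (k := k) (F := K)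
  have hq := two_le (k := k)
  have hA : ∀ d : ℕ, ((finite_eff (k := k) (F := K) d).toFinset.card : ℝ) = AA k K d := by
    intro d
    unfold AA
    rw [Set.ncard_eq_toFinset_card _ (finite_eff d)]
  obtain ⟨δ, k₀, hδ, hm⟩ := many_abs (fun P : Place k K => P.deg) (Nat.card k) hq
    (fun d => (finite_eff (k := k) (F := K) d).toFinset)
    (fun n E => by
      rw [Set.Finite.mem_toFinset, Set.mem_setOf_eq]
      rfl) C c hC hc
    (fun n => by rw [hA]; exact hup n) e m₀ (fun m hm => by rw [hA]; exact hlo m hm)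
  let B' : Finset (Place k K) := B.image (ep k)
  refine ⟨δ / 2 ^ B'.card, e + 2 * k₀ + ∑ P ∈ B', P.deg, m₀ * e, by positivity, ?_⟩
  intro n hn
  have hme : n / e * e ≤ n := Nat.div_mul_le_self n e
  have hme2 : n < n / e * e + e := by
    have := Nat.lt_div_mul_add he (a := n)
    exact this
  have hmm : m₀ ≤ n / e := (Nat.le_div_iff_mul_le he).2 hn
  obtain ⟨n₁, h1, h2, 𝒰, h3, h4⟩ := hm (n / e) hmm
  obtain ⟨n₂, h5, h6, 𝒱, h7, h8⟩ := many_B (fun P : Place k K => P.deg) (Nat.card k) hq B' δ hδ n₁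
    𝒰 h3 h4
  refine ⟨n₂, by omega, by omega, h8.trans ?_⟩
  -- transfer
  let g : Finset (Place k K) → Finset (Ob B) := fun V =>
    (V.map (ep k).symm.toEmbedding).subtype (fun j => j ∉ B)
  have hg : ∀ V ∈ 𝒱, (g V).map (Function.Embedding.subtype _) = V.map (ep k).symm.toEmbedding := by
    intro V hV
    apply Finset.subtype_map_of_mem
    intro j hj hjB
    obtain ⟨P, hP, hPj⟩ := Finset.mem_map.1 hj
    have h9 : P ∈ B' := by
      refine Finset.mem_image.2 ⟨j, hjB, ?_⟩
      rw [← hPj]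
      exact Equiv.apply_symm_apply _ _
    exact Finset.disjoint_left.1 (h7 V hV).1 hP h9
  have hcard : 𝒱.card ≤ ((sysB R B).UU n₂).card := by
    refine Finset.card_le_card_of_injOn g ?_ ?_
    · intro V hV
      have hV' := Finset.mem_coe.1 hV
      have hdg : (sysB R B).dg (g V) = n₂ := by
        have h10 : (sysB R B).dg (g V) =
            ∑ j ∈ (g V).map (Function.Embedding.subtype (fun j => j ∉ B)), R.deg j := by
          rw [Finset.sum_map]
          rfl
        rw [h10, hg V hV', Finset.sum_map, ← (h7 V hV').2]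
        refine Finset.sum_congr rfl fun P _ => ?_
        rw [deg_ep R]
        show (ep k ((ep k).symm P)).deg = P.deg
        rw [Equiv.apply_symm_apply]
      refine Finset.mem_coe.2 (Finset.mem_filter.2 ⟨Finset.mem_powerset.2 ?_, hdg⟩)
      intro p hp
      refine ((sysB R B).mem_le n₂ p).2 ?_
      rw [← hdg]
      exact Finset.single_le_sum (f := fun p => (sysB R B).deg p) (fun _ _ => Nat.zero_le _) hp
    · intro V hV V' hV' h
      have h11 : g V = g V' := h
      have h12 := hg V (Finset.mem_coe.1 hV)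
      rw [h11, hg V' (Finset.mem_coe.1 hV')] at h12
      exact (Finset.map_injective _ h12).symm
  exact_mod_cast hcard

end plc

theorem Icc_eq (N : ℕ) : Icc 1 N = Ioc 0 N := by
  ext l
  rw [mem_Icc, mem_Ioc]
  omega

theorem pkg (h : S_TAUB) : S_PKG := by
  intro k K _ _ _ _ _ _ hFF R B
  haveI : FF.IsFF k K := isFF' hFF
  have hq := Pool.Agent.H467.MR.Zeta.two_le (k := k)
  have hq0 : (0 : ℝ) < Nat.card k := by exact_mod_cast (by omega : 0 < Nat.card k)
  obtain ⟨C₁, hC₁, hup⟩ := up_pl (k := k) (K := K)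
  obtain ⟨C₂, hC₂⟩ := Pool.Agent.H467.MR.Zeta.places_sum k K
  obtain ⟨δ, W, n₀, hδ, hmany⟩ := many_pl R B
  have hupN : ∀ l : ℕ, (l : ℝ) * (Np k K l : ℝ) ≤ C₁ * (Nat.card k : ℝ) ^ l := by
    intro l
    obtain ⟨S, h1, h2⟩ := exists_Np (k := k) (K := K) l
    rw [← h2]
    exact hup l S (fun P hP => (h1 P).1 hP)
  obtain ⟨C₃, hC₃⟩ := h (Nat.card k) (max C₁ C₂) 1 (fun l => (Np k K l : ℝ)) hq
    (fun l => Nat.cast_nonneg _) (by rw [Np_zero, Nat.cast_zero])
    (fun l => (hupN l).trans (mul_le_mul_of_nonneg_right (le_max_left _ _) (by positivity)))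
    (fun u hu hqu => by
      obtain ⟨h1, h2⟩ := hC₂ u hu hqu
      obtain ⟨h3, h4⟩ := sum_Np u h1
      refine ⟨h3, ?_⟩
      rw [h4, one_mul]
      exact h2.trans (le_max_right _ _))
  -- sums up to N
  have hG : ∀ N : ℕ, |∑ l ∈ Icc 1 N, (Np k K l : ℝ) / (Nat.card k : ℝ) ^ l -
      Real.log ((N : ℝ) + 1)| ≤ |C₃| + 1 := by
    intro N
    rcases Nat.eq_zero_or_pos N with hN | hN
    · rw [hN, Nat.cast_zero, zero_add, Real.log_one, sub_zero,
        Finset.Icc_eq_empty_of_lt Nat.zero_lt_one, Finset.sum_empty, abs_zero]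
      positivity
    · have h1 := (hC₃ N hN).trans (le_abs_self C₃)
      rw [one_mul] at h1
      have hN0 : (0 : ℝ) < N := by exact_mod_cast hN
      have hN1 : (1 : ℝ) ≤ N := by exact_mod_cast hN
      have h2 : Real.log ((N : ℝ) + 1) - Real.log N ≤ 1 := by
        rw [← Real.log_div (by positivity) (by positivity)]
        have h3 := Real.log_le_sub_one_of_pos (x := ((N : ℝ) + 1) / N) (by positivity)
        have h4 : ((N : ℝ) + 1) / N - 1 = 1 / N := by field_simp; ring
        have h5 : 1 / (N : ℝ) ≤ 1 := by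
          rw [div_le_one hN0]
          exact hN1
        linarith
      have h3 : Real.log N ≤ Real.log ((N : ℝ) + 1) := Real.log_le_log hN0 (by linarith)
      rw [abs_le] at h1 ⊢
      constructor <;> linarith [h1.1, h1.2]
  have hsub : ∀ x Y : ℕ, x ≤ Y → ∑ l ∈ Ioc x Y, (Np k K l : ℝ) / (Nat.card k : ℝ) ^ l =
      ∑ l ∈ Icc 1 Y, (Np k K l : ℝ) / (Nat.card k : ℝ) ^ l -
        ∑ l ∈ Icc 1 x, (Np k K l : ℝ) / (Nat.card k : ℝ) ^ l := by
    intro x Y hxY
    rw [Icc_eq, Icc_eq, ← Finset.sum_Ioc_consecutive _ (Nat.zero_le x) hxY]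
    ring
  refine ⟨1 + C₁ + 2 * (|C₃| + 1) + B.card, min 1 (δ), W, n₀, ?_⟩
  have hC3 := abs_nonneg C₃
  have hBc : (0 : ℝ) ≤ B.card := Nat.cast_nonneg _
  refine ⟨hq, by linarith, lt_min one_pos hδ, ?_, ?_, ?_, ?_⟩
  · intro l
    have h1 : (((sysB R B).eq l).card : ℝ) ≤ (Np k K l : ℝ) := by exact_mod_cast eq_le R B l
    calc (l : ℝ) * (((sysB R B).eq l).card : ℝ) ≤ (l : ℝ) * (Np k K l : ℝ) :=
          mul_le_mul_of_nonneg_left h1 (Nat.cast_nonneg _)
      _ ≤ C₁ * (Nat.card k : ℝ) ^ l := hupN l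
      _ ≤ _ := mul_le_mul_of_nonneg_right (by linarith) (by positivity)
  · intro N hN
    have h1 : ∑ l ∈ Icc 1 N, (((sysB R B).eq l).card : ℝ) / (Nat.card k : ℝ) ^ l ≤
        ∑ l ∈ Icc 1 N, (Np k K l : ℝ) / (Nat.card k : ℝ) ^ l := by
      refine Finset.sum_le_sum fun l _ => div_le_div_of_nonneg_right ?_ (by positivity)
      exact_mod_cast eq_le R B l
    have h2 := (hC₃ N hN).trans (le_abs_self C₃)
    rw [one_mul, abs_le] at h2
    linarith [h2.2]
  · intro x Y hxY
    have hx0 : (0 : ℝ) < (x : ℝ) + 1 := by positivity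
    have hY0 : (0 : ℝ) < (Y : ℝ) + 1 := by positivity
    have hxY' : (x : ℝ) ≤ Y := by exact_mod_cast hxY
    have h1 : Real.log (((Y : ℝ) + 1) / ((x : ℝ) + 1)) =
        Real.log ((Y : ℝ) + 1) - Real.log ((x : ℝ) + 1) := Real.log_div hY0.ne' hx0.ne'
    have h2 : Real.log ((x : ℝ) + 1) ≤ Real.log ((Y : ℝ) + 1) :=
      Real.log_le_log hx0 (by linarith)
    have h3 : min 1 δ * Real.log (((Y : ℝ) + 1) / ((x : ℝ) + 1)) ≤
        Real.log ((Y : ℝ) + 1) - Real.log ((x : ℝ) + 1) := by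
      rw [h1]
      exact mul_le_of_le_one_left (by linarith) (min_le_left _ _)
    have h4 : ∑ l ∈ Ioc x Y, (Np k K l : ℝ) / (Nat.card k : ℝ) ^ l ≤
        ∑ l ∈ Ioc x Y, (((sysB R B).eq l).card : ℝ) / (Nat.card k : ℝ) ^ l + B.card := by
      have h5 : ∀ l ∈ Ioc x Y, (Np k K l : ℝ) / (Nat.card k : ℝ) ^ l ≤
          (((sysB R B).eq l).card : ℝ) / (Nat.card k : ℝ) ^ l +
            ((B.filter (fun j => R.deg j = l)).card : ℝ) := by
        intro l _
        have h6 : (Np k K l : ℝ) ≤ (((sysB R B).eq l).card : ℝ) +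
            ((B.filter (fun j => R.deg j = l)).card : ℝ) := by exact_mod_cast le_eq R B l
        have h7 : (1 : ℝ) ≤ (Nat.card k : ℝ) ^ l := by
          apply one_le_pow₀
          exact_mod_cast (by omega : 1 ≤ Nat.card k)
        have h8 : ((B.filter (fun j => R.deg j = l)).card : ℝ) / (Nat.card k : ℝ) ^ l ≤
            ((B.filter (fun j => R.deg j = l)).card : ℝ) :=
          div_le_self (Nat.cast_nonneg _) h7
        calc (Np k K l : ℝ) / (Nat.card k : ℝ) ^ l
            ≤ ((((sysB R B).eq l).card : ℝ) + ((B.filter (fun j => R.deg j = l)).card : ℝ)) /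
              (Nat.card k : ℝ) ^ l := div_le_div_of_nonneg_right h6 (by positivity)
          _ = (((sysB R B).eq l).card : ℝ) / (Nat.card k : ℝ) ^ l +
              ((B.filter (fun j => R.deg j = l)).card : ℝ) / (Nat.card k : ℝ) ^ l := add_div _ _ _
          _ ≤ _ := by linarith
      refine (Finset.sum_le_sum h5).trans ?_
      rw [Finset.sum_add_distrib]
      have h9 : ∑ l ∈ Ioc x Y, (B.filter (fun j => R.deg j = l)).card ≤ B.card := by
        have h10 := Finset.card_eq_sum_card_fiberwise (f := R.deg) (s := B.filter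
          (fun j => R.deg j ∈ Ioc x Y)) (t := Ioc x Y) (fun j hj => (Finset.mem_filter.1 hj).2)
        calc ∑ l ∈ Ioc x Y, (B.filter (fun j => R.deg j = l)).card
            = ∑ l ∈ Ioc x Y, ((B.filter (fun j => R.deg j ∈ Ioc x Y)).filter
              (fun j => R.deg j = l)).card := by
              refine Finset.sum_congr rfl fun l hl => ?_
              refine congrArg Finset.card ?_
              ext j
              rw [Finset.mem_filter, Finset.mem_filter, Finset.mem_filter]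
              exact ⟨fun h => ⟨⟨h.1, by rw [h.2]; exact hl⟩, h.2⟩, fun h => ⟨h.1.1, h.2⟩⟩
          _ = (B.filter (fun j => R.deg j ∈ Ioc x Y)).card := h10.symm
          _ ≤ B.card := Finset.card_filter_le _ _
      have h11 : ∑ l ∈ Ioc x Y, ((B.filter (fun j => R.deg j = l)).card : ℝ) ≤ B.card := by
        exact_mod_cast h9
      linarith
    have h12 := abs_le.1 (hG Y)
    have h13 := abs_le.1 (hG x)
    have h14 := hsub x Y hxY
    linarith [h12.1, h13.2]
  · intro n hn
    obtain ⟨n', h1, h2, h3⟩ := hmany n hn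
    refine ⟨n', h1, h2, le_trans ?_ h3⟩
    exact mul_le_mul_of_nonneg_right (min_le_right _ _) (by positivity)

end Pool.Agent.H467.PG.Pkg
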