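import Pool.Agent.H467.PG.SpecA

/-!
# Coranks of random square matrices over the field with two elements (helper376, for helper467)

The corank of `k` random columns of length `N` is a Markov chain: from `s` it stays with probability
`(1/2) ^ s` and goes to `s - 1` otherwise.
-/

set_option autoImplicit false

open Finset Filter Topology
open Pool.Agent.H467.PG
open scoped Classical

namespace Pool.Agent.H467.PG.Pnr

section count

/-- the space -/
abbrev V (N : ℕ) := Fin N → ZMod 2

/-- the linear form of a vector -/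
def dot {N : ℕ} (t : V N) : V N →ₗ[ZMod 2] ZMod 2 where
  toFun e := ∑ i, e i * t i
  map_add' e f := by simp only [Pi.add_apply, add_mul, Finset.sum_add_distrib]
  map_smul' c e := by simp only [Pi.smul_apply, smul_eq_mul, Finset.mul_sum, mul_assoc,
    RingHom.id_apply]

theorem dot_apply {N : ℕ} (t e : V N) : dot t e = ∑ i, e i * t i := rfl

/-- the same, linear in the vector -/
def dotL (N : ℕ) : V N →ₗ[ZMod 2] Module.Dual (ZMod 2) (V N) where
  toFun := dot
  map_add' s t := by
    refine LinearMap.ext fun e => ?_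
    change dot (s + t) e = dot s e + dot t e
    simp only [dot_apply, Pi.add_apply, mul_add, Finset.sum_add_distrib]
  map_smul' c t := by
    refine LinearMap.ext fun e => ?_
    change dot (c • t) e = c * dot t e
    simp only [dot_apply, Pi.smul_apply, smul_eq_mul, Finset.mul_sum]
    exact Finset.sum_congr rfl fun i _ => by ring

theorem dotL_inj (N : ℕ) : Function.Injective (dotL N) := by
  rw [← LinearMap.ker_eq_bot, LinearMap.ker_eq_bot']
  intro t ht
  funext i
  have h1 : dot t (Pi.single i 1) = 0 := by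
    have : dotL N t (Pi.single i 1) = 0 := by rw [ht]; rfl
    exact this
  rw [dot_apply] at h1
  simpa [Pi.single_apply] using h1

/-- the common kernel -/
def kr {N k : ℕ} (T : Fin k → V N) : Submodule (ZMod 2) (V N) := ⨅ j, LinearMap.ker (dot (T j))

theorem mem_kr {N k : ℕ} (T : Fin k → V N) (e : V N) :
    e ∈ kr T ↔ ∀ j, ∑ i, e i * T j i = 0 := by
  unfold kr
  rw [Submodule.mem_iInf]
  rfl

theorem card_sub {N : ℕ} (U : Submodule (ZMod 2) (V N)) :
    (U : Set (V N)).ncard = 2 ^ Module.finrank (ZMod 2) U := by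
  have h := Module.natCard_eq_pow_finrank (K := ZMod 2) (V := U)
  rw [Nat.card_zmod] at h
  exact h

theorem ncard_kr {N k : ℕ} (T : Fin k → V N) (r : ℕ) :
    {e : Fin N → ZMod 2 | ∀ j, ∑ i, e i * T j i = 0}.ncard = 2 ^ r ↔
      Module.finrank (ZMod 2) (kr T) = r := by
  have h1 : {e : Fin N → ZMod 2 | ∀ j, ∑ i, e i * T j i = 0} = (kr T : Set (V N)) := by
    ext e
    exact (mem_kr T e).symm
  rw [h1, card_sub]
  exact (Nat.pow_right_injective le_rfl).eq_iff

theorem kr_cons {N k : ℕ} (t : V N) (T : Fin k → V N) :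
    kr (Fin.cons t T : Fin (k + 1) → V N) = LinearMap.ker (dot t) ⊓ kr T := by
  ext e
  rw [mem_kr, Submodule.mem_inf, mem_kr, Fin.forall_fin_succ]
  rfl

theorem finrank_inf {N : ℕ} (U : Submodule (ZMod 2) (V N)) (t : V N)
    (h : ¬ U ≤ LinearMap.ker (dot t)) :
    Module.finrank (ZMod 2) (LinearMap.ker (dot t) ⊓ U : Submodule (ZMod 2) (V N)) + 1 =
      Module.finrank (ZMod 2) U := by
  set f : Module.Dual (ZMod 2) U := (dot t).comp U.subtype with hf
  have hf0 : f ≠ 0 := by
    intro h0
    apply h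
    intro e he
    have : f ⟨e, he⟩ = 0 := by rw [h0]; rfl
    exact this
  rw [← Module.Dual.finrank_ker_add_one_of_ne_zero hf0]
  congr 1
  have h1 : Submodule.map U.subtype (LinearMap.ker f) = LinearMap.ker (dot t) ⊓ U := by
    rw [hf, LinearMap.ker_comp, Submodule.map_comap_subtype, inf_comm]
  rw [← h1]
  exact Submodule.finrank_map_subtype_eq _ _

theorem card_perp {N : ℕ} (U : Submodule (ZMod 2) (V N)) :
    (Finset.univ.filter (fun t : V N => U ≤ LinearMap.ker (dot t))).card *
      2 ^ Module.finrank (ZMod 2) U = 2 ^ N := by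
  have h1 := Subspace.finrank_add_finrank_dualAnnihilator_eq U
  have hdim : Module.finrank (ZMod 2) (V N) = N := Module.finrank_fin_fun _
  have hbij : Function.Bijective (dotL N) := by
    refine ⟨dotL_inj N, ?_⟩
    have := LinearMap.injective_iff_surjective_of_finrank_eq_finrank (f := dotL N)
      (Subspace.dual_finrank_eq (K := ZMod 2) (V := V N)).symm
    exact this.1 (dotL_inj N)
  set E := LinearEquiv.ofBijective (dotL N) hbij with hE
  have h2 : Module.finrank (ZMod 2) (U.dualAnnihilator.comap (dotL N)) =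
      Module.finrank (ZMod 2) U.dualAnnihilator := by
    have h3 : Submodule.map (dotL N) (U.dualAnnihilator.comap (dotL N)) = U.dualAnnihilator :=
      Submodule.map_comap_eq_of_surjective hbij.2 _
    have h5 := E.finrank_map_eq (U.dualAnnihilator.comap (dotL N))
    have h6 : (E : V N →ₗ[ZMod 2] Module.Dual (ZMod 2) (V N)) = dotL N := LinearMap.ext fun _ => rfl
    rw [h6, h3] at h5
    exact h5.symm
  have h4 : (Finset.univ.filter (fun t : V N => U ≤ LinearMap.ker (dot t))).card =
      2 ^ Module.finrank (ZMod 2) (U.dualAnnihilator.comap (dotL N)) := by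
    rw [← card_sub, ← Set.ncard_coe_finset]
    congr 1
    ext t
    simp only [Finset.coe_filter, Finset.mem_univ, true_and, Set.mem_ofPred_eq, SetLike.mem_coe,
      Submodule.mem_comap, Submodule.mem_dualAnnihilator]
    rfl
  rw [h4, h2, ← pow_add, add_comm, h1, hdim]

/-- one step -/
theorem step {N : ℕ} (U : Submodule (ZMod 2) (V N)) (r : ℕ) :
    ∑ t : V N, (if Module.finrank (ZMod 2)
        (LinearMap.ker (dot t) ⊓ U : Submodule (ZMod 2) (V N)) = r then (1 : ℝ) else 0) =
      2 ^ N * ((if Module.finrank (ZMod 2) U = r then (1 / 2 : ℝ) ^ r else 0) +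
        (if Module.finrank (ZMod 2) U = r + 1 then 1 - (1 / 2 : ℝ) ^ (r + 1) else 0)) := by
  set s := Module.finrank (ZMod 2) U with hs
  have h1 : ∀ t : V N, (if Module.finrank (ZMod 2)
      (LinearMap.ker (dot t) ⊓ U : Submodule (ZMod 2) (V N)) = r then (1 : ℝ) else 0) =
      (if U ≤ LinearMap.ker (dot t) then (1 : ℝ) else 0) * (if s = r then 1 else 0) +
      (1 - if U ≤ LinearMap.ker (dot t) then (1 : ℝ) else 0) * (if s = r + 1 then 1 else 0) := by
    intro t
    by_cases h : U ≤ LinearMap.ker (dot t)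
    · rw [inf_eq_right.2 h, if_pos h, ← hs]
      ring
    · have h2 := finrank_inf U t h
      rw [← hs] at h2
      rw [if_neg h]
      by_cases h3 : s = r + 1
      · rw [if_pos h3, if_pos (by omega)]
        ring
      · rw [if_neg h3, if_neg (by omega)]
        ring
  have h4 : ∑ t : V N, (if U ≤ LinearMap.ker (dot t) then (1 : ℝ) else 0) =
      2 ^ N * (1 / 2 : ℝ) ^ s := by
    rw [Finset.sum_boole]
    have h5 := card_perp U
    rw [← hs] at h5
    have h6 : ((Finset.univ.filter (fun t : V N => U ≤ LinearMap.ker (dot t))).card : ℝ) *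
        2 ^ s = 2 ^ N := by exact_mod_cast h5
    rw [← h6, mul_assoc, ← mul_pow]
    norm_num
  have h7 : ((Finset.univ : Finset (V N)).card : ℝ) = 2 ^ N := by
    rw [Finset.card_univ, Fintype.card_fun, ZMod.card, Fintype.card_fin]
    push_cast
    rfl
  rw [Finset.sum_congr rfl fun t _ => h1 t, Finset.sum_add_distrib, ← Finset.sum_mul,
    ← Finset.sum_mul, Finset.sum_sub_distrib, h4, Finset.sum_const, nsmul_eq_mul, h7, mul_one]
  by_cases h8 : s = r
  · rw [if_pos h8, if_pos h8, if_neg (by omega), if_neg (by omega), h8]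
    ring
  · rw [if_neg h8, if_neg h8]
    by_cases h9 : s = r + 1
    · rw [if_pos h9, if_pos h9, h9]
      ring
    · rw [if_neg h9, if_neg h9]
      ring

/-- the probability of the corank `r` -/
noncomputable def w (N k r : ℕ) : ℝ :=
  (∑ T : Fin k → V N, if Module.finrank (ZMod 2) (kr T) = r then (1 : ℝ) else 0) / 2 ^ (N * k)

theorem w_zero (N r : ℕ) : w N 0 r = if N = r then 1 else 0 := by
  unfold w
  have h1 : ∀ T : Fin 0 → V N, Module.finrank (ZMod 2) (kr T) = N := by
    intro T
    have h2 : kr T = ⊤ := by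
      rw [eq_top_iff]
      intro e _
      rw [mem_kr]
      exact fun j => j.elim0
    rw [h2, finrank_top]
    exact Module.finrank_fin_fun _
  rw [mul_zero, pow_zero, div_one, Finset.sum_congr rfl fun T _ => by rw [h1 T]]
  rw [Finset.sum_const, Finset.card_univ, Fintype.card_unique, one_smul]

theorem w_succ (N k r : ℕ) :
    w N (k + 1) r = w N k r * (1 / 2) ^ r + w N k (r + 1) * (1 - (1 / 2) ^ (r + 1)) := by
  unfold w
  have h1 : ∑ T : Fin (k + 1) → V N, (if Module.finrank (ZMod 2) (kr T) = r then (1 : ℝ) else 0) =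
      ∑ T : Fin k → V N, ∑ t : V N, (if Module.finrank (ZMod 2)
        (LinearMap.ker (dot t) ⊓ kr T : Submodule (ZMod 2) (V N)) = r then (1 : ℝ) else 0) := by
    rw [Finset.sum_comm, ← Finset.sum_product', Finset.univ_product_univ]
    refine (Fintype.sum_equiv (Fin.consEquiv (fun _ => V N)) _ _ ?_).symm
    rintro ⟨t, T⟩
    change _ = if Module.finrank (ZMod 2) (kr (Fin.cons t T : Fin (k + 1) → V N)) = r
      then (1 : ℝ) else 0
    rw [kr_cons]
  rw [h1, Finset.sum_congr rfl fun T _ => step (kr T) r, ← Finset.mul_sum,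
    Finset.sum_add_distrib]
  have h2 : ∀ (s : ℕ) (c : ℝ), ∑ T : Fin k → V N,
      (if Module.finrank (ZMod 2) (kr T) = s then c else 0) =
      (∑ T : Fin k → V N, if Module.finrank (ZMod 2) (kr T) = s then (1 : ℝ) else 0) * c := by
    intro s c
    rw [Finset.sum_mul]
    refine Finset.sum_congr rfl fun T _ => ?_
    split_ifs <;> ring
  rw [h2 r ((1 / 2) ^ r), h2 (r + 1) (1 - (1 / 2) ^ (r + 1))]
  generalize (∑ T : Fin k → V N,
    if Module.finrank (ZMod 2) (kr T) = r then (1 : ℝ) else 0) = A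
  generalize (∑ T : Fin k → V N,
    if Module.finrank (ZMod 2) (kr T) = r + 1 then (1 : ℝ) else 0) = B
  have h3 : N * (k + 1) = N + N * k := by ring
  rw [h3, pow_add (2 : ℝ) N (N * k), mul_div_mul_left _ _ (by positivity)]
  ring

end count

section form

/-- the finite product -/
noncomputable def A (n : ℕ) : ℝ := ∏ i ∈ Finset.range n, (1 - (1 / 2 : ℝ) ^ (i + 1))

theorem A_zero : A 0 = 1 := Finset.prod_range_zero _

theorem A_succ (n : ℕ) : A (n + 1) = A n * (1 - (1 / 2) ^ (n + 1)) := Finset.prod_range_succ _ _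

theorem half_lt (n : ℕ) : (1 / 2 : ℝ) ^ (n + 1) < 1 :=
  pow_lt_one₀ (by norm_num) (by norm_num) (Nat.succ_ne_zero n)

theorem A_pos (n : ℕ) : 0 < A n :=
  Finset.prod_pos fun i _ => sub_pos.2 (half_lt i)

theorem A_le_one (n : ℕ) : A n ≤ 1 := by
  refine Finset.prod_le_one (fun i _ => (sub_pos.2 (half_lt i)).le) fun i _ => ?_
  have : (0 : ℝ) < (1 / 2) ^ (i + 1) := by positivity
  linarith

/-- the closed form -/
noncomputable def cf (N k r : ℕ) : ℝ :=
  if r ≤ N ∧ N ≤ k + r then
    (1 / 2) ^ (r * (k + r - N)) * (A N * A k) / (A r * A (k + r - N) * A (N - r)) else 0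

theorem cf_pos {N k r m l : ℕ} (h1 : N = r + m) (h2 : k = m + l) :
    cf N k r = (1 / 2) ^ (r * l) * (A N * A k) / (A r * A l * A m) := by
  unfold cf
  have e1 : k + r - N = l := by omega
  have e2 : N - r = m := by omega
  rw [if_pos ⟨by omega, by omega⟩, e1, e2]

theorem cf_neg {N k r : ℕ} (h : ¬ (r ≤ N ∧ N ≤ k + r)) : cf N k r = 0 := if_neg h

theorem w_eq (N k r : ℕ) : w N k r = cf N k r := by
  induction k generalizing r with
  | zero =>
    rw [w_zero]
    by_cases h : N = r
    · subst h
      have h0 := (A_pos N).ne'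
      rw [if_pos rfl, cf_pos (N := N) (k := 0) (r := N) (m := 0) (l := 0) (by omega) (by omega),
        A_zero, mul_zero, pow_zero]
      field_simp
    · rw [if_neg h, cf_neg (by omega)]
  | succ k ih =>
    rw [w_succ, ih r, ih (r + 1)]
    by_cases h1 : r ≤ N
    · obtain ⟨m, rfl⟩ := Nat.exists_eq_add_of_le h1
      have a1 := (A_pos r).ne'
      have a5 : (1 - (1 / 2 : ℝ) ^ (r + 1)) ≠ 0 := (sub_pos.2 (half_lt r)).ne'
      rcases Nat.lt_trichotomy m (k + 1) with h2 | h2 | h2
      · -- `m ≤ k`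
        obtain ⟨l, rfl⟩ := Nat.exists_eq_add_of_le (Nat.lt_succ_iff.1 h2)
        have a2 := (A_pos l).ne'
        have a4 : (1 - (1 / 2 : ℝ) ^ (l + 1)) ≠ 0 := (sub_pos.2 (half_lt l)).ne'
        rw [cf_pos (N := r + m) (k := m + l) (r := r) rfl rfl,
          cf_pos (N := r + m) (k := m + l + 1) (r := r) (l := l + 1) rfl (by omega), A_succ l]
        rcases Nat.eq_zero_or_pos m with h3 | h3
        · subst h3
          rw [cf_neg (by omega), A_zero]
          have e4 : 0 + l = l := by omega
          rw [e4, A_succ l, mul_add r l 1, mul_one, pow_add]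
          field_simp
          ring
        · obtain ⟨m', rfl⟩ := Nat.exists_eq_add_of_le' h3
          have a3 := (A_pos m').ne'
          have a6 : (1 - (1 / 2 : ℝ) ^ (m' + 1)) ≠ 0 := (sub_pos.2 (half_lt m')).ne'
          rw [cf_pos (N := r + (m' + 1)) (k := m' + 1 + l) (r := r + 1) (m := m') (l := l + 1)
            (by omega) (by omega), A_succ (m' + 1 + l), A_succ l, A_succ m', A_succ r]
          have e6 : (1 / 2 : ℝ) ^ ((r + 1) * (l + 1)) =
              (1 / 2) ^ (r * (l + 1)) * (1 / 2) ^ (l + 1) := by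
            rw [← pow_add]; congr 1; ring
          have e7 : (1 / 2 : ℝ) ^ (r * (l + 1)) = (1 / 2) ^ (r * l) * (1 / 2) ^ r := by
            rw [← pow_add]; congr 1
          have e8 : (1 / 2 : ℝ) ^ (m' + 1 + l + 1) = (1 / 2) ^ (m' + 1) * (1 / 2) ^ (l + 1) := by
            rw [← pow_add]; rfl
          rw [e6, e7, e8]
          generalize (1 / 2 : ℝ) ^ (m' + 1) = y at *
          generalize (1 / 2 : ℝ) ^ (l + 1) = z at *
          generalize (1 / 2 : ℝ) ^ (r + 1) = u at *
          generalize (1 / 2 : ℝ) ^ (r * l) = v at *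
          generalize (1 / 2 : ℝ) ^ r = x at *
          generalize A (r + (m' + 1)) = B at *
          field_simp
          ring
      · -- `m = k + 1`
        subst h2
        have a2 := (A_pos k).ne'
        have a3 := (A_pos (k + 1)).ne'
        rw [cf_neg (k := k) (r := r) (by omega),
          cf_pos (N := r + (k + 1)) (k := k) (r := r + 1) (m := k) (l := 0) (by omega) (by omega),
          cf_pos (N := r + (k + 1)) (k := k + 1) (r := r) (m := k + 1) (l := 0) (by omega)
            (by omega), A_zero, mul_zero, mul_zero, pow_zero, A_succ r]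
        generalize (1 / 2 : ℝ) ^ (r + 1) = u at *
        field_simp
        ring
      · rw [cf_neg (k := k) (r := r) (by omega), cf_neg (k := k) (r := r + 1) (by omega),
          cf_neg (k := k + 1) (by omega)]
        ring
    · rw [cf_neg (k := k) (r := r) (by omega), cf_neg (k := k) (r := r + 1) (by omega),
        cf_neg (k := k + 1) (by omega)]
      ring

theorem pcr_eq_w (n r : ℕ) : pcr n r = w n n r := by
  unfold pcr w
  rw [Finset.sum_boole, sq]
  congr 2
  rw [← Set.ncard_coe_finset]
  congr 1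
  ext T
  simp only [Finset.coe_filter, Finset.mem_univ, true_and, Set.mem_ofPred_eq]
  exact ncard_kr T r

theorem pcr_eq (n r : ℕ) : pcr n r = if r ≤ n then
    (1 / 2) ^ (r ^ 2) * (A n * A n) / (A r * A r * A (n - r)) else 0 := by
  rw [pcr_eq_w, w_eq]
  unfold cf
  have e1 : n + r - n = r := by omega
  rw [e1, ← sq]
  by_cases h : r ≤ n
  · rw [if_pos ⟨h, by omega⟩, if_pos h]
  · rw [if_neg fun h' => h h'.1, if_neg h]

theorem w_nonneg (N k r : ℕ) : 0 ≤ w N k r := by
  unfold w
  refine div_nonneg (Finset.sum_nonneg fun T _ => ?_) (by positivity)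
  split_ifs <;> norm_num

theorem sum_w (N k : ℕ) : ∑ r ∈ Finset.range (N + 1), w N k r = 1 := by
  unfold w
  rw [← Finset.sum_div, Finset.sum_comm]
  have h1 : ∀ T : Fin k → V N, ∑ r ∈ Finset.range (N + 1),
      (if Module.finrank (ZMod 2) (kr T) = r then (1 : ℝ) else 0) = 1 := by
    intro T
    rw [Finset.sum_ite_eq, if_pos]
    rw [Finset.mem_range]
    have h2 := Submodule.finrank_le (kr T)
    rw [Module.finrank_fin_fun] at h2
    omega
  rw [Finset.sum_congr rfl fun T _ => h1 T, Finset.sum_const, Finset.card_univ, nsmul_eq_mul,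
    mul_one, Fintype.card_fun, Fintype.card_fun, ZMod.card, Fintype.card_fin, Fintype.card_fin,
    ← pow_mul]
  push_cast
  exact div_self (by positivity)

end form

section limit

/-- the infinite product -/
noncomputable def AI : ℝ := ∏' i : ℕ, (1 - (1 / 2 : ℝ) ^ (i + 1))

theorem tendsto_A : Tendsto A atTop (𝓝 AI) := by
  have h1 : Summable (fun i : ℕ => -(1 / 2 : ℝ) ^ (i + 1)) := by
    refine Summable.neg ?_
    exact (summable_nat_add_iff 1).2 (summable_geometric_of_lt_one (by norm_num) (by norm_num))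
  have h2 := (Real.multipliable_one_add_of_summable h1).hasProd.tendsto_prod_nat
  have h3 : (fun n => ∏ i ∈ Finset.range n, (1 + -(1 / 2 : ℝ) ^ (i + 1))) = A := by
    funext n
    exact Finset.prod_congr rfl fun i _ => by ring
  have h4 : ∏' i : ℕ, (1 + -(1 / 2 : ℝ) ^ (i + 1)) = AI :=
    tprod_congr fun i => by ring
  rw [h3, h4] at h2
  exact h2

theorem A_lower (n : ℕ) : A 10 * (1 - (1 / 2) ^ 10 + (1 / 2) ^ (n + 10)) ≤ A (n + 10) := by
  induction n with
  | zero =>
    simp
  | succ n ih =>
    have e : n + 1 + 10 = n + 10 + 1 := by ring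
    rw [e, A_succ (n + 10)]
    have h1 : (1 / 2 : ℝ) ^ (n + 10 + 1) = (1 / 2) ^ (n + 10) / 2 := by
      rw [pow_succ]; ring
    have h2 : (0 : ℝ) < (1 / 2) ^ (n + 10) := by positivity
    have h3 : (1 / 2 : ℝ) ^ (n + 10) ≤ (1 / 2) ^ 10 :=
      pow_le_pow_of_le_one (by norm_num) (by norm_num) (by omega)
    have h4 := A_pos 10
    have h5 : (1 / 2 : ℝ) ^ 10 ≤ 1 / 2 := by norm_num
    rw [h1]
    generalize (1 / 2 : ℝ) ^ (n + 10) = x at *
    generalize (1 / 2 : ℝ) ^ 10 = y at *
    have h6 : 0 ≤ (y - x) * x := mul_nonneg (by linarith) h2.le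
    calc A 10 * (1 - y + x / 2) ≤ A 10 * (1 - y + x) * (1 - x / 2) := by
          rw [mul_assoc]
          refine mul_le_mul_of_nonneg_left ?_ h4.le
          nlinarith
      _ ≤ A (n + 10) * (1 - x / 2) := by
          refine mul_le_mul_of_nonneg_right ih ?_
          linarith

theorem A_ten : (288 / 1000 : ℝ) < A 10 * (1 - (1 / 2) ^ 10) := by
  unfold A
  simp only [Finset.prod_range_succ, Finset.prod_range_zero]
  norm_num

theorem AI_lower : (288 / 1000 : ℝ) < AI := by
  refine A_ten.trans_le ?_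
  refine ge_of_tendsto tendsto_A ?_
  filter_upwards [eventually_ge_atTop 10] with n hn
  obtain ⟨k, rfl⟩ := Nat.exists_eq_add_of_le' hn
  refine le_trans ?_ (A_lower k)
  have h1 := A_pos 10
  have h2 : (0 : ℝ) < (1 / 2) ^ (k + 10) := by positivity
  nlinarith

theorem A_anti : Antitone A := by
  refine antitone_nat_of_succ_le fun n => ?_
  rw [A_succ]
  have h1 := A_pos n
  have h2 : (0 : ℝ) < (1 / 2) ^ (n + 1) := by positivity
  nlinarith

theorem A_ge (n : ℕ) : (288 / 1000 : ℝ) ≤ A n :=
  AI_lower.le.trans (A_anti.le_of_tendsto tendsto_A n)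

theorem alp_eq (r : ℕ) : alp r = (1 / 2) ^ (r ^ 2) * (AI * AI) / (A r * A r * AI) := by
  unfold alp
  have h1 : ∏ i ∈ Finset.range r, (1 - (1 / 2 : ℝ) ^ (i + 1)) ^ 2 = A r * A r := by
    rw [Finset.prod_pow, sq]
    rfl
  have h2 : AI ≠ 0 := by have := AI_lower; linarith
  have h3 := (A_pos r).ne'
  rw [h1]
  change (1 / 2) ^ r ^ 2 * AI / (A r * A r) = _
  field_simp

theorem tendsto_pcr (r : ℕ) : Tendsto (fun n => pcr n r) atTop (𝓝 (alp r)) := by
  rw [alp_eq]
  have h2 : AI ≠ 0 := by have := AI_lower; linarith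
  have h3 := (A_pos r).ne'
  have h4 : Tendsto (fun n => A (n - r)) atTop (𝓝 AI) := tendsto_A.comp (tendsto_sub_atTop_nat r)
  have h5 : Tendsto (fun n => (1 / 2 : ℝ) ^ (r ^ 2) * (A n * A n) / (A r * A r * A (n - r)))
      atTop (𝓝 ((1 / 2) ^ (r ^ 2) * (AI * AI) / (A r * A r * AI))) := by
    refine Tendsto.div ?_ (h4.const_mul _) (by positivity)
    exact (tendsto_A.mul tendsto_A).const_mul _
  refine h5.congr' ?_
  filter_upwards [eventually_ge_atTop r] with n hn
  rw [pcr_eq, if_pos hn]

theorem pcr_nonneg (n r : ℕ) : 0 ≤ pcr n r := by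
  unfold pcr
  positivity

theorem pcr_le (n r : ℕ) : pcr n r ≤ 50 * (1 / 2) ^ r := by
  rw [pcr_eq]
  split_ifs with h
  · have h1 := A_ge r
    have h2 := A_ge (n - r)
    have h3 := A_le_one n
    have h4 := (A_pos n).le
    have h5 : (1 / 2 : ℝ) ^ (r ^ 2) ≤ (1 / 2) ^ r := by
      refine pow_le_pow_of_le_one (by norm_num) (by norm_num) ?_
      nlinarith [Nat.zero_le r, Nat.le_self_pow two_ne_zero r]
    have h6 : (288 / 1000 : ℝ) * (288 / 1000) * (288 / 1000) ≤ A r * A r * A (n - r) := by
      have : (288 / 1000 : ℝ) * (288 / 1000) ≤ A r * A r := by nlinarith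
      nlinarith
    have h7 : (0 : ℝ) < (1 / 2) ^ r := by positivity
    have h8 : A n * A n ≤ 1 := by nlinarith
    have h9 : 0 ≤ A n * A n := by positivity
    rw [div_le_iff₀ (by linarith)]
    calc (1 / 2 : ℝ) ^ (r ^ 2) * (A n * A n) ≤ (1 / 2) ^ r * 1 := by gcongr
      _ ≤ 50 * (1 / 2) ^ r * (A r * A r * A (n - r)) := by nlinarith
  · positivity

theorem tsum_pcr (n : ℕ) : ∑' r, pcr n r = 1 := by
  rw [tsum_eq_sum (s := Finset.range (n + 1)), ← sum_w n n]
  · exact Finset.sum_congr rfl fun r _ => pcr_eq_w n r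
  · intro r hr
    rw [Finset.mem_range, not_lt] at hr
    rw [pcr_eq, if_neg (by omega)]

end limit

/-- The distribution of the coranks of random square matrices. -/
theorem pnr : S_PNR := by
  refine ⟨tendsto_pcr, ?_, ?_⟩
  · rw [alp_eq]
    have h1 := AI_lower
    have h2 : AI ≠ 0 := by linarith
    have h3 : (1 / 2 : ℝ) ^ (0 ^ 2) * (AI * AI) / (A 0 * A 0 * AI) = AI := by
      rw [A_zero]
      field_simp
      norm_num
    rw [h3]
    exact h1
  · have hb : Summable (fun r : ℕ => 50 * (1 / 2 : ℝ) ^ r) :=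
      (summable_geometric_of_lt_one (by norm_num) (by norm_num)).mul_left _
    have h1 : Tendsto (fun n : ℕ => ∑' r, pcr n r) atTop (𝓝 (∑' r, alp r)) := by
      refine tendsto_tsum_of_dominated_convergence hb tendsto_pcr ?_
      refine Eventually.of_forall fun n r => ?_
      rw [Real.norm_eq_abs, abs_of_nonneg (pcr_nonneg n r)]
      exact pcr_le n r
    have h2 : ∑' r, alp r = 1 := by
      refine tendsto_nhds_unique h1 ?_
      have : (fun n : ℕ => ∑' r, pcr n r) = fun _ => 1 := funext tsum_pcr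
      rw [this]
      exact tendsto_const_nhds
    have h3 : Summable alp := by
      refine Summable.of_nonneg_of_le (fun r => ?_) (fun r => ?_) hb
      · exact ge_of_tendsto (tendsto_pcr r) (Eventually.of_forall fun n => pcr_nonneg n r)
      · exact le_of_tendsto (tendsto_pcr r) (Eventually.of_forall fun n => pcr_le n r)
    rw [← h2]
    exact h3.hasSum

end Pool.Agent.H467.PG.Pnr
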