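import Pool.Agent.H467.PG.SpecB

/-!
# Elementary properties of classes and poles (project PG of helper467, part POQ)
-/

set_option autoImplicit false
set_option linter.all false

open WithZero
open Pool.Agent.H467.GK
open Pool.Agent.H467.CT (AS)
open scoped Classical

namespace Pool.Agent.H467.PG.Poq

section cls

variable {K : Type} [Field K] [CharP K 2]

theorem mkq_iff (a b : K) : mkq a = mkq b ↔ AS (a + b) := by
  have h : mkq a = mkq b ↔ -a + b ∈ wp K := QuotientAddGroup.eq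
  rw [h, CharTwo.neg_eq]
  rfl

theorem mkq_add (a b : K) : mkq (a + b) = mkq a + mkq b := rfl

theorem mkq_surj (χ : Qc K) : ∃ a : K, mkq a = χ := by
  obtain ⟨a, ha⟩ := QuotientAddGroup.mk_surjective χ
  exact ⟨a, ha⟩

theorem two (χ : Qc K) : χ + χ = 0 := by
  obtain ⟨a, rfl⟩ := mkq_surj χ
  rw [← mkq_add, CharTwo.add_self_eq_zero]
  rfl

theorem rep_iff (P : K → Prop) (x : K) :
    (∃ z : K, P (x + z ^ 2 + z)) ↔ ∃ a : K, mkq a = mkq x ∧ P a := by
  have c2 : (2 : K) = 0 := CharTwo.two_eq_zero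
  constructor
  · rintro ⟨z, hz⟩
    refine ⟨x + z ^ 2 + z, ?_, hz⟩
    rw [mkq_iff]
    exact ⟨z, by linear_combination x * c2⟩
  · rintro ⟨a, ha, hP⟩
    obtain ⟨z, hz⟩ := (mkq_iff a x).1 ha
    refine ⟨z, ?_⟩
    have h : x + z ^ 2 + z = a := by linear_combination -hz + x * c2
    rw [h]
    exact hP

theorem un_iff (j : PV K) (x : K) : Un j.1 x ↔ Ple j 1 (mkq x) :=
  rep_iff (fun a => j.1 a ≤ 1) x

theorem sp_iff (j : PV K) (x : K) : Sp j.1 x ↔ Spl j (mkq x) :=
  rep_iff (fun a => j.1 a < 1) x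

theorem le_exp (x : WithZero (Multiplicative ℤ)) : ∃ n : ℕ, x ≤ exp (n : ℤ) := by
  rcases eq_or_ne x 0 with rfl | hx
  · exact ⟨0, zero_le'⟩
  · refine ⟨(log x).toNat, ?_⟩
    rw [← log_le_iff_le_exp hx]
    exact Int.self_le_toNat _

theorem ple_nonempty (j : PV K) (χ : Qc K) : ∃ n : ℕ, Ple j (exp (n : ℤ)) χ := by
  obtain ⟨a, ha⟩ := mkq_surj χ
  obtain ⟨n, hn⟩ := le_exp (j.1 a)
  exact ⟨n, a, ha, hn⟩

theorem ple_mono {j : PV K} {γ γ' : WithZero (Multiplicative ℤ)} {χ : Qc K} (h : γ ≤ γ')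
    (hχ : Ple j γ χ) : Ple j γ' χ := by
  obtain ⟨a, ha, hb⟩ := hχ
  exact ⟨a, ha, hb.trans h⟩

theorem ple_poq (j : PV K) (χ : Qc K) : Ple j (exp (poq j χ : ℤ)) χ := by
  have h : poq j χ ∈ {n : ℕ | Ple j (exp (n : ℤ)) χ} := Nat.sInf_mem (ple_nonempty j χ)
  exact h

theorem ple_iff (j : PV K) (χ : Qc K) (n : ℕ) : Ple j (exp (n : ℤ)) χ ↔ poq j χ ≤ n := by
  constructor
  · intro h
    exact Nat.sInf_le h
  · intro h
    refine ple_mono ?_ (ple_poq j χ)
    rw [exp_le_exp]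
    exact_mod_cast h

theorem poq_zero (j : PV K) (χ : Qc K) : poq j χ = 0 ↔ Ple j 1 χ := by
  have h := ple_iff j χ 0
  rw [Nat.cast_zero, exp_zero] at h
  rw [h, Nat.le_zero]

theorem ple_add {j : PV K} {γ : WithZero (Multiplicative ℤ)} {χ χ' : Qc K}
    (h : Ple j γ χ) (h' : Ple j γ χ') : Ple j γ (χ + χ') := by
  obtain ⟨a, ha, hb⟩ := h
  obtain ⟨a', ha', hb'⟩ := h'
  exact ⟨a + a', by rw [mkq_add, ha, ha'], Valuation.map_add_le _ hb hb'⟩

theorem spl_add {j : PV K} {χ χ' : Qc K} (h : Spl j χ) (h' : Spl j χ') : Spl j (χ + χ') := by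
  obtain ⟨a, ha, hb⟩ := h
  obtain ⟨a', ha', hb'⟩ := h'
  exact ⟨a + a', by rw [mkq_add, ha, ha'], Valuation.map_add_lt _ hb hb'⟩

theorem spl_poq {j : PV K} {χ : Qc K} (h : Spl j χ) : poq j χ = 0 := by
  obtain ⟨a, ha, hb⟩ := h
  rw [poq_zero]
  exact ⟨a, ha, hb.le⟩

theorem poq_add (j : PV K) (χ χ' : Qc K) : poq j (χ + χ') ≤ max (poq j χ) (poq j χ') := by
  rw [← ple_iff]
  refine ple_add ?_ ?_
  · rw [ple_iff]; exact le_max_left _ _
  · rw [ple_iff]; exact le_max_right _ _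

theorem poq_le_of {j : PV K} {χ χ' : Qc K} (h : Spl j (χ + χ')) : poq j χ ≤ poq j χ' := by
  have h1 := poq_add j (χ + χ') χ'
  rw [add_assoc, two, add_zero, spl_poq h] at h1
  simpa using h1

theorem poq_eq_of {j : PV K} {χ χ' : Qc K} (h : Spl j (χ + χ')) : poq j χ = poq j χ' :=
  le_antisymm (poq_le_of h) (poq_le_of (by rwa [add_comm]))

end cls

section res

variable {K : Type} [Field K] [CharP K 2]

/-- elements of the residue field of finite fields of characteristic two are squares, and the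
elements `z ^ 2 + z` form a subgroup of index two -/
theorem index_two (F : Type) [Field F] [CharP F 2] [Finite F] :
    ∃ H : AddSubgroup F, (∀ x, x ∈ H ↔ ∃ z, x = z ^ 2 + z) ∧ H.index = 2 := by
  have c2 : (2 : F) = 0 := CharTwo.two_eq_zero
  let φ : F →+ F :=
    { toFun := fun z => z ^ 2 + z
      map_zero' := by ring
      map_add' := fun x y => by linear_combination x * y * c2 }
  refine ⟨φ.range, fun x => ?_, ?_⟩
  · rw [AddMonoidHom.mem_range]
    constructor
    · rintro ⟨z, hz⟩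
      exact ⟨z, hz.symm⟩
    · rintro ⟨z, hz⟩
      exact ⟨z, hz.symm⟩
  · have h1 : Nat.card φ.ker = 2 := by
      have h2 : (φ.ker : Set F) = {0, 1} := by
        ext z
        rw [SetLike.mem_coe, AddMonoidHom.mem_ker]
        show z ^ 2 + z = 0 ↔ z = 0 ∨ z = 1
        constructor
        · intro hz
          have h3 : z * (z + 1) = 0 := by linear_combination hz
          rcases mul_eq_zero.1 h3 with h4 | h4
          · exact Or.inl h4
          · right
            linear_combination h4 - c2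
        · rintro (rfl | rfl)
          · ring
          · linear_combination c2
      have h5 : Nat.card φ.ker = ((φ.ker : Set F)).ncard := rfl
      rw [h5, h2]
      exact Set.ncard_pair zero_ne_one
    have h2 := AddSubgroup.card_mul_index φ.ker
    have h3 := AddSubgroup.card_mul_index φ.range
    have h4 := AddSubgroup.index_ker φ
    rw [h4, h1] at h2
    have h5 : 0 < Nat.card φ.range := Nat.card_pos
    have h6 : Nat.card φ.range * φ.range.index = Nat.card φ.range * 2 := by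
      rw [h3, ← h2, mul_comm]
    exact Nat.eq_of_mul_eq_mul_left h5 h6

theorem sq_surj (F : Type) [Field F] [CharP F 2] [Finite F] (x : F) : ∃ y : F, x = y ^ 2 := by
  have h1 : Function.Injective (frobenius F 2) := frobenius_inj F 2
  obtain ⟨y, hy⟩ := (Finite.injective_iff_surjective.1 h1) x
  exact ⟨y, hy.symm⟩

variable (v : Vl K)

/-- the residue field -/
abbrev RF : Type := IsLocalRing.ResidueField v.valuationSubring

noncomputable instance chr : CharP (RF v) 2 := by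
  apply CharTwo.of_one_ne_zero_of_two_eq_zero one_ne_zero
  have c2 : (2 : K) = 0 := CharTwo.two_eq_zero
  have h : (2 : v.valuationSubring) = 0 := Subtype.ext c2
  have h2 : IsLocalRing.residue v.valuationSubring 2 = 0 := by rw [h, map_zero]
  rw [map_ofNat] at h2
  exact h2

/-- the residue -/
noncomputable def rs (x : v.valuationSubring) : RF v := IsLocalRing.residue v.valuationSubring x

theorem rs_surj (y : RF v) : ∃ x : v.valuationSubring, rs v x = y :=
  IsLocalRing.residue_surjective y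

theorem rs_eq_zero (x : v.valuationSubring) : rs v x = 0 ↔ v (x : K) < 1 := by
  unfold rs
  rw [IsLocalRing.residue_eq_zero_iff, Valuation.mem_maximalIdeal_iff]

theorem rs_add (x y : v.valuationSubring) : rs v (x + y) = rs v x + rs v y := map_add _ _ _

theorem rs_sq (x : v.valuationSubring) : rs v (x ^ 2) = rs v x ^ 2 := map_pow _ _ _

/-- squares modulo the maximal ideal -/
theorem exists_sq [Finite (RF v)] {a : K} (ha : v a ≤ 1) :
    ∃ c : K, v c ≤ 1 ∧ v (a + c ^ 2) < 1 := by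
  obtain ⟨y, hy⟩ := sq_surj (RF v) (rs v ⟨a, ha⟩)
  obtain ⟨c, hc⟩ := rs_surj v y
  refine ⟨c, c.2, ?_⟩
  have h : rs v (⟨a, ha⟩ + c ^ 2) = 0 := by
    rw [rs_add, rs_sq, hc, hy, CharTwo.add_self_eq_zero]
  exact (rs_eq_zero v _).1 h

theorem int_of {z : K} (h : v (z ^ 2 + z) ≤ 1) : v z ≤ 1 := by
  by_contra hz
  rw [not_le] at hz
  have h1 : v z < v (z ^ 2) := by
    rw [map_pow, sq]
    have h0 : 0 < v z := lt_trans zero_lt_one hz
    calc v z = 1 * v z := (one_mul _).symm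
      _ < v z * v z := by
        exact mul_lt_mul_of_pos_right hz h0
  have h2 : v (z ^ 2 + z) = v (z ^ 2) := Valuation.map_add_eq_of_lt_left v h1
  rw [h2] at h
  exact absurd (hz.trans h1) (not_lt.2 h)

/-- the residue classes of the split elements form a subgroup of index two -/
theorem sp_iff_rs {a : K} (ha : v a ≤ 1) :
    Sp v a ↔ ∃ z : RF v, rs v ⟨a, ha⟩ = z ^ 2 + z := by
  have c2 : (2 : K) = 0 := CharTwo.two_eq_zero
  constructor
  · rintro ⟨z, hz⟩
    have h1 : v (z ^ 2 + z) ≤ 1 := by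
      have h2 : z ^ 2 + z = (a + z ^ 2 + z) + a := by linear_combination -a * c2
      rw [h2]
      exact Valuation.map_add_le _ hz.le ha
    have h3 := int_of v h1
    refine ⟨rs v ⟨z, h3⟩, ?_⟩
    have h4 : rs v (⟨a, ha⟩ + ⟨z, h3⟩ ^ 2 + ⟨z, h3⟩) = 0 := (rs_eq_zero v _).2 hz
    rw [rs_add, rs_add, rs_sq] at h4
    rw [← CharTwo.add_eq_zero]
    rw [← add_assoc]
    exact h4
  · rintro ⟨z, hz⟩
    obtain ⟨c, hc⟩ := rs_surj v z
    refine ⟨c, ?_⟩
    have h : rs v (⟨a, ha⟩ + c ^ 2 + c) = 0 := by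
      rw [rs_add, rs_add, rs_sq, hc, hz, add_assoc, CharTwo.add_self_eq_zero]
    exact (rs_eq_zero v _).1 h

end res

section fin

variable {K : Type} [Field K] [CharP K 2]

theorem odd_of (j : PV K) [Finite (RF j.1)] (χ : Qc K) (h : poq j χ ≠ 0) :
    ∃ m : ℕ, poq j χ = 2 * m + 1 := by
  have c2 : (2 : K) = 0 := CharTwo.two_eq_zero
  by_contra hodd
  have hev : Even (poq j χ) := by
    rw [← Nat.not_odd_iff_even]
    rintro ⟨m, hm⟩
    exact hodd ⟨m, hm⟩
  obtain ⟨m, hm⟩ := hev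
  have hm1 : 1 ≤ m := by omega
  obtain ⟨a, ha, hb⟩ := ple_poq j χ
  obtain ⟨p, hp⟩ := j.2 (exp (-1 : ℤ))
  have hp0 : p ≠ 0 := by
    rintro rfl
    rw [map_zero] at hp
    exact exp_ne_zero hp.symm
  have hpp : ∀ i : ℕ, j.1 (p ^ i) = exp (-(i : ℤ)) := by
    intro i
    rw [map_pow, hp, ← exp_nsmul]
    congr 1
    simp
  have h1 : j.1 (a * p ^ (2 * m)) ≤ 1 := by
    rw [map_mul, hpp]
    calc j.1 a * exp (-((2 * m : ℕ) : ℤ)) ≤ exp (poq j χ : ℤ) * exp (-((2 * m : ℕ) : ℤ)) :=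
          mul_le_mul_left hb _
      _ = 1 := by
          rw [← exp_add, hm, ← exp_zero]
          congr 1
          push_cast
          ring
  obtain ⟨c, hc1, hc2⟩ := exists_sq j.1 h1
  have hexp : Ple j (exp ((2 * m - 1 : ℕ) : ℤ)) χ := by
    rw [← ha]
    refine (rep_iff (fun x => j.1 x ≤ exp ((2 * m - 1 : ℕ) : ℤ)) a).1 ⟨c / p ^ m, ?_⟩
    have e : a + (c / p ^ m) ^ 2 + c / p ^ m =
        (a * p ^ (2 * m) + c ^ 2) / p ^ (2 * m) + c / p ^ m := by
      field_simp
      ring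
    show j.1 (a + (c / p ^ m) ^ 2 + c / p ^ m) ≤ _
    rw [e]
    refine Valuation.map_add_le _ ?_ ?_
    · rw [map_div₀, hpp]
      have h3 : j.1 (a * p ^ (2 * m) + c ^ 2) ≤ exp (-1 : ℤ) := by
        rcases eq_or_ne (j.1 (a * p ^ (2 * m) + c ^ 2)) 0 with h4 | h4
        · rw [h4]; exact zero_le'
        · rw [← log_le_iff_le_exp h4]
          have h5 : log (j.1 (a * p ^ (2 * m) + c ^ 2)) < 0 := by
            rw [log_lt_iff_lt_exp h4, exp_zero]
            exact hc2
          omega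
      rw [div_le_iff₀ (exp_pos (a := -((2 * m : ℕ) : ℤ)))]
      rw [← exp_add]
      refine h3.trans ?_
      rw [exp_le_exp]
      omega
    · rw [map_div₀, hpp]
      rw [div_le_iff₀ (exp_pos (a := -(m : ℤ))), ← exp_add]
      refine hc1.trans ?_
      rw [← exp_zero, exp_le_exp]
      omega
  rw [ple_iff] at hexp
  omega

theorem poq : S_POQ := by
  intro K _ _ j
  refine ⟨un_iff j, sp_iff j, ple_poq j, ple_iff j, poq_zero j, fun χ χ' => spl_add,
    fun χ => spl_poq, poq_add j, fun χ χ' => poq_eq_of, ?_⟩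
  intro hfin
  have hfin' : Finite (RF j.1) := hfin
  obtain ⟨H, hH, hi⟩ := index_two (RF j.1)
  refine ⟨odd_of j, ?_, ?_⟩
  · intro χ χ' h1 h2 h3 h4
    obtain ⟨a, ha, hb⟩ := (poq_zero j χ).1 h1
    obtain ⟨a', ha', hb'⟩ := (poq_zero j χ').1 h2
    rw [← ha, ← sp_iff, sp_iff_rs j.1 hb, ← hH] at h3
    rw [← ha', ← sp_iff, sp_iff_rs j.1 hb', ← hH] at h4
    have h5 : rs j.1 ⟨a, hb⟩ + rs j.1 ⟨a', hb'⟩ ∈ H := by
      rw [AddSubgroup.add_mem_iff_of_index_two hi]
      exact iff_of_false h3 h4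
    rw [← ha, ← ha', ← mkq_add, ← sp_iff, sp_iff_rs j.1 (Valuation.map_add_le _ hb hb'), ← hH]
    rw [← rs_add] at h5
    exact h5
  · have h1 : ∃ y : RF j.1, y ∉ H := by
      by_contra hall
      push Not at hall
      have h2 : H = ⊤ := by
        ext y
        simp [hall y]
      rw [h2, AddSubgroup.index_top] at hi
      exact absurd hi (by norm_num)
    obtain ⟨y, hy⟩ := h1
    obtain ⟨x, hx⟩ := rs_surj j.1 y
    refine ⟨x, x.2, ?_⟩
    rw [sp_iff_rs j.1 x.2, ← hH]
    have h3 : rs j.1 ⟨(x : K), x.2⟩ = y := hx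
    rw [h3]
    exact hy

end fin

end Pool.Agent.H467.PG.Poq
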