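import Pool.Agent.H467.PG.SpecB

/-!
# The relations satisfy the hypotheses
-/

set_option autoImplicit false
set_option linter.all false

open Finset WithZero
open Pool.Agent.H467.PT
open Pool.Agent.H467.GK
open Pool.Agent.H467.CT (AS Bas Ev)
open scoped Classical

namespace Pool.Agent.H467.PG.Rkg

section small

variable {K : Type} [Field K] [CharP K 2]

theorem qq_add {t : K} (ht : Bas t) (x y : K) : qq t (x + y) = qq t x + qq t y := by
  obtain ⟨p, hp⟩ := qq_spec ht x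
  obtain ⟨p', hp'⟩ := qq_spec ht y
  refine qq_eq ht (p := p + p') ?_
  have c2 : (2 : K) = 0 := CharTwo.two_eq_zero
  conv_lhs => rw [hp, hp']
  linear_combination (-(p * p') - t * qq t x * qq t y) * c2

theorem qq_tsq {t : K} (ht : Bas t) (c : K) : qq t (t * c ^ 2) = c := by
  refine qq_eq ht (p := 0) ?_
  ring

theorem qq_int (G : GFS K) (j : PV K) (hj : j ∉ G.B₀) (x : K) (hx : j.1 x ≤ 1) :
    j.1 (qq G.t x) ≤ 1 := by
  obtain ⟨p, hp⟩ := qq_spec G.bas x
  exact G.der j hj p _ (by rw [← hp]; exact hx)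

theorem qq_small (G : GFS K) (j : PV K) (hj : j ∉ G.B₀) (x : K)
    (hx : j.1 x ≤ exp (-2 : ℤ)) : j.1 (qq G.t x) < 1 := by
  obtain ⟨π, hπ⟩ := j.2 (exp (-1 : ℤ))
  have hπ0 : π ≠ 0 := by
    rintro rfl
    rw [map_zero] at hπ
    exact (exp_ne_zero hπ.symm).elim
  obtain ⟨p, hp⟩ := qq_spec G.bas x
  have e1 : (p / π) ^ 2 + G.t * (qq G.t x / π) ^ 2 = x / π ^ 2 := by
    rw [div_pow, div_pow, mul_div_assoc', ← add_div, ← hp]
  have h1 := G.der j hj (p / π) (qq G.t x / π) (by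
    rw [e1, map_div₀, map_pow, hπ, ← exp_nsmul]
    refine div_le_one_of_le₀ ?_ zero_le'
    exact hx)
  rw [map_div₀, hπ] at h1
  have h2 : j.1 (qq G.t x) ≤ exp (-1 : ℤ) := by
    rwa [div_le_one₀ exp_pos] at h1
  refine lt_of_le_of_lt h2 ?_
  rw [← exp_zero, exp_lt_exp]
  norm_num

end small

section count

variable {k K : Type} [Field k] [Finite k] [Field K] [CharP K 2] [Algebra k K]

theorem ddg_sub (deg : PV K → ℕ) (D E : PV K →₀ ℤ) : ddg deg (D - E) = ddg deg D - ddg deg E := by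
  unfold ddg
  exact Finsupp.sum_sub_index (fun j a b => by ring)

theorem ddg_add (deg : PV K → ℕ) (D E : PV K →₀ ℤ) : ddg deg (D + E) = ddg deg D + ddg deg E := by
  unfold ddg
  exact Finsupp.sum_add_index' (fun j => by simp) (fun j a b => by ring)

theorem ddg_single (deg : PV K → ℕ) (j : PV K) (n : ℤ) :
    ddg deg (Finsupp.single j n) = n * deg j := by
  unfold ddg
  exact Finsupp.sum_single_index (by simp)

theorem exX (F : GF k K) (j : PV K) (hj : j ∉ F.G.B₀) (h : K) (hh : j.1 h = 1)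
    (E : PV K →₀ ℤ) (hE : E j = 0) (hN : F.R.N₀ + 2 * (F.R.deg j : ℤ) ≤ ddg F.R.deg E)
    (c : K) (hc : j.1 c ≤ 1) : ∃ X ∈ LLs E, j.1 (qq F.G.t (X * h) + c) < 1 := by
  have c2 : (2 : K) = 0 := CharTwo.two_eq_zero
  have h0 : h ≠ 0 := by
    rintro rfl
    rw [map_zero] at hh
    exact zero_ne_one hh
  obtain ⟨x, hx, hx2⟩ := F.R.sa E (E - Finsupp.single j 2) (by
      intro i
      rw [Finsupp.sub_apply, Finsupp.single_apply]
      split_ifs <;> omega) (by
      rw [ddg_sub, ddg_single]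
      omega) (fun _ => F.G.t * c ^ 2 / h) (by
      intro i hi
      have hij : i = j := by
        by_contra hne
        rw [Finsupp.sub_apply, Finsupp.single_apply, if_neg (fun h' => hne h'.symm)] at hi
        omega
      subst hij
      rw [hE, exp_zero, map_div₀, hh, div_one, map_mul, map_pow]
      exact mul_le_one' (F.G.tint i hj) (pow_le_one' hc 2))
  have h1 := hx2 j (by rw [Finsupp.sub_apply, Finsupp.single_eq_same]; omega)
  rw [Finsupp.sub_apply, Finsupp.single_eq_same, hE] at h1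
  refine ⟨x, hx, ?_⟩
  have e1 : x * h = F.G.t * c ^ 2 + (x + F.G.t * c ^ 2 / h) * h := by
    field_simp
    linear_combination (-(F.G.t * c ^ 2)) * c2
  have e2 : qq F.G.t (x * h) + c = qq F.G.t ((x + F.G.t * c ^ 2 / h) * h) := by
    rw [e1, qq_add F.G.bas, qq_tsq F.G.bas]
    linear_combination c * c2
  rw [e2]
  refine qq_small F.G j hj _ ?_
  rw [map_mul, hh, mul_one]
  exact h1

theorem cnt_rel (F : GF k K) (j : PV K) (hj : j ∉ F.G.B₀) (h : K) (hh : j.1 h = 1)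
    (E : PV K →₀ ℤ) (hE : E j = 0) (hN : F.R.N₀ + 2 * (F.R.deg j : ℤ) ≤ ddg F.R.deg E) :
    {X | X ∈ LLs E ∧ j.1 (qq F.G.t (X * h)) < 1}.ncard * Nat.card k ^ F.R.deg j ≤
      (LLs E).ncard := by
  have c2 : (2 : K) = 0 := CharTwo.two_eq_zero
  have hfin := F.R.fin E
  have : Finite (LLs E) := hfin
  rw [← F.R.resc j, ← Nat.card_coe_set_eq, ← Nat.card_coe_set_eq, ← Nat.card_prod]
  have hres : ∀ ρ : IsLocalRing.ResidueField j.1.valuationSubring,
      ∃ (c : j.1.valuationSubring) (X : K), IsLocalRing.residue _ c = ρ ∧ X ∈ LLs E ∧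
        j.1 (qq F.G.t (X * h) + c) < 1 := by
    intro ρ
    obtain ⟨c, hc⟩ := IsLocalRing.residue_surjective ρ
    obtain ⟨X, hX, hX2⟩ := exX F j hj h hh E hE hN c ((Valuation.mem_valuationSubring_iff _ _).1 c.2)
    exact ⟨c, X, hc, hX, hX2⟩
  choose c X h1 h2 h3 using hres
  have hadd : ∀ x ∈ LLs E, ∀ y ∈ LLs E, x + y ∈ LLs E := fun x hx y hy i =>
    Valuation.map_add_le _ (hx i) (hy i)
  refine Nat.card_le_card_of_injective
    (fun p : {X | X ∈ LLs E ∧ j.1 (qq F.G.t (X * h)) < 1} ×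
        IsLocalRing.ResidueField j.1.valuationSubring =>
      (⟨p.1.1 + X p.2, hadd _ p.1.2.1 _ (h2 p.2)⟩ : LLs E)) ?_
  rintro ⟨⟨x, hx⟩, ρ⟩ ⟨⟨x', hx'⟩, ρ'⟩ hxx
  have e : x + X ρ = x' + X ρ' := congrArg Subtype.val hxx
  have e2 : qq F.G.t (x * h) + qq F.G.t (X ρ * h) = qq F.G.t (x' * h) + qq F.G.t (X ρ' * h) := by
    rw [← qq_add F.G.bas, ← qq_add F.G.bas, ← add_mul, ← add_mul, e]
  have e3 : ((c ρ : K) - c ρ') = (qq F.G.t (X ρ * h) + c ρ) + (qq F.G.t (X ρ' * h) + c ρ') +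
      (qq F.G.t (x * h) + qq F.G.t (x' * h)) := by
    linear_combination -e2 - (c ρ' : K) * c2 - qq F.G.t (x' * h) * c2 -
      qq F.G.t (X ρ' * h) * c2
  have e4 : j.1 ((c ρ : K) - c ρ') < 1 := by
    rw [e3]
    exact Valuation.map_add_lt _ (Valuation.map_add_lt _ (h3 ρ) (h3 ρ'))
      (Valuation.map_add_lt _ hx.2 hx'.2)
  have e5 : ρ = ρ' := by
    rw [← h1 ρ, ← h1 ρ', ← sub_eq_zero, ← map_sub, IsLocalRing.residue_eq_zero_iff,
      ValuationSubring.valuation_lt_one_iff]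
    have h4 := (Valuation.isEquiv_valuation_valuationSubring j.1).lt_one_iff_lt_one
      (x := (c ρ : K) - c ρ')
    exact h4.1 e4
  subst e5
  have e6 : x = x' := add_right_cancel e
  subst e6
  rfl

end count

section pdl

variable {K : Type} [Field K] [CharP K 2]

/-- The logarithmic derivative of the units part. -/
noncomputable def lu {n : ℕ} (t : K) (u : Fin n → K) (e : Fin n → ZMod 2) : K :=
  ∑ i, if e i = 0 then 0 else dl t (u i)

theorem lu_add {n : ℕ} (t : K) (u : Fin n → K) (e e' : Fin n → ZMod 2) :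
    lu t u (e + e') = lu t u e + lu t u e' := by
  unfold lu
  rw [← Finset.sum_add_distrib]
  refine Finset.sum_congr rfl fun i _ => ?_
  rw [Pi.add_apply]
  have h01 : ∀ a : ZMod 2, a = 0 ∨ a = 1 := by decide
  rcases h01 (e i) with h | h <;> rcases h01 (e' i) with h' | h' <;> rw [h, h']
  · simp
  · simp
  · simp
  · have h2 : (1 : ZMod 2) + 1 = 0 := by decide
    rw [h2, if_pos rfl, if_neg one_ne_zero]
    exact (CharTwo.add_self_eq_zero _).symm

theorem dl_fprod {t : K} (ht : Bas t) {ι : Type} (s : Finset ι) (f : ι → K)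
    (hf : ∀ i, f i ≠ 0) : dl t (∏ i ∈ s, f i) = ∑ i ∈ s, dl t (f i) := by
  induction s using Finset.induction_on with
  | empty => simp [dl_one ht]
  | insert i s hi ih =>
    rw [Finset.prod_insert hi, Finset.sum_insert hi, dl_mul ht (hf i)
      (Finset.prod_ne_zero_iff.2 fun j _ => hf j), ih]

theorem dl_pd {t : K} (ht : Bas t) {ι : Type} {n : ℕ} (u : Fin n → K) (g : ι → K)
    (hu : ∀ i, u i ≠ 0) (hg : ∀ P, g P ≠ 0) (V : Finset ι) (e : Fin n → ZMod 2) :
    dl t (pd u g V e) = ∑ P ∈ V, dl t (g P) + lu t u e := by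
  unfold pd lu
  rw [dl_mul ht (Finset.prod_ne_zero_iff.2 fun j _ => hg j)
    (Finset.prod_ne_zero_iff.2 fun j _ => pow_ne_zero _ (hu j)), dl_fprod ht _ _ hg,
    dl_fprod ht _ _ (fun i => pow_ne_zero _ (hu i))]
  congr 1
  refine Finset.sum_congr rfl fun i _ => ?_
  have h01 : ∀ a : ZMod 2, a = 0 ∨ a = 1 := by decide
  rcases h01 (e i) with h | h <;> rw [h]
  · simp [dl_one ht]
  · have : (1 : ZMod 2).val = 1 := rfl
    rw [this, pow_one, if_neg one_ne_zero]

theorem pd_ne {ι : Type} {n : ℕ} (u : Fin n → K) (g : ι → K)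
    (hu : ∀ i, u i ≠ 0) (hg : ∀ P, g P ≠ 0) (V : Finset ι) (e : Fin n → ZMod 2) :
    pd u g V e ≠ 0 :=
  mul_ne_zero (Finset.prod_ne_zero_iff.2 fun j _ => hg j)
    (Finset.prod_ne_zero_iff.2 fun j _ => pow_ne_zero _ (hu j))

theorem dl_key {t : K} (ht : Bas t) {ι : Type} [DecidableEq ι] {n : ℕ} (u : Fin n → K)
    (g : ι → K) (hu : ∀ i, u i ≠ 0) (hg : ∀ P, g P ≠ 0) (V₁ V₂ : Finset ι)
    (hd : Disjoint V₁ V₂) (e e₀ : Fin n → ZMod 2) (y : K) (hy : y ≠ 0) :
    dl t ((pd u g V₁ e₀ * y ^ 2) * pd u g V₂ (e + e₀)) = dl t (pd u g (V₁ ∪ V₂) e) := by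
  rw [dl_mul ht (mul_ne_zero (pd_ne u g hu hg _ _) (pow_ne_zero 2 hy)) (pd_ne u g hu hg _ _),
    dl_mul ht (pd_ne u g hu hg _ _) (pow_ne_zero 2 hy), dl_sq ht, dl_pd ht u g hu hg,
    dl_pd ht u g hu hg, dl_pd ht u g hu hg, lu_add, Finset.sum_union hd]
  have c2 : (2 : K) = 0 := CharTwo.two_eq_zero
  linear_combination lu t u e₀ * c2

end pdl

section rels

variable {k K : Type} [Field k] [Finite k] [Field K] [CharP K 2] [Algebra k K]

theorem val_pd {F : GF k K} {B : Finset (PV K)} (bd : BD F B) (V : Finset (Ob B))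
    (e : Fin bd.n → ZMod 2) (P : Ob B) :
    P.1.1 (pd bd.u bd.g V e) = if P ∈ V then exp (-1 : ℤ) else 1 := by
  unfold pd
  rw [map_mul, map_prod, map_prod]
  have h1 : ∏ i, P.1.1 (bd.u i ^ (e i).val) = 1 :=
    Finset.prod_eq_one fun i _ => by rw [map_pow, bd.uun i P, one_pow]
  rw [h1, mul_one]
  split_ifs with h
  · rw [Finset.prod_eq_single_of_mem P h (fun Q _ hQ => bd.gun Q P (fun h' => hQ h'.symm)),
      bd.gor P]
  · exact Finset.prod_eq_one fun Q hQ => bd.gun Q P (fun h' => h (by rw [h']; exact hQ))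

theorem nB {F : GF k K} {B : Finset (PV K)} (bd : BD F B) (j : Ob B) : j.1 ∉ F.G.B₀ :=
  fun h => j.2 (bd.sub (F.hB h))

theorem finres (R : GFR k K) (j : PV K) :
    Finite (IsLocalRing.ResidueField j.1.valuationSubring) := by
  apply Nat.finite_of_card_ne_zero
  rw [R.resc j]
  exact pow_ne_zero _ Nat.card_pos.ne'

theorem r1 (hsym : S_SYM) (F : GF k K) (B : Finset (PV K)) (bd : BD F B) :
    ∃ C₄ : ℕ, ∀ (j : Ob B) (V : Finset (Ob B)) (e : Fin bd.n → ZMod 2), j ∉ V → Rl bd j V e →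
      (V.Nonempty ∨ e ≠ 0) → 2 * (sysB F.R B).deg j ≤ (sysB F.R B).dg V + C₄ := by
  choose n hn using F.G.dlb
  refine ⟨∑ i ∈ B, (n i).toNat * F.R.deg i, ?_⟩
  intro j V e hjV hR hne
  have hd0 : pd bd.u bd.g V e ≠ 0 := pd_ne _ _ bd.une bd.gne _ _
  have hx0 : dl F.G.t (pd bd.u bd.g V e) ≠ 0 := by
    intro h0
    have h1 : qq F.G.t (pd bd.u bd.g V e) = 0 := by
      unfold dl at h0
      rcases div_eq_zero_iff.1 h0 with h | h
      · exact pow_eq_zero_iff (two_ne_zero) |>.1 h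
      · exact absurd h hd0
    obtain ⟨p, hp⟩ := qq_spec F.G.bas (pd bd.u bd.g V e)
    rw [h1] at hp
    have h2 : IsSquare (pd bd.u bd.g V e) := ⟨p, by rw [hp]; ring⟩
    obtain ⟨h3, h4⟩ := bd.ind V e h2
    rcases hne with h | h
    · rw [h3] at h
      exact Finset.not_nonempty_empty h
    · exact h h4
  obtain ⟨D, hD, hD0⟩ := F.R.dvd _ hx0
  have hobs : ∀ P : Ob B, D P.1 ≤ (if P ∈ V then 1 else 0) + (if P = j then -2 else 0) := by
    intro P
    obtain ⟨s1, s2, -, s4⟩ := (hsym K F.G P.1 (finres F.R P.1)).2.2.2.2.2.2.2 (nB bd P) _ hd0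
    by_cases hPj : P = j
    · subst hPj
      have h1 := (s4 hR).2
      rw [hD, exp_le_exp] at h1
      rw [if_neg hjV, if_pos rfl]
      omega
    · rw [if_neg hPj]
      by_cases hPV : P ∈ V
      · rw [if_pos hPV]
        rw [hD, exp_le_exp] at s1
        omega
      · rw [if_neg hPV]
        have h1 := s2 (by
          rw [val_pd, if_neg hPV]
          exact ⟨0, by simp⟩)
        rw [hD, ← exp_zero, exp_le_exp] at h1
        omega
  have hB : ∀ i ∈ B, D i ≤ (n i).toNat := by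
    intro i _
    have h1 := hn i (pd bd.u bd.g V e)
    rw [hD, exp_le_exp] at h1
    omega
  -- the sum
  obtain ⟨V', hV'⟩ : ∃ V' : Finset (PV K), V' = V.map (Function.Embedding.subtype _) := ⟨_, rfl⟩
  obtain ⟨S, hS⟩ : ∃ S : Finset (PV K), S = D.support ∪ B ∪ V' ∪ {j.1} := ⟨_, rfl⟩
  have hsum : ∑ i ∈ S, D i * (F.R.deg i : ℤ) = 0 := by
    rw [← hD0]
    unfold ddg
    have hsub : D.support ⊆ S := by
      intro i hi
      rw [hS]
      simp only [Finset.mem_union]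
      exact Or.inl (Or.inl (Or.inl hi))
    exact (Finsupp.sum_of_support_subset D hsub (fun i (n : ℤ) => n * (F.R.deg i : ℤ))
      (fun i _ => by simp)).symm
  have hle : ∑ i ∈ S, D i * (F.R.deg i : ℤ) ≤ ∑ i ∈ S, ((if i ∈ B then
      ((n i).toNat * F.R.deg i : ℤ) else 0) + (if i ∈ V' then (F.R.deg i : ℤ) else 0) +
        (if i ∈ ({j.1} : Finset (PV K)) then -2 * (F.R.deg i : ℤ) else 0)) := by
    refine Finset.sum_le_sum fun i _ => ?_
    have hdeg : (0 : ℤ) ≤ F.R.deg i := by positivity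
    by_cases hiB : i ∈ B
    · have h1 : i ∉ V' := by
        rw [hV', Finset.mem_map]
        rintro ⟨P, _, hP⟩
        exact P.2 (by
          have : P.1 = i := hP
          rw [this]; exact hiB)
      have h2 : i ∉ ({j.1} : Finset (PV K)) := by
        rw [Finset.mem_singleton]
        rintro rfl
        exact j.2 hiB
      rw [if_pos hiB, if_neg h1, if_neg h2, add_zero, add_zero]
      exact mul_le_mul_of_nonneg_right (hB i hiB) hdeg
    · have h1 := hobs ⟨i, hiB⟩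
      have h2 : (i ∈ V') ↔ (⟨i, hiB⟩ : Ob B) ∈ V := by
        rw [hV', Finset.mem_map]
        constructor
        · rintro ⟨P, hP, hP2⟩
          have : P = ⟨i, hiB⟩ := Subtype.ext hP2
          rw [← this]; exact hP
        · intro h
          exact ⟨_, h, rfl⟩
      have h3 : (i ∈ ({j.1} : Finset (PV K))) ↔ (⟨i, hiB⟩ : Ob B) = j := by
        rw [Finset.mem_singleton, Subtype.ext_iff]
      rw [if_neg hiB, zero_add]
      refine (mul_le_mul_of_nonneg_right h1 hdeg).trans (le_of_eq ?_)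
      rw [add_mul]
      by_cases c1 : (⟨i, hiB⟩ : Ob B) ∈ V <;> by_cases c3 : (⟨i, hiB⟩ : Ob B) = j
      · rw [if_pos c1, if_pos c3, if_pos (h2.2 c1), if_pos (h3.2 c3), one_mul]
      · rw [if_pos c1, if_neg c3, if_pos (h2.2 c1), if_neg (fun h => c3 (h3.1 h)), one_mul,
          zero_mul]
      · rw [if_neg c1, if_pos c3, if_neg (fun h => c1 (h2.1 h)), if_pos (h3.2 c3), zero_mul]
      · rw [if_neg c1, if_neg c3, if_neg (fun h => c1 (h2.1 h)), if_neg (fun h => c3 (h3.1 h)),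
          zero_mul]
  rw [hsum, Finset.sum_add_distrib, Finset.sum_add_distrib, Finset.sum_ite_mem,
    Finset.sum_ite_mem, Finset.sum_ite_mem] at hle
  have i1 : S ∩ B = B := Finset.inter_eq_right.2 (by
    intro i hi
    rw [hS]
    simp only [Finset.mem_union]
    exact Or.inl (Or.inl (Or.inr hi)))
  have i2 : S ∩ V' = V' := Finset.inter_eq_right.2 (by
    intro i hi
    rw [hS]
    simp only [Finset.mem_union]
    exact Or.inl (Or.inr hi))
  have i3 : S ∩ {j.1} = {j.1} := Finset.inter_eq_right.2 (by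
    intro i hi
    rw [hS]
    simp only [Finset.mem_union]
    exact Or.inr hi)
  rw [i1, i2, i3, Finset.sum_singleton, hV', Finset.sum_map] at hle
  have hdg : ((sysB F.R B).dg V : ℤ) = ∑ P ∈ V, (F.R.deg P.1 : ℤ) := by
    unfold PSys.dg
    push_cast
    rfl
  have hdj : (sysB F.R B).deg j = F.R.deg j.1 := rfl
  have hfin : (2 * F.R.deg j.1 : ℤ) ≤ (sysB F.R B).dg V +
      ((∑ i ∈ B, (n i).toNat * F.R.deg i : ℕ) : ℤ) := by
    rw [hdg]
    push_cast
    have h1 : ∑ P ∈ V, (F.R.deg ((Function.Embedding.subtype (fun i : PV K => i ∉ B)) P) : ℤ) =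
      ∑ P ∈ V, (F.R.deg P.1 : ℤ) := rfl
    rw [h1] at hle
    linarith
  rw [hdj]
  exact_mod_cast hfin

theorem r2 (huno : S_UNO) (F : GF k K) (B : Finset (PV K)) (bd : BD F B) (C₄ : ℕ) :
    ∃ C₅ : ℝ, ∀ (j : Ob B) (V₂ : Finset (Ob B)) (e : Fin bd.n → ZMod 2) (n₁ : ℕ)
      (S : Finset (Finset (Ob B))), j ∉ V₂ → 2 * F.R.deg j.1 ≤ n₁ + C₄ →
      (∀ V₁ ∈ S, (sysB F.R B).dg V₁ = n₁ ∧ j ∉ V₁ ∧ ∀ (e₀ : Fin bd.n → ZMod 2) (y : K), y ≠ 0 →
        j.1.1 (dl F.G.t ((pd bd.u bd.g V₁ e₀ * y ^ 2) * pd bd.u bd.g V₂ (e + e₀))) < 1) →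
      (S.card : ℝ) ≤ C₅ * (Nat.card k : ℝ) ^ n₁ / (Nat.card k : ℝ) ^ (F.R.deg j.1) := by
  have hq : 1 ≤ Nat.card k := Nat.card_pos
  have hqR : (0 : ℝ) < Nat.card k := by exact_mod_cast hq
  obtain ⟨w, hw⟩ : ∃ w, w ∈ B := by
    obtain ⟨w, hw⟩ := F.ne
    exact ⟨w, bd.sub hw⟩
  obtain ⟨C₇, hC₇, hU⟩ := huno k K F B bd w hw
  choose e' y hy0 hy1 hy2 hy3 m hm1 hm2 using hU
  obtain ⟨dw, hdw⟩ : ∃ dw : ℤ, dw = F.R.deg w := ⟨_, rfl⟩
  have hdw1 : 1 ≤ dw := by
    have := F.R.pos w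
    omega
  obtain ⟨c, hc⟩ : ∃ c : ℤ, c = |F.R.N₀| + C₄ + dw := ⟨_, rfl⟩
  have hc0 : 0 ≤ c := by
    have := abs_nonneg F.R.N₀
    omega
  obtain ⟨sB, hsB⟩ : ∃ sB : ℤ, sB = ∑ i ∈ B.erase w, (F.R.deg i : ℤ) := ⟨_, rfl⟩
  have hsB0 : 0 ≤ sB := by rw [hsB]; positivity
  obtain ⟨K₀, hK₀⟩ : ∃ K₀ : ℕ, K₀ = (C₇ + c * dw + C₇ * sB - F.R.gam).toNat := ⟨_, rfl⟩
  refine ⟨2 ^ bd.n * (Nat.card k : ℝ) ^ K₀, ?_⟩
  intro j V₂ e n₁ S hjV hdeg hS
  obtain ⟨M, hM⟩ : ∃ M : ℤ, M = (n₁ + C₇) / dw + c := ⟨_, rfl⟩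
  have hdiv1 : (n₁ + C₇) / dw * dw ≤ n₁ + C₇ := Int.ediv_mul_le _ (by omega)
  have hdiv2 : n₁ + C₇ < ((n₁ + C₇) / dw + 1) * dw := Int.lt_ediv_add_one_mul_self _ (by omega)
  obtain ⟨E, hE⟩ : ∃ E : PV K →₀ ℤ, E = Finsupp.onFinset B
      (fun i => if i = w then M else if i ∈ B then C₇ else 0) (by
        intro i hi
        by_contra hiB
        apply hi
        have h1 : i ≠ w := fun h => hiB (by rw [h]; exact hw)
        simp only [if_neg h1, if_neg hiB]) := ⟨_, rfl⟩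
  have hEw : E w = M := by rw [hE, Finsupp.onFinset_apply, if_pos rfl]
  have hEB : ∀ i ∈ B, i ≠ w → E i = C₇ := by
    intro i hi hiw
    rw [hE, Finsupp.onFinset_apply, if_neg hiw, if_pos hi]
  have hEo : ∀ i, i ∉ B → E i = 0 := by
    intro i hi
    have h1 : i ≠ w := fun h => hi (by rw [h]; exact hw)
    rw [hE, Finsupp.onFinset_apply, if_neg h1, if_neg hi]
  have hddg : ddg F.R.deg E = M * dw + C₇ * sB := by
    have h1 : ddg F.R.deg E = ∑ i ∈ B, E i * (F.R.deg i : ℤ) := by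
      unfold ddg
      refine Finsupp.sum_of_support_subset E ?_ (fun i (n : ℤ) => n * (F.R.deg i : ℤ))
        (fun i _ => by simp)
      intro i hi
      by_contra hiB
      exact (Finsupp.mem_support_iff.1 hi) (hEo i hiB)
    rw [h1, ← Finset.add_sum_erase B _ hw, hEw, hdw, hsB, Finset.mul_sum]
    congr 1
    refine Finset.sum_congr rfl fun i hi => ?_
    rw [hEB i (Finset.mem_of_mem_erase hi) (Finset.ne_of_mem_erase hi)]
  have hlow : F.R.N₀ + 2 * (F.R.deg j.1 : ℤ) ≤ ddg F.R.deg E := by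
    rw [hddg, hM, add_mul]
    have h1 : c ≤ c * dw := by nlinarith
    have h2 : 0 ≤ C₇ * sB := mul_nonneg hC₇ hsB0
    have h3 : F.R.N₀ ≤ |F.R.N₀| := le_abs_self _
    have h4 : (2 * (F.R.deg j.1 : ℤ)) ≤ n₁ + C₄ := by exact_mod_cast hdeg
    rw [add_mul, one_mul] at hdiv2
    omega
  obtain ⟨N, hN1, hN2⟩ := F.R.riem E (by
    have : (0 : ℤ) ≤ 2 * (F.R.deg j.1 : ℤ) := by positivity
    omega)
  have hNle : N ≤ n₁ + K₀ := by
    rw [hddg, hM, add_mul] at hN1
    omega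
  -- the count for one `e₀`
  have hone : ∀ e₀ : Fin bd.n → ZMod 2,
      ((S.filter (fun V₁ => e' V₁ = e₀)).card : ℝ) ≤
        (Nat.card k : ℝ) ^ (n₁ + K₀) / (Nat.card k : ℝ) ^ (F.R.deg j.1) := by
    intro e₀
    obtain ⟨h, hh⟩ : ∃ h, h = pd bd.u bd.g V₂ (e + e₀) := ⟨_, rfl⟩
    have hjh : j.1.1 h = 1 := by rw [hh, val_pd, if_neg hjV]
    have hcnt := cnt_rel F j.1 (nB bd j) h hjh E (hEo _ j.2) hlow
    have hfinA : {X | X ∈ LLs E ∧ j.1.1 (qq F.G.t (X * h)) < 1}.Finite :=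
      (F.R.fin E).subset fun x hx => hx.1
    have hcard : (S.filter (fun V₁ => e' V₁ = e₀)).card ≤
        {X | X ∈ LLs E ∧ j.1.1 (qq F.G.t (X * h)) < 1}.ncard := by
      rw [← Set.ncard_coe_finset]
      refine Set.ncard_le_ncard_of_injOn
        (fun V₁ => pd bd.u bd.g V₁ (e' V₁) * y V₁ ^ 2) ?_ ?_ hfinA
      · intro V₁ hV₁
        obtain ⟨hVS, hVe⟩ := Finset.mem_filter.1 (Finset.mem_coe.1 hV₁)
        obtain ⟨a1, a2, a3⟩ := hS V₁ hVS
        refine ⟨?_, ?_⟩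
        · intro i
          by_cases hiB : i ∈ B
          · by_cases hiw : i = w
            · subst hiw
              refine (hm1 V₁).trans ?_
              rw [exp_le_exp, hEw, hM]
              have h1 := hm2 V₁
              rw [a1, ← hdw] at h1
              have h2 : m V₁ ≤ (n₁ + C₇) / dw := (Int.le_ediv_iff_mul_le (by omega)).2 h1
              omega
            · rw [hEB i hiB hiw]
              exact hy3 V₁ i hiB hiw
          · rw [hEo i hiB, exp_zero]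
            by_cases hiV : (⟨i, hiB⟩ : Ob B) ∈ V₁
            · have h1 := hy1 V₁ ⟨i, hiB⟩ hiV
              refine (le_of_eq h1).trans ?_
              rw [← exp_zero, exp_le_exp]
              norm_num
            · exact le_of_eq (hy2 V₁ ⟨i, hiB⟩ hiV)
        · have h1 := a3 e₀ (y V₁) (hy0 V₁)
          rw [← hh, ← hVe] at h1
          have h2 : j.1.1 (pd bd.u bd.g V₁ (e' V₁) * y V₁ ^ 2 * h) = 1 := by
            rw [map_mul, hy2 V₁ j a2, hjh, one_mul]
          unfold dl at h1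
          rw [map_div₀, h2, div_one, map_pow] at h1
          by_contra hcon
          exact absurd h1 (not_lt.2 (one_le_pow₀ (not_lt.1 hcon)))
      · intro V₁ h1 V₁' h1' hVV
        have key : ∀ V : Finset (Ob B), ∀ P : Ob B, P ∈ V ↔
            P.1.1 (pd bd.u bd.g V (e' V) * y V ^ 2) = exp (-1 : ℤ) := by
          intro V P
          constructor
          · intro hP
            exact hy1 V P hP
          · intro hP
            by_contra hPV
            rw [hy2 V P hPV, ← exp_zero, exp_inj] at hP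
            omega
        ext P
        rw [key V₁ P, key V₁' P]
        have h2 : pd bd.u bd.g V₁ (e' V₁) * y V₁ ^ 2 = pd bd.u bd.g V₁' (e' V₁') * y V₁' ^ 2 := hVV
        rw [h2]
    rw [le_div_iff₀ (pow_pos hqR _)]
    have h5 : (S.filter (fun V₁ => e' V₁ = e₀)).card * Nat.card k ^ F.R.deg j.1 ≤
        Nat.card k ^ (n₁ + K₀) := by
      refine (Nat.mul_le_mul_right _ hcard).trans (hcnt.trans ?_)
      rw [hN2]
      exact Nat.pow_le_pow_right hq hNle
    exact_mod_cast h5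
  have hsumS : (S.card : ℝ) = ∑ e₀ : Fin bd.n → ZMod 2,
      ((S.filter (fun V₁ => e' V₁ = e₀)).card : ℝ) := by
    rw [← Nat.cast_sum]
    congr 1
    exact Finset.card_eq_sum_card_fiberwise (fun x _ => Finset.mem_coe.2 (Finset.mem_univ _))
  rw [hsumS]
  refine (Finset.sum_le_sum fun e₀ _ => hone e₀).trans (le_of_eq ?_)
  rw [Finset.sum_const, Finset.card_univ, nsmul_eq_mul]
  have h6 : Fintype.card (Fin bd.n → ZMod 2) = 2 ^ bd.n := by
    rw [Fintype.card_fun, ZMod.card, Fintype.card_fin]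
  rw [h6, pow_add]
  push_cast
  ring

end rels

theorem memf {α : Type} {p : α → Prop} {inst : DecidablePred p} {s : Finset α} {a : α}
    (h : a ∈ @Finset.filter α p inst s) : a ∈ s ∧ p a := Finset.mem_filter.1 h

theorem rkg : S_UNO → S_POQ → S_SYM → S_RKG := by
  intro huno _ hsym k K _ _ _ _ _ F B bd
  obtain ⟨C₄, h1⟩ := r1 hsym F B bd
  obtain ⟨C₅, h2⟩ := r2 huno F B bd C₄
  refine ⟨C₄, C₅, ⟨h1, ?_⟩⟩
  intro j V₂ e n₁ hj hdeg
  refine h2 j V₂ e n₁ _ hj hdeg ?_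
  intro V₁ hV₁
  obtain ⟨a1, a2, a3, a4⟩ := memf hV₁
  refine ⟨(Finset.mem_filter.1 a1).2, a2, ?_⟩
  intro e₀ y hy
  have h3 := @dl_key K _ _ F.G.t F.G.bas (Ob B) (fun a b => Classical.propDecidable (a = b))
    bd.n bd.u bd.g bd.une bd.gne V₁ V₂ a3 e e₀ y hy
  rw [h3]
  exact a4

end Pool.Agent.H467.PG.Rkg
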