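import Pool.Agent.H467.PG.SpecB
import Pool.Agent.H467.CT.Asc

/-!
# Descent for the curve `y ^ 2 + x y = x ^ 3 + A x ^ 2 + b ^ 2`: cocycles

Project PG (helper467), part SQMA (helper686), after the part SQM of helper389.
-/

set_option autoImplicit false
set_option linter.all false

open Polynomial IsDedekindDomain WeierstrassCurve WeierstrassCurve.Affine WithZero
open Pool.Agent.TH115.GD
open Pool.Agent.H467.CT Pool.Agent.H467.GK
open scoped Classical

namespace Pool.Agent.H467.PG.Sqma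

section pts

variable {F : Type} [Field F] [CharP F 2] {W W2 : Affine F} {a b : F}

/-- Elements of Artin and Schreier in a separably closed field. -/
theorem exists_as [IsSepClosed F] (x c : F) (hx : x ≠ 0) : ∃ X : F, X ^ 2 + x * X + c = 0 := by
  have c2 : (2 : F) = 0 := CharTwo.two_eq_zero
  have hp : (Polynomial.X ^ 2 + Polynomial.C x * Polynomial.X + Polynomial.C c :
      Polynomial F).Separable := by
    rw [Polynomial.separable_def]
    refine ⟨0, Polynomial.C x⁻¹, ?_⟩
    simp only [Polynomial.derivative_add, Polynomial.derivative_mul, Polynomial.derivative_C,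
      Polynomial.derivative_X, Polynomial.derivative_X_pow]
    have : (Polynomial.C ((2 : ℕ) : F)) = 0 := by simp [c2]
    rw [this]
    simp [← Polynomial.C_mul, hx]
  have hd : (Polynomial.X ^ 2 + Polynomial.C x * Polynomial.X + Polynomial.C c :
      Polynomial F).degree ≠ 0 := by
    have : (Polynomial.X ^ 2 + Polynomial.C x * Polynomial.X + Polynomial.C c :
      Polynomial F).degree = 2 := by compute_degree!
    rw [this]; decide
  obtain ⟨X, hX⟩ := IsSepClosed.exists_root _ hd hp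
  refine ⟨X, ?_⟩
  simpa using hX

/-- Halving of points with nonzero abscissa. -/
theorem halve_x (h : Std W a b) (h2 : Std W2 (a ^ 2) (b ^ 2)) [IsSepClosed F] {x y : F}
    (h₁ : W.Nonsingular x y) (hx : x ≠ 0) :
    ∃ S : W2.Point, S + S = fr W W2 (Point.some x y h₁) := by
  have c2 : (2 : F) = 0 := CharTwo.two_eq_zero
  have e := h.eq_of h₁
  obtain ⟨X, hX⟩ := exists_as x b hx
  have hX0 : X ≠ 0 := by
    rintro rfl
    exact h.b0 (by linear_combination hX)
  set m := (y + X) / x with hm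
  have hm1 : m * x = y + X := div_mul_cancel₀ _ hx
  have hm2 : m ^ 2 + m = x + a := by
    have : x ^ 2 * (m ^ 2 + m - (x + a)) = 0 := by grind
    exact sub_eq_zero.1 ((mul_eq_zero.1 this).resolve_left (pow_ne_zero 2 hx))
  have hn : W2.Nonsingular X (X * (m + 1 + a) + b) := by
    apply h2.nons
    grind
  refine ⟨.some X (X * (m + 1 + a) + b) hn, ?_⟩
  rw [fr_some h h2]
  obtain ⟨h', e2⟩ := h2.tang hn hX0 (l := x + (m + 1) + a) (X := x ^ 2) (Y := y ^ 2) (by grind)
    (by grind) (by grind)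
  exact e2

/-- The half of the point of order two. -/
theorem half_nons (h2 : Std W2 (a ^ 2) (b ^ 2)) {β η : F} (hβ : β ^ 2 = b) (hη : η ^ 2 + η = a) :
    W2.Nonsingular β (β * (β + a + η)) := by
  have c2 : (2 : F) = 0 := CharTwo.two_eq_zero
  apply h2.nons
  subst hβ
  grind

theorem half_dbl (h2 : Std W2 (a ^ 2) (b ^ 2)) {β η : F} (hβ : β ^ 2 = b) (hη : η ^ 2 + η = a) :
    Point.some β (β * (β + a + η)) (half_nons h2 hβ hη) +
      Point.some β (β * (β + a + η)) (half_nons h2 hβ hη) = Pool.Agent.H467.CT.tt W2 b := by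
  have c2 : (2 : F) = 0 := CharTwo.two_eq_zero
  have hb := bne h2
  have hβ0 : β ≠ 0 := by
    rintro rfl
    exact hb (by rw [← hβ]; ring)
  obtain ⟨h', e2⟩ := h2.tang (half_nons h2 hβ hη) hβ0 (l := a + η) (X := 0) (Y := b) (by grind)
    (by grind) (by grind)
  rw [e2, tt_eq h2]

/-- Halving. -/
theorem halve2 (h : Std W a b) (h2 : Std W2 (a ^ 2) (b ^ 2)) [IsSepClosed F] {β : F}
    (hβ : β ^ 2 = b) (R : W.Point) : ∃ S : W2.Point, S + S = fr W W2 R := by
  have c2 : (2 : F) = 0 := CharTwo.two_eq_zero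
  rcases R with _ | ⟨x, y, h₁⟩
  · exact ⟨0, by rw [add_zero]; rfl⟩
  · by_cases hx : x = 0
    · subst hx
      obtain ⟨η, hη⟩ := exists_as (1 : F) a one_ne_zero
      have hη' : η ^ 2 + η = a := by linear_combination hη - a * c2
      refine ⟨_, (half_dbl h2 hβ hη').trans ?_⟩
      rw [fr_some h h2, tt_eq h2, Point.some.injEq]
      have := h.eq_of h₁
      refine ⟨by ring, ?_⟩
      linear_combination -this
    · exact halve_x h h2 h₁ hx

end pts

section glob

variable {K : Type} [Field K] [CharP K 2] {a b : K}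

theorem exists_dat2 (hasc : S_ASC) {β : K} (hβ : β ^ 2 = b) (hb0 : b ≠ 0)
    {c : (Sep K ≃ₐ[K] Sep K) → Pt (cc a b) (Sep K)} {R : Pt (cc a b) (Sep K)}
    (hc : IsCoc (cc a b) c) (h2 : ∀ σ, c σ + c σ = act (cc a b) (rs K σ) R - R) :
    ∃ S ζ α, Dat a b c R S ζ α := by
  obtain ⟨S, hS⟩ := halve2 (std_bc (a := a) (b := b) (Ω := Sep K) hb0) (std_bc2 hb0)
    (β := algebraMap K (Sep K) β) (by rw [← map_pow, hβ]) R
  change S + S = Fr a b (Sep K) R at hS
  set T := TT a b (Sep K) with hTdef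
  have hT0 : T ≠ 0 := tt_ne (std_bc2 hb0)
  have hTT : T + T = 0 := tt_two (std_bc2 hb0)
  set e : (Sep K ≃ₐ[K] Sep K) → Pt (cc (a ^ 2) (b ^ 2)) (Sep K) :=
    fun σ => Fr a b (Sep K) (c σ) - (act _ (rs K σ) S - S) with he
  have he2 : ∀ σ, e σ + e σ = 0 := by
    intro σ
    have h3 := congrArg (Fr a b (Sep K)) (h2 σ)
    rw [Fr_add hb0, Fr_sub hb0, ← Fr_act hb0, ← hS, map_add] at h3
    rw [he]
    simp only
    rw [sub_add_sub_comm, h3]
    abel
  have hcase : ∀ σ, e σ = 0 ∨ e σ = T := fun σ => two_cases' (std_bc2 hb0) (he2 σ)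
  have hfix : ∀ σ τ : Sep K ≃ₐ[K] Sep K, act _ (rs K σ) (e τ) = e τ := by
    intro σ τ
    rcases hcase τ with h | h
    · rw [h, map_zero]
    · rw [h, hTdef, TT_act hb0]
  have hmul : ∀ σ τ, e (σ * τ) = e σ + e τ := by
    intro σ τ
    have h3 : e (σ * τ) = e σ + act _ (rs K σ) (e τ) := by
      rw [he]
      simp only
      rw [hc.mul, Fr_add hb0, map_sub, map_sub, Fr_act hb0, rs_mul, ← act_act]
      abel
    rw [h3, hfix]
  have hlc : IsLocallyConstant e := by
    have h1 : IsLocallyConstant (fun σ => Fr a b (Sep K) (c σ)) := hc.lc.comp _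
    have h3 : IsLocallyConstant (fun σ : Sep K ≃ₐ[K] Sep K =>
        act (cc (a ^ 2) (b ^ 2)) (rs K σ) S - S) :=
      (act_locConst (cc (a ^ 2) (b ^ 2)) S).comp (fun P => P - S)
    exact h1.comp₂ h3 (fun a b => a - b)
  obtain ⟨ζ, α, hζ, hact⟩ := hasc K (fun σ => if e σ = 0 then 0 else 1)
    (hlc.comp (fun P => if P = 0 then (0 : ZMod 2) else 1)) (by
      intro σ τ
      rw [hmul]
      rcases hcase σ with h | h <;> rcases hcase τ with h' | h' <;> rw [h, h'] <;>
        simp [hT0, hTT]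
      rfl)
  refine ⟨S, ζ, α, hS, hζ, ?_⟩
  intro σ
  rcases hcase σ with h | h
  · left
    refine ⟨?_, (hact σ).1 (by simp [h])⟩
    rw [he] at h
    exact sub_eq_zero.1 h
  · right
    refine ⟨?_, (hact σ).2 (by simp [h, hT0])⟩
    rw [he] at h
    simp only at h
    rw [← hTdef, ← h]; abel

/-- Translation of the data by the half of the point of order two. -/
theorem dat_shift {β : K} (hβ : β ^ 2 = b) (hb0 : b ≠ 0)
    {c : (Sep K ≃ₐ[K] Sep K) → Pt (cc a b) (Sep K)} {R T : Pt (cc a b) (Sep K)}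
    (hT : ∃ h, T = Point.some 0 (algebraMap K (Sep K) β) h)
    {S ζ α} (h : Dat a b c R S ζ α) :
    ∃ S' ζ', Dat a b c (R + T) S' ζ' (α + a) := by
  have c2 : (2 : Sep K) = 0 := CharTwo.two_eq_zero
  obtain ⟨hn0, hT⟩ := hT
  obtain ⟨η, hη⟩ := exists_as (1 : Sep K) (algebraMap K (Sep K) a) one_ne_zero
  have hη' : η ^ 2 + η = algebraMap K (Sep K) a := by
    linear_combination hη - algebraMap K (Sep K) a * c2
  have hβ' : (algebraMap K (Sep K) β) ^ 2 = algebraMap K (Sep K) b := by rw [← map_pow, hβ]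
  have hstd2 := std_bc2 (a := a) (b := b) (Ω := Sep K) hb0
  have hstd := std_bc (a := a) (b := b) (Ω := Sep K) hb0
  have hn := half_nons hstd2 hβ' hη'
  set ST : Pt (cc (a ^ 2) (b ^ 2)) (Sep K) := Point.some (algebraMap K (Sep K) β)
    (algebraMap K (Sep K) β * (algebraMap K (Sep K) β + algebraMap K (Sep K) a + η)) hn with hST
  have hTT : TT a b (Sep K) + TT a b (Sep K) = 0 := tt_two hstd2
  have hdbl : ST + ST = TT a b (Sep K) := half_dbl hstd2 hβ' hη'
  have hFT : Fr a b (Sep K) T = TT a b (Sep K) := by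
    rw [hT]
    unfold Fr TT
    rw [fr_some hstd hstd2, tt_eq hstd2, Point.some.injEq]
    exact ⟨by ring, hβ'⟩
  have hcase : ∀ σ : Sep K ≃ₐ[K] Sep K,
      (act _ (rs K σ) ST = ST ∧ σ η = η) ∨
      (act _ (rs K σ) ST = ST + TT a b (Sep K) ∧ σ η = η + 1) := by
    intro σ
    obtain ⟨h', hh'⟩ := act_some (cc (a ^ 2) (b ^ 2)) (rs K σ) hn
    have hση : (σ η) ^ 2 + σ η = algebraMap K (Sep K) a := by
      rw [← map_pow, ← map_add, hη', σ.commutes]
    have hprod : (σ η - η) * (σ η - (η + 1)) = 0 := by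
      linear_combination hση - hη' + (η ^ 2 + η - σ η * η - σ η) * c2
    rcases mul_eq_zero.1 hprod with h3 | h3
    · left
      have h4 : σ η = η := sub_eq_zero.1 h3
      refine ⟨?_, h4⟩
      rw [hST, hh', Point.some.injEq, map_mul, map_add, map_add, AlgHom.commutes, AlgHom.commutes,
        rs_apply, h4]
      exact ⟨rfl, rfl⟩
    · right
      have h4 : σ η = η + 1 := sub_eq_zero.1 h3
      refine ⟨?_, h4⟩
      have hneg : act _ (rs K σ) ST = - ST := by
        obtain ⟨h'', e⟩ := hstd2.neg hn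
        rw [hST]
        rw [hh']
        refine Eq.trans ?_ e.symm
        rw [Point.some.injEq, map_mul, map_add, map_add, AlgHom.commutes, AlgHom.commutes,
          rs_apply, h4]
        exact ⟨rfl, by ring⟩
      rw [hneg, ← hdbl]
      have h5 : ST + ST + (ST + ST) = 0 := by rw [hdbl]; exact hTT
      have h6 : ST + (ST + ST) = - ST := by
        rw [eq_neg_iff_add_eq_zero, ← h5]; abel
      exact h6.symm
  refine ⟨S + ST, ζ + η, ?_, ?_, ?_⟩
  · rw [Fr_add hb0, hFT, ← h.dbl, ← hdbl]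
    abel
  · rw [map_add]
    linear_combination h.as + hη' + ζ * η * c2
  · intro σ
    have hTneg : TT a b (Sep K) = - TT a b (Sep K) := by
      rw [eq_neg_iff_add_eq_zero]; exact hTT
    rcases h.alt σ with ⟨h1, h2⟩ | ⟨h1, h2⟩ <;> rcases hcase σ with ⟨h3, h4⟩ | ⟨h3, h4⟩
    · left
      refine ⟨?_, by rw [map_add, h2, h4]⟩
      rw [map_add, h1, h3]; abel
    · right
      refine ⟨?_, by rw [map_add, h2, h4]; ring⟩
      have e1 : act _ (rs K σ) (S + ST) - (S + ST) + TT a b (Sep K) =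
          act _ (rs K σ) S - S + (TT a b (Sep K) + TT a b (Sep K)) := by
        rw [map_add, h3]; abel
      rw [e1, hTT, add_zero, h1]
    · right
      refine ⟨?_, by rw [map_add, h2, h4]; ring⟩
      rw [map_add, h1, h3]; abel
    · left
      refine ⟨?_, by rw [map_add, h2, h4]; linear_combination c2⟩
      rw [map_add, h1, h3]; abel

end glob

theorem sqma : S_SQMA := by
  intro K _ _ A b t hb ht HV HF T hT c R hc hloc h2
  have hb2 : b ^ 2 ≠ 0 := pow_ne_zero 2 hb
  obtain ⟨S, ζ, α, h⟩ := exists_dat2 Pool.Agent.H467.CT.Asc.asc (β := b) rfl hb2 hc h2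
  rcases HV α (fun u hu => h.V hb2 (hloc u hu)) with hα | hα
  · obtain ⟨S0, h1, h3⟩ := partFA hb2 ht (fun d hd hF => Or.inl (HF d hd hF)) h.dbl (h.kill hα) hloc
    exact ⟨S0, Or.inl h1, h3⟩
  · obtain ⟨S', ζ', h'⟩ := dat_shift (β := b) rfl hb2 hT h
    obtain ⟨S0, h1, h3⟩ := partFA hb2 ht (fun d hd hF => Or.inl (HF d hd hF)) h'.dbl (h'.kill hα)
      hloc
    exact ⟨S0, Or.inr h1, h3⟩

end Pool.Agent.H467.PG.Sqma
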