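import Pool.Agent.H467.PG.Jin

/-!
# The Selmer group and the left kernel

Project PG (helper467).
-/

set_option autoImplicit false
set_option linter.all false

open Finset Filter WithZero
open Pool.Agent.H467.PT
open Pool.Agent.H467.GK
open Pool.Agent.H467.CT (AS Bas Ev)
open Pool.Agent.H467.PG.Jin
open scoped Classical

namespace Pool.Agent.H467.PG.Svm

/-- The numbers of the elements of the two kernels of a matrix. -/
theorem kers {ρ κ : Type} [Fintype ρ] [Fintype κ] (M : ρ → κ → ZMod 2)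
    (h : Fintype.card κ = Fintype.card ρ + 1) :
    {ε : κ → ZMod 2 | ∀ i, ∑ j, ε j * M i j = 0}.ncard =
      2 * {e : ρ → ZMod 2 | ∀ j, ∑ i, e i * M i j = 0}.ncard := by
  let A : Matrix ρ κ (ZMod 2) := Matrix.of M
  have h1 := LinearMap.finrank_range_add_finrank_ker A.mulVecLin
  have h2 := LinearMap.finrank_range_add_finrank_ker A.transpose.mulVecLin
  have h3 : Module.finrank (ZMod 2) (LinearMap.range A.mulVecLin) = A.rank := rfl
  have h4 : Module.finrank (ZMod 2) (LinearMap.range A.transpose.mulVecLin) = A.rank := by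
    rw [← Matrix.rank_transpose A]
    rfl
  rw [h3, Module.finrank_fintype_fun_eq_card] at h1
  rw [h4, Module.finrank_fintype_fun_eq_card] at h2
  have h5 : Module.finrank (ZMod 2) (LinearMap.ker A.mulVecLin) =
      Module.finrank (ZMod 2) (LinearMap.ker A.transpose.mulVecLin) + 1 := by omega
  have h6 : {ε : κ → ZMod 2 | ∀ i, ∑ j, ε j * M i j = 0} =
      (LinearMap.ker A.mulVecLin : Set (κ → ZMod 2)) := by
    ext ε
    rw [SetLike.mem_coe, LinearMap.mem_ker]
    constructor
    · intro h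
      funext i
      rw [Pi.zero_apply, ← h i]
      show ∑ j, M i j * ε j = _
      exact Finset.sum_congr rfl fun j _ => mul_comm _ _
    · intro h i
      have h7 : (A.mulVecLin ε) i = 0 := by rw [h]; rfl
      rw [← h7]
      show _ = ∑ j, M i j * ε j
      exact Finset.sum_congr rfl fun j _ => mul_comm _ _
  have h7 : {e : ρ → ZMod 2 | ∀ j, ∑ i, e i * M i j = 0} =
      (LinearMap.ker A.transpose.mulVecLin : Set (ρ → ZMod 2)) := by
    ext e
    rw [SetLike.mem_coe, LinearMap.mem_ker]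
    constructor
    · intro h
      funext j
      rw [Pi.zero_apply, ← h j]
      show ∑ i, M i j * e i = _
      exact Finset.sum_congr rfl fun i _ => mul_comm _ _
    · intro h j
      have h8 : (A.transpose.mulVecLin e) j = 0 := by rw [h]; rfl
      rw [← h8]
      show _ = ∑ i, M i j * e i
      exact Finset.sum_congr rfl fun i _ => mul_comm _ _
  rw [h6, h7]
  have h8 : ((LinearMap.ker A.mulVecLin : Set (κ → ZMod 2))).ncard =
      2 ^ Module.finrank (ZMod 2) (LinearMap.ker A.mulVecLin) := by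
    have h9 : ((LinearMap.ker A.mulVecLin : Set (κ → ZMod 2))).ncard =
        Nat.card (LinearMap.ker A.mulVecLin) := rfl
    rw [h9, Module.natCard_eq_pow_finrank (K := ZMod 2), Nat.card_zmod]
  have h9 : ((LinearMap.ker A.transpose.mulVecLin : Set (ρ → ZMod 2))).ncard =
      2 ^ Module.finrank (ZMod 2) (LinearMap.ker A.transpose.mulVecLin) := by
    have h10 : ((LinearMap.ker A.transpose.mulVecLin : Set (ρ → ZMod 2))).ncard =
        Nat.card (LinearMap.ker A.transpose.mulVecLin) := rfl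
    rw [h10, Module.natCard_eq_pow_finrank (K := ZMod 2), Nat.card_zmod]
  rw [h8, h9, h5, pow_succ]
  ring

/-- A representative which is integral at all places outside `s`. -/
theorem rep {k K : Type} [Field k] [Field K] [CharP K 2] [Algebra k K] (R : GFR k K)
    (s : Finset (PV K)) (hs : s.Nonempty) (a : K) (ha : ∀ j : PV K, j ∉ s → Un j.1 a) :
    ∃ g : K, ∀ j : PV K, j ∉ s → j.1 (a + g ^ 2 + g) ≤ 1 := by
  by_cases ha0 : a = 0
  · exact ⟨0, fun j _ => by simp [ha0]⟩
  obtain ⟨D₀, hD₀, -⟩ := R.dvd a ha0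
  obtain ⟨j₀, hj₀⟩ := hs
  have h1 : ∀ j : PV K, ∃ z : K, (j ∉ s → j.1 (a + z ^ 2 + z) ≤ 1) ∧
      ∃ m : ℤ, 1 ≤ m ∧ j.1 z ≤ exp m := by
    intro j
    have h2 : ∃ z : K, j ∉ s → j.1 (a + z ^ 2 + z) ≤ 1 := by
      by_cases hj : j ∉ s
      · obtain ⟨z, hz⟩ := ha j hj
        exact ⟨z, fun _ => hz⟩
      · exact ⟨0, fun h => absurd h hj⟩
    obtain ⟨z, hz⟩ := h2
    refine ⟨z, hz, max 1 (log (j.1 z)), le_max_left _ _, ?_⟩
    by_cases h0 : j.1 z = 0
    · rw [h0]; exact zero_le
    · rw [← exp_log h0, exp_le_exp, exp_log h0]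
      exact le_max_right _ _
  choose z hz m hm hzm using h1
  let T : Finset (PV K) := D₀.support.filter (fun j => j ∉ s)
  have hjT : j₀ ∉ T := fun h => (Finset.mem_filter.1 h).2 hj₀
  let N : ℤ := max R.N₀ 0
  let D' : PV K →₀ ℤ := Finsupp.single j₀ N
  let D : PV K →₀ ℤ := Finsupp.onFinset (insert j₀ T)
    (fun j => if j = j₀ then N else if j ∈ T then m j else 0) (by
      intro j hj
      rw [Finset.mem_insert]
      by_contra hc
      apply hj
      push Not at hc
      rw [if_neg hc.1, if_neg hc.2])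
  have hD : ∀ j, D j = if j = j₀ then N else if j ∈ T then m j else 0 := fun j => rfl
  have hD' : ∀ j, D' j = if j = j₀ then N else 0 := by
    intro j
    show Finsupp.single j₀ N j = _
    rw [Finsupp.single_apply]
    by_cases h : j = j₀
    · rw [if_pos h, if_pos h.symm]
    · rw [if_neg h, if_neg (fun e => h e.symm)]
  have hle : D' ≤ D := by
    intro j
    rw [hD, hD']
    by_cases h : j = j₀
    · rw [if_pos h, if_pos h]
    · rw [if_neg h, if_neg h]
      split_ifs
      · exact le_trans zero_le_one (hm j)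
      · exact le_refl _
  have hdeg : R.N₀ ≤ ddg R.deg D' := by
    have h2 : ddg R.deg D' = N * R.deg j₀ := by
      show (Finsupp.single j₀ N).sum (fun j n => n * (R.deg j : ℤ)) = _
      rw [Finsupp.sum_single_index]
      exact zero_mul _
    rw [h2]
    have h3 : (1 : ℤ) ≤ R.deg j₀ := by exact_mod_cast R.pos j₀
    have h4 : (0 : ℤ) ≤ N := le_max_right _ _
    have h5 : R.N₀ ≤ N := le_max_left _ _
    nlinarith
  obtain ⟨g, hg1, hg2⟩ := R.sa D D' hle hdeg z (by
    intro j hj
    rw [hD, hD'] at hj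
    rw [hD]
    by_cases h : j = j₀
    · rw [if_pos h, if_pos h] at hj
      exact absurd hj (lt_irrefl _)
    · rw [if_neg h, if_neg h] at hj
      rw [if_neg h]
      split_ifs at hj ⊢ with h2
      · exact hzm j
      · exact absurd hj (lt_irrefl _))
  refine ⟨g, fun j hj => ?_⟩
  have hjj : j ≠ j₀ := fun e => hj (e ▸ hj₀)
  by_cases hjT : j ∈ T
  · have h2 := hg2 j (by
      rw [hD, hD', if_neg hjj, if_neg hjj, if_pos hjT]
      exact lt_of_lt_of_le zero_lt_one (hm j))
    rw [hD', if_neg hjj, exp_zero] at h2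
    have c2 : (2 : K) = 0 := CharTwo.two_eq_zero
    have e : a + g ^ 2 + g = (a + z j ^ 2 + z j) + ((g + z j) ^ 2 + (g + z j)) := by
      linear_combination (-z j ^ 2 - g * z j - z j) * c2
    rw [e]
    refine Valuation.map_add_le _ (hz j hj) ?_
    refine Valuation.map_add_le _ ?_ h2
    rw [map_pow]
    exact pow_le_one' h2 2
  · have h2 : j.1 g ≤ 1 := by
      have h3 : j.1 g ≤ exp (D j) := hg1 j
      rwa [hD, if_neg hjj, if_neg hjT, exp_zero] at h3
    have h3 : j.1 a ≤ 1 := by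
      rw [hD₀ j]
      have h4 : D₀ j = 0 := by
        by_contra h4
        exact hjT (Finset.mem_filter.2 ⟨Finsupp.mem_support_iff.2 h4, hj⟩)
      rw [h4, exp_zero]
    refine Valuation.map_add_le _ (Valuation.map_add_le _ h3 ?_) h2
    rw [map_pow]
    exact pow_le_one' h2 2

section rows

variable {k K : Type} [Field k] [Field K] [CharP K 2] [Algebra k K] {F : GF k K}
  {B : Finset (PV K)}

theorem B_ne (bd : BD F B) (U : Finset (Ob B)) : (pls B U).Nonempty := by
  obtain ⟨j, hj⟩ := F.ne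
  exact ⟨j, mem_pls.2 (Or.inl (bd.sub hj))⟩

theorem sumz [Finite k] (hP : S_POQ) (hS : S_SYM) (bd : BD F B) (U : Finset (Ob B)) (α : Qc K)
    (hα : ∀ j, j ∉ pls B U → poq j α = 0) (d : K) (hd : d ≠ 0)
    (he : ∀ j : PV K, j ∉ pls B U → Ev (j.1 d)) : ∑ j ∈ pls B U, pr F.G j d α = 0 := by
  obtain ⟨a, rfl⟩ := mkq_surj α
  obtain ⟨g, hg⟩ := rep F.R (pls B U) (B_ne bd U) a (fun j hj =>
    ((hP K j).1 a).2 (((hP K j).2.2.2.2.1 _).1 (hα j hj)))
  have h1 : mkq (a + g ^ 2 + g) = mkq a := by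
    have h2 : mkq (g ^ 2 + g) = 0 := (QuotientAddGroup.eq_zero_iff _).2 ⟨g, rfl⟩
    rw [add_assoc, mkq_add, h2, add_zero]
  rw [← h1]
  rw [Finset.sum_congr rfl fun j _ => (hS K F.G j (resf F.R j)).1 (a + g ^ 2 + g) d hd]
  refine F.G.sum _ (fun j hj => mem_pls.2 (Or.inl (bd.sub (F.hB hj)))) _ fun j hj => ?_
  rw [map_mul]
  have h3 : j ∉ F.G.B₀ := fun h => hj (mem_pls.2 (Or.inl (bd.sub (F.hB h))))
  have h4 := ((hS K F.G j (resf F.R j)).2.2.2.2.2.2.2 h3 d hd).2.1 (he j hj)
  exact mul_le_one' (hg j hj) h4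

theorem prt [Finite k] (hP : S_POQ) (hS : S_SYM) (χ α : Qc K) (j : PV K)
    (h0 : poq j χ = 0 → poq j α = 0) (h1 : poq j χ ≠ 0 → Spl j α ∨ Spl j (α + χ)) (d : K)
    (hd : d ≠ 0) : pr F.G j d α = (if Spl j α then 0 else 1) * tt F.G j d χ := by
  obtain ⟨s1, s2, s3, s4, s5, s6, s7, s8⟩ := hS K F.G j (resf F.R j)
  by_cases hs : Spl j α
  · rw [if_pos hs, zero_mul, s5 α d hd hs]
  rw [if_neg hs, one_mul]
  unfold tt
  by_cases hc : poq j χ = 0
  · rw [if_pos hc]
    split_ifs with h
    · exact s6 α d hd (h0 hc) h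
    · exact s7 α d hd (h0 hc) hs h
  · rw [if_neg hc]
    rcases h1 hc with h | h
    · exact absurd h hs
    · have h2 := s5 _ d hd h
      rw [s2 α χ d hd] at h2
      have h3 : ∀ x y : ZMod 2, x + y = 0 → x = y := by decide
      exact h3 _ _ h2

end rows

theorem svm : S_CFX → S_POQ → S_SYM → S_SVM := by
  intro hC hP hS k K _ _ _ _ _ F B bd U χ hχ
  have hχ' : ∀ j : PV K, j ∉ pls B U → poq j χ = 0 := by
    intro j hj
    have h1 : j ∉ B := fun h => hj (mem_pls.2 (Or.inl h))
    exact hχ ⟨j, h1⟩ fun h => hj (mem_pls.2 (Or.inr ⟨h1, h⟩))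
  let κ : Type := {j : PV K // j ∈ pls B U}
  let M : Fin bd.n ⊕ U → κ → ZMod 2 := fun i j => tt F.G j.1 (ro bd U i) χ
  have hcard : Fintype.card κ = Fintype.card (Fin bd.n ⊕ U) + 1 := by
    have h1 : Fintype.card κ = (pls B U).card := Fintype.card_coe _
    have h2 : (pls B U).card = B.card + U.card := by
      have := sum_pls (B := B) U (fun _ => (1 : ℕ))
      simpa using this
    rw [h1, h2, Fintype.card_sum, Fintype.card_fin, Fintype.card_coe, ← bd.hn]
    ring
  have hLK : LK bd U χ = {e : Fin bd.n ⊕ U → ZMod 2 | ∀ j : κ, ∑ i, e i * M i j = 0} := by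
    ext e
    constructor
    · rintro ⟨h1, h2⟩ j
      rcases mem_pls.1 j.2 with h | ⟨h, h3⟩
      · exact h1 j.1 h
      · exact h2 ⟨j.1, h⟩ h3
    · intro h
      exact ⟨fun j hj => h ⟨j, mem_pls.2 (Or.inl hj)⟩,
        fun j hj => h ⟨j.1, mem_pls.2 (Or.inr ⟨j.2, hj⟩)⟩⟩
  have hk := kers M hcard
  rw [← hLK] at hk
  set RK : Set (κ → ZMod 2) := {ε : κ → ZMod 2 | ∀ i, ∑ j, ε j * M i j = 0} with hRK
  let Φ : Qc K → κ → ZMod 2 := fun α j => if Spl j.1 α then 0 else 1
  have hsum : ∀ f : PV K → ZMod 2, ∑ j : κ, f j.1 = ∑ j ∈ pls B U, f j := fun f =>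
    Finset.sum_coe_sort (pls B U) f
  have hmem : ∀ α ∈ SV χ, Φ α ∈ RK := by
    intro α hα i
    have h1 := sumz hP hS bd U α (fun j hj => (hα j).1 (hχ' j hj)) (ro bd U i) (ro_ne bd U i)
      (fun j hj => ro_ev bd U i j hj)
    rw [← h1, ← hsum]
    refine Finset.sum_congr rfl fun j _ => ?_
    exact (prt hP hS χ α j.1 (hα j.1).1 (hα j.1).2 (ro bd U i) (ro_ne bd U i)).symm
  have hinj : Set.InjOn Φ (SV χ) := by
    intro α hα α' hα' hh
    have hs : ∀ j ∈ pls B U, Spl j α ↔ Spl j α' := by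
      intro j hj
      have h1 : (if Spl j α then (0 : ZMod 2) else 1) = if Spl j α' then 0 else 1 :=
        congrFun hh ⟨j, hj⟩
      by_cases h2 : Spl j α <;> by_cases h3 : Spl j α'
      · exact ⟨fun _ => h3, fun _ => h2⟩
      · rw [if_pos h2, if_neg h3] at h1
        exact absurd h1 (by decide)
      · rw [if_neg h2, if_pos h3] at h1
        exact absurd h1 (by decide)
      · exact ⟨fun h => absurd h h2, fun h => absurd h h3⟩
    obtain ⟨x, hx⟩ := mkq_surj (α + α')
    have h1 : AS x := by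
      refine F.unr (pls B U) (fun j hj => mem_pls.2 (Or.inl (bd.sub hj))) x (fun j hj => ?_)
        fun j hj => ?_
      · obtain ⟨p1, p2, p3, p4, p5, p6, p7, p8, p9, p10⟩ := hP K j
        refine (p1 x).2 ((p5 _).1 ?_)
        rw [hx]
        have h2 := p8 α α'
        rw [(hα j).1 (hχ' j hj), (hα' j).1 (hχ' j hj)] at h2
        simpa using h2
      · obtain ⟨p1, p2, p3, p4, p5, p6, p7, p8, p9, p10⟩ := hP K j
        obtain ⟨q1, q2, q3⟩ := p10 (resf F.R j)
        refine (p2 x).2 ?_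
        rw [hx]
        by_cases h2 : Spl j α
        · exact p6 _ _ h2 ((hs j hj).1 h2)
        · have h3 : ¬ Spl j α' := fun h => h2 ((hs j hj).2 h)
          by_cases h4 : poq j χ = 0
          · exact q2 _ _ ((hα j).1 h4) ((hα' j).1 h4) h2 h3
          · have h5 : Spl j (α + χ) := ((hα j).2 h4).resolve_left h2
            have h6 : Spl j (α' + χ) := ((hα' j).2 h4).resolve_left h3
            have h7 := p6 _ _ h5 h6
            have h8 : α + χ + (α' + χ) = α + α' := by
              have h9 : α + χ + (α' + χ) = α + α' + (χ + χ) := by abel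
              rw [h9, qc_self, add_zero]
            rwa [h8] at h7
    have h2 : α + α' = 0 := by
      rw [← hx]
      exact (QuotientAddGroup.eq_zero_iff _).2 h1
    have h3 : α = α + α' + α' := by rw [add_assoc, qc_self, add_zero]
    rw [h3, h2, zero_add]
  have hsurj : ∀ ε ∈ RK, ∃ α ∈ SV χ, Φ α = ε := by
    intro ε hε
    let η : PV K → ZMod 2 := fun j => if h : j ∈ pls B U then ε ⟨j, h⟩ else 0
    have hη : ∀ j : κ, η j.1 = ε j := fun j => dif_pos j.2
    obtain ⟨α, a1, a2, a3, a4, a5⟩ := lift hC hP hS bd U χ η (by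
      intro i
      rw [← hsum (fun j => η j * tt F.G j (ro bd U i) χ), ← hε i]
      exact Finset.sum_congr rfl fun j _ => by rw [hη j])
    refine ⟨α, fun j => ?_, ?_⟩
    · by_cases hj : j ∈ pls B U
      · refine ⟨fun h => ?_, fun h => a5 j hj h⟩
        have := a2 j hj
        omega
      · exact ⟨fun _ => a1 j hj, fun h => absurd (hχ' j hj) h⟩
    · funext j
      show (if Spl j.1 α then (0 : ZMod 2) else 1) = ε j
      by_cases h : ε j = 0
      · rw [if_pos (a3 j.1 j.2 (by rw [hη j]; exact h)), h]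
      · rw [if_neg (a4 j.1 j.2 (by rw [hη j]; exact h))]
        have h3 : ∀ x : ZMod 2, x ≠ 0 → 1 = x := by decide
        exact h3 _ h
  have himg : Φ '' SV χ = RK := by
    ext ε
    constructor
    · rintro ⟨α, hα, rfl⟩
      exact hmem α hα
    · intro hε
      obtain ⟨α, hα, h⟩ := hsurj ε hε
      exact ⟨α, hα, h⟩
  have hfin : (SV χ).Finite := Set.Finite.of_finite_image (Set.toFinite _) hinj
  refine ⟨hfin, ?_⟩
  rw [← hk, ← himg, Set.InjOn.ncard_image hinj]

end Pool.Agent.H467.PG.Svm
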