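import Pool.Agent.H467.PG.SpecB

/-!
# The elementary Tauberian lemma `S_TAUB`
-/

namespace Pool.Agent.H467.PG.Taub

open Finset

/-- The statement with all names explicit. -/
theorem main (q : ℕ) (C c : ℝ) (a : ℕ → ℝ) (hq : 2 ≤ q) (ha : ∀ l, 0 ≤ a l) (ha0 : a 0 = 0)
    (hC : ∀ l : ℕ, (l : ℝ) * a l ≤ C * (q : ℝ) ^ l)
    (hu : ∀ u : ℝ, 0 < u → (q : ℝ) * u < 1 → Summable (fun l => a l * u ^ l) ∧
      |∑' l, a l * u ^ l - c * Real.log (1 / (1 - q * u))| ≤ C) (N : ℕ) (hN : 1 ≤ N) :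
    |∑ l ∈ Icc 1 N, a l / (q : ℝ) ^ l - c * Real.log N| ≤ 2 * C := by
  have hq0 : (0 : ℝ) < q := by
    have : 0 < q := by omega
    exact_mod_cast this
  have hbd : ∀ l : ℕ, 1 ≤ l → a l / (q : ℝ) ^ l ≤ C / l := by
    intro l hl
    have hl0 : (0 : ℝ) < l := by exact_mod_cast hl
    rw [div_le_div_iff₀ (pow_pos hq0 l) hl0]
    have := hC l
    linarith
  have hC0 : 0 ≤ C := by
    have h1 := hbd 1 le_rfl
    have h2 : 0 ≤ a 1 / (q : ℝ) ^ 1 := div_nonneg (ha 1) (pow_nonneg hq0.le 1)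
    simp only [Nat.cast_one, div_one] at h1
    linarith
  rcases Nat.eq_or_lt_of_le hN with h1 | h1
  · subst h1
    have h2 : ∑ l ∈ Icc 1 1, a l / (q : ℝ) ^ l = a 1 / (q : ℝ) ^ 1 := by
      rw [Icc_self, sum_singleton]
    have h3 := hbd 1 le_rfl
    have h4 : 0 ≤ a 1 / (q : ℝ) ^ 1 := div_nonneg (ha 1) (pow_nonneg hq0.le 1)
    simp only [Nat.cast_one, div_one] at h3
    rw [h2, Nat.cast_one, Real.log_one, mul_zero, sub_zero, abs_of_nonneg h4]
    linarith
  · have hN0 : (0 : ℝ) < N := by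
      have : 0 < N := by omega
      exact_mod_cast this
    have hN2 : (2 : ℝ) ≤ N := by exact_mod_cast h1
    set r : ℝ := 1 - 1 / N with hr
    have hinv : 1 / (N : ℝ) ≤ 1 / 2 := one_div_le_one_div_of_le (by norm_num) hN2
    have hinv0 : 0 < 1 / (N : ℝ) := by positivity
    have hr0 : 0 < r := by rw [hr]; linarith
    have hr1 : r < 1 := by rw [hr]; linarith
    set u : ℝ := r / q with hudef
    have hu0 : 0 < u := div_pos hr0 hq0
    have hqu : (q : ℝ) * u = r := by rw [hudef]; field_simp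
    obtain ⟨hs, hb⟩ := hu u hu0 (by rw [hqu]; exact hr1)
    have hlog : 1 / (1 - (q : ℝ) * u) = N := by
      rw [hqu, hr]; field_simp; ring
    rw [hlog] at hb
    have hterm : ∀ l : ℕ, a l * u ^ l = a l / (q : ℝ) ^ l * r ^ l := by
      intro l
      rw [hudef, div_pow]
      ring
    -- the split of the sum
    have hsplit : ∑ l ∈ range (N + 1), a l * u ^ l + ∑' i, a (i + (N + 1)) * u ^ (i + (N + 1)) =
        ∑' l, a l * u ^ l := Summable.sum_add_tsum_nat_add (f := fun l => a l * u ^ l) (N + 1) hs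
    have hrange : ∑ l ∈ range (N + 1), a l * u ^ l = ∑ l ∈ Icc 1 N, a l * u ^ l := by
      rw [range_eq_Ico, sum_eq_sum_Ico_succ_bot (by omega), ha0, zero_mul, zero_add]
      rfl
    -- the tail
    have hgeo : HasSum (fun i : ℕ => C / N * r ^ i) (C / N * (1 - r)⁻¹) :=
      (hasSum_geometric_of_lt_one hr0.le hr1).mul_left _
    have hs' : Summable (fun i => a (i + (N + 1)) * u ^ (i + (N + 1))) :=
      (summable_nat_add_iff (f := fun l => a l * u ^ l) (N + 1)).mpr hs
    have htail0 : 0 ≤ ∑' i, a (i + (N + 1)) * u ^ (i + (N + 1)) :=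
      tsum_nonneg fun i => mul_nonneg (ha _) (pow_nonneg hu0.le _)
    have htail : ∑' i, a (i + (N + 1)) * u ^ (i + (N + 1)) ≤ C := by
      have h2 : ∑' i, a (i + (N + 1)) * u ^ (i + (N + 1)) ≤ C / N * (1 - r)⁻¹ := by
        rw [← hgeo.tsum_eq]
        refine Summable.tsum_le_tsum (fun i => ?_) hs' hgeo.summable
        rw [hterm (i + (N + 1))]
        have h3 := hbd (i + (N + 1)) (by omega)
        have h4 : C / ((i + (N + 1) : ℕ) : ℝ) ≤ C / N := by
          apply div_le_div_of_nonneg_left hC0 hN0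
          exact_mod_cast (by omega : N ≤ i + (N + 1))
        have h5 : r ^ (i + (N + 1)) ≤ r ^ i :=
          pow_le_pow_of_le_one hr0.le hr1.le (by omega)
        exact mul_le_mul (h3.trans h4) h5 (pow_nonneg hr0.le _) (div_nonneg hC0 hN0.le)
      have h6 : C / N * (1 - r)⁻¹ = C := by
        rw [hr]; field_simp; ring
      linarith
    -- the head
    have hhead : ∑ l ∈ Icc 1 N, a l / (q : ℝ) ^ l - ∑ l ∈ Icc 1 N, a l * u ^ l =
        ∑ l ∈ Icc 1 N, a l / (q : ℝ) ^ l * (1 - r ^ l) := by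
      rw [← sum_sub_distrib]
      refine sum_congr rfl fun l _ => ?_
      rw [hterm]; ring
    have hhead0 : 0 ≤ ∑ l ∈ Icc 1 N, a l / (q : ℝ) ^ l * (1 - r ^ l) :=
      sum_nonneg fun l _ => mul_nonneg (div_nonneg (ha l) (pow_nonneg hq0.le l))
        (sub_nonneg.mpr (pow_le_one₀ hr0.le hr1.le))
    have hhead1 : ∑ l ∈ Icc 1 N, a l / (q : ℝ) ^ l * (1 - r ^ l) ≤ C := by
      have h2 : ∀ l ∈ Icc 1 N, a l / (q : ℝ) ^ l * (1 - r ^ l) ≤ C / N := by
        intro l hl
        have hl1 : 1 ≤ l := (mem_Icc.mp hl).1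
        have hl0 : (0 : ℝ) < l := by exact_mod_cast hl1
        have h3 : 1 - r ^ l ≤ l / N := by
          have := one_add_mul_le_pow (a := -(1 / (N : ℝ))) (by linarith) l
          have h4 : (1 + -(1 / (N : ℝ))) = r := by rw [hr]; ring
          rw [h4] at this
          have h5 : (l : ℝ) * -(1 / (N : ℝ)) = -(l / N) := by ring
          linarith
        have h4 : 0 ≤ (l : ℝ) / N := div_nonneg hl0.le hN0.le
        calc a l / (q : ℝ) ^ l * (1 - r ^ l) ≤ C / l * (l / N) :=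
              mul_le_mul (hbd l hl1) h3 (sub_nonneg.mpr (pow_le_one₀ hr0.le hr1.le))
                (div_nonneg hC0 hl0.le)
          _ = C / N := by field_simp
      calc ∑ l ∈ Icc 1 N, a l / (q : ℝ) ^ l * (1 - r ^ l) ≤ ∑ l ∈ Icc 1 N, C / N :=
            sum_le_sum h2
        _ = C := by
            rw [sum_const, Nat.card_Icc, nsmul_eq_mul, Nat.add_sub_cancel]
            field_simp
    rw [hrange] at hsplit
    rw [abs_le] at hb ⊢
    constructor <;> linarith [hb.1, hb.2]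

theorem taub : S_TAUB := by
  intro q C c a hq ha ha0 hC hu
  exact ⟨2 * C, main q C c a hq ha ha0 hC hu⟩

end Pool.Agent.H467.PG.Taub
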