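import Pool.Agent.H467.PG.SpecA

/-!
# Project PG (helper467), part TRF: from sets of primes to divisors
-/

set_option autoImplicit false
set_option linter.all false

open Finset Filter
open Pool.Agent.H467.PT
open scoped Classical

namespace Pool.Agent.H467.PG.Trf

variable {ι : Type} (S : PSys ι)

lemma mem_UU (n : ℕ) (U : Finset ι) : U ∈ S.UU n ↔ S.dg U = n := by
  unfold PSys.UU
  rw [mem_filter, mem_powerset]
  constructor
  · exact fun h => h.2
  · intro h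
    refine ⟨fun p hp => ?_, h⟩
    rw [S.mem_le, ← h]
    exact Finset.single_le_sum (f := S.deg) (fun _ _ => Nat.zero_le _) hp

/-- The degree of an exponent vector on the small primes. -/
noncomputable def de (L : ℕ) (e : {p // p ∈ S.le L} → ℕ) : ℕ :=
  ∑ p : {p // p ∈ S.le L}, e p * S.deg p.1

/-- The exponents minus one on the small primes. -/
noncomputable def ex (L : ℕ) (D : ι →₀ ℕ) : {p // p ∈ S.le L} → ℕ := fun p => D p.1 - 1

lemma dgf_eq (L : ℕ) (D : ι →₀ ℕ) (h : ∀ p, L < S.deg p → D p ≤ 1) :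
    dgf S D = S.dg D.support + de S L (ex S L D) := by
  have h1 : de S L (ex S L D) = ∑ p ∈ S.le L, (D p - 1) * S.deg p := by
    unfold de ex
    exact Finset.sum_coe_sort (S.le L) (fun p => (D p - 1) * S.deg p)
  have h2 : ∑ p ∈ S.le L, (D p - 1) * S.deg p =
      ∑ p ∈ D.support ∪ S.le L, (D p - 1) * S.deg p := by
    refine Finset.sum_subset Finset.subset_union_right fun p _ hp => ?_
    rw [S.mem_le, not_le] at hp
    have h3 := h p hp
    have h4 : D p - 1 = 0 := by omega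
    rw [h4, zero_mul]
  have h3 : ∑ p ∈ D.support, (D p - 1) * S.deg p =
      ∑ p ∈ D.support ∪ S.le L, (D p - 1) * S.deg p := by
    refine Finset.sum_subset Finset.subset_union_left fun p _ hp => ?_
    rw [Finsupp.notMem_support_iff] at hp
    rw [hp, Nat.zero_sub, zero_mul]
  rw [h1, h2, ← h3]
  unfold dgf PSys.dg
  rw [Finsupp.sum, ← Finset.sum_add_distrib]
  refine Finset.sum_congr rfl fun p hp => ?_
  have h4 : 1 ≤ D p := Nat.one_le_iff_ne_zero.2 (Finsupp.mem_support_iff.1 hp)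
  obtain ⟨k, hk⟩ : ∃ k, D p = k + 1 := ⟨D p - 1, by omega⟩
  rw [hk, Nat.add_sub_cancel]
  ring

lemma inj (L : ℕ) (D D' : ι →₀ ℕ) (h : ∀ p, L < S.deg p → D p ≤ 1)
    (h' : ∀ p, L < S.deg p → D' p ≤ 1) (he : ex S L D = ex S L D')
    (hs : D.support = D'.support) : D = D' := by
  ext p
  by_cases hp : p ∈ D.support
  · have hp' : p ∈ D'.support := by rw [← hs]; exact hp
    have h1 : 1 ≤ D p := Nat.one_le_iff_ne_zero.2 (Finsupp.mem_support_iff.1 hp)
    have h1' : 1 ≤ D' p := Nat.one_le_iff_ne_zero.2 (Finsupp.mem_support_iff.1 hp')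
    rcases le_or_gt (S.deg p) L with h2 | h2
    · have h3 : D p - 1 = D' p - 1 := congrFun he ⟨p, (S.mem_le _ _).2 h2⟩
      omega
    · have h3 := h p h2
      have h3' := h' p h2
      omega
  · have hp' : p ∉ D'.support := by rw [← hs]; exact hp
    rw [Finsupp.notMem_support_iff] at hp hp'
    rw [hp, hp']

lemma geom_le {r : ℝ} (h0 : 0 ≤ r) (h1 : r < 1) (n : ℕ) :
    ∑ k ∈ range n, r ^ k ≤ (1 - r)⁻¹ := by
  have h2 : (1 - r) * ∑ k ∈ range n, r ^ k = 1 - r ^ n := mul_neg_geom_sum r n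
  have h3 : 0 < 1 - r := by linarith
  rw [← mul_le_mul_iff_right₀ h3, h2, mul_inv_cancel₀ h3.ne']
  have := pow_nonneg h0 n
  linarith

lemma sum_pow_le (L m : ℕ) {x : ℝ} (h0 : 0 ≤ x) (h1 : x < 1) :
    ∑ e ∈ Fintype.piFinset (fun _ : {p // p ∈ S.le L} => range (m + 1)), x ^ (de S L e) ≤
      ∏ p ∈ S.le L, (1 - x ^ S.deg p)⁻¹ := by
  have h2 : ∀ e : {p // p ∈ S.le L} → ℕ, x ^ (de S L e) =
      ∏ p : {p // p ∈ S.le L}, (x ^ S.deg p.1) ^ (e p) := by
    intro e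
    unfold de
    rw [← Finset.prod_pow_eq_pow_sum]
    refine Finset.prod_congr rfl fun p _ => ?_
    rw [← pow_mul, mul_comm]
  rw [Finset.sum_congr rfl fun e _ => h2 e,
    ← Finset.prod_univ_sum (fun _ : {p // p ∈ S.le L} => range (m + 1))
      (fun p k => (x ^ S.deg p.1) ^ k),
    ← Finset.prod_coe_sort (S.le L) (fun p => (1 - x ^ S.deg p)⁻¹)]
  refine Finset.prod_le_prod (fun p _ => Finset.sum_nonneg fun k _ => by positivity)
    fun p _ => ?_
  exact geom_le (pow_nonneg h0 _) (pow_lt_one₀ h0 h1 (S.pos p.1).ne') (m + 1)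

/-- Sums over the small primes. -/
lemma sum_le_deg (L : ℕ) (G : ℕ → ℝ) : ∑ p ∈ S.le L, G (S.deg p) =
    ∑ l ∈ Finset.Icc 1 L, ((S.eq l).card : ℝ) * G l := by
  rw [← Finset.sum_fiberwise_of_maps_to (g := S.deg) (t := Finset.Icc 1 L)]
  · refine Finset.sum_congr rfl fun l hl => ?_
    rw [mem_Icc] at hl
    have h1 : (S.le L).filter (fun p => S.deg p = l) = S.eq l := by
      unfold PSys.eq
      ext p
      rw [mem_filter, mem_filter, S.mem_le, S.mem_le]
      constructor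
      · rintro ⟨_, h⟩
        exact ⟨h.le, h⟩
      · rintro ⟨_, h⟩
        exact ⟨by omega, h⟩
    rw [h1, Finset.sum_congr rfl (g := fun _ => G l)]
    · rw [Finset.sum_const, nsmul_eq_mul]
    · intro p hp
      unfold PSys.eq at hp
      rw [(mem_filter.1 hp).2]
  · intro p hp
    rw [S.mem_le] at hp
    rw [mem_Icc]
    exact ⟨S.pos p, hp⟩

lemma half_sum (L : ℕ) : ∑ l ∈ Finset.Icc 1 L, (1 / 2 : ℝ) ^ l ≤ 1 - (1 / 2 : ℝ) ^ L := by
  induction L with
  | zero => simp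
  | succ n ih =>
    rw [Finset.sum_Icc_succ_top (by omega)]
    have : (1 / 2 : ℝ) ^ (n + 1) = (1 / 2 : ℝ) ^ n / 2 := by rw [pow_succ]; ring
    linarith

lemma inv_le_exp {t : ℝ} (h0 : 0 ≤ t) (h1 : t ≤ 1 / 2) :
    (1 - t)⁻¹ ≤ Real.exp (t + 2 * t ^ 2) := by
  have h2 : t + 2 * t ^ 2 + 1 ≤ Real.exp (t + 2 * t ^ 2) := Real.add_one_le_exp _
  refine le_trans ?_ h2
  have h3 : 0 < 1 - t := by linarith
  rw [inv_le_iff_one_le_mul₀ h3]
  have h4 : 0 ≤ t ^ 2 * (1 - 2 * t) := mul_nonneg (sq_nonneg _) (by linarith)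
  have h5 : (t + 2 * t ^ 2 + 1) * (1 - t) = 1 + t ^ 2 * (1 - 2 * t) := by ring
  rw [h5]
  linarith

lemma Z_le {q : ℕ} {C c : ℝ} {W n₀ : ℕ} (H : PHyp S q C c W n₀) (L : ℕ) (hL : 1 ≤ L) :
    ∏ p ∈ S.le L, (1 - (1 / (q : ℝ)) ^ S.deg p)⁻¹ ≤ Real.exp (3 * C) * L := by
  have hq2 : (2 : ℝ) ≤ q := by exact_mod_cast H.q2
  have hq : (0 : ℝ) < q := by linarith
  have hL0 : (0 : ℝ) < L := by exact_mod_cast hL
  have hx0 : 0 ≤ 1 / (q : ℝ) := by positivity
  have hx1 : 1 / (q : ℝ) ≤ 1 / 2 := one_div_le_one_div_of_le (by norm_num) hq2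
  have hC0 : 0 ≤ C := le_trans zero_le_one H.C1
  have ht : ∀ l : ℕ, 0 < l → (1 / (q : ℝ)) ^ l ≤ 1 / 2 := by
    intro l hl
    calc (1 / (q : ℝ)) ^ l ≤ (1 / (q : ℝ)) ^ 1 :=
          pow_le_pow_of_le_one hx0 (by linarith) hl
      _ ≤ 1 / 2 := by rw [pow_one]; exact hx1
  calc ∏ p ∈ S.le L, (1 - (1 / (q : ℝ)) ^ S.deg p)⁻¹
      ≤ ∏ p ∈ S.le L, Real.exp ((1 / (q : ℝ)) ^ S.deg p + 2 * ((1 / (q : ℝ)) ^ S.deg p) ^ 2) := by
        refine Finset.prod_le_prod (fun p _ => ?_) fun p _ => ?_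
        · have := ht _ (S.pos p)
          exact inv_nonneg.2 (by linarith)
        · exact inv_le_exp (pow_nonneg hx0 _) (ht _ (S.pos p))
    _ = Real.exp (∑ p ∈ S.le L,
          ((1 / (q : ℝ)) ^ S.deg p + 2 * ((1 / (q : ℝ)) ^ S.deg p) ^ 2)) := by
        rw [Real.exp_sum]
    _ ≤ Real.exp (Real.log L + 3 * C) := by
        refine Real.exp_le_exp.2 ?_
        rw [sum_le_deg S L (fun l => (1 / (q : ℝ)) ^ l + 2 * ((1 / (q : ℝ)) ^ l) ^ 2)]
        have h1 : ∀ l ∈ Finset.Icc 1 L, ((S.eq l).card : ℝ) *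
            ((1 / (q : ℝ)) ^ l + 2 * ((1 / (q : ℝ)) ^ l) ^ 2) ≤
            ((S.eq l).card : ℝ) / (q : ℝ) ^ l + 2 * C * (1 / 2 : ℝ) ^ l := by
          intro l hl
          have hl1 : 1 ≤ l := (Finset.mem_Icc.1 hl).1
          have hl1' : (1 : ℝ) ≤ l := by exact_mod_cast hl1
          have h2 := H.up l
          have hc0 : (0 : ℝ) ≤ ((S.eq l).card : ℝ) := Nat.cast_nonneg _
          have h3 : ((S.eq l).card : ℝ) ≤ C * (q : ℝ) ^ l := by
            calc ((S.eq l).card : ℝ) = 1 * ((S.eq l).card : ℝ) := (one_mul _).symm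
              _ ≤ (l : ℝ) * ((S.eq l).card : ℝ) := mul_le_mul_of_nonneg_right hl1' hc0
              _ ≤ _ := h2
          have h4 : ((S.eq l).card : ℝ) * (1 / (q : ℝ)) ^ l = ((S.eq l).card : ℝ) / (q : ℝ) ^ l := by
            rw [one_div, inv_pow, div_eq_mul_inv]
          have h5 : ((S.eq l).card : ℝ) * (1 / (q : ℝ)) ^ l ≤ C := by
            rw [h4, div_le_iff₀ (by positivity)]
            exact h3
          have h6 : (1 / (q : ℝ)) ^ l ≤ (1 / 2 : ℝ) ^ l := pow_le_pow_left₀ hx0 hx1 l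
          have h7 : ((S.eq l).card : ℝ) * (1 / (q : ℝ)) ^ l * (1 / (q : ℝ)) ^ l ≤
              C * (1 / 2 : ℝ) ^ l := mul_le_mul h5 h6 (pow_nonneg hx0 _) hC0
          calc ((S.eq l).card : ℝ) * ((1 / (q : ℝ)) ^ l + 2 * ((1 / (q : ℝ)) ^ l) ^ 2)
              = ((S.eq l).card : ℝ) * (1 / (q : ℝ)) ^ l +
                2 * (((S.eq l).card : ℝ) * (1 / (q : ℝ)) ^ l * (1 / (q : ℝ)) ^ l) := by ring
            _ ≤ ((S.eq l).card : ℝ) / (q : ℝ) ^ l + 2 * (C * (1 / 2 : ℝ) ^ l) := by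
                rw [h4] at h7 ⊢
                linarith
            _ = _ := by ring
        refine (Finset.sum_le_sum h1).trans ?_
        rw [Finset.sum_add_distrib, ← Finset.mul_sum]
        have h2 := H.mert L hL
        have h3 := half_sum L
        have h4 : (0 : ℝ) ≤ (1 / 2 : ℝ) ^ L := by positivity
        have h5 : 2 * C * ∑ l ∈ Finset.Icc 1 L, (1 / 2 : ℝ) ^ l ≤ 2 * C * 1 :=
          mul_le_mul_of_nonneg_left (by linarith) (by linarith)
        linarith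
    _ = Real.exp (3 * C) * L := by
        rw [Real.exp_add, Real.exp_log hL0, mul_comm]

/-- Counting. -/
lemma count (L m : ℕ) (Q : Finset ι → Prop) :
    {D : ι →₀ ℕ | dgf S D = m ∧ (∀ p, L < S.deg p → D p ≤ 1) ∧ Q D.support}.ncard ≤
      ∑ e ∈ (Fintype.piFinset (fun _ : {p // p ∈ S.le L} => range (m + 1))).filter
        (fun e => de S L e ≤ m), ((S.UU (m - de S L e)).filter (fun U => Q U)).card := by
  rw [← Finset.card_sigma, ← Set.ncard_coe_finset]
  refine Set.ncard_le_ncard_of_injOn (fun D => ⟨ex S L D, D.support⟩) ?_ ?_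
    (Finset.finite_toSet _)
  · rintro D ⟨h1, h2, h3⟩
    have h4 := dgf_eq S L D h2
    rw [h1] at h4
    rw [Finset.mem_coe, Finset.mem_sigma, Finset.mem_filter, Finset.mem_filter,
      Fintype.mem_piFinset]
    refine ⟨⟨fun p => ?_, ?_⟩, ?_, h3⟩
    · rw [Finset.mem_range]
      show ex S L D p < m + 1
      have h5 : ex S L D p * S.deg p.1 ≤ de S L (ex S L D) :=
        Finset.single_le_sum (f := fun p : {p // p ∈ S.le L} => ex S L D p * S.deg p.1)
          (fun _ _ => Nat.zero_le _) (Finset.mem_univ p)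
      have h6 : ex S L D p * 1 ≤ ex S L D p * S.deg p.1 := Nat.mul_le_mul_left _ (S.pos p.1)
      omega
    · show de S L (ex S L D) ≤ m
      omega
    · rw [mem_UU]
      show S.dg D.support = m - de S L (ex S L D)
      omega
  · rintro D ⟨h1, h2, h3⟩ D' ⟨h1', h2', h3'⟩ h
    have h4 : ex S L D = ex S L D' := congrArg Sigma.fst h
    have h5 : D.support = D'.support := by
      have := (Sigma.mk.inj_iff.1 h).2
      exact eq_of_heq this
    exact inj S L D D' h2 h2' h4 h5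

theorem trf : S_HALG → S_TRF := by
  intro hH ι S q C c W n₀ H
  obtain ⟨C2, hC2, hcard⟩ := hH ι S q C c W n₀ H
  have hq2 : (2 : ℝ) ≤ q := by exact_mod_cast H.q2
  have hq : (0 : ℝ) < q := by linarith
  have hUU : ∀ n, ((S.UU n).card : ℝ) ≤ C2 * (q : ℝ) ^ n := by
    intro n
    obtain ⟨I, -⟩ : ∃ I : Set ι, True := ⟨Set.univ, trivial⟩
    have h1 := hcard I 0 0 n
    have h2 : ∀ U ∈ S.UU n, (1 / 2 : ℝ) ^ (cntI S I 0 0 U) = 1 := by
      intro U _
      have h3 : cntI S I 0 0 U = 0 := by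
        unfold cntI
        rw [Finset.card_eq_zero, Finset.filter_eq_empty_iff]
        rintro p _ ⟨_, h4, h5⟩
        omega
      rw [h3, pow_zero]
    rw [Finset.sum_congr rfl h2, Finset.sum_const, nsmul_eq_mul, mul_one] at h1
    have h3 : Finset.Ioc 0 (min 0 n) = ∅ := by simp
    rw [h3, Finset.sum_empty, mul_zero, Real.exp_zero, mul_one] at h1
    exact h1
  refine ⟨Real.exp (3 * C), Real.exp_pos _, ?_⟩
  intro L hL Q η hη hQ ε hε
  obtain ⟨n₁, hn₁⟩ := hQ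
  obtain ⟨x, hx⟩ : ∃ x : ℝ, x = 1 / (q : ℝ) := ⟨_, rfl⟩
  have hx0 : 0 < x := by rw [hx]; positivity
  have hx1 : x ≤ 1 / 2 := by rw [hx]; exact one_div_le_one_div_of_le (by norm_num) hq2
  obtain ⟨y, hy⟩ : ∃ y : ℝ, y = Real.sqrt x := ⟨_, rfl⟩
  have hy0 : 0 < y := by rw [hy]; exact Real.sqrt_pos.2 hx0
  have hy2 : y * y = x := by rw [hy]; exact Real.mul_self_sqrt hx0.le
  have hy1 : y < 1 := by
    by_contra hcon
    have h1 : 1 ≤ y := not_lt.1 hcon
    have h2 : 1 * 1 ≤ y * y := mul_le_mul h1 h1 zero_le_one (by linarith)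
    rw [hy2] at h2
    linarith
  obtain ⟨Z, hZ⟩ : ∃ Z : ℝ, Z = ∏ p ∈ S.le L, (1 - y ^ S.deg p)⁻¹ := ⟨_, rfl⟩
  have hZ0 : 0 ≤ Z := by
    rw [hZ]
    refine Finset.prod_nonneg fun p _ => inv_nonneg.2 ?_
    have := pow_le_one₀ hy0.le hy1.le (n := S.deg p)
    linarith
  obtain ⟨k₀, hk₀⟩ : ∃ k : ℕ, C2 * Z * y ^ k ≤ ε := by
    obtain ⟨k, hk⟩ := exists_pow_lt_of_lt_one (show 0 < ε / (C2 * Z + 1) by positivity) hy1
    refine ⟨k, ?_⟩
    rw [lt_div_iff₀ (by positivity)] at hk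
    have h1 : 0 ≤ y ^ k := by positivity
    nlinarith
  refine ⟨n₁ + k₀, fun m hm => ?_⟩
  obtain ⟨P, hP⟩ : ∃ P, P = Fintype.piFinset (fun _ : {p // p ∈ S.le L} => range (m + 1)) :=
    ⟨_, rfl⟩
  have h1 := count S L m Q
  rw [← hP] at h1
  have h2 : ∀ e ∈ P.filter (fun e => de S L e ≤ m),
      (((S.UU (m - de S L e)).filter (fun U => Q U)).card : ℝ) ≤
        η * (q : ℝ) ^ m * x ^ (de S L e) + C2 * (q : ℝ) ^ m * (y ^ (m - n₁) * y ^ (de S L e)) := by
    intro e he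
    have hem : de S L e ≤ m := (Finset.mem_filter.1 he).2
    have hqm : (q : ℝ) ^ (m - de S L e) = (q : ℝ) ^ m * x ^ (de S L e) := by
      rw [hx, one_div, inv_pow, pow_sub₀ _ hq.ne' hem]
    by_cases hn : n₁ ≤ m - de S L e
    · have h3 := hn₁ _ hn
      rw [hqm] at h3
      have h4 : 0 ≤ C2 * (q : ℝ) ^ m * (y ^ (m - n₁) * y ^ (de S L e)) := by positivity
      calc _ ≤ _ := h3
        _ ≤ _ := by linarith
    · have h3 : (((S.UU (m - de S L e)).filter (fun U => Q U)).card : ℝ) ≤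
          ((S.UU (m - de S L e)).card : ℝ) := by
        exact_mod_cast Finset.card_filter_le _ _
      have h4 := h3.trans (hUU _)
      rw [hqm] at h4
      have h5 : x ^ (de S L e) ≤ y ^ (m - n₁) * y ^ (de S L e) := by
        rw [← hy2, mul_pow]
        refine mul_le_mul_of_nonneg_right ?_ (by positivity)
        exact pow_le_pow_of_le_one hy0.le hy1.le (by omega)
      have h6 : C2 * ((q : ℝ) ^ m * x ^ (de S L e)) ≤
          C2 * (q : ℝ) ^ m * (y ^ (m - n₁) * y ^ (de S L e)) := by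
        rw [← mul_assoc]
        exact mul_le_mul_of_nonneg_left h5 (by positivity)
      have h7 : 0 ≤ η * (q : ℝ) ^ m * x ^ (de S L e) := by positivity
      linarith
  have h3 : ({D : ι →₀ ℕ | dgf S D = m ∧ (∀ p, L < S.deg p → D p ≤ 1) ∧
      Q D.support}.ncard : ℝ) ≤ ∑ e ∈ P, (η * (q : ℝ) ^ m * x ^ (de S L e) +
        C2 * (q : ℝ) ^ m * (y ^ (m - n₁) * y ^ (de S L e))) := by
    calc _ ≤ ((∑ e ∈ P.filter (fun e => de S L e ≤ m),
          ((S.UU (m - de S L e)).filter (fun U => Q U)).card : ℕ) : ℝ) := by exact_mod_cast h1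
      _ = ∑ e ∈ P.filter (fun e => de S L e ≤ m),
          (((S.UU (m - de S L e)).filter (fun U => Q U)).card : ℝ) := by push_cast; rfl
      _ ≤ _ := Finset.sum_le_sum h2
      _ ≤ _ := Finset.sum_le_sum_of_subset_of_nonneg (Finset.filter_subset _ _)
          fun e _ _ => by positivity
  have h4 : ∑ e ∈ P, (η * (q : ℝ) ^ m * x ^ (de S L e) +
        C2 * (q : ℝ) ^ m * (y ^ (m - n₁) * y ^ (de S L e))) =
      η * (q : ℝ) ^ m * ∑ e ∈ P, x ^ (de S L e) +
        C2 * (q : ℝ) ^ m * y ^ (m - n₁) * ∑ e ∈ P, y ^ (de S L e) := by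
    rw [Finset.sum_add_distrib, Finset.mul_sum, Finset.mul_sum]
    congr 1
    refine Finset.sum_congr rfl fun e _ => ?_
    ring
  have h5 : ∑ e ∈ P, x ^ (de S L e) ≤ Real.exp (3 * C) * L := by
    rw [hP, hx]
    refine (sum_pow_le S L m (by positivity) (by rw [← hx]; linarith)).trans ?_
    exact Z_le S H L hL
  have h6 : ∑ e ∈ P, y ^ (de S L e) ≤ Z := by
    rw [hP, hZ]
    exact sum_pow_le S L m hy0.le hy1
  have h7 : η * (q : ℝ) ^ m * ∑ e ∈ P, x ^ (de S L e) ≤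
      η * (q : ℝ) ^ m * (Real.exp (3 * C) * L) := mul_le_mul_of_nonneg_left h5 (by positivity)
  have h8 : C2 * (q : ℝ) ^ m * y ^ (m - n₁) * ∑ e ∈ P, y ^ (de S L e) ≤
      ε * (q : ℝ) ^ m := by
    have h9 : y ^ (m - n₁) ≤ y ^ k₀ := pow_le_pow_of_le_one hy0.le hy1.le (by omega)
    calc C2 * (q : ℝ) ^ m * y ^ (m - n₁) * ∑ e ∈ P, y ^ (de S L e)
        ≤ C2 * (q : ℝ) ^ m * y ^ (m - n₁) * Z := mul_le_mul_of_nonneg_left h6 (by positivity)
      _ ≤ C2 * (q : ℝ) ^ m * y ^ k₀ * Z :=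
          mul_le_mul_of_nonneg_right (mul_le_mul_of_nonneg_left h9 (by positivity)) hZ0
      _ = (C2 * Z * y ^ k₀) * (q : ℝ) ^ m := by ring
      _ ≤ ε * (q : ℝ) ^ m := mul_le_mul_of_nonneg_right hk₀ (by positivity)
  calc _ ≤ _ := h3
    _ = _ := h4
    _ ≤ η * (q : ℝ) ^ m * (Real.exp (3 * C) * L) + ε * (q : ℝ) ^ m := add_le_add h7 h8
    _ = (Real.exp (3 * C) * L * η + ε) * (q : ℝ) ^ m := by ring

end Pool.Agent.H467.PG.Trf
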