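import Pool.Agent.H467.PG.SpecB

set_option autoImplicit false
set_option linter.all false

open Finset Filter WithZero
open Pool.Agent.H467.PT
open Pool.Agent.H467.GK
open Pool.Agent.H467.CT (AS)
open scoped Classical

namespace Pool.Agent.H467.PG.Ubg

variable {k K : Type} [Field k] [Field K] [Algebra k K]

theorem ex_exp (R : GFR k K) (j : PV K) (x : K) : ∃ n : ℤ, j.1 x ≤ exp n := by
  by_cases hx : x = 0
  · exact ⟨0, by rw [hx, map_zero]; exact zero_le'⟩
  · obtain ⟨D, hD, -⟩ := R.dvd x hx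
    exact ⟨D j, (hD j).le⟩

theorem fin_poles (R : GFR k K) (a : K) : {j : PV K | ¬ j.1 a ≤ 1}.Finite := by
  by_cases ha : a = 0
  · refine Set.finite_empty.subset ?_
    intro j hj
    exact absurd (by rw [ha, map_zero]; exact zero_le') hj
  · obtain ⟨D, hD, -⟩ := R.dvd a ha
    refine (D.support.finite_toSet).subset ?_
    intro j hj
    simp only [Finset.mem_coe, Finsupp.mem_support_iff]
    intro h0
    refine hj ?_
    rw [hD j, h0, exp_zero]

variable [CharP K 2]

theorem mkq_eq {a b : K} : mkq a = mkq b ↔ ∃ z : K, b = a + z ^ 2 + z := by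
  unfold mkq
  rw [QuotientAddGroup.eq]
  constructor
  · rintro ⟨z, hz⟩
    refine ⟨z, ?_⟩
    rw [add_assoc, ← hz]
    ring
  · rintro ⟨z, hz⟩
    refine ⟨z, ?_⟩
    rw [hz]
    ring

theorem rep (R : GFR k K) (w : PV K) (M : ℕ) (hM : R.N₀ ≤ ddg R.deg (Finsupp.single w (M : ℤ)))
    (D : PV K →₀ ℕ) (χ : Qc K) (hχ : ∀ j, Ple j (exp (2 * (D j : ℤ))) χ) :
    ∃ a : K, mkq a = χ ∧
      ∀ j : PV K, j.1 a ≤ exp (2 * ((D j : ℤ) + (Finsupp.single w (M : ℤ)) j)) := by
  set D' : PV K →₀ ℤ := Finsupp.single w (M : ℤ) with hD'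
  have hD'0 : ∀ j, 0 ≤ D' j := by
    intro j
    rw [hD', Finsupp.single_apply]
    split_ifs
    · positivity
    · exact le_rfl
  have h2 : (2 : K) = 0 := CharTwo.two_eq_zero
  obtain ⟨a, ha⟩ : ∃ a : K, mkq a = χ := QuotientAddGroup.mk_surjective χ
  have hz : ∀ j : PV K, ∃ z : K, j.1 (a + z ^ 2 + z) ≤ exp (2 * (D j : ℤ)) ∧
      (j.1 a ≤ 1 → z = 0) := by
    intro j
    by_cases h1 : j.1 a ≤ 1
    · refine ⟨0, ?_, fun _ => rfl⟩
      have : a + 0 ^ 2 + 0 = a := by ring
      rw [this]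
      refine h1.trans ?_
      rw [← exp_zero, exp_le_exp]
      positivity
    · obtain ⟨b, hb, hb'⟩ := hχ j
      rw [← ha] at hb
      obtain ⟨z, hz⟩ := mkq_eq.mp hb.symm
      exact ⟨z, by rw [← hz]; exact hb', fun h => absurd h h1⟩
  choose z hz1 hz2 using hz
  choose n hn using fun j : PV K => ex_exp R j (z j)
  have hfin := fin_poles R a
  obtain ⟨E, hE⟩ : ∃ E : PV K →₀ ℤ, E = ∑ j ∈ hfin.toFinset,
      Finsupp.single j (max (n j) 0 + 1) := ⟨_, rfl⟩
  have hE1 : ∀ j, E j = if j.1 a ≤ 1 then 0 else max (n j) 0 + 1 := by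
    intro j
    rw [hE, Finsupp.finset_sum_apply]
    simp only [Finsupp.single_apply]
    rw [Finset.sum_ite_eq']
    by_cases h1 : j.1 a ≤ 1
    · rw [if_pos h1, if_neg]
      simp only [Set.Finite.mem_toFinset, Set.mem_setOf_eq, not_not]
      exact h1
    · rw [if_neg h1, if_pos]
      simp only [Set.Finite.mem_toFinset, Set.mem_setOf_eq]
      exact h1
  have hE0 : ∀ j, 0 ≤ E j := by
    intro j
    rw [hE1]
    split_ifs
    · exact le_rfl
    · positivity
  have hle : D' ≤ D' + E := by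
    intro j
    rw [Finsupp.add_apply]
    linarith [hE0 j]
  obtain ⟨x, hx1, hx2⟩ := R.sa (D' + E) D' hle hM z (by
    intro j hj
    rw [Finsupp.add_apply] at hj
    have h3 : ¬ j.1 a ≤ 1 := by
      intro h4
      rw [hE1, if_pos h4] at hj
      omega
    refine (hn j).trans ?_
    rw [exp_le_exp, Finsupp.add_apply, hE1, if_neg h3]
    have := hD'0 j
    have := le_max_left (n j) 0
    omega)
  have hx3 : ∀ j : PV K, j.1 (x + z j) ≤ exp (D' j) := by
    intro j
    by_cases h1 : j.1 a ≤ 1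
    · rw [hz2 j h1, add_zero]
      have h4 := hx1 j
      rw [Finsupp.add_apply, hE1, if_pos h1, add_zero] at h4
      exact h4
    · refine hx2 j ?_
      rw [Finsupp.add_apply, hE1, if_neg h1]
      have := le_max_right (n j) 0
      omega
  refine ⟨a + x ^ 2 + x, ?_, ?_⟩
  · rw [← ha]
    exact (mkq_eq.mpr ⟨x, rfl⟩).symm
  · intro j
    have he : a + x ^ 2 + x = (a + z j ^ 2 + z j) + ((x + z j) ^ 2 + (x + z j)) := by
      linear_combination (-(z j ^ 2) - x * z j - z j) * h2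
    have hmono : exp (D' j) ≤ exp (2 * ((D j : ℤ) + D' j)) := by
      rw [exp_le_exp]
      have := hD'0 j
      have : (0 : ℤ) ≤ (D j : ℤ) := by positivity
      omega
    rw [he]
    refine j.1.map_add_le ?_ (j.1.map_add_le ?_ ?_)
    · refine (hz1 j).trans ?_
      rw [exp_le_exp]
      have := hD'0 j
      omega
    · rw [map_pow]
      calc j.1 (x + z j) ^ 2 ≤ exp (D' j) ^ 2 := pow_le_pow_left₀ zero_le' (hx3 j) 2
        _ = exp (2 * D' j) := by rw [pow_two, ← exp_add, two_mul]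
        _ ≤ _ := by
          rw [exp_le_exp]
          have : (0 : ℤ) ≤ (D j : ℤ) := by positivity
          omega
    · exact (hx3 j).trans hmono

theorem count (L L' : Finset K) (A : Finset (Qc K))
    (h : ∀ χ ∈ A, ∃ a : K, mkq a = χ ∧ ∀ z ∈ L', a + z ^ 2 + z ∈ L) :
    A.card * L'.card ≤ 2 * L.card := by
  have h2 : (2 : K) = 0 := CharTwo.two_eq_zero
  have h1 : ∀ χ ∈ A, L'.card ≤ 2 * (L.filter (fun x => mkq x = χ)).card := by
    intro χ hχ
    obtain ⟨a, ha, hz⟩ := h χ hχ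
    have h3 := Finset.card_le_mul_card_image (f := fun z : K => a + z ^ 2 + z) L' 2 (by
      intro b hb
      obtain ⟨z, hz', hb'⟩ := Finset.mem_image.mp hb
      have hsub : L'.filter (fun y : K => a + y ^ 2 + y = b) ⊆ {z, z + 1} := by
        intro y hy
        rw [Finset.mem_filter] at hy
        have h4 : (y - z) * (y - (z + 1)) = 0 := by
          have h5 := hy.2
          rw [← hb'] at h5
          linear_combination h5 - (y * z - z ^ 2 + y - z) * h2
        rw [Finset.mem_insert, Finset.mem_singleton]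
        rcases mul_eq_zero.mp h4 with h5 | h5
        · exact Or.inl (sub_eq_zero.mp h5)
        · exact Or.inr (sub_eq_zero.mp h5)
      exact (Finset.card_le_card hsub).trans Finset.card_le_two)
    refine h3.trans (Nat.mul_le_mul_left 2 (Finset.card_le_card ?_))
    intro b hb
    obtain ⟨z, hz', hb'⟩ := Finset.mem_image.mp hb
    rw [Finset.mem_filter]
    refine ⟨hb' ▸ hz z hz', ?_⟩
    rw [← ha]
    exact (mkq_eq.mpr ⟨z, hb'.symm⟩).symm
  calc A.card * L'.card = ∑ χ ∈ A, L'.card := by rw [Finset.sum_const, smul_eq_mul]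
    _ ≤ ∑ χ ∈ A, 2 * (L.filter (fun x => mkq x = χ)).card := Finset.sum_le_sum h1
    _ = 2 * ∑ χ ∈ A, (L.filter (fun x => mkq x = χ)).card := by rw [Finset.mul_sum]
    _ = 2 * (L.filter (fun x => mkq x ∈ A)).card := by
        rw [Finset.sum_card_fiberwise_eq_card_filter]
    _ ≤ 2 * L.card := Nat.mul_le_mul_left 2 (Finset.card_filter_le _ _)

theorem main [Finite k] (R : GFR k K) : ∃ C : ℝ, 0 < C ∧ ∀ D : PV K →₀ ℕ,
    {χ : Qc K | ∀ j, Ple j (exp (2 * (D j : ℤ))) χ}.Finite ∧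
    ({χ : Qc K | ∀ j, Ple j (exp (2 * (D j : ℤ))) χ}.ncard : ℝ) ≤
      C * (Nat.card k : ℝ) ^ (D.sum fun j n => n * R.deg j) := by
  have hq1 : 1 ≤ Nat.card k := Nat.one_le_iff_ne_zero.mpr Nat.card_pos.ne'
  have hq : (1 : ℝ) ≤ (Nat.card k : ℝ) := by exact_mod_cast hq1
  rcases isEmpty_or_nonempty (PV K) with hemp | ⟨⟨w⟩⟩
  · have h1 : (LLs (0 : PV K →₀ ℤ)) = Set.univ := by
      ext x
      simp only [LLs, Set.mem_setOf_eq, Set.mem_univ, iff_true]
      intro j
      exact hemp.elim j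
    have h2 : (Set.univ : Set K).Finite := h1 ▸ R.fin 0
    haveI : Finite K := Set.finite_univ_iff.mp h2
    haveI : Finite (Qc K) := Quotient.finite _
    refine ⟨Nat.card (Qc K), by exact_mod_cast Nat.card_pos, fun D => ⟨Set.toFinite _, ?_⟩⟩
    have h3 : ({χ : Qc K | ∀ j, Ple j (exp (2 * (D j : ℤ))) χ}.ncard : ℝ) ≤ Nat.card (Qc K) := by
      rw [← Set.ncard_univ]
      exact_mod_cast Set.ncard_le_ncard (Set.subset_univ _) (Set.toFinite _)
    refine h3.trans ?_
    have h4 : (1 : ℝ) ≤ (Nat.card k : ℝ) ^ (D.sum fun j n => n * R.deg j) := one_le_pow₀ hq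
    have h5 : (0 : ℝ) ≤ (Nat.card (Qc K) : ℝ) := by positivity
    nlinarith
  · obtain ⟨M, hM⟩ : ∃ M : ℕ, M = R.N₀.toNat := ⟨_, rfl⟩
    have hdeg := R.pos w
    have hdM : ddg R.deg (Finsupp.single w (M : ℤ)) = ((M * R.deg w : ℕ) : ℤ) := by
      unfold ddg
      rw [Finsupp.sum_single_index (by ring)]
      push_cast
      ring
    have hN : R.N₀ ≤ ddg R.deg (Finsupp.single w (M : ℤ)) := by
      rw [hdM]
      have h1 : R.N₀ ≤ (M : ℤ) := by rw [hM]; exact Int.self_le_toNat _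
      have h2 : M ≤ M * R.deg w := Nat.le_mul_of_pos_right _ hdeg
      have h3 : (M : ℤ) ≤ ((M * R.deg w : ℕ) : ℤ) := by exact_mod_cast h2
      exact h1.trans h3
    refine ⟨2 * (Nat.card k : ℝ) ^ (M * R.deg w), by positivity, fun D => ?_⟩
    obtain ⟨Dz, hDz⟩ : ∃ Dz : PV K →₀ ℤ, Dz = D.mapRange (fun n : ℕ => (n : ℤ)) (by simp) := ⟨_, rfl⟩
    have hDzj : ∀ j, Dz j = (D j : ℤ) := by
      intro j; rw [hDz, Finsupp.mapRange_apply]
    have hadd : ∀ A B : PV K →₀ ℤ, ddg R.deg (A + B) = ddg R.deg A + ddg R.deg B := by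
      intro A B
      unfold ddg
      exact Finsupp.sum_add_index' (fun j => by ring) (fun j m n => by ring)
    have hdD : ddg R.deg Dz = ((D.sum fun j n => n * R.deg j : ℕ) : ℤ) := by
      unfold ddg
      rw [hDz, Finsupp.sum_mapRange_index (fun j => by ring)]
      unfold Finsupp.sum
      push_cast
      rfl
    obtain ⟨E, hE⟩ : ∃ E : PV K →₀ ℤ, E = Dz + Finsupp.single w (M : ℤ) := ⟨_, rfl⟩
    obtain ⟨m, hm⟩ : ∃ m : ℕ, m = (D.sum fun j n => n * R.deg j) + M * R.deg w := ⟨_, rfl⟩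
    have hdE : ddg R.deg E = (m : ℤ) := by
      rw [hE, hadd, hdD, hdM, hm]
      push_cast
      ring
    have hEj : ∀ j, E j = (D j : ℤ) + (Finsupp.single w (M : ℤ)) j := by
      intro j; rw [hE, Finsupp.add_apply, hDzj]
    have hE0 : ∀ j, 0 ≤ E j := by
      intro j
      rw [hEj, Finsupp.single_apply]
      split_ifs <;> positivity
    have hNE : R.N₀ ≤ ddg R.deg E := by
      rw [hE, hadd, hdD]
      have : (0 : ℤ) ≤ ((D.sum fun j n => n * R.deg j : ℕ) : ℤ) := by positivity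
      linarith
    have hNEE : R.N₀ ≤ ddg R.deg (E + E) := by
      rw [hadd]
      have : (0 : ℤ) ≤ ddg R.deg E := by rw [hdE]; positivity
      linarith
    obtain ⟨n1, hn1, hc1⟩ := R.riem E hNE
    obtain ⟨n2, hn2, hc2⟩ := R.riem (E + E) hNEE
    have hf1 := R.fin E
    have hf2 := R.fin (E + E)
    have hrep : ∀ χ : Qc K, (∀ j, Ple j (exp (2 * (D j : ℤ))) χ) →
        ∃ a : K, mkq a = χ ∧ ∀ j : PV K, j.1 a ≤ exp ((E + E) j) := by
      intro χ hχ
      obtain ⟨a, h1, h2⟩ := rep R w M hN D χ hχ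
      refine ⟨a, h1, fun j => ?_⟩
      have h3 := h2 j
      rw [← hEj, two_mul, ← Finsupp.add_apply] at h3
      exact h3
    have hfin : {χ : Qc K | ∀ j, Ple j (exp (2 * (D j : ℤ))) χ}.Finite := by
      refine (hf2.image mkq).subset ?_
      intro χ hχ
      obtain ⟨a, h1, h2⟩ := hrep χ hχ
      exact ⟨a, h2, h1⟩
    refine ⟨hfin, ?_⟩
    have hcount := count hf2.toFinset hf1.toFinset hfin.toFinset (by
      intro χ hχ
      rw [Set.Finite.mem_toFinset] at hχ
      obtain ⟨a, h1, h2⟩ := hrep χ hχ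
      refine ⟨a, h1, fun z hz => ?_⟩
      rw [Set.Finite.mem_toFinset] at hz ⊢
      intro j
      have hz' : j.1 z ≤ exp (E j) := hz j
      have h0 := hE0 j
      refine j.1.map_add_le (j.1.map_add_le (h2 j) ?_) ?_
      · rw [map_pow]
        calc j.1 z ^ 2 ≤ exp (E j) ^ 2 := pow_le_pow_left₀ zero_le' hz' 2
          _ = exp ((E + E) j) := by rw [pow_two, ← exp_add, Finsupp.add_apply]
      · refine hz'.trans ?_
        rw [exp_le_exp, Finsupp.add_apply]
        linarith)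
    rw [← Set.ncard_eq_toFinset_card _ hfin, ← Set.ncard_eq_toFinset_card _ hf1,
      ← Set.ncard_eq_toFinset_card _ hf2, hc1, hc2] at hcount
    have hn : n2 = n1 + m := by
      have h1 : (n2 : ℤ) = (n1 : ℤ) + m := by
        rw [hn1, hn2, hadd, hdE]
        ring
      exact_mod_cast h1
    rw [hn, pow_add] at hcount
    have hpos : 0 < Nat.card k ^ n1 := pow_pos hq1 _
    have h5 : {χ : Qc K | ∀ j, Ple j (exp (2 * (D j : ℤ))) χ}.ncard ≤ 2 * Nat.card k ^ m := by
      refine Nat.le_of_mul_le_mul_right ?_ hpos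
      refine hcount.trans (le_of_eq ?_)
      ring
    have h6 : ({χ : Qc K | ∀ j, Ple j (exp (2 * (D j : ℤ))) χ}.ncard : ℝ) ≤
        2 * (Nat.card k : ℝ) ^ m := by exact_mod_cast h5
    refine h6.trans (le_of_eq ?_)
    rw [hm, pow_add]
    ring

theorem ubg : S_POQ → S_UBG := by
  intro _ k K _ _ _ _ _ R
  exact main R

end Pool.Agent.H467.PG.Ubg
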