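import Pool.Agent.H467.PG.SpecB

/-!
# Normalised units
-/

set_option autoImplicit false
set_option linter.all false

open Finset Filter WithZero WeierstrassCurve WeierstrassCurve.Affine
open Pool.Agent.TH115.GD
open Pool.Agent.H467.PT
open Pool.Agent.H467.GK
open Pool.Agent.H467.CT (AS Bas IsTau Std Ev LV LF cc)
open scoped Classical

namespace Pool.Agent.H467.PG.Uno

section

variable {k K : Type} [Field k] [Field K] [Algebra k K]

theorem ddg_add (deg : PV K → ℕ) (D E : PV K →₀ ℤ) :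
    ddg deg (D + E) = ddg deg D + ddg deg E := by
  unfold ddg
  exact Finsupp.sum_add_index' (fun _ => zero_mul _) (fun _ _ _ => add_mul _ _ _)

theorem ddg_neg (deg : PV K → ℕ) (D : PV K →₀ ℤ) : ddg deg (-D) = - ddg deg D := by
  have h := ddg_add deg D (-D)
  rw [add_neg_cancel] at h
  have h0 : ddg deg (0 : PV K →₀ ℤ) = 0 := Finsupp.sum_zero_index
  rw [h0] at h
  linarith

theorem ddg_single (deg : PV K → ℕ) (j : PV K) (n : ℤ) :
    ddg deg (Finsupp.single j n) = n * deg j := by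
  unfold ddg
  exact Finsupp.sum_single_index (zero_mul _)

theorem ddg_ge (deg : PV K → ℕ) {D : PV K →₀ ℤ} (hD : 0 ≤ D) (j : PV K) :
    D j * deg j ≤ ddg deg D := by
  have hn : ∀ i ∈ D.support, 0 ≤ D i * (deg i : ℤ) := fun i _ =>
    mul_nonneg (hD i) (by positivity)
  by_cases hj : j ∈ D.support
  · unfold ddg Finsupp.sum
    exact Finset.single_le_sum (f := fun i => D i * (deg i : ℤ)) hn hj
  · rw [Finsupp.notMem_support_iff.1 hj, zero_mul]
    unfold ddg Finsupp.sum
    exact Finset.sum_nonneg hn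

theorem eff_finite (R : GFR k K) {N : ℤ} (hN : 0 ≤ N) :
    {D : PV K →₀ ℤ | 0 ≤ D ∧ ddg R.deg D = N}.Finite := by
  set U : PV K →₀ ℤ := ∑ j ∈ R.le N.toNat, Finsupp.single j N with hU
  have hUj : ∀ j, U j = if j ∈ R.le N.toNat then N else 0 := by
    intro j
    rw [hU, Finsupp.finset_sum_apply]
    simp only [Finsupp.single_apply]
    rw [Finset.sum_ite_eq']
  refine (Set.finite_Icc (0 : PV K →₀ ℤ) U).subset ?_
  rintro D ⟨hD, hDN⟩
  refine ⟨hD, fun j => ?_⟩
  have h1 := ddg_ge R.deg hD j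
  rw [hDN] at h1
  have h2 : (1 : ℤ) ≤ R.deg j := by exact_mod_cast R.pos j
  have h3 : 0 ≤ D j := hD j
  rw [hUj j]
  split_ifs with hj
  · nlinarith
  · by_contra hcon
    rw [not_le] at hcon
    apply hj
    rw [R.mem_le]
    have h4 : (R.deg j : ℤ) ≤ N := by nlinarith
    have h5 : ((N.toNat : ℕ) : ℤ) = N := Int.toNat_of_nonneg hN
    rw [← h5] at h4
    exact_mod_cast h4

/-- Units with one zero and one pole. -/
theorem unit [Finite k] (R : GFR k K) {i w : PV K} (hiw : i ≠ w) :
    ∃ (η : K) (h : ℤ), η ≠ 0 ∧ 0 < h ∧ i.1 η = exp h ∧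
      ∀ j : PV K, j ≠ i → j ≠ w → j.1 η = 1 := by
  have ha : (1 : ℤ) ≤ R.deg i := by exact_mod_cast R.pos i
  have hb : (1 : ℤ) ≤ R.deg w := by exact_mod_cast R.pos w
  set a : ℤ := ((R.deg i : ℕ) : ℤ) with ha'
  set b : ℤ := ((R.deg w : ℕ) : ℤ) with hb'
  set M : ℤ := max 0 (max R.N₀ (R.gam + 1)) with hM
  have hM0 : 0 ≤ M := le_max_left _ _
  have hM1 : R.N₀ ≤ M := (le_max_left _ _).trans (le_max_right _ _)
  have hM2 : R.gam + 1 ≤ M := (le_max_right _ _).trans (le_max_right _ _)
  have hMb : M ≤ M * b := by nlinarith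
  have hN0 : 0 ≤ M * b := le_trans hM0 hMb
  set D : ℕ → PV K →₀ ℤ := fun n => Finsupp.single i ((n : ℤ) * b) +
    Finsupp.single w (M - (n : ℤ) * a) with hD
  have hDd : ∀ n, ddg R.deg (D n) = M * b := by
    intro n
    rw [hD]
    simp only
    rw [ddg_add, ddg_single, ddg_single]
    ring
  have hex : ∀ n, ∃ x ∈ LLs (D n), x ≠ 0 := by
    intro n
    obtain ⟨n', hn', hc⟩ := R.riem (D n) (by rw [hDd]; linarith)
    rw [hDd] at hn'
    have hn1 : 1 ≤ n' := by
      have : (1 : ℤ) ≤ n' := by rw [hn']; linarith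
      exact_mod_cast this
    have hk : 1 < Nat.card k := Finite.one_lt_card
    have h1 : 1 < (LLs (D n)).ncard := by
      rw [hc]
      exact Nat.one_lt_pow (by omega) hk
    obtain ⟨x, hx, hx0⟩ := Set.exists_ne_of_one_lt_ncard h1 0
    exact ⟨x, hx, hx0⟩
  choose x hx hx0 using hex
  choose E hE hE0 using fun n => R.dvd (x n) (hx0 n)
  have hG : ∀ n, D n - E n ∈ {D : PV K →₀ ℤ | 0 ≤ D ∧ ddg R.deg D = M * b} := by
    intro n
    constructor
    · intro j
      have h1 := hx n j
      rw [hE n j, exp_le_exp] at h1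
      simp only [Finsupp.coe_zero, Pi.zero_apply, Finsupp.coe_sub, Pi.sub_apply]
      linarith
    · rw [sub_eq_add_neg, ddg_add, ddg_neg, hDd, hE0]
      ring
  haveI : Finite {D : PV K →₀ ℤ | 0 ≤ D ∧ ddg R.deg D = M * b} := (eff_finite R hN0).to_subtype
  obtain ⟨n, m, hnm, hfe⟩ := Finite.exists_ne_map_eq_of_infinite
    (fun n : ℕ => (⟨D n - E n, hG n⟩ : {D : PV K →₀ ℤ | 0 ≤ D ∧ ddg R.deg D = M * b}))
  have hfe' : D n - E n = D m - E m := congrArg Subtype.val hfe
  wlog hlt : n < m generalizing n m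
  · exact this m n hnm.symm hfe.symm hfe'.symm (by omega)
  have key : ∀ j, E m j - E n j = D m j - D n j := by
    intro j
    have := DFunLike.congr_fun hfe' j
    simp only [Finsupp.coe_sub, Pi.sub_apply] at this
    linarith
  have hval : ∀ j : PV K, j.1 (x m / x n) = exp (D m j - D n j) := by
    intro j
    rw [map_div₀, hE m j, hE n j, ← exp_sub, key j]
  refine ⟨x m / x n, ((m : ℤ) - n) * b, div_ne_zero (hx0 m) (hx0 n), ?_, ?_, ?_⟩
  · have : (0 : ℤ) < (m : ℤ) - n := by
      have : (n : ℤ) < m := by exact_mod_cast hlt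
      linarith
    positivity
  · rw [hval i]
    congr 1
    rw [hD]
    simp only [Finsupp.coe_add, Pi.add_apply, Finsupp.single_eq_same]
    rw [Finsupp.single_eq_of_ne hiw, Finsupp.single_eq_of_ne hiw]
    ring
  · intro j hji hjw
    rw [hval j]
    rw [hD]
    simp only [Finsupp.coe_add, Pi.add_apply]
    rw [Finsupp.single_eq_of_ne hji, Finsupp.single_eq_of_ne hji, Finsupp.single_eq_of_ne hjw,
      Finsupp.single_eq_of_ne hjw]
    simp

end

theorem uno : S_UNO := by
  intro k K _ _ _ _ _ F B bd w hw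
  have hun : ∀ i : PV K, ∃ (η : K) (h : ℤ), η ≠ 0 ∧ 0 < h ∧ (i ≠ w → i.1 η = exp h) ∧
      ∀ j : PV K, j ≠ i → j ≠ w → j.1 η = 1 := by
    intro i
    by_cases hi : i = w
    · exact ⟨1, 1, one_ne_zero, one_pos, fun h => absurd hi h, fun j _ _ => map_one _⟩
    · obtain ⟨η, h, h1, h2, h3, h4⟩ := unit F.R hi
      exact ⟨η, h, h1, h2, fun _ => h3, h4⟩
  choose η h hη0 hh hηi hηj using hun
  have hsum : 0 ≤ ∑ i ∈ B, h i := Finset.sum_nonneg fun i _ => (hh i).le
  refine ⟨∑ i ∈ B, h i, hsum, fun V => ?_⟩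
  set x0 : K := ∏ P ∈ V, bd.g P with hx0
  have hx0n : x0 ≠ 0 := Finset.prod_ne_zero_iff.2 fun P _ => bd.gne P
  obtain ⟨D0, hD0, -⟩ := F.R.dvd x0 hx0n
  set S : Finset (PV K) := B.erase w with hS
  set ε : K := ∏ i ∈ S, η i ^ (-(D0 i / h i)) with hε
  have hεn : ε ≠ 0 := Finset.prod_ne_zero_iff.2 fun i _ => zpow_ne_zero _ (hη0 i)
  -- valuations of ε
  have hεv : ∀ j : PV K, j ∉ B → j.1 ε = 1 := by
    intro j hj
    rw [hε, map_prod]
    refine Finset.prod_eq_one fun i hi => ?_
    rw [map_zpow₀, hηj i j, one_zpow]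
    · rintro rfl
      exact hj (Finset.mem_of_mem_erase hi)
    · rintro rfl
      exact hj hw
  have hεi : ∀ i ∈ S, i.1 ε = exp (-(D0 i / h i) * h i) := by
    intro i hi
    have hiw : i ≠ w := Finset.ne_of_mem_erase hi
    rw [hε, map_prod, Finset.prod_eq_single i]
    · rw [map_zpow₀, hηi i hiw, ← exp_zsmul, smul_eq_mul]
    · intro b _ hbi
      rw [map_zpow₀, hηj b i hbi.symm hiw, one_zpow]
    · intro hh'
      exact absurd hi hh'
  have hx0v : ∀ j : Ob B, j.1.1 x0 = if j ∈ V then exp (-1 : ℤ) else 1 := by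
    intro j
    rw [hx0, map_prod]
    split_ifs with hj
    · rw [Finset.prod_eq_single j]
      · exact bd.gor j
      · intro P _ hPj
        exact bd.gun P j hPj.symm
      · intro hh'
        exact absurd hj hh'
    · refine Finset.prod_eq_one fun P hP => bd.gun P j ?_
      rintro rfl
      exact hj hP
  obtain ⟨V', hV', e, y, hy, hey⟩ := bd.gen ∅ ε hεn (by
    intro j _
    rw [hεv j.1 j.2]
    exact ⟨0, by simp⟩)
  have hV0 : V' = ∅ := Finset.subset_empty.1 hV'
  subst hV0
  have hxe : pd bd.u bd.g V e * y ^ 2 = x0 * ε := by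
    rw [hey]
    unfold pd
    rw [Finset.prod_empty, one_mul, hx0]
    ring
  have hxn : x0 * ε ≠ 0 := mul_ne_zero hx0n hεn
  obtain ⟨D, hDv, hDd⟩ := F.R.dvd (x0 * ε) hxn
  refine ⟨e, y, hy, ?_, ?_, ?_, ?_⟩
  · intro j hj
    rw [hxe, map_mul, hx0v j, if_pos hj, hεv j.1 j.2, mul_one]
  · intro j hj
    rw [hxe, map_mul, hx0v j, if_neg hj, hεv j.1 j.2, mul_one]
  · intro j hj hjw
    have hjS : j ∈ S := Finset.mem_erase.2 ⟨hjw, hj⟩
    rw [hxe, map_mul, hD0 j, hεi j hjS, ← exp_add, exp_le_exp]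
    have h1 : D0 j + -(D0 j / h j) * h j = D0 j % h j := by
      have := Int.emod_add_mul_ediv (D0 j) (h j)
      linarith
    rw [h1]
    have h2 : D0 j % h j < h j := Int.emod_lt_of_pos _ (hh j)
    have h3 : h j ≤ ∑ i ∈ B, h i := Finset.single_le_sum (fun i _ => (hh i).le) hj
    linarith
  · refine ⟨D w, ?_, ?_⟩
    · rw [hxe, hDv w]
    · -- the degree
      have hDi : ∀ i ∈ S, 0 ≤ D i := by
        intro i hi
        have h1 : i.1 (x0 * ε) = exp (D0 i % h i) := by
          rw [map_mul, hD0 i, hεi i hi, ← exp_add]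
          congr 1
          have := Int.emod_add_mul_ediv (D0 i) (h i)
          linarith
        rw [hDv i] at h1
        have h2 : D i = D0 i % h i := exp_injective h1
        rw [h2]
        exact Int.emod_nonneg _ (hh i).ne'
      have hDV : ∀ j : Ob B, D j.1 = if j ∈ V then -1 else 0 := by
        intro j
        have h1 : j.1.1 (x0 * ε) = exp (if j ∈ V then -1 else 0 : ℤ) := by
          rw [map_mul, hx0v j, hεv j.1 j.2, mul_one]
          split_ifs
          · rfl
          · rw [exp_zero]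
        rw [hDv j.1] at h1
        exact exp_injective h1
      have hsub : D.support ⊆ B ∪ V.map ⟨Subtype.val, Subtype.val_injective⟩ := by
        intro j hj
        rw [Finset.mem_union]
        by_cases hjB : j ∈ B
        · exact Or.inl hjB
        · right
          rw [Finset.mem_map]
          refine ⟨⟨j, hjB⟩, ?_, rfl⟩
          by_contra hjV
          have := hDV ⟨j, hjB⟩
          rw [if_neg hjV] at this
          exact (Finsupp.mem_support_iff.1 hj) this
      have hdis : Disjoint B (V.map ⟨Subtype.val, Subtype.val_injective⟩) := by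
        rw [Finset.disjoint_left]
        intro j hj hj'
        rw [Finset.mem_map] at hj'
        obtain ⟨j', _, rfl⟩ := hj'
        exact j'.2 hj
      have h1 : ddg F.R.deg D = ∑ j ∈ B ∪ V.map ⟨Subtype.val, Subtype.val_injective⟩,
          D j * (F.R.deg j : ℤ) := by
        unfold ddg
        exact Finsupp.sum_of_support_subset _ hsub _ (fun _ _ => zero_mul _)
      rw [hDd, Finset.sum_union hdis, Finset.sum_map, ← Finset.add_sum_erase _ _ hw] at h1
      have h2 : ∑ j ∈ V, D ((⟨Subtype.val, Subtype.val_injective⟩ : Ob B ↪ PV K) j) *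
          (F.R.deg ((⟨Subtype.val, Subtype.val_injective⟩ : Ob B ↪ PV K) j) : ℤ) =
          - (((sysB F.R B).dg V : ℕ) : ℤ) := by
        unfold PSys.dg
        push_cast
        rw [← Finset.sum_neg_distrib]
        refine Finset.sum_congr rfl fun j hj => ?_
        show D j.1 * (F.R.deg j.1 : ℤ) = -((sysB F.R B).deg j : ℤ)
        rw [hDV j, if_pos hj]
        show -1 * (F.R.deg j.1 : ℤ) = -(F.R.deg j.1 : ℤ)
        ring
      rw [h2] at h1
      have h3 : 0 ≤ ∑ i ∈ B.erase w, D i * (F.R.deg i : ℤ) :=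
        Finset.sum_nonneg fun i hi => mul_nonneg (hDi i hi) (by positivity)
      linarith

end Pool.Agent.H467.PG.Uno
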