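import Pool.Agent.H467.PG.Asm
import Pool.Agent.H467.PG.Halg
import Pool.Agent.H467.PG.Bad
import Pool.Agent.H467.PG.Div
import Pool.Agent.H467.PG.Trf
import Pool.Agent.H467.PG.Fav
import Pool.Agent.H467.PG.Nnc
import Pool.Agent.H467.PG.Ling
import Pool.Agent.H467.PG.Pnr
import Pool.Agent.H467.PG.Ordg
import Pool.Agent.H467.PG.Gfr
import Pool.Agent.H467.PG.Gfs
import Pool.Agent.H467.PG.Gfu
import Pool.Agent.H467.PG.Gfp
import Pool.Agent.H467.PG.Poq
import Pool.Agent.H467.PG.Sym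
import Pool.Agent.H467.PG.Bde
import Pool.Agent.H467.PG.Uno
import Pool.Agent.H467.PG.Rkg
import Pool.Agent.H467.PG.Cfx
import Pool.Agent.H467.PG.Ubg
import Pool.Agent.H467.PG.Llc
import Pool.Agent.H467.PG.Ldg
import Pool.Agent.H467.PG.Dir
import Pool.Agent.H467.PG.Svm
import Pool.Agent.H467.PG.Jin
import Pool.Agent.H467.PG.Taub
import Pool.Agent.H467.PG.Pkg
import Pool.Agent.H467.PG.Hsd
import Pool.Agent.H467.PG.Locv
import Pool.Agent.H467.PG.Locf
import Pool.Agent.H467.PG.Ful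
import Pool.Agent.H467.PG.Ffi
import Pool.Agent.H467.PG.Sqma
import Pool.Agent.H467.PG.Fn2a
import Pool.Agent.H467.PG.Dwna
import Pool.Agent.H467.PG.One
import Pool.Agent.H467.PG.Nic
import Pool.Agent.H467.PG.Omu
import Pool.Agent.H467.PG.Omd
import Pool.Agent.H467.PG.Omn
import Pool.Agent.H467.PG.Oml
import Pool.Agent.H467.PG.Core
import Pool.Agent.H467.PG.Dst
import Pool.Agent.H467.PG.Bex
import Pool.Agent.H467.PT.Rel

/-!
# Distribution of a Selmer group over all twists: all parts together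

Project PG (helper467).
-/

set_option autoImplicit false
set_option linter.all false

open Filter WithZero
open Pool.Agent.H467.PT
open Pool.Agent.H467.GK
open scoped Classical

namespace Pool.Agent.H467.PG.Fin

theorem hPOQ : S_POQ := Poq.poq
theorem hSYM : S_SYM := Sym.sym hPOQ
theorem hHALG : S_HALG := Halg.halg
theorem hBAD : S_BAD := Bad.bad hHALG Pool.Agent.H467.PT.Rel.rel
theorem hDIV : S_DIV := Div.div hHALG
theorem hTRF : S_TRF := Trf.trf hHALG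
theorem hFAV : S_FAV := Fav.fav hHALG hTRF
theorem hNNC : S_NNC := Nnc.nnc hBAD hDIV hTRF hFAV
theorem hGF : Asm.S_GF := Asm.gf Gfr.gfr Gfs.gfs Gfu.gfu Gfp.gfp
theorem hCFX : S_CFX := Cfx.cfx hPOQ hSYM
theorem hUBG : S_UBG := Ubg.ubg hPOQ
theorem hLLC : S_LLC := Llc.llc hPOQ
theorem hDIR : S_DIR := Dir.dir Ldg.ldg hCFX hPOQ hSYM
theorem hSVM : S_SVM := Svm.svm hCFX hPOQ hSYM
theorem hJIN : S_JIN := Jin.jin hCFX hPOQ hSYM
theorem hPKG : S_PKG := Pkg.pkg Taub.taub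
theorem hRKG : S_RKG := Rkg.rkg Uno.uno hPOQ hSYM
theorem hHSD : S_HSD := Hsd.hsd hPOQ
theorem hFUL : S_FUL := Ful.ful hSVM Bde.bde hHSD hPOQ hSYM
theorem hONE : S_ONE := One.one Locv.locv Locf.locf hFUL Ffi.ffi Sqma.sqma
  (Dwna.dwna Fn2a.fn2a) hPOQ hSYM
theorem hOMU : S_OMU := Omu.omu hUBG hPOQ

theorem hDST (hCHB : S_CHB) (hFIB : S_FIB) : S_DST := by
  have hNIC : S_NIC := Nic.nic hNNC hPKG hRKG hCHB hUBG hPOQ
  have hOMD : S_OMD := Omd.omd hFIB hOMU hPOQ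
  have hOMN : S_OMN := Omn.omn hFIB Ordg.ordg hDIR hOMU hPOQ
  have hOML : S_OML := Oml.oml hNIC hOMN hOMU hPKG Bde.bde hDIV
  have hCORE : S_CORE := Core.core hOML hNIC hOMD hOMU Bde.bde hDIV hPKG Pnr.pnr
  exact Dst.dst hCORE hOML hUBG hPKG hDIV hPOQ hHSD

end Pool.Agent.H467.PG.Fin
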