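import Pool.Agent.H467.PG.SpecB

/-!
Trivial left kernel (helper685 for helper467): if the Selmer group has two elements, then the
classes `d` are trivial.
-/

set_option autoImplicit false
set_option linter.all false

open Finset Filter WithZero WeierstrassCurve WeierstrassCurve.Affine
open Pool.Agent.TH115.GD
open Pool.Agent.H467.PT
open Pool.Agent.H467.GK
open Pool.Agent.H467.CT (AS Bas IsTau Std Ev LV LF cc)
open scoped Classical

namespace Pool.Agent.H467.PG.Ful

theorem ev_exp (m : ℤ) : Ev (exp m) ↔ Even m := by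
  constructor
  · rintro ⟨n, hn⟩
    have h : m = 2 * n := by
      have := congrArg WithZero.log hn
      rwa [WithZero.log_exp, WithZero.log_exp] at this
    rw [h]
    exact even_two_mul n
  · rintro ⟨n, hn⟩
    exact ⟨n, by rw [hn, two_mul]⟩

theorem zmod_one_add : (1 : ZMod 2) + 1 = 0 := by decide

theorem par_mul {γ δ : WithZero (Multiplicative ℤ)} (hγ : γ ≠ 0) (hδ : δ ≠ 0) :
    (if Ev (γ * δ) then (0 : ZMod 2) else 1) =
      (if Ev γ then (0 : ZMod 2) else 1) + (if Ev δ then (0 : ZMod 2) else 1) := by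
  obtain ⟨m, rfl⟩ : ∃ m : ℤ, γ = exp m := ⟨log γ, (exp_log hγ).symm⟩
  obtain ⟨n, rfl⟩ : ∃ n : ℤ, δ = exp n := ⟨log δ, (exp_log hδ).symm⟩
  rw [← exp_add]
  simp only [ev_exp, Int.even_add]
  by_cases h1 : Even m <;> by_cases h2 : Even n <;> simp [h1, h2, zmod_one_add]

section

variable {K : Type} [Field K] [CharP K 2] (G : GFS K) (j : PV K) (χ : Qc K)

theorem tt_mul (hS : S_SYM) (hfin : Finite (IsLocalRing.ResidueField j.1.valuationSubring))
    {d d' : K} (hd : d ≠ 0) (hd' : d' ≠ 0) :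
    tt G j (d * d') χ = tt G j d χ + tt G j d' χ := by
  unfold tt
  by_cases h : poq j χ = 0
  · rw [if_pos h, if_pos h, if_pos h, map_mul]
    exact par_mul ((Valuation.ne_zero_iff j.1).2 hd) ((Valuation.ne_zero_iff j.1).2 hd')
  · rw [if_neg h, if_neg h, if_neg h]
    exact (hS K G j hfin).2.2.1 χ d d' hd hd'

theorem tt_sq (hS : S_SYM) (hfin : Finite (IsLocalRing.ResidueField j.1.valuationSubring))
    {y : K} (hy : y ≠ 0) : tt G j (y ^ 2) χ = 0 := by
  unfold tt
  by_cases h : poq j χ = 0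
  · rw [if_pos h, if_pos (Pool.Agent.H467.CT.ev_sq hy)]
  · rw [if_neg h]
    exact (hS K G j hfin).2.2.2.1 χ y

theorem tt_one (hS : S_SYM) (hfin : Finite (IsLocalRing.ResidueField j.1.valuationSubring)) :
    tt G j 1 χ = 0 := by
  have := tt_sq G j χ hS hfin (one_ne_zero (α := K))
  rwa [one_pow] at this

theorem zmod_cases (e : ZMod 2) : e = 0 ∨ e = 1 := by
  revert e
  decide

theorem tt_pow (hS : S_SYM) (hfin : Finite (IsLocalRing.ResidueField j.1.valuationSubring))
    (x : K) (e : ZMod 2) : tt G j (x ^ e.val) χ = e * tt G j x χ := by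
  rcases zmod_cases e with h | h
  · subst h
    rw [ZMod.val_zero, pow_zero, zero_mul]
    exact tt_one G j χ hS hfin
  · subst h
    have : (1 : ZMod 2).val = 1 := rfl
    rw [this, pow_one, one_mul]

theorem tt_prod (hS : S_SYM) (hfin : Finite (IsLocalRing.ResidueField j.1.valuationSubring))
    {ι : Type} (s : Finset ι) (f : ι → K) (hf : ∀ i ∈ s, f i ≠ 0) :
    tt G j (∏ i ∈ s, f i) χ = ∑ i ∈ s, tt G j (f i) χ := by
  induction s using Finset.induction_on with
  | empty =>
    rw [Finset.prod_empty, Finset.sum_empty]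
    exact tt_one G j χ hS hfin
  | insert a s ha ih =>
    rw [Finset.prod_insert ha, Finset.sum_insert ha,
      tt_mul G j χ hS hfin (hf a (Finset.mem_insert_self a s))
        (Finset.prod_ne_zero_iff.2 fun i hi => hf i (Finset.mem_insert_of_mem hi)),
      ih fun i hi => hf i (Finset.mem_insert_of_mem hi)]

end

/-- The row vector of an element in the span of the basis. -/
theorem row_sum {k K : Type} [Field k] [Field K] [CharP K 2] [Algebra k K] {F : GF k K}
    {B : Finset (PV K)} (hS : S_SYM) (bd : BD F B) (U V : Finset (Ob B)) (hVU : V ⊆ U)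
    (e : Fin bd.n → ZMod 2) (y : K) (hy : y ≠ 0) (χ : Qc K) (j : PV K)
    (hfin : Finite (IsLocalRing.ResidueField j.1.valuationSubring)) :
    ∑ i, (Sum.elim e (fun P : U => if P.1 ∈ V then (1 : ZMod 2) else 0) i) *
      tt F.G j (ro bd U i) χ = tt F.G j (pd bd.u bd.g V e * y ^ 2) χ := by
  have hV : ∏ P ∈ V, bd.g P ≠ 0 := Finset.prod_ne_zero_iff.2 fun i _ => bd.gne i
  have hu : ∏ i, bd.u i ^ (e i).val ≠ 0 :=
    Finset.prod_ne_zero_iff.2 fun i _ => pow_ne_zero _ (bd.une i)
  have h1 : tt F.G j (pd bd.u bd.g V e * y ^ 2) χ =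
      ∑ P ∈ V, tt F.G j (bd.g P) χ + ∑ i, e i * tt F.G j (bd.u i) χ := by
    unfold pd
    rw [tt_mul F.G j χ hS hfin (mul_ne_zero hV hu) (pow_ne_zero 2 hy),
      tt_sq F.G j χ hS hfin hy, add_zero, tt_mul F.G j χ hS hfin hV hu,
      tt_prod F.G j χ hS hfin V bd.g (fun i _ => bd.gne i),
      tt_prod F.G j χ hS hfin Finset.univ (fun i => bd.u i ^ (e i).val)
        (fun i _ => pow_ne_zero _ (bd.une i))]
    congr 1
    exact Finset.sum_congr rfl fun i _ => tt_pow F.G j χ hS hfin (bd.u i) (e i)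
  rw [h1, Fintype.sum_sum_type, add_comm]
  congr 1
  · show ∑ P : U, (if P.1 ∈ V then (1 : ZMod 2) else 0) * tt F.G j (bd.g P.1) χ = _
    rw [Finset.sum_coe_sort U (fun P => (if P ∈ V then (1 : ZMod 2) else 0) *
      tt F.G j (bd.g P) χ)]
    simp only [ite_mul, one_mul, zero_mul]
    rw [Finset.sum_ite_mem, Finset.inter_eq_right.2 hVU]

theorem ful (hSVM : S_SVM) (hBDE : S_BDE) (hHSD : S_HSD) (hPOQ : S_POQ) (hSYM : S_SYM) :
    S_FUL := by
  intro k K _ _ _ _ _ F a hcard d hd hcond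
  have hfin : ∀ j : PV K, Finite (IsLocalRing.ResidueField j.1.valuationSubring) := by
    intro j
    apply Nat.finite_of_card_ne_zero
    rw [F.R.resc j]
    exact pow_ne_zero _ Nat.card_pos.ne'
  obtain ⟨bd⟩ := hBDE k K F F.B₁ (Finset.Subset.refl _)
  obtain ⟨D, hD⟩ := hHSD k K F.R F.B₁ (mkq a)
  obtain ⟨U, hU⟩ : ∃ U : Finset (Ob F.B₁), U = D.support := ⟨_, rfl⟩
  have hUj : ∀ j : Ob F.B₁, j ∉ U → poq j.1 (mkq a) = 0 := by
    intro j hj
    have h1 : D j = 0 := by
      rw [hU] at hj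
      exact Finsupp.notMem_support_iff.1 hj
    have h2 := hD j
    rw [h1] at h2
    omega
  obtain ⟨-, hLK⟩ := hSVM k K F F.B₁ bd U (mkq a) hUj
  rw [hcard] at hLK
  have hLK1 : (LK bd U (mkq a)).ncard = 1 := by omega
  obtain ⟨x, hx⟩ := Set.ncard_eq_one.1 hLK1
  have h0 : (0 : Fin bd.n ⊕ U → ZMod 2) ∈ LK bd U (mkq a) := by
    constructor <;> intro j _ <;> simp
  have hx0 : x = 0 := by
    rw [hx] at h0
    exact (Set.mem_singleton_iff.1 h0).symm
  -- the places where `a` is unramified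
  have hUn : ∀ j : PV K, Un j.1 a ↔ poq j (mkq a) = 0 := by
    intro j
    rw [(hPOQ K j).1 a, (hPOQ K j).2.2.2.2.1 (mkq a)]
  have hev : ∀ j : Ob F.B₁, j ∉ U → Ev (j.1.1 d) := fun j hj =>
    (hcond j.1).1 ((hUn j.1).2 (hUj j hj))
  obtain ⟨V, hVU, e, y, hy, hde⟩ := bd.gen U d hd hev
  have hcol : ∀ j : PV K, tt F.G j d (mkq a) = 0 := by
    intro j
    unfold tt
    by_cases h : poq j (mkq a) = 0
    · rw [if_pos h, if_pos ((hcond j).1 ((hUn j).2 h))]
    · rw [if_neg h, (hSYM K F.G j (hfin j)).1 a d hd]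
      exact (hcond j).2 fun h1 => h ((hUn j).1 h1)
  have hmem : (Sum.elim e (fun P : U => if P.1 ∈ V then (1 : ZMod 2) else 0)) ∈
      LK bd U (mkq a) := by
    constructor
    · intro j _
      rw [row_sum hSYM bd U V hVU e y hy (mkq a) j (hfin j), ← hde]
      exact hcol j
    · intro j _
      rw [row_sum hSYM bd U V hVU e y hy (mkq a) j.1 (hfin j.1), ← hde]
      exact hcol j.1
  rw [hx, hx0, Set.mem_singleton_iff] at hmem
  have he : e = 0 := by
    funext i
    exact congrFun hmem (Sum.inl i)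
  have hV : V = ∅ := by
    rw [Finset.eq_empty_iff_forall_notMem]
    intro P hP
    have h1 := congrFun hmem (Sum.inr ⟨P, hVU hP⟩)
    simp only [Sum.elim_inr, if_pos hP, Pi.zero_apply] at h1
    exact one_ne_zero h1
  rw [hde, hV, he]
  unfold pd
  refine ⟨y, ?_⟩
  simp [sq]

end Pool.Agent.H467.PG.Ful
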