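import Pool.Agent.H467.PT.Spec

/-!
# Distribution of a Selmer group over all twists: the combinatorial part, statements

Project PG (helper467). `PSys`, `PHyp`, `cnt`, `Yf` are in `PT/Spec.lean`.
-/

set_option autoImplicit false
set_option linter.all false

open Finset Filter
open Pool.Agent.H467.PT
open scoped Classical

namespace Pool.Agent.H467.PG

/-- The number of primes of `U` in `I` with degree in `(x, Y]`. -/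
noncomputable def cntI {ι : Type} (S : PSys ι) (I : Set ι) (x Y : ℕ) (U : Finset ι) : ℕ :=
  (U.filter (fun p => p ∈ I ∧ x < S.deg p ∧ S.deg p ≤ Y)).card

/-- The number of primes of degree `l` in `I`. -/
noncomputable def cI {ι : Type} (S : PSys ι) (I : Set ι) (l : ℕ) : ℕ :=
  ((S.eq l).filter (fun p => p ∈ I)).card

/-- Hall's inequality for a set of primes. -/
def S_HALG : Prop := ∀ (ι : Type) (S : PSys ι) (q : ℕ) (C c : ℝ) (W n₀ : ℕ), PHyp S q C c W n₀ →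
  ∃ C' : ℝ, 0 < C' ∧ ∀ (I : Set ι) (x Y N : ℕ),
    ∑ U ∈ S.UU N, (1 / 2 : ℝ) ^ (cntI S I x Y U) ≤
      C' * (q : ℝ) ^ N *
        Real.exp (-(1 / 2) * ∑ l ∈ Ioc x (min Y N), (cI S I l : ℝ) / (q : ℝ) ^ l)

/-- Abstract relations. -/
structure RHyp1 {ι : Type} (S : PSys ι) (q : ℕ) {E : Type} [Zero E]
    (Rel : ι → Finset ι → E → Prop) (C₄ : ℕ) (C₅ : ℝ) : Prop where
  r1 : ∀ j V e, j ∉ V → Rel j V e → (V.Nonempty ∨ e ≠ 0) → 2 * S.deg j ≤ S.dg V + C₄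
  r2 : ∀ j V₂ e n₁, j ∉ V₂ → 2 * S.deg j ≤ n₁ + C₄ →
    (((S.UU n₁).filter (fun V₁ => j ∉ V₁ ∧ Disjoint V₁ V₂ ∧ Rel j (V₁ ∪ V₂) e)).card : ℝ) ≤
      C₅ * (q : ℝ) ^ n₁ / (q : ℝ) ^ (S.deg j)

/-- Good sets of primes (the conditions concern only the primes of degree larger than `L`). -/
structure GoodG {ι : Type} (S : PSys ι) (q : ℕ) {E : Type} [Zero E]
    (Rel : ι → Finset ι → E → Prop) (L : ℕ) (θ : ℝ) (U : Finset ι) : Prop where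
  g1 : ∀ j ∈ U, L < S.deg j → ∀ V ⊆ U, j ∉ V → (∀ p ∈ V, S.deg p ≤ Yf (S.deg j)) →
    ∀ e, (V.Nonempty ∨ e ≠ 0) → ¬ Rel j V e
  g2 : ∑ j ∈ U.filter (fun j => L < S.deg j ∧ Yf (S.deg j) < S.dg U),
      (1 / 2 : ℝ) ^ (cnt S (S.deg j) (Yf (S.deg j)) U) ≤ θ
  g4 : ∑ p ∈ U.filter (fun p => L < S.deg p), (1 / (q : ℝ)) ^ (S.deg p) ≤ θ

/-- Bad sets are rare. -/
def S_BAD : Prop := ∀ (ι : Type) (S : PSys ι) (q : ℕ) (C c : ℝ) (W n₀ : ℕ), PHyp S q C c W n₀ →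
  ∀ (E : Type) [Fintype E] [Zero E] (Rel : ι → Finset ι → E → Prop) (C₄ : ℕ) (C₅ : ℝ),
    RHyp1 S q Rel C₄ C₅ → ∀ θ ε : ℝ, 0 < θ → 0 < ε → ∃ L₁ : ℕ, ∀ L, L₁ ≤ L → ∀ n,
      (L : ℝ) * (((S.UU n).filter (fun U => ¬ GoodG S q Rel L θ U)).card : ℝ) ≤ ε * (q : ℝ) ^ n

/-- The degree of an effective divisor. -/
noncomputable def dgf {ι : Type} (S : PSys ι) (D : ι →₀ ℕ) : ℕ := D.sum fun p n => n * S.deg p

/-- The number of effective divisors, of those with a large multiple prime, and of those with a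
large part of small degree. -/
def S_DIV : Prop := ∀ (ι : Type) (S : PSys ι) (q : ℕ) (C c : ℝ) (W n₀ : ℕ), PHyp S q C c W n₀ →
  (∀ m : ℕ, {D : ι →₀ ℕ | dgf S D = m}.Finite) ∧
  (∃ C' : ℝ, 0 < C' ∧ ∀ m : ℕ, ({D : ι →₀ ℕ | dgf S D = m}.ncard : ℝ) ≤ C' * (q : ℝ) ^ m) ∧
  (∀ ε : ℝ, 0 < ε → ∃ L₁ : ℕ, ∀ L, L₁ ≤ L → ∀ m : ℕ,
    ({D : ι →₀ ℕ | dgf S D = m ∧ ∃ p, L < S.deg p ∧ 2 ≤ D p}.ncard : ℝ) ≤ ε * (q : ℝ) ^ m) ∧
  (∀ (L : ℕ) (ε : ℝ), 0 < ε → ∃ M : ℕ, ∀ m : ℕ,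
    ({D : ι →₀ ℕ | dgf S D = m ∧
      M < ∑ p ∈ D.support.filter (fun p => S.deg p ≤ L), D p * S.deg p}.ncard : ℝ) ≤
        ε * (q : ℝ) ^ m)

/-- From sets of primes to divisors. -/
def S_TRF : Prop := ∀ (ι : Type) (S : PSys ι) (q : ℕ) (C c : ℝ) (W n₀ : ℕ), PHyp S q C c W n₀ →
  ∃ C' : ℝ, 0 < C' ∧ ∀ L : ℕ, 1 ≤ L → ∀ (Q : Finset ι → Prop) (η : ℝ), 0 ≤ η →
    (∃ n₁ : ℕ, ∀ n, n₁ ≤ n → (((S.UU n).filter (fun U => Q U)).card : ℝ) ≤ η * (q : ℝ) ^ n) →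
    ∀ ε : ℝ, 0 < ε → ∃ m₀ : ℕ, ∀ m, m₀ ≤ m →
      ({D : ι →₀ ℕ | dgf S D = m ∧ (∀ p, L < S.deg p → D p ≤ 1) ∧ Q D.support}.ncard : ℝ) ≤
        (C' * L * η + ε) * (q : ℝ) ^ m

/-- `I` has positive lower density. -/
def DenI {ι : Type} (S : PSys ι) (q : ℕ) (I : Set ι) : Prop :=
  ∃ c' C' : ℝ, 0 < c' ∧ ∀ x Y : ℕ, x ≤ Y → c' * Real.log (((Y : ℝ) + 1) / ((x : ℝ) + 1)) - C' ≤
    ∑ l ∈ Ioc x Y, (cI S I l : ℝ) / (q : ℝ) ^ l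

/-- Divisors with few large primes in a set of positive lower density are rare. -/
def S_FAV : Prop := ∀ (ι : Type) (S : PSys ι) (q : ℕ) (C c : ℝ) (W n₀ : ℕ), PHyp S q C c W n₀ →
  ∀ I : Set ι, DenI S q I → ∀ (L C₀ : ℕ) (ε : ℝ), 0 < ε → ∃ m₀ : ℕ, ∀ m, m₀ ≤ m →
    ({D : ι →₀ ℕ | dgf S D = m ∧ (∀ p, L < S.deg p → D p ≤ 1) ∧
      (D.support.filter (fun p => L < S.deg p ∧ p ∈ I)).card < C₀}.ncard : ℝ) ≤ ε * (q : ℝ) ^ m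

/-- Nice divisors. -/
structure NiceG {ι : Type} (S : PSys ι) (q : ℕ) {E : Type} [Zero E]
    (Rel : ι → Finset ι → E → Prop) (L M C₀ : ℕ) (θ : ℝ) (F : Set (Set ι)) (D : ι →₀ ℕ) :
    Prop where
  sqf : ∀ p, L < S.deg p → D p ≤ 1
  sml : ∑ p ∈ D.support.filter (fun p => S.deg p ≤ L), D p * S.deg p ≤ M
  good : GoodG S q Rel L θ D.support
  many : C₀ ≤ (D.support.filter (fun p => L < S.deg p)).card
  hit : ∀ I ∈ F, ∃ p ∈ D.support, L < S.deg p ∧ p ∈ I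

/-- Most divisors are nice. -/
def S_NNC : Prop := ∀ (ι : Type) (S : PSys ι) (q : ℕ) (C c : ℝ) (W n₀ : ℕ), PHyp S q C c W n₀ →
  ∀ (E : Type) [Fintype E] [Zero E] (Rel : ι → Finset ι → E → Prop) (C₄ : ℕ) (C₅ : ℝ),
    RHyp1 S q Rel C₄ C₅ → ∀ (C₀ L₀ : ℕ) (θ ε : ℝ), 0 < θ → 0 < ε → ∃ L, L₀ ≤ L ∧ ∃ M : ℕ,
      ∀ F : Set (Set ι), F.Finite → (∀ I ∈ F, DenI S q I) → ∃ m₀ : ℕ, ∀ m, m₀ ≤ m →
        ({D : ι →₀ ℕ | dgf S D = m ∧ ¬ NiceG S q Rel L M C₀ θ F D}.ncard : ℝ) ≤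
          ε * (q : ℝ) ^ m

/-- The probability that a random `n × n` matrix over the field with two elements has a left kernel
with `2 ^ r` elements. -/
noncomputable def pcr (n r : ℕ) : ℝ :=
  ({T : Fin n → Fin n → ZMod 2 |
    {e : Fin n → ZMod 2 | ∀ j, ∑ i, e i * T j i = 0}.ncard = 2 ^ r}.ncard : ℝ) / 2 ^ (n ^ 2)

/-- Random matrices with independent columns: `X a j` is the column `j` of the matrix of `a ∈ A`,
`Y` the linear part of `X`. The columns in `J` are constant and linearly independent. For every other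
column `j` there are elements of `A` which change only this column, and change it in an arbitrary way
in the rows in `R j`. The columns in `Z` (with `R j = univ`) come last in the ordering `rk`. Then the
coranks are distributed as those of random `C₀ × C₀` matrices, up to `σ`. -/
def S_LING : Prop := ∀ (A κ ρ : Type) [AddCommGroup A] [Fintype A] [Fintype κ] [Fintype ρ],
  Fintype.card κ = Fintype.card ρ → ∀ (X Y : A → κ → ρ → ZMod 2),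
  (∀ a a' j i, X (a + a') j i = X a j i + Y a' j i) →
  (∀ a a' j i, Y (a + a') j i = Y a j i + Y a' j i) →
  ∀ (J Z : Finset κ) (rk : κ → ℕ) (R : κ → Finset ρ) (C₀ : ℕ) (σ : ℝ),
  Disjoint J Z → Z.card = C₀ → (∀ i j, i ∉ J → j ∉ J → rk i = rk j → i = j) →
  (∀ j, j ∉ J → j ∉ Z → ∀ z ∈ Z, rk j < rk z) → (∀ a, ∀ j ∈ J, ∀ i, Y a j i = 0) →
  (∀ ε : κ → ZMod 2, (∀ j, j ∉ J → ε j = 0) → (∀ i, ∑ j, ε j * X 0 j i = 0) → ε = 0) →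
  (∀ j, j ∉ J → ∀ y : ρ → ZMod 2, ∃ a, (∀ l, l ≠ j → ∀ i, Y a l i = 0) ∧
    ∀ i ∈ R j, Y a j i = y i) → (∀ z ∈ Z, R z = Finset.univ) →
  ∑ j ∈ Finset.univ.filter (fun j => j ∉ J ∧ j ∉ Z), (1 / 2 : ℝ) ^ (R j).card *
    2 ^ (J.card + (Finset.univ.filter (fun l => l ∉ J ∧ rk l < rk j)).card) ≤ σ →
  ∀ r : ℕ, |({a : A | {e : ρ → ZMod 2 | ∀ j, ∑ i, e i * X a j i = 0}.ncard = 2 ^ r}.ncard : ℝ) -
    pcr C₀ r * (Fintype.card A : ℝ)| ≤ σ * (Fintype.card A : ℝ)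

/-- The limit of the probabilities. -/
noncomputable def alp (r : ℕ) : ℝ :=
  (1 / 2) ^ (r ^ 2) * (∏' i : ℕ, (1 - (1 / 2 : ℝ) ^ (i + 1))) /
    ∏ i ∈ Finset.range r, (1 - (1 / 2 : ℝ) ^ (i + 1)) ^ 2

def S_PNR : Prop := (∀ r, Tendsto (fun n => pcr n r) atTop (nhds (alp r))) ∧
  (288 / 1000 : ℝ) < alp 0 ∧ HasSum alp 1

/-- The ordering of the large primes. -/
def S_ORDG : Prop := ∀ (ι : Type) (S : PSys ι) (q : ℕ) (E : Type) [Zero E]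
  (Rel : ι → Finset ι → E → Prop) (L C₀ : ℕ) (θ : ℝ) (U : Finset ι), 24 ≤ L → 1 ≤ C₀ →
  0 ≤ θ → θ < (1 / 2) ^ (C₀ + 2) → GoodG S q Rel L θ U →
  C₀ + 2 ≤ (U.filter (fun p => L < S.deg p)).card →
  ∃ (v₀ : ι) (Z : Finset ι) (rk : ι → ℕ), v₀ ∈ U ∧ L < S.deg v₀ ∧ v₀ ∉ Z ∧
    Z ⊆ U.filter (fun p => L < S.deg p) ∧ Z.card = C₀ ∧ S.dg U ≤ Yf (S.deg v₀) ∧
    (∀ z ∈ Z, S.dg U ≤ Yf (S.deg z)) ∧
    (∀ i ∈ U.filter (fun p => L < S.deg p), ∀ j ∈ U.filter (fun p => L < S.deg p),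
      rk i = rk j → i = j) ∧
    (∀ p ∈ U, L < S.deg p → p ∉ Z → p ≠ v₀ → ∀ z ∈ Z, rk p < rk z) ∧
    (∀ p ∈ U, L < S.deg p → p ≠ v₀ → rk p < rk v₀) ∧
    ∑ j ∈ U.filter (fun p => L < S.deg p ∧ p ∉ Z ∧ p ≠ v₀),
      (1 / 2 : ℝ) ^ ((U.filter (fun p => L < S.deg p ∧ S.deg p ≤ Yf (S.deg j))).card) *
        2 ^ (1 + (U.filter (fun p => L < S.deg p ∧ rk p < rk j)).card) ≤ θ + (1 / 2) ^ C₀

end Pool.Agent.H467.PG
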