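import Pool.Agent.H467.PG.SpecA
import Pool.Agent.H467.GK.Gen

/-!
# Distribution of a Selmer group over all twists: the arithmetic part, statements

Project PG (helper467). `K` is a global function field of characteristic two, `PV K` its places.
-/

set_option autoImplicit false
set_option linter.all false

open Finset Filter WithZero WeierstrassCurve WeierstrassCurve.Affine
open Pool.Agent.TH115.GD
open Pool.Agent.H467.PT
open Pool.Agent.H467.GK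
open Pool.Agent.H467.CT (AS Bas IsTau Std Ev LV LF cc)
open scoped Classical

namespace Pool.Agent.H467.PG

/-! ### Places, divisors, residue symbols -/

/-- The places of `K`: the surjective valuations with values in `ℤ` (written multiplicatively). -/
def PV (K : Type) [Field K] : Type := {u : Vl K // Function.Surjective u}

section basic

variable {K : Type} [Field K]

/-- `a` splits at `u`: it is of the form `z ^ 2 + z` up to an element of the maximal ideal. -/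
def Sp (u : Vl K) (a : K) : Prop := ∃ z : K, u (a + z ^ 2 + z) < 1

/-- `a` is unramified at `u`. -/
def Un (u : Vl K) (a : K) : Prop := ∃ z : K, u (a + z ^ 2 + z) ≤ 1

/-- The degree of a divisor. -/
noncomputable def ddg (deg : PV K → ℕ) (D : PV K →₀ ℤ) : ℤ := D.sum fun j n => n * deg j

/-- The Riemann-Roch space of a divisor. -/
def LLs (D : PV K →₀ ℤ) : Set K := {x | ∀ j : PV K, j.1 x ≤ exp (D j)}

end basic

/-- Degrees of places and Riemann's theorem. -/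
structure GFR (k K : Type) [Field k] [Field K] [Algebra k K] where
  deg : PV K → ℕ
  pos : ∀ j, 0 < deg j
  le : ℕ → Finset (PV K)
  mem_le : ∀ l j, j ∈ le l ↔ deg j ≤ l
  resc : ∀ j : PV K, Nat.card (IsLocalRing.ResidueField j.1.valuationSubring) =
    Nat.card k ^ deg j
  /-- The divisor of `x` has degree zero. -/
  dvd : ∀ x : K, x ≠ 0 → ∃ D : PV K →₀ ℤ, (∀ j, j.1 x = exp (D j)) ∧ ddg deg D = 0
  gam : ℤ
  N₀ : ℤ
  fin : ∀ D : PV K →₀ ℤ, (LLs D).Finite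
  riem : ∀ D : PV K →₀ ℤ, N₀ ≤ ddg deg D → ∃ n : ℕ, (n : ℤ) = ddg deg D - gam ∧
    (LLs D).ncard = Nat.card k ^ n
  step : ∀ D E : PV K →₀ ℤ, D ≤ E → ∃ n : ℕ, (n : ℤ) = ddg deg E - ddg deg D ∧
    (LLs E).ncard ≤ Nat.card k ^ n * (LLs D).ncard
  /-- Strong approximation. -/
  sa : ∀ D D' : PV K →₀ ℤ, D' ≤ D → N₀ ≤ ddg deg D' → ∀ f : PV K → K,
    (∀ j, D' j < D j → j.1 (f j) ≤ exp (D j)) →
    ∃ x ∈ LLs D, ∀ j, D' j < D j → j.1 (x + f j) ≤ exp (D' j)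

/-- The residue symbols: `sy j f` is the trace to the field with two elements of the residue of
`f dt` at `j`. -/
structure GFS (K : Type) [Field K] [CharP K 2] where
  t : K
  bas : Bas t
  B₀ : Finset (PV K)
  sy : PV K → K → ZMod 2
  add : ∀ j x y, sy j (x + y) = sy j x + sy j y
  small : ∀ j : PV K, ∃ n : ℤ, ∀ f, j.1 f ≤ exp n → sy j f = 0
  int : ∀ j : PV K, j ∉ B₀ → ∀ f, j.1 f ≤ 1 → sy j f = 0
  /-- The residue theorem. -/
  sum : ∀ s : Finset (PV K), B₀ ⊆ s → ∀ f : K, (∀ j : PV K, j ∉ s → j.1 f ≤ 1) →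
    ∑ j ∈ s, sy j f = 0
  nrm : ∀ (j : PV K) (f d : K), d ≠ 0 → (∃ r : Cm j.1, AS (algebraMap K (Cm j.1) f +
    algebraMap K (Cm j.1) d * r ^ 2)) → sy j (f * dl t d) = 0
  nd : ∀ j : PV K, ∃ g, sy j g = 1
  nd1 : ∀ j : PV K, j ∉ B₀ → ∃ g, j.1 g ≤ exp (1 : ℤ) ∧ sy j g = 1
  der : ∀ j : PV K, j ∉ B₀ → ∀ p q : K, j.1 (p ^ 2 + t * q ^ 2) ≤ 1 → j.1 q ≤ 1
  tint : ∀ j : PV K, j ∉ B₀ → j.1 t ≤ 1
  dlb : ∀ j : PV K, ∃ n : ℤ, ∀ d : K, j.1 (dl t d) ≤ exp n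
  odd : ∀ (j : PV K) (f d : K), d ≠ 0 → j.1 f ≤ 1 → ¬ Sp j.1 f → ¬ Ev (j.1 d) →
    sy j (f * dl t d) = 1

/-- `u` is a basis of the group of the `s`-units modulo squares, and all elements with even
valuations outside `s` are `s`-units up to squares. -/
structure UnbP {K : Type} [Field K] {n : ℕ} (s : Finset (PV K)) (u : Fin n → K) : Prop where
  ne : ∀ i, u i ≠ 0
  unit : ∀ i, ∀ j : PV K, j ∉ s → j.1 (u i) = 1
  gen : ∀ d : K, d ≠ 0 → (∀ j : PV K, j ∉ s → Ev (j.1 d)) →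
    ∃ (e : Fin n → ZMod 2) (y : K), y ≠ 0 ∧ d = (∏ i, u i ^ (e i).val) * y ^ 2
  ind : ∀ e : Fin n → ZMod 2, IsSquare (∏ i, u i ^ (e i).val) → e = 0

/-- A global function field of characteristic two with all its data. -/
structure GF (k K : Type) [Field k] [Field K] [CharP K 2] [Algebra k K] where
  R : GFR k K
  G : GFS K
  B₁ : Finset (PV K)
  hB : G.B₀ ⊆ B₁
  ne : B₁.Nonempty
  uni : ∀ s, B₁ ⊆ s → ∃ u : Fin (s.card - 1) → K, UnbP s u
  unr : ∀ s, B₁ ⊆ s → ∀ α : K, (∀ j : PV K, j ∉ s → Un j.1 α) → (∀ j ∈ s, Sp j.1 α) → AS α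
  prin : ∀ j : PV K, j ∉ B₁ → ∃ g : K, j.1 g = exp (-1 : ℤ) ∧
    ∀ i : PV K, i ∉ B₁ → i ≠ j → i.1 g = 1

/-- Existence of the degrees and Riemann's theorem. -/
def S_GFR : Prop := ∀ (k K : Type) [Field k] [Finite k] [CharP k 2] [Field K] [Algebra k K],
  IsFF k K → Nonempty (GFR k K)

/-- Existence of the residue symbols. -/
def S_GFS : Prop := ∀ (k K : Type) [Field k] [Finite k] [CharP k 2] [Field K] [CharP K 2]
  [Algebra k K], IsFF k K → Nonempty (GFS K)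

/-- Units and unramified extensions. -/
def S_GFU : Prop := ∀ (k K : Type) [Field k] [Finite k] [CharP k 2] [Field K] [CharP K 2]
  [Algebra k K], IsFF k K → ∃ B₁ : Finset (PV K), B₁.Nonempty ∧
    (∀ s, B₁ ⊆ s → ∃ u : Fin (s.card - 1) → K, UnbP s u) ∧
    (∀ s, B₁ ⊆ s → ∀ α : K, (∀ j : PV K, j ∉ s → Un j.1 α) → (∀ j ∈ s, Sp j.1 α) → AS α)

/-- All places outside a finite set are principal modulo this set. -/
def S_GFP : Prop := ∀ (k K : Type) [Field k] [Finite k] [CharP k 2] [Field K]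
  [Algebra k K], ∀ R : GFR k K, ∃ B₁ : Finset (PV K), ∀ s, B₁ ⊆ s → ∀ j : PV K, j ∉ s →
    ∃ g : K, j.1 g = exp (-1 : ℤ) ∧ ∀ i : PV K, i ∉ s → i ≠ j → i.1 g = 1

/-! ### Quadratic characters -/

/-- The elements `z ^ 2 + z`. -/
def wp (K : Type) [Field K] [CharP K 2] : AddSubgroup K where
  carrier := {x | AS x}
  add_mem' := fun h h' => Pool.Agent.H467.CT.AS_add h h'
  zero_mem' := Pool.Agent.H467.CT.AS_zero
  neg_mem' := fun {x} h => by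
    have : -x = x := CharTwo.neg_eq x
    rw [this]; exact h

/-- The group of the quadratic characters of `K`. -/
abbrev Qc (K : Type) [Field K] [CharP K 2] : Type := K ⧸ wp K

section qc

variable {K : Type} [Field K] [CharP K 2]

/-- The class of `a`. -/
def mkq (a : K) : Qc K := QuotientAddGroup.mk a

/-- The class has a representative with value at most `γ` at `j`. -/
def Ple (j : PV K) (γ : WithZero (Multiplicative ℤ)) (χ : Qc K) : Prop :=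
  ∃ a : K, mkq a = χ ∧ j.1 a ≤ γ

/-- The class is trivial at `j`. -/
def Spl (j : PV K) (χ : Qc K) : Prop := ∃ a : K, mkq a = χ ∧ j.1 a < 1

/-- The order of the pole of the class at `j`. -/
noncomputable def poq (j : PV K) (χ : Qc K) : ℕ := sInf {n : ℕ | Ple j (exp (n : ℤ)) χ}

/-- The symbol of `χ` and `d` at `j`. -/
noncomputable def pr (G : GFS K) (j : PV K) (d : K) (χ : Qc K) : ZMod 2 :=
  G.sy j (χ.out * dl G.t d)

/-- The Selmer group attached to `χ`: the classes which are unramified where `χ` is unramified, and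
equal to `0` or `χ` where `χ` is ramified. -/
def SV (χ : Qc K) : Set (Qc K) :=
  {α | ∀ j : PV K, (poq j χ = 0 → poq j α = 0) ∧ (poq j χ ≠ 0 → Spl j α ∨ Spl j (α + χ))}

end qc

/-- Elementary properties of classes and their poles. -/
def S_POQ : Prop := ∀ (K : Type) [Field K] [CharP K 2] (j : PV K),
  (∀ x : K, Un j.1 x ↔ Ple j 1 (mkq x)) ∧ (∀ x : K, Sp j.1 x ↔ Spl j (mkq x)) ∧
  (∀ χ : Qc K, Ple j (exp (poq j χ : ℤ)) χ) ∧
  (∀ (χ : Qc K) (n : ℕ), Ple j (exp (n : ℤ)) χ ↔ poq j χ ≤ n) ∧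
  (∀ χ : Qc K, poq j χ = 0 ↔ Ple j 1 χ) ∧
  (∀ χ χ' : Qc K, Spl j χ → Spl j χ' → Spl j (χ + χ')) ∧ (∀ χ : Qc K, Spl j χ → poq j χ = 0) ∧
  (∀ χ χ' : Qc K, poq j (χ + χ') ≤ max (poq j χ) (poq j χ')) ∧
  (∀ χ χ' : Qc K, Spl j (χ + χ') → poq j χ = poq j χ') ∧
  (Finite (IsLocalRing.ResidueField j.1.valuationSubring) →
    (∀ χ : Qc K, poq j χ ≠ 0 → ∃ m : ℕ, poq j χ = 2 * m + 1) ∧
    (∀ χ χ' : Qc K, poq j χ = 0 → poq j χ' = 0 → ¬ Spl j χ → ¬ Spl j χ' → Spl j (χ + χ')) ∧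
    (∃ x : K, j.1 x ≤ 1 ∧ ¬ Sp j.1 x))

/-- Elementary properties of the symbols. -/
def S_SYM : Prop := ∀ (K : Type) [Field K] [CharP K 2] (G : GFS K) (j : PV K),
  Finite (IsLocalRing.ResidueField j.1.valuationSubring) →
  (∀ x d : K, d ≠ 0 → pr G j d (mkq x) = G.sy j (x * dl G.t d)) ∧
  (∀ (χ χ' : Qc K) (d : K), d ≠ 0 → pr G j d (χ + χ') = pr G j d χ + pr G j d χ') ∧
  (∀ (χ : Qc K) (d d' : K), d ≠ 0 → d' ≠ 0 → pr G j (d * d') χ = pr G j d χ + pr G j d' χ) ∧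
  (∀ (χ : Qc K) (y : K), pr G j (y ^ 2) χ = 0) ∧
  (∀ (χ : Qc K) (d : K), d ≠ 0 → Spl j χ → pr G j d χ = 0) ∧
  (∀ (χ : Qc K) (d : K), d ≠ 0 → poq j χ = 0 → Ev (j.1 d) → pr G j d χ = 0) ∧
  (∀ (χ : Qc K) (d : K), d ≠ 0 → poq j χ = 0 → ¬ Spl j χ → ¬ Ev (j.1 d) → pr G j d χ = 1) ∧
  (j ∉ G.B₀ → ∀ d : K, d ≠ 0 → j.1 (dl G.t d) ≤ exp (1 : ℤ) ∧
    (Ev (j.1 d) → j.1 (dl G.t d) ≤ 1) ∧ (¬ Ev (j.1 d) → j.1 (dl G.t d) = exp (1 : ℤ)) ∧
    (j.1 (dl G.t d) < 1 → Ev (j.1 d) ∧ j.1 (dl G.t d) ≤ exp (-2 : ℤ)))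

/-! ### Bases and relations -/

/-- The places outside `B`. -/
abbrev Ob {K : Type} [Field K] (B : Finset (PV K)) : Type := {j : PV K // j ∉ B}

/-- The places outside `B` with their degrees. -/
noncomputable def sysB {k K : Type} [Field k] [Field K] [Algebra k K] (R : GFR k K)
    (B : Finset (PV K)) : PSys (Ob B) where
  deg := fun j => R.deg j.1
  le := fun l => (R.le l).subtype (fun j => j ∉ B)
  mem_le := fun l p => by rw [Finset.mem_subtype, R.mem_le]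
  pos := fun p => R.pos p.1

/-- The product of the `g P`, `P ∈ V`, and the `u i`, `e i = 1`. -/
noncomputable def pd {K ι : Type} [Field K] {n : ℕ} (u : Fin n → K) (g : ι → K) (V : Finset ι)
    (e : Fin n → ZMod 2) : K := (∏ P ∈ V, g P) * ∏ i, u i ^ (e i).val

/-- Bases of the groups of units modulo squares: `u` is a basis for `B`, and `g P` is a generator of
the place `P` outside `B`. -/
structure BD {k K : Type} [Field k] [Field K] [CharP K 2] [Algebra k K] (F : GF k K)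
    (B : Finset (PV K)) where
  sub : F.B₁ ⊆ B
  n : ℕ
  hn : n + 1 = B.card
  u : Fin n → K
  g : Ob B → K
  une : ∀ i, u i ≠ 0
  uun : ∀ i, ∀ j : Ob B, j.1.1 (u i) = 1
  gne : ∀ P, g P ≠ 0
  gor : ∀ P : Ob B, P.1.1 (g P) = exp (-1 : ℤ)
  gun : ∀ P j : Ob B, j ≠ P → j.1.1 (g P) = 1
  gen : ∀ (U : Finset (Ob B)) (d : K), d ≠ 0 → (∀ j : Ob B, j ∉ U → Ev (j.1.1 d)) →
    ∃ V ⊆ U, ∃ (e : Fin n → ZMod 2) (y : K), y ≠ 0 ∧ d = pd u g V e * y ^ 2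
  ind : ∀ (V : Finset (Ob B)) (e : Fin n → ZMod 2), IsSquare (pd u g V e) → V = ∅ ∧ e = 0

section rel

variable {k K : Type} [Field k] [Field K] [CharP K 2] [Algebra k K] {F : GF k K}
  {B : Finset (PV K)}

/-- The product is a square modulo the square of the maximal ideal at `j`. -/
def Rl (bd : BD F B) (j : Ob B) (V : Finset (Ob B)) (e : Fin bd.n → ZMod 2) : Prop :=
  j.1.1 (dl F.G.t (pd bd.u bd.g V e)) < 1

/-- The rows: the elements of the basis for `B` and `U`. -/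
def ro (bd : BD F B) (U : Finset (Ob B)) : Fin bd.n ⊕ U → K :=
  Sum.elim bd.u (fun P => bd.g P.1)

/-- The entries of the matrix. -/
noncomputable def tt (G : GFS K) (j : PV K) (d : K) (χ : Qc K) : ZMod 2 :=
  if poq j χ = 0 then (if Ev (j.1 d) then 0 else 1) else pr G j d χ

/-- The left kernel. -/
def LK (bd : BD F B) (U : Finset (Ob B)) (χ : Qc K) : Set (Fin bd.n ⊕ U → ZMod 2) :=
  {e | (∀ j ∈ B, ∑ i, e i * tt F.G j (ro bd U i) χ = 0) ∧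
    ∀ j ∈ U, ∑ i, e i * tt F.G j.1 (ro bd U i) χ = 0}

end rel

/-- Existence of the bases. -/
def S_BDE : Prop := ∀ (k K : Type) [Field k] [Field K] [CharP K 2] [Algebra k K] (F : GF k K)
  (B : Finset (PV K)), F.B₁ ⊆ B → Nonempty (BD F B)

/-- The relations satisfy the hypotheses. -/
def S_RKG : Prop := ∀ (k K : Type) [Field k] [Finite k] [Field K] [CharP K 2] [Algebra k K]
  (F : GF k K) (B : Finset (PV K)) (bd : BD F B), ∃ (C₄ : ℕ) (C₅ : ℝ),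
    RHyp1 (sysB F.R B) (Nat.card k) (Rl bd) C₄ C₅

/-- Normalised units: the product of the `g P`, `P ∈ V`, is up to a product of the `u i` and a square
an element with a simple zero at `V`, no other zeros and poles outside `B`, and bounded poles at `B`
except for `w`. -/
def S_UNO : Prop := ∀ (k K : Type) [Field k] [Finite k] [Field K] [CharP K 2] [Algebra k K]
  (F : GF k K) (B : Finset (PV K)) (bd : BD F B), ∀ w ∈ B, ∃ C₇ : ℤ, 0 ≤ C₇ ∧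
    ∀ V : Finset (Ob B), ∃ (e : Fin bd.n → ZMod 2) (y : K), y ≠ 0 ∧
      (∀ j ∈ V, j.1.1 (pd bd.u bd.g V e * y ^ 2) = exp (-1 : ℤ)) ∧
      (∀ j : Ob B, j ∉ V → j.1.1 (pd bd.u bd.g V e * y ^ 2) = 1) ∧
      (∀ j ∈ B, j ≠ w → j.1 (pd bd.u bd.g V e * y ^ 2) ≤ exp C₇) ∧
      ∃ m : ℤ, w.1 (pd bd.u bd.g V e * y ^ 2) ≤ exp m ∧
        m * F.R.deg w ≤ (sysB F.R B).dg V + C₇

/-- Existence of global classes with given local classes. -/
def S_CFX : Prop := ∀ (k K : Type) [Field k] [Finite k] [Field K] [CharP K 2] [Algebra k K]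
  (F : GF k K) (s : Finset (PV K)), F.B₁ ⊆ s → ∀ f : PV K → K,
  (∀ d : K, d ≠ 0 → (∀ j : PV K, j ∉ s → Ev (j.1 d)) → ∑ j ∈ s, F.G.sy j (f j * dl F.G.t d) = 0) →
  ∃ x : K, (∀ j : PV K, j ∉ s → j.1 x ≤ 1) ∧ ∀ j ∈ s, Sp j.1 (x + f j)

/-- The number of the classes with bounded poles. -/
def S_UBG : Prop := ∀ (k K : Type) [Field k] [Finite k] [Field K] [CharP K 2] [Algebra k K]
  (R : GFR k K), ∃ C : ℝ, 0 < C ∧ ∀ D : PV K →₀ ℕ,
    {χ : Qc K | ∀ j, Ple j (exp (2 * (D j : ℤ))) χ}.Finite ∧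
    ({χ : Qc K | ∀ j, Ple j (exp (2 * (D j : ℤ))) χ}.ncard : ℝ) ≤
      C * (Nat.card k : ℝ) ^ (D.sum fun j n => n * R.deg j)

/-- The local classes with at most simple poles: there are `2 * q ^ deg j` of them. -/
def S_LLC : Prop := ∀ (k K : Type) [Field k] [Finite k] [Field K] [CharP K 2] [Algebra k K]
  (R : GFR k K) (j : PV K), ∃ T : Finset K, T.card = 2 * Nat.card k ^ R.deg j ∧
    (∀ f ∈ T, j.1 f ≤ exp (1 : ℤ)) ∧ (∀ f ∈ T, ∀ f' ∈ T, Sp j.1 (f + f') → f = f') ∧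
    (∀ f : K, j.1 f ≤ exp (1 : ℤ) → ∃ f' ∈ T, Sp j.1 (f + f')) ∧
    ∃ T₁ ⊆ T, T₁.card = Nat.card k ^ R.deg j ∧ ∀ f ∈ T₁, ∀ f' ∈ T₁, Un j.1 (f + f') → f = f'

/-- Prescribed symbols. -/
def S_LDG : Prop := ∀ (K : Type) [Field K] [CharP K 2] (G : GFS K) (j : PV K), j ∉ G.B₀ →
  ∀ (ρ : Type) [Fintype ρ] (d : ρ → K), (∀ i, d i ≠ 0) →
  (∀ e : ρ → ZMod 2, e ≠ 0 → ¬ j.1 (dl G.t (∏ i, d i ^ (e i).val)) < 1) →
  ∀ y : ρ → ZMod 2, ∃ f : K, j.1 f ≤ exp (1 : ℤ) ∧ ∀ i, G.sy j (f * dl G.t (d i)) = y i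

/-- Changing the local classes at two places. -/
def S_DIR : Prop := ∀ (k K : Type) [Field k] [Finite k] [Field K] [CharP K 2] [Algebra k K]
  (F : GF k K) (B : Finset (PV K)) (bd : BD F B) (U : Finset (Ob B)) (v₀ : Ob B), v₀ ∈ U →
  (∀ V ⊆ U, v₀ ∉ V → ∀ e, (V.Nonempty ∨ e ≠ 0) → ¬ Rl bd v₀ V e) →
  ∀ c : PV K → K, ∃ δ : Qc K, (∀ j ∈ B, Spl j (δ + mkq (c j))) ∧
    (∀ j ∈ U, j ≠ v₀ → Spl j.1 (δ + mkq (c j.1))) ∧ Ple v₀.1 (exp (1 : ℤ)) δ ∧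
    ∀ j : Ob B, j ∉ U → Ple j.1 1 δ

/-- The Selmer group and the left kernel. -/
def S_SVM : Prop := ∀ (k K : Type) [Field k] [Finite k] [Field K] [CharP K 2] [Algebra k K]
  (F : GF k K) (B : Finset (PV K)) (bd : BD F B) (U : Finset (Ob B)) (χ : Qc K),
  (∀ j : Ob B, j ∉ U → poq j.1 χ = 0) →
    (SV χ).Finite ∧ (SV χ).ncard = 2 * (LK bd U χ).ncard

/-- The constant columns are linearly independent. -/
def S_JIN : Prop := ∀ (k K : Type) [Field k] [Finite k] [Field K] [CharP K 2] [Algebra k K]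
  (F : GF k K) (B : Finset (PV K)) (bd : BD F B) (U U₁ : Finset (Ob B)) (χ : Qc K), U₁ ⊆ U →
  (∀ α : Qc K, α ≠ 0 → (∀ j ∈ B, poq j α ≤ poq j χ) → (∀ j ∈ U₁, poq j.1 α ≤ poq j.1 χ) →
    (∀ j : Ob B, j ∉ U₁ → poq j.1 α = 0) → ∃ p ∈ U, p ∉ U₁ ∧ ¬ Spl p.1 α) →
  ∀ (ε : PV K → ZMod 2) (ε' : Ob B → ZMod 2),
    (∀ i : Fin bd.n ⊕ U, ∑ j ∈ B, ε j * tt F.G j (ro bd U i) χ +
      ∑ j ∈ U₁, ε' j * tt F.G j.1 (ro bd U i) χ = 0) →
    (∀ j ∈ B, ε j = 0) ∧ ∀ j ∈ U₁, ε' j = 0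

/-! ### Fibres -/

section fib

variable {k K : Type} [Field k] [Field K] [CharP K 2] [Algebra k K] {B : Finset (PV K)}

/-- The classes which are trivial at `B` and at the primes of `U` of degree at most `L`, have at most
simple poles at the other primes of `U`, and are unramified elsewhere. -/
def AJ (R : GFR k K) (B : Finset (PV K)) (U : Finset (Ob B)) (L : ℕ) : Set (Qc K) :=
  {δ | (∀ j ∈ B, Spl j δ) ∧ (∀ j ∈ U, R.deg j.1 ≤ L → Spl j.1 δ) ∧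
    (∀ j ∈ U, L < R.deg j.1 → Ple j.1 (exp (1 : ℤ)) δ) ∧ ∀ j : Ob B, j ∉ U → Ple j.1 1 δ}

/-- The fibre of `χ₁`. -/
def Phi (R : GFR k K) (B : Finset (PV K)) (U : Finset (Ob B)) (L : ℕ) (χ₁ : Qc K) :
    Set (Qc K) :=
  {χ | χ + χ₁ ∈ AJ R B U L ∧ ∀ j ∈ U, L < R.deg j.1 → poq j.1 χ ≠ 0}

end fib

/-- The distribution in a fibre. -/
def S_FIB : Prop := ∀ (k K : Type) [Field k] [Finite k] [Field K] [CharP K 2] [Algebra k K]
  (F : GF k K) (B : Finset (PV K)) (bd : BD F B) (U : Finset (Ob B)) (L C₀ : ℕ) (θ : ℝ)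
  (χ₁ : Qc K), 24 ≤ L → 1 ≤ C₀ → 0 ≤ θ → θ < (1 / 2) ^ (C₀ + 2) →
  GoodG (sysB F.R B) (Nat.card k) (Rl bd) L θ U →
  C₀ + 2 ≤ (U.filter (fun p => L < F.R.deg p.1)).card →
  (∀ j ∈ U, F.R.deg j.1 ≤ L → poq j.1 χ₁ ≠ 0) →
  (∀ j ∈ U, L < F.R.deg j.1 → poq j.1 χ₁ ≤ 1) → (∀ j : Ob B, j ∉ U → poq j.1 χ₁ = 0) →
  (∀ α : Qc K, α ≠ 0 → (∀ j ∈ B, poq j α ≤ poq j χ₁) →
    (∀ j ∈ U, F.R.deg j.1 ≤ L → poq j.1 α ≤ poq j.1 χ₁) →
    (∀ j : Ob B, ¬ (j ∈ U ∧ F.R.deg j.1 ≤ L) → poq j.1 α = 0) →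
    ∃ p ∈ U, L < F.R.deg p.1 ∧ ¬ Spl p.1 α) →
  (Phi F.R B U L χ₁).Finite ∧
  (Nat.card k : ℝ) ^ ((sysB F.R B).dg (U.filter (fun p => L < F.R.deg p.1))) ≤
    ((Phi F.R B U L χ₁).ncard : ℝ) *
      2 ^ (B.card + (U.filter (fun p => F.R.deg p.1 ≤ L)).card + 1) ∧
  ∀ r : ℕ, |({χ ∈ Phi F.R B U L χ₁ | (SV χ).ncard = 2 ^ (r + 1)}.ncard : ℝ) -
    pcr C₀ r * ((Phi F.R B U L χ₁).ncard : ℝ)| ≤
      (6 * θ + 2 * (1 / 2) ^ C₀) * ((Phi F.R B U L χ₁).ncard : ℝ)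

/-! ### Counting -/

/-- From the sum over powers of `u` to the sum up to `N`. -/
def S_TAUB : Prop := ∀ (q : ℕ) (C c : ℝ) (a : ℕ → ℝ), 2 ≤ q → (∀ l, 0 ≤ a l) → a 0 = 0 →
  (∀ l : ℕ, (l : ℝ) * a l ≤ C * (q : ℝ) ^ l) →
  (∀ u : ℝ, 0 < u → (q : ℝ) * u < 1 → Summable (fun l => a l * u ^ l) ∧
    |∑' l, a l * u ^ l - c * Real.log (1 / (1 - q * u))| ≤ C) →
  ∃ C' : ℝ, ∀ N : ℕ, 1 ≤ N → |∑ l ∈ Icc 1 N, a l / (q : ℝ) ^ l - c * Real.log N| ≤ C'

/-- The facts on the numbers of the places. -/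
def S_PKG : Prop := ∀ (k K : Type) [Field k] [Finite k] [CharP k 2] [Field K] [CharP K 2]
  [Algebra k K], IsFF k K → ∀ (R : GFR k K) (B : Finset (PV K)), ∃ (C c : ℝ) (W n₀ : ℕ),
    PHyp (sysB R B) (Nat.card k) C c W n₀

/-- The places where a given nontrivial class does not split have positive density. -/
def S_CHB : Prop := ∀ (k K : Type) [Field k] [Finite k] [CharP k 2] [Field K] [CharP K 2]
  [Algebra k K], IsFF k K → ∀ (R : GFR k K) (B : Finset (PV K)) (α : Qc K), α ≠ 0 →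
    DenI (sysB R B) (Nat.card k) {j : Ob B | ¬ Spl j.1 α}

section omega

variable {k K : Type} [Field k] [Field K] [CharP K 2] [Algebra k K]

/-- `D` is the divisor outside `B` of the class `χ` (half of its conductor). -/
def HasD {B : Finset (PV K)} (χ : Qc K) (D : Ob B →₀ ℕ) : Prop :=
  ∀ j : Ob B, (poq j.1 χ + 1) / 2 = D j

/-- The classes with given local classes at `B`, and with conductor of degree at most `2 m` outside
`B`. -/
def Om (R : GFR k K) (B : Finset (PV K)) (c : PV K → K) (m : ℕ) : Set (Qc K) :=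
  {χ | (∀ j ∈ B, Spl j (χ + mkq (c j))) ∧ ∃ D : Ob B →₀ ℕ, HasD χ D ∧ dgf (sysB R B) D ≤ m}

end omega

/-- Every class has a divisor. -/
def S_HSD : Prop := ∀ (k K : Type) [Field k] [Finite k] [Field K] [CharP K 2] [Algebra k K]
  (R : GFR k K) (B : Finset (PV K)) (χ : Qc K), ∃ D : Ob B →₀ ℕ, HasD χ D

/-- There are many classes with given local classes. -/
def S_OML : Prop := ∀ (k K : Type) [Field k] [Finite k] [CharP k 2] [Field K] [CharP K 2]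
  [Algebra k K], IsFF k K → ∀ (F : GF k K) (B : Finset (PV K)), F.B₁ ⊆ B → ∀ c : PV K → K,
    ∃ c' : ℝ, 0 < c' ∧ ∃ m₀ : ℕ, ∀ m, m₀ ≤ m →
      c' * (Nat.card k : ℝ) ^ (2 * m) ≤ ((Om F.R B c m).ncard : ℝ)

/-- The distribution. -/
def S_CORE : Prop := ∀ (k K : Type) [Field k] [Finite k] [CharP k 2] [Field K] [CharP K 2]
  [Algebra k K], IsFF k K → ∀ (F : GF k K) (B : Finset (PV K)), F.B₁ ⊆ B → ∀ c : PV K → K,
    (∀ m, (Om F.R B c m).Finite) ∧ ∀ r : ℕ,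
      Tendsto (fun m : ℕ => ({χ ∈ Om F.R B c m | (SV χ).ncard = 2 ^ (r + 1)}.ncard : ℝ) /
        ((Om F.R B c m).ncard : ℝ)) atTop (nhds (alp r))

/-! ### Descent -/

section descent

variable {K : Type} [Field K] [CharP K 2]

/-- The curve with the coefficients `a`, `b` is balanced at `u`: good reduction of the untwisted
curve, or multiplicative reduction which is not split, or a large pole of `a`. -/
def Bal (u : Vl K) (a b : K) : Prop :=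
  u b = 1 ∨ (u b < 1 ∧ ¬ Sp u a) ∨ (1 < u b ∧ ∀ z : K, u b ^ 2 < u (a + z ^ 2 + z))

/-- The Tate-Shafarevich group: the 2-primary part is killed by two and finite. -/
def Sha2A (W : WeierstrassCurve K) : Prop :=
  (∀ f : (Sep K ≃ₐ[K] Sep K) → Pt W (Sep K), IsCoc W f → LTA W f →
    (∃ (n : ℕ) (R : Pt W (Sep K)), ∀ σ, 2 ^ n • f σ = act W (rs K σ) R - R) →
    ∃ R : Pt W (Sep K), ∀ σ, 2 • f σ = act W (rs K σ) R - R) ∧
  ∃ F : Finset ((Sep K ≃ₐ[K] Sep K) → Pt W (Sep K)), ∀ f : (Sep K ≃ₐ[K] Sep K) → Pt W (Sep K),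
    IsCoc W f → LTA W f →
    (∃ (n : ℕ) (R : Pt W (Sep K)), ∀ σ, 2 ^ n • f σ = act W (rs K σ) R - R) →
    ∃ g ∈ F, ∃ R : Pt W (Sep K), ∀ σ, f σ - g σ = act W (rs K σ) R - R

end descent

/-- The local images for the Frobenius twist: classes `α`. -/
def S_LOCV : Prop := ∀ (K : Type) [Field K] [CharP K 2] (u : Vl K), Function.Surjective u →
  Finite (IsLocalRing.ResidueField u.valuationSubring) → ∀ a b : K, b ≠ 0 → Bal u a b →
  ∀ α : K, LV (algebraMap K (Cm u) (a ^ 2)) (algebraMap K (Cm u) (b ^ 2))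
    (algebraMap K (Cm u) α) ↔
      (Un u a ∧ Un u α) ∨ (¬ Un u a ∧ (Sp u α ∨ Sp u (α + a)))

/-- The local images for the Frobenius twist: classes `d`. -/
def S_LOCF : Prop := ∀ (K : Type) [Field K] [CharP K 2] (u : Vl K), Function.Surjective u →
  ∀ a b : K, b ≠ 0 → Bal u a b → ∀ d : K, d ≠ 0 →
  LF (algebraMap K (Cm u) (a ^ 2)) (algebraMap K (Cm u) (b ^ 2)) (algebraMap K (Cm u) d) →
    (Un u a → Ev (u d)) ∧
    (¬ Un u a → ∃ r : Cm u, AS (algebraMap K (Cm u) a + algebraMap K (Cm u) d * r ^ 2))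

/-- If the Selmer group has two elements, then the classes `d` are trivial. -/
def S_FUL : Prop := ∀ (k K : Type) [Field k] [Finite k] [Field K] [CharP K 2] [Algebra k K]
  (F : GF k K) (a : K), (SV (mkq a)).ncard = 2 → ∀ d : K, d ≠ 0 →
  (∀ j : PV K, (Un j.1 a → Ev (j.1 d)) ∧ (¬ Un j.1 a → F.G.sy j (a * dl F.G.t d) = 0)) →
  IsSquare d

/-- Finitely many classes `d` for the curve with the coefficients `a`, `b`. -/
def S_FFI : Prop := ∀ (k K : Type) [Field k] [Finite k] [Field K] [CharP K 2] [Algebra k K]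
  (F : GF k K) (a b : K), b ≠ 0 → ∃ T : Finset K, ∀ d : K, d ≠ 0 → AllFA a b d →
    ∃ f ∈ T, ∃ y : K, y ≠ 0 ∧ d = f * y ^ 2

/-- Descent for the curve `y ^ 2 + x y = x ^ 3 + A x ^ 2 + b ^ 2` with the point `(0, b)` of order
two: cocycles. -/
def S_SQMA : Prop := ∀ (K : Type) [Field K] [CharP K 2] (A b t : K), b ≠ 0 → Bas t →
  (∀ α : K, AllVA A (b ^ 2) α → AS α ∨ AS (α + A)) →
  (∀ d : K, d ≠ 0 → AllFA A (b ^ 2) d → IsSquare d) →
  ∀ (T : Pt (cc A (b ^ 2)) (Sep K)), (∃ h, T = Point.some 0 (algebraMap K (Sep K) b) h) →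
  ∀ (c : (Sep K ≃ₐ[K] Sep K) → Pt (cc A (b ^ 2)) (Sep K)) (R : Pt (cc A (b ^ 2)) (Sep K)),
  IsCoc (cc A (b ^ 2)) c → LTA (cc A (b ^ 2)) c →
  (∀ σ, c σ + c σ = act (cc A (b ^ 2)) (rs K σ) R - R) →
  ∃ S0 : Pt (cc A (b ^ 2)) (Sep K), (S0 + S0 = R ∨ S0 + S0 = R + T) ∧
    ∀ σ, c σ = act (cc A (b ^ 2)) (rs K σ) S0 - S0

/-- Finitely many points. -/
def S_FN2A : Prop := ∀ (k K : Type) [Field k] [Finite k] [CharP k 2] [Field K] [CharP K 2]
  [Algebra k K], IsFF k K → ∀ (W : Affine K) (A b : K), Std W A (b ^ 2) → ¬ AS A →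
  ∀ T : W.Point, (∃ h, T = Point.some 0 b h) →
  (∀ P : W.Point, ∃ Q, Q + Q = P ∨ Q + Q = P + T) → Finite W.Point

/-- From the curve with the coefficients `a ^ 2` and `b ^ 2` to the curve with the coefficients `a`
and `b`. -/
def S_DWNA : Prop := ∀ (k K : Type) [Field k] [Finite k] [CharP k 2] [Field K] [CharP K 2]
  [Algebra k K], IsFF k K → ∀ (a b t : K), b ≠ 0 → Bas t → ¬ AS a →
  (∀ (T : Pt (cc (a ^ 2) (b ^ 2)) (Sep K)), (∃ h, T = Point.some 0 (algebraMap K (Sep K) b) h) →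
    ∀ (c : (Sep K ≃ₐ[K] Sep K) → Pt (cc (a ^ 2) (b ^ 2)) (Sep K))
      (R : Pt (cc (a ^ 2) (b ^ 2)) (Sep K)),
    IsCoc (cc (a ^ 2) (b ^ 2)) c → LTA (cc (a ^ 2) (b ^ 2)) c →
    (∀ σ, c σ + c σ = act (cc (a ^ 2) (b ^ 2)) (rs K σ) R - R) →
    ∃ S0 : Pt (cc (a ^ 2) (b ^ 2)) (Sep K), (S0 + S0 = R ∨ S0 + S0 = R + T) ∧
      ∀ σ, c σ = act (cc (a ^ 2) (b ^ 2)) (rs K σ) S0 - S0) →
  (∃ T : Finset K, ∀ d : K, d ≠ 0 → AllFA a b d → ∃ f ∈ T, ∃ y : K, y ≠ 0 ∧ d = f * y ^ 2) →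
  Finite (Pt (cc a b) K) ∧ Sha2A (cc a b)

/-- The conclusion for one twist. -/
def S_ONE : Prop := ∀ (k K : Type) [Field k] [Finite k] [CharP k 2] [Field K] [CharP K 2]
  [Algebra k K], IsFF k K → ∀ (F : GF k K) (a b : K), b ≠ 0 → (∀ j : PV K, Bal j.1 a b) →
  (∀ α : K, AllVA (a ^ 2) (b ^ 2) α ↔ mkq α ∈ SV (mkq a)) ∧
  (¬ AS a → (SV (mkq a)).ncard = 2 → Finite (Pt (cc a b) K) ∧ Sha2A (cc a b))

end Pool.Agent.H467.PG
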