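import Pool.Agent.H467.PG.SpecB

/-!
# Distribution of a Selmer group over all twists: counting, statements

Project PG (helper467).
-/

set_option autoImplicit false
set_option linter.all false

open Finset Filter WithZero
open Pool.Agent.H467.PT
open Pool.Agent.H467.GK
open Pool.Agent.H467.CT (AS Bas IsTau Std Ev LV LF cc)
open scoped Classical

namespace Pool.Agent.H467.PG

section nice

variable {k K : Type} [Field k] [Field K] [CharP K 2] [Algebra k K] {F : GF k K}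
  {B : Finset (PV K)}

/-- Nice divisors. -/
structure NiceC (bd : BD F B) (c : PV K → K) (L M C₀ : ℕ) (θ : ℝ) (D : Ob B →₀ ℕ) : Prop where
  sqf : ∀ p : Ob B, L < F.R.deg p.1 → D p ≤ 1
  sml : ∑ p ∈ D.support.filter (fun p => F.R.deg p.1 ≤ L), D p * F.R.deg p.1 ≤ M
  good : GoodG (sysB F.R B) (Nat.card k) (Rl bd) L θ D.support
  many : C₀ + 2 ≤ (D.support.filter (fun p => L < F.R.deg p.1)).card
  hit : ∀ α : Qc K, α ≠ 0 → (∀ j ∈ B, poq j α ≤ poq j (mkq (c j))) →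
    (∀ j : Ob B, L < F.R.deg j.1 → poq j.1 α = 0) →
    (∀ j : Ob B, F.R.deg j.1 ≤ L → poq j.1 α ≤ 2 * M) →
    ∃ p ∈ D.support, L < F.R.deg p.1 ∧ ¬ Spl p.1 α

/-- The classes with given local classes at `B` and given divisor. -/
def OmD (B : Finset (PV K)) (c : PV K → K) (D : Ob B →₀ ℕ) : Set (Qc K) :=
  {χ | (∀ j ∈ B, Spl j (χ + mkq (c j))) ∧ HasD χ D}

end nice

/-- Most divisors are nice. -/
def S_NIC : Prop := ∀ (k K : Type) [Field k] [Finite k] [CharP k 2] [Field K] [CharP K 2]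
  [Algebra k K], IsFF k K → ∀ (F : GF k K) (B : Finset (PV K)) (bd : BD F B) (c : PV K → K)
  (C₀ : ℕ) (θ ε : ℝ), 0 < θ → 0 < ε → ∃ L : ℕ, 24 ≤ L ∧ ∃ M m₀ : ℕ, ∀ m, m₀ ≤ m →
    ({D : Ob B →₀ ℕ | dgf (sysB F.R B) D = m ∧ ¬ NiceC bd c L M C₀ θ D}.ncard : ℝ) ≤
      ε * (Nat.card k : ℝ) ^ m

/-- The number of the classes with given divisor. -/
def S_OMU : Prop := ∀ (k K : Type) [Field k] [Finite k] [CharP k 2] [Field K] [CharP K 2]
  [Algebra k K], ∀ (R : GFR k K) (B : Finset (PV K)) (c : PV K → K),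
    ∃ C : ℝ, 0 < C ∧ ∀ D : Ob B →₀ ℕ, (OmD B c D).Finite ∧
      ((OmD B c D).ncard : ℝ) ≤ C * (Nat.card k : ℝ) ^ (dgf (sysB R B) D)

/-- The distribution for a nice divisor. -/
def S_OMD : Prop := ∀ (k K : Type) [Field k] [Finite k] [CharP k 2] [Field K] [CharP K 2]
  [Algebra k K], ∀ (F : GF k K) (B : Finset (PV K)) (bd : BD F B) (c : PV K → K)
  (L M C₀ : ℕ) (θ : ℝ) (D : Ob B →₀ ℕ), 24 ≤ L → 1 ≤ C₀ → 0 < θ → θ < (1 / 2) ^ (C₀ + 2) →
  NiceC bd c L M C₀ θ D → ∀ r : ℕ,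
    |({χ ∈ OmD B c D | (SV χ).ncard = 2 ^ (r + 1)}.ncard : ℝ) -
      pcr C₀ r * ((OmD B c D).ncard : ℝ)| ≤
        (6 * θ + 2 * (1 / 2) ^ C₀) * ((OmD B c D).ncard : ℝ)

/-- There are many classes with a given nice squarefree divisor. -/
def S_OMN : Prop := ∀ (k K : Type) [Field k] [Finite k] [CharP k 2] [Field K] [CharP K 2]
  [Algebra k K], ∀ (F : GF k K) (B : Finset (PV K)) (bd : BD F B) (c : PV K → K)
  (L M C₀ : ℕ) (θ : ℝ) (D : Ob B →₀ ℕ), 24 ≤ L → 1 ≤ C₀ → 0 < θ → θ < (1 / 2) ^ (C₀ + 2) →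
  NiceC bd c L M C₀ θ D → (∀ p, D p ≤ 1) →
    (Nat.card k : ℝ) ^ (dgf (sysB F.R B) D) ≤ ((OmD B c D).ncard : ℝ) *
      ((Nat.card k : ℝ) ^ M * 2 ^ (B.card + M + 1))

end Pool.Agent.H467.PG
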