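import Pool.Agent.H467.PG.SpecC

/-!
# Distribution of a Selmer group over all twists: all local classes together, statements

Project PG (helper467).
-/

set_option autoImplicit false
set_option linter.all false

open Finset Filter WithZero
open Pool.Agent.H467.PT
open Pool.Agent.H467.GK
open Pool.Agent.H467.CT (AS Bas IsTau Std Ev LV LF cc)
open scoped Classical

namespace Pool.Agent.H467.PG

/-- The degree of the divisor (half of the conductor) of `χ` is at most `m`. -/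
def DegLE {k K : Type} [Field k] [Field K] [CharP K 2] [Algebra k K] (R : GFR k K) (χ : Qc K)
    (m : ℕ) : Prop :=
  ∃ D : PV K →₀ ℕ, (∀ j, (poq j χ + 1) / 2 = D j) ∧ (D.sum fun j n => n * R.deg j) ≤ m

/-- The distribution for all classes which satisfy given local conditions `P` at `S`; they are
ordered by the degree of the conductor of `χ + a₀`. -/
def S_DST : Prop := ∀ (k K : Type) [Field k] [Finite k] [CharP k 2] [Field K] [CharP K 2]
  [Algebra k K], IsFF k K → ∀ (F : GF k K) (a₀ : K) (S : Finset (PV K)), F.B₁ ⊆ S →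
  (∀ j : PV K, j ∉ S → j.1 a₀ ≤ 1) → ∀ P : PV K → Qc K → Prop,
  (∀ j χ χ', Spl j (χ + χ') → P j χ → P j χ') → (∃ c : PV K → K, ∀ j ∈ S, P j (mkq (c j))) →
  (∃ C : ℝ, 0 < C ∧ ∀ m : ℕ, {χ : Qc K | DegLE F.R (χ + mkq a₀) m}.Finite ∧
    ({χ : Qc K | DegLE F.R (χ + mkq a₀) m}.ncard : ℝ) ≤ C * (Nat.card k : ℝ) ^ (2 * m)) ∧
  (∃ c' : ℝ, 0 < c' ∧ ∃ m₀ : ℕ, ∀ m, m₀ ≤ m → c' * (Nat.card k : ℝ) ^ (2 * m) ≤
    ({χ : Qc K | (∀ j ∈ S, P j χ) ∧ DegLE F.R (χ + mkq a₀) m}.ncard : ℝ)) ∧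
  ∀ r : ℕ, Tendsto (fun m : ℕ =>
    ({χ : Qc K | ((∀ j ∈ S, P j χ) ∧ DegLE F.R (χ + mkq a₀) m) ∧
      (SV χ).ncard = 2 ^ (r + 1)}.ncard : ℝ) /
    ({χ : Qc K | (∀ j ∈ S, P j χ) ∧ DegLE F.R (χ + mkq a₀) m}.ncard : ℝ)) atTop (nhds (alp r))

/-- Balanced local classes exist, and the condition depends only on the local class. -/
def S_BEX : Prop := ∀ (K : Type) [Field K] [CharP K 2] (u : Vl K), Function.Surjective u →
  (∀ (I : Type) [Finite I] (b : I → K), ∃ c : K, ∀ i, Bal u c (b i)) ∧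
  ∀ a a' b : K, Sp u (a + a') → Bal u a b → Bal u a' b

end Pool.Agent.H467.PG
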