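import Pool.Agent.H467.PG.SpecB
import Pool.Agent.H467.GK.Hen

/-!
# Elementary properties of the symbols (project PG of helper467)
-/

set_option autoImplicit false
set_option linter.all false

open Finset Filter WithZero WeierstrassCurve WeierstrassCurve.Affine
open Pool.Agent.H467.GK
open Pool.Agent.H467.CT (AS Bas Ev)
open scoped Classical

namespace Pool.Agent.H467.PG.Sym

variable {K : Type} [Field K] [CharP K 2]

theorem sy_zero (G : GFS K) (j : PV K) : G.sy j 0 = 0 := by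
  have h := G.add j 0 0
  rw [add_zero] at h
  exact left_eq_add.1 h

/-- Classes which are trivial in the completion have trivial symbols. -/
theorem sy_loc (G : GFS K) (j : PV K) {x d : K} (hd : d ≠ 0)
    (h : AS (algebraMap K (Cm j.1) x)) : G.sy j (x * dl G.t d) = 0 := by
  apply G.nrm j x d hd
  refine ⟨0, ?_⟩
  have e : algebraMap K (Cm j.1) x + algebraMap K (Cm j.1) d * 0 ^ 2 =
      algebraMap K (Cm j.1) x := by ring
  rw [e]
  exact h

theorem as_alg (u : Vl K) {x : K} (h : AS x) : AS (algebraMap K (Cm u) x) := by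
  obtain ⟨z, hz⟩ := h
  exact ⟨algebraMap K (Cm u) z, by rw [hz, map_add, map_pow]⟩

theorem as_small (j : PV K) {x : K} (h : j.1 x < 1) : AS (algebraMap K (Cm j.1) x) := by
  obtain ⟨h1, h2, -⟩ := Hen.hen K j.1 j.2
  apply h2
  rw [h1]
  exact h

theorem zadd {a b : ZMod 2} (h : a + b = 0) : a = b := by
  revert a b; decide

theorem sy_congr (G : GFS K) (j : PV K) {x y d : K} (hd : d ≠ 0) (h : AS (x + y)) :
    G.sy j (x * dl G.t d) = G.sy j (y * dl G.t d) := by
  have h1 := sy_loc G j hd (as_alg j.1 h)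
  rw [add_mul, G.add] at h1
  exact zadd h1

theorem pr_mkq (G : GFS K) (j : PV K) (x d : K) (hd : d ≠ 0) :
    pr G j d (mkq x) = G.sy j (x * dl G.t d) := by
  unfold pr
  apply sy_congr G j hd
  have h1 : (QuotientAddGroup.mk ((mkq x).out) : Qc K) = QuotientAddGroup.mk x :=
    Quotient.out_eq (mkq x)
  have h2 : -((mkq x).out) + x ∈ wp K := QuotientAddGroup.eq.1 h1
  rw [CharTwo.neg_eq] at h2
  exact h2

theorem mkq_out (χ : Qc K) : ∃ x : K, mkq x = χ := by
  refine ⟨χ.out, ?_⟩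
  exact Quotient.out_eq χ

/-- The residue field is perfect. -/
theorem sq_res (j : PV K) (hf : Finite (IsLocalRing.ResidueField j.1.valuationSubring)) {x : K}
    (hx : j.1 x ≤ 1) : ∃ s : K, j.1 s ≤ 1 ∧ j.1 (x + s ^ 2) < 1 := by
  have c2 : (2 : K) = 0 := CharTwo.two_eq_zero
  have h2 : (2 : IsLocalRing.ResidueField j.1.valuationSubring) = 0 := by
    have h3 : (2 : j.1.valuationSubring) = 0 := by
      apply Subtype.ext
      exact c2
    have h4 : (IsLocalRing.residue j.1.valuationSubring) 2 = 0 := by rw [h3, map_zero]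
    rwa [map_ofNat] at h4
  have hch : ringChar (IsLocalRing.ResidueField j.1.valuationSubring) = 2 :=
    CharP.ringChar_of_prime_eq_zero Nat.prime_two (by exact_mod_cast h2)
  obtain ⟨r, hr⟩ := FiniteField.isSquare_of_char_two hch
    (IsLocalRing.residue j.1.valuationSubring ⟨x, hx⟩)
  obtain ⟨s, hs⟩ := IsLocalRing.residue_surjective r
  refine ⟨s.1, s.2, ?_⟩
  have h5 : IsLocalRing.residue j.1.valuationSubring ((⟨x, hx⟩ : j.1.valuationSubring) + s ^ 2) =
      0 := by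
    rw [map_add, map_pow, hr, hs]
    linear_combination (r * r) * h2
  rw [IsLocalRing.residue_eq_zero_iff] at h5
  exact (Valuation.mem_maximalIdeal_iff K j.1).1 h5

theorem ev_pr (G : GFS K) (j : PV K)
    (hf : Finite (IsLocalRing.ResidueField j.1.valuationSubring)) {x d : K} (hd : d ≠ 0)
    (hx : j.1 x ≤ 1) (he : Ev (j.1 d)) : G.sy j (x * dl G.t d) = 0 := by
  obtain ⟨n, hn⟩ := he
  obtain ⟨π, hπ⟩ := j.2 (exp (-n))
  have hu : j.1 (d * π ^ 2) = 1 := by
    rw [map_mul, map_pow, hn, hπ, sq, ← exp_add, ← exp_add, ← exp_zero]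
    congr 1
    ring
  have hu0 : d * π ^ 2 ≠ 0 := by
    intro h0
    rw [h0, map_zero] at hu
    exact zero_ne_one hu
  have h1 : j.1 (x / (d * π ^ 2)) ≤ 1 := by rw [map_div₀, hu, div_one]; exact hx
  obtain ⟨s, -, hs⟩ := sq_res j hf h1
  have h2 : j.1 (x + d * (π * s) ^ 2) < 1 := by
    have e : x + d * (π * s) ^ 2 = (x / (d * π ^ 2) + s ^ 2) * (d * π ^ 2) := by
      rw [add_mul, div_mul_cancel₀ _ hu0]
      ring
    rw [e, map_mul, hu, mul_one]
    exact hs
  apply G.nrm j x d hd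
  refine ⟨algebraMap K (Cm j.1) (π * s), ?_⟩
  have h3 := as_small j h2
  rw [map_add, map_mul, map_pow] at h3
  exact h3

section dlo

variable (G : GFS K) (j : PV K) (hj : j ∉ G.B₀)

include hj

theorem dl_scale {d π : K} {n : ℤ} (hd : d ≠ 0) (hπ : π ≠ 0)
    (h : j.1 (d * π ^ 2) = exp (-n)) (hn : 0 ≤ n) : j.1 (dl G.t d) ≤ exp n := by
  obtain ⟨p, hp⟩ := qq_spec G.bas d
  have h1 : j.1 (qq G.t d * π) ≤ 1 := by
    apply G.der j hj (p * π)
    have e : (p * π) ^ 2 + G.t * (qq G.t d * π) ^ 2 = d * π ^ 2 := by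
      conv_rhs => rw [hp]
      ring
    rw [e, h, ← exp_zero, exp_le_exp]
    omega
  have e : dl G.t d = (qq G.t d * π) ^ 2 / (d * π ^ 2) := by
    unfold dl
    field_simp
  rw [e, map_div₀, map_pow, h, exp_neg, div_inv_eq_mul]
  calc j.1 (qq G.t d * π) ^ 2 * exp n ≤ 1 * exp n :=
        mul_le_mul_left (pow_le_one' h1 2) _
    _ = exp n := one_mul _

theorem dl_even {d : K} (hd : d ≠ 0) (he : Ev (j.1 d)) : j.1 (dl G.t d) ≤ 1 := by
  obtain ⟨n, hn⟩ := he
  obtain ⟨π, hπ⟩ := j.2 (exp (-n))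
  have hπ0 : π ≠ 0 := by
    rintro rfl
    rw [map_zero] at hπ
    exact exp_ne_zero hπ.symm
  have := dl_scale G j hj (n := 0) hd hπ0 (by
    rw [map_mul, map_pow, hn, hπ, sq, ← exp_add, ← exp_add]
    congr 1
    ring) le_rfl
  rwa [exp_zero] at this

theorem dl_le {d : K} (hd : d ≠ 0) : j.1 (dl G.t d) ≤ exp (1 : ℤ) := by
  by_cases he : Ev (j.1 d)
  · refine (dl_even G j hj hd he).trans ?_
    rw [← exp_zero, exp_le_exp]
    omega
  · have h0 : j.1 d ≠ 0 := (Valuation.ne_zero_iff j.1).2 hd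
    obtain ⟨m, hm⟩ : ∃ m : ℤ, j.1 d = exp m := ⟨log (j.1 d), (exp_log h0).symm⟩
    rcases Int.even_or_odd' m with ⟨n, hn | hn⟩
    · exact absurd ⟨n, by rw [hm, hn]⟩ he
    obtain ⟨π, hπ⟩ := j.2 (exp (-(n + 1)))
    have hπ0 : π ≠ 0 := by
      rintro rfl
      rw [map_zero] at hπ
      exact exp_ne_zero hπ.symm
    exact dl_scale G j hj (n := 1) hd hπ0 (by
      rw [map_mul, map_pow, hm, hn, hπ, sq, ← exp_add, ← exp_add]
      congr 1
      ring) (by omega)

theorem dl_ev {d : K} (hd : d ≠ 0) (h : j.1 (dl G.t d) < 1) : Ev (j.1 d) := by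
  obtain ⟨p, hp⟩ := qq_spec G.bas d
  have h0 : 0 < j.1 d := zero_lt_iff.2 ((Valuation.ne_zero_iff j.1).2 hd)
  have h1 : j.1 (qq G.t d ^ 2) < j.1 d := by
    unfold dl at h
    rw [map_div₀] at h
    exact (div_lt_one₀ h0).1 h
  have h2 : j.1 (G.t * qq G.t d ^ 2) < j.1 d := by
    refine lt_of_le_of_lt ?_ h1
    rw [map_mul]
    exact mul_le_of_le_one_left' (G.tint j hj)
  have h3 : j.1 (p ^ 2) = j.1 d := by
    have e : p ^ 2 = d - G.t * qq G.t d ^ 2 := by
      linear_combination -hp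
    rw [e]
    exact Valuation.map_sub_eq_of_lt_left _ h2
  have hp0 : p ≠ 0 := by
    rintro rfl
    rw [← h3] at h0
    simp at h0
  rw [← h3]
  exact Pool.Agent.H467.CT.ev_sq hp0

/-- The value of the logarithmic derivative is zero or has the parity of `d`. -/
theorem dl_par {d : K} (hd : d ≠ 0) : j.1 (dl G.t d) = 0 ∨ ∃ n m : ℤ,
    j.1 (dl G.t d) = exp (2 * n - m) ∧ j.1 d = exp m := by
  by_cases hq : qq G.t d = 0
  · left
    unfold dl
    rw [hq]
    simp
  · right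
    have h0 : j.1 d ≠ 0 := (Valuation.ne_zero_iff j.1).2 hd
    have h1 : j.1 (qq G.t d) ≠ 0 := (Valuation.ne_zero_iff j.1).2 hq
    refine ⟨log (j.1 (qq G.t d)), log (j.1 d), ?_, (exp_log h0).symm⟩
    unfold dl
    rw [map_div₀, map_pow, exp_sub, exp_log h0, two_mul, exp_add, exp_log h1, sq]

theorem dl_all {d : K} (hd : d ≠ 0) : j.1 (dl G.t d) ≤ exp (1 : ℤ) ∧
    (Ev (j.1 d) → j.1 (dl G.t d) ≤ 1) ∧ (¬ Ev (j.1 d) → j.1 (dl G.t d) = exp (1 : ℤ)) ∧
    (j.1 (dl G.t d) < 1 → Ev (j.1 d) ∧ j.1 (dl G.t d) ≤ exp (-2 : ℤ)) := by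
  have hle := dl_le G j hj hd
  refine ⟨hle, dl_even G j hj hd, fun hne => ?_, fun hlt => ?_⟩
  · have h1 : ¬ j.1 (dl G.t d) < 1 := fun h => hne (dl_ev G j hj hd h)
    rcases dl_par G j hj hd with h2 | ⟨n, m, h2, h3⟩
    · rw [h2] at h1
      exact absurd zero_lt_one h1
    · rw [h2, ← exp_zero, exp_lt_exp] at h1
      rw [h2, exp_le_exp] at hle
      have h4 : 2 * n - m ≠ 0 := fun h5 => hne ⟨n, by rw [h3]; congr 1; omega⟩
      rw [h2]
      congr 1
      omega
  · have he := dl_ev G j hj hd hlt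
    refine ⟨he, ?_⟩
    rcases dl_par G j hj hd with h2 | ⟨n, m, h2, h3⟩
    · rw [h2]; exact zero_le'
    · obtain ⟨l, hl⟩ := he
      rw [h3, exp_inj] at hl
      rw [h2, ← exp_zero, exp_lt_exp] at hlt
      rw [h2, exp_le_exp]
      omega

end dlo

theorem sym : S_POQ → S_SYM := by
  intro hpoq K _ _ G j hf
  obtain ⟨q1, q2, -, -, q5, -⟩ := hpoq K j
  refine ⟨fun x d hd => pr_mkq G j x d hd, ?_, ?_, ?_, ?_, ?_, ?_, ?_⟩
  · intro χ χ' d hd
    obtain ⟨x, rfl⟩ := mkq_out χ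
    obtain ⟨y, rfl⟩ := mkq_out χ'
    have e : mkq x + mkq y = mkq (x + y) := rfl
    rw [e, pr_mkq G j _ _ hd, pr_mkq G j _ _ hd, pr_mkq G j _ _ hd, add_mul, G.add]
  · intro χ d d' hd hd'
    unfold pr
    rw [dl_mul G.bas hd hd', mul_add, G.add]
  · intro χ y
    unfold pr
    rw [dl_sq G.bas, mul_zero, sy_zero]
  · rintro χ d hd ⟨a, rfl, ha⟩
    rw [pr_mkq G j _ _ hd]
    exact sy_loc G j hd (as_small j ha)
  · intro χ d hd hχ he
    obtain ⟨a, rfl, ha⟩ := (q5 χ).1 hχ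
    rw [pr_mkq G j _ _ hd]
    exact ev_pr G j hf hd ha he
  · intro χ d hd hχ hns hne
    obtain ⟨a, rfl, ha⟩ := (q5 χ).1 hχ
    rw [pr_mkq G j _ _ hd]
    exact G.odd j a d hd ha (fun h => hns ((q2 a).1 h)) hne
  · intro hj d hd
    exact dl_all G j hj hd

end Pool.Agent.H467.PG.Sym
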